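import Mathlib

/-! Lattice model for the extension operator: definitions and the statements of all pieces. -/

namespace Pool.Agent.Lib.MP_108739_an.HA

open Finset
open scoped Real

noncomputable section

abbrev Arr := AddMonoidAlgebra ℂ (ℤ × ℤ)
abbrev Arr1 := AddMonoidAlgebra ℂ ℤ

def ex (x : ℝ) : ℂ := Complex.exp (2 * π * Complex.I * x)

structure Curve (φ ψ : ℝ → ℝ) : Prop where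
  conv : ∀ x y, φ x + ψ x * (y - x) ≤ φ y
  lo : ∀ x y, x ≤ y → y - x ≤ ψ y - ψ x
  hi : ∀ x y, x ≤ y → ψ y - ψ x ≤ 2 * (y - x)
  z1 : |φ 0| ≤ 1
  z2 : |ψ 0| ≤ 1

structure Mo where
  L : ℝ
  Q : ℝ
  φ : ℝ → ℝ
  ψ : ℝ → ℝ
  hL : 0 < L
  hQ : 0 < Q
  cv : Curve φ ψ

def ev (M : Mo) (F : Arr) (z : ℝ × ℝ) : ℂ :=
  ∑ k ∈ F.coeff.support, F.coeff k * ex (z.1 * (k.1 / M.L) + z.2 * (k.2 / (M.L * M.Q)))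

def nrm (F : Arr) : ℝ := ∑ k ∈ F.coeff.support, ‖F.coeff k‖ ^ 2

def en (M : Mo) (R : ℝ) (F : Arr) : ℝ := M.L ^ 2 * M.Q / R * nrm F

def Supp (M : Mo) (F : Arr) (a b w : ℝ) : Prop :=
  ∀ k ∈ F.coeff.support, a ≤ k.1 / M.L ∧ k.1 / M.L ≤ b ∧
    |k.2 / (M.L * M.Q) - M.φ (k.1 / M.L)| ≤ w

open Classical in
def cut (M : Mo) (a b : ℝ) (F : Arr) : Arr :=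
  .ofCoeff (F.coeff.filter fun k => a ≤ k.1 / M.L ∧ k.1 / M.L < b)

def md (M : Mo) (z : ℝ × ℝ) (F : Arr) : Arr :=
  .ofCoeff (Finsupp.onFinset F.coeff.support
    (fun k => F.coeff k * ex (z.1 * (k.1 / M.L) + z.2 * (k.2 / (M.L * M.Q))))
    (fun _ hk => Finsupp.mem_support_iff.2 (left_ne_zero_of_mul hk)))

def ev1 (P : ℝ) (A : Arr1) (y : ℝ) : ℂ := ∑ s ∈ A.coeff.support, A.coeff s * ex (y * (s / P))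

def nrm1 (A : Arr1) : ℝ := ∑ s ∈ A.coeff.support, ‖A.coeff s‖ ^ 2

def Spec1 (P u : ℝ) (A : Arr1) : Prop := ∀ s ∈ A.coeff.support, |(s : ℝ) / P| ≤ u

def tilt (j : ℤ) (A : Arr1) : Arr := .ofCoeff (A.coeff.mapDomain fun s => (s, j * s))

def vert (A : Arr1) : Arr := .ofCoeff (A.coeff.mapDomain fun s => (0, s))

/-- Integer slope index of the grid interval `[l s, (l+1) s)`. -/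
def sl (M : Mo) (s : ℝ) (l : ℤ) : ℤ := round (M.Q * M.ψ (⌊M.L * ((l - 1 / 2) * s)⌋ / M.L))

def cs (M : Mo) (s : ℝ) (l : ℤ) : ℝ := sl M s l / M.Q

def InBox (R : ℝ) (p : ℝ × ℝ) : Prop := 0 ≤ p.1 ∧ p.1 < R ∧ 0 ≤ p.2 ∧ p.2 < R

def InSq (z : ℝ × ℝ) (r : ℝ) (p : ℝ × ℝ) : Prop :=
  z.1 ≤ p.1 ∧ p.1 ≤ z.1 + r ∧ z.2 ≤ p.2 ∧ p.2 ≤ z.2 + r

open Classical in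
def KT (Θ : ℝ) (X : Finset (ℝ × ℝ)) : Prop :=
  ∀ z r, 1 ≤ r → (#{p ∈ X | InSq z r p} : ℝ) ≤ Θ * r

open Classical in
def Frost (X : Finset (ℝ × ℝ)) (R δ Γ t : ℝ) : Prop :=
  ∀ z r, δ ≤ r → r ≤ 1 → (#{p ∈ X | InSq z (r * R) p} : ℝ) ≤ Γ * #X * r ^ t

/-! ### Kernels, sieve -/

def KerStmt : Prop := ∀ (k : ℕ) (P w : ℝ), 1 ≤ k → 0 < w → 2 * k * w ≤ P →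
  ∃ (J : Finset ℤ) (s0 : ℝ) (η : ℤ → Arr1), w / 2 ≤ s0 ∧ s0 ≤ 2 * w ∧ (#J : ℝ) ≤ 2 * P / w + 1 ∧
    (∀ j ∈ J, |j * s0| ≤ P / 2) ∧ (∀ j ∈ J, Spec1 P (1 / w) (η j)) ∧
    (∀ j ∈ J, ∀ y, ∃ r : ℝ, 0 ≤ r ∧ ev1 P (η j) y = r) ∧ ∑ j ∈ J, η j = 1 ∧
    ∀ j ∈ J, ∀ y d : ℝ, 0 < d → d ≤ P / 4 → |y| + |j * s0| ≤ 3 * P / 4 → d ≤ |y - j * s0| →
      ‖ev1 P (η j) y‖ ≤ (k * w / d) ^ (2 * k)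

def BumpStmt : Prop := ∀ (k : ℕ) (P w W y0 r : ℝ), 1 ≤ k → 0 < w → 2 * k * w ≤ P → 0 < W → 0 ≤ r →
  |y0| + r + W ≤ P / 8 →
  ∃ V : Arr1, Spec1 P (1 / w) V ∧ (∀ y, ‖ev1 P V y‖ ≤ 1) ∧
    (∀ y, |y - y0| ≤ r → 1 - (2 * P / w + 1) * (2 * k * w / W) ^ (2 * k) ≤ ‖ev1 P V y‖) ∧
    ∀ y, |y| ≤ 5 * P / 8 → r + W ≤ |y - y0| →
      ‖ev1 P V y‖ ≤ (2 * P / w + 1) * (2 * k * w / W) ^ (2 * k)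

def DirStmt : Prop := ∀ P u : ℝ, 0 < u → 20 * u ≤ P →
  (∀ y0 : ℝ, ∃ A : Arr1, Spec1 P (1 / (10 * u)) A ∧ nrm1 A ≤ 20 * u / P ∧
    (∀ y, ‖ev1 P A y‖ ≤ 1) ∧ ∀ y, |y - y0| ≤ u → 1 / 2 ≤ ‖ev1 P A y‖) ∧
  ∃ (J : Finset ℤ) (s0 : ℝ) (A : ℤ → Arr1), u / 2 ≤ s0 ∧ s0 ≤ u ∧
    (∀ j : ℤ, |j * s0| ≤ P / 3 → j ∈ J) ∧ (∀ j ∈ J, Spec1 P (1 / (10 * u)) (A j)) ∧
    (∀ j ∈ J, ∀ y, |y - j * s0| ≤ u → 1 / 2 ≤ ‖ev1 P (A j) y‖) ∧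
    ∀ y, ∑ j ∈ J, ‖ev1 P (A j) y‖ ^ 2 ≤ 40

def SieveStmt : Prop := ∃ C : ℝ, 0 < C ∧ ∀ (M : Mo) (G : Arr) (X : Finset (ℝ × ℝ)) (R : ℝ),
  1 ≤ R → 4 * R ≤ M.L → 4 * R ≤ M.L * M.Q →
  (∀ k ∈ G.coeff.support, |k.1 / M.L| ≤ 30 ∧ |k.2 / (M.L * M.Q)| ≤ 30) →
  (∀ p ∈ X, InBox R p) → KT 8 X → ∑ p ∈ X, ‖ev M G p‖ ^ 2 ≤ C * (M.L ^ 2 * M.Q * nrm G)

/-! ### Decoupling -/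

def Cap (M : Mo) (F : Arr) (a s : ℝ) : Prop := Supp M F (a - 2 * s) (a + 3 * s) (s ^ 2)

def Dec (n : ℕ) (D : ℝ) : Prop := ∀ (M : Mo) (a s : ℝ) (F : ℕ → Arr) (w : ℕ → ℝ), 0 < s →
  (∀ i < n, Cap M (F i) (a + i * s) s) → (∀ i < n, 0 ≤ w i ∧ nrm (F i ^ 3) ≤ w i ^ 3) →
  nrm ((∑ i ∈ range n, F i) ^ 3) ≤ D * (∑ i ∈ range n, w i) ^ 3

def blk (K P a I : ℕ) : Finset ℕ := Ico (I * K ^ (P - a)) ((I + 1) * K ^ (P - a))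

def Bil (K P a b : ℕ) (B : ℝ) : Prop := ∀ (M : Mo) (α s : ℝ) (F : ℕ → Arr) (w : ℕ → ℝ), 0 < s →
  (∀ i < K ^ P, Cap M (F i) (α + i * s) s) → (∀ i < K ^ P, 0 ≤ w i ∧ nrm (F i ^ 3) ≤ w i ^ 3) →
  ∀ I < K ^ a, ∀ I' < K ^ b,
    (I / K ^ (a - 1) + 7 ≤ I' / K ^ (b - 1) ∨ I' / K ^ (b - 1) + 7 ≤ I / K ^ (a - 1)) →
    nrm ((∑ i ∈ blk K P a I, F i) * (∑ i ∈ blk K P b I', F i) ^ 2) ≤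
      B * (∑ i ∈ blk K P a I, w i) * (∑ i ∈ blk K P b I', w i) ^ 2

def D1Stmt : Prop := ∀ (K P : ℕ) (D B : ℝ), 1 ≤ K → 1 ≤ P → 0 ≤ D → 0 ≤ B →
  Dec (K ^ (P - 1)) D → Bil K P 1 1 B → Dec (K ^ P) (14 ^ 6 * D + (K : ℝ) ^ 8 * B)

def D2Stmt : Prop := ∀ (K P a b : ℕ) (B : ℝ), 1 ≤ K → 1 ≤ a → 1 ≤ b → a ≤ 2 * b → 2 * b ≤ P →
  0 ≤ B → Bil K P (2 * b) b B → Bil K P a b (200 * K * B)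

def D3Stmt : Prop := ∀ (K P a b : ℕ) (B D D' : ℝ), 1 ≤ K → a ≤ P → b ≤ P → 0 ≤ B → 0 ≤ D → 0 ≤ D' →
  (Bil K P b a B → Dec (K ^ (P - b)) D → Bil K P a b √(B * D)) ∧
  (Dec (K ^ (P - a)) D' → Dec (K ^ (P - b)) D → Bil K P a b (D' + D))

def D0Stmt : Prop := (∀ n : ℕ, Dec n ((n : ℝ) ^ 5)) ∧
  (∀ (n n' : ℕ) (D D' : ℝ), n ≤ n' → D' ≤ D → Dec n' D' → Dec n D)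

def DecStmt : Prop := ∀ ε : ℝ, 0 < ε → ∃ C : ℝ, 1 ≤ C ∧ ∀ n : ℕ, 1 ≤ n → Dec n (C * (n : ℝ) ^ ε)

/-! ### Combinatorial lemmas -/

def FlowStmt : Prop := ∀ {Y κ : Type} [DecidableEq Y] [DecidableEq κ] (S : Finset Y)
  (pj : ℕ → Y → κ) (m : ℕ) (cap : ℕ → ℕ) (Θ : ℝ), 1 ≤ Θ →
  (∀ j y y', pj j y = pj j y' → pj (j + 1) y = pj (j + 1) y') →
  (∀ j ≤ m, ∀ c, (#{y ∈ S | pj j y = c} : ℝ) ≤ Θ * cap j) →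
  ∃ S' ⊆ S, (#S : ℝ) ≤ Θ * #S' ∧ ∀ j ≤ m, ∀ c, #{y ∈ S' | pj j y = c} ≤ cap j

def UniStmt : Prop := ∀ {Y κ : Type} [DecidableEq Y] [DecidableEq κ] (S : Finset Y)
  (pj : ℕ → Y → κ) (m : ℕ), (∀ j y y', pj j y = pj j y' → pj (j + 1) y = pj (j + 1) y') →
  ∃ S' ⊆ S, #S ≤ (Nat.log 2 #S + 1) ^ (m + 1) * #S' ∧
    ∀ j ≤ m, ∀ c, #(S'.image (pj j)) * #{y ∈ S' | pj j y = c} ≤ 2 * #S'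

def SlopeStmt : Prop := ∀ (e : ℝ) (l0 : ℕ), 0 < e → ∃ m : ℕ, 1 ≤ m ∧ ∀ F : ℕ → ℝ,
  (∀ l ≤ m, 0 ≤ F l ∧ F l ≤ 2 * l) → ∃ (ls : ℕ) (t : ℝ), l0 ≤ ls ∧ ls ≤ m ∧ 0 ≤ t ∧ t ≤ 3 / 2 ∧
    (∀ l ≤ ls, t * l - e * ls ≤ F l) ∧ (F ls ≤ t * ls ∨ (t = 3 / 2 ∧ ls = m))

def cube (ρ : ℝ) (p : ℝ × ℝ) : ℤ × ℤ := (⌊p.1 / ρ⌋, ⌊p.2 / ρ⌋)

open Classical in
def PrepStmt : Prop := ∀ (e : ℝ) (l0 : ℕ), 0 < e → ∃ m : ℕ, 1 ≤ m ∧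
  ∀ (D : ℕ) (R : ℝ) (X : Finset (ℝ × ℝ)), 2 ≤ D → 0 < R → (∀ p ∈ X, InBox R p) → X.Nonempty →
    ∃ X' ⊆ X, ∃ (ls : ℕ) (t : ℝ), X'.Nonempty ∧ l0 ≤ ls ∧ ls ≤ m ∧ 0 ≤ t ∧ t ≤ 3 / 2 ∧
      #X ≤ (Nat.log 2 #X + 1) ^ (m + 1) * #X' ∧
      Frost X' R (1 / (D : ℝ) ^ ls) (8 * D ^ 2 * ((D : ℝ) ^ ls) ^ e) t ∧
      ((#(X'.image (cube (R / (D : ℝ) ^ ls))) : ℝ) ≤ ((D : ℝ) ^ ls) ^ t ∨ (t = 3 / 2 ∧ ls = m))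

open Classical in
def NarrowStmt : Prop := ∀ (K A dm : ℕ) (z : ℕ → ℤ → ℂ) (b0 : ℤ), 1 ≤ K → 1 ≤ A →
  (∀ d b, z d b = ∑ r ∈ range K, z (d + 1) (K * b + r)) →
  ∃ d ≤ dm, ∃ b : ℤ, b / (K : ℤ) ^ d = b0 ∧ ‖z 0 b0‖ ≤ (2 * A : ℝ) ^ d * ‖z d b‖ ∧
    (if d = dm then 1 else A) ≤ #{r ∈ range K | ‖z d b‖ ≤ 2 * K * ‖z (d + 1) (K * b + r)‖}

def arcS (D h a : ℕ) (S : Finset ℕ) : Finset ℕ := {l ∈ S | l / D ^ h = a}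

def Hier (D : ℕ) (Sel : ℕ → ℕ → Finset ℕ → Finset ℕ) : Prop :=
  (∀ a S, Sel 0 a S ⊆ arcS D 0 a S) ∧
  (∀ h a S, Sel (h + 1) a S = ∅ ∨
    Sel (h + 1) a S = (range D).biUnion fun r => Sel h (D * a + r) S) ∧
  ∀ h a S S', arcS D h a S = arcS D h a S' → Sel h a S = Sel h a S'

def StageAt (D ls jm : ℕ) (ts th γ0 : ℝ) (Sel : ℕ → ℕ → ℕ → Finset ℕ → Finset ℕ) : Prop :=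
  (∀ j, Hier D (Sel j)) ∧ ∀ S : Finset ℕ, (∀ l ∈ S, l < D ^ ls) → (#S : ℝ) ≤ γ0 * th →
    ∃ j, j ≤ jm ∧ ∃ (Hv : Finset (ℕ × ℕ)) (st : ℕ × ℕ → ℕ),
      (∀ h ≤ ls, ∀ a, (#(arcS D h a (Sel j ls 0 S)) : ℝ) * th ≤
        2 * #(Sel j ls 0 S) * ((D : ℝ) ^ h) ^ ts) ∧
      (∀ τ ∈ Hv, τ.1 < ls ∧ τ.2 < D ^ ls ∧ st τ < jm) ∧
      (∀ g : ℕ → ℂ, ∑ l ∈ S, g l =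
        ∑ l ∈ Sel j ls 0 S, g l + ∑ τ ∈ Hv, ∑ l ∈ arcS D τ.1 τ.2 S, g l) ∧
      (∀ h j', (#{τ ∈ Hv | τ.1 = h ∧ st τ = j'} : ℝ) * ((D : ℝ) ^ h) ^ ts ≤ th) ∧
      ∀ h j' h' a', h < h' → h' ≤ ls →
        (#{τ ∈ Hv | τ.1 = h ∧ st τ = j' ∧ τ.2 / D ^ (h' - h) = a'} : ℝ) * ((D : ℝ) ^ h) ^ ts ≤
          ((D : ℝ) ^ h') ^ ts

def StageStmt : Prop := ∀ (D ls jm : ℕ) (ts th γ0 : ℝ), 2 ≤ D → 1 ≤ jm → 0 ≤ ts → 0 < th →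
  th ≤ ((D : ℝ) ^ ls) ^ ts → 0 < γ0 → γ0 < 2 ^ (jm - 1) → ∃ Sel, StageAt D ls jm ts th γ0 Sel

open Classical in
def SparseStmt : Prop := ∀ (X : Finset (ℝ × ℝ)) (K0 : ℕ) (r : ℕ → ℝ), 1 ≤ K0 → Monotone r →
  0 ≤ r 0 → ∃ k < K0, ∃ C ⊆ X, (∀ p ∈ C, ∀ q ∈ C, p ≠ q → r (k + 1) < dist p q) ∧
    (#X : ℝ) ≤ K0 * (#X : ℝ) ^ (1 / (K0 : ℝ)) * ∑ p ∈ C, (#{q ∈ X | dist q p ≤ r k} : ℝ)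

/-! ### Incidence input -/

def FStmt : Prop := ∃ C0 : ℝ, 0 ≤ C0 ∧ ∀ e e2 : ℝ, 0 < e → 0 < e2 → ∃ c : ℝ, 0 < c ∧
  ∀ (ν : ℕ) (t κ γ n : ℝ) (P : Finset (ℕ × ℕ)) (D : ℕ × ℕ → Finset ℕ),
    0 ≤ t → t ≤ 3 / 2 → 0 < κ → κ ≤ 1 → 1 ≤ γ → 0 ≤ n →
    (∀ p ∈ P, p.1 < 2 ^ ν ∧ p.2 < 2 ^ ν) →
    (∀ j ≤ ν, ∀ u v, (#{p ∈ P | p.1 / 2 ^ j = u ∧ p.2 / 2 ^ j = v} : ℝ) ≤ 2 * ((2 : ℝ) ^ j) ^ t) →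
    (∀ p ∈ P, ∀ s ∈ D p, s < 2 ^ ν) → (∀ p ∈ P, n ≤ #(D p)) →
    (∀ p ∈ P, ∀ j ≤ ν, ∀ u,
      (#{s ∈ D p | s / 2 ^ j = u} : ℝ) ≤ γ * ((2 : ℝ) ^ j) ^ min t (2 - t)) →
    (∀ p ∈ P, ∀ j : ℕ, (2 : ℝ) ^ j ≤ κ * 2 ^ ν → ∀ u,
      (#{s ∈ D p | s / 2 ^ j = u} : ℝ) ≤ ((2 : ℝ) ^ ν) ^ (-e2) * #(D p)) →
    c * ((2 : ℝ) ^ ν) ^ (-e) * κ ^ C0 * #P * ((2 : ℝ) ^ ν) ^ (-t / 2) * n ^ (3 / 2 : ℝ) / √γ ≤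
      #(P.biUnion fun p => (D p).image fun s => (s, p.1 + s * p.2 / 2 ^ ν))

open Classical in
/-- Weighted, grouped form of the incidence theorem. -/
def FFat (C0 e e2 c : ℝ) : Prop :=
  ∀ {Y G α T : Type} (S : Finset Y) (pos : Y → ℝ × ℝ) (gr : Y → G) (z0 : G → ℝ × ℝ) (sp : ℤ → ℝ)
    (Φ : Finset α) (pt : α → Y) (ar : α → ℕ) (dr : α → ℤ)
    (𝒯 : Finset T) (tg : T → G) (td : T → ℤ) (off : T → ℝ) (ℓ δ κ t Θ γ β Λ A n : ℝ),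
    0 < ℓ → 0 < δ → δ ≤ κ → κ ≤ 1 → 0 ≤ t → t ≤ 3 / 2 → 0 < Θ → 1 ≤ γ → 0 < β → 1 ≤ Λ → 0 < n →
    100 * δ ^ (-e2) ≤ β * A →
    (∀ y ∈ S, InSq (z0 (gr y)) ℓ (pos y)) →
    (∀ g z r, δ ≤ r → r ≤ 1 →
      (#{y ∈ S | gr y = g ∧ InSq z (r * ℓ) (pos y)} : ℝ) ≤ Θ * (r / δ) ^ t) →
    Set.InjOn (fun f => (pt f, ar f, dr f)) Φ → (∀ f ∈ Φ, pt f ∈ S) →
    (∀ f ∈ Φ, |sp (dr f)| ≤ 6) →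
    (∀ f ∈ Φ, ∀ f' ∈ Φ, |(dr f : ℝ) - dr f'| * δ / 2 ≤ |sp (dr f) - sp (dr f')|) →
    (∀ f ∈ Φ, |dr f * δ - (1 / 4 + ar f * κ / 2)| ≤ κ) →
    (∀ y, (#({f ∈ Φ | pt f = y}.image ar) : ℝ) ≤ A) →
    (∀ y i, (#{f ∈ Φ | pt f = y ∧ ar f = i} : ℝ) ≤ n) →
    (∀ y i (l0 : ℤ) (r : ℕ), 1 ≤ r →
      (#{f ∈ Φ | pt f = y ∧ ar f = i ∧ l0 ≤ dr f ∧ dr f < l0 + r} : ℝ) ≤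
        γ * (r : ℝ) ^ min t (2 - t)) →
    β * #S * A * n ≤ #Φ →
    (∀ f ∈ Φ, ∃ τ ∈ 𝒯, tg τ = gr (pt f) ∧ td τ = dr f ∧
      |(pos (pt f)).1 + sp (dr f) * (pos (pt f)).2 - off τ| ≤ Λ * δ * ℓ) →
    c * δ ^ e * κ ^ C0 * β * (#S / Θ) * δ ^ (t / 2) * n ^ (3 / 2 : ℝ) / √γ ≤ Λ * #𝒯

def FFStmt : Prop := ∃ C0 : ℝ, 0 ≤ C0 ∧ ∀ e e2 : ℝ, 0 < e → 0 < e2 → ∃ c : ℝ, 0 < c ∧ c ≤ 1 ∧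
  FFat C0 e e2 c

/-! ### The broad estimate -/

open Classical in
def Core (K1 : ℕ) (H R : ℝ) (A : ℕ) (Z : ℝ) : Prop :=
  ∀ (M : Mo) (F : ℕ → Arr) (X : Finset (ℝ × ℝ)) (lam E : ℝ),
    R * H ≤ M.L → M.L ≤ H ^ 5 → R * H ≤ M.Q → M.Q ≤ H ^ 5 → 0 < lam → 0 ≤ E →
    (∀ i < K1, Supp M (F i) (1 / 4 + i / (2 * K1) - 10 / √R)
      (1 / 4 + (i + 1) / (2 * K1) + 10 / √R) (1 / R)) →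
    (∀ p ∈ X, InBox R p) → KT 8 X → ∑ i ∈ range K1, en M R (F i) ≤ E ^ 2 →
    (∀ p ∈ X, A ≤ #{i ∈ range K1 | lam ≤ ‖ev M (F i) p‖}) → #X * lam ^ 3 ≤ Z * E ^ 3

def TrivStmt : Prop := ∃ C : ℝ, 1 ≤ C ∧ ∀ (K1 : ℕ) (H R : ℝ), 1 ≤ H → 1 ≤ R → Core K1 H R 1 (C * R)

def fx (M : Mo) (s : ℝ) (l : ℤ) (p : ℝ × ℝ) : ℝ := 2 * s * (p.1 + cs M s l * p.2)

def ft (s : ℝ) (p : ℝ × ℝ) : ℝ := 4 * s ^ 2 * p.2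

def RescStmt : Prop := ∀ (M : Mo) (s : ℝ) (l : ℤ), 0 < s → 1 ≤ 2 * s * M.L → 1 ≤ 2 * s * M.Q →
  ∃ (M' : Mo) (ρ : Arr → Arr), M'.L = 2 * s * M.L ∧ M'.Q = 2 * s * M.Q ∧
    (∀ F, nrm (ρ F) = nrm F) ∧ (∀ F p, ‖ev M' (ρ F) (fx M s l p, ft s p)‖ = ‖ev M F p‖) ∧
    ∀ F a b w, Supp M F a b w → Supp M' (ρ F) ((a - (l - 1 / 2) * s) / (2 * s))
      ((b - (l - 1 / 2) * s + 1 / M.L) / (2 * s)) (w / (4 * s ^ 2))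

open Classical in
def FrameAt (C : ℝ) : Prop :=
  ∀ (K1 A : ℕ) (H R Z s : ℝ) (M : Mo) (l : ℤ) (G : ℕ → Arr) (Y : Finset (ℝ × ℝ)) (h Ξ mm : ℝ),
    1 ≤ K1 → 100 ≤ H → 0 < s → s ≤ 1 / 2 → 1 ≤ R * s ^ 2 / 4 → 0 ≤ Z →
    Core K1 H (R * s ^ 2 / 4) A Z →
    R * H ≤ M.L → M.L ≤ H ^ 5 → R * H ≤ M.Q → M.Q ≤ H ^ 5 → |l * s| ≤ 3 / 2 →
    (∀ r < K1, Supp M (G r) (l * s + r * s / K1 - 1 / R) (l * s + (r + 1) * s / K1 + 1 / R) (8 / R)) →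
    (∀ p ∈ Y, InBox R p) → 0 < h → 1 ≤ Ξ → 0 ≤ mm →
    (∀ p ∈ Y, A ≤ #{r ∈ range K1 | h ≤ ‖ev M (G r) p‖}) →
    (∀ y : ℕ, (2 : ℝ) ^ y ≤ R * s ^ 2 / 2 → ∀ u v : ℤ,
      (#{p ∈ Y | ⌊fx M s l p / 2 ^ y⌋ = u ∧ ⌊ft s p / 2 ^ y⌋ = v} : ℝ) ≤ Ξ * 2 ^ y) →
    (∀ u : ℤ, (#{p ∈ Y | ⌊fx M s l p / (R * s ^ 2 / 4)⌋ = u} : ℝ) ≤ mm) →
    (#Y : ℝ) ^ 3 * h ^ 6 ≤ C * s ^ 3 * mm * Ξ ^ 2 * Z ^ 2 * (∑ r ∈ range K1, en M R (G r)) ^ 3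

def FrameStmt : Prop := ∃ C : ℝ, 1 ≤ C ∧ FrameAt C

structure Geo where
  K1 : ℕ
  D : ℕ
  ls : ℕ
  H : ℝ
  R : ℝ

def Geo.δ (g : Geo) : ℝ := 1 / (g.D : ℝ) ^ g.ls

def Geo.ρ (g : Geo) : ℝ := g.R / (g.D : ℝ) ^ g.ls

structure Geo.Ok (g : Geo) (M : Mo) : Prop where
  hK : 2 ≤ g.K1
  hD : 100 * g.K1 ≤ g.D
  hl : 1 ≤ g.ls
  hR : 1 ≤ g.R
  hρ : g.D * √g.R ≤ g.ρ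
  hH : g.R ≤ g.H
  l1 : g.R * g.H ≤ M.L
  l2 : M.L ≤ g.H ^ 5
  q1 : g.R * g.H ≤ M.Q
  q2 : M.Q ≤ g.H ^ 5

abbrev Tb := ℕ × ℕ × ℤ

def gl (T : Finset Tb) (pk : Tb → Arr) (i l : ℕ) : Arr := ∑ τ ∈ T with τ.1 = i ∧ τ.2.1 = l, pk τ

def garc (T : Finset Tb) (pk : Tb → Arr) (D i h a : ℕ) : Arr :=
  ∑ τ ∈ T with τ.1 = i ∧ τ.2.1 / D ^ h = a, pk τ

/-- One energy class of wave packets. -/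
structure Sys (g : Geo) (M : Mo) (E Ec s0 : ℝ) (T : Finset Tb) (pk : Tb → Arr) : Prop where
  s0l : g.ρ / 2 ≤ s0
  s0u : s0 ≤ 2 * g.ρ
  card : (#T : ℝ) ≤ g.H ^ 8
  idx : ∀ τ ∈ T, τ.1 < g.K1 ∧ τ.2.1 < g.D ^ g.ls ∧
    |τ.2.1 * g.δ - (1 / 4 + τ.1 / (2 * g.K1))| ≤ 3 / (4 * g.K1)
  sp1 : ∀ τ ∈ T, Supp M (pk τ) (τ.2.1 * g.δ - 1 / g.ρ) ((τ.2.1 + 1) * g.δ + 1 / g.ρ) (8 / g.R)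
  sp2 : ∀ τ ∈ T, Supp M (pk τ) (1 / 4 + τ.1 / (2 * g.K1) - 10 / √g.R - 1 / g.ρ)
    (1 / 4 + (τ.1 + 1) / (2 * g.K1) + 10 / √g.R + 1 / g.ρ) (8 / g.R)
  pos : 0 < Ec
  enle : ∀ τ ∈ T, en M g.R (pk τ) ≤ Ec
  cnt : #T * Ec ≤ 2 * E ^ 2
  tot : ∑ i ∈ range g.K1, ∑ l ∈ range (g.D ^ g.ls), en M g.R (gl T pk i l) ≤ E ^ 2
  dec : ∀ τ ∈ T, ∀ z : ℝ × ℝ, |z.1 + cs M g.δ τ.2.1 * z.2| ≤ M.L / 4 →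
    g.D * g.ρ ≤ |z.1 + cs M g.δ τ.2.1 * z.2 - τ.2.2 * s0| → ‖ev M (pk τ) z‖ ≤ E / g.H ^ 30

def WPStmt : Prop := ∀ (g : Geo) (M : Mo) (F : ℕ → Arr) (E : ℝ) (k Y : ℕ), g.Ok M → 0 < E → 1 ≤ k →
  (2 * k / g.D : ℝ) ^ (2 * k) ≤ 1 / g.H ^ 200 → g.H ≤ 2 ^ Y →
  (∀ i < g.K1, Supp M (F i) (1 / 4 + i / (2 * g.K1) - 10 / √g.R)
    (1 / 4 + (i + 1) / (2 * g.K1) + 10 / √g.R) (1 / g.R)) →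
  ∑ i ∈ range g.K1, en M g.R (F i) ≤ E ^ 2 →
  ∃ (s0 : ℝ) (T : ℕ → Finset Tb) (pk : Tb → Arr) (Ec : ℕ → ℝ),
    (∀ c < 40 * Y, Sys g M E (Ec c) s0 (T c) pk) ∧
    ∀ i < g.K1, ∀ p, ‖ev M (F i) p - ∑ c ∈ range (40 * Y), ∑ l ∈ range (g.D ^ g.ls),
      ev M (gl (T c) pk i l) p‖ ≤ E / g.H ^ 10

def NearFar (g : Geo) (M : Mo) (Λ s0 : ℝ) (T : Finset Tb) (cl : ℝ × ℝ → ℤ × ℤ)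
    (S : ℤ × ℤ → ℕ → Finset ℕ) : Prop :=
  ∀ p, InBox g.R p → ∀ i,
    (∀ l ∈ S (cl p) i, l < g.D ^ g.ls ∧
      ∃ j : ℤ, (i, l, j) ∈ T ∧ |p.1 + cs M g.δ l * p.2 - j * s0| ≤ Λ * g.ρ) ∧
    ∀ τ ∈ T, τ.1 = i → τ.2.1 ∉ S (cl p) i →
      g.D * g.ρ ≤ |p.1 + cs M g.δ τ.2.1 * p.2 - τ.2.2 * s0|

open Classical in
def Light (g : Geo) (M : Mo) (X : Finset (ℝ × ℝ)) (A Pi : ℕ) (lam th ts : ℝ) (T : Finset Tb)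
    (pk : Tb → Arr) (cl : ℝ × ℝ → ℤ × ℤ) (Lt : ℤ × ℤ → ℕ → Finset ℕ) (n : ℕ)
    (Pr : Finset ((ℝ × ℝ) × ℕ)) : Prop :=
  1 ≤ n ∧ (∀ q ∈ Pr, q.1 ∈ X ∧ q.2 < g.K1) ∧ (∀ p, #{q ∈ Pr | q.1 = p} ≤ A) ∧
  #X * A ≤ Pi * #Pr ∧ ∀ q ∈ Pr, n ≤ #(Lt (cl q.1) q.2) ∧ #(Lt (cl q.1) q.2) ≤ 2 * n ∧
    (∀ h ≤ g.ls, ∀ a, (#(arcS g.D h a (Lt (cl q.1) q.2)) : ℝ) * th ≤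
      4 * n * ((g.D : ℝ) ^ h) ^ ts) ∧
    lam ≤ Pi * ‖∑ l ∈ Lt (cl q.1) q.2, ev M (gl T pk q.2 l) q.1‖

open Classical in
def Heavy (g : Geo) (M : Mo) (X : Finset (ℝ × ℝ)) (A Pi : ℕ) (lam th ts : ℝ) (T : Finset Tb)
    (pk : Tb → Arr) (h n : ℕ) (amp : ℝ) (Fl : Finset ((ℝ × ℝ) × ℕ × ℕ)) : Prop :=
  h < g.ls ∧ 1 ≤ n ∧ 0 < amp ∧
  (∀ f ∈ Fl, f.1 ∈ X ∧ f.2.1 < g.K1 ∧ amp ≤ ‖ev M (garc T pk g.D f.2.1 h f.2.2) f.1‖) ∧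
  (∀ p, #({f ∈ Fl | f.1 = p}.image fun f => f.2.1) ≤ A) ∧
  (∀ p i, #{f ∈ Fl | f.1 = p ∧ f.2.1 = i} ≤ 2 * n) ∧ #X * A * n ≤ Pi * #Fl ∧
  n * ((g.D : ℝ) ^ h) ^ ts ≤ th ∧
  (∀ p i h' a', h < h' → h' ≤ g.ls →
    (#{f ∈ Fl | f.1 = p ∧ f.2.1 = i ∧ f.2.2 / g.D ^ (h' - h) = a'} : ℝ) * ((g.D : ℝ) ^ h) ^ ts ≤
      ((g.D : ℝ) ^ h') ^ ts) ∧
  lam ≤ Pi * n * amp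

open Classical in
def TriStmt : Prop := ∀ (g : Geo) (M : Mo) (F : ℕ → Arr) (X : Finset (ℝ × ℝ)) (A Y jm : ℕ)
  (lam E th ts s0 γ0 Λ : ℝ) (Sel : ℕ → ℕ → ℕ → Finset ℕ → Finset ℕ) (T : ℕ → Finset Tb)
  (pk : Tb → Arr) (Ec : ℕ → ℝ) (cl : ℝ × ℝ → ℤ × ℤ) (S : ℕ → ℤ × ℤ → ℕ → Finset ℕ),
  g.Ok M → g.H ≤ 2 ^ Y → (Y : ℝ) ≤ g.H → jm ≤ 3 * Y → 0 < E → E ≤ g.H * lam → 1 ≤ A → 0 < th →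
  StageAt g.D g.ls jm ts th γ0 Sel → (g.D : ℝ) ^ g.ls ≤ γ0 * th →
  (∀ c < 40 * Y, Sys g M E (Ec c) s0 (T c) pk) →
  (∀ c < 40 * Y, NearFar g M Λ s0 (T c) cl (S c)) →
  (∀ i < g.K1, ∀ p, ‖ev M (F i) p - ∑ c ∈ range (40 * Y), ∑ l ∈ range (g.D ^ g.ls),
    ev M (gl (T c) pk i l) p‖ ≤ E / g.H ^ 10) →
  (∀ p ∈ X, InBox g.R p) → X.Nonempty →
  (∀ p ∈ X, A ≤ #{i ∈ range g.K1 | lam ≤ ‖ev M (F i) p‖}) →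
  ∃ c < 40 * Y,
    (∃ j n Pr, Light g M X A ((100 * Y) ^ 6) lam th ts (T c) pk cl
      (fun ν i => Sel j g.ls 0 (S c ν i)) n Pr) ∨
    ∃ h n amp Fl, Heavy g M X A ((100 * Y) ^ 6) lam th ts (T c) pk h n amp Fl

def LNStmt : Prop := ∀ (C0 e e2 c : ℝ) (g : Geo) (M : Mo) (X : Finset (ℝ × ℝ)) (A Pi n : ℕ)
  (lam E Ec th t s0 Γ Λ : ℝ) (T : Finset Tb) (pk : Tb → Arr) (cl : ℝ × ℝ → ℤ × ℤ)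
  (S Lt : ℤ × ℤ → ℕ → Finset ℕ) (Pr : Finset ((ℝ × ℝ) × ℕ)),
  FFat C0 e e2 c → 0 < e2 → 0 < c → g.Ok M → X.Nonempty → (∀ p ∈ X, InBox g.R p) → 0 ≤ t →
  t ≤ 3 / 2 → 0 < th → 0 < Γ → 1 ≤ Λ → 1 ≤ Pi → Frost X g.R g.δ Γ t → Sys g M E Ec s0 T pk →
  NearFar g M Λ s0 T cl S → (∀ ν i, Lt ν i ⊆ S ν i) →
  Light g M X A Pi lam th (min t (2 - t)) T pk cl Lt n Pr → 200 * Pi * g.H ^ e2 ≤ A →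
  n * Ec * (c * (1 / g.K1 : ℝ) ^ C0 * g.δ ^ e * √th) ≤
    4 * Pi * Γ * Λ * g.D * g.δ ^ (t / 2) * E ^ 2

open Classical in
def BStmt : Prop := ∃ C : ℝ, 1 ≤ C ∧ ∀ (g : Geo) (M : Mo), g.Ok M →
  (∀ (E Ec s0 : ℝ) (T : Finset Tb) (pk : Tb → Arr), Sys g M E Ec s0 T pk →
    ∃ S, NearFar g M (2 * g.D) s0 T (cube g.ρ) S) ∧
  ∀ (X : Finset (ℝ × ℝ)) (A A' Pi n : ℕ) (lam E Ec th ts s0 Kc Z B : ℝ) (T : Finset Tb)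
    (pk : Tb → Arr) (Lt : ℤ × ℤ → ℕ → Finset ℕ) (Pr : Finset ((ℝ × ℝ) × ℕ)),
    (∀ p ∈ X, InBox g.R p) → KT 8 X → 0 < E → E ≤ g.H * lam → 1 ≤ Pi → (Pi : ℝ) ≤ g.H → 1 ≤ A →
    2 * Pi * A' ≤ A → Sys g M E Ec s0 T pk → Light g M X A Pi lam th ts T pk (cube g.ρ) Lt n Pr →
    (#(X.image (cube g.ρ)) : ℝ) ≤ Kc → 0 ≤ Z → Core g.K1 g.H g.ρ A' Z → 0 ≤ B →
    g.K1 * (g.D : ℝ) ^ 2 * n * Ec ≤ B ^ 2 → #X * lam ^ 3 ≤ C * (Pi : ℝ) ^ 4 * Kc * Z * B ^ 3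

def AStmt : Prop := ∃ B : ℕ → ℝ, (∀ m, 1 ≤ B m) ∧ Monotone B ∧ ∀ (g : Geo) (M : Mo) (k : ℕ),
  g.Ok M → 1 ≤ k → (2 * k / g.D : ℝ) ^ (2 * k) ≤ 1 / g.H ^ 200 → B g.ls * (g.D : ℝ) ^ 5 ≤ g.H →
  ∃ (cl : ℝ × ℝ → ℤ × ℤ) (Sf : ℝ → Finset Tb → ℤ × ℤ → ℕ → Finset ℕ),
    ∀ (E Ec s0 : ℝ) (T : Finset Tb) (pk : Tb → Arr), 0 < E → Sys g M E Ec s0 T pk →
      NearFar g M (B g.ls * (g.D : ℝ) ^ 4) s0 T cl (Sf s0 T) ∧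
      ∀ (X : Finset (ℝ × ℝ)) (A Pi n : ℕ) (lam th ts Dd : ℝ) (Sel : ℕ → ℕ → Finset ℕ → Finset ℕ)
        (Pr : Finset ((ℝ × ℝ) × ℕ)), (∀ p ∈ X, InBox g.R p) → KT 8 X → 0 < lam → 1 ≤ Dd →
        Dec g.D Dd → Hier g.D Sel →
        Light g M X A Pi lam th ts T pk cl (fun ν i => Sel g.ls 0 (Sf s0 T ν i)) n Pr →
        #Pr * lam ^ 6 ≤ B g.ls * Dd ^ g.ls * (Pi : ℝ) ^ 6 *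
          ((n : ℝ) ^ 2 * (g.D : ℝ) ^ 4 * (g.δ * Ec) ^ 2 * g.R * E ^ 2 + E ^ 6 / g.H ^ 40)

def CStmt : Prop := ∃ C : ℝ, 1 ≤ C ∧ ∀ (C0 e e2 c ε : ℝ) (g : Geo) (M : Mo) (X : Finset (ℝ × ℝ))
  (A A0 Pi Y h n : ℕ) (lam E Ec th t s0 Γ amp Z0 Rlow G0 : ℝ) (T : Finset Tb) (pk : Tb → Arr)
  (Fl : Finset ((ℝ × ℝ) × ℕ × ℕ)),
  FFat C0 e e2 c → 0 ≤ C0 → 0 < e → 3 * e ≤ 2 * ε → 0 < e2 → 0 < c → c ≤ 1 → g.Ok M → X.Nonempty →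
  (∀ p ∈ X, InBox g.R p) → KT 8 X → 0 < lam → 0 ≤ E → 0 ≤ t → t ≤ 3 / 2 → th ≤ g.δ ^ (-t / 3) →
  1 ≤ Γ → 1 ≤ Pi → 1 ≤ A0 → A ≤ g.K1 → g.H ≤ 2 ^ Y → Frost X g.R g.δ Γ t →
  Sys g M E Ec s0 T pk → Heavy g M X A Pi lam th (min t (2 - t)) T pk h n amp Fl →
  10000 * Pi * (Y : ℝ) ^ 2 * g.H ^ e2 ≤ A → (g.K1 : ℝ) ^ 2 ≤ Rlow → 0 ≤ Z0 →
  (∀ d : ℕ, (g.K1 : ℝ) ^ d ≤ g.H → (2 * A0 : ℝ) ^ d ≤ G0) →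
  (∀ R', 1 ≤ R' → R' ≤ g.R * (g.δ * (g.D : ℝ) ^ h) ^ 2 → Core g.K1 g.H R' A0 (Z0 * R' ^ ε)) →
  (∀ R', 1 ≤ R' → R' ≤ Rlow → Core g.K1 g.H R' 1 (Z0 * R' ^ ε)) →
  (#X * lam ^ 3) ^ 2 * (c * (1 / g.K1 : ℝ) ^ C0) ^ 3 ≤
    C * (Pi : ℝ) ^ 12 * (Y : ℝ) ^ 8 * (g.K1 : ℝ) ^ 9 * Γ * g.D * G0 ^ 6 *
      (Z0 * g.R ^ ε * (g.δ * (g.D : ℝ) ^ h) ^ ε * E ^ 3) ^ 2

def StepStmt : Prop := ∀ ε : ℝ, 0 < ε → ε ≤ 1 / 10 → ∃ (ζ : ℝ) (C1 : ℕ), 0 < ζ ∧ ζ ≤ ε ∧ 2 ≤ C1 ∧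
  ∀ e2 : ℝ, 0 < e2 → ∃ H0 : ℝ, ∀ H ≥ H0, ∀ (K1 A0 A A' Y : ℕ) (Z0 R : ℝ),
    2 ≤ K1 → (K1 : ℝ) ^ C1 ≤ H ^ ζ → H ≤ 2 ^ Y → 2 ^ Y ≤ 2 * H →
    (∀ d : ℕ, (K1 : ℝ) ^ d ≤ H → (2 * A0 : ℝ) ^ d ≤ H ^ ζ) → 1 ≤ A' → A' ≤ A0 →
    2 * (100 * Y) ^ 6 * A' ≤ A → ((100 * Y : ℝ) ^ 6) ^ 2 * H ^ e2 ≤ A → 1 ≤ Z0 →
    H ^ ε ≤ R → R ≤ H →
    (∀ R', 1 ≤ R' → R' ≤ R / H ^ ζ → Core K1 H R' A' (Z0 * R' ^ ε)) →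
    (∀ R', 1 ≤ R' → R' ≤ H ^ ε → Core K1 H R' 1 (Z0 * R' ^ ε)) →
    Core K1 H R A (Z0 * R ^ ε)

def CoreThm : Prop := ∀ ε : ℝ, 0 < ε → ∃ H0 : ℝ, ∀ H ≥ H0, ∃ (K1 A0 : ℕ) (Rlow : ℝ),
  2 ≤ K1 ∧ 1 ≤ A0 ∧ (K1 : ℝ) ≤ H ^ ε ∧ (K1 : ℝ) ^ 2 ≤ Rlow ∧
  (∀ d : ℕ, (K1 : ℝ) ^ d ≤ H → (2 * A0 : ℝ) ^ d ≤ H ^ ε) ∧
  (∀ R, 1 ≤ R → R ≤ H → Core K1 H R A0 (H ^ ε)) ∧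
  ∀ R, 1 ≤ R → R ≤ Rlow → Core K1 H R 1 (H ^ ε)

/-! ### Globalisation -/

def Ext (φ : ℝ → ℝ) (a b : ℝ) (f : ℝ → ℂ) (p : ℝ × ℝ) : ℂ :=
  ∫ ξ in a..b, f ξ * ex (p.1 * ξ + p.2 * φ ξ)

def VdcStmt : Prop := ∃ C : ℝ, 1 ≤ C ∧ ∀ (φ ψ : ℝ → ℝ) (a b D : ℝ) (p : ℝ × ℝ), Curve φ ψ →
  0 ≤ a → a ≤ b → b ≤ 1 → 1 ≤ D → D ^ 6 ≤ ‖p‖ → ‖Ext φ a b (fun _ => 1) p‖ ≤ C / D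

def RidgeStmt : Prop := ∀ {β : Type} (φ : ℝ → ℝ) (a b μ b0 : ℝ) (f : ℝ → ℂ) (X : Finset (ℝ × ℝ))
  (bl : ℝ × ℝ → β) (B : Finset β), Continuous φ → a ≤ b → Measurable f → (∀ ξ, ‖f ξ‖ ≤ 1) → 0 < μ →
  0 ≤ b0 → b0 * #X ≤ μ →
  (∀ p ∈ X, ∀ q ∈ X, bl p ≠ bl q → ‖Ext φ a b (fun _ => 1) (p - q)‖ ≤ b0) →
  ∃ g : β → ℝ → ℂ, (∀ j, Continuous (g j)) ∧
    (∀ p ∈ X, ‖Ext φ a b f p - Ext φ a b (g (bl p)) p‖ ^ 2 ≤ μ * ∫ ξ in a..b, ‖f ξ‖ ^ 2) ∧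
    (∀ j, ∫ ξ in a..b, ‖g j ξ‖ ^ 2 ≤ ∫ ξ in a..b, ‖f ξ‖ ^ 2) ∧
    ∑ j ∈ B, ∫ ξ in a..b, ‖g j ξ‖ ^ 2 ≤ 2 * ∫ ξ in a..b, ‖f ξ‖ ^ 2

def DiscStmt : Prop := ∀ (M : Mo) (a b R : ℝ) (g : ℝ → ℂ) (z0 : ℝ × ℝ), 0 ≤ a → a ≤ b → b ≤ 1 →
  1 ≤ R → 20 * R ≤ M.L → 1 ≤ M.Q → Continuous g →
  ∃ F : Arr, Supp M F (a - 1 / M.L) b (1 / R) ∧ en M R F ≤ 20 * ∫ ξ in a..b, ‖g ξ‖ ^ 2 ∧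
    ∀ z, InBox R z → ‖Ext M.φ a b g (z0 + z)‖ ≤
      2 * ‖ev M F z‖ + 40 * R / M.L * √(∫ ξ in a..b, ‖g ξ‖ ^ 2)

def G2Stmt : Prop := ∀ ε : ℝ, 0 < ε → ε < 1 → ∃ C : ℝ, 0 < C ∧ ∀ (φ ψ : ℝ → ℝ) (f : ℝ → ℂ)
  (X : Finset (ℝ × ℝ)) (Θ lam : ℝ), Curve φ ψ → Measurable f → (∀ ξ, ‖f ξ‖ ≤ 1) → 1 ≤ Θ → KT Θ X →
  0 < lam → (∀ p ∈ X, lam ≤ ‖Ext φ 0 (1 / 2) f p‖) →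
  (#X : ℝ) ^ (1 - ε) * lam ^ 3 ≤ C * Θ * ∫ ξ in (0 : ℝ)..(1 / 2), ‖f ξ‖ ^ 2

def Curved (a b : ℝ → ℝ) : Prop := ContDiff ℝ 2 a ∧ ContDiff ℝ 2 b ∧
  ∀ u ∈ Set.Icc (0 : ℝ) 1, deriv a u * deriv (deriv b) u - deriv b u * deriv (deriv a) u ≠ 0

def Par (a b : ℝ → ℝ) (F : ℝ → ℂ) (x y : ℝ) : ℂ :=
  ∫ u in (0 : ℝ)..1, Complex.exp (Complex.I * ((x * a u + y * b u : ℝ) : ℂ)) * F u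

def G1At (a b : ℝ → ℝ) : Prop := ∀ ε : ℝ, 0 < ε → ε < 1 → ∃ C : ℝ, 0 < C ∧ ∀ (F : ℝ → ℂ)
  (X : Finset (ℝ × ℝ)) (lam : ℝ), Measurable F → (∀ u, ‖F u‖ ≤ 1) →
  (∀ p ∈ X, ∀ q ∈ X, p ≠ q → 1 ≤ |p.1 - q.1|) → 0 < lam → (∀ p ∈ X, lam ≤ ‖Par a b F p.1 p.2‖) →
  (#X : ℝ) ^ (1 - ε) * lam ^ 3 ≤ C * ∫ u in (0 : ℝ)..1, ‖F u‖ ^ 2

def G1Stmt : Prop := ∀ a b : ℝ → ℝ, Curved a b → G1At a b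

open MeasureTheory in
def G0At (a b : ℝ → ℝ) : Prop := ∀ q r : ℝ, 3 < q → 1 < r → 2 / q + 1 / r < 1 →
  ∃ C : NNReal, ∀ F : ℝ → ℂ, Measurable F → IntervalIntegrable F volume 0 1 →
    (∫⁻ x, (⨆ y : ℝ, ‖Par a b F x y‖ₑ) ^ q) ^ (1 / q) ≤
      C * (∫⁻ u in Set.Ioc (0 : ℝ) 1, ‖F u‖ₑ ^ r) ^ (1 / r)

end

end Pool.Agent.Lib.MP_108739_an.HA
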