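import Pool.Agent.Lib.MP_108739_an.HA.Defs

/-! Tree of boxes for the refined decoupling step: definitions and statements of the pieces. -/

namespace Pool.Agent.Lib.MP_108739_an.HA

open Finset

noncomputable section

namespace SA

def sg (g : Geo) (h : ℕ) : ℝ := g.δ * (g.D : ℝ) ^ h

def Wd (g : Geo) : ℝ := g.D * g.ρ

def sc (g : Geo) (M : Mo) (h a : ℕ) : ℝ := cs M g.δ ((a * g.D ^ h : ℕ) : ℤ)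

def rad (g : Geo) (h : ℕ) : ℝ := 9 ^ (g.ls - h)

/-- `z` is within `e` box sizes of the corner of the box `μ` of the arc `a` of height `h`. -/
def Nr (g : Geo) (M : Mo) (e : ℝ) (h a : ℕ) (μ : ℤ × ℤ) (z : ℝ × ℝ) : Prop :=
  |z.1 + sc g M h a * z.2 - μ.1 * Wd g| ≤ e * Wd g ∧
    |z.2 - μ.2 * (Wd g / sg g h)| ≤ e * (Wd g / sg g h)

/-- The box of the arc `a'` of height `h` below the box `μ` of the arc `a` of height `h + 1`. -/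
def ch (g : Geo) (M : Mo) (h a a' : ℕ) (μ : ℤ × ℤ) : ℤ × ℤ :=
  (⌊(μ.1 * Wd g + (sc g M h a' - sc g M (h + 1) a) * (μ.2 * (Wd g / sg g (h + 1)))) / Wd g⌋,
    μ.2 / (g.D : ℤ))

def lp (g : Geo) (M : Mo) : ℕ → ℕ → ℤ × ℤ → ℕ → ℤ × ℤ
  | 0, _, μ, _ => μ
  | h + 1, a, μ, l => lp g M h (l / g.D ^ h) (ch g M h a (l / g.D ^ h) μ) l

open Classical in
def Sn (g : Geo) (M : Mo) (s0 : ℝ) (T : Finset Tb) (i h a : ℕ) (μ : ℤ × ℤ) : Finset ℕ :=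
  {l ∈ range (g.D ^ g.ls) | l / g.D ^ h = a ∧ ∃ j : ℤ, (i, l, j) ∈ T ∧
    |(lp g M h a μ l).1 * Wd g - j * s0| ≤ (9 ^ g.ls + 1) * Wd g}

def cl0 (g : Geo) (M : Mo) (p : ℝ × ℝ) : ℤ × ℤ :=
  (⌊(p.1 + sc g M g.ls 0 * p.2) / Wd g⌋, ⌊p.2 / Wd g⌋)

def Good (g : Geo) (M : Mo) (h a : ℕ) (μ : ℤ × ℤ) : Prop :=
  h ≤ g.ls ∧ a < g.D ^ (g.ls - h) ∧ ∃ p, InBox g.R p ∧ Nr g M (rad g h) h a μ p

open Classical in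
def GeoStmt : Prop := ∀ (g : Geo) (M : Mo), g.Ok M →
  (∀ p, Nr g M 1 g.ls 0 (cl0 g M p) p) ∧
  (∀ h a r μ z, h < g.ls → r < g.D → Nr g M (rad g (h + 1) + 1) (h + 1) a μ z →
    Nr g M (rad g h) h (g.D * a + r) (ch g M h a (g.D * a + r) μ) z) ∧
  (∀ (Λ s0 : ℝ) (T : Finset Tb), (2 * 9 ^ g.ls + 1) * (g.D : ℝ) ≤ Λ →
    (∀ τ ∈ T, τ.2.1 < g.D ^ g.ls) →
    NearFar g M Λ s0 T (cl0 g M) fun ν i => Sn g M s0 T i g.ls 0 ν) ∧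
  (∀ s0 T i h a r μ, r < g.D → arcS g.D h (g.D * a + r) (Sn g M s0 T i (h + 1) a μ) =
    arcS g.D h (g.D * a + r) (Sn g M s0 T i h (g.D * a + r) (ch g M h a (g.D * a + r) μ))) ∧
  (∀ (e : ℝ) (h a : ℕ) (N : Finset (ℤ × ℤ)) (z : ℝ × ℝ), 0 ≤ e →
    (#{μ ∈ N | Nr g M e h a μ z} : ℝ) ≤ (2 * e + 1) ^ 2) ∧
  ∀ h a μ, 100 * 9 ^ g.ls * (g.D : ℝ) ^ 5 ≤ g.H → Good g M h a μ →
    |(μ.1 : ℝ)| ≤ g.H ∧ |(μ.2 : ℝ)| ≤ g.H ∧ |μ.1 * Wd g| + (rad g h + 1) * Wd g ≤ M.L / 8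

structure VOk (g : Geo) (M : Mo) (h a : ℕ) (μ : ℤ × ℤ) (V : Arr) : Prop where
  le1 : ∀ z, ‖ev M V z‖ ≤ 1
  big : ∀ z, Nr g M (rad g h) h a μ z → 1 / 2 ≤ ‖ev M V z‖
  sml : ∀ z : ℝ × ℝ, |z.1| ≤ M.L / 2 → |z.2| ≤ M.L * M.Q / 2 →
    ¬ Nr g M (rad g h + 1) h a μ z → ‖ev M V z‖ ≤ 1 / g.H ^ 180
  sup : 1 ≤ h → ∀ (F : Arr) (α β : ℝ), a * sg g h - 1 / g.ρ ≤ α → β ≤ (a + 1) * sg g h + 1 / g.ρ →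
    Supp M F α β (8 / g.R) → Supp M (V * F) (α - 1 / g.ρ) (β + 1 / g.ρ) ((sg g h / g.D) ^ 2)

def VStmt : Prop := ∀ (g : Geo) (M : Mo) (k : ℕ), g.Ok M → 1 ≤ k →
  (2 * k / g.D : ℝ) ^ (2 * k) ≤ 1 / g.H ^ 200 → 100 * 9 ^ g.ls * (g.D : ℝ) ^ 5 ≤ g.H →
  ∀ h a μ, Good g M h a μ → ∃ V, VOk g M h a μ V

def LeafStmt : Prop := ∃ C : ℝ, 1 ≤ C ∧ ∀ (g : Geo) (M : Mo) (E Ec s0 : ℝ) (T : Finset Tb)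
  (pk : Tb → Arr), g.Ok M → 0 < E → Sys g M E Ec s0 T pk → ∀ i l : ℕ,
    Supp M (gl T pk i l) (l * g.δ - 1 / g.ρ) ((l + 1) * g.δ + 1 / g.ρ) (8 / g.R) ∧
    (∀ z, ‖ev M (gl T pk i l) z‖ ≤ C * E) ∧
    ∀ z : ℝ × ℝ, |z.1 + cs M g.δ l * z.2| ≤ M.L / 4 →
      ‖ev M (gl T pk i l) z‖ ^ 4 ≤ C * ((g.D : ℝ) ^ 4 * (g.δ * Ec) ^ 2 + E ^ 4 / g.H ^ 80)

end SA

end

end Pool.Agent.Lib.MP_108739_an.HA
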