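import Pool.Agent.Lib.MP_108739_an.HA.CGeo

/-! Heavy case: assembly of the four pieces. -/

namespace Pool.Agent.Lib.MP_108739_an.HA

open Finset

theorem casm_arith {N A n hh q a b Cf Y P Γ D W E F lam K G s mm Ξ Z : ℝ} (hN : 0 < N) (hA : 0 < A)
    (hn : 0 < n) (hq : 0 < q) (ha : 0 < a) (hb : 0 < b) (hCf : 0 ≤ Cf) (hY : 0 ≤ Y) (hP : 0 ≤ P)
    (hΓ : 0 ≤ Γ) (hD : 0 ≤ D) (hlam : 0 ≤ lam)
    (h1 : F ^ 3 * hh ^ 6 ≤ 27 * Cf * s ^ 3 * mm * Ξ ^ 2 * Z ^ 2 * E ^ 6)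
    (hmm : mm * (q * a * n ^ 2) = 16 * N * A * Γ * D)
    (hΞ : Ξ ^ 2 * ((q * b) ^ 2 * s ^ 3 * n) = (1000 * A) ^ 2)
    (h2 : N * A * n ≤ 4 * Y * P * F) (h3 : lam ≤ 6 * P * K * G * (n * hh))
    (h4 : Z ^ 2 ≤ W ^ 2 * (a * b ^ 2)) :
    (N * lam ^ 3) ^ 2 * q ^ 3 ≤
      6 ^ 6 * 64 * 27 * 16 * 10 ^ 6 * Cf * P ^ 9 * Y ^ 3 * K ^ 6 * Γ * D * G ^ 6 * (W * E ^ 3) ^ 2 := by
  have h5 : F ^ 3 * hh ^ 6 * q ^ 3 * n ^ 3 * (a * b ^ 2) ≤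
      27 * 16 * 10 ^ 6 * Cf * N * A ^ 3 * Γ * D * W ^ 2 * E ^ 6 * (a * b ^ 2) := by
    calc F ^ 3 * hh ^ 6 * q ^ 3 * n ^ 3 * (a * b ^ 2)
        = F ^ 3 * hh ^ 6 * ((q * a * n ^ 2) * ((q * b) ^ 2 * n)) := by ring
      _ ≤ 27 * Cf * s ^ 3 * mm * Ξ ^ 2 * Z ^ 2 * E ^ 6 * ((q * a * n ^ 2) * ((q * b) ^ 2 * n)) :=
        mul_le_mul_of_nonneg_right h1 (by positivity)
      _ = 27 * Cf * (mm * (q * a * n ^ 2)) * (Ξ ^ 2 * ((q * b) ^ 2 * s ^ 3 * n)) * E ^ 6 * Z ^ 2 := by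
        ring
      _ = 27 * Cf * (16 * N * A * Γ * D) * (1000 * A) ^ 2 * E ^ 6 * Z ^ 2 := by rw [hmm, hΞ]
      _ ≤ 27 * Cf * (16 * N * A * Γ * D) * (1000 * A) ^ 2 * E ^ 6 * (W ^ 2 * (a * b ^ 2)) :=
        mul_le_mul_of_nonneg_left h4 (by positivity)
      _ = _ := by ring
  have h6 := le_of_mul_le_mul_right h5 (by positivity)
  have h7 : N ^ 2 * (n * hh) ^ 6 * q ^ 3 * (N * A ^ 3) ≤
      64 * 27 * 16 * 10 ^ 6 * Cf * Y ^ 3 * P ^ 3 * Γ * D * W ^ 2 * E ^ 6 * (N * A ^ 3) := by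
    calc N ^ 2 * (n * hh) ^ 6 * q ^ 3 * (N * A ^ 3)
        = (N * A * n) ^ 3 * (hh ^ 6 * q ^ 3 * n ^ 3) := by ring
      _ ≤ (4 * Y * P * F) ^ 3 * (hh ^ 6 * q ^ 3 * n ^ 3) :=
        mul_le_mul_of_nonneg_right (pow_le_pow_left₀ (by positivity) h2 3) (by positivity)
      _ = (4 * Y * P) ^ 3 * (F ^ 3 * hh ^ 6 * q ^ 3 * n ^ 3) := by ring
      _ ≤ (4 * Y * P) ^ 3 * (27 * 16 * 10 ^ 6 * Cf * N * A ^ 3 * Γ * D * W ^ 2 * E ^ 6) :=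
        mul_le_mul_of_nonneg_left h6 (by positivity)
      _ = _ := by ring
  have h8 := le_of_mul_le_mul_right h7 (by positivity)
  calc (N * lam ^ 3) ^ 2 * q ^ 3 = lam ^ 6 * (N ^ 2 * q ^ 3) := by ring
    _ ≤ (6 * P * K * G * (n * hh)) ^ 6 * (N ^ 2 * q ^ 3) :=
      mul_le_mul_of_nonneg_right (pow_le_pow_left₀ hlam h3 6) (by positivity)
    _ = (6 * P * K * G) ^ 6 * (N ^ 2 * (n * hh) ^ 6 * q ^ 3) := by ring
    _ ≤ (6 * P * K * G) ^ 6 *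
        (64 * 27 * 16 * 10 ^ 6 * Cf * Y ^ 3 * P ^ 3 * Γ * D * W ^ 2 * E ^ 6) :=
      mul_le_mul_of_nonneg_left h8 (by positivity)
    _ = _ := by ring

theorem casm_gain {R s σ e ε Z0 : ℝ} (hR : 0 < R) (hs : 0 < s) (hsσ : s ≤ σ) (hσ : σ ≤ 1)
    (he : 0 < e) (heε : 3 * e ≤ 2 * ε) (hZ : 0 ≤ Z0) :
    (Z0 * (R * s ^ 2 / 4) ^ ε) ^ 2 ≤ (Z0 * R ^ ε * σ ^ ε) ^ 2 * (σ ^ e * (s ^ e) ^ 2) := by
  have hε : 0 ≤ ε := by linarith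
  have h1 : (R * s ^ 2 / 4) ^ ε ≤ R ^ ε * (s ^ ε) ^ 2 := by
    rw [sq (s ^ ε), ← Real.mul_rpow hs.le hs.le, ← Real.mul_rpow hR.le (by positivity)]
    refine Real.rpow_le_rpow (by positivity) ?_ hε
    nlinarith [mul_pos hR (mul_pos hs hs)]
  have h2 : s ^ ε ≤ σ ^ ε := Real.rpow_le_rpow hs.le hsσ hε
  have h3 : s ^ e ≤ σ ^ e := Real.rpow_le_rpow hs.le hsσ he.le
  have h4 : (s ^ ε) ^ 2 ≤ s ^ e * (s ^ e) ^ 2 := by
    rw [sq, sq, ← Real.rpow_add hs, ← Real.rpow_add hs, ← Real.rpow_add hs]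
    exact Real.rpow_le_rpow_of_exponent_ge hs (hsσ.trans hσ) (by linarith)
  have h5 : 0 < s ^ ε := by positivity
  have h6 : 0 < s ^ e := by positivity
  calc (Z0 * (R * s ^ 2 / 4) ^ ε) ^ 2 ≤ (Z0 * (R ^ ε * (s ^ ε) ^ 2)) ^ 2 := by gcongr
    _ = (Z0 * R ^ ε * s ^ ε) ^ 2 * (s ^ ε) ^ 2 := by ring
    _ ≤ (Z0 * R ^ ε * σ ^ ε) ^ 2 * (s ^ e * (s ^ e) ^ 2) := by gcongr
    _ ≤ _ := by gcongr

theorem casm_n {g : Geo} {M : Mo} (ok : g.Ok M) {h : ℕ} {n t th : ℝ} (hn : 0 ≤ n) (ht : 0 ≤ t)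
    (ht' : t ≤ 3 / 2) (h1 : n * ((g.D : ℝ) ^ h) ^ min t (2 - t) ≤ th)
    (h2 : th ≤ g.δ ^ (-t / 3)) : n ≤ g.sg h ^ (-t / 3) := by
  have hD : (1 : ℝ) ≤ (g.D : ℝ) ^ h := one_le_pow₀ (by linarith [ok.D_ge])
  have h3 : ((g.D : ℝ) ^ h) ^ (t / 3) ≤ ((g.D : ℝ) ^ h) ^ min t (2 - t) :=
    Real.rpow_le_rpow_of_exponent_le hD (le_min (by linarith) (by linarith))
  have h4 : 0 < ((g.D : ℝ) ^ h) ^ (t / 3) := by positivity
  rw [Geo.sg, Real.mul_rpow ok.δ_pos.le (by positivity), neg_div 3 t,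
    Real.rpow_neg (by positivity : (0 : ℝ) ≤ (g.D : ℝ) ^ h), ← div_eq_mul_inv, le_div_iff₀ h4,
    ← neg_div]
  exact ((mul_le_mul_of_nonneg_left h3 hn).trans h1).trans h2

theorem casm (hNar : NarStmt) (hD1 : Del1Stmt) (hD2 : Del2Stmt) (hFs : FsumStmt)
    (hFr : FrameStmt) : CStmt := by
  classical
  obtain ⟨Cf, hCf, hFr⟩ := hFr
  refine ⟨6 ^ 6 * 64 * 27 * 16 * 10 ^ 6 * Cf, by linarith, ?_⟩
  intro C0 e e2 c ε g M X A A0 Pi Y h n lam E Ec th t s0 Γ amp Z0 Rlow G0 T pk Fl hFF hC0 he heε he2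
    hc hc1 ok hXne hX hKT hlam hE ht ht' hth hΓ hPi hA0 _ hY hFro hS hH hA hRl hZ0 hG0 hc0 hc1'
  obtain ⟨d, A1, o, F1, b, _, hN, hcard, hKd, hA1, hchd⟩ :=
    hNar g M X A A0 Pi Y h n lam E Ec th _ s0 amp Rlow T pk Fl ok hA0 hY hRl hS hH
  obtain ⟨hl, hn1, hamp, _, _, _, hFl, hnth, _, hlamp⟩ := hH
  have hK := ok.K1_ge
  have hD := ok.D_ge
  have hR := ok.R_pos
  have hH0 := ok.H_ge
  have hσ0 := ok.sg_pos h
  have hσ1 : g.sg h ≤ 1 := (ok.sg_le' hl).trans (by norm_num)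
  have hs0 := ok.sc_pos h d
  have hsσ := ok.sc_le h d
  have hN0 : (0 : ℝ) < #X := by exact_mod_cast card_pos.2 hXne
  have hn0 : (1 : ℝ) ≤ n := by exact_mod_cast hn1
  have hP1 : (1 : ℝ) ≤ Pi := by exact_mod_cast hPi
  have hA01 : (1 : ℝ) ≤ A0 := by exact_mod_cast hA0
  have hY1 : (1 : ℝ) ≤ Y := by
    rcases Nat.eq_zero_or_pos Y with rfl | h0
    · rw [pow_zero] at hY; linarith
    · exact_mod_cast h0
  have hHe : 1 ≤ g.H ^ e2 := Real.one_le_rpow (by linarith) he2.le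
  have hAr : (1 : ℝ) ≤ A := by
    refine le_trans ?_ hA
    have : (1 : ℝ) ≤ Pi * (Y : ℝ) ^ 2 * g.H ^ e2 :=
      one_le_mul_of_one_le_of_one_le (one_le_mul_of_one_le_of_one_le hP1 (one_le_pow₀ hY1)) hHe
    linarith
  have hA1' : 1 ≤ A := by exact_mod_cast hAr
  have hnσ : (n : ℝ) ≤ g.sg h ^ (-t / 3) := casm_n ok (by linarith) ht ht' hnth hth
  set σ := g.sg h with hσ
  set s := g.sc h d with hs
  set q := c * (1 / g.K1 : ℝ) ^ C0 with hq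
  have hq0 : 0 < q := by positivity
  have hq1 : q ≤ 1 := mul_le_one₀ hc1 (by positivity)
    (Real.rpow_le_one (by positivity) (by rw [div_le_one (by linarith)]; linarith) hC0)
  have ha0 : 0 < σ ^ e := by positivity
  have hb0 : 0 < s ^ e := by positivity
  have hb1 : s ^ e ≤ 1 := Real.rpow_le_one hs0.le (hsσ.trans hσ1) he.le
  have hsn : s ^ 3 * n ≤ 1 := by
    have h1 : σ ^ (-t / 3) ≤ σ ^ (-1 : ℝ) :=
      Real.rpow_le_rpow_of_exponent_ge hσ0 hσ1 (by linarith)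
    rw [Real.rpow_neg_one] at h1
    have h2 : σ * n ≤ 1 := by
      have := mul_le_mul_of_nonneg_left (hnσ.trans h1) hσ0.le
      rwa [mul_inv_cancel₀ hσ0.ne'] at this
    have h3 : s ^ 3 ≤ σ := (pow_le_of_le_one hs0.le (hsσ.trans hσ1) (by norm_num)).trans hsσ
    exact (mul_le_mul_of_nonneg_right h3 (by linarith)).trans h2
  obtain ⟨mm, hmm0, hmm⟩ : ∃ mm : ℝ, 0 ≤ mm ∧
      mm * (q * σ ^ e * (n : ℝ) ^ 2) = 16 * #X * A * Γ * g.D :=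
    ⟨16 * #X * A * Γ * g.D / (q * σ ^ e * (n : ℝ) ^ 2), by positivity,
      div_mul_cancel₀ _ (by positivity)⟩
  obtain ⟨Ξ, hΞ1, hΞ⟩ : ∃ Ξ : ℝ, 1 ≤ Ξ ∧
      Ξ ^ 2 * ((q * s ^ e) ^ 2 * s ^ 3 * n) = (1000 * A : ℝ) ^ 2 := by
    have h0 : 0 < (q * s ^ e) ^ 2 * s ^ 3 * n := by positivity
    refine ⟨√((1000 * A : ℝ) ^ 2 / ((q * s ^ e) ^ 2 * s ^ 3 * n)), Real.one_le_sqrt.2 ?_, ?_⟩
    · rw [one_le_div h0, mul_assoc]
      refine le_trans (mul_le_one₀ (pow_le_one₀ (by positivity)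
        (mul_le_one₀ hq1 hb0.le hb1)) (by positivity) hsn) (one_le_pow₀ (by linarith))
    · rw [Real.sq_sqrt (by positivity), div_mul_cancel₀ _ h0.ne']
  have d1 := hD1 C0 e e2 c g M X A n h d t Γ mm o F1 b hFF he2 hc ok hX ht ht' hΓ hA1' hFro hN hnσ
    hmm.ge
  have d2 := fun y => hD2 C0 e e2 c g M X A n h d y _ Ξ o F1 b hFF he2 hc ok hX hKT hA1' hN
    (by linarith) hΞ.ge
  set B1 := {f ∈ F1 | mm < #(strip g M s F1 b f)} with hB1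
  set B2 := fun y : ℕ => {f ∈ F1 | Ξ * 2 ^ y < #(dsq M s y F1 b f)} with hB2
  set F2 := F1 \ (B1 ∪ (range (Y + 1)).biUnion B2) with hF2
  have hsub : F2 ⊆ F1 := sdiff_subset
  have hc2 : (#F1 : ℝ) ≤ #F2 + (Y + 2) * (200 * g.H ^ e2 * n * #X) := by
    have h1 : #F1 ≤ #F2 + (#B1 + ∑ y ∈ range (Y + 1), #(B2 y)) :=
      card_le_card_sdiff_add_card.trans (Nat.add_le_add_left
        ((card_union_le _ _).trans (Nat.add_le_add_left card_biUnion_le _)) _)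
    have h2 : (#F1 : ℝ) ≤ #F2 + (#B1 + ∑ y ∈ range (Y + 1), (#(B2 y) : ℝ)) := by exact_mod_cast h1
    have h3 : ∑ y ∈ range (Y + 1), (#(B2 y) : ℝ) ≤ ∑ y ∈ range (Y + 1), 200 * g.H ^ e2 * n * #X :=
      sum_le_sum fun y _ => d2 y
    rw [sum_const, card_range, nsmul_eq_mul] at h3
    push_cast at h3
    linarith
  have hc3 : (#X : ℝ) * A * n ≤ Pi * (2 * Y * #F1) := by
    exact_mod_cast hFl.trans (Nat.mul_le_mul_left _ hcard)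
  have hc4 : (#X : ℝ) * A * n ≤ 4 * Y * Pi * #F2 := by
    have h1 : (Pi : ℝ) * (2 * Y * #F1) ≤
        Pi * (2 * Y * (#F2 + 3 * Y * (200 * g.H ^ e2 * n * #X))) := by
      have : ((Y : ℝ) + 2) * (200 * g.H ^ e2 * n * #X) ≤ 3 * Y * (200 * g.H ^ e2 * n * #X) :=
        mul_le_mul_of_nonneg_right (by linarith) (by positivity)
      gcongr
      linarith
    have h2 := mul_le_mul_of_nonneg_right hA (by positivity : (0 : ℝ) ≤ n * #X)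
    have h3 : (0 : ℝ) ≤ #X * A * n := by positivity
    linarith
  have hR1 := hN.hs
  have hcore : Core g.K1 g.H (g.R * s ^ 2 / 4) A1 (Z0 * (g.R * s ^ 2 / 4) ^ ε) := by
    rcases hA1 with rfl | ⟨rfl, h1⟩
    · refine hc0 _ hR1 ?_
      have h1 : s ^ 2 ≤ σ ^ 2 := pow_le_pow_left₀ hs0.le hsσ 2
      have h2 := mul_le_mul_of_nonneg_left h1 hR.le
      change _ ≤ g.R * σ ^ 2
      linarith
    · exact hc1' _ hR1 h1
  have hp : (0 : ℝ) < (2 * A0) ^ d := by positivity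
  have fs := hFs Cf g M X A A1 n h d E Ec s0 _ (amp / (6 * g.K1 * (2 * A0) ^ d)) Ξ mm _ o T pk F1 F2
    b hCf hFr ok hX hS hN hsub (by positivity) hΞ1 hmm0 (by positivity) hcore
    (fun f hf => hchd f (hsub hf))
    (fun f hf => by
      obtain ⟨h1, h2⟩ := mem_sdiff.1 hf
      exact not_lt.1 fun h3 => h2 (mem_union_left _ (mem_filter.2 ⟨h1, h3⟩)))
    (fun f hf y hy => by
      obtain ⟨h1, h2⟩ := mem_sdiff.1 hf
      refine not_lt.1 fun h3 => h2 (mem_union_right _ (mem_biUnion.2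
        ⟨y, mem_range.2 ?_, mem_filter.2 ⟨h1, h3⟩⟩))
      have h4 : s ^ 2 ≤ 1 := pow_le_one₀ hs0.le (hsσ.trans hσ1)
      have h5 := mul_le_mul_of_nonneg_left h4 hR.le
      have h6 : (2 : ℝ) ^ y ≤ 2 ^ Y := by linarith [ok.hH]
      exact Nat.lt_succ_of_le ((pow_le_pow_iff_right₀ (by norm_num)).1 h6))
  have hG := hG0 d hKd
  have hl3 : lam ≤ 6 * Pi * g.K1 * G0 * (n * (amp / (6 * g.K1 * (2 * A0) ^ d))) := by
    refine hlamp.trans ?_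
    have e1 : (Pi : ℝ) * n * amp =
        6 * Pi * g.K1 * (2 * A0) ^ d * (n * (amp / (6 * g.K1 * (2 * A0) ^ d))) := by
      field_simp
    rw [e1]
    gcongr
  refine (casm_arith hN0 (by linarith) (by linarith) hq0 ha0 hb0 (by linarith) (by linarith)
    (by linarith) (by linarith) (by linarith) hlam.le fs hmm hΞ hc4 hl3
    (casm_gain hR hs0 hsσ hσ1 he heε hZ0)).trans ?_
  change _ ≤ _ * (Z0 * g.R ^ ε * σ ^ ε * E ^ 3) ^ 2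
  have hG6 : 0 ≤ G0 ^ 6 := by positivity
  gcongr
  all_goals first | linarith | norm_num

end Pool.Agent.Lib.MP_108739_an.HA
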