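import Pool.Agent.Lib.MP_108739_an.HA.CGeo

/-! Deletion of the flags in rich dyadic squares. -/

namespace Pool.Agent.Lib.MP_108739_an.HA

open Finset

lemma d2_num {c s e k P N a m T Ξ w : ℝ} (hs : 0 < s) (hq : 0 < c * k * s ^ e) (hP : 0 < P)
    (hN : 0 < N) (ha : 0 < a) (hm : 0 < m) (hw : 0 < w) (hΞ : 0 < Ξ)
    (h2 : (1000 * a) ^ 2 ≤ Ξ ^ 2 * ((c * k * s ^ e) ^ 2 * s ^ 3 * m)) (h3 : Ξ * w * T ≤ 16 * P)
    (h4 : c * s ^ e * k * (P / (N * a * (2 * m))) * (N / (2 * w / s)) * s ^ ((1 : ℝ) / 2) *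
      (2 * m) ^ (3 / 2 : ℝ) / √1 ≤ 2 * T) : False := by
  have e1 : (2 * m) ^ (3 / 2 : ℝ) = 2 * m * √(2 * m) := by
    rw [Real.sqrt_eq_rpow, ← Real.rpow_one_add' (by positivity) (by norm_num)]; norm_num
  rw [e1, ← Real.sqrt_eq_rpow, Real.sqrt_one, div_one] at h4
  set q := c * k * s ^ e with hq'
  have e2 : c * s ^ e * k * (P / (N * a * (2 * m))) * (N / (2 * w / s)) * √s * (2 * m * √(2 * m)) =
      q * s * √s * √(2 * m) * P / (2 * w * a) := by rw [hq']; field_simp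
  rw [e2, div_le_iff₀ (by positivity)] at h4
  have h5 : Ξ * (q * s * √s * √(2 * m)) * P ≤ 64 * a * P := by
    calc Ξ * (q * s * √s * √(2 * m)) * P = Ξ * (q * s * √s * √(2 * m) * P) := by ring
      _ ≤ Ξ * (2 * T * (2 * w * a)) := mul_le_mul_of_nonneg_left h4 hΞ.le
      _ = 4 * a * (Ξ * w * T) := by ring
      _ ≤ 4 * a * (16 * P) := mul_le_mul_of_nonneg_left h3 (by positivity)
      _ = _ := by ring
  have h6 := pow_le_pow_left₀ (by positivity) (le_of_mul_le_mul_right h5 hP) 2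
  have e3 : (Ξ * (q * s * √s * √(2 * m))) ^ 2 = 2 * (Ξ ^ 2 * (q ^ 2 * s ^ 3 * m)) := by
    rw [mul_pow, mul_pow, mul_pow, Real.sq_sqrt hs.le, Real.sq_sqrt (by positivity)]; ring
  rw [e3] at h6
  nlinarith [mul_pos ha ha]

lemma d2_floor {x w : ℝ} (hw : 0 < w) : ⌊x / w⌋ * w ≤ x ∧ x ≤ ⌊x / w⌋ * w + w := by
  have h1 := (le_div_iff₀ hw).1 (Int.floor_le (x / w))
  have h2 := (div_lt_iff₀ hw).1 (Int.lt_floor_add_one (x / w))
  exact ⟨h1, by linarith⟩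

open Classical in
theorem del2 : Del2Stmt := by
  intro C0 e e2 c g M X A n h d y ts Ξ o F1 b hF he2 hc hg hX hKT hA hN hΞ hm
  by_contra hcon
  rw [not_le] at hcon
  obtain ⟨s, hs⟩ : ∃ s, s = g.sc h d := ⟨_, rfl⟩
  rw [← hs] at hm hcon
  set Φ : Finset Fg := {f ∈ F1 | Ξ * 2 ^ y < (dsq M s y F1 b f).card} with hΦ
  have hsub : Φ ⊆ F1 := filter_subset _ _
  have hH := hg.H_ge
  have hK := hg.K1_ge
  have hP : (0 : ℝ) < Φ.card := lt_of_le_of_lt (by positivity) hcon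
  obtain ⟨f0, hf0⟩ := card_pos.1 (Nat.cast_pos.1 hP)
  have hX0 : (0 : ℝ) < X.card := Nat.cast_pos.2 (card_pos.2 ⟨_, (hN.mem f0 (hsub hf0)).1⟩)
  have hA0 : (0 : ℝ) < A := Nat.cast_pos.2 hA
  have hn0 : (0 : ℝ) < n := Nat.cast_pos.2 hN.hn
  have hs0 : 0 < s := hs ▸ hg.sc_pos h d
  have hsσ : s ≤ g.sg h := hs ▸ hg.sc_le h d
  have hσ2 := hg.sg_le' hN.hl
  have hσ1 : 100 * g.sg h ≤ 1 / g.K1 := by
    rw [le_div_iff₀ (by linarith)]
    linarith [hg.sg_mul_K1_le hN.hl]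
  have hκ : (1 : ℝ) / g.K1 ≤ 1 := (div_le_one (by linarith)).2 (by linarith)
  have hw1 : (1 : ℝ) ≤ 2 ^ y := one_le_pow₀ (by norm_num)
  obtain ⟨ℓ, hℓ⟩ : ∃ ℓ : ℝ, ℓ = 2 ^ y / (4 * s ^ 2) := ⟨_, rfl⟩
  have hℓ0 : 0 < ℓ := by rw [hℓ]; positivity
  have hsℓ : 1 ≤ s * ℓ := by
    have : s * ℓ = 2 ^ y / (4 * s) := by rw [hℓ]; field_simp
    rw [this, le_div_iff₀ (by positivity)]; linarith
  have efx : ∀ l p, fx M s l p / 2 ^ y = (p.1 + cs M s l * p.2) / (2 * s * ℓ) := fun l p => by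
    rw [hℓ, fx]; field_simp; ring
  have eft : ∀ p, ft s p / 2 ^ y = p.2 / ℓ := fun p => by rw [hℓ, ft]; field_simp
  have h6 : ∀ f ∈ F1, |cs M s (b f)| ≤ 6 := fun f hf =>
    cs_le M hs0.le (by linarith) (hs ▸ hN.abs_b_le hg hf) (by linarith [hg.L_ge, hg.hR])
      (by linarith [hg.Q_ge, hg.hR])
  let ky : Fg → ℕ × ℤ × ℤ × ℤ := fun f =>
    (f.2.1, b f, ⌊fx M s (b f) f.1 / 2 ^ y⌋, ⌊ft s f.1 / 2 ^ y⌋)
  let tb : Fg → (ℕ × ℤ × ℤ × ℤ) × ℤ := fun f => (ky f, ⌊f.1.1 / ℓ⌋)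
  have hst : ∀ f f', f' ∈ dsq M s y F1 b f ↔ f' ∈ F1 ∧ ky f' = ky f := fun f f' => by
    simp only [dsq, mem_filter, ky, Prod.mk.injEq]
    refine and_congr_right fun _ => and_congr_right fun _ => and_congr_right fun h => ?_
    rw [h]
  have hT : Ξ * 2 ^ y * (Φ.image ky).card ≤ Φ.card := by
    rw [card_eq_sum_card_image ky Φ, Nat.cast_sum, mul_comm, ← nsmul_eq_mul]
    refine card_nsmul_le_sum _ _ _ fun τ hτ => ?_
    obtain ⟨f, hf, rfl⟩ := mem_image.1 hτ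
    refine (mem_filter.1 hf).2.le.trans (Nat.cast_le.2 (card_le_card fun f' hf' => ?_))
    obtain ⟨h1, h2⟩ := (hst f f').1 hf'
    have h3 : dsq M s y F1 b f' = dsq M s y F1 b f := by
      ext f''
      rw [hst, hst, h2]
    exact mem_filter.2 ⟨mem_filter.2 ⟨h1, h3 ▸ (mem_filter.1 hf).2⟩, h2⟩
  have hT2 : ((Φ.image tb).card : ℝ) ≤ 16 * (Φ.image ky).card := by
    have e1 : (Φ.image tb).image Prod.fst = Φ.image ky := by rw [image_image]; rfl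
    rw [card_eq_sum_card_image Prod.fst (Φ.image tb), e1, Nat.cast_sum, mul_comm, ← nsmul_eq_mul]
    refine sum_le_card_nsmul _ _ _ fun k _ => ?_
    rw [← card_image_of_injOn (f := Prod.snd) fun τ hτ τ' hτ' e' => Prod.ext
      ((mem_filter.1 hτ).2.trans (mem_filter.1 hτ').2.symm) e']
    refine (card_int_le _ (k.2.2.1 * (2 * s) - cs M s k.2.1 * k.2.2.2 - 7)
      (k.2.2.1 * (2 * s) - cs M s k.2.1 * k.2.2.2 + 7) (by linarith) fun m hm => ?_).trans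
      (by linarith)
    obtain ⟨τ, hτ, rfl⟩ := mem_image.1 hm
    obtain ⟨hτ', rfl⟩ := mem_filter.1 hτ
    obtain ⟨f, hf, rfl⟩ := mem_image.1 hτ'
    simp only [tb, ky, efx, eft]
    obtain ⟨a1, a2⟩ := d2_floor (x := f.1.1 + cs M s (b f) * f.1.2) (w := 2 * s * ℓ) (by positivity)
    obtain ⟨a3, a4⟩ := d2_floor (x := f.1.2) hℓ0
    obtain ⟨a5, a6⟩ := d2_floor (x := f.1.1) hℓ0
    have a7 : |cs M s (b f) * (f.1.2 - ⌊f.1.2 / ℓ⌋ * ℓ)| ≤ 6 * ℓ := by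
      rw [abs_mul, abs_of_nonneg (a := f.1.2 - _) (by linarith)]
      exact mul_le_mul (h6 f (hsub hf)) (by linarith) (by linarith) (by norm_num)
    obtain ⟨a7, a8⟩ := abs_le.1 a7
    have a9 : 2 * s * ℓ ≤ ℓ := by nlinarith
    constructor
    · refine le_of_mul_le_mul_right ?_ hℓ0
      linarith
    · refine le_of_mul_le_mul_right ?_ hℓ0
      linarith
  refine d2_num (T := (Φ.image tb).card) (w := 2 ^ y) hs0 (by positivity) hP hX0 hA0 hn0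
    (by positivity) hΞ hm
    ((mul_le_mul_of_nonneg_left hT2 (by positivity)).trans (by linarith))
    (hF X id (fun p => (⌊p.1 / ℓ⌋, ⌊p.2 / ℓ⌋)) (fun j : ℤ × ℤ => (j.1 * ℓ, j.2 * ℓ)) (cs M s) Φ
      (fun f => f.1) (fun f => f.2.1) b (Φ.image tb) (fun τ => (τ.2, τ.1.2.2.2))
      (fun τ => τ.1.2.1) (fun τ => τ.1.2.2.1 * (2 * s * ℓ)) ℓ s
      (1 / g.K1) 1 (2 * 2 ^ y / s) 1 (Φ.card / (X.card * A * (2 * n))) 2 A (2 * n)
      hℓ0 hs0 (by linarith) hκ (by norm_num) (by norm_num) (by positivity) le_rfl (by positivity)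
      (by norm_num) (by positivity) ?_ ?_ ?_ ?_ ?_ ?_ ?_ ?_ ?_ ?_ ?_ ?_ ?_)
  · have h1 : s ^ (-e2) ≤ g.H ^ e2 := by
      rw [Real.rpow_neg hs0.le, ← Real.inv_rpow hs0.le]
      refine Real.rpow_le_rpow (by positivity) ?_ he2.le
      rw [inv_le_comm₀ hs0 (by linarith), ← one_div, hs]
      exact hN.inv_H_le hg
    have e1 : (Φ.card : ℝ) / (X.card * A * (2 * n)) * A = Φ.card / (2 * n * X.card) := by
      field_simp
    rw [e1, le_div_iff₀ (by positivity)]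
    linarith [mul_le_mul_of_nonneg_right h1 (by positivity : (0 : ℝ) ≤ n * X.card)]
  · exact fun p _ => ⟨(d2_floor hℓ0).1, (d2_floor hℓ0).2, (d2_floor hℓ0).1, (d2_floor hℓ0).2⟩
  · intro j z r h1 _
    have h3 := hKT z (r * ℓ) (hsℓ.trans (mul_le_mul_of_nonneg_right h1 hℓ0.le))
    have e1 : 2 * 2 ^ y / s * (r / s) ^ (1 : ℝ) = 8 * (r * ℓ) := by
      rw [Real.rpow_one, hℓ]; field_simp; ring
    rw [e1]
    refine le_trans (Nat.cast_le.2 (card_le_card fun y hy => ?_)) h3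
    simp only [mem_filter] at hy ⊢
    exact ⟨hy.1, hy.2.2⟩
  · intro f hf f' hf' hh
    simp only [Prod.mk.injEq] at hh
    exact hN.inj (hsub hf) (hsub hf') hh.1 hh.2.1 hh.2.2
  · exact fun f hf => (hN.mem f (hsub hf)).1
  · exact fun f hf => h6 f (hsub hf)
  · exact fun f _ f' _ => hg.cs_sep_of_le (hs ▸ hN.inv_R_le hg) _ _
  · intro f hf
    have h2 := hN.b_near hg (hsub hf)
    have h3 := (hN.a_bounds hg (hsub hf)).2.2
    have e1 : (f.2.1 : ℝ) / (2 * g.K1) = f.2.1 * (1 / g.K1) / 2 := by field_simp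
    have e2 : (3 : ℝ) / (4 * g.K1) = 3 / 4 * (1 / g.K1) := by field_simp
    rw [e1, e2] at h3
    rw [← hs] at h2
    obtain ⟨h3, h6⟩ := abs_le.1 h3
    obtain ⟨h4, h5⟩ := abs_le.1 h2
    exact abs_le.2 ⟨by linarith, by linarith⟩
  · intro y
    refine Nat.cast_le.2 (le_trans (card_le_card fun i hi => ?_) (hN.im y))
    obtain ⟨f, hf, rfl⟩ := mem_image.1 hi
    simp only [mem_filter] at hf
    exact mem_image.2 ⟨f, mem_filter.2 ⟨hsub hf.1, hf.2⟩, rfl⟩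
  · intro y i
    have h1 := (Nat.cast_le (α := ℝ)).2 (hN.ct y i)
    push_cast at h1
    refine le_trans (Nat.cast_le.2 (card_le_card fun f hf => ?_)) h1
    simp only [mem_filter] at hf
    exact mem_filter.2 ⟨hsub hf.1, hf.2⟩
  · intro p i l0 r _
    rw [show min (1 : ℝ) (2 - 1) = 1 by norm_num, Real.rpow_one, one_mul, Nat.cast_le]
    refine le_trans (card_le_card_of_injOn (t := Ico l0 (l0 + r)) b (fun f hf => ?_)
      fun f hf f' hf' e' => ?_) (by simp)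
    · simp only [coe_filter, Set.mem_ofPred_eq] at hf
      exact mem_coe.2 (mem_Ico.2 hf.2.2.2)
    · simp only [coe_filter, Set.mem_ofPred_eq] at hf hf'
      exact hN.inj (hsub hf.1) (hsub hf'.1) (hf.2.1.trans hf'.2.1.symm)
        (hf.2.2.1.trans hf'.2.2.1.symm) e'
  · refine le_of_eq ?_
    field_simp
  · intro f hf
    refine ⟨tb f, mem_image_of_mem _ hf, ?_, rfl, ?_⟩
    · simp only [tb, ky, eft]
    · simp only [tb, ky, efx, id]
      obtain ⟨a1, a2⟩ :=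
        d2_floor (x := f.1.1 + cs M s (b f) * f.1.2) (w := 2 * s * ℓ) (by positivity)
      exact abs_le.2 ⟨by linarith, by linarith⟩

end Pool.Agent.Lib.MP_108739_an.HA
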