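import Pool.Agent.Lib.MP_108739_an.HA.Defs

/-! Statements of the four pieces of the heavy case. -/

namespace Pool.Agent.Lib.MP_108739_an.HA

open Finset

noncomputable section

abbrev Fg := (ℝ × ℝ) × ℕ × ℕ

/-- Length of the arcs of height `h`. -/
def Geo.sg (g : Geo) (h : ℕ) : ℝ := g.δ * (g.D : ℝ) ^ h

/-- Length of the refined arcs. -/
def Geo.sc (g : Geo) (h d : ℕ) : ℝ := g.sg h / (g.K1 : ℝ) ^ d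

/-- The `r`-th child of the refined arc `l`, cut out of the arc sum `a`. -/
def chd (g : Geo) (M : Mo) (T : Finset Tb) (pk : Tb → Arr) (h d i a : ℕ) (l : ℤ) (r : ℕ) : Arr :=
  cut M (l * g.sc h d + r * g.sc h d / g.K1) (l * g.sc h d + (r + 1) * g.sc h d / g.K1)
    (garc T pk g.D i h a)

open Classical in
/-- Flags after the narrowing step. -/
structure Nar (g : Geo) (X : Finset (ℝ × ℝ)) (A n h d : ℕ) (ts : ℝ) (o : ℤ) (F1 : Finset Fg)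
    (b : Fg → ℤ) : Prop where
  hl : h < g.ls
  hn : 1 ≤ n
  ho : |o| ≤ 1
  hs : 1 ≤ g.R * g.sc h d ^ 2 / 4
  mem : ∀ f ∈ F1, f.1 ∈ X ∧ f.2.1 < g.K1
  bd : ∀ f ∈ F1, b f / (g.K1 : ℤ) ^ d = f.2.2 + o
  lf : ∀ f ∈ F1, ∃ l < g.D ^ g.ls, l / g.D ^ h = f.2.2 ∧
    |l * g.δ - (1 / 4 + f.2.1 / (2 * g.K1))| ≤ 3 / (4 * g.K1)
  im : ∀ p, #({f ∈ F1 | f.1 = p}.image fun f => f.2.1) ≤ A
  ct : ∀ p i, #{f ∈ F1 | f.1 = p ∧ f.2.1 = i} ≤ 2 * n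
  ns : ∀ p i h' a', h < h' → h' ≤ g.ls →
    (#{f ∈ F1 | f.1 = p ∧ f.2.1 = i ∧ f.2.2 / g.D ^ (h' - h) = a'} : ℝ) * ((g.D : ℝ) ^ h) ^ ts ≤
      ((g.D : ℝ) ^ h') ^ ts

open Classical in
/-- Flags with the same arc data as `f` in the same grid strip. -/
def strip (g : Geo) (M : Mo) (s : ℝ) (F1 : Finset Fg) (b : Fg → ℤ) (f : Fg) : Finset Fg :=
  {f' ∈ F1 | f'.2.1 = f.2.1 ∧ b f' = b f ∧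
    ⌊fx M s (b f) f'.1 / (g.R * s ^ 2 / 4)⌋ = ⌊fx M s (b f) f.1 / (g.R * s ^ 2 / 4)⌋}

open Classical in
/-- Flags with the same arc data as `f` in the same dyadic square of side `2 ^ y`. -/
def dsq (M : Mo) (s : ℝ) (y : ℕ) (F1 : Finset Fg) (b : Fg → ℤ) (f : Fg) : Finset Fg :=
  {f' ∈ F1 | f'.2.1 = f.2.1 ∧ b f' = b f ∧ ⌊fx M s (b f) f'.1 / 2 ^ y⌋ = ⌊fx M s (b f) f.1 / 2 ^ y⌋ ∧
    ⌊ft s f'.1 / 2 ^ y⌋ = ⌊ft s f.1 / 2 ^ y⌋}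

open Classical in
def NarStmt : Prop := ∀ (g : Geo) (M : Mo) (X : Finset (ℝ × ℝ)) (A A0 Pi Y h n : ℕ)
  (lam E Ec th ts s0 amp Rlow : ℝ) (T : Finset Tb) (pk : Tb → Arr) (Fl : Finset Fg),
  g.Ok M → 1 ≤ A0 → g.H ≤ 2 ^ Y → (g.K1 : ℝ) ^ 2 ≤ Rlow → Sys g M E Ec s0 T pk →
  Heavy g M X A Pi lam th ts T pk h n amp Fl →
  ∃ (d A1 : ℕ) (o : ℤ) (F1 : Finset Fg) (b : Fg → ℤ), F1 ⊆ Fl ∧ Nar g X A n h d ts o F1 b ∧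
    #Fl ≤ 2 * Y * #F1 ∧ (g.K1 : ℝ) ^ d ≤ g.H ∧
    (A1 = A0 ∨ (A1 = 1 ∧ g.R * g.sc h d ^ 2 / 4 ≤ Rlow)) ∧
    ∀ f ∈ F1, A1 ≤ #{r ∈ range g.K1 |
      amp / (6 * g.K1 * (2 * A0) ^ d) ≤ ‖ev M (chd g M T pk h d f.2.1 f.2.2 (b f) r) f.1‖}

open Classical in
def Del1Stmt : Prop := ∀ (C0 e e2 c : ℝ) (g : Geo) (M : Mo) (X : Finset (ℝ × ℝ)) (A n h d : ℕ)
  (t Γ mm : ℝ) (o : ℤ) (F1 : Finset Fg) (b : Fg → ℤ),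
  FFat C0 e e2 c → 0 < e2 → 0 < c → g.Ok M → (∀ p ∈ X, InBox g.R p) → 0 ≤ t → t ≤ 3 / 2 → 1 ≤ Γ →
  1 ≤ A → Frost X g.R g.δ Γ t → Nar g X A n h d (min t (2 - t)) o F1 b →
  (n : ℝ) ≤ g.sg h ^ (-t / 3) →
  16 * #X * A * Γ * g.D ≤ mm * (c * (1 / g.K1 : ℝ) ^ C0 * g.sg h ^ e * (n : ℝ) ^ 2) →
  (#{f ∈ F1 | mm < #(strip g M (g.sc h d) F1 b f)} : ℝ) ≤ 200 * g.H ^ e2 * n * #X

open Classical in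
def Del2Stmt : Prop := ∀ (C0 e e2 c : ℝ) (g : Geo) (M : Mo) (X : Finset (ℝ × ℝ)) (A n h d y : ℕ)
  (ts Ξ : ℝ) (o : ℤ) (F1 : Finset Fg) (b : Fg → ℤ),
  FFat C0 e e2 c → 0 < e2 → 0 < c → g.Ok M → (∀ p ∈ X, InBox g.R p) → KT 8 X → 1 ≤ A →
  Nar g X A n h d ts o F1 b → 0 < Ξ →
  (1000 * A : ℝ) ^ 2 ≤ Ξ ^ 2 * ((c * (1 / g.K1 : ℝ) ^ C0 * g.sc h d ^ e) ^ 2 * g.sc h d ^ 3 * n) →
  (#{f ∈ F1 | Ξ * 2 ^ y < #(dsq M (g.sc h d) y F1 b f)} : ℝ) ≤ 200 * g.H ^ e2 * n * #X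

open Classical in
def FsumStmt : Prop := ∀ (C : ℝ) (g : Geo) (M : Mo) (X : Finset (ℝ × ℝ)) (A A1 n h d : ℕ)
  (E Ec s0 ts hh Ξ mm Z : ℝ) (o : ℤ) (T : Finset Tb) (pk : Tb → Arr) (F1 F2 : Finset Fg)
  (b : Fg → ℤ), 1 ≤ C → FrameAt C → g.Ok M → (∀ p ∈ X, InBox g.R p) → Sys g M E Ec s0 T pk →
  Nar g X A n h d ts o F1 b → F2 ⊆ F1 → 0 < hh → 1 ≤ Ξ → 0 ≤ mm → 0 ≤ Z →
  Core g.K1 g.H (g.R * g.sc h d ^ 2 / 4) A1 Z →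
  (∀ f ∈ F2, A1 ≤ #{r ∈ range g.K1 | hh ≤ ‖ev M (chd g M T pk h d f.2.1 f.2.2 (b f) r) f.1‖}) →
  (∀ f ∈ F2, (#(strip g M (g.sc h d) F1 b f) : ℝ) ≤ mm) →
  (∀ f ∈ F2, ∀ y : ℕ, (2 : ℝ) ^ y ≤ g.R * g.sc h d ^ 2 / 2 →
    (#(dsq M (g.sc h d) y F1 b f) : ℝ) ≤ Ξ * 2 ^ y) →
  (#F2 : ℝ) ^ 3 * hh ^ 6 ≤ 27 * C * g.sc h d ^ 3 * mm * Ξ ^ 2 * Z ^ 2 * E ^ 6

end

end Pool.Agent.Lib.MP_108739_an.HA
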