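import Pool.Agent.Lib.MP_108739_an.HA.Geo
import Pool.Agent.Lib.MP_108739_an.HA.CDefs

/-! Heavy case: the frame estimate on every refined arc and the sum of the energies. -/

namespace Pool.Agent.Lib.MP_108739_an.HA

open Finset

theorem fs_cut (M : Mo) (F : Arr) {s : ℝ} (hs : 0 ≤ s) {K : ℕ} (hK : 1 ≤ K) (B : Finset ℤ) :
    ∑ l ∈ B, ∑ r ∈ range K, nrm (cut M (l * s + r * s / K) (l * s + (r + 1) * s / K) F) ≤
      nrm F := by
  refine le_trans (sum_le_sum fun l _ => ?_) (sum_nrm_cut_grid (M := M) (F := F) B hs)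
  have hK0 : (0 : ℝ) < K := by exact_mod_cast hK
  refine le_trans (le_of_eq (sum_congr rfl fun r hr => ?_))
    (sum_nrm_cut_le (M := M) (F := cut M (l * s) ((l + 1) * s) F) (range K)
      (fun r => l * s + r * s / K) (fun r => l * s + (r + 1) * s / K) fun i _ j _ hij => ?_)
  · have h1 : (r : ℝ) + 1 ≤ K := by exact_mod_cast mem_range.1 hr
    have h2 : ((r : ℝ) + 1) * s / K ≤ s := by
      rw [div_le_iff₀ hK0, mul_comm]; exact mul_le_mul_of_nonneg_left h1 hs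
    have h3 : 0 ≤ (r : ℝ) * s / K := by positivity
    rw [cut_cut (by linarith) (by linarith)]
  · rcases lt_or_gt_of_ne hij with h | h
    · left
      have : (i : ℝ) + 1 ≤ j := by exact_mod_cast h
      gcongr
    · right
      have : (j : ℝ) + 1 ≤ i := by exact_mod_cast h
      gcongr

variable {g : Geo} {M : Mo} {E Ec s0 : ℝ} {T : Finset Tb} {pk : Tb → Arr}

theorem fs_garc (hS : Sys g M E Ec s0 T pk) (i h a : ℕ) :
    garc T pk g.D i h a = ∑ l ∈ range (g.D ^ g.ls) with l / g.D ^ h = a, gl T pk i l := by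
  unfold garc gl
  rw [← sum_fiberwise_of_maps_to (t := {l ∈ range (g.D ^ g.ls) | l / g.D ^ h = a})
    (g := fun τ : Tb => τ.2.1) fun τ hτ => by
      obtain ⟨h1, h2⟩ := mem_filter.1 hτ
      exact mem_filter.2 ⟨mem_range.2 (hS.idx τ h1).2.1, h2.2⟩]
  refine sum_congr rfl fun l hl => sum_congr ?_ fun _ _ => rfl
  ext τ
  simp only [mem_filter]
  constructor
  · rintro ⟨⟨h1, h2, _⟩, h4⟩
    exact ⟨h1, h2, h4⟩
  · rintro ⟨h1, h2, h3⟩
    exact ⟨⟨h1, h2, by rw [h3]; exact (mem_filter.1 hl).2⟩, h3⟩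

theorem fs_gl_supp (hS : Sys g M E Ec s0 T pk) (i l : ℕ) :
    Supp M (gl T pk i l) (l * g.δ - 1 / g.ρ) ((l + 1) * g.δ + 1 / g.ρ) (8 / g.R) :=
  supp_sum fun τ hτ => by
    obtain ⟨h1, _, h3⟩ := mem_filter.1 hτ
    rw [← h3]; exact hS.sp1 τ h1

theorem fs_nrm_garc (ok : g.Ok M) (hS : Sys g M E Ec s0 T pk) (i h a : ℕ) :
    nrm (garc T pk g.D i h a) ≤
      3 * ∑ l ∈ range (g.D ^ g.ls) with l / g.D ^ h = a, nrm (gl T pk i l) := by
  classical
  rw [fs_garc hS]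
  refine nrm_sum_le _ _ 3 fun k => ?_
  have hδ := ok.δ_pos
  have hρ := ok.inv_ρ_le
  rw [← card_image_of_injective _ (Nat.cast_injective (R := ℤ))]
  refine (card_int_le _ (k.1 / M.L / g.δ - 3 / 2) (k.1 / M.L / g.δ + 1 / 2) (by linarith)
    fun n hn => ?_).trans (by linarith)
  obtain ⟨l, hl, rfl⟩ := mem_image.1 hn
  obtain ⟨h1, h2, _⟩ := fs_gl_supp hS i l k (mem_filter.1 hl).2
  push_cast
  rw [sub_le_iff_le_add, div_le_iff₀ hδ, ← sub_le_iff_le_add (a := (l : ℝ)), le_div_iff₀ hδ]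
  constructor <;> nlinarith

theorem fs_garc_supp (ok : g.Ok M) (hS : Sys g M E Ec s0 T pk) (i h a : ℕ) :
    Supp M (garc T pk g.D i h a) (-(1 / g.ρ)) (1 + 1 / g.ρ) (8 / g.R) :=
  supp_sum fun τ hτ => by
    have h1 := (mem_filter.1 hτ).1
    have h2 := ok.leaf_lt (hS.idx τ h1).2.1
    have h3 : 0 ≤ (τ.2.1 : ℝ) * g.δ := by have := ok.δ_pos; positivity
    exact (hS.sp1 τ h1).mono (by linarith) (by linarith) le_rfl

theorem fs_sg_pos (ok : g.Ok M) (h : ℕ) : 0 < g.sg h := by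
  have := ok.δ_pos; have := ok.D_ge; unfold Geo.sg; positivity

theorem fs_sg_le (ok : g.Ok M) {h : ℕ} (hl : h < g.ls) : g.sg h ≤ 1 / 200 := by
  have hD := ok.D_ge
  have h1 : (g.D : ℝ) ^ (h + 1) ≤ (g.D : ℝ) ^ g.ls := pow_le_pow_right₀ (by linarith) hl
  have h2 := mul_le_mul_of_nonneg_left h1 ok.δ_pos.le
  rw [ok.δ_mul, pow_succ, ← mul_assoc] at h2
  have h3 := fs_sg_pos ok h
  unfold Geo.sg at h3 ⊢
  nlinarith

theorem fs_sc_pos (ok : g.Ok M) (h d : ℕ) : 0 < g.sc h d := by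
  have := fs_sg_pos ok h; have := ok.K1_ge; unfold Geo.sc; positivity

theorem fs_sc_le (ok : g.Ok M) (h d : ℕ) : g.sc h d ≤ g.sg h :=
  div_le_self (fs_sg_pos ok h).le (one_le_pow₀ (by linarith [ok.K1_ge]))

/-- Total energy of all children of all refined arcs. -/
theorem fs_energy (ok : g.Ok M) (hS : Sys g M E Ec s0 T pk) (h d : ℕ) (B : Finset ℤ) :
    ∑ j ∈ range g.K1 ×ˢ range (g.D ^ g.ls) ×ˢ B, ∑ r ∈ range g.K1,
      en M g.R (chd g M T pk h d j.1 j.2.1 j.2.2 r) ≤ 3 * E ^ 2 := by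
  have hc : 0 ≤ M.L ^ 2 * M.Q / g.R := by have := M.hQ; have := ok.R_pos; positivity
  refine le_trans ?_ (mul_le_mul_of_nonneg_left hS.tot (by norm_num))
  rw [sum_product, mul_sum]
  refine sum_le_sum fun i _ => ?_
  rw [sum_product, ← sum_fiberwise_of_maps_to (s := range (g.D ^ g.ls)) (t := range (g.D ^ g.ls))
    (g := fun l => l / g.D ^ h) (fun l hl => mem_range.2
      ((Nat.div_le_self _ _).trans_lt (mem_range.1 hl))) fun l => en M g.R (gl T pk i l), mul_sum]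
  refine sum_le_sum fun a _ => ?_
  simp only [en, ← mul_sum]
  rw [mul_left_comm]
  refine mul_le_mul_of_nonneg_left (le_trans ?_ (fs_nrm_garc ok hS i h a)) hc
  exact fs_cut M _ (fs_sc_pos ok h d).le (by have := ok.hK; omega) B

theorem fs_loc {X : Finset (ℝ × ℝ)} {A n h d : ℕ} {ts : ℝ} {o : ℤ} {F1 : Finset Fg} {b : Fg → ℤ}
    (ok : g.Ok M) (hN : Nar g X A n h d ts o F1 b) {f : Fg} (hf : f ∈ F1) :
    |b f * g.sc h d| ≤ 3 / 2 := by
  obtain ⟨l, hl, hla, _⟩ := hN.lf f hf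
  have hK : (0 : ℤ) < (g.K1 : ℤ) ^ d := by have := ok.hK; positivity
  have hK' : (0 : ℝ) < (g.K1 : ℝ) ^ d := by exact_mod_cast hK
  have h1 : (f.2.2 + o) * (g.K1 : ℤ) ^ d ≤ b f := by
    rw [← hN.bd f hf]; exact Int.ediv_mul_le _ hK.ne'
  have h2 : b f < (f.2.2 + o + 1) * (g.K1 : ℤ) ^ d := by
    rw [← hN.bd f hf]; exact Int.lt_ediv_add_one_mul_self _ hK
  have h1' : ((f.2.2 : ℝ) + o) * (g.K1 : ℝ) ^ d ≤ b f := by exact_mod_cast h1
  have h2' : (b f : ℝ) ≤ ((f.2.2 : ℝ) + o + 1) * (g.K1 : ℝ) ^ d := by exact_mod_cast h2.le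
  have ho : |(o : ℝ)| ≤ 1 := by exact_mod_cast hN.ho
  have h3 : (f.2.2 : ℝ) * (g.D : ℝ) ^ h ≤ l := by
    rw [← hla]; exact_mod_cast Nat.div_mul_le_self l (g.D ^ h)
  have h4 := ok.leaf_lt hl
  have hδ := ok.δ_pos
  have h5 : (f.2.2 : ℝ) * g.sg h ≤ 1 := by
    have := mul_le_mul_of_nonneg_right h3 hδ.le
    unfold Geo.sg; nlinarith
  have hσ := fs_sg_pos ok h
  have hσ' := fs_sg_le ok hN.hl
  have h6 : (0 : ℝ) ≤ f.2.2 * g.sg h := by positivity
  have e : b f * g.sc h d = b f / (g.K1 : ℝ) ^ d * g.sg h := by unfold Geo.sc; ring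
  have h7 := mul_le_mul_of_nonneg_right ((le_div_iff₀ hK').2 h1') hσ.le
  have h8 := mul_le_mul_of_nonneg_right ((div_le_iff₀ hK').2 h2') hσ.le
  rw [e]
  rw [abs_le] at ho ⊢
  constructor <;> nlinarith [ho.1, ho.2]

theorem fsum : FsumStmt := by
  classical
  intro C g M X A A1 n h d E Ec s0 ts hh Ξ mm Z o T pk F1 F2 b hC hF ok hX hS hN hsub hh0 hΞ hmm hZ
    hcore hA1 hstr hsq
  set s := g.sc h d with hs
  have hs0 : 0 < s := fs_sc_pos ok h d
  have hs1 : s ≤ 1 / 2 := by linarith [fs_sc_le ok h d, fs_sg_le ok hN.hl]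
  have hR := ok.R_pos
  set key : Fg → ℕ × ℕ × ℤ := fun f => (f.2.1, f.2.2, b f) with hkey
  set e : ℕ × ℕ × ℤ → ℝ := fun j => ∑ r ∈ range g.K1, en M g.R (chd g M T pk h d j.1 j.2.1 j.2.2 r)
    with he
  have he0 : ∀ j, 0 ≤ e j := fun j => sum_nonneg fun _ _ => en_nonneg hR.le _
  set W := C * s ^ 3 * mm * Ξ ^ 2 * Z ^ 2 with hW
  have hW0 : 0 ≤ W := by positivity
  obtain ⟨w, hw0, hw⟩ : ∃ w : ℝ, 0 ≤ w ∧ w ^ 3 = W / hh ^ 6 :=
    ⟨(W / hh ^ 6) ^ ((3 : ℕ)⁻¹ : ℝ), by positivity,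
      Real.rpow_inv_natCast_pow (by positivity) (by norm_num)⟩
  have piece : ∀ j ∈ F2.image key, (#{f ∈ F2 | key f = j} : ℝ) ≤ w * e j := by
    intro j hj
    obtain ⟨f0, hf0, rfl⟩ := mem_image.1 hj
    set Y := {f ∈ F2 | key f = key f0}.image Prod.fst with hY
    have hmem : ∀ p ∈ Y, (p, f0.2) ∈ F2 ∧ b (p, f0.2) = b f0 := fun p hp => by
      obtain ⟨f, hf, rfl⟩ := mem_image.1 hp
      obtain ⟨h1, h2⟩ := mem_filter.1 hf
      simp only [hkey, Prod.mk.injEq] at h2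
      have : f0.2 = f.2 := Prod.ext h2.1.symm h2.2.1.symm
      rw [this]
      exact ⟨h1, h2.2.2⟩
    have hcard : #Y = #{f ∈ F2 | key f = key f0} := card_image_of_injOn fun f hf f' hf' e' => by
      have h1 := (mem_filter.1 hf).2.trans (mem_filter.1 hf').2.symm
      simp only [hkey, Prod.mk.injEq] at h1
      exact Prod.ext e' (Prod.ext h1.1 h1.2.1)
    have hinj : ∀ (U : Finset (ℝ × ℝ)) (V : Finset Fg), (∀ p ∈ U, (p, f0.2) ∈ V) →
        (#U : ℝ) ≤ #V := fun U V hUV => by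
      exact_mod_cast card_le_card_of_injOn (fun p => (p, f0.2)) hUV
        fun _ _ _ _ e' => congrArg Prod.fst e'
    have h1 := hF g.K1 A1 g.H g.R Z s M (b f0) (chd g M T pk h d f0.2.1 f0.2.2 (b f0)) Y hh Ξ mm
      (by have := ok.hK; omega) (by linarith [ok.H_ge]) hs0 hs1 hN.hs hZ hcore ok.l1 ok.l2 ok.q1
      ok.q2 (fs_loc ok hN (hsub hf0))
      (fun r _ => ((fs_garc_supp ok hS _ _ _).cut' _ _).mono
        (sub_le_self _ (by positivity)) (le_add_of_nonneg_right (by positivity)) le_rfl)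
      (fun p hp => hX _ (hN.mem _ (hsub (hmem p hp).1)).1) hh0 hΞ hmm
      (fun p hp => by
        have h2 := hA1 _ (hmem p hp).1
        rw [(hmem p hp).2] at h2
        exact h2)
      (fun y hy u v => by
        rcases eq_empty_or_nonempty
          {p ∈ Y | ⌊fx M s (b f0) p / 2 ^ y⌋ = u ∧ ⌊ft s p / 2 ^ y⌋ = v} with e' | ⟨q, hq⟩
        · rw [e']; simp only [card_empty, Nat.cast_zero]; positivity
        obtain ⟨hq, hu, hv⟩ := mem_filter.1 hq
        refine (hinj _ _ fun p hp => ?_).trans (hsq _ (hmem q hq).1 y hy)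
        obtain ⟨hp, hu', hv'⟩ := mem_filter.1 hp
        refine mem_filter.2 ⟨hsub (hmem p hp).1, rfl, (hmem p hp).2.trans (hmem q hq).2.symm, ?_, ?_⟩
        · rw [(hmem q hq).2]; exact hu'.trans hu.symm
        · exact hv'.trans hv.symm)
      (fun u => by
        rcases eq_empty_or_nonempty
          {p ∈ Y | ⌊fx M s (b f0) p / (g.R * s ^ 2 / 4)⌋ = u} with e' | ⟨q, hq⟩
        · rw [e']; simpa using hmm
        obtain ⟨hq, hu⟩ := mem_filter.1 hq
        refine (hinj _ _ fun p hp => ?_).trans (hstr _ (hmem q hq).1)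
        obtain ⟨hp, hu'⟩ := mem_filter.1 hp
        refine mem_filter.2 ⟨hsub (hmem p hp).1, rfl, (hmem p hp).2.trans (hmem q hq).2.symm, ?_⟩
        rw [(hmem q hq).2]; exact hu'.trans hu.symm)
    rw [← hcard, ← pow_le_pow_iff_left₀ (by positivity) (mul_nonneg hw0 (he0 _))
      (by norm_num : 3 ≠ 0), mul_pow, hw, div_mul_eq_mul_div, le_div_iff₀ (by positivity)]
    exact h1
  have h2 : (#F2 : ℝ) ≤ w * (3 * E ^ 2) := by
    rw [card_eq_sum_card_image key, Nat.cast_sum]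
    refine (sum_le_sum piece).trans ?_
    rw [← mul_sum]
    refine mul_le_mul_of_nonneg_left (le_trans (sum_le_sum_of_subset_of_nonneg (fun j hj => ?_)
      fun j _ _ => he0 j) (fs_energy ok hS h d (F2.image b))) hw0
    obtain ⟨f, hf, rfl⟩ := mem_image.1 hj
    obtain ⟨l, hl, hla, _⟩ := hN.lf f (hsub hf)
    refine mem_product.2 ⟨mem_range.2 (hN.mem f (hsub hf)).2, mem_product.2
      ⟨mem_range.2 ?_, mem_image_of_mem _ hf⟩⟩
    show f.2.2 < _
    rw [← hla]; exact (Nat.div_le_self _ _).trans_lt hl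
  have h3 := pow_le_pow_left₀ (by positivity) h2 3
  rw [mul_pow, hw, div_mul_eq_mul_div, le_div_iff₀ (by positivity)] at h3
  refine h3.trans (le_of_eq ?_)
  rw [hW]; ring

end Pool.Agent.Lib.MP_108739_an.HA
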