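import Pool.Agent.Lib.MP_108739_an.HA.CGeo

/-! The narrowing step of the heavy case. -/

namespace Pool.Agent.Lib.MP_108739_an.HA

open Finset

variable {g : Geo} {M : Mo}

theorem nr_depth (hg : g.Ok M) {h Y : ℕ} (hl : h < g.ls) {Rlow : ℝ} (hY : g.H ≤ 2 ^ Y)
    (hR : (g.K1 : ℝ) ^ 2 ≤ Rlow) : ∃ dm : ℕ, g.R * g.sc h dm ^ 2 / 4 ≤ Rlow ∧
      (∀ d ≤ dm, 1 ≤ g.R * g.sc h d ^ 2 / 4 ∧ (g.K1 : ℝ) ^ d ≤ g.H) ∧ 3 * (dm + 1) ≤ 2 * Y := by
  have hK := hg.K1_ge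
  have hRp := hg.R_pos
  have hs := hg.sg_pos h
  have hs1 := hg.sg_le' hl
  have hex : ∃ d : ℕ, g.R * g.sc h d ^ 2 / 4 ≤ Rlow := by
    obtain ⟨d, hd⟩ := pow_unbounded_of_one_lt g.R (show (1 : ℝ) < g.K1 by linarith)
    refine ⟨d, ?_⟩
    have h1 := hg.sc_mul h d
    have h2 := hg.sc_pos h d
    have h3 := hg.sc_le h d
    have h4 : g.R * g.sc h d ≤ g.sg h := by rw [← h1]; nlinarith
    nlinarith
  classical
  have key : ∀ d ≤ Nat.find hex, 1 ≤ g.R * g.sc h d ^ 2 / 4 := by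
    intro d hd
    rcases d with _ | d
    · rw [g.sc_zero]; nlinarith [hg.R_sg h, hg.D_ge]
    · have h1 := not_le.1 (Nat.find_min hex (show d < Nat.find hex by omega))
      rw [g.sc_succ, div_pow, ← mul_div_assoc, div_right_comm, le_div_iff₀ (by positivity)]
      linarith
  have key2 : ∀ d ≤ Nat.find hex, 4 * ((g.K1 : ℝ) ^ d) ^ 2 ≤ g.H := by
    intro d hd
    have h1 := key d hd
    have h2 := hg.sc_mul h d
    have h3 : 4 * ((g.K1 : ℝ) ^ d) ^ 2 ≤ g.R * (g.sc h d * (g.K1 : ℝ) ^ d) ^ 2 := by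
      rw [mul_pow, ← mul_assoc]; gcongr; linarith
    rw [h2] at h3
    have h4 : g.sg h ^ 2 ≤ 1 := by nlinarith
    nlinarith [hg.hH]
  refine ⟨Nat.find hex, Nat.find_spec hex, fun d hd => ⟨key d hd, ?_⟩, ?_⟩
  · have h1 : (1 : ℝ) ≤ (g.K1 : ℝ) ^ d := one_le_pow₀ (by linarith)
    nlinarith [key2 d hd]
  · have h1 := (key2 _ le_rfl).trans hY
    have h2 : (2 : ℝ) ^ Nat.find hex ≤ (g.K1 : ℝ) ^ Nat.find hex :=
      pow_le_pow_left₀ (by norm_num) hK _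
    have h3 : (2 : ℝ) ^ (2 * Nat.find hex + 2) ≤ 2 ^ Y := by
      refine le_trans ?_ h1
      rw [pow_add, pow_mul']
      have := pow_le_pow_left₀ (by positivity) h2 2
      linarith
    have := (pow_le_pow_iff_right₀ (by norm_num : (1 : ℝ) < 2)).1 h3
    omega

theorem nr_three (hg : g.Ok M) {E Ec s0 : ℝ} {T : Finset Tb} {pk : Tb → Arr}
    (hS : Sys g M E Ec s0 T pk) (i h a : ℕ) (p : ℝ × ℝ) : ∃ o : ℤ, |o| ≤ 1 ∧
      ‖ev M (garc T pk g.D i h a) p‖ ≤ 3 * ‖ev M (cut M (((a + o : ℤ) : ℝ) * g.sg h)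
        ((((a + o : ℤ) : ℝ) + 1) * g.sg h) (garc T pk g.D i h a)) p‖ := by
  have hs := hg.sg_pos h
  set G := garc T pk g.D i h a with hG
  have h1 : cut M ((a - 1) * g.sg h) ((a - 1) * g.sg h + (3 : ℕ) * g.sg h) G = G := by
    refine cut_eq_self fun k hk => ?_
    obtain ⟨h2, h3, -⟩ := hg.supp_garc hS i h a k hk
    push_cast
    constructor <;> linarith
  rw [← sum_cut _ hs.le] at h1
  by_contra hc
  push Not at hc
  have h2 := hc (-1) (by norm_num)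
  have h3 := hc 0 (by norm_num)
  have h4 := hc 1 (by norm_num)
  have h5 : ev M G p = _ := congrArg (fun F => ev M F p) h1.symm
  rw [ev_sum, sum_range_succ, sum_range_succ, sum_range_one] at h5
  have e1 : ∀ r : ℕ, ((a : ℝ) - 1) * g.sg h + r * g.sg h = ((a + (r - 1 : ℤ) : ℤ) : ℝ) * g.sg h :=
    fun r => by push_cast; ring
  have e2 : ∀ r : ℕ, ((a : ℝ) - 1) * g.sg h + (r + 1) * g.sg h =
      (((a + (r - 1 : ℤ) : ℤ) : ℝ) + 1) * g.sg h := fun r => by push_cast; ring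
  simp only [e1, e2] at h5
  norm_num at h5 h2 h3 h4
  have h6 := norm_add₃_le (a := ev M (cut M ((a + -1) * g.sg h) (a * g.sg h) G) p)
    (b := ev M (cut M (a * g.sg h) ((a + 1) * g.sg h) G) p)
    (c := ev M (cut M ((a + 1) * g.sg h) ((a + 1 + 1) * g.sg h) G) p)
  rw [← h5] at h6
  linarith

theorem nr_one (hN : NarrowStmt) (hg : g.Ok M) {E Ec s0 : ℝ} {T : Finset Tb} {pk : Tb → Arr}
    (hS : Sys g M E Ec s0 T pk) (i h a : ℕ) (p : ℝ × ℝ) {A0 : ℕ} (hA : 1 ≤ A0) (dm : ℕ) {amp : ℝ}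
    (ha : amp ≤ ‖ev M (garc T pk g.D i h a) p‖) : ∃ (o : ℤ) (d : ℕ) (b : ℤ), |o| ≤ 1 ∧ d ≤ dm ∧
      b / (g.K1 : ℤ) ^ d = a + o ∧ (if d = dm then 1 else A0) ≤ #{r ∈ range g.K1 |
        amp / (6 * g.K1 * (2 * A0) ^ d) ≤ ‖ev M (chd g M T pk h d i a b r) p‖} := by
  classical
  obtain ⟨o, ho, h1⟩ := nr_three hg hS i h a p
  have hK := hg.K1_ge
  have hch : ∀ (d : ℕ) (b : ℤ) (r : ℕ), chd g M T pk h d i a b r =
      cut M (((g.K1 * b + r : ℤ) : ℝ) * g.sc h (d + 1))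
        ((((g.K1 * b + r : ℤ) : ℝ) + 1) * g.sc h (d + 1)) (garc T pk g.D i h a) := by
    intro d b r
    unfold chd
    rw [g.sc_succ]
    congr 1 <;> push_cast <;> field_simp <;> ring
  obtain ⟨d, hd, b, hb, h2, h3⟩ := hN g.K1 A0 dm
    (fun d b => ev M (cut M (b * g.sc h d) ((b + 1) * g.sc h d) (garc T pk g.D i h a)) p) (a + o)
    (by have := hg.hK; omega) hA (fun d b => by
      simp only [← hch]
      rw [← ev_sum]
      congr 1
      unfold chd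
      simp only [mul_div_assoc]
      rw [sum_cut _ (div_pos (hg.sc_pos h d) (by linarith)).le]
      congr 1
      field_simp)
  rw [bind_pure_comp, Finset.fmap_def] at h3
  refine ⟨o, d, b, ho, hd, hb,
    h3.trans (card_le_card_of_surjOn (fun r : ℕ => (r : ℤ)) fun r hr => ?_)⟩
  rw [mem_coe, mem_filter] at hr
  obtain ⟨r, hr', rfl⟩ : ∃ r' ∈ range g.K1, (r' : ℤ) = r := by simpa only [mem_image] using hr.1
  refine ⟨r, mem_coe.2 (mem_filter.2 ⟨hr', ?_⟩), rfl⟩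
  have h4 := hr.2
  simp only [← hch] at h4
  simp only [g.sc_zero] at h2
  have hA' : (1 : ℝ) ≤ A0 := by exact_mod_cast hA
  have h5 : (0 : ℝ) < (2 * A0) ^ d := by positivity
  rw [div_le_iff₀ (by positivity)]
  have h6 := mul_le_mul_of_nonneg_left h4 h5.le
  nlinarith

theorem nar (hN : NarrowStmt) : NarStmt := by
  classical
  intro g M X A A0 Pi Y h n lam E Ec th ts s0 amp Rlow T pk Fl hg hA0 hY hR hS hH
  obtain ⟨hl, hn, hamp, hf, him, hct, -, -, hns, -⟩ := hH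
  obtain ⟨dm, hdm, hd, hY3⟩ := nr_depth hg hl hY hR
  have h1 := fun f : Fg => fun hf' : f ∈ Fl =>
    nr_one hN hg hS f.2.1 h f.2.2 f.1 hA0 dm (hf f hf').2.2
  choose! o d b ho hdd hb hc using h1
  have hmaps : ∀ f ∈ Fl, (o f, d f) ∈ Icc (-1 : ℤ) 1 ×ˢ range (dm + 1) := fun f hf' =>
    mem_product.2 ⟨mem_Icc.2 (abs_le.1 (ho f hf')), mem_range.2 (Nat.lt_succ_of_le (hdd f hf'))⟩
  obtain ⟨q, hq, hmax⟩ := exists_max_image (Icc (-1 : ℤ) 1 ×ˢ range (dm + 1))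
    (fun q => #{f ∈ Fl | (o f, d f) = q}) ⟨(0, 0), by simp⟩
  obtain ⟨hq1, hq2⟩ := mem_product.1 hq
  have hq3 : q.2 ≤ dm := Nat.lt_succ_iff.1 (mem_range.1 hq2)
  have hsub : {f ∈ Fl | (o f, d f) = q} ⊆ Fl := filter_subset _ _
  have hel : ∀ f ∈ {f ∈ Fl | (o f, d f) = q}, f ∈ Fl ∧ o f = q.1 ∧ d f = q.2 := fun f hf' => by
    obtain ⟨h2, h3⟩ := mem_filter.1 hf'
    exact ⟨h2, congrArg Prod.fst h3, congrArg Prod.snd h3⟩
  refine ⟨q.2, if q.2 = dm then 1 else A0, q.1, {f ∈ Fl | (o f, d f) = q}, b, hsub,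
    ⟨hl, hn, abs_le.2 (mem_Icc.1 hq1), (hd _ hq3).1, fun f hf' => ?_, fun f hf' => ?_,
      fun f hf' => ?_, fun p => ?_, fun p i => ?_, fun p i h' a' h2 h3 => ?_⟩, ?_, (hd _ hq3).2,
    ?_, fun f hf' => ?_⟩
  · exact ⟨(hf f (hsub hf')).1, (hf f (hsub hf')).2.1⟩
  · obtain ⟨h2, h3, h4⟩ := hel f hf'
    rw [← h3, ← h4]; exact hb f h2
  · have h2 := (hf f (hsub hf')).2.2
    obtain ⟨τ, hτ⟩ : {τ ∈ T | τ.1 = f.2.1 ∧ τ.2.1 / g.D ^ h = f.2.2}.Nonempty := by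
      rw [nonempty_iff_ne_empty]
      intro h3
      rw [garc, h3, sum_empty, ev_zero, norm_zero] at h2
      linarith
    obtain ⟨h3, h4, h5⟩ := mem_filter.1 hτ
    exact ⟨τ.2.1, (hS.idx τ h3).2.1, h5, h4 ▸ (hS.idx τ h3).2.2⟩
  · exact (card_le_card (image_subset_image (filter_subset_filter _ hsub))).trans (him p)
  · exact (card_le_card (filter_subset_filter _ hsub)).trans (hct p i)
  · refine le_trans ?_ (hns p i h' a' h2 h3)
    have := hg.D_ge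
    gcongr
  · rw [card_eq_sum_card_fiberwise hmaps]
    refine (sum_le_card_nsmul _ _ _ hmax).trans ?_
    rw [smul_eq_mul, card_product, card_range]
    refine Nat.mul_le_mul_right _ ?_
    simpa using hY3
  · split_ifs with h2
    · exact Or.inr ⟨rfl, h2 ▸ hdm⟩
    · exact Or.inl rfl
  · obtain ⟨h2, -, h4⟩ := hel f hf'
    rw [← h4]; exact hc f h2

end Pool.Agent.Lib.MP_108739_an.HA
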