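import Pool.Agent.Lib.MP_108739_an.DecC
import Pool.Agent.Lib.MP_108739_an.HA.Defs

namespace Pool.Agent.Lib.MP_108739_an.Dc

open Finset MeasureTheory Pointwise
open scoped Real ComplexConjugate

noncomputable section

/-- A character of the circle. -/
def e1 (m : ℤ) (x : ℝ) : ℂ := Complex.exp (2 * π * Complex.I * m * x)

lemma e1_add (m n : ℤ) (x : ℝ) : e1 (m + n) x = e1 m x * e1 n x := by
  rw [e1, e1, e1, ← Complex.exp_add]
  congr 1
  push_cast
  ring

lemma e1_conj (m : ℤ) (x : ℝ) : conj (e1 m x) = e1 (-m) x := by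
  rw [e1, e1, ← Complex.exp_conj]
  congr 1
  simp [Complex.conj_ofNat]

lemma e1_cont (m : ℤ) : Continuous (e1 m) := by
  unfold e1
  fun_prop

lemma e1_int (m : ℤ) : ∫ x in Set.Ioc (0 : ℝ) 1, e1 m x = if m = 0 then 1 else 0 := by
  rw [← intervalIntegral.integral_of_le zero_le_one]
  split_ifs with h
  · simp [e1, h]
  · have hc : (2 * π * Complex.I * m : ℂ) ≠ 0 :=
      mul_ne_zero Complex.two_pi_I_ne_zero (by exact_mod_cast h)
    simp only [e1]
    rw [integral_exp_mul_complex hc]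
    simp [mul_comm _ (m : ℂ), Complex.exp_int_mul_two_pi_mul_I]

/-- A character of the lattice. -/
def ch (z : ℝ × ℝ) : Multiplicative (ℤ × ℤ) →* ℂ where
  toFun k := e1 k.toAdd.1 z.1 * e1 k.toAdd.2 z.2
  map_one' := by simp [e1]
  map_mul' k l := by
    simp only [toAdd_mul, Prod.fst_add, Prod.snd_add, e1_add]
    ring

/-- Evaluation of an array. -/
def evz (z : ℝ × ℝ) : HA.Arr →+* ℂ := (AddMonoidAlgebra.lift ℂ ℂ (ℤ × ℤ) (ch z)).toRingHom

lemma evz_eq (z : ℝ × ℝ) (F : HA.Arr) :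
    evz z F = ∑ k ∈ F.coeff.support, F.coeff k * (e1 k.1 z.1 * e1 k.2 z.2) := rfl

/-- Lebesgue measure on the unit square. -/
def sqm : Measure (ℝ × ℝ) :=
  (volume.restrict (Set.Ioc (0 : ℝ) 1)).prod (volume.restrict (Set.Ioc (0 : ℝ) 1))

lemma sqm_int {E : Type} [NormedAddCommGroup E] {f : ℝ × ℝ → E} (hf : Continuous f) :
    Integrable f sqm := by
  rw [sqm, Measure.prod_restrict]
  exact (hf.continuousOn.integrableOn_compact (isCompact_Icc.prod isCompact_Icc)).mono_set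
    (Set.prod_mono Set.Ioc_subset_Icc_self Set.Ioc_subset_Icc_self)

lemma evz_cont (F : HA.Arr) : Continuous fun z => evz z F := by
  simp only [evz_eq]
  exact continuous_finsetSum _ fun k _ => continuous_const.mul
    (((e1_cont _).comp continuous_fst).mul ((e1_cont _).comp continuous_snd))

lemma parseval (F : HA.Arr) : ∫ z, ‖evz z F‖ ^ 2 ∂sqm = HA.nrm F := by
  have e : ∀ z, ((‖evz z F‖ ^ 2 : ℝ) : ℂ) = ∑ k ∈ F.coeff.support, ∑ l ∈ F.coeff.support,
      F.coeff k * conj (F.coeff l) * (e1 (k.1 - l.1) z.1 * e1 (k.2 - l.2) z.2) := fun z => by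
    rw [Complex.ofReal_pow, ← Complex.mul_conj', evz_eq, map_sum, sum_mul_sum]
    refine sum_congr rfl fun k _ => sum_congr rfl fun l _ => ?_
    simp only [map_mul, e1_conj, sub_eq_add_neg, e1_add]
    ring
  have c : ∀ k l : ℤ × ℤ, Continuous fun z : ℝ × ℝ =>
      F.coeff k * conj (F.coeff l) * (e1 (k.1 - l.1) z.1 * e1 (k.2 - l.2) z.2) := fun k l =>
    continuous_const.mul (((e1_cont _).comp continuous_fst).mul ((e1_cont _).comp continuous_snd))
  apply Complex.ofReal_injective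
  rw [← integral_complex_ofReal, HA.nrm, Complex.ofReal_sum]
  simp only [e]
  rw [integral_finsetSum _ fun k _ => sqm_int (continuous_finsetSum _ fun l _ => c k l)]
  refine sum_congr rfl fun k hk => ?_
  rw [integral_finsetSum _ fun l _ => sqm_int (c k l), sum_eq_single_of_mem k hk]
  · rw [integral_const_mul, sqm, integral_prod_mul, e1_int, e1_int]
    simp [Complex.mul_conj']
  · intro l _ hl
    rw [integral_const_mul, sqm, integral_prod_mul, e1_int, e1_int]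
    by_cases h1 : k.1 - l.1 = 0
    · rw [if_neg (c := k.2 - l.2 = 0) fun h2 => hl (Prod.ext (by omega) (by omega))]
      simp
    · simp [h1]

lemma nrm_eq (F : HA.Arr) {U : Finset (ℤ × ℤ)} (h : F.coeff.support ⊆ U) :
    HA.nrm F = ∑ k ∈ U, ‖F.coeff k‖ ^ 2 :=
  sum_subset h fun k _ hk => by simp [Finsupp.notMem_support_iff.1 hk]

lemma overlap (t : Finset ℕ) (H : ℕ → HA.Arr) (m : ℕ)
    (h : ∀ k, {i ∈ t | k ∈ (H i).coeff.support}.card ≤ m) :
    HA.nrm (∑ i ∈ t, H i) ≤ m * ∑ i ∈ t, HA.nrm (H i) := by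
  have h1 : (∑ i ∈ t, H i).coeff.support ⊆ t.biUnion fun i => (H i).coeff.support := by
    rw [AddMonoidAlgebra.coeff_sum]
    exact Finsupp.support_finsetSum
  rw [nrm_eq _ h1, sum_congr rfl fun i hi => nrm_eq (H i)
    (subset_biUnion_of_mem (fun i => (H i).coeff.support) hi), sum_comm, mul_sum]
  refine sum_le_sum fun k _ => ?_
  have e : (∑ i ∈ t, H i).coeff k = ∑ i ∈ t with k ∈ (H i).coeff.support, (H i).coeff k := by
    rw [AddMonoidAlgebra.coeff_sum, Finsupp.finsetSum_apply, sum_filter_of_ne]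
    exact fun i _ hi => Finsupp.mem_support_iff.2 hi
  rw [e]
  refine (pow_le_pow_left₀ (norm_nonneg _) (norm_sum_le _ _) 2).trans
    (sq_sum_le_card_mul_sum_sq.trans (mul_le_mul (by exact_mod_cast h k)
      (sum_le_sum_of_subset_of_nonneg (filter_subset _ _) fun _ _ _ => sq_nonneg _)
      (sum_nonneg fun _ _ => sq_nonneg _) (Nat.cast_nonneg _)))

/-- The frequency of a lattice point. -/
def fr (M : HA.Mo) (k : ℤ × ℤ) : ℝ × ℝ := (k.1 / M.L, k.2 / (M.L * M.Q))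

lemma fr_add (M : HA.Mo) (k l : ℤ × ℤ) : fr M (k + l) = fr M k + fr M l := by
  simp [fr, add_div]

lemma fr_inj (M : HA.Mo) : Function.Injective (fr M) := fun k l h => by
  have h1 := (div_left_inj' M.hL.ne').1 (congrArg Prod.fst h)
  have h2 := (div_left_inj' (mul_pos M.hL M.hQ).ne').1 (congrArg Prod.snd h)
  exact Prod.ext (by exact_mod_cast h1) (by exact_mod_cast h2)

/-- The lattice model as a system. -/
def sys (M : HA.Mo) : Sys HA.Arr where
  nrm := HA.nrm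
  sp F := fr M '' F.coeff.support
  Z := ℝ × ℝ
  ev := evz
  nrm_nonneg F := sum_nonneg fun _ _ => sq_nonneg _
  tr t F H c h := by
    have c1 : ∀ G : HA.Arr, Continuous fun z => ‖evz z G‖ ^ 2 := fun G => (evz_cont G).norm.pow 2
    have := integral_mono (sqm_int (c1 F))
      (sqm_int (continuous_finsetSum t fun j _ => continuous_const.mul (c1 (H j)))) h
    rw [integral_finsetSum _ fun j _ => sqm_int (continuous_const.mul (c1 (H j)))] at this
    simpa only [Pi.mul_apply, integral_const_mul, parseval] using this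
  sp_zero := by simp
  sp_add F G := by
    rw [← Set.image_union, ← coe_union]
    exact Set.image_mono (coe_subset.2 Finsupp.support_add)
  sp_mul F G := by
    rintro _ ⟨k, hk, rfl⟩
    obtain ⟨a, ha, b, hb, rfl⟩ := mem_add.1 (AddMonoidAlgebra.support_coeff_mul_subset F G hk)
    exact ⟨_, ⟨a, ha, rfl⟩, _, ⟨b, hb, rfl⟩, (fr_add M a b).symm⟩
  ov t H m h := overlap t H m fun k => h (fr M k) _ (filter_subset _ _) fun i hi =>
    ⟨k, (mem_filter.1 hi).2, rfl⟩

lemma Dec.ha {n : ℕ} {D : ℝ} (h : Dec n D) : HA.Dec n D := fun M a s F w hs h1 h2 =>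
  h _ (sys M) M.φ M.ψ ⟨M.cv.conv, M.cv.lo, M.cv.hi⟩ a s F w hs fun i hi =>
    ⟨(h2 i hi).1, by rintro _ ⟨k, hk, rfl⟩; exact h1 i hi k hk, (h2 i hi).2⟩

lemma ha_weighted {n : ℕ} {D : ℝ} (hD : HA.Dec n D) (hD0 : 0 ≤ D) (M : HA.Mo) {a s : ℝ}
    (hs : 0 < s) (F : ℕ → HA.Arr) (N : ℕ → ℝ) (hN : ∀ i < n, 0 < N i)
    (hF : ∀ i < n, HA.Cap M (F i) (a + i * s) s) :
    HA.nrm ((∑ i ∈ range n, F i) ^ 3) ≤
      D * ((∑ i ∈ range n, N i) ^ 2 * ∑ i ∈ range n, HA.nrm (F i ^ 3) / N i ^ 2) := by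
  have h1 : ∀ G, 0 ≤ HA.nrm G := (sys M).nrm_nonneg
  have e : ∀ i, (HA.nrm (F i ^ 3) ^ ((3 : ℕ) : ℝ)⁻¹) ^ 3 = HA.nrm (F i ^ 3) := fun i =>
    Real.rpow_inv_natCast_pow (h1 _) three_ne_zero
  have h0 : ∀ i, 0 ≤ HA.nrm (F i ^ 3) ^ ((3 : ℕ) : ℝ)⁻¹ := fun i => Real.rpow_nonneg (h1 _) _
  refine (hD M a s F (fun i => HA.nrm (F i ^ 3) ^ ((3 : ℕ) : ℝ)⁻¹) hs hF
    fun i _ => ⟨h0 i, (e i).ge⟩).trans (mul_le_mul_of_nonneg_left ?_ hD0)
  simpa only [e] using cube_weight (t := range n)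
    (w := fun i => HA.nrm (F i ^ 3) ^ ((3 : ℕ) : ℝ)⁻¹) (fun i _ => h0 i)
    fun i hi => hN i (mem_range.1 hi)

end

end Pool.Agent.Lib.MP_108739_an.Dc

namespace Pool.Agent.Lib.MP_108739_an.HA

theorem dec : DecStmt := fun _ h =>
  let ⟨C, h1, h2⟩ := Dc.dec_main h
  ⟨C, h1, fun n hn => (h2 n hn).ha⟩

end Pool.Agent.Lib.MP_108739_an.HA
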