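import Pool.Agent.Lib.MP_108739_an.HA.Sieve

/-! Discretisation of the extension integral by a lattice array. -/

namespace Pool.Agent.Lib.MP_108739_an.HA

open Finset MeasureTheory
open scoped Real

noncomputable section

namespace Dc

theorem ex_norm (x : ℝ) : ‖ex x‖ = 1 := by
  have : (2 * π * Complex.I * x : ℂ) = ((2 * π * x : ℝ) : ℂ) * Complex.I := by push_cast; ring
  rw [ex, this, Complex.norm_exp_ofReal_mul_I]

theorem ex_sub (x y : ℝ) : ‖ex x - ex y‖ ≤ 2 * π * |x - y| := by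
  have e : ex x - ex y = ex y * (ex (x - y) - 1) := by
    rw [mul_sub, ← Sv.ex_add]; simp
  have : (2 * π * Complex.I * (x - y : ℝ) : ℂ) = Complex.I * ((2 * π * (x - y) : ℝ) : ℂ) := by
    push_cast; ring
  rw [e, norm_mul, ex_norm, one_mul, ex, this]
  refine (Real.norm_exp_I_mul_ofReal_sub_one_le).trans (le_of_eq ?_)
  rw [Real.norm_eq_abs, abs_mul, abs_of_pos (by positivity : 0 < 2 * π)]

theorem ex_cont : Continuous ex := by unfold ex; fun_prop

theorem psi_le {φ ψ : ℝ → ℝ} (h : Curve φ ψ) {x : ℝ} (hx : |x| ≤ 1) : |ψ x| ≤ 3 := by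
  have h0 := abs_le.1 h.z2
  have h1 := abs_le.1 hx
  rw [abs_le]
  rcases le_total x 0 with h2 | h2
  · have := h.lo x 0 h2; have := h.hi x 0 h2
    constructor <;> linarith
  · have := h.lo 0 x h2; have := h.hi 0 x h2
    constructor <;> linarith

theorem phi_lip {φ ψ : ℝ → ℝ} (h : Curve φ ψ) {x y : ℝ} (hx : |x| ≤ 1) (hy : |y| ≤ 1) :
    |φ x - φ y| ≤ 3 * |x - y| := by
  have h1 := h.conv x y
  have h2 := h.conv y x
  have h3 : |ψ x * (y - x)| ≤ 3 * |x - y| := by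
    rw [abs_mul, abs_sub_comm y x]; have := psi_le h hx; gcongr
  have h4 : |ψ y * (x - y)| ≤ 3 * |x - y| := by
    rw [abs_mul]; have := psi_le h hy; gcongr
  rw [abs_le] at *
  constructor <;> linarith [h3.1, h4.1]

theorem phi_cont {φ ψ : ℝ → ℝ} (h : Curve φ ψ) : ContinuousOn φ (Set.Icc (-1) 1) := by
  have : LipschitzOnWith 3 φ (Set.Icc (-1) 1) :=
    LipschitzOnWith.of_dist_le_mul fun x hx y hy => by
      simpa [Real.dist_eq] using phi_lip h (abs_le.2 hx) (abs_le.2 hy)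
  exact this.continuousOn

theorem csq {u : ℝ → ℝ} (hu : Continuous u) {x y : ℝ} (hxy : x ≤ y) :
    (∫ ξ in x..y, u ξ) ^ 2 ≤ (y - x) * ∫ ξ in x..y, u ξ ^ 2 := by
  rcases hxy.eq_or_lt with rfl | hlt
  · simp
  have hd : 0 < y - x := by linarith
  set t := (∫ ξ in x..y, u ξ) / (y - x) with ht
  have h0 : 0 ≤ ∫ ξ in x..y, (u ξ - t) ^ 2 :=
    intervalIntegral.integral_nonneg hxy fun _ _ => sq_nonneg _
  have e : ∀ ξ, (u ξ - t) ^ 2 = u ξ ^ 2 - 2 * t * u ξ + t ^ 2 := fun _ => by ring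
  simp only [e] at h0
  rw [intervalIntegral.integral_add, intervalIntegral.integral_sub,
    intervalIntegral.integral_const_mul, intervalIntegral.integral_const] at h0
  · have h1 : (∫ ξ in x..y, u ξ) = t * (y - x) := by rw [ht]; field_simp
    rw [h1] at h0 ⊢
    simp only [smul_eq_mul] at h0
    nlinarith
  all_goals exact Continuous.intervalIntegrable (by fun_prop) _ _

/-- The array with column `m` equal to `c m` times `A` shifted to height `n m`. -/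
theorem arr (M : Mo) (I : Finset ℤ) (c : ℤ → ℂ) (n : ℤ → ℤ) (A : Arr1) : ∃ F : Arr,
    (∀ k ∈ F.coeff.support, k.1 ∈ I ∧ k.2 - n k.1 ∈ A.coeff.support) ∧
    nrm F = (∑ m ∈ I, ‖c m‖ ^ 2) * nrm1 A ∧
    ∀ z, ev M F z = (∑ m ∈ I, c m * ex (z.1 * (m / M.L) + z.2 * (n m / (M.L * M.Q)))) *
      ev1 (M.L * M.Q) A z.2 := by
  classical
  let e : ℤ × ℤ → ℤ × ℤ := fun q => (q.1, n q.1 + q.2)
  have he : Function.Injective e := by
    rintro ⟨a, b⟩ ⟨a', b'⟩ h
    simp only [e, Prod.mk.injEq] at h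
    obtain ⟨rfl, h⟩ := h
    simpa using h
  let S := (I ×ˢ A.coeff.support).image e
  let f : ℤ × ℤ → ℂ := fun k => if k.1 ∈ I then c k.1 * A.coeff (k.2 - n k.1) else 0
  have hf : ∀ k, f k ≠ 0 → k.1 ∈ I ∧ k.2 - n k.1 ∈ A.coeff.support := by
    intro k hk
    by_cases h : k.1 ∈ I
    · simp only [f, if_pos h] at hk
      exact ⟨h, Finsupp.mem_support_iff.2 (right_ne_zero_of_mul hk)⟩
    · simp [f, h] at hk
  have hS : ∀ k, f k ≠ 0 → k ∈ S := fun k hk =>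
    mem_image.2 ⟨(k.1, k.2 - n k.1), mem_product.2 (hf k hk), by simp [e]⟩
  have key : ∀ {β : Type} [AddCommMonoid β] (G : ℤ × ℤ → ℂ → β), (∀ k, G k 0 = 0) →
      ∑ k ∈ (Finsupp.onFinset S f hS).support, G k (Finsupp.onFinset S f hS k) =
        ∑ m ∈ I, ∑ s ∈ A.coeff.support, G (m, n m + s) (c m * A.coeff s) := by
    intro β _ G hG
    rw [sum_subset (Finsupp.support_onFinset_subset (hf := hS)) (fun k _ hk => by
      rw [Finsupp.notMem_support_iff.1 hk, hG]), sum_image he.injOn, sum_product]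
    refine sum_congr rfl fun m hm => sum_congr rfl fun s _ => ?_
    simp [e, f, hm]
  refine ⟨.ofCoeff (Finsupp.onFinset S f hS), fun k hk => hf k ?_, ?_, fun z => ?_⟩
  · simpa using hk
  · have := key (fun _ v => ‖v‖ ^ 2) (by simp)
    rw [nrm, nrm1, sum_mul_sum]
    simpa [mul_pow] using this
  · have := key (fun k v => v * ex (z.1 * (k.1 / M.L) + z.2 * (k.2 / (M.L * M.Q)))) (by simp)
    rw [ev, ev1, sum_mul_sum]
    refine this.trans (sum_congr rfl fun m _ => sum_congr rfl fun s _ => ?_)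
    rw [mul_mul_mul_comm, ← Sv.ex_add]
    congr 2; push_cast; ring

/-- Cells of length `1 / L` covering `[a, b]`. -/
theorem cells (L a b : ℝ) (hL : 0 < L) (hab : a ≤ b) : ∃ (m0 : ℤ) (J : ℕ) (x : ℕ → ℝ),
    x 0 = a ∧ x J = b ∧ (∀ j, a ≤ x j ∧ x j ≤ b) ∧ (∀ j, x j ≤ x (j + 1)) ∧
    ∀ j < J, a - 1 / L ≤ (m0 + j) / L ∧ (m0 + j) / L ≤ b ∧ (m0 + j) / L ≤ x j ∧
      x (j + 1) ≤ (m0 + j) / L + 1 / L := by
  have h1 : ⌊a * L⌋ ≤ ⌊b * L⌋ := Int.floor_mono (by gcongr)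
  obtain ⟨J, hJ⟩ : ∃ J : ℕ, (J : ℤ) = ⌊b * L⌋ - ⌊a * L⌋ + 1 :=
    ⟨_, Int.toNat_of_nonneg (by omega)⟩
  have a1 : (⌊a * L⌋ : ℝ) / L ≤ a := by rw [div_le_iff₀ hL]; exact Int.floor_le _
  have a2 : a ≤ (⌊a * L⌋ + 1) / L := by rw [le_div_iff₀ hL]; exact (Int.lt_floor_add_one _).le
  have b1 : (⌊b * L⌋ : ℝ) / L ≤ b := by rw [div_le_iff₀ hL]; exact Int.floor_le _
  have b2 : b ≤ (⌊b * L⌋ + 1) / L := by rw [le_div_iff₀ hL]; exact (Int.lt_floor_add_one _).le
  have hJ' : (J : ℝ) = ⌊b * L⌋ - ⌊a * L⌋ + 1 := by exact_mod_cast hJ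
  refine ⟨⌊a * L⌋, J, fun j => max a (min b ((⌊a * L⌋ + j) / L)), ?_, ?_, ?_, ?_, ?_⟩
  · simp only [Nat.cast_zero, add_zero]
    exact max_eq_left ((min_le_right _ _).trans a1)
  · simp only [hJ']
    rw [min_eq_left (b2.trans (le_of_eq (by ring))), max_eq_right hab]
  · exact fun j => ⟨le_max_left _ _, max_le hab (min_le_left _ _)⟩
  · intro j
    refine max_le_max le_rfl (min_le_min le_rfl ?_)
    push_cast; gcongr; linarith
  · intro j hj
    have hj0 : (0 : ℝ) ≤ j / L := by positivity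
    have hj1 : (j : ℝ) + 1 ≤ J := by exact_mod_cast hj
    have c1 : ((⌊a * L⌋ : ℝ) + j) / L ≤ b := le_trans (by gcongr; linarith) b1
    rw [add_div] at a2
    refine ⟨by rw [add_div]; linarith, c1, ?_, ?_⟩
    · exact le_max_of_le_right (le_min c1 le_rfl)
    · refine max_le (by rw [add_div]; linarith) ((min_le_right _ _).trans (le_of_eq ?_))
      push_cast; ring

end Dc

open Dc in
theorem disc (hD : DirStmt) : DiscStmt := by
  classical
  intro M a b R g z0 ha hab hb hR hL hQ hg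
  have hL0 := M.hL
  have hP : M.L ≤ M.L * M.Q := le_mul_of_one_le_right hL0.le hQ
  have hP0 : 0 < M.L * M.Q := by linarith
  have hR0 : 0 < R := by linarith
  obtain ⟨A, hA1, hA2, -, hA3⟩ := (hD (M.L * M.Q) R hR0 (by linarith)).1 0
  obtain ⟨m0, J, x, x0, xJ, xm, xs, xc⟩ := cells M.L a b hL0 hab
  let n : ℤ → ℤ := fun m => round (M.L * M.Q * M.φ (m / M.L))
  have hn : ∀ m, |(n m : ℝ) / (M.L * M.Q) - M.φ (m / M.L)| ≤ 1 / (2 * (M.L * M.Q)) := by
    intro m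
    have := abs_sub_round (M.L * M.Q * M.φ (m / M.L))
    have e : (n m : ℝ) / (M.L * M.Q) - M.φ (m / M.L) =
        -(M.L * M.Q * M.φ (m / M.L) - n m) / (M.L * M.Q) := by
      have := M.hQ.ne'
      field_simp; ring
    rw [e, abs_div, abs_neg, abs_of_pos hP0, div_le_div_iff₀ hP0 (by positivity)]
    nlinarith
  let h : ℝ → ℂ := fun ξ => g ξ * ex (z0.1 * ξ + z0.2 * M.φ ξ)
  have hh : ∀ ξ, ‖h ξ‖ = ‖g ξ‖ := fun ξ => by simp [h, ex_norm]
  have hsub : ∀ j, Set.uIcc (x j) (x (j + 1)) ⊆ Set.Icc (-1) 1 := fun j => by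
    rw [Set.uIcc_of_le (xs j)]
    exact Set.Icc_subset_Icc (by linarith [(xm j).1]) (by linarith [(xm (j + 1)).2])
  have hE : ∀ p : ℝ × ℝ, ContinuousOn (fun ξ => ex (p.1 * ξ + p.2 * M.φ ξ)) (Set.Icc (-1) 1) :=
    fun p => ex_cont.comp_continuousOn
      ((continuousOn_const.mul continuousOn_id).add (continuousOn_const.mul (phi_cont M.cv)))
  have hhc : ContinuousOn h (Set.Icc (-1) 1) := hg.continuousOn.mul (hE z0)
  let c : ℤ → ℂ := fun m => ∫ ξ in x (m - m0).toNat..x ((m - m0).toNat + 1), h ξ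
  let I : Finset ℤ := (range J).image fun j : ℕ => m0 + j
  have hI : ∀ {β : Type} [AddCommMonoid β] (G : ℤ → β), ∑ m ∈ I, G m = ∑ j ∈ range J, G (m0 + j) :=
    fun G => sum_image fun i _ j _ e => by simpa using e
  have hc : ∀ j : ℕ, c (m0 + j) = ∫ ξ in x j..x (j + 1), h ξ := fun j => by simp [c]
  have hsum : ∀ u : ℝ → ℝ, Continuous u →
      ∑ j ∈ range J, ∫ ξ in x j..x (j + 1), u ξ = ∫ ξ in a..b, u ξ := fun u hu => by
    rw [intervalIntegral.sum_integral_adjacent_intervals fun k _ => hu.intervalIntegrable _ _,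
      x0, xJ]
  obtain ⟨F, F1, F2, F3⟩ := arr M I c n A
  have hN : 0 ≤ ∫ ξ in a..b, ‖g ξ‖ ^ 2 :=
    intervalIntegral.integral_nonneg hab fun _ _ => sq_nonneg _
  refine ⟨F, fun k hk => ?_, ?_, fun z hz => ?_⟩
  · obtain ⟨h1, h2⟩ := F1 k hk
    obtain ⟨j, hj, e⟩ := mem_image.1 h1
    have h3 := xc j (mem_range.1 hj)
    have e' : (k.1 : ℝ) = m0 + j := by rw [← e]; push_cast; rfl
    refine ⟨by rw [e']; exact h3.1, by rw [e']; exact h3.2.1, ?_⟩
    have h4 := hA1 _ h2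
    have h5 := hn k.1
    have e2 : (k.2 : ℝ) / (M.L * M.Q) - M.φ (k.1 / M.L) = ((k.2 - n k.1 : ℤ) : ℝ) / (M.L * M.Q) +
        ((n k.1 : ℝ) / (M.L * M.Q) - M.φ (k.1 / M.L)) := by push_cast; ring
    have h6 : 1 / (2 * (M.L * M.Q)) ≤ 1 / (2 * R) := by gcongr; linarith
    have h7 : 1 / (10 * R) ≤ 1 / (2 * R) := by gcongr; norm_num
    have h8 : 1 / (2 * R) + 1 / (2 * R) = 1 / R := by field_simp; ring
    rw [e2]
    linarith [abs_add_le (((k.2 - n k.1 : ℤ) : ℝ) / (M.L * M.Q))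
      ((n k.1 : ℝ) / (M.L * M.Q) - M.φ (k.1 / M.L))]
  · have h1 : ∑ m ∈ I, ‖c m‖ ^ 2 ≤ 1 / M.L * ∫ ξ in a..b, ‖g ξ‖ ^ 2 := by
      rw [hI, ← hsum _ (by fun_prop), mul_sum]
      refine sum_le_sum fun j hj => ?_
      have h2 : ‖c (m0 + j)‖ ≤ ∫ ξ in x j..x (j + 1), ‖g ξ‖ := by
        rw [hc]
        simpa only [hh] using intervalIntegral.norm_integral_le_integral_norm (f := h) (xs j)
      have h3 := csq (u := fun ξ => ‖g ξ‖) hg.norm (xs j)
      have h4 := xc j (mem_range.1 hj)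
      have h5 : 0 ≤ ∫ ξ in x j..x (j + 1), ‖g ξ‖ ^ 2 :=
        intervalIntegral.integral_nonneg (xs j) fun _ _ => sq_nonneg _
      calc _ ≤ (∫ ξ in x j..x (j + 1), ‖g ξ‖) ^ 2 := by gcongr
        _ ≤ _ := h3
        _ ≤ _ := by gcongr; linarith [h4.2.2.1, h4.2.2.2]
    have h2 : 0 ≤ nrm1 A := by unfold nrm1; positivity
    have := M.hQ
    rw [en, F2]
    calc _ ≤ M.L ^ 2 * M.Q / R * ((1 / M.L * ∫ ξ in a..b, ‖g ξ‖ ^ 2) * (20 * R / (M.L * M.Q))) := by
          gcongr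
      _ = _ := by field_simp
  · obtain ⟨z1, z2, z3, z4⟩ := hz
    set F0 := ∑ m ∈ I, c m * ex (z.1 * (m / M.L) + z.2 * (n m / (M.L * M.Q))) with hF0
    have h1 : ‖F0‖ ≤ 2 * ‖ev M F z‖ := by
      have := hA3 z.2 (by rw [sub_zero, abs_of_nonneg z3]; exact z4.le)
      rw [F3, norm_mul]
      nlinarith [norm_nonneg F0]
    have i1 : ∀ k, IntervalIntegrable (fun ξ => h ξ * ex (z.1 * ξ + z.2 * M.φ ξ)) volume
        (x k) (x (k + 1)) := fun k => ((hhc.mul (hE z)).mono (hsub k)).intervalIntegrable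
    have i2 : ∀ k (w : ℂ), IntervalIntegrable (fun ξ => h ξ * w) volume (x k) (x (k + 1)) :=
      fun k w => ((hhc.mul continuousOn_const).mono (hsub k)).intervalIntegrable
    have e1 : Ext M.φ a b g (z0 + z) =
        ∑ j ∈ range J, ∫ ξ in x j..x (j + 1), h ξ * ex (z.1 * ξ + z.2 * M.φ ξ) := by
      rw [intervalIntegral.sum_integral_adjacent_intervals fun k _ => i1 k, x0, xJ, Ext]
      congr 1; ext ξ
      simp only [h, mul_assoc, ← Sv.ex_add, Prod.fst_add, Prod.snd_add]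
      congr 2; ring
    have h2 : ‖Ext M.φ a b g (z0 + z) - F0‖ ≤ 40 * R / M.L * ∫ ξ in a..b, ‖g ξ‖ := by
      rw [e1, hF0, hI, ← sum_sub_distrib, ← hsum _ hg.norm, mul_sum]
      refine (norm_sum_le _ _).trans (sum_le_sum fun j hj => ?_)
      have h4 := xc j (mem_range.1 hj)
      rw [hc, ← intervalIntegral.integral_mul_const, ← intervalIntegral.integral_sub (i1 j) (i2 j _),
        ← intervalIntegral.integral_const_mul]
      refine intervalIntegral.norm_integral_le_of_norm_le (xs j) (ae_of_all _ fun ξ hξ => ?_)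
        (Continuous.intervalIntegrable (by fun_prop) _ _)
      rw [← mul_sub, norm_mul, hh, mul_comm]
      refine mul_le_mul_of_nonneg_right ((ex_sub _ _).trans ?_) (norm_nonneg _)
      have e' : (((m0 + j : ℤ)) : ℝ) = m0 + j := by push_cast; rfl
      have h5 := hn (m0 + j)
      rw [e'] at h5 ⊢
      set y := ((m0 : ℝ) + j) / M.L
      have hLi : 1 / M.L ≤ 1 := by rw [div_le_one hL0]; linarith
      have h6 : |ξ - y| ≤ 1 / M.L := by
        rw [abs_le]; constructor <;> linarith [hξ.1, hξ.2, h4.2.2.1, h4.2.2.2, one_div_pos.2 hL0]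
      have h7 := phi_lip M.cv (x := ξ) (y := y)
        (abs_le.2 ⟨by linarith [hξ.1, (xm j).1], by linarith [hξ.2, (xm (j + 1)).2]⟩)
        (abs_le.2 ⟨by linarith [h4.1], by linarith [h4.2.1]⟩)
      have h8 : 1 / (2 * (M.L * M.Q)) ≤ 1 / M.L := by gcongr; linarith
      have h9 : |M.φ ξ - n (m0 + j) / (M.L * M.Q)| ≤ 4 * (1 / M.L) := by
        rw [abs_le] at h5 h7 ⊢
        constructor <;> linarith [h5.1, h5.2, h7.1, h7.2]
      have e2 : z.1 * ξ + z.2 * M.φ ξ - (z.1 * y + z.2 * (n (m0 + j) / (M.L * M.Q))) =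
          z.1 * (ξ - y) + z.2 * (M.φ ξ - n (m0 + j) / (M.L * M.Q)) := by ring
      have h10 : |z.1 * (ξ - y) + z.2 * (M.φ ξ - n (m0 + j) / (M.L * M.Q))| ≤
          R * (1 / M.L) + R * (4 * (1 / M.L)) := by
        refine (abs_add_le _ _).trans ?_
        rw [abs_mul, abs_mul, abs_of_nonneg z1, abs_of_nonneg z3]
        gcongr
      rw [e2]
      calc _ ≤ 2 * 4 * (R * (1 / M.L) + R * (4 * (1 / M.L))) := by
            gcongr; exact Real.pi_le_four
        _ = _ := by ring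
    have h3 : ∫ ξ in a..b, ‖g ξ‖ ≤ √(∫ ξ in a..b, ‖g ξ‖ ^ 2) := by
      apply Real.le_sqrt_of_sq_le
      refine (csq (u := fun ξ => ‖g ξ‖) hg.norm hab).trans ?_
      exact mul_le_of_le_one_left hN (by linarith)
    calc _ ≤ ‖F0‖ + ‖Ext M.φ a b g (z0 + z) - F0‖ := norm_le_norm_add_norm_sub' _ _
      _ ≤ _ := by
        have : 40 * R / M.L * ∫ ξ in a..b, ‖g ξ‖ ≤ 40 * R / M.L * √(∫ ξ in a..b, ‖g ξ‖ ^ 2) := by
          gcongr
        linarith

end

end Pool.Agent.Lib.MP_108739_an.HA
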