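import Pool.Agent.Lib.MP_108739_an.HA.FF1

/-! The weighted, grouped form of the incidence theorem follows from the discrete form. -/

namespace Pool.Agent.Lib.MP_108739_an.HA

open Finset

noncomputable section

namespace FFx

lemma pw {δ N s : ℝ} (d0 : 0 < δ) (N0 : 0 < N) (N2 : N * δ ≤ 64) (hs : 0 ≤ s) :
    (64 : ℝ) ^ (-s) * δ ^ s ≤ N ^ (-s) := by
  have h1 : (N * δ) ^ s ≤ (64 : ℝ) ^ s := Real.rpow_le_rpow (by positivity) N2 hs
  rw [Real.mul_rpow N0.le d0.le] at h1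
  rw [Real.rpow_neg (by norm_num), Real.rpow_neg N0.le, inv_mul_le_iff₀ (by positivity),
    le_mul_inv_iff₀ (by positivity)]
  linarith

lemma num {c e C0 δ κ N t γ n : ℝ} (hc : 0 < c) (he : 0 < e) (d0 : 0 < δ) (k0 : 0 < κ)
    (k1 : κ ≤ 1) (N0 : 0 < N) (N2 : N * δ ≤ 64) (t0 : 0 ≤ t) (t1 : t ≤ 3 / 2) (hγ : 1 ≤ γ)
    (hn : 0 < n) :
    c * (64 : ℝ) ^ (-e) * (64 : ℝ) ^ (-C0) / (64 * 8) * δ ^ e * κ ^ (C0 + 1) * δ ^ (t / 2) *
        n ^ (3 / 2 : ℝ) / √γ ≤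
      c * N ^ (-e) * (κ / 64) ^ C0 * N ^ (-t / 2) * n ^ (3 / 2 : ℝ) / √(53 * γ / κ) := by
  have g0 : 0 < γ := by linarith
  have h1 := pw d0 N0 N2 he.le
  have h2 : δ ^ (t / 2) / 64 ≤ N ^ (-t / 2) := by
    have a := pw d0 N0 N2 (s := t / 2) (by linarith)
    have b : (64 : ℝ) ^ (-1 : ℝ) ≤ (64 : ℝ) ^ (-(t / 2)) :=
      Real.rpow_le_rpow_of_exponent_le (by norm_num) (by linarith)
    rw [Real.rpow_neg_one] at b
    have d : 0 < δ ^ (t / 2) := by positivity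
    have := mul_le_mul_of_nonneg_right b d.le
    rw [neg_div]
    linarith
  have h3 : (κ / 64) ^ C0 = (64 : ℝ) ^ (-C0) * κ ^ C0 := by
    rw [Real.div_rpow k0.le (by norm_num), Real.rpow_neg (by norm_num)]; ring
  have h4 : κ / (8 * √γ) ≤ 1 / √(53 * γ / κ) := by
    have a : √(53 * γ / κ) ≤ 8 * √γ / κ := by
      rw [Real.sqrt_le_left (by positivity), div_pow, mul_pow, Real.sq_sqrt g0.le,
        div_le_div_iff₀ k0 (by positivity)]
      have := mul_pos g0 k0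
      nlinarith
    rw [div_le_div_iff₀ (by positivity) (by positivity)]
    rw [le_div_iff₀ k0] at a
    linarith
  calc _ = c * ((64 : ℝ) ^ (-e) * δ ^ e) * ((64 : ℝ) ^ (-C0) * κ ^ C0) * (δ ^ (t / 2) / 64) *
        n ^ (3 / 2 : ℝ) * (κ / (8 * √γ)) := by
        rw [Real.rpow_add_one k0.ne']; ring
    _ ≤ c * N ^ (-e) * ((64 : ℝ) ^ (-C0) * κ ^ C0) * N ^ (-t / 2) * n ^ (3 / 2 : ℝ) *
        (1 / √(53 * γ / κ)) := by gcongr
    _ = _ := by rw [h3]; ring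

lemma cap_bd {δ N r t : ℝ} (j : ℕ) (d0 : 0 < δ) (N0 : 0 < N) (N1 : 32 ≤ N * δ) (r0 : 0 ≤ r)
    (hr : r ≤ 64 * 2 ^ j / N) (t0 : 0 ≤ t) (t1 : t ≤ 3 / 2) :
    (r / δ) ^ t ≤ 8 * (⌊((2 : ℝ) ^ j) ^ t⌋₊ : ℝ) := by
  have hj : (1 : ℝ) ≤ 2 ^ j := one_le_pow₀ (by norm_num)
  have h1 : r / δ ≤ 2 * 2 ^ j := by
    rw [le_div_iff₀ N0] at hr
    rw [div_le_iff₀ d0]
    have a := mul_le_mul_of_nonneg_right hr d0.le
    have b := mul_le_mul_of_nonneg_left N1 r0
    nlinarith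
  have h2 : (r / δ) ^ t ≤ (2 * 2 ^ j : ℝ) ^ t := Real.rpow_le_rpow (by positivity) h1 t0
  rw [Real.mul_rpow (by norm_num) (by positivity)] at h2
  have h3 : (2 : ℝ) ^ t ≤ (2 : ℝ) ^ (2 : ℝ) :=
    Real.rpow_le_rpow_of_exponent_le (by norm_num) (by linarith)
  have h4 : (2 : ℝ) ^ (2 : ℝ) = 4 := by norm_num
  have h5 : 1 ≤ ((2 : ℝ) ^ j) ^ t := Real.one_le_rpow hj t0
  have h6 := Nat.lt_floor_add_one (((2 : ℝ) ^ j) ^ t)
  have h7 : (1 : ℝ) ≤ (⌊((2 : ℝ) ^ j) ^ t⌋₊ : ℝ) := by exact_mod_cast Nat.le_floor (by simpa using h5)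
  nlinarith

end FFx

open FFx

open Classical in
theorem ff (hF : FStmt) (hFl : FlowStmt) : FFStmt := by
  obtain ⟨C0, hC0, hF⟩ := hF
  refine ⟨C0 + 1, by linarith, fun e e2 he he2 => ?_⟩
  obtain ⟨c, hc, hFc⟩ := hF e (min e2 (1 / 200)) he (lt_min he2 (by norm_num))
  refine ⟨min (c * (64 : ℝ) ^ (-e) * (64 : ℝ) ^ (-C0) / (64 * 8) / (16 * 9)) 1,
    lt_min (by positivity) one_pos, min_le_right _ _, ?_⟩
  intro Y G α T S pos gr z0 sp Φ pt ar dr 𝒯 tg td off ℓ δ κ t Θ γ β Λ A n hl hd hdk hk ht0 ht hΘ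
    hγ hβ hΛ hn hA hsq hcnt hinj hpt hs6 hsep harc hAr hnn hw hΦ htube
  have k0 : 0 < κ := hd.trans_le hdk
  have d1 : δ ≤ 1 := hdk.trans hk
  have L0 : 0 < Λ := by linarith
  rcases S.eq_empty_or_nonempty with rfl | ⟨y0, hy0⟩
  · simp only [card_empty, Nat.cast_zero, zero_div, mul_zero, zero_mul]; positivity
  have hΘ1 : 1 ≤ Θ := by
    have h1 := hcnt (gr y0) (pos y0) δ le_rfl d1
    rw [div_self hd.ne', Real.one_rpow, mul_one] at h1
    refine le_trans ?_ h1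
    have h2 := mul_pos hd hl
    have h3 : InSq (pos y0) (δ * ℓ) (pos y0) := ⟨le_rfl, by linarith, le_rfl, by linarith⟩
    exact Nat.one_le_cast.2 (card_pos.2 ⟨y0, mem_filter.2 ⟨hy0, rfl, h3⟩⟩)
  have hde : 1 ≤ δ ^ (-e2) := Real.one_le_rpow_of_pos_of_le_one_of_nonpos hd d1 (by linarith)
  have A0 : 0 < A := by
    by_contra h
    have := mul_le_mul_of_nonneg_left (not_lt.1 h) hβ.le
    linarith
  obtain ⟨ν, N1, N2⟩ := exists_nu hd d1
  have N0 : (0 : ℝ) < 2 ^ ν := by positivity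
  set Fy : Y → Finset α := fun y => {f ∈ Φ | pt f = y} with hFy
  have mF : ∀ {y f}, f ∈ Fy y ↔ f ∈ Φ ∧ pt f = y := fun {y f} => mem_filter
  have hPt : ∀ y, Pt (Fy y) ar dr sp δ κ (2 ^ ν) (min t (2 - t)) γ n := by
    intro y
    refine ⟨hd, hdk, hk, N0, N1, N2, by linarith, hn.le, ?_, fun f hf => hs6 f (mF.1 hf).1,
      fun f hf f' hf' => hsep f (mF.1 hf).1 f' (mF.1 hf').1, fun f hf => harc f (mF.1 hf).1,
      ?_, ?_⟩
    · intro f hf f' hf' e1 e2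
      refine hinj (mF.1 hf).1 (mF.1 hf').1 ?_
      simp only [e1, e2, (mF.1 hf).2, (mF.1 hf').2]
    · intro i
      refine le_trans (Nat.cast_le.2 (card_le_card ?_)) (hnn y i)
      intro f hf
      obtain ⟨a1, a2⟩ := mem_filter.1 hf
      exact mem_filter.2 ⟨(mF.1 a1).1, (mF.1 a1).2, a2⟩
    · intro i l0 r hr
      refine le_trans (Nat.cast_le.2 (card_le_card ?_)) (hw y i l0 r hr)
      intro f hf
      obtain ⟨a1, a2⟩ := mem_filter.1 hf
      exact mem_filter.2 ⟨(mF.1 a1).1, (mF.1 a1).2, a2⟩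
  have hup : ∀ y, (#(Fy y) : ℝ) ≤ n * A := by
    intro y
    refine (cover (Fy y) ((Fy y).image ar) (fun i f => ar f = i) n
      (fun f hf => ⟨_, mem_image_of_mem _ hf, rfl⟩) (fun i _ => (hPt y).cn i)).trans ?_
    exact mul_le_mul_of_nonneg_left (hAr y) hn.le
  set Y' : Finset Y := {y ∈ S | β * A * n / 2 ≤ (#(Fy y) : ℝ)} with hY'
  have hM : β * #S / 2 ≤ (#Y' : ℝ) := by
    have h1 : (#Φ : ℝ) = ∑ y ∈ S, (#(Fy y) : ℝ) := by
      exact_mod_cast card_eq_sum_card_fiberwise (f := pt) (s := Φ) (t := S) hpt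
    have h2 : ∑ y ∈ S, (#(Fy y) : ℝ) ≤
        ∑ y ∈ S, ((if β * A * n / 2 ≤ (#(Fy y) : ℝ) then n * A else 0) + β * A * n / 2) := by
      refine sum_le_sum fun y _ => ?_
      have := hup y
      have : 0 < β * A * n / 2 := by positivity
      split_ifs with h <;> linarith
    rw [sum_add_distrib, ← sum_filter, sum_const, sum_const, nsmul_eq_mul, nsmul_eq_mul,
      ← hY'] at h2
    exact le_of_mul_le_mul_right (by linarith) (mul_pos hn A0)
  set pj : ℕ → Y → G × ℕ × ℕ := fun j y => (gr y, (qq (2 ^ ν) ℓ (z0 (gr y)) (pos y)).1 / 2 ^ j,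
    (qq (2 ^ ν) ℓ (z0 (gr y)) (pos y)).2 / 2 ^ j) with hpj
  obtain ⟨S', hS', hS1, hS2⟩ := hFl Y' pj ν (fun j => ⌊((2 : ℝ) ^ j) ^ t⌋₊) (8 * Θ) (by linarith)
    (by
      intro j y y' h
      simp only [hpj, Prod.mk.injEq] at h ⊢
      simp only [pow_succ, ← Nat.div_div_eq_div_mul]
      exact ⟨h.1, by rw [h.2.1], by rw [h.2.2]⟩)
    (by
      rintro j - ⟨g, u, v⟩
      have key : ∃ z r, δ ≤ r ∧ r ≤ 1 ∧ r ≤ 64 * 2 ^ j / 2 ^ ν ∧
          ∀ y ∈ S, pj j y = (g, u, v) → InSq z (r * ℓ) (pos y) := by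
        by_cases h : (64 : ℝ) * 2 ^ j / 2 ^ ν ≤ 1
        · obtain ⟨z', hz'⟩ := cell_sq N0 hl (z0 g) j u v
          refine ⟨z', _, ?_, h, le_rfl, ?_⟩
          · have hj : (1 : ℝ) ≤ 2 ^ j := one_le_pow₀ (by norm_num)
            rw [le_div_iff₀ N0]; linarith
          · intro y hy e
            simp only [hpj, Prod.mk.injEq] at e
            obtain ⟨rfl, e2, e3⟩ := e
            exact hz' _ (hsq y hy) e2 e3
        · refine ⟨z0 g, 1, d1, le_rfl, (not_le.1 h).le, ?_⟩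
          intro y hy e
          simp only [hpj, Prod.mk.injEq] at e
          obtain ⟨rfl, -⟩ := e
          rw [one_mul]
          exact hsq y hy
      obtain ⟨z, r, r1, r2, r3, r4⟩ := key
      have h1 := cap_bd j hd N0 N1 (hd.le.trans r1) r3 ht0 ht
      have h2 := mul_le_mul_of_nonneg_left h1 hΘ.le
      refine le_trans (le_trans (Nat.cast_le.2 (card_le_card ?_)) (hcnt g z r r1 r2)) (by linarith)
      intro y hy
      obtain ⟨a1, a2⟩ := mem_filter.1 hy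
      have a3 := (mem_filter.1 a1).1
      exact mem_filter.2 ⟨a3, congrArg Prod.fst a2, r4 y a3 a2⟩)
  have hSS : ∀ y ∈ S', y ∈ S := fun y hy => (mem_filter.1 (hS' hy)).1
  set K : ℝ := c * ((2 : ℝ) ^ ν) ^ (-e) * (κ / 64) ^ C0 * ((2 : ℝ) ^ ν) ^ (-t / 2) *
    n ^ (3 / 2 : ℝ) / √(53 * γ / κ) with hK
  have hg : ∀ g, K * #{y ∈ S' | gr y = g} ≤ 9 * Λ * #{τ ∈ 𝒯 | tg τ = g} := by
    intro g
    set Sg := {y ∈ S' | gr y = g} with hSg
    set q : Y → ℕ × ℕ := fun y => qq (2 ^ ν) ℓ (z0 g) (pos y) with hq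
    have mS : ∀ y ∈ Sg, y ∈ S' ∧ gr y = g := fun y hy => mem_filter.1 hy
    have sqg : ∀ y ∈ Sg, InSq (z0 g) ℓ (pos y) := fun y hy => by
      rw [← (mS y hy).2]; exact hsq y (hSS y (mS y hy).1)
    have epj : ∀ j, ∀ y ∈ Sg, pj j y = (g, (q y).1 / 2 ^ j, (q y).2 / 2 ^ j) := by
      intro j y hy
      simp only [hpj, hq, (mS y hy).2]
    have qi : ∀ y ∈ Sg, ∀ y' ∈ Sg, q y = q y' → y = y' := by
      intro y hy y' hy' e
      have h1 := hS2 0 (Nat.zero_le _) (pj 0 y)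
      simp only [pow_zero, Real.one_rpow, Nat.floor_one] at h1
      refine card_le_one.1 h1 y (mem_filter.2 ⟨(mS y hy).1, rfl⟩) y'
        (mem_filter.2 ⟨(mS y' hy').1, ?_⟩)
      rw [epj 0 y hy, epj 0 y' hy', e]
    set D : ℕ × ℕ → Finset ℕ := fun p =>
      ({f ∈ Φ | pt f ∈ Sg ∧ q (pt f) = p}).image fun f => sI (2 ^ ν) (sp (dr f)) with hD
    have eD : ∀ y ∈ Sg, D (q y) = (Fy y).image fun f => sI (2 ^ ν) (sp (dr f)) := by
      intro y hy
      simp only [hD]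
      congr 1
      ext f
      rw [mF, mem_filter]
      exact ⟨fun h => ⟨h.1, qi _ h.2.1 _ hy h.2.2⟩, fun h => ⟨h.1, by rw [h.2]; exact ⟨hy, rfl⟩⟩⟩
    have lD : ∀ y ∈ Sg, 10 * δ ^ (-e2) * n ≤ (#(D (q y)) : ℝ) := by
      intro y hy
      have h1 := (hPt y).card_dir
      have h2 := (mem_filter.1 (hS' (mS y hy).1)).2
      have h3 := mul_le_mul_of_nonneg_right hA hn.le
      rw [eD y hy]
      linarith
    have h1 := hFc ν t (κ / 64) (53 * γ / κ) n (Sg.image q) D ht0 ht (by positivity) (by linarith)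
      (by rw [le_div_iff₀ k0]; linarith) hn.le
      (by
        intro p hp
        obtain ⟨y, hy, rfl⟩ := mem_image.1 hp
        exact qq_lt ν hl (sqg y hy))
      (by
        intro j hj u v
        have a1 : {p ∈ Sg.image q | p.1 / 2 ^ j = u ∧ p.2 / 2 ^ j = v} ⊆
            ({y ∈ S' | pj j y = (g, u, v)}).image q := by
          intro p hp
          obtain ⟨b1, b2, b3⟩ := mem_filter.1 hp
          obtain ⟨y, hy, rfl⟩ := mem_image.1 b1
          exact mem_image_of_mem _ (mem_filter.2 ⟨(mS y hy).1, by rw [epj j y hy, b2, b3]⟩)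
        have a2 := ((card_le_card a1).trans card_image_le).trans (hS2 j hj (g, u, v))
        have a3 : (0 : ℝ) ≤ ((2 : ℝ) ^ j) ^ t := by positivity
        have a4 := Nat.floor_le a3
        have a5 := (Nat.cast_le (α := ℝ)).2 a2
        linarith)
      (by
        intro p _ s hs
        obtain ⟨f, hf, rfl⟩ := mem_image.1 hs
        exact sI_lt ν (hs6 f (mem_filter.1 hf).1))
      (by
        intro p hp
        obtain ⟨y, hy, rfl⟩ := mem_image.1 hp
        have := lD y hy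
        nlinarith)
      (by
        intro p hp j _ u
        obtain ⟨y, hy, rfl⟩ := mem_image.1 hp
        rw [eD y hy]
        exact (hPt y).win_all j u)
      (by
        intro p hp j hj u
        obtain ⟨y, hy, rfl⟩ := mem_image.1 hp
        have a1 := lD y hy
        have a2 := (hPt y).win_short j u hj
        have a3 := mul_le_mul_of_nonneg_right (pow_small hd d1 N0 N2 he2) hn.le
        have a4 : (0 : ℝ) < ((2 : ℝ) ^ ν) ^ (-min e2 (1 / 200)) := by positivity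
        have a5 := mul_le_mul_of_nonneg_left a1 a4.le
        rw [← eD y hy] at a2
        linarith)
    rw [card_image_of_injOn (fun y hy y' hy' e => qi y hy y' hy' e)] at h1
    refine le_trans (le_of_eq (by rw [hK]; ring)) (h1.trans ?_)
    refine cover _ _ (fun τ (b : ℕ × ℕ) => b.1 = sI (2 ^ ν) (sp (td τ)) ∧
      |(b.2 : ℝ) + 2 - (off τ - ((z0 g).1 + sp (td τ) * (z0 g).2) + 6 * ℓ) * 2 ^ ν / (32 * ℓ)| ≤
        2 * Λ + 2) _ ?_ ?_
    · intro b hb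
      obtain ⟨p, hp, hb⟩ := mem_biUnion.1 hb
      obtain ⟨s, hs, rfl⟩ := mem_image.1 hb
      obtain ⟨f, hf, rfl⟩ := mem_image.1 hs
      obtain ⟨f1, f2, rfl⟩ := mem_filter.1 hf
      obtain ⟨τ, t1, t2, t3, t4⟩ := htube f f1
      refine ⟨τ, mem_filter.2 ⟨t1, t2.trans (mS _ f2).2⟩, by rw [t3], ?_⟩
      obtain ⟨i1, i2⟩ := tube_idx ν hl (hs6 f f1) (sqg _ f2)
      have i3 : |((pos (pt f)).1 + sp (dr f) * (pos (pt f)).2 - off τ) * 2 ^ ν / (32 * ℓ)| ≤
          2 * Λ := by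
        rw [abs_div, abs_mul, abs_of_pos N0, abs_of_pos (by positivity : 0 < 32 * ℓ),
          div_le_iff₀ (by positivity)]
        have j1 := mul_le_mul_of_nonneg_right t4 N0.le
        have j2 := mul_le_mul_of_nonneg_left N2 (mul_pos L0 hl).le
        nlinarith
      have i4 : ((pos (pt f)).1 + sp (dr f) * (pos (pt f)).2 -
          ((z0 g).1 + sp (dr f) * (z0 g).2) + 6 * ℓ) * 2 ^ ν / (32 * ℓ) =
          ((pos (pt f)).1 + sp (dr f) * (pos (pt f)).2 - off τ) * 2 ^ ν / (32 * ℓ) +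
          (off τ - ((z0 g).1 + sp (dr f) * (z0 g).2) + 6 * ℓ) * 2 ^ ν / (32 * ℓ) := by ring
      rw [i4] at i1 i2
      have i5 := abs_le.1 i3
      rw [t3, abs_le]
      simp only [hq]
      constructor <;> linarith [i5.1, i5.2]
    · intro τ _
      rw [← card_image_of_injOn (f := Prod.snd) (by
        intro b hb b' hb' e
        exact Prod.ext ((mem_filter.1 hb).2.1.trans (mem_filter.1 hb').2.1.symm) e)]
      refine (card_nat _ (4 * Λ + 4) (by positivity) ?_).trans (by linarith)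
      intro a ha a' ha'
      obtain ⟨b, hb, rfl⟩ := mem_image.1 ha
      obtain ⟨b', hb', rfl⟩ := mem_image.1 ha'
      have j1 := abs_le.1 (mem_filter.1 hb).2.2
      have j2 := abs_le.1 (mem_filter.1 hb').2.2
      linarith [j1.2, j2.1]
  have hsum : K * #S' ≤ 9 * Λ * #𝒯 := by
    have h1 : (#S' : ℝ) = ∑ g ∈ S'.image gr, (#{y ∈ S' | gr y = g} : ℝ) := by
      exact_mod_cast card_eq_sum_card_image gr S'
    have h2 : ∑ g ∈ S'.image gr, (#{τ ∈ 𝒯 | tg τ = g} : ℝ) ≤ #𝒯 := by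
      have := (sum_card_fiberwise_eq_card_filter 𝒯 (S'.image gr) tg).le.trans (card_filter_le _ _)
      exact_mod_cast this
    rw [h1, mul_sum]
    refine (sum_le_sum fun g _ => hg g).trans ?_
    rw [← mul_sum]
    exact mul_le_mul_of_nonneg_left h2 (by positivity)
  have hb : β * (#S / Θ) ≤ 16 * #S' := by
    rw [← mul_div_assoc, div_le_iff₀ hΘ]
    linarith
  have hnum := num (C0 := C0) hc he hd k0 hk N0 N2 ht0 ht hγ hn
  rw [← hK] at hnum
  calc _ ≤ c * (64 : ℝ) ^ (-e) * (64 : ℝ) ^ (-C0) / (64 * 8) / (16 * 9) * δ ^ e * κ ^ (C0 + 1) *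
        β * (#S / Θ) * δ ^ (t / 2) * n ^ (3 / 2 : ℝ) / √γ := by
        gcongr
        exact min_le_left _ _
    _ = (c * (64 : ℝ) ^ (-e) * (64 : ℝ) ^ (-C0) / (64 * 8) * δ ^ e * κ ^ (C0 + 1) * δ ^ (t / 2) *
        n ^ (3 / 2 : ℝ) / √γ) * (β * (#S / Θ)) / (16 * 9) := by ring
    _ ≤ K * (16 * #S') / (16 * 9) := by
        have : 0 ≤ K := by rw [hK]; positivity
        gcongr
    _ ≤ _ := by linarith

end

end Pool.Agent.Lib.MP_108739_an.HA
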