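import Pool.Agent.Lib.MP_108739_an.HA.Defs

/-! Parabolic rescaling of the lattice model (`RescStmt`). -/

namespace Pool.Agent.Lib.MP_108739_an.HA

open Finset
open scoped Real

noncomputable section

namespace FrameA

lemma ex_add (x y : ℝ) : ex (x + y) = ex x * ex y := by
  unfold ex
  rw [← Complex.exp_add]
  congr 1
  push_cast
  ring

lemma norm_ex (x : ℝ) : ‖ex x‖ = 1 := by
  unfold ex
  have : 2 * (π : ℂ) * Complex.I * x = ((2 * π * x : ℝ) : ℂ) * Complex.I := by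
    push_cast
    ring
  rw [this, Complex.norm_exp_ofReal_mul_I]

/-- The index map of the rescaling. -/
def sh (m0 n0 j0 : ℤ) : ℤ × ℤ ≃ ℤ × ℤ where
  toFun k := (k.1 - m0, k.2 - n0 - j0 * (k.1 - m0))
  invFun k := (k.1 + m0, k.2 + n0 + j0 * k.1)
  left_inv k := by
    ext
    · simp
    · simp only
      ring
  right_inv k := by
    ext
    · simp
    · simp only
      ring

def rmap (e : ℤ × ℤ ≃ ℤ × ℤ) (F : Arr) : Arr := .ofCoeff (Finsupp.equivMapDomain e F.coeff)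

lemma sum_rmap {β : Type} [AddCommMonoid β] (e : ℤ × ℤ ≃ ℤ × ℤ) (F : Arr) (g : ℤ × ℤ → ℂ → β) :
    ∑ k ∈ (rmap e F).coeff.support, g k ((rmap e F).coeff k) =
      ∑ k ∈ F.coeff.support, g (e k) (F.coeff k) :=
  Finsupp.sum_equivMapDomain e F.coeff g

lemma mem_rmap {e : ℤ × ℤ ≃ ℤ × ℤ} {F : Arr} {k : ℤ × ℤ} (hk : k ∈ (rmap e F).coeff.support) :
    ∃ k' ∈ F.coeff.support, k = e k' := by
  refine ⟨e.symm k, ?_, by simp⟩
  rw [Finsupp.mem_support_iff] at hk ⊢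
  simpa [rmap] using hk

lemma curve_resc {φ ψ : ℝ → ℝ} (cv : Curve φ ψ) (ξ0 η0 c s : ℝ) (hs : 0 < s)
    (h1 : |φ ξ0 - η0| ≤ 4 * s ^ 2) (h2 : |ψ ξ0 - c| ≤ 2 * s) :
    Curve (fun u => (φ (ξ0 + 2 * s * u) - η0 - c * (2 * s * u)) / (4 * s ^ 2))
      (fun u => (ψ (ξ0 + 2 * s * u) - c) / (2 * s)) where
  conv x y := by
    have h := cv.conv (ξ0 + 2 * s * x) (ξ0 + 2 * s * y)
    have e : (φ (ξ0 + 2 * s * x) - η0 - c * (2 * s * x)) / (4 * s ^ 2) +
        (ψ (ξ0 + 2 * s * x) - c) / (2 * s) * (y - x) =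
        (φ (ξ0 + 2 * s * x) + ψ (ξ0 + 2 * s * x) * (ξ0 + 2 * s * y - (ξ0 + 2 * s * x)) - η0 -
          c * (2 * s * y)) / (4 * s ^ 2) := by
      field_simp
      ring
    rw [e]
    gcongr
  lo x y hxy := by
    have h := cv.lo (ξ0 + 2 * s * x) (ξ0 + 2 * s * y) (by nlinarith)
    rw [← sub_div, le_div_iff₀ (by positivity)]
    linarith
  hi x y hxy := by
    have h := cv.hi (ξ0 + 2 * s * x) (ξ0 + 2 * s * y) (by nlinarith)
    rw [← sub_div, div_le_iff₀ (by positivity)]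
    linarith
  z1 := by
    simp only [mul_zero, add_zero, sub_zero]
    rw [abs_div, abs_of_pos (by positivity : (0 : ℝ) < 4 * s ^ 2), div_le_one (by positivity)]
    exact h1
  z2 := by
    simp only [mul_zero, add_zero]
    rw [abs_div, abs_of_pos (by positivity : (0 : ℝ) < 2 * s), div_le_one (by positivity)]
    exact h2

lemma abs_sub_round_div (x P : ℝ) (hP : 0 < P) : |x - round (P * x) / P| ≤ 1 / (2 * P) := by
  have h := abs_sub_round (P * x)
  have e : x - round (P * x) / P = (P * x - round (P * x)) / P := by field_simp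
  rw [e, abs_div, abs_of_pos hP, div_le_iff₀ hP]
  calc _ ≤ 1 / 2 := h
    _ = _ := by field_simp

lemma card_int_le (S : Finset ℤ) (x y : ℝ) (h : x ≤ y) (hS : ∀ m ∈ S, x ≤ m ∧ (m : ℝ) ≤ y) :
    (#S : ℝ) ≤ y - x + 1 := by
  have h1 : S ⊆ Icc ⌈x⌉ ⌊y⌋ := fun m hm =>
    mem_Icc.2 ⟨Int.ceil_le.2 (hS m hm).1, Int.le_floor.2 (hS m hm).2⟩
  have h2 := card_le_card h1
  rw [Int.card_Icc] at h2
  have h3 := Int.le_ceil x
  have h4 := Int.floor_le y
  rcases le_total (⌊y⌋ + 1 - ⌈x⌉) 0 with h5 | h5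
  · rw [Int.toNat_eq_zero.2 h5] at h2
    have : (#S : ℝ) ≤ 0 := by exact_mod_cast h2
    linarith
  · have h6 : ((#S : ℤ)) ≤ ⌊y⌋ + 1 - ⌈x⌉ := by
      rw [← Int.toNat_of_nonneg h5]
      exact_mod_cast h2
    have h7 : (#S : ℝ) ≤ ⌊y⌋ + 1 - ⌈x⌉ := by exact_mod_cast h6
    linarith

lemma card_supp_le {M : Mo} {F : Arr} {a b w : ℝ} (hF : Supp M F a b w) (hab : a ≤ b) (hw : 0 ≤ w) :
    (#F.coeff.support : ℝ) ≤ ((b - a) * M.L + 1) * (2 * w * (M.L * M.Q) + 1) := by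
  classical
  have hL := M.hL
  have hLQ := mul_pos M.hL M.hQ
  rw [card_eq_sum_card_image Prod.fst F.coeff.support]
  push_cast
  have h1 : (#(F.coeff.support.image Prod.fst) : ℝ) ≤ (b - a) * M.L + 1 := by
    have := card_int_le (F.coeff.support.image Prod.fst) (a * M.L) (b * M.L) (by gcongr) (by
      intro m hm
      obtain ⟨k, hk, rfl⟩ := mem_image.1 hm
      obtain ⟨h1, h2, -⟩ := hF k hk
      exact ⟨(le_div_iff₀ hL).1 h1, (div_le_iff₀ hL).1 h2⟩)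
    linarith
  have h2 : ∀ m ∈ F.coeff.support.image Prod.fst,
      (#{k ∈ F.coeff.support | k.1 = m} : ℝ) ≤ 2 * w * (M.L * M.Q) + 1 := by
    intro m _
    have h3 : #{k ∈ F.coeff.support | k.1 = m} =
        #({k ∈ F.coeff.support | k.1 = m}.image Prod.snd) := by
      rw [card_image_of_injOn]
      intro k hk k' hk' hkk
      have e1 := (mem_filter.1 (mem_coe.1 hk)).2
      have e2 := (mem_filter.1 (mem_coe.1 hk')).2
      exact Prod.ext (e1.trans e2.symm) hkk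
    have := card_int_le ({k ∈ F.coeff.support | k.1 = m}.image Prod.snd)
      ((M.φ (m / M.L) - w) * (M.L * M.Q)) ((M.φ (m / M.L) + w) * (M.L * M.Q)) (by
        gcongr
        linarith) (by
      intro n hn
      obtain ⟨k, hk, rfl⟩ := mem_image.1 hn
      obtain ⟨hk1, hk2⟩ := mem_filter.1 hk
      obtain ⟨-, -, h3⟩ := hF k hk1
      rw [hk2, abs_le] at h3
      exact ⟨(le_div_iff₀ hLQ).1 (by linarith [h3.1]), (div_le_iff₀ hLQ).1 (by linarith [h3.2])⟩)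
    rw [h3]
    linarith
  calc _ ≤ ∑ _m ∈ F.coeff.support.image Prod.fst, (2 * w * (M.L * M.Q) + 1) := sum_le_sum h2
    _ = #(F.coeff.support.image Prod.fst) * (2 * w * (M.L * M.Q) + 1) := by
      rw [sum_const, nsmul_eq_mul]
    _ ≤ _ := by gcongr

lemma nrm_nonneg (F : Arr) : 0 ≤ nrm F := sum_nonneg fun _ _ => by positivity

lemma en_nonneg (M : Mo) {R : ℝ} (hR : 0 ≤ R) (F : Arr) : 0 ≤ en M R F := by
  have := M.hL
  have := M.hQ
  have := nrm_nonneg F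
  unfold en
  positivity

lemma ev_sq_le (M : Mo) (F : Arr) (z : ℝ × ℝ) : ‖ev M F z‖ ^ 2 ≤ #F.coeff.support * nrm F := by
  have h1 : ‖ev M F z‖ ≤ ∑ k ∈ F.coeff.support, ‖F.coeff k‖ := by
    refine (norm_sum_le _ _).trans (le_of_eq (sum_congr rfl fun k _ => ?_))
    rw [norm_mul, norm_ex, mul_one]
  calc _ ≤ (∑ k ∈ F.coeff.support, ‖F.coeff k‖) ^ 2 := by gcongr
    _ ≤ _ := sq_sum_le_card_mul_sum_sq

end FrameA

open FrameA in
theorem triv : TrivStmt := by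
  classical
  refine ⟨5832, by norm_num, fun K1 H R hH hR => ?_⟩
  intro M F X lam E hL1 _ hQ1 _ hlam hE hS hX hKT hen hA
  rcases X.eq_empty_or_nonempty with rfl | ⟨p, hp⟩
  · simp only [card_empty, Nat.cast_zero, zero_mul]
    positivity
  have hcard : (#X : ℝ) ≤ 8 * R := by
    have := hKT (0, 0) R hR
    rw [filter_true_of_mem] at this
    · exact this
    · intro q hq
      obtain ⟨h1, h2, h3, h4⟩ := hX q hq
      exact ⟨h1, by simpa using h2.le, h3, by simpa using h4.le⟩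
  obtain ⟨i, hi⟩ := card_pos.1 (hA p hp)
  obtain ⟨hi1, hi2⟩ := mem_filter.1 hi
  have hi3 := mem_range.1 hi1
  have hK : (1 : ℝ) ≤ K1 := by exact_mod_cast (show 1 ≤ K1 by omega)
  have hL := M.hL
  have hQ := M.hQ
  have hRL : R ≤ M.L := by nlinarith
  have hQ2 : 1 ≤ M.Q := by nlinarith
  have hsq : 1 ≤ √R := Real.one_le_sqrt.2 hR
  have h10 : 10 / √R ≤ 10 := by
    rw [div_le_iff₀ (by positivity)]
    linarith
  have h100 : 0 ≤ 10 / √R := by positivity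
  have hd : ((i : ℝ) + 1) / (2 * K1) - i / (2 * K1) = 1 / (2 * K1) := by ring
  have hd2 : (1 : ℝ) / (2 * K1) ≤ 1 / 2 := by gcongr; linarith
  have hd3 : (0 : ℝ) ≤ 1 / (2 * K1) := by positivity
  have hc := card_supp_le (hS i hi3) (by linarith) (by positivity)
  have hc1 : (1 / 4 + ((i : ℝ) + 1) / (2 * K1) + 10 / √R - (1 / 4 + i / (2 * K1) - 10 / √R)) * M.L + 1
      ≤ 22 * M.L := by nlinarith
  have hc2 : 2 * (1 / R) * (M.L * M.Q) + 1 ≤ 3 * (M.L * M.Q / R) := by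
    have : 1 ≤ M.L * M.Q / R := by
      rw [le_div_iff₀ (by positivity)]
      nlinarith
    have e : 2 * (1 / R) * (M.L * M.Q) = 2 * (M.L * M.Q / R) := by ring
    linarith
  have hc3 : (#(F i).coeff.support : ℝ) ≤ 22 * M.L * (3 * (M.L * M.Q / R)) :=
    hc.trans (mul_le_mul hc1 hc2 (by positivity) (by positivity))
  have h1 : en M R (F i) ≤ E ^ 2 :=
    (single_le_sum (f := fun i => en M R (F i)) (fun j _ => en_nonneg M (by linarith) _) hi1).trans hen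
  have h2 : lam ^ 2 ≤ (9 * E) ^ 2 := by
    have := nrm_nonneg (F i)
    calc lam ^ 2 ≤ ‖ev M (F i) p‖ ^ 2 := by gcongr
      _ ≤ #(F i).coeff.support * nrm (F i) := ev_sq_le _ _ _
      _ ≤ 22 * M.L * (3 * (M.L * M.Q / R)) * nrm (F i) := by gcongr
      _ = 66 * en M R (F i) := by unfold en; ring
      _ ≤ _ := by nlinarith
  have h3 : lam ≤ 9 * E := le_of_sq_le_sq h2 (by positivity) |>.trans le_rfl
  calc (#X : ℝ) * lam ^ 3 ≤ 8 * R * (9 * E) ^ 3 := by gcongr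
    _ = _ := by ring

open FrameA in
theorem resc : RescStmt := by
  intro M s l hs hL1 hQ1
  have hL := M.hL
  have hQ := M.hQ
  set m0 : ℤ := ⌊M.L * ((l - 1 / 2) * s)⌋ with hm0
  set ξ0 : ℝ := m0 / M.L with hξ0
  set n0 : ℤ := round (M.L * M.Q * M.φ ξ0) with hn0
  set j0 : ℤ := sl M s l with hj0
  have hj0' : j0 = round (M.Q * M.ψ ξ0) := rfl
  have hc : cs M s l = j0 / M.Q := rfl
  have h1 : |M.φ ξ0 - n0 / (M.L * M.Q)| ≤ 4 * s ^ 2 := by
    refine (abs_sub_round_div _ _ (mul_pos hL hQ)).trans ?_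
    rw [div_le_iff₀ (by positivity)]
    have : 1 ≤ (2 * s * M.L) * (2 * s * M.Q) := one_le_mul_of_one_le_of_one_le hL1 hQ1
    nlinarith
  have h2 : |M.ψ ξ0 - j0 / M.Q| ≤ 2 * s := by
    rw [hj0']
    refine (abs_sub_round_div _ _ hQ).trans ?_
    rw [div_le_iff₀ (by positivity)]
    nlinarith
  refine ⟨⟨2 * s * M.L, 2 * s * M.Q, _, _, by positivity, by positivity,
    curve_resc M.cv ξ0 (n0 / (M.L * M.Q)) (j0 / M.Q) s hs h1 h2⟩, rmap (sh m0 n0 j0), rfl, rfl,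
    ?_, ?_, ?_⟩
  · intro F
    exact sum_rmap (sh m0 n0 j0) F (fun _ a => ‖a‖ ^ 2)
  · intro F p
    unfold ev
    rw [sum_rmap (sh m0 n0 j0) F (fun k a => a * ex (fx M s l p * (k.1 / (2 * s * M.L)) +
      ft s p * (k.2 / (2 * s * M.L * (2 * s * M.Q)))))]
    have : ∑ k ∈ F.coeff.support, F.coeff k * ex (fx M s l p * ((sh m0 n0 j0 k).1 / (2 * s * M.L)) +
        ft s p * ((sh m0 n0 j0 k).2 / (2 * s * M.L * (2 * s * M.Q)))) =
        (∑ k ∈ F.coeff.support, F.coeff k * ex (p.1 * (k.1 / M.L) + p.2 * (k.2 / (M.L * M.Q)))) *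
          ex (-(p.1 * (m0 / M.L) + p.2 * (n0 / (M.L * M.Q)))) := by
      rw [Finset.sum_mul]
      refine Finset.sum_congr rfl fun k _ => ?_
      rw [mul_assoc (F.coeff k), ← ex_add]
      congr 2
      simp only [fx, ft, hc, sh, Equiv.coe_fn_mk]
      push_cast
      field_simp
      ring
    rw [this, norm_mul, norm_ex, mul_one]
  · intro F a b w hF k hk
    obtain ⟨k', hk', rfl⟩ := mem_rmap hk
    obtain ⟨ha, hb, hw⟩ := hF k' hk'
    have hfl : ξ0 ≤ (l - 1 / 2) * s := by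
      rw [hξ0, div_le_iff₀ hL, mul_comm]
      exact Int.floor_le _
    have hfu : (l - 1 / 2) * s - 1 / M.L ≤ ξ0 := by
      have := (Int.lt_floor_add_one (M.L * ((l - 1 / 2) * s))).le
      rw [hξ0, le_div_iff₀ hL, sub_mul, one_div_mul_cancel hL.ne']
      linarith
    have e1 : (((sh m0 n0 j0 k').1 : ℤ) : ℝ) / (2 * s * M.L) = (k'.1 / M.L - ξ0) / (2 * s) := by
      simp only [sh, Equiv.coe_fn_mk, hξ0]
      push_cast
      field_simp
    refine ⟨?_, ?_, ?_⟩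
    · show _ ≤ (((sh m0 n0 j0 k').1 : ℤ) : ℝ) / (2 * s * M.L)
      rw [e1]
      gcongr
    · show (((sh m0 n0 j0 k').1 : ℤ) : ℝ) / (2 * s * M.L) ≤ _
      rw [e1]
      gcongr
      linarith
    · show |(((sh m0 n0 j0 k').2 : ℤ) : ℝ) / (2 * s * M.L * (2 * s * M.Q)) -
        (M.φ (ξ0 + 2 * s * ((((sh m0 n0 j0 k').1 : ℤ) : ℝ) / (2 * s * M.L))) - n0 / (M.L * M.Q) -
          j0 / M.Q * (2 * s * ((((sh m0 n0 j0 k').1 : ℤ) : ℝ) / (2 * s * M.L)))) / (4 * s ^ 2)| ≤ _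
      have e2 : 2 * s * ((k'.1 / M.L - ξ0) / (2 * s)) = k'.1 / M.L - ξ0 := by field_simp
      rw [e1, e2, add_sub_cancel]
      have e3 : (((sh m0 n0 j0 k').2 : ℤ) : ℝ) / (2 * s * M.L * (2 * s * M.Q)) -
          (M.φ (k'.1 / M.L) - n0 / (M.L * M.Q) - j0 / M.Q * (k'.1 / M.L - ξ0)) / (4 * s ^ 2) =
          (k'.2 / (M.L * M.Q) - M.φ (k'.1 / M.L)) / (4 * s ^ 2) := by
        simp only [sh, Equiv.coe_fn_mk, hξ0]
        push_cast
        field_simp
        ring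
      rw [e3, abs_div, abs_of_pos (by positivity : (0 : ℝ) < 4 * s ^ 2)]
      gcongr

end

end Pool.Agent.Lib.MP_108739_an.HA
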