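import Pool.Agent.Lib.MP_108739_an.HA.Basic
import Pool.Agent.Lib.MP_108739_an.HA.FrameA

/-! The frame lemma: the broad estimate at the rescaled level, summed over all pieces. -/

namespace Pool.Agent.Lib.MP_108739_an.HA

open Finset
open scoped Real

noncomputable section

namespace FrameB

/-- Dyadic square of side `2 ^ y` containing a point. -/
def dq (y : ℕ) (q : ℝ × ℝ) : ℤ × ℤ := (⌊q.1 / 2 ^ y⌋, ⌊q.2 / 2 ^ y⌋)

lemma floor_succ (x : ℝ) (y : ℕ) : ⌊x / 2 ^ (y + 1)⌋ = ⌊x / 2 ^ y⌋ / 2 := by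
  have := Int.floor_div_natCast (x / 2 ^ y) 2
  rw [pow_succ, ← div_div]
  exact_mod_cast this

lemma dq_chain (y : ℕ) (q q' : ℝ × ℝ) (h : dq y q = dq y q') : dq (y + 1) q = dq (y + 1) q' := by
  simp only [dq, Prod.mk.injEq, floor_succ] at h ⊢
  rw [h.1, h.2]
  exact ⟨rfl, rfl⟩

lemma floor_mem {a x r P : ℝ} (hP : 0 < P) (hr : r ≤ P) (h1 : a ≤ x) (h2 : x ≤ a + r) :
    ⌊x / P⌋ ∈ Icc ⌊a / P⌋ (⌊a / P⌋ + 1) := by
  refine mem_Icc.2 ⟨Int.floor_le_floor (by gcongr), ?_⟩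
  rw [← Int.floor_add_one]
  refine Int.floor_le_floor ?_
  rw [div_add_one hP.ne']
  gcongr
  linarith

lemma kt_of_dyadic (S : Finset (ℝ × ℝ)) (R : ℝ) (hR : 1 ≤ R) (z0 : ℝ × ℝ)
    (hb : ∀ q ∈ S, InBox R (q - z0))
    (h : ∀ y : ℕ, (2 : ℝ) ^ y ≤ 2 * R → ∀ c, #{q ∈ S | dq y q = c} ≤ 2 ^ y) : KT 8 S := by
  classical
  have key : ∀ z r, 1 ≤ r → r ≤ R → (#{p ∈ S | InSq z r p} : ℝ) ≤ 8 * r := by
    intro z r hr hrR
    obtain ⟨n, h1, h2⟩ := exists_nat_pow_near hr (one_lt_two (α := ℝ))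
    have h3 : (2 : ℝ) ^ (n + 1) ≤ 2 * r := by rw [pow_succ]; linarith
    have h4 := card_le_mul_card_image_of_maps_to (s := {p ∈ S | InSq z r p}) (f := dq (n + 1))
      (t := Icc ⌊z.1 / 2 ^ (n + 1)⌋ (⌊z.1 / 2 ^ (n + 1)⌋ + 1) ×ˢ
        Icc ⌊z.2 / 2 ^ (n + 1)⌋ (⌊z.2 / 2 ^ (n + 1)⌋ + 1)) (fun p hp => by
        obtain ⟨a1, a2, a3, a4⟩ := (mem_filter.1 hp).2
        exact mem_product.2 ⟨floor_mem (by positivity) h2.le a1 a2,
          floor_mem (by positivity) h2.le a3 a4⟩) (2 ^ (n + 1)) (fun c _ =>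
        le_trans (card_le_card (filter_subset_filter _ (filter_subset _ _)))
          (h (n + 1) (by linarith) c))
    rw [card_product, Int.card_Icc, Int.card_Icc] at h4
    have e : ∀ a : ℤ, (a + 1 + 1 - a).toNat = 2 := fun a => by omega
    rw [e, e] at h4
    have h5 : (#{p ∈ S | InSq z r p} : ℝ) ≤ 2 ^ (n + 1) * (2 * 2) := by exact_mod_cast h4
    linarith
  intro z r hr
  rcases le_total r R with hrR | hrR
  · convert key z r hr hrR
  · have h1 := key z0 R hR le_rfl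
    rw [filter_true_of_mem fun q hq => by
      obtain ⟨a1, a2, a3, a4⟩ := hb q hq
      simp only [Prod.fst_sub, Prod.snd_sub] at a1 a2 a3 a4
      exact ⟨by linarith, by linarith, by linarith, by linarith⟩] at h1
    have h2 : ∀ inst : DecidablePred fun p => InSq z r p,
        (#(@filter _ _ inst S) : ℝ) ≤ #S := fun _ => by exact_mod_cast card_filter_le _ _
    exact (h2 _).trans (by linarith)

open Classical in
lemma piece (hF : FlowStmt) {K1 A : ℕ} {H R Z : ℝ} (hC : Core K1 H R A Z) (hR : 1 ≤ R)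
    (M : Mo) (F : ℕ → Arr) (S : Finset (ℝ × ℝ)) (z0 : ℝ × ℝ) (lam E Ξ : ℝ)
    (l1 : R * H ≤ M.L) (l2 : M.L ≤ H ^ 5) (q1 : R * H ≤ M.Q) (q2 : M.Q ≤ H ^ 5) (hlam : 0 < lam)
    (hE : 0 ≤ E) (hΞ : 1 ≤ Ξ)
    (hS : ∀ i < K1, Supp M (F i) (1 / 4 + i / (2 * K1) - 10 / √R)
      (1 / 4 + (i + 1) / (2 * K1) + 10 / √R) (1 / R))
    (hb : ∀ q ∈ S, InBox R (q - z0)) (hen : ∑ i ∈ range K1, en M R (F i) ≤ E ^ 2)
    (hA : ∀ q ∈ S, A ≤ #{i ∈ range K1 | lam ≤ ‖ev M (F i) q‖})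
    (hd : ∀ y : ℕ, (2 : ℝ) ^ y ≤ 2 * R → ∀ c, (#{q ∈ S | dq y q = c} : ℝ) ≤ Ξ * 2 ^ y) :
    #S * lam ^ 3 ≤ Ξ * (Z * E ^ 3) := by
  have hm : ∀ y : ℕ, y ≤ Nat.log 2 ⌊2 * R⌋₊ ↔ (2 : ℝ) ^ y ≤ 2 * R := fun y => by
    rw [Nat.le_log_iff_pow_le one_lt_two (Nat.floor_pos.2 (by linarith)).ne',
      Nat.le_floor_iff (by linarith)]
    push_cast
    rfl
  obtain ⟨S', hS', h1, h2⟩ := hF S dq (Nat.log 2 ⌊2 * R⌋₊) (fun y => 2 ^ y) Ξ hΞ dq_chain
    (fun y hy c => by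
      push_cast
      convert hd y ((hm y).1 hy) c)
  have hK : KT 8 S' := kt_of_dyadic S' R hR z0 (fun q hq => hb q (hS' hq)) fun y hy c => by
    convert h2 y ((hm y).2 hy) c
  have h3 := hC M (fun i => md M z0 (F i)) (S'.image fun p => p - z0) lam E l1 l2 q1 q2 hlam hE
    (fun i hi => (hS i hi).md z0) (fun p hp => by
      obtain ⟨q, hq, rfl⟩ := mem_image.1 hp
      exact hb q (hS' hq)) (by convert hK.image_sub z0) (by simpa only [en, nrm_md] using hen)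
    (fun p hp => by
      obtain ⟨q, hq, rfl⟩ := mem_image.1 hp
      simp only [ev_md, add_sub_cancel]
      exact hA q (hS' hq))
  rw [card_image_of_injective _ sub_left_injective] at h3
  calc (#S : ℝ) * lam ^ 3 ≤ Ξ * #S' * lam ^ 3 := by gcongr
    _ = Ξ * (#S' * lam ^ 3) := by ring
    _ ≤ _ := by gcongr

lemma inBox_floor {R : ℝ} (hR : 0 < R) (q : ℝ × ℝ) :
    InBox R (q - ((⌊q.1 / R⌋ : ℝ) * R, (⌊q.2 / R⌋ : ℝ) * R)) := by
  have aux : ∀ x : ℝ, 0 ≤ x - ⌊x / R⌋ * R ∧ x - ⌊x / R⌋ * R < R := fun x => by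
    have h1 := (le_div_iff₀ hR).1 (Int.floor_le (x / R))
    have h2 := (div_lt_iff₀ hR).1 (Int.lt_floor_add_one (x / R))
    constructor <;> linarith
  exact ⟨(aux q.1).1, (aux q.1).2, (aux q.2).1, (aux q.2).2⟩

lemma sum_cube {ι : Type*} (U : Finset ι) (N e : ι → ℝ) (c h B : ℝ) (hc : 0 ≤ c)
    (hN : ∀ u ∈ U, 0 ≤ N u) (he : ∀ u ∈ U, 0 ≤ e u)
    (h1 : ∀ u ∈ U, N u ^ 3 * h ^ 6 ≤ c * e u ^ 3) (h2 : ∑ u ∈ U, e u ≤ B) :
    (∑ u ∈ U, N u) ^ 3 * h ^ 6 ≤ c * B ^ 3 := by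
  obtain ⟨κ, hκ, rfl⟩ : ∃ κ : ℝ, 0 ≤ κ ∧ κ ^ 3 = c :=
    ⟨c ^ ((3 : ℕ) : ℝ)⁻¹, by positivity, Real.rpow_inv_natCast_pow hc (by norm_num)⟩
  have h3 : ∀ u ∈ U, N u * h ^ 2 ≤ κ * e u := fun u hu => by
    refine le_of_pow_le_pow_left₀ (n := 3) (by norm_num) (mul_nonneg hκ (he u hu)) ?_
    calc (N u * h ^ 2) ^ 3 = N u ^ 3 * h ^ 6 := by ring
      _ ≤ _ := h1 u hu
      _ = _ := by ring
  have h4 : (∑ u ∈ U, N u) * h ^ 2 ≤ κ * B := by
    rw [sum_mul]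
    refine (sum_le_sum h3).trans ?_
    rw [← mul_sum]
    gcongr
  have h5 : 0 ≤ (∑ u ∈ U, N u) * h ^ 2 := mul_nonneg (sum_nonneg hN) (by positivity)
  calc _ = ((∑ u ∈ U, N u) * h ^ 2) ^ 3 := by ring
    _ ≤ (κ * B) ^ 3 := by gcongr
    _ = _ := by ring

open Classical in
lemma core (hD : DirStmt) (hF : FlowStmt) {K1 A : ℕ} {H R Z : ℝ} (hC : Core K1 H R A Z)
    (hH : 100 ≤ H) (hR : 1 ≤ R) (M : Mo) (G : ℕ → Arr) (Y : Finset (ℝ × ℝ))
    (h Ξ mm : ℝ) (l1 : R * H ≤ M.L) (l2 : M.L ≤ H ^ 5) (q1 : R * H ≤ M.Q) (q2 : M.Q ≤ H ^ 5)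
    (hh : 0 < h) (hΞ : 1 ≤ Ξ) (hmm : 0 ≤ mm)
    (hS : ∀ r < K1, Supp M (G r) (1 / 4 + r / (2 * K1) - 1 / (8 * R))
      (1 / 4 + (r + 1) / (2 * K1) + 1 / (8 * R)) (1 / (2 * R)))
    (hY : ∀ q ∈ Y, |q.1| + R ≤ M.L / 3 ∧ 0 ≤ q.2 ∧ q.2 < 16 * R)
    (hA : ∀ q ∈ Y, A ≤ #{r ∈ range K1 | h ≤ ‖ev M (G r) q‖})
    (hd : ∀ y : ℕ, (2 : ℝ) ^ y ≤ 2 * R → ∀ c, (#{q ∈ Y | dq y q = c} : ℝ) ≤ Ξ * 2 ^ y)
    (hs : ∀ u : ℤ, (#{q ∈ Y | ⌊q.1 / R⌋ = u} : ℝ) ≤ mm) :
    (#Y : ℝ) ^ 3 * h ^ 6 ≤ mm * (128 * Ξ * Z) ^ 2 * (40 * ∑ r ∈ range K1, en M R (G r)) ^ 3 := by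
  have hR0 : 0 < R := by linarith
  obtain ⟨J, s0, B, s1, s2, hJ, hB1, hB2, hB3⟩ := (hD M.L R hR0 (by nlinarith)).2
  have hs0 : 0 < s0 := by linarith
  set j : ℤ → ℤ := fun u => round ((u + 1 / 2) * R / s0) with hj
  have jinj : Function.Injective j := by
    refine StrictMono.injective (strictMono_int_of_lt_succ fun u => ?_)
    have h1 : ((u : ℝ) + 1 / 2) * R / s0 + 1 ≤ (((u + 1 : ℤ) : ℝ) + 1 / 2) * R / s0 := by
      rw [div_add_one hs0.ne']
      push_cast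
      gcongr
      linarith
    have h2 : round (((u : ℝ) + 1 / 2) * R / s0 + 1) ≤ j (u + 1) := by
      simp only [hj, round_eq]
      exact Int.floor_le_floor (by linarith)
    rw [round_add_one] at h2
    exact Int.lt_of_add_one_le h2
  have jnear : ∀ q : ℝ × ℝ, |q.1 - j ⌊q.1 / R⌋ * s0| ≤ R := fun q => by
    obtain ⟨a1, a2, -⟩ := inBox_floor hR0 q
    simp only [Prod.fst_sub] at a1 a2
    have h1 := abs_sub_round (((⌊q.1 / R⌋ : ℝ) + 1 / 2) * R / s0)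
    have h2 : |((⌊q.1 / R⌋ : ℝ) + 1 / 2) * R - j ⌊q.1 / R⌋ * s0| ≤ 1 / 2 * s0 := by
      have e : ((⌊q.1 / R⌋ : ℝ) + 1 / 2) * R - j ⌊q.1 / R⌋ * s0 =
          (((⌊q.1 / R⌋ : ℝ) + 1 / 2) * R / s0 - j ⌊q.1 / R⌋) * s0 := by field_simp
      rw [e, abs_mul, abs_of_pos hs0]
      gcongr
    rw [abs_le] at h2 ⊢
    constructor <;> linarith [h2.1, h2.2]
  set U : Finset ℤ := Y.image fun q => ⌊q.1 / R⌋ with hU
  have jJ : ∀ u ∈ U, j u ∈ J := fun u hu => by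
    obtain ⟨q, hq, rfl⟩ := mem_image.1 hu
    refine hJ _ ?_
    have h1 := jnear q
    have h2 := (hY q hq).1
    have h3 := abs_sub_abs_le_abs_sub (j ⌊q.1 / R⌋ * s0) q.1
    rw [abs_sub_comm] at h3
    linarith
  set F : ℤ → ℕ → Arr := fun u r => tilt 0 (B (j u)) * G r with hFd
  set e : ℤ → ℝ := fun u => ∑ r ∈ range K1, en M R (F u r) with he
  have he0 : ∀ u, 0 ≤ e u := fun u => sum_nonneg fun r _ => en_nonneg hR0.le _
  have evF : ∀ u r q, ‖ev M (F u r) q‖ = ‖ev1 M.L (B (j u)) q.1‖ * ‖ev M (G r) q‖ := by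
    intro u r q
    simp only [hFd, ev_mul, ev_tilt, norm_mul, Int.cast_zero, zero_div, zero_mul, add_zero]
  have hsum : ∑ u ∈ U, e u ≤ 40 * ∑ r ∈ range K1, en M R (G r) := by
    simp only [he]
    rw [sum_comm, mul_sum]
    refine sum_le_sum fun r _ => ?_
    have h1 : ∑ u ∈ U, nrm (F u r) ≤ 40 * nrm (G r) := by
      have := transfer M U {()} (fun u => F u r) (fun _ => G r) (fun _ => 40) fun z _ _ => by
        simp only [evF, mul_pow, sum_singleton]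
        rw [← sum_mul]
        gcongr
        refine le_trans ?_ (hB3 z.1)
        rw [← sum_image (g := j) (f := fun i => ‖ev1 M.L (B i) z.1‖ ^ 2) jinj.injOn]
        exact sum_le_sum_of_subset_of_nonneg (image_subset_iff.2 jJ) fun _ _ _ => by positivity
      simpa using this
    simp only [en]
    rw [← mul_sum]
    have := M.hQ
    calc _ ≤ M.L ^ 2 * M.Q / R * (40 * nrm (G r)) := by gcongr
      _ = _ := by ring
  have hsq : 1 / R ≤ 1 / √R := by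
    have h1 : 1 ≤ √R := Real.one_le_sqrt.2 hR
    have h2 : √R ≤ R := by nlinarith [Real.mul_self_sqrt hR0.le]
    gcongr
  have hSF : ∀ u ∈ U, ∀ i < K1, Supp M (F u i) (1 / 4 + i / (2 * K1) - 10 / √R)
      (1 / 4 + (i + 1) / (2 * K1) + 10 / √R) (1 / R) := by
    intro u hu i hi
    have hK : (0 : ℝ) < K1 := by exact_mod_cast (show 0 < K1 by omega)
    have hi1 : (i : ℝ) + 1 ≤ K1 := by exact_mod_cast hi
    have i0 : (0 : ℝ) ≤ i / (2 * K1) := by positivity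
    have i1 : ((i : ℝ) + 1) / (2 * K1) ≤ 1 / 2 := by
      rw [div_le_iff₀ (by positivity)]
      linarith
    have r0 : 0 < 1 / R := by positivity
    have r1 : 1 / R ≤ 1 := by rw [div_le_one hR0]; exact hR
    have e8 : 1 / (8 * R) = 1 / 8 * (1 / R) := by field_simp
    have e10 : 1 / (10 * R) = 1 / 10 * (1 / R) := by field_simp
    have e2 : 1 / (2 * R) = 1 / 2 * (1 / R) := by field_simp
    have es : 10 / √R = 10 * (1 / √R) := by ring
    refine ((hS i hi).tilt_mul (v := 3) 0 (hB1 _ (jJ u hu)) fun ξ a1 a2 => ?_).mono ?_ ?_ ?_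
    · have h1 := M.cv.psi_le ξ
      have h2 : |ξ| ≤ 1 := by
        rw [e8] at a1 a2
        rw [abs_le]
        constructor <;> linarith
      simp only [Int.cast_zero, zero_div, sub_zero]
      linarith
    · rw [e8, e10, es]
      linarith
    · rw [e8, e10, es]
      linarith
    · rw [e2, e10]
      nlinarith
  have hp : ∀ u ∈ U, ∀ v : ℤ, (#{q ∈ {q ∈ Y | ⌊q.1 / R⌋ = u} | ⌊q.2 / R⌋ = v} : ℝ) * (h / 2) ^ 3 ≤
      Ξ * (Z * √(e u) ^ 3) := by
    intro u hu v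
    refine piece hF hC hR M (F u) _ ((u : ℝ) * R, (v : ℝ) * R) (h / 2) √(e u) Ξ l1 l2 q1 q2
      (by positivity) (by positivity) hΞ (hSF u hu) (fun q hq => ?_)
      (by rw [Real.sq_sqrt (he0 u)]) (fun q hq => ?_) fun y hy c => le_trans ?_ (hd y hy c)
    · obtain ⟨hq1, hq2⟩ := mem_filter.1 hq
      rw [← hq2, ← (mem_filter.1 hq1).2]
      exact inBox_floor hR0 q
    · obtain ⟨hq1, hq2⟩ := mem_filter.1 (mem_filter.1 hq).1
      refine (hA q hq1).trans (card_le_card fun r hr => ?_)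
      obtain ⟨hr1, hr2⟩ := mem_filter.1 hr
      refine mem_filter.2 ⟨hr1, ?_⟩
      have h1 := hB2 _ (jJ u hu) q.1 (hq2 ▸ jnear q)
      rw [evF]
      calc h / 2 = 1 / 2 * h := by ring
        _ ≤ _ := by gcongr
    · exact_mod_cast card_le_card
        (filter_subset_filter _ ((filter_subset _ _).trans (filter_subset _ _)))
  have hstrip : ∀ u ∈ U, (#{q ∈ Y | ⌊q.1 / R⌋ = u} : ℝ) * h ^ 3 ≤ 128 * Ξ * Z * √(e u) ^ 3 := by
    intro u hu
    have h1 := card_eq_sum_card_fiberwise (s := {q ∈ Y | ⌊q.1 / R⌋ = u})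
      (f := fun q : ℝ × ℝ => ⌊q.2 / R⌋) (t := Ico (0 : ℤ) 16) fun q hq => by
        obtain ⟨-, a1, a2⟩ := hY q (mem_filter.1 (mem_coe.1 hq)).1
        refine mem_coe.2 (mem_Ico.2 ⟨Int.floor_nonneg.2 (by positivity), Int.floor_lt.2 ?_⟩)
        rw [div_lt_iff₀ hR0]
        exact_mod_cast a2
    have h2 : (#{q ∈ Y | ⌊q.1 / R⌋ = u} : ℝ) * (h / 2) ^ 3 ≤ 16 * (Ξ * (Z * √(e u) ^ 3)) := by
      rw [h1]
      push_cast
      rw [sum_mul]
      refine (sum_le_sum fun v _ => hp u hu v).trans (le_of_eq ?_)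
      rw [sum_const, nsmul_eq_mul, show #(Ico (0 : ℤ) 16) = 16 by rw [Int.card_Ico]; rfl]
      norm_num
    calc _ = 8 * ((#{q ∈ Y | ⌊q.1 / R⌋ = u} : ℝ) * (h / 2) ^ 3) := by ring
      _ ≤ 8 * (16 * (Ξ * (Z * √(e u) ^ 3))) := by gcongr
      _ = _ := by ring
  have hcard : (#Y : ℝ) = ∑ u ∈ U, (#{q ∈ Y | ⌊q.1 / R⌋ = u} : ℝ) := by
    exact_mod_cast card_eq_sum_card_image (fun q : ℝ × ℝ => ⌊q.1 / R⌋) Y
  rw [hcard]
  refine sum_cube U _ e _ h _ (by positivity) (fun _ _ => by positivity) (fun u _ => he0 u)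
    (fun u hu => ?_) hsum
  have h1 := hstrip u hu
  have h2 := hs u
  have h3 : (√(e u) ^ 3) ^ 2 = e u ^ 3 := by
    rw [← pow_mul, mul_comm, pow_mul, Real.sq_sqrt (he0 u)]
  calc _ = (#{q ∈ Y | ⌊q.1 / R⌋ = u} : ℝ) * ((#{q ∈ Y | ⌊q.1 / R⌋ = u} : ℝ) * h ^ 3) ^ 2 := by ring
    _ ≤ mm * (128 * Ξ * Z * √(e u) ^ 3) ^ 2 := by gcongr
    _ = _ := by rw [mul_pow _ (√(e u) ^ 3), h3]; ring

end FrameB

open FrameB in
theorem frame (hRe : RescStmt) (hD : DirStmt) (hF : FlowStmt) : FrameStmt := by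
  classical
  refine ⟨128 ^ 2 * 1280 ^ 3, by norm_num, ?_⟩
  intro K1 A H R Z s M l G Y h Ξ mm hK hH hs hs1 hR' hZ hC l1 l2 q1 q2 hl hS hY hh hΞ hmm hA hd hst
  have hL := M.hL
  have hQ := M.hQ
  have hs2 : s ^ 2 ≤ 1 / 4 := by nlinarith
  have hR0 : 0 < R := by
    by_contra hc
    push Not at hc
    nlinarith [sq_nonneg s]
  have hR16 : 16 ≤ R := by nlinarith
  have hss : s ^ 2 / 4 ≤ 2 * s := by nlinarith
  have hRH : 0 < R * H := by positivity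
  have l1' : R * s ^ 2 / 4 * H ≤ 2 * s * M.L := by
    calc R * s ^ 2 / 4 * H = s ^ 2 / 4 * (R * H) := by ring
      _ ≤ _ := by gcongr
  have q1' : R * s ^ 2 / 4 * H ≤ 2 * s * M.Q := by
    calc R * s ^ 2 / 4 * H = s ^ 2 / 4 * (R * H) := by ring
      _ ≤ _ := by gcongr
  have h1H : 1 ≤ R * s ^ 2 / 4 * H := by nlinarith
  obtain ⟨M', ρ, eL, eQ, hn, hev, hsp⟩ := hRe M s l hs (h1H.trans l1') (h1H.trans q1')
  set T : ℝ × ℝ → ℝ × ℝ := fun p => (fx M s l p, ft s p) with hT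
  have Tinj : Function.Injective T := by
    intro p p' hpp
    simp only [hT, fx, ft, Prod.mk.injEq] at hpp
    have h2 : p.2 = p'.2 := mul_left_cancel₀ (by positivity) hpp.2
    have h1 := mul_left_cancel₀ (by positivity) hpp.1
    rw [h2] at h1
    exact Prod.ext (add_right_cancel h1) h2
  have hcs : |cs M s l| ≤ 6 := cs_le M hs.le (by linarith) hl (by nlinarith) (by nlinarith)
  have hRL : 1 / M.L ≤ 1 / R := by
    gcongr
    nlinarith
  have hK0 : (0 : ℝ) < K1 := by exact_mod_cast hK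
  have e8 : 1 / (8 * (R * s ^ 2 / 4)) = 1 / (2 * s) * (1 / (R * s)) := by field_simp; norm_num
  have e9 : 2 * (1 / R) ≤ 1 / (R * s) := by
    rw [le_div_iff₀ (by positivity)]
    have : 2 * (1 / R) * (R * s) = 2 * s := by field_simp
    linarith
  have r0 : 0 < 1 / R := by positivity
  have h5 : 2 * s * (R * 100) ≤ 2 * s * M.L :=
    mul_le_mul_of_nonneg_left ((mul_le_mul_of_nonneg_left hH hR0.le).trans l1) (by positivity)
  have h6 : R * s ^ 2 / 4 ≤ 2 * s * R := by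
    have := mul_le_mul_of_nonneg_left hss hR0.le
    linarith
  have l2' : M'.L ≤ H ^ 5 := by
    have : 2 * s * M.L ≤ 1 * M.L := mul_le_mul_of_nonneg_right (by linarith) hL.le
    rw [eL]
    linarith
  have q2' : M'.Q ≤ H ^ 5 := by
    have : 2 * s * M.Q ≤ 1 * M.Q := mul_le_mul_of_nonneg_right (by linarith) hQ.le
    rw [eQ]
    linarith
  have key := core hD hF hC hH hR' M' (fun r => ρ (G r)) (Y.image T) h Ξ mm (eL ▸ l1')
    l2' (eQ ▸ q1') q2' hh hΞ hmm (fun r hr => by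
      refine (hsp _ _ _ _ (hS r hr)).mono ?_ ?_ (le_of_eq ?_)
      · have e : (l * s + r * s / K1 - 1 / R - (l - 1 / 2) * s) / (2 * s) =
            1 / 4 + r / (2 * K1) - 1 / (2 * s) * (1 / R) := by field_simp; ring
        have : 1 / (2 * s) * (1 / R) ≤ 1 / (2 * s) * (1 / (R * s)) :=
          mul_le_mul_of_nonneg_left (by linarith) (by positivity)
        rw [e, e8]
        linarith
      · have e : (l * s + (r + 1) * s / K1 + 1 / R - (l - 1 / 2) * s + 1 / M.L) / (2 * s) =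
            1 / 4 + (r + 1) / (2 * K1) + 1 / (2 * s) * (1 / R + 1 / M.L) := by field_simp; ring
        have : 1 / (2 * s) * (1 / R + 1 / M.L) ≤ 1 / (2 * s) * (1 / (R * s)) :=
          mul_le_mul_of_nonneg_left (by linarith) (by positivity)
        rw [e, e8]
        linarith
      · field_simp
        norm_num) (fun q hq => by
      obtain ⟨p, hp, rfl⟩ := mem_image.1 hq
      obtain ⟨a1, a2, a3, a4⟩ := hY p hp
      refine ⟨?_, by simp only [hT, ft]; positivity, ?_⟩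
      · have h1 : |p.1 + cs M s l * p.2| ≤ 7 * R := by
          have h2 := abs_add_le p.1 (cs M s l * p.2)
          rw [abs_mul, abs_of_nonneg a1, abs_of_nonneg a3] at h2
          have h3 : |cs M s l| * p.2 ≤ 6 * R := by gcongr
          linarith
        have h4 : |fx M s l p| ≤ 2 * s * (7 * R) := by
          rw [fx, abs_mul, abs_of_pos (by positivity)]
          gcongr
        have h7 : 0 < s * R := by positivity
        simp only [hT]
        rw [eL]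
        linarith
      · simp only [hT, ft]
        have : 4 * s ^ 2 * p.2 < 4 * s ^ 2 * R := by gcongr
        linarith) (fun q hq => by
      obtain ⟨p, hp, rfl⟩ := mem_image.1 hq
      simp only [hT, hev]
      exact hA p hp) (fun y hy c => by
      rw [filter_image, card_image_of_injective _ Tinj]
      convert hd y (by linarith) c.1 c.2 using 4 with p
      simp only [hT, dq, Prod.ext_iff]) (fun u => by
      rw [filter_image, card_image_of_injective _ Tinj]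
      exact hst u)
  rw [card_image_of_injective _ Tinj] at key
  have een : ∑ r ∈ range K1, en M' (R * s ^ 2 / 4) (ρ (G r)) =
      32 * s * ∑ r ∈ range K1, en M R (G r) := by
    rw [mul_sum]
    refine sum_congr rfl fun r _ => ?_
    simp only [en, hn, eL, eQ]
    field_simp
    ring
  rw [een] at key
  exact key.trans (le_of_eq (by ring))

end

end Pool.Agent.Lib.MP_108739_an.HA
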