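import Pool.Agent.Lib.MP_108739_an.HA.G0a

/-! From the bound on separated sets to the mixed norm estimate. -/

namespace Pool.Agent.Lib.MP_108739_an.HA

open MeasureTheory Set
open scoped ENNReal NNReal

theorem g0_piece {a b : ℝ → ℝ} (ha : Continuous a) (hb : Continuous b) (hG : G1At a b)
    {ε q : ℝ} (h0 : 0 < ε) (h1 : ε < 1) (hq : 3 * (1 - ε)⁻¹ < q) :
    ∃ C : ℝ, 0 ≤ C ∧ ∀ (G : ℝ → ℂ) (m : ℝ), Measurable G → (∀ u, ‖G u‖ ≤ 1) → 0 < m →
      ∫ u in Ioc (0 : ℝ) 1, ‖G u‖ ≤ m →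
      ∫⁻ x, Mx a b G x ^ q ≤ ENNReal.ofReal (C * m ^ (q - 2 * (1 - ε)⁻¹)) := by
  obtain ⟨C, hC, H⟩ := hG ε h0 h1
  set κ : ℝ := (1 - ε)⁻¹ with hκ
  have e1 : 0 < 1 - ε := by linarith
  have κ0 : 0 < κ := inv_pos.2 e1
  have θ1 : (2 : ℝ) ^ (-(q - 3 * κ)) < 1 :=
    Real.rpow_lt_one_of_one_lt_of_neg one_lt_two (by linarith)
  have θ2 : 0 ≤ (1 - (2 : ℝ) ^ (-(q - 3 * κ)))⁻¹ := inv_nonneg.2 (by linarith)
  refine ⟨2 * C ^ κ * (2 : ℝ) ^ (3 * κ) * (1 - (2 : ℝ) ^ (-(q - 3 * κ)))⁻¹, by positivity,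
    fun G m hG hG1 hm hi => ?_⟩
  have hint : IntegrableOn G (Ioc (0 : ℝ) 1) :=
    Measure.integrableOn_of_bounded (M := 1) (by simp) hG.aestronglyMeasurable
      (ae_of_all _ hG1)
  have h2 : ∫ u in (0 : ℝ)..1, ‖G u‖ ^ 2 ≤ m := by
    rw [intervalIntegral.integral_of_le zero_le_one]
    refine le_trans (integral_mono_of_nonneg (ae_of_all _ fun u => by positivity) hint.norm
      (ae_of_all _ fun u => ?_)) hi
    have := hG1 u
    have := norm_nonneg (G u)
    simp only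
    nlinarith
  have hle : ∀ x, Mx a b G x ≤ ENNReal.ofReal m := fun x => iSup_le fun y => by
    rw [← ofReal_norm]
    exact ENNReal.ofReal_le_ofReal ((norm_par_le a b G x y).trans hi)
  have hlev : ∀ l : ℝ, 0 < l → volume {x | ENNReal.ofReal l < Mx a b G x} ≤
      ENNReal.ofReal (2 * (C * m) ^ κ * l ^ (-(3 * κ))) := by
    intro l hl
    have hs : {x | ENNReal.ofReal l < Mx a b G x} ⊆ {x | ∃ y, l ≤ ‖Par a b G x y‖} := by
      intro x hx
      obtain ⟨y, hy⟩ := lt_iSup_iff.1 (show ENNReal.ofReal l < Mx a b G x from hx)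
      rw [← ofReal_norm, ENNReal.ofReal_lt_ofReal_iff_of_nonneg hl.le] at hy
      exact ⟨y, hy.le⟩
    refine (measure_mono hs).trans ((vol_le_of_sep (fun x y => l ≤ ‖Par a b G x y‖)
      ((C * m) ^ κ * l ^ (-(3 * κ))) fun X s1 s2 => ?_).trans (le_of_eq (by rw [mul_assoc])))
    have t1 := (H G X l hG hG1 s1 hl s2).trans (mul_le_mul_of_nonneg_left h2 hC.le)
    have t2 : (X.card : ℝ) ^ (1 - ε) ≤ C * m * l ^ (-(3 : ℝ)) := by
      rw [Real.rpow_neg hl.le, ← div_eq_mul_inv, le_div_iff₀ (by positivity)]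
      exact_mod_cast t1
    have t3 := Real.rpow_le_rpow (by positivity) t2 κ0.le
    rwa [← Real.rpow_mul (Nat.cast_nonneg _), hκ, mul_inv_cancel₀ e1.ne', Real.rpow_one, ← hκ,
      Real.mul_rpow (by positivity) (by positivity), ← Real.rpow_mul hl.le, neg_mul] at t3
  refine (dyad _ (mx_meas ha hb hint) hm (by positivity) (by positivity) hq hle hlev).trans
    (le_of_eq ?_)
  congr 1
  have : m ^ (q - 2 * κ) = m ^ κ * m ^ (q - 3 * κ) := by
    rw [← Real.rpow_add hm]; congr 1; ring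
  rw [this, Real.mul_rpow hC.le hm.le]
  ring

theorem g0 (a b : ℝ → ℝ) (ha : Continuous a) (hb : Continuous b) (hG : G1At a b) : G0At a b := by
  classical
  intro q r hq hr hqr
  have hq0 : 0 < q := by linarith
  have hr0 : 0 < r := by linarith
  obtain ⟨ε, h0, h1, hε1, hε2⟩ : ∃ ε : ℝ, 0 < ε ∧ ε < 1 ∧ 3 * (1 - ε)⁻¹ < q ∧
      0 < r * (q - 2 * (1 - ε)⁻¹) - q := by
    have c0 : ContinuousAt (fun ε : ℝ => (1 - ε)⁻¹) 0 :=
      (continuousAt_const.sub continuousAt_id).inv₀ (by norm_num)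
    have c1 : ∀ᶠ ε in nhds (0 : ℝ), 3 * (1 - ε)⁻¹ < q :=
      (continuousAt_const.mul c0).eventually_lt continuousAt_const (by simpa using hq)
    have c2 : ∀ᶠ ε in nhds (0 : ℝ), 0 < r * (q - 2 * (1 - ε)⁻¹) - q := by
      refine continuousAt_const.eventually_lt ((continuousAt_const.mul
        (continuousAt_const.sub (continuousAt_const.mul c0))).sub continuousAt_const) ?_
      have : r * (q - 2 * (1 - 0)⁻¹) - q = r * q * (1 - (2 / q + 1 / r)) := by field_simp; ring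
      rw [this]
      exact mul_pos (by positivity) (by linarith)
    have c3 : ∀ᶠ ε in nhds (0 : ℝ), ε < 1 := eventually_lt_nhds one_pos
    obtain ⟨ε, ⟨⟨d1, d2⟩, d3⟩, d4⟩ :=
      ((((c1.and c2).and c3).filter_mono nhdsWithin_le_nhds).and
        (self_mem_nhdsWithin (s := Ioi (0 : ℝ)))).exists
    exact ⟨ε, d4, d3, d1, d2⟩
  obtain ⟨C, hC, H⟩ := g0_piece ha hb hG h0 h1 hε1
  set α : ℝ := q - 2 * (1 - ε)⁻¹ with hα
  set δ : ℝ := r * α - q with hδ
  set θ : ℝ≥0∞ := ENNReal.ofReal ((2 : ℝ) ^ (-(δ / (2 * q)))) with hθ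
  set σ : ℝ≥0∞ := ENNReal.ofReal ((2 : ℝ) ^ (-(δ / 2))) with hσ
  have θ0 : θ ≠ 0 := (ENNReal.ofReal_pos.2 (by positivity)).ne'
  have θ1 : θ < 1 := ENNReal.ofReal_lt_one.2
    (Real.rpow_lt_one_of_one_lt_of_neg one_lt_two (neg_neg_of_pos (by positivity)))
  have σ1 : σ < 1 := ENNReal.ofReal_lt_one.2
    (Real.rpow_lt_one_of_one_lt_of_neg one_lt_two (neg_neg_of_pos (by positivity)))
  set K : ℝ≥0∞ := (1 - θ)⁻¹ ^ q * (ENNReal.ofReal (C * (2 : ℝ) ^ (r * α)) * (1 - σ)⁻¹) with hK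
  have Kt : K ^ (1 / q) ≠ ∞ := ENNReal.rpow_ne_top_of_nonneg (by positivity) (ENNReal.mul_ne_top
    (ENNReal.rpow_ne_top_of_nonneg hq0.le (ENNReal.inv_ne_top.2 (tsub_pos_of_lt θ1).ne'))
    (ENNReal.mul_ne_top ENNReal.ofReal_ne_top (ENNReal.inv_ne_top.2 (tsub_pos_of_lt σ1).ne')))
  refine ⟨(K ^ (1 / q)).toNNReal + 1, fun F hF hI => ?_⟩
  have hint : IntegrableOn F (Ioc (0 : ℝ) 1) := hI.1
  set N : ℝ≥0∞ := ∫⁻ u in Ioc (0 : ℝ) 1, ‖F u‖ₑ ^ r with hN
  rcases eq_or_ne N ∞ with ht | ht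
  · rw [ht, ENNReal.top_rpow_of_pos (by positivity), ENNReal.mul_top (by simp)]
    exact le_top
  have hm : Measurable fun u => ‖F u‖ₑ ^ r := hF.enorm.pow_const r
  rcases eq_or_ne N 0 with hz | hz
  · have z1 := (lintegral_eq_zero_iff hm).1 hz
    have z2 : ∀ x y, Par a b F x y = 0 := fun x y => by
      rw [par_eq]
      refine integral_eq_zero_of_ae ?_
      filter_upwards [z1] with u hu
      have : F u = 0 := by simpa [hr0, hr0.not_gt] using hu
      simp [this]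
    simp [z2, hq0]
  set n : ℝ := N.toReal ^ (1 / r) with hn
  have Np : 0 < N.toReal := ENNReal.toReal_pos hz ht
  have n0 : 0 < n := by positivity
  have nr : ENNReal.ofReal (n ^ r) = N := by
    rw [hn, ← Real.rpow_mul Np.le, one_div_mul_cancel hr0.ne', Real.rpow_one,
      ENNReal.ofReal_toReal ht]
  have nN : N ^ (1 / r) = ENNReal.ofReal n := by
    rw [hn, ← ENNReal.ofReal_rpow_of_nonneg Np.le (by positivity), ENNReal.ofReal_toReal ht]
  let A : ℕ → Set ℝ := fun k => {u | ‖F u‖ ≤ n * 2 ^ k}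
  have Am : ∀ k, MeasurableSet (A k) := fun k => measurableSet_le hF.norm measurable_const
  let S : ℕ → Set ℝ := disjointed A
  have Sm : ∀ k, MeasurableSet (S k) := MeasurableSet.disjointed Am
  have Su : ⋃ k, S k = univ := by
    rw [iUnion_disjointed, eq_univ_iff_forall]
    intro u
    obtain ⟨k, hk⟩ := pow_unbounded_of_one_lt (‖F u‖ / n) (one_lt_two (α := ℝ))
    rw [div_lt_iff₀ n0] at hk
    exact mem_iUnion.2 ⟨k, by simp only [A, mem_ofPred_eq]; linarith⟩
  let G : ℕ → ℝ → ℂ := fun k => (S k).indicator fun u => ((n * 2 ^ k : ℝ) : ℂ)⁻¹ * F u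
  have Gm : ∀ k, Measurable (G k) := fun k => (hF.const_mul _).indicator (Sm k)
  have G1 : ∀ k u, ‖G k u‖ ≤ (S k).indicator 1 u := by
    intro k u
    by_cases hu : u ∈ S k
    · have h : ‖F u‖ ≤ n * 2 ^ k := disjointed_subset A k hu
      have p : (0 : ℝ) < n * 2 ^ k := by positivity
      simp only [G, indicator_of_mem hu, Pi.one_apply]
      rw [norm_mul, norm_inv, Complex.norm_real, Real.norm_eq_abs, abs_of_pos p,
        inv_mul_le_iff₀ p]
      linarith
    · simp [G, indicator_of_notMem hu]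
  have G2 : ∀ k u, ‖G k u‖ ≤ 1 := fun k u =>
    (G1 k u).trans (indicator_le_self' (fun _ _ => zero_le_one) u)
  have vol : ∀ k : ℕ, (volume.restrict (Ioc (0 : ℝ) 1)) (S k) ≤
      ENNReal.ofReal ((2 : ℝ) ^ (r * (1 - k))) := by
    intro k
    rcases k with _ | j
    · refine (measure_mono (subset_univ _)).trans ?_
      rw [Measure.restrict_apply_univ, Real.volume_Ioc]
      refine ENNReal.ofReal_le_ofReal ?_
      simpa using Real.one_le_rpow one_le_two hr0.le
    have p : (0 : ℝ) < n * 2 ^ j := by positivity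
    have s1 : S (j + 1) ⊆ {u | ENNReal.ofReal ((n * 2 ^ j) ^ r) ≤ ‖F u‖ₑ ^ r} := by
      intro u hu
      have h : u ∉ A j := fun h' => by
        have hu' : u ∈ disjointed A (j + 1) := hu
        rw [disjointed_eq_inter_compl] at hu'
        exact mem_iInter₂.1 hu'.2 j (Nat.lt_succ_self j) h'
      simp only [A, mem_ofPred_eq, not_le] at h
      rw [mem_ofPred_eq, ← ENNReal.ofReal_rpow_of_nonneg p.le hr0.le, ← ofReal_norm]
      exact ENNReal.rpow_le_rpow (ENNReal.ofReal_le_ofReal h.le) hr0.le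
    refine (measure_mono s1).trans ((meas_ge_le_lintegral_div hm.aemeasurable
      (ENNReal.ofReal_pos.2 (by positivity)).ne' ENNReal.ofReal_ne_top).trans (le_of_eq ?_))
    rw [← hN, ← nr, ← ENNReal.ofReal_div_of_pos (by positivity)]
    congr 1
    rw [Real.mul_rpow n0.le (by positivity), ← Real.rpow_natCast, ← Real.rpow_mul zero_le_two,
      show r * (1 - ((j + 1 : ℕ) : ℝ)) = -(j * r) by push_cast; ring, Real.rpow_neg zero_le_two]
    have : 0 < n ^ r := by positivity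
    field_simp
  have Gi : ∀ k, IntegrableOn (G k) (Ioc (0 : ℝ) 1) := fun k =>
    Measure.integrableOn_of_bounded (M := 1) (by simp) (Gm k).aestronglyMeasurable
      (ae_of_all _ (G2 k))
  have G3 : ∀ k : ℕ, ∫ u in Ioc (0 : ℝ) 1, ‖G k u‖ ≤ (2 : ℝ) ^ (r * (1 - k)) := by
    intro k
    refine (integral_mono (Gi k).norm ((integrable_const (1 : ℝ)).indicator (Sm k))
      (G1 k)).trans ?_
    rw [show (S k).indicator (fun _ : ℝ => (1 : ℝ)) = (S k).indicator 1 from rfl,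
      integral_indicator_one (Sm k)]
    exact ENNReal.toReal_le_of_le_ofReal (by positivity) (vol k)
  have dec : ∀ x, Mx a b F x ≤ ∑' k : ℕ, ENNReal.ofReal (n * 2 ^ k) * Mx a b (G k) x := by
    intro x
    refine iSup_le fun y => ?_
    have i1 : Integrable (fun u => Complex.exp (Complex.I * ((x * a u + y * b u : ℝ) : ℂ)) * F u)
        (volume.restrict (Ioc (0 : ℝ) 1)) :=
      hint.norm.mono' ((Continuous.aestronglyMeasurable (by fun_prop)).mul hint.1)
        (ae_of_all _ fun u => by rw [norm_mul, norm_wave, one_mul])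
    have i2 := hasSum_integral_iUnion Sm (disjoint_disjointed A) i1.integrableOn
    rw [Su, Measure.restrict_univ, ← par_eq] at i2
    refine i2.enorm_le_of_bounded ENNReal.summable.hasSum fun k => ?_
    have p : (0 : ℝ) < n * 2 ^ k := by positivity
    have i3 : ∫ u in S k, Complex.exp (Complex.I * ((x * a u + y * b u : ℝ) : ℂ)) * F u
        ∂(volume.restrict (Ioc (0 : ℝ) 1)) = ((n * 2 ^ k : ℝ) : ℂ) * Par a b (G k) x y := by
      rw [par_eq, ← integral_indicator (Sm k), ← integral_const_mul]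
      refine integral_congr_ae (ae_of_all _ fun u => ?_)
      have p' : ((n * 2 ^ k : ℝ) : ℂ) ≠ 0 := Complex.ofReal_ne_zero.2 p.ne'
      by_cases hu : u ∈ S k
      · simp only [G, indicator_of_mem hu]
        field_simp
      · simp [G, indicator_of_notMem hu]
    rw [i3, enorm_mul, ← ofReal_norm, Complex.norm_real, Real.norm_eq_abs, abs_of_pos p]
    exact mul_le_mul_right (le_iSup (fun y => ‖Par a b (G k) x y‖ₑ) y) _
  have term : ∀ k : ℕ, ∫⁻ x, (θ⁻¹ ^ k) ^ q * (ENNReal.ofReal (n * 2 ^ k) * Mx a b (G k) x) ^ q ≤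
      ENNReal.ofReal n ^ q * ENNReal.ofReal (C * (2 : ℝ) ^ (r * α)) * σ ^ k := by
    intro k
    have mm := (mx_meas ha hb (Gi k)).pow_const q
    simp only [ENNReal.mul_rpow_of_nonneg _ _ hq0.le]
    rw [lintegral_const_mul _ (mm.const_mul _), lintegral_const_mul _ mm]
    refine (mul_le_mul_right (mul_le_mul_right
      (H (G k) _ (Gm k) (G2 k) (by positivity) (G3 k)) _) _).trans (le_of_eq ?_)
    rw [hθ, hσ, ← ENNReal.ofReal_inv_of_pos (by positivity), ← ENNReal.ofReal_pow (by positivity),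
      ← ENNReal.ofReal_pow (by positivity), ENNReal.ofReal_rpow_of_nonneg (by positivity) hq0.le,
      ENNReal.ofReal_rpow_of_nonneg (by positivity) hq0.le,
      ENNReal.ofReal_rpow_of_nonneg (by positivity) hq0.le,
      ← ENNReal.ofReal_mul (by positivity), ← ENNReal.ofReal_mul (by positivity),
      ← ENNReal.ofReal_mul (by positivity), ← ENNReal.ofReal_mul (by positivity)]
    congr 1
    have f1 : (((2 : ℝ) ^ (-(δ / (2 * q))))⁻¹ ^ k) ^ q = (2 : ℝ) ^ (δ / 2 * k) := by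
      rw [← Real.rpow_neg zero_le_two, ← Real.rpow_natCast, ← Real.rpow_mul zero_le_two,
        ← Real.rpow_mul zero_le_two]
      congr 1; field_simp
    have f2 : (n * 2 ^ k) ^ q = n ^ q * (2 : ℝ) ^ (k * q) := by
      rw [Real.mul_rpow n0.le (by positivity), ← Real.rpow_natCast, ← Real.rpow_mul zero_le_two]
    have f3 : ((2 : ℝ) ^ (r * (1 - k))) ^ α = (2 : ℝ) ^ (r * (1 - k) * α) := by
      rw [← Real.rpow_mul zero_le_two]
    have f4 : ((2 : ℝ) ^ (-(δ / 2))) ^ k = (2 : ℝ) ^ (-(δ / 2) * k) := by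
      rw [← Real.rpow_natCast, ← Real.rpow_mul zero_le_two]
    have f5 : (2 : ℝ) ^ (δ / 2 * k) * (2 : ℝ) ^ (k * q) * (2 : ℝ) ^ (r * (1 - k) * α) =
        (2 : ℝ) ^ (r * α) * (2 : ℝ) ^ (-(δ / 2) * k) := by
      simp only [← Real.rpow_add two_pos]
      congr 1; rw [hδ]; ring
    rw [f1, f2, f3, f4]
    linear_combination (n ^ q * C) * f5
  have main : ∫⁻ x, Mx a b F x ^ q ≤ K * ENNReal.ofReal n ^ q := by
    have m1 : ∀ k : ℕ, Measurable fun x =>
        (θ⁻¹ ^ k) ^ q * (ENNReal.ofReal (n * 2 ^ k) * Mx a b (G k) x) ^ q := fun k =>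
      (((mx_meas ha hb (Gi k)).const_mul _).pow_const q).const_mul _
    refine (lintegral_mono fun x => (ENNReal.rpow_le_rpow (dec x) hq0.le).trans
      (tsum_rpow_le _ θ0 θ1.ne_top hq0)).trans ?_
    rw [lintegral_const_mul _ (Measurable.tsum m1),
      lintegral_tsum fun k => (m1 k).aemeasurable]
    refine (mul_le_mul_right (ENNReal.tsum_le_tsum term) _).trans (le_of_eq ?_)
    rw [ENNReal.tsum_mul_left, ENNReal.tsum_geometric, hK]
    ring
  refine (ENNReal.rpow_le_rpow main (by positivity)).trans ?_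
  rw [ENNReal.mul_rpow_of_nonneg _ _ (by positivity), ← ENNReal.rpow_mul,
    mul_one_div_cancel hq0.ne', ENNReal.rpow_one, nN]
  gcongr
  rw [ENNReal.coe_add, ENNReal.coe_toNNReal Kt]
  exact le_self_add

end Pool.Agent.Lib.MP_108739_an.HA
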