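import Pool.Agent.Lib.MP_108739_an.HA.Defs

/-! From the graph model to a general curved arc: finitely many charts. -/

namespace Pool.Agent.Lib.MP_108739_an.HA

open Finset MeasureTheory
open scoped Real

noncomputable section

namespace G1

def clp (s t u : ℝ) : ℝ := max s (min t u)

lemma clp_mem {s t : ℝ} (h : s ≤ t) (u : ℝ) : clp s t u ∈ Set.Icc s t :=
  ⟨le_max_left _ _, max_le h (min_le_left _ _)⟩

lemma clp_of {s t u : ℝ} (h : u ∈ Set.Icc s t) : clp s t u = u := by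
  unfold clp
  rw [min_eq_right h.2, max_eq_right h.1]

lemma clp_mono (s t : ℝ) {u v : ℝ} (h : u ≤ v) : clp s t u ≤ clp s t v :=
  max_le_max le_rfl (min_le_min le_rfl h)

lemma clp_lip (s t : ℝ) {u v : ℝ} (h : u ≤ v) : clp s t v - clp s t u ≤ v - u := by
  unfold clp
  simp only [max_def, min_def]
  split_ifs <;> linarith

lemma clp_cont (s t : ℝ) : Continuous (clp s t) := by
  unfold clp
  fun_prop

lemma exists_curve (α β g α1 : ℝ → ℝ) (s t : ℝ) (hst : s ≤ t)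
    (h0 : ∀ u ∈ Set.Icc s t, ∀ v ∈ Set.Icc s t, u ≤ v → v - u ≤ α v - α u)
    (h1 : ∀ u ∈ Set.Icc s t, ∀ v ∈ Set.Icc s t, u ≤ v → α v - α u ≤ g v - g u)
    (h2 : ∀ u ∈ Set.Icc s t, ∀ v ∈ Set.Icc s t, u ≤ v → g v - g u ≤ 2 * (α v - α u))
    (hg : |g s| ≤ 1) (hα : ∀ u, HasDerivAt α (α1 u) u)
    (hβ : ∀ u ∈ Set.Icc s t, HasDerivAt β (g u * α1 u) u) :
    ∃ φ ψ υ : ℝ → ℝ, Curve φ ψ ∧ Continuous υ ∧
      ∀ u ∈ Set.Icc s t, υ (α u - α s) = u ∧ φ (α u - α s) = β u - β s := by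
  have hαc : Continuous α := continuous_iff_continuousAt.2 fun u => (hα u).continuousAt
  obtain ⟨A, hA⟩ : ∃ A : ℝ → ℝ, ∀ u, A u = α (clp s t u) - α s + (u - clp s t u) := ⟨_, fun _ => rfl⟩
  obtain ⟨G, hG⟩ : ∃ G : ℝ → ℝ, ∀ u, G u = g (clp s t u) + (u - clp s t u) := ⟨_, fun _ => rfl⟩
  have hAe : ∀ u v, u ≤ v → v - u ≤ A v - A u := fun u v h => by
    have := h0 _ (clp_mem hst u) _ (clp_mem hst v) (clp_mono s t h)
    rw [hA, hA]; linarith
  have hAc : Continuous A := by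
    have : A = fun u => α (clp s t u) - α s + (u - clp s t u) := funext hA
    rw [this]
    exact ((hαc.comp (clp_cont s t)).sub continuous_const).add (continuous_id.sub (clp_cont s t))
  have hAm : StrictMono A := fun u v h => by have := hAe u v h.le; linarith
  have hAs : Function.Surjective A := fun y => by
    have m0 : 0 ≤ |y - A 0| := abs_nonneg _
    have e1 := hAe (-|y - A 0|) 0 (by linarith)
    have e2 := hAe 0 |y - A 0| m0
    have e3 := le_abs_self (y - A 0)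
    have e4 := neg_abs_le (y - A 0)
    obtain ⟨u, -, hu⟩ := intermediate_value_Icc (a := -|y - A 0|) (b := |y - A 0|) (by linarith)
      hAc.continuousOn (show y ∈ Set.Icc (A (-|y - A 0|)) (A |y - A 0|) from
        ⟨by linarith, by linarith⟩)
    exact ⟨u, hu⟩
  obtain ⟨υ, hυc, hυm, hυ1, hυ2⟩ : ∃ υ : ℝ → ℝ, Continuous υ ∧ Monotone υ ∧ (∀ u, υ (A u) = u) ∧
      ∀ ξ, A (υ ξ) = ξ :=
    ⟨(hAm.orderIsoOfSurjective A hAs).symm, (hAm.orderIsoOfSurjective A hAs).symm.continuous,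
      (hAm.orderIsoOfSurjective A hAs).symm.monotone,
      fun u => hAm.orderIsoOfSurjective_symm_apply_self A hAs u,
      fun ξ => hAm.orderIsoOfSurjective_self_symm_apply A hAs ξ⟩
  have hAI : ∀ u ∈ Set.Icc s t, A u = α u - α s := fun u hu => by rw [hA, clp_of hu]; ring
  have hGI : ∀ u ∈ Set.Icc s t, G u = g u := fun u hu => by rw [hG, clp_of hu]; ring
  have hs : s ∈ Set.Icc s t := ⟨le_rfl, hst⟩
  obtain ⟨ψ, hψ⟩ : ∃ ψ : ℝ → ℝ, ∀ ξ, ψ ξ = G (υ ξ) := ⟨_, fun _ => rfl⟩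
  have lo : ∀ x y, x ≤ y → y - x ≤ ψ y - ψ x := fun x y h => by
    have := h1 _ (clp_mem hst (υ x)) _ (clp_mem hst (υ y)) (clp_mono s t (hυm h))
    have e1 := hυ2 x
    have e2 := hυ2 y
    rw [hA] at e1 e2
    rw [hψ, hψ, hG, hG]; linarith
  have hi : ∀ x y, x ≤ y → ψ y - ψ x ≤ 2 * (y - x) := fun x y h => by
    have := h2 _ (clp_mem hst (υ x)) _ (clp_mem hst (υ y)) (clp_mono s t (hυm h))
    have e0 := clp_lip s t (hυm h)
    have e1 := hυ2 x
    have e2 := hυ2 y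
    rw [hA] at e1 e2
    rw [hψ, hψ, hG, hG]; linarith
  have hψc : Continuous ψ := by
    refine (LipschitzWith.of_dist_le_mul (K := 2) fun x y => ?_).continuous
    rw [Real.dist_eq, Real.dist_eq]
    rcases le_total x y with h | h
    · have a1 := lo x y h
      have a2 := hi x y h
      rw [abs_of_nonpos (by linarith), abs_of_nonpos (by linarith)]
      push_cast; linarith
    · have a1 := lo y x h
      have a2 := hi y x h
      rw [abs_of_nonneg (by linarith), abs_of_nonneg (by linarith)]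
      push_cast; linarith
  obtain ⟨φ, hφ⟩ : ∃ φ : ℝ → ℝ, φ = fun ξ => ∫ x in (0 : ℝ)..ξ, ψ x := ⟨_, rfl⟩
  have hφd : ∀ ξ, HasDerivAt φ (ψ ξ) ξ := fun ξ => by
    rw [hφ]; exact (hψc.integral_hasStrictDerivAt 0 ξ).hasDerivAt
  have hφ0 : φ 0 = 0 := by rw [hφ]; simp
  have hψI : ∀ u ∈ Set.Icc s t, ψ (α u - α s) = g u := fun u hu => by
    rw [hψ, ← hAI u hu, hυ1, hGI u hu]
  refine ⟨φ, ψ, υ, ⟨fun x y => ?_, lo, hi, by rw [hφ0]; simp, ?_⟩, hυc, fun u hu => ⟨?_, ?_⟩⟩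
  · have e : φ y - φ x = ∫ z in x..y, ψ z := by
      rw [hφ]
      exact intervalIntegral.integral_interval_sub_left (hψc.intervalIntegrable _ _)
        (hψc.intervalIntegrable _ _)
    rcases le_total x y with h | h
    · have := intervalIntegral.integral_mono_on (μ := volume) (f := fun _ => ψ x) (g := ψ) h
        (continuous_const.intervalIntegrable _ _) (hψc.intervalIntegrable _ _)
        (fun z hz => by have := lo x z hz.1; have := hz.1; linarith)
      rw [intervalIntegral.integral_const, smul_eq_mul] at this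
      linarith
    · have := intervalIntegral.integral_mono_on (μ := volume) (f := ψ) (g := fun _ => ψ x) h
        (hψc.intervalIntegrable _ _) (continuous_const.intervalIntegrable _ _)
        (fun z hz => by have := lo z x hz.2; have := hz.2; linarith)
      rw [intervalIntegral.integral_const, smul_eq_mul] at this
      rw [intervalIntegral.integral_symm] at e
      linarith
  · have := hψI s hs
    rw [sub_self] at this
    rw [this]; exact hg
  · rw [← hAI u hu, hυ1]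
  · have hd : ∀ v ∈ Set.Icc s t, HasDerivAt (fun w => φ (α w - α s) - β w) 0 v := fun v hv => by
      have := ((hφd (α v - α s)).comp v ((hα v).sub_const (α s))).sub (hβ v hv)
      rw [hψI v hv, sub_self] at this
      exact this
    have := constant_of_has_deriv_right_zero (f := fun w => φ (α w - α s) - β w) (a := s) (b := t)
      (fun v hv => (hd v hv).continuousAt.continuousWithinAt)
      (fun v hv => (hd v ⟨hv.1, hv.2.le⟩).hasDerivWithinAt) u hu
    simp only [sub_self, hφ0] at this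
    linarith

lemma norm_ex (x : ℝ) : ‖ex x‖ = 1 := by
  have : ex x = Complex.exp (((2 * π * x : ℝ) : ℂ) * Complex.I) := by
    unfold ex; congr 1; push_cast; ring
  rw [this, Complex.norm_exp_ofReal_mul_I]

lemma ex_add (x y : ℝ) : ex (x + y) = ex x * ex y := by
  unfold ex
  rw [← Complex.exp_add]; congr 1; push_cast; ring

lemma sq_int {F : ℝ → ℂ} (hF : Measurable F) (hb : ∀ u, ‖F u‖ ≤ 1) (s t : ℝ) :
    IntegrableOn (fun u => ‖F u‖ ^ 2) (Set.Icc s t) := by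
  refine Measure.integrableOn_of_bounded (M := 1) (by simp)
    (hF.norm.pow_const 2).aestronglyMeasurable (Filter.Eventually.of_forall fun u => ?_)
  rw [Real.norm_eq_abs, abs_of_nonneg (by positivity)]
  exact pow_le_one₀ (norm_nonneg _) (hb u)

lemma change (α β α1 φ υ : ℝ → ℝ) (s t : ℝ) (hst : s ≤ t)
    (h0 : ∀ u ∈ Set.Icc s t, ∀ v ∈ Set.Icc s t, u ≤ v → v - u ≤ α v - α u)
    (hα : ∀ u, HasDerivAt α (α1 u) u) (hα1 : Continuous α1) (hone : ∀ u ∈ Set.Icc s t, 1 ≤ α1 u)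
    (hlen : α t - α s ≤ 1 / 2) (hυ : Continuous υ)
    (hI : ∀ u ∈ Set.Icc s t, υ (α u - α s) = u ∧ φ (α u - α s) = β u - β s)
    (F : ℝ → ℂ) (hF : Measurable F) (hb : ∀ u, ‖F u‖ ≤ 1) :
    ∃ f : ℝ → ℂ, Measurable f ∧ (∀ ξ, ‖f ξ‖ ≤ 1) ∧
      (∀ P : ℝ × ℝ, ‖Ext φ 0 (1 / 2) f P‖ =
        ‖∫ u in Set.Icc s t, ex (P.1 * α u + P.2 * β u) * F u‖) ∧
      ∫ ξ in (0 : ℝ)..(1 / 2), ‖f ξ‖ ^ 2 ≤ ∫ u in Set.Icc s t, ‖F u‖ ^ 2 := by
  have hαc : Continuous α := continuous_iff_continuousAt.2 fun u => (hα u).continuousAt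
  obtain ⟨J, hJ⟩ : ∃ J : Set ℝ, J = (fun u => α u - α s) '' Set.Icc s t := ⟨_, rfl⟩
  have hJm : MeasurableSet J := by
    rw [hJ]; exact (isCompact_Icc.image (hαc.sub continuous_const)).measurableSet
  have hs : s ∈ Set.Icc s t := ⟨le_rfl, hst⟩
  have ht : t ∈ Set.Icc s t := ⟨hst, le_rfl⟩
  have hJs : J ⊆ Set.Icc 0 (1 / 2) := by
    rw [hJ]
    rintro _ ⟨u, hu, rfl⟩
    have a1 := h0 s hs u hu hu.1
    have a2 := h0 u hu t ht hu.2
    have := hu.1
    have := hu.2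
    constructor <;> dsimp only <;> linarith
  have hinj : Set.InjOn (fun u => α u - α s) (Set.Icc s t) := fun u hu v hv h => by
    have e1 := (hI u hu).1
    have e2 := (hI v hv).1
    dsimp only at h
    rw [h] at e1
    rw [← e1, e2]
  have key : ∀ {E : Type} [NormedAddCommGroup E] [NormedSpace ℝ E] (H : ℝ → E),
      ∫ ξ in (0 : ℝ)..(1 / 2), J.indicator H ξ =
        ∫ u in Set.Icc s t, |α1 u| • H (α u - α s) := fun H => by
    rw [intervalIntegral.integral_of_le (by norm_num), ← integral_Icc_eq_integral_Ioc,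
      setIntegral_indicator hJm, Set.inter_eq_right.2 hJs, hJ]
    exact integral_image_eq_integral_abs_deriv_smul measurableSet_Icc
      (fun u _ => ((hα u).sub_const (α s)).hasDerivWithinAt) hinj H
  refine ⟨J.indicator fun ξ => F (υ ξ) / (α1 (υ ξ) : ℂ), ?_, fun ξ => ?_, fun P => ?_, ?_⟩
  · exact ((hF.comp hυ.measurable).div
      (Complex.measurable_ofReal.comp (hα1.comp hυ).measurable)).indicator hJm
  · by_cases h : ξ ∈ J
    · rw [Set.indicator_of_mem h]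
      rw [hJ] at h
      obtain ⟨u, hu, rfl⟩ := h
      have h1 := hone u hu
      dsimp only
      rw [(hI u hu).1, norm_div, Complex.norm_real, Real.norm_eq_abs, abs_of_pos (by linarith),
        div_le_one (by linarith)]
      exact (hb u).trans h1
    · rw [Set.indicator_of_notMem h]; simp
  · unfold Ext
    have e1 : ∀ ξ, J.indicator (fun ξ => F (υ ξ) / (α1 (υ ξ) : ℂ)) ξ * ex (P.1 * ξ + P.2 * φ ξ) =
        J.indicator (fun ξ => F (υ ξ) / (α1 (υ ξ) : ℂ) * ex (P.1 * ξ + P.2 * φ ξ)) ξ := fun ξ => by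
      by_cases h : ξ ∈ J
      · rw [Set.indicator_of_mem h, Set.indicator_of_mem h]
      · rw [Set.indicator_of_notMem h, Set.indicator_of_notMem h, zero_mul]
    simp only [e1]
    rw [key]
    have e2 : ∫ u in Set.Icc s t, |α1 u| • (F (υ (α u - α s)) / (α1 (υ (α u - α s)) : ℂ) *
        ex (P.1 * (α u - α s) + P.2 * φ (α u - α s))) =
        ∫ u in Set.Icc s t, ex (-(P.1 * α s + P.2 * β s)) * (ex (P.1 * α u + P.2 * β u) * F u) := by
      refine setIntegral_congr_fun measurableSet_Icc fun u hu => ?_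
      have h1 := hone u hu
      have h2 : (α1 u : ℂ) ≠ 0 := by exact_mod_cast (by linarith : α1 u ≠ 0)
      rw [(hI u hu).1, (hI u hu).2, abs_of_pos (by linarith), ← mul_assoc, ← ex_add,
        Complex.real_smul,
        show -(P.1 * α s + P.2 * β s) + (P.1 * α u + P.2 * β u) =
          P.1 * (α u - α s) + P.2 * (β u - β s) by ring]
      field_simp
    rw [e2, integral_const_mul, norm_mul, norm_ex, one_mul]
  · have e1 : ∀ ξ, ‖J.indicator (fun ξ => F (υ ξ) / (α1 (υ ξ) : ℂ)) ξ‖ ^ 2 =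
        J.indicator (fun ξ => ‖F (υ ξ) / (α1 (υ ξ) : ℂ)‖ ^ 2) ξ := fun ξ => by
      by_cases h : ξ ∈ J
      · rw [Set.indicator_of_mem h, Set.indicator_of_mem h]
      · rw [Set.indicator_of_notMem h, Set.indicator_of_notMem h]; simp
    simp only [e1]
    rw [key]
    refine integral_mono_of_nonneg (Filter.Eventually.of_forall fun u => ?_) (sq_int hF hb s t)
      ((ae_restrict_mem measurableSet_Icc).mono fun u hu => ?_)
    · dsimp only
      rw [smul_eq_mul]; positivity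
    · have h1 := hone u hu
      dsimp only
      rw [(hI u hu).1, norm_div, Complex.norm_real, Real.norm_eq_abs, abs_of_pos (by linarith),
        smul_eq_mul, div_pow]
      have : α1 u * (‖F u‖ ^ 2 / α1 u ^ 2) = ‖F u‖ ^ 2 / α1 u := by field_simp
      rw [this]
      exact div_le_self (by positivity) h1

lemma kt_of_sep (X : Finset (ℝ × ℝ)) (k1 k2 : ℝ)
    (h : ∀ P ∈ X, ∀ Q ∈ X, P ≠ Q → 1 ≤ |(k1 * P.1 + k2 * P.2) - (k1 * Q.1 + k2 * Q.2)|) :
    KT (2 * (|k1| + |k2|) + 2) X := by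
  classical
  intro z r hr
  obtain ⟨m, hm⟩ : ∃ m, m = k1 * z.1 + k2 * z.2 := ⟨_, rfl⟩
  obtain ⟨K, hK⟩ : ∃ K, K = |k1| + |k2| := ⟨_, rfl⟩
  have hK0 : 0 ≤ K := by rw [hK]; positivity
  have hKr : 0 ≤ K * r := by positivity
  refine le_trans (Nat.cast_le.2 (card_le_card_of_injOn (t := Icc ⌊m - K * r⌋ ⌊m + K * r⌋)
    (fun P => ⌊k1 * P.1 + k2 * P.2⌋) (fun P hP => ?_) (fun P hP Q hQ e => ?_))) ?_
  · obtain ⟨-, a1, a2, a3, a4⟩ := mem_filter.1 (mem_coe.1 hP)
    have b1 : |k1 * (P.1 - z.1)| ≤ |k1| * r := by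
      rw [abs_mul]
      exact mul_le_mul_of_nonneg_left (abs_le.2 ⟨by linarith, by linarith⟩) (abs_nonneg _)
    have b2 : |k2 * (P.2 - z.2)| ≤ |k2| * r := by
      rw [abs_mul]
      exact mul_le_mul_of_nonneg_left (abs_le.2 ⟨by linarith, by linarith⟩) (abs_nonneg _)
    rw [abs_le] at b1 b2
    rw [mem_coe, mem_Icc]
    constructor <;> apply Int.floor_le_floor <;> rw [hm, hK] <;> nlinarith [b1.1, b1.2, b2.1, b2.2]
  · by_contra hne
    have a1 := h P (mem_filter.1 (mem_coe.1 hP)).1 Q (mem_filter.1 (mem_coe.1 hQ)).1 hne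
    have a2 := Int.abs_sub_lt_one_of_floor_eq_floor e
    linarith
  · have c0 : ⌊m - K * r⌋ ≤ ⌊m + K * r⌋ := Int.floor_le_floor (by linarith)
    have c1 : ((#(Icc ⌊m - K * r⌋ ⌊m + K * r⌋) : ℕ) : ℤ) = ⌊m + K * r⌋ + 1 - ⌊m - K * r⌋ :=
      Int.card_Icc_of_le _ _ (by omega)
    have c2 : ((#(Icc ⌊m - K * r⌋ ⌊m + K * r⌋) : ℕ) : ℝ) =
        (⌊m + K * r⌋ : ℝ) + 1 - ⌊m - K * r⌋ := by exact_mod_cast c1
    have c3 := Int.floor_le (m + K * r)
    have c4 := Int.lt_floor_add_one (m - K * r)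
    rw [c2, ← hK]
    nlinarith

lemma mono_of (h h1 : ℝ → ℝ) (s t : ℝ) (hd : ∀ u ∈ Set.Icc s t, HasDerivAt h (h1 u) u)
    (hp : ∀ u ∈ Set.Icc s t, 0 ≤ h1 u) :
    ∀ u ∈ Set.Icc s t, ∀ v ∈ Set.Icc s t, u ≤ v → h u ≤ h v := fun _ hu _ hv huv =>
  monotoneOn_of_hasDerivWithinAt_nonneg (f' := h1) (convex_Icc s t)
    (fun w hw => (hd w hw).continuousAt.continuousWithinAt)
    (fun w hw => (hd w (interior_subset hw)).hasDerivWithinAt)
    (fun w hw => hp w (interior_subset hw)) hu hv huv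

/-- A normalised chart around `u0`. -/
lemma chart (α α1 α2 β β1 β2 : ℝ → ℝ) (u0 : ℝ) (hα : ∀ u, HasDerivAt α (α1 u) u)
    (hα1 : ∀ u, HasDerivAt α1 (α2 u) u) (hα2 : Continuous α2) (hβ : ∀ u, HasDerivAt β (β1 u) u)
    (hβ1 : ∀ u, HasDerivAt β1 (β2 u) u) (hβ2 : Continuous β2) (e1 : α1 u0 = 2) (e2 : α2 u0 = 0)
    (e3 : β1 u0 = 0) (e4 : β2 u0 = 6) :
    ∃ δ : ℝ, 0 < δ ∧ ∀ s t, u0 - δ ≤ s → s ≤ t → t ≤ u0 + δ → ∃ φ ψ : ℝ → ℝ, Curve φ ψ ∧
      ∀ F : ℝ → ℂ, Measurable F → (∀ u, ‖F u‖ ≤ 1) →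
        ∃ f : ℝ → ℂ, Measurable f ∧ (∀ ξ, ‖f ξ‖ ≤ 1) ∧
          (∀ P : ℝ × ℝ, ‖Ext φ 0 (1 / 2) f P‖ =
            ‖∫ u in Set.Icc s t, ex (P.1 * α u + P.2 * β u) * F u‖) ∧
          ∫ ξ in (0 : ℝ)..(1 / 2), ‖f ξ‖ ^ 2 ≤ ∫ u in Set.Icc s t, ‖F u‖ ^ 2 := by
  have c0 : Continuous α := continuous_iff_continuousAt.2 fun u => (hα u).continuousAt
  have c1 : Continuous α1 := continuous_iff_continuousAt.2 fun u => (hα1 u).continuousAt
  have c2 : Continuous β1 := continuous_iff_continuousAt.2 fun u => (hβ1 u).continuousAt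
  have v1 : ∀ᶠ u in nhds u0, 1 < α1 u :=
    continuousAt_const.eventually_lt c1.continuousAt (by rw [e1]; norm_num)
  have v2 : ∀ᶠ u in nhds u0, α1 u ^ 3 < β2 u * α1 u - β1 u * α2 u :=
    ContinuousAt.eventually_lt (f := fun u => α1 u ^ 3) (g := fun u => β2 u * α1 u - β1 u * α2 u)
      (by fun_prop) (by fun_prop) (by simp only [e1, e2, e3, e4]; norm_num)
  have v3 : ∀ᶠ u in nhds u0, β2 u * α1 u - β1 u * α2 u < 2 * α1 u ^ 3 :=
    ContinuousAt.eventually_lt (g := fun u => 2 * α1 u ^ 3)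
      (f := fun u => β2 u * α1 u - β1 u * α2 u)
      (by fun_prop) (by fun_prop) (by simp only [e1, e2, e3, e4]; norm_num)
  have v4 : ∀ᶠ u in nhds u0, |β1 u| < 1 :=
    ContinuousAt.eventually_lt (f := fun u => |β1 u|) (g := fun _ => (1 : ℝ))
      (by fun_prop) (by fun_prop) (by simp only [e3]; norm_num)
  have v5 : ∀ᶠ u in nhds u0, |α u - α u0| < 1 / 4 :=
    ContinuousAt.eventually_lt (f := fun u => |α u - α u0|) (g := fun _ => (1 / 4 : ℝ))
      (by fun_prop) (by fun_prop) (by simp)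
  obtain ⟨η, hη, hall⟩ := Metric.eventually_nhds_iff.1 (v1.and (v2.and (v3.and (v4.and v5))))
  refine ⟨η / 2, by linarith, fun s t hs hst ht => ?_⟩
  have hin : ∀ u ∈ Set.Icc s t, dist u u0 < η := fun u hu => by
    rw [Real.dist_eq, abs_lt]
    have := hu.1
    have := hu.2
    constructor <;> linarith
  have hone : ∀ u ∈ Set.Icc s t, 1 < α1 u := fun u hu => (hall (hin u hu)).1
  have hg : ∀ u ∈ Set.Icc s t, HasDerivAt (fun u => β1 u / α1 u)
      ((β2 u * α1 u - β1 u * α2 u) / α1 u ^ 2) u := fun u hu =>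
    (hβ1 u).div (hα1 u) (by have := hone u hu; linarith)
  have h0 : ∀ u ∈ Set.Icc s t, ∀ v ∈ Set.Icc s t, u ≤ v → v - u ≤ α v - α u :=
    fun u hu v hv huv => by
      have := mono_of (fun u => α u - u) (fun u => α1 u - 1) s t
        (fun w _ => (hα w).sub (hasDerivAt_id w)) (fun w hw => by have := hone w hw; linarith)
        u hu v hv huv
      linarith
  have hs' : s ∈ Set.Icc s t := ⟨le_rfl, hst⟩
  have ht' : t ∈ Set.Icc s t := ⟨hst, le_rfl⟩
  obtain ⟨φ, ψ, υ, hc, hυ, hI⟩ := exists_curve α β (fun u => β1 u / α1 u) α1 s t hst h0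
    (fun u hu v hv huv => by
      have := mono_of (fun u => β1 u / α1 u - α u)
        (fun u => (β2 u * α1 u - β1 u * α2 u) / α1 u ^ 2 - α1 u) s t
        (fun w hw => (hg w hw).sub (hα w)) (fun w hw => by
          have a1 := hone w hw
          have a2 := (hall (hin w hw)).2.1
          rw [sub_nonneg, le_div_iff₀ (by positivity)]
          nlinarith) u hu v hv huv
      linarith)
    (fun u hu v hv huv => by
      have := mono_of (fun u => 2 * α u - β1 u / α1 u)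
        (fun u => 2 * α1 u - (β2 u * α1 u - β1 u * α2 u) / α1 u ^ 2) s t
        (fun w hw => ((hα w).const_mul 2).sub (hg w hw)) (fun w hw => by
          have a1 := hone w hw
          have a2 := (hall (hin w hw)).2.2.1
          rw [sub_nonneg, div_le_iff₀ (by positivity)]
          nlinarith) u hu v hv huv
      linarith)
    (by
      have a1 := hone s hs'
      have a2 := (hall (hin s hs')).2.2.2.1
      rw [abs_div, abs_of_pos (show 0 < α1 s by linarith), div_le_one (by linarith)]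
      linarith)
    hα (fun u hu => by
      have a1 := hone u hu
      have : β1 u / α1 u * α1 u = β1 u := by field_simp
      rw [this]; exact hβ u)
  refine ⟨φ, ψ, hc, fun F hF hb => change α β α1 φ υ s t hst h0 hα c1
    (fun u hu => (hone u hu).le) ?_ hυ hI F hF hb⟩
  have a1 := abs_lt.1 (hall (hin s hs')).2.2.2.2
  have a2 := abs_lt.1 (hall (hin t ht')).2.2.2.2
  linarith [a1.1, a2.2]

def Good (a b : ℝ → ℝ) (ε : ℝ) (T : Set ℝ) : Prop := ∃ C : ℝ, 0 < C ∧ ∀ (F : ℝ → ℂ)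
  (X : Finset (ℝ × ℝ)) (lam : ℝ), Measurable F → (∀ u, ‖F u‖ ≤ 1) → (∀ u ∉ T, F u = 0) →
  (∀ p ∈ X, ∀ q ∈ X, p ≠ q → 1 ≤ |p.1 - q.1|) → 0 < lam → (∀ p ∈ X, lam ≤ ‖Par a b F p.1 p.2‖) →
  (#X : ℝ) ^ (1 - ε) * lam ^ 3 ≤ C * ∫ u in (0 : ℝ)..1, ‖F u‖ ^ 2

lemma sq_ii {F : ℝ → ℂ} (hF : Measurable F) (hb : ∀ u, ‖F u‖ ≤ 1) :
    IntervalIntegrable (fun u => ‖F u‖ ^ 2) volume 0 1 :=
  (intervalIntegrable_iff_integrableOn_Icc_of_le zero_le_one).2 (sq_int hF hb 0 1)

lemma par_ii {a b : ℝ → ℝ} (ha : Continuous a) (hb' : Continuous b) {F : ℝ → ℂ} (hF : Measurable F)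
    (hb : ∀ u, ‖F u‖ ≤ 1) (x y : ℝ) : IntervalIntegrable
      (fun u => Complex.exp (Complex.I * ((x * a u + y * b u : ℝ) : ℂ)) * F u) volume 0 1 := by
  refine IntervalIntegrable.continuousOn_mul ?_ (Continuous.continuousOn (by fun_prop))
  refine (intervalIntegrable_iff_integrableOn_Icc_of_le zero_le_one).2 ?_
  exact Measure.integrableOn_of_bounded (M := 1) (by simp) hF.aestronglyMeasurable
    (Filter.Eventually.of_forall hb)

lemma ind_le (T : Set ℝ) (F : ℝ → ℂ) (u : ℝ) : ‖T.indicator F u‖ ≤ ‖F u‖ :=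
  norm_indicator_le_norm_self F u

lemma good_union {a b : ℝ → ℝ} (ha : Continuous a) (hb' : Continuous b) {ε : ℝ} (h0 : 0 < ε)
    (h1 : ε < 1) {S T : Set ℝ} (hS : MeasurableSet S) (gS : Good a b ε S) (gT : Good a b ε T) :
    Good a b ε (S ∪ T) := by
  classical
  obtain ⟨C1, p1, g1⟩ := gS
  obtain ⟨C2, p2, g2⟩ := gT
  refine ⟨16 * (C1 + C2), by positivity, fun F X lam hF hb hz hsep hl hX => ?_⟩
  have hI : 0 ≤ ∫ u in (0 : ℝ)..1, ‖F u‖ ^ 2 :=
    intervalIntegral.integral_nonneg zero_le_one fun u _ => by positivity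
  have bd : ∀ U : Set ℝ, ∀ u, ‖U.indicator F u‖ ≤ 1 := fun U u => (ind_le U F u).trans (hb u)
  have sm : ∀ U : Set ℝ, MeasurableSet U →
      ∫ u in (0 : ℝ)..1, ‖U.indicator F u‖ ^ 2 ≤ ∫ u in (0 : ℝ)..1, ‖F u‖ ^ 2 := fun U hU =>
    intervalIntegral.integral_mono_on zero_le_one (sq_ii (hF.indicator hU) (bd U)) (sq_ii hF hb)
      fun u _ => pow_le_pow_left₀ (norm_nonneg _) (ind_le U F u) 2
  have split : ∀ x y, Par a b F x y = Par a b (S.indicator F) x y + Par a b (Sᶜ.indicator F) x y :=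
    fun x y => by
      unfold Par
      rw [← intervalIntegral.integral_add (par_ii ha hb' (hF.indicator hS) (bd S) x y)
        (par_ii ha hb' (hF.indicator hS.compl) (bd Sᶜ) x y)]
      congr 1
      funext u
      rw [← mul_add, Set.indicator_self_add_compl_apply]
  have fin : ∀ (Y : Finset (ℝ × ℝ)) (C : ℝ), #X ≤ 2 * #Y → C ≤ C1 + C2 →
      (#Y : ℝ) ^ (1 - ε) * (lam / 2) ^ 3 ≤ C * ∫ u in (0 : ℝ)..1, ‖F u‖ ^ 2 →
      (#X : ℝ) ^ (1 - ε) * lam ^ 3 ≤ 16 * (C1 + C2) * ∫ u in (0 : ℝ)..1, ‖F u‖ ^ 2 :=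
    fun Y C hY hC h => by
      have a1 : (#X : ℝ) ^ (1 - ε) ≤ ((2 : ℝ) * #Y) ^ (1 - ε) :=
        Real.rpow_le_rpow (by positivity) (by exact_mod_cast hY) (by linarith)
      have a2 : (2 : ℝ) ^ (1 - ε) ≤ 2 := by
        conv_rhs => rw [← Real.rpow_one 2]
        exact Real.rpow_le_rpow_of_exponent_le (by norm_num) (by linarith)
      rw [Real.mul_rpow (by norm_num) (by positivity)] at a1
      have a3 : 0 ≤ (#Y : ℝ) ^ (1 - ε) := by positivity
      have a4 : (#X : ℝ) ^ (1 - ε) ≤ 2 * (#Y : ℝ) ^ (1 - ε) :=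
        a1.trans (mul_le_mul_of_nonneg_right a2 a3)
      have a5 := mul_le_mul_of_nonneg_right a4 (show 0 ≤ lam ^ 3 by positivity)
      have a6 := mul_le_mul_of_nonneg_right hC hI
      nlinarith
  have hc := card_filter_add_card_filter_not (s := X)
    (fun p => lam / 2 ≤ ‖Par a b (S.indicator F) p.1 p.2‖)
  rcases le_total #{p ∈ X | ¬ lam / 2 ≤ ‖Par a b (S.indicator F) p.1 p.2‖}
    #{p ∈ X | lam / 2 ≤ ‖Par a b (S.indicator F) p.1 p.2‖} with h | h
  · refine fin _ C1 (by omega) (by linarith) ((g1 (S.indicator F)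
      {p ∈ X | lam / 2 ≤ ‖Par a b (S.indicator F) p.1 p.2‖} (lam / 2) (hF.indicator hS) (bd S)
      (fun u hu => Set.indicator_of_notMem hu F)
      (fun p hp q hq => hsep p (mem_filter.1 hp).1 q (mem_filter.1 hq).1) (by linarith)
      (fun p hp => (mem_filter.1 hp).2)).trans (mul_le_mul_of_nonneg_left (sm S hS) p1.le))
  · refine fin _ C2 (by omega) (by linarith) ((g2 (Sᶜ.indicator F)
      {p ∈ X | ¬ lam / 2 ≤ ‖Par a b (S.indicator F) p.1 p.2‖} (lam / 2) (hF.indicator hS.compl)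
      (bd Sᶜ) (fun u hu => ?_)
      (fun p hp q hq => hsep p (mem_filter.1 hp).1 q (mem_filter.1 hq).1) (by linarith)
      (fun p hp => ?_)).trans (mul_le_mul_of_nonneg_left (sm Sᶜ hS.compl) p2.le))
    · by_cases hs : u ∈ S
      · exact Set.indicator_of_notMem (by simpa using hs) F
      · rw [Set.indicator_of_mem (by simpa using hs)]
        exact hz u fun h => h.elim hs hu
    · obtain ⟨hp1, hp2⟩ := mem_filter.1 hp
      have a1 := hX p hp1
      rw [split] at a1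
      have a2 := norm_add_le (Par a b (S.indicator F) p.1 p.2) (Par a b (Sᶜ.indicator F) p.1 p.2)
      rw [not_le] at hp2
      linarith

lemma good_empty (a b : ℝ → ℝ) {ε : ℝ} (h1 : ε < 1) : Good a b ε ∅ := by
  refine ⟨1, one_pos, fun F X lam _ _ hz _ hl hX => ?_⟩
  have hF : F = fun _ => 0 := funext fun u => hz u (by simp)
  have hXe : X = ∅ := by
    by_contra hne
    obtain ⟨p, hp⟩ := nonempty_iff_ne_empty.2 hne
    have := hX p hp
    rw [hF] at this
    simp [Par] at this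
    linarith
  rw [hXe, hF]
  simp [Real.zero_rpow (show 1 - ε ≠ 0 by linarith)]

lemma good_loc (h2 : G2Stmt) {a b : ℝ → ℝ} (hc : Curved a b) {ε : ℝ} (h0 : 0 < ε) (h1 : ε < 1)
    {u0 : ℝ} (hu : u0 ∈ Set.Icc (0 : ℝ) 1) :
    ∃ δ : ℝ, 0 < δ ∧ Good a b ε (Set.Icc (max 0 (u0 - δ)) (min 1 (u0 + δ))) := by
  classical
  obtain ⟨ha, hb', hW⟩ := hc
  have dd : ∀ f : ℝ → ℝ, ContDiff ℝ 2 f → (∀ u, HasDerivAt f (deriv f u) u) ∧
      (∀ u, HasDerivAt (deriv f) (deriv (deriv f) u) u) ∧ Continuous (deriv (deriv f)) :=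
    fun f hf => by
      have e : (2 : WithTop ℕ∞) = 1 + 1 := by norm_num
      rw [e, contDiff_succ_iff_deriv, contDiff_one_iff_deriv] at hf
      exact ⟨fun u => (hf.1 u).hasDerivAt, fun u => (hf.2.2.1 u).hasDerivAt, hf.2.2.2⟩
  obtain ⟨da, da1, da2⟩ := dd a ha
  obtain ⟨db, db1, db2⟩ := dd b hb'
  have hW0 := hW u0 hu
  obtain ⟨a1, ea1⟩ : ∃ x, x = deriv a u0 := ⟨_, rfl⟩
  obtain ⟨a2, ea2⟩ : ∃ x, x = deriv (deriv a) u0 := ⟨_, rfl⟩
  obtain ⟨b1, eb1⟩ : ∃ x, x = deriv b u0 := ⟨_, rfl⟩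
  obtain ⟨b2, eb2⟩ : ∃ x, x = deriv (deriv b) u0 := ⟨_, rfl⟩
  rw [← ea1, ← ea2, ← eb1, ← eb2] at hW0
  obtain ⟨W, eW⟩ : ∃ W, W = a1 * b2 - b1 * a2 := ⟨_, rfl⟩
  have hW1 : W ≠ 0 := by rw [eW]; exact hW0
  obtain ⟨δ, hδ, hch⟩ := chart (fun u => 2 * b2 / W * a u - 2 * a2 / W * b u)
    (fun u => 2 * b2 / W * deriv a u - 2 * a2 / W * deriv b u)
    (fun u => 2 * b2 / W * deriv (deriv a) u - 2 * a2 / W * deriv (deriv b) u)
    (fun u => 6 * a1 / W * b u - 6 * b1 / W * a u)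
    (fun u => 6 * a1 / W * deriv b u - 6 * b1 / W * deriv a u)
    (fun u => 6 * a1 / W * deriv (deriv b) u - 6 * b1 / W * deriv (deriv a) u) u0
    (fun u => ((da u).const_mul _).sub ((db u).const_mul _))
    (fun u => ((da1 u).const_mul _).sub ((db1 u).const_mul _)) (by fun_prop)
    (fun u => ((db u).const_mul _).sub ((da u).const_mul _))
    (fun u => ((db1 u).const_mul _).sub ((da1 u).const_mul _)) (by fun_prop)
    (by rw [← ea1, ← eb1]; field_simp; rw [eW]; ring) (by rw [← ea2, ← eb2]; ring)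
    (by rw [← ea1, ← eb1]; ring) (by rw [← ea2, ← eb2]; field_simp; rw [eW])
  obtain ⟨C, hC, hG⟩ := h2 ε h0 h1
  have hst : max 0 (u0 - δ) ≤ min 1 (u0 + δ) := by
    have := hu.1
    have := hu.2
    exact max_le (le_min zero_le_one (by linarith)) (le_min (by linarith) (by linarith))
  obtain ⟨φ, ψ, hcv, hf⟩ := hch _ _ (le_max_right _ _) hst (min_le_right _ _)
  have hsub : Set.Icc (max 0 (u0 - δ)) (min 1 (u0 + δ)) ⊆ Set.Icc 0 1 :=
    Set.Icc_subset_Icc (le_max_left _ _) (min_le_left _ _)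
  obtain ⟨k1, ek1⟩ : ∃ k, k = 4 * π * b2 / W := ⟨_, rfl⟩
  obtain ⟨k2, ek2⟩ : ∃ k, k = -(12 * π * b1 / W) := ⟨_, rfl⟩
  obtain ⟨L, eL⟩ : ∃ L : ℝ × ℝ → ℝ × ℝ, ∀ p, L p =
      ((p.1 * a1 + p.2 * b1) / (4 * π), (p.1 * a2 + p.2 * b2) / (12 * π)) := ⟨_, fun _ => rfl⟩
  have hpi : π ≠ 0 := Real.pi_ne_zero
  have hL : ∀ p, k1 * (L p).1 + k2 * (L p).2 = p.1 := fun p => by
    rw [eL, ek1, ek2]; dsimp only; field_simp; rw [eW]; ring
  refine ⟨δ, hδ, C * (2 * (|k1| + |k2|) + 2), by positivity,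
    fun F X lam hF hb hz hsep hl hX => ?_⟩
  obtain ⟨f, fm, fb, fe, fi⟩ := hf F hF hb
  have hinj : Set.InjOn L X := fun p hp q hq e => by
    by_contra hne
    have := hsep p hp q hq hne
    rw [← hL p, ← hL q, e, sub_self, abs_zero] at this
    linarith
  have res : ∀ {E : Type} [NormedAddCommGroup E] [NormedSpace ℝ E] (H : ℝ → E),
      (∀ u, F u = 0 → H u = 0) →
      ∫ u in (0 : ℝ)..1, H u = ∫ u in Set.Icc (max 0 (u0 - δ)) (min 1 (u0 + δ)), H u :=
    fun H hH => by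
      rw [intervalIntegral.integral_of_le zero_le_one, ← integral_Icc_eq_integral_Ioc]
      exact setIntegral_eq_of_subset_of_forall_sdiff_eq_zero measurableSet_Icc hsub
        fun u hu => hH u (hz u hu.2)
  have main := hG φ ψ f (X.image L) (2 * (|k1| + |k2|) + 2) lam hcv fm fb
    (by have := abs_nonneg k1; have := abs_nonneg k2; linarith)
    (kt_of_sep _ k1 k2 fun P hP Q hQ hne => by
      obtain ⟨p, hp, rfl⟩ := mem_image.1 hP
      obtain ⟨q, hq, rfl⟩ := mem_image.1 hQ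
      rw [hL, hL]
      exact hsep p hp q hq fun e => hne (by rw [e])) hl
    (fun P hP => by
      obtain ⟨p, hp, rfl⟩ := mem_image.1 hP
      rw [fe]
      refine (hX p hp).trans (le_of_eq ?_)
      unfold Par
      rw [res _ (fun u hu => by rw [hu, mul_zero])]
      congr 2
      funext u
      congr 1
      unfold ex
      congr 1
      have : p.1 * a u + p.2 * b u = 2 * π * ((L p).1 * (2 * b2 / W * a u - 2 * a2 / W * b u) +
          (L p).2 * (6 * a1 / W * b u - 6 * b1 / W * a u)) := by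
        rw [eL]; dsimp only; field_simp; rw [eW]; ring
      rw [this]; push_cast; ring)
  rw [card_image_of_injOn hinj] at main
  refine main.trans (mul_le_mul_of_nonneg_left ?_ (by positivity))
  rw [res (fun u => ‖F u‖ ^ 2) (fun u hu => by rw [hu]; simp)]
  exact fi

end G1

theorem g1 (h2 : G2Stmt) : G1Stmt := by
  intro a b hc ε h0 h1
  have ha : Continuous a := hc.1.continuous
  have hb' : Continuous b := hc.2.1.continuous
  have key : ∃ T : Set ℝ, MeasurableSet T ∧ Set.Icc (0 : ℝ) 1 ⊆ T ∧ G1.Good a b ε T := by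
    refine (isCompact_Icc (a := (0 : ℝ)) (b := 1)).induction_on
      (p := fun S => ∃ T : Set ℝ, MeasurableSet T ∧ S ⊆ T ∧ G1.Good a b ε T)
      ⟨∅, MeasurableSet.empty, subset_rfl, G1.good_empty a b h1⟩ ?_ ?_ ?_
    · rintro S S' hS ⟨T, m, s, g⟩
      exact ⟨T, m, hS.trans s, g⟩
    · rintro S S' ⟨T, m, s, g⟩ ⟨T', m', s', g'⟩
      exact ⟨T ∪ T', m.union m', Set.union_subset_union s s', G1.good_union ha hb' h0 h1 m g g'⟩
    · intro u hu
      obtain ⟨δ, hδ, g⟩ := G1.good_loc h2 hc h0 h1 hu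
      refine ⟨_, ?_, _, measurableSet_Icc, subset_rfl, g⟩
      rw [← Set.Icc_inter_Icc]
      exact inter_mem_nhdsWithin _ (Icc_mem_nhds (by linarith) (by linarith))
  obtain ⟨T, hT, hs, C, hC, g⟩ := key
  refine ⟨C, hC, fun F X lam hF hb hsep hl hX => ?_⟩
  have e : ∀ u ∈ Set.uIcc (0 : ℝ) 1, T.indicator F u = F u := fun u hu =>
    Set.indicator_of_mem (hs (by rwa [Set.uIcc_of_le zero_le_one] at hu)) F
  have := g (T.indicator F) X lam (hF.indicator hT) (fun u => (G1.ind_le T F u).trans (hb u))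
    (fun u hu => Set.indicator_of_notMem hu F) hsep hl (fun p hp => by
      refine (hX p hp).trans (le_of_eq ?_)
      unfold Par
      congr 1
      exact intervalIntegral.integral_congr fun u hu => by rw [e u hu])
  refine this.trans (le_of_eq ?_)
  congr 1
  exact intervalIntegral.integral_congr fun u hu => by rw [e u hu]

end

end Pool.Agent.Lib.MP_108739_an.HA
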