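import Pool.Agent.Lib.MP_108739_an.HA.G2A

/-! Globalisation, second step: from the broad estimate to Katz-Tao sets in the whole plane. -/

namespace Pool.Agent.Lib.MP_108739_an.HA.G2

open Finset MeasureTheory
open scoped Real

noncomputable section

open Classical in
/-- One depth of the narrowing, all arcs and all clusters. -/
lemma level {Cf : ℝ} (hF : FrameAt Cf) (hCf : 1 ≤ Cf) (hD : DiscStmt) (hRi : RidgeStmt)
    {φ ψ : ℝ → ℝ} (cv : Curve φ ψ) {f : ℝ → ℂ} (hf : Measurable f) (h1 : ∀ ξ, ‖f ξ‖ ≤ 1)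
    (K1 A n0 : ℕ) (H W s h Θ b0 : ℝ) (X C : Finset (ℝ × ℝ)) (bl : ℝ × ℝ → ℝ × ℝ)
    (bf : ℝ × ℝ → ℕ)
    (hK : 1 ≤ K1) (hH : 100 ≤ H) (hs : 0 < s) (hn0 : n0 * s = 1 / 2) (hR : 1 ≤ H * s ^ 2 / 4)
    (hW : 0 ≤ W) (hcore : Core K1 H (H * s ^ 2 / 4) A W) (hh : 40 / H ^ 3 ≤ h) (hΘ : 1 ≤ Θ)
    (hKT : KT Θ X) (hbl : ∀ p ∈ X, bl p ∈ C ∧ dist p (bl p) ≤ H / 3) (hb0 : 0 ≤ b0)
    (hb1 : b0 * #X ≤ h ^ 2)
    (hsep : ∀ a b : ℝ, 0 ≤ a → a ≤ b → b ≤ 1 → ∀ p ∈ X, ∀ q ∈ X, bl p ≠ bl q →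
      ‖Ext φ a b (fun _ => 1) (p - q)‖ ≤ b0)
    (hbf : ∀ p ∈ X, bf p < n0)
    (hA : ∀ p ∈ X, A ≤ #((range K1).filter fun r : ℕ =>
      4 * h ≤ ‖Ext φ (bf p * s + r * (s / K1)) (bf p * s + (r + 1) * (s / K1)) f p‖)) :
    #X * h ^ 3 ≤ 4000 * Cf * Θ * W * ∫ ξ in (0 : ℝ)..(1 / 2), ‖f ξ‖ ^ 2 := by
  have hH0 : 0 < H := by linarith
  have hK0 : (0 : ℝ) < K1 := by exact_mod_cast hK
  have hsK : 0 < s / K1 := by positivity
  have hh0 : 0 < h := lt_of_lt_of_le (by positivity) hh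
  have hφ := phi_cont cv
  have hle : ∀ n r : ℕ, n * s + r * (s / K1) ≤ n * s + (r + 1) * (s / K1) := fun n r => by
    nlinarith
  have hns : ∀ n : ℕ, n < n0 → (n + 1) * s ≤ 1 / 2 := fun n hn => by
    have : ((n : ℝ) + 1) ≤ n0 := by exact_mod_cast hn
    rw [← hn0]; gcongr
  have hKs : (K1 : ℝ) * (s / K1) = s := by field_simp
  have hup : ∀ n r : ℕ, n < n0 → r < K1 → n * s + (r + 1) * (s / K1) ≤ 1 / 2 := fun n r hn hr => by
    have h2 : ((r : ℝ) + 1) ≤ K1 := by exact_mod_cast hr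
    have h3 : ((r : ℝ) + 1) * (s / K1) ≤ K1 * (s / K1) := by gcongr
    have := hns n hn
    linarith
  set I : ℕ → ℕ → ℝ := fun n r =>
    ∫ ξ in (n * s + r * (s / K1))..(n * s + (r + 1) * (s / K1)), ‖f ξ‖ ^ 2 with hI
  have hex : ∀ n r : ℕ, ∃ g : ℝ × ℝ → ℝ → ℂ, (∀ j, Continuous (g j)) ∧ (n < n0 → r < K1 →
      (∀ p ∈ X, ‖Ext φ (n * s + r * (s / K1)) (n * s + (r + 1) * (s / K1)) f p -
        Ext φ (n * s + r * (s / K1)) (n * s + (r + 1) * (s / K1)) (g (bl p)) p‖ ^ 2 ≤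
          h ^ 2 * I n r) ∧
      (∀ j, ∫ ξ in (n * s + r * (s / K1))..(n * s + (r + 1) * (s / K1)), ‖g j ξ‖ ^ 2 ≤ I n r) ∧
      ∑ j ∈ C, ∫ ξ in (n * s + r * (s / K1))..(n * s + (r + 1) * (s / K1)), ‖g j ξ‖ ^ 2 ≤
        2 * I n r) := by
    intro n r
    by_cases hc : n < n0 ∧ r < K1
    · obtain ⟨g, g1, g2, g3, g4⟩ := hRi φ (n * s + r * (s / K1)) (n * s + (r + 1) * (s / K1))
        (h ^ 2) b0 f X bl C hφ (hle n r) hf h1 (by positivity) hb0 hb1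
        (hsep _ _ (by positivity) (hle n r) ((hup n r hc.1 hc.2).trans (by norm_num)))
      exact ⟨g, g1, fun _ _ => ⟨g2, g3, g4⟩⟩
    · exact ⟨fun _ _ => 0, fun _ => continuous_const, fun a b => absurd ⟨a, b⟩ hc⟩
  choose g gc hg using hex
  have hIle : ∀ n r : ℕ, I n r ≤ s / K1 := fun n r => by
    have := sq_le hf h1 (hle n r)
    simp only [hI]
    linarith
  have hsum : ∀ n : ℕ, ∑ r ∈ range K1, I n r = ∫ ξ in (0 + n * s)..(0 + (n + 1) * s), ‖f ξ‖ ^ 2 := by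
    intro n
    have := split (fun a b => ii_sq hf h1 a b) (n * s) (s / K1) K1
    rw [hKs] at this
    simp only [hI]
    rw [this]
    congr 1 <;> ring
  have htot : ∑ n ∈ range n0, ∑ r ∈ range K1, I n r = ∫ ξ in (0 : ℝ)..(1 / 2), ‖f ξ‖ ^ 2 := by
    simp only [hsum]
    rw [split (fun a b => ii_sq hf h1 a b) 0 s n0, hn0, zero_add]
  set E : ℕ × (ℝ × ℝ) → ℝ := fun q => ∑ r ∈ range K1,
    ∫ ξ in (q.1 * s + r * (s / K1))..(q.1 * s + (r + 1) * (s / K1)), ‖g q.1 r q.2 ξ‖ ^ 2 with hE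
  have hpiece : ∀ q ∈ range n0 ×ˢ C,
      (#{p ∈ X | (bf p, bl p) = q} : ℝ) * h ^ 3 ≤ 2000 * Cf * Θ * W * E q := by
    rintro ⟨n, c⟩ hq
    have hn : n < n0 := mem_range.1 (mem_product.1 hq).1
    refine one hF hCf hD cv K1 A n H W s h Θ (fun r => g n r c) _ (c - (H / 3, H / 3)) hK hH hs
      (hns n hn) hR hW hcore (fun r => gc n r c) ?_ hh hΘ (kt_mono hKT (filter_subset _ _)) ?_ ?_
    · intro p hp
      obtain ⟨hp, he⟩ := mem_filter.1 hp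
      have hc : bl p = c := congrArg Prod.snd he
      have hd := (hbl p hp).2
      rw [hc, Prod.dist_eq, max_le_iff, Real.dist_eq, Real.dist_eq, abs_le, abs_le] at hd
      refine ⟨?_, ?_, ?_, ?_⟩ <;> simp only [Prod.fst_sub, Prod.snd_sub] <;>
        linarith [hd.1.1, hd.1.2, hd.2.1, hd.2.2]
    · intro p hp
      obtain ⟨hp, he⟩ := mem_filter.1 hp
      have hc : bl p = c := congrArg Prod.snd he
      have hb : bf p = n := congrArg Prod.fst he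
      refine (hA p hp).trans (card_le_card fun r hr => ?_)
      rw [mem_filter] at hr ⊢
      refine ⟨hr.1, ?_⟩
      have h2 := (hg n r hn (mem_range.1 hr.1)).1 p hp
      rw [hc] at h2
      have h3 := hr.2
      rw [hb] at h3
      have h4 : I n r ≤ 1 := by
        refine (hIle n r).trans ?_
        rw [div_le_one hK0]
        have := hns n hn
        have h5 : (0 : ℝ) ≤ n := Nat.cast_nonneg n
        have h6 : (1 : ℝ) ≤ K1 := by exact_mod_cast hK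
        nlinarith
      have h5 : h ^ 2 * I n r ≤ h ^ 2 := by nlinarith [pow_pos hh0 2]
      have h6 := (pow_le_pow_iff_left₀ (norm_nonneg _) hh0.le two_ne_zero).1 (h2.trans h5)
      have h7 := norm_sub_norm_le
        (Ext φ (n * s + r * (s / K1)) (n * s + (r + 1) * (s / K1)) f p)
        (Ext φ (n * s + r * (s / K1)) (n * s + (r + 1) * (s / K1)) (g n r c) p)
      linarith
    · calc _ ≤ ∑ r ∈ range K1, s / K1 :=
            sum_le_sum fun r hr => ((hg n r hn (mem_range.1 hr)).2.1 c).trans (hIle n r)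
        _ = s := by rw [sum_const, card_range, nsmul_eq_mul, hKs]
  have hcard : #X = ∑ q ∈ range n0 ×ˢ C, #{p ∈ X | (bf p, bl p) = q} :=
    card_eq_sum_card_fiberwise fun p hp =>
      mem_product.2 ⟨mem_range.2 (hbf p hp), (hbl p hp).1⟩
  have hEs : ∑ q ∈ range n0 ×ˢ C, E q ≤ 2 * ∫ ξ in (0 : ℝ)..(1 / 2), ‖f ξ‖ ^ 2 := by
    rw [← htot, sum_product, mul_sum]
    refine sum_le_sum fun n hn => ?_
    simp only [hE]
    rw [sum_comm, mul_sum]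
    exact sum_le_sum fun r hr => (hg n r (mem_range.1 hn) (mem_range.1 hr)).2.2
  calc (#X : ℝ) * h ^ 3 = ∑ q ∈ range n0 ×ˢ C, (#{p ∈ X | (bf p, bl p) = q} : ℝ) * h ^ 3 := by
        rw [hcard, ← sum_mul]; push_cast; rfl
    _ ≤ ∑ q ∈ range n0 ×ˢ C, 2000 * Cf * Θ * W * E q := sum_le_sum hpiece
    _ = 2000 * Cf * Θ * W * ∑ q ∈ range n0 ×ˢ C, E q := by rw [mul_sum]
    _ ≤ 2000 * Cf * Θ * W * (2 * ∫ ξ in (0 : ℝ)..(1 / 2), ‖f ξ‖ ^ 2) := by gcongr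
    _ = _ := by ring

open Classical in
/-- One scale of clusters. -/
lemma scale {Cf : ℝ} (hF : FrameAt Cf) (hCf : 1 ≤ Cf) (hD : DiscStmt) (hRi : RidgeStmt)
    (hN : NarrowStmt) {φ ψ : ℝ → ℝ} (cv : Curve φ ψ) {f : ℝ → ℂ} (hf : Measurable f)
    (h1 : ∀ ξ, ‖f ξ‖ ≤ 1) (K1 A0 : ℕ) (H W Rlow lam Θ b0 : ℝ) (X C : Finset (ℝ × ℝ))
    (bl : ℝ × ℝ → ℝ × ℝ) (hK : 2 ≤ K1) (hA0 : 1 ≤ A0) (hH : 100 ≤ H) (hKW : (K1 : ℝ) ≤ W)
    (hlow : (K1 : ℝ) ^ 2 ≤ Rlow) (hAW : ∀ d : ℕ, (K1 : ℝ) ^ d ≤ H → (2 * A0 : ℝ) ^ d ≤ W)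
    (c1 : ∀ R, 1 ≤ R → R ≤ H → Core K1 H R A0 W) (c2 : ∀ R, 1 ≤ R → R ≤ Rlow → Core K1 H R 1 W)
    (hh : 40 / H ^ 3 ≤ lam / (8 * W ^ 2)) (hΘ : 1 ≤ Θ) (hKT : KT Θ X)
    (hbl : ∀ p ∈ X, bl p ∈ C ∧ dist p (bl p) ≤ H / 3) (hb0 : 0 ≤ b0)
    (hb1 : b0 * #X ≤ (lam / (8 * W ^ 2)) ^ 2)
    (hsep : ∀ a b : ℝ, 0 ≤ a → a ≤ b → b ≤ 1 → ∀ p ∈ X, ∀ q ∈ X, bl p ≠ bl q →
      ‖Ext φ a b (fun _ => 1) (p - q)‖ ≤ b0)
    (hl : ∀ p ∈ X, lam ≤ ‖Ext φ 0 (1 / 2) f p‖) :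
    #X * lam ^ 3 ≤ 2048000 * Cf * Θ * W ^ 8 * ∫ ξ in (0 : ℝ)..(1 / 2), ‖f ξ‖ ^ 2 := by
  have hH0 : 0 < H := by linarith
  have hK2 : (2 : ℝ) ≤ K1 := by exact_mod_cast hK
  have hK0 : (0 : ℝ) < K1 := by linarith
  have hW0 : 0 < W := by linarith
  have hφ := phi_cont cv
  set h := lam / (8 * W ^ 2) with hhdef
  have hh0 : 0 < h := lt_of_lt_of_le (by positivity) hh
  set s : ℕ → ℝ := fun d => 1 / (2 * (K1 : ℝ) ^ d) with hs
  have hs0 : ∀ d, 0 < s d := fun d => by simp only [hs]; positivity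
  have hss : ∀ d, s (d + 1) = s d / K1 := fun d => by
    simp only [hs]; rw [pow_succ]; field_simp
  have hex : ∃ d, H * s d ^ 2 / 4 ≤ Rlow := by
    obtain ⟨d, hd⟩ := pow_unbounded_of_one_lt H (by linarith : (1 : ℝ) < K1)
    refine ⟨d, ?_⟩
    have h2 : (1 : ℝ) ≤ (K1 : ℝ) ^ d := one_le_pow₀ (by linarith)
    have h3 : H * s d ^ 2 / 4 = H / (16 * ((K1 : ℝ) ^ d) ^ 2) := by simp only [hs]; field_simp; ring
    have h4 : H / (16 * ((K1 : ℝ) ^ d) ^ 2) ≤ 1 := by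
      rw [div_le_one (by positivity)]; nlinarith
    nlinarith
  set dm := Nat.find hex with hdm
  have hdm1 : H * s dm ^ 2 / 4 ≤ Rlow := Nat.find_spec hex
  have hR1 : ∀ d ≤ dm, 1 ≤ H * s d ^ 2 / 4 := by
    intro d hd
    rcases d with _ | d
    · simp only [hs]; norm_num; linarith
    · have h2 : ¬ H * s d ^ 2 / 4 ≤ Rlow := Nat.find_min hex (by omega)
      rw [hss]
      have h3 : H * (s d / K1) ^ 2 / 4 = (H * s d ^ 2 / 4) / (K1 : ℝ) ^ 2 := by field_simp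
      rw [h3, le_div_iff₀ (by positivity)]
      linarith
  have hKd : ∀ d ≤ dm, (K1 : ℝ) ^ d ≤ H ∧ H * s d ^ 2 / 4 ≤ H := by
    intro d hd
    have h2 : (1 : ℝ) ≤ (K1 : ℝ) ^ d := one_le_pow₀ (by linarith)
    have h3 : H * s d ^ 2 / 4 = H / (16 * ((K1 : ℝ) ^ d) ^ 2) := by simp only [hs]; field_simp; ring
    have h4 := hR1 d hd
    rw [h3] at h4 ⊢
    rw [le_div_iff₀ (by positivity)] at h4
    refine ⟨by nlinarith, div_le_self hH0.le (by nlinarith)⟩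
  have hnar : ∀ p : ℝ × ℝ, ∃ d ≤ dm, ∃ n : ℕ, n < K1 ^ d ∧ (p ∈ X →
      (if d = dm then 1 else A0) ≤ #((range K1).filter fun r : ℕ => 4 * h ≤
        ‖Ext φ (n * s d + r * (s d / K1)) (n * s d + (r + 1) * (s d / K1)) f p‖)) := by
    intro p
    obtain ⟨d, hd, b, hb, h2, h3⟩ := hN K1 A0 dm
      (fun d b => Ext φ (b * s d) ((b + 1) * s d) f p) 0 (by omega) hA0 (fun d b => by
        have := split (fun a b => ii_ext hφ hf h1 p a b) (b * s d) (s d / K1) K1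
        unfold Ext
        have e : (b : ℝ) * s d + K1 * (s d / K1) = (b + 1) * s d := by field_simp
        rw [e] at this
        rw [← this]
        refine sum_congr rfl fun r _ => ?_
        rw [hss]
        congr 1 <;> push_cast <;> field_simp <;> ring)
    have hKp : (0 : ℤ) < (K1 : ℤ) ^ d := by positivity
    have hb0 : 0 ≤ b := by
      have := (Int.le_ediv_iff_mul_le hKp (a := 0) (b := b)).1 hb.ge
      simpa using this
    have hb1 : b < (K1 : ℤ) ^ d := by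
      have := (Int.ediv_lt_iff_lt_mul hKp (a := b) (b := 1)).1 (by omega)
      simpa using this
    obtain ⟨n, rfl⟩ := Int.eq_ofNat_of_zero_le hb0
    refine ⟨d, hd, n, by exact_mod_cast hb1, fun hp => h3.trans
      (card_le_card_of_surjOn (fun r : ℕ => (r : ℤ)) fun r' hr' => ?_)⟩
    rw [mem_coe, mem_filter] at hr'
    obtain ⟨hr1, h4⟩ := hr'
    simp only [bind_pure_comp, Finset.fmap_def, mem_image] at hr1
    obtain ⟨r, hr, rfl⟩ := hr1
    refine ⟨r, ?_, rfl⟩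
    rw [mem_coe, mem_filter]
    refine ⟨hr, ?_⟩
    have e1 : ((((K1 : ℤ) * (n : ℤ) + (r : ℤ) : ℤ) : ℝ)) * s (d + 1) =
        n * s d + r * (s d / K1) := by rw [hss]; push_cast; field_simp
    have e2 : ((((K1 : ℤ) * (n : ℤ) + (r : ℤ) : ℤ) : ℝ) + 1) * s (d + 1) =
        n * s d + (r + 1) * (s d / K1) := by rw [hss]; push_cast; field_simp; ring
    simp only [e1, e2] at h4
    have e3 : ((0 : ℤ) : ℝ) * s 0 = 0 := by simp
    have e4 : (((0 : ℤ) : ℝ) + 1) * s 0 = 1 / 2 := by simp [hs]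
    simp only [e3, e4] at h2
    have h5 := hAW d (hKd d hd).1
    set u := ‖Ext φ (n * s d + r * (s d / K1)) (n * s d + (r + 1) * (s d / K1)) f p‖
    have hu : 0 ≤ u := norm_nonneg _
    have h6 : lam ≤ W * (2 * W * u) := by
      refine (hl p hp).trans (h2.trans ?_)
      refine mul_le_mul h5 (h4.trans ?_) (norm_nonneg _) hW0.le
      gcongr
    have h7 : 4 * h = lam / (2 * W ^ 2) := by rw [hhdef]; field_simp; ring
    rw [h7, div_le_iff₀ (by positivity)]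
    nlinarith
  choose df hdf bf hbf hnar using hnar
  set I := ∫ ξ in (0 : ℝ)..(1 / 2), ‖f ξ‖ ^ 2 with hI
  have hI0 : 0 ≤ I := sq_nn f (by norm_num)
  have hlev : ∀ d ∈ range (dm + 1), (#{p ∈ X | df p = d} : ℝ) * h ^ 3 ≤ 4000 * Cf * Θ * W * I := by
    intro d hd
    have hd' : d ≤ dm := by have := mem_range.1 hd; omega
    refine level hF hCf hD hRi cv hf h1 K1 (if d = dm then 1 else A0) (K1 ^ d) H W (s d) h Θ b0 _ C
      bl bf (by omega) hH (hs0 d) (by simp only [hs]; push_cast; field_simp) (hR1 d hd') hW0.le ?_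
      hh hΘ (kt_mono hKT (filter_subset _ _)) (fun p hp => hbl p (mem_filter.1 hp).1) hb0 ?_
      (fun a b ha hab hb p hp q hq => hsep a b ha hab hb p (mem_filter.1 hp).1 q (mem_filter.1 hq).1)
      ?_ ?_
    · split_ifs with he
      · exact c2 _ (hR1 d hd') (he ▸ hdm1)
      · exact c1 _ (hR1 d hd') (hKd d hd').2
    · refine le_trans ?_ hb1
      gcongr
      exact filter_subset _ _
    · intro p hp
      obtain ⟨_, rfl⟩ := mem_filter.1 hp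
      exact hbf p
    · intro p hp
      obtain ⟨hp', rfl⟩ := mem_filter.1 hp
      exact hnar p hp'
  have hcard : #X = ∑ d ∈ range (dm + 1), #{p ∈ X | df p = d} :=
    card_eq_sum_card_fiberwise fun p _ => mem_range.2 (Nat.lt_succ_of_le (hdf p))
  have hdW : ((dm + 1 : ℕ) : ℝ) ≤ W := by
    have h2 := hAW dm (hKd dm le_rfl).1
    have h3 : (1 : ℝ) ≤ A0 := by exact_mod_cast hA0
    have h4 : (2 : ℝ) ^ dm ≤ (2 * A0 : ℝ) ^ dm := by gcongr; linarith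
    have h5 : ((dm + 1 : ℕ) : ℝ) ≤ (2 : ℝ) ^ dm := by
      exact_mod_cast Nat.succ_le_of_lt Nat.lt_two_pow_self
    linarith
  have hall : (#X : ℝ) * h ^ 3 ≤ W * (4000 * Cf * Θ * W * I) := by
    calc (#X : ℝ) * h ^ 3 = ∑ d ∈ range (dm + 1), (#{p ∈ X | df p = d} : ℝ) * h ^ 3 := by
          rw [hcard, ← sum_mul]; push_cast; rfl
      _ ≤ ∑ d ∈ range (dm + 1), 4000 * Cf * Θ * W * I := sum_le_sum hlev
      _ = ((dm + 1 : ℕ) : ℝ) * (4000 * Cf * Θ * W * I) := by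
          rw [sum_const, card_range, nsmul_eq_mul]
      _ ≤ _ := by gcongr
  calc (#X : ℝ) * lam ^ 3 = 512 * W ^ 6 * (#X * h ^ 3) := by rw [hhdef]; field_simp; ring
    _ ≤ 512 * W ^ 6 * (W * (4000 * Cf * Θ * W * I)) := by gcongr
    _ = _ := by ring

lemma fin_arith {u K n lam c I Θ v N w H1 : ℝ} (hu : 0 < u) (hK : 0 ≤ K) (hn : 0 ≤ n) (hl : 0 ≤ lam)
    (hc : 0 ≤ c) (hI : 0 ≤ I) (hΘ : 0 ≤ Θ) (h1 : v * (u * u) ≤ N) (h2 : N ≤ K * u * n)
    (h3 : n * lam ^ 3 ≤ c * Θ * w * I) (h4 : w ≤ u * H1) :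
    v * lam ^ 3 ≤ (1 + K * (c * H1)) * Θ * I := by
  have h7 : (u * u) * (v * lam ^ 3) ≤ (u * u) * (K * (c * H1) * Θ * I) := by
    calc (u * u) * (v * lam ^ 3) = (v * (u * u)) * lam ^ 3 := by ring
      _ ≤ (K * u * n) * lam ^ 3 := mul_le_mul_of_nonneg_right (h1.trans h2) (by positivity)
      _ = K * u * (n * lam ^ 3) := by ring
      _ ≤ K * u * (c * Θ * w * I) := by gcongr
      _ ≤ K * u * (c * Θ * (u * H1) * I) := by gcongr
      _ = _ := by ring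
  have h8 := le_of_mul_le_mul_left h7 (by positivity)
  have h9 : 0 ≤ Θ * I := by positivity
  nlinarith

lemma numer {ρ N Cv W lam : ℝ} (hCv : 1 ≤ Cv) (hρ : 1000 * Cv ≤ ρ) (hN : N ≤ ρ) (hN1 : 1 ≤ N)
    (hW0 : 0 < W) (hW : W ^ 2 ≤ 3 * ρ) (hl : 1 ≤ N * lam) :
    40 / (3 * ρ) ^ 3 ≤ lam / (8 * W ^ 2) ∧ Cv / ρ ^ 6 * N ≤ (lam / (8 * W ^ 2)) ^ 2 := by
  have hρ0 : 0 < ρ := by linarith
  have hl0 : 0 < lam := by
    by_contra h
    have : N * lam ≤ 0 := mul_nonpos_of_nonneg_of_nonpos (by linarith) (not_lt.1 h)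
    linarith
  have h1 : 1 / (24 * ρ ^ 2) ≤ lam / (8 * W ^ 2) := by
    rw [div_le_div_iff₀ (by positivity) (by positivity)]
    have : 1 ≤ ρ * lam := hl.trans (by gcongr)
    nlinarith
  constructor
  · refine le_trans ?_ h1
    rw [div_le_div_iff₀ (by positivity) (by positivity)]
    nlinarith [pow_pos hρ0 2]
  · refine le_trans ?_ (pow_le_pow_left₀ (by positivity) h1 2)
    calc Cv / ρ ^ 6 * N ≤ (ρ / 1000) / ρ ^ 6 * ρ := by gcongr; linarith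
      _ = 1 / (1000 * ρ ^ 4) := by field_simp
      _ ≤ 1 / (576 * ρ ^ 4) := by gcongr; norm_num
      _ = _ := by field_simp; ring

end

end Pool.Agent.Lib.MP_108739_an.HA.G2

namespace Pool.Agent.Lib.MP_108739_an.HA

open Finset G2

theorem g2 (hCore : CoreThm) (hFrame : FrameStmt) (hN : NarrowStmt) (hS : SparseStmt)
    (hV : VdcStmt) (hRi : RidgeStmt) (hD : DiscStmt) : G2Stmt := by
  classical
  intro ε hε hε1
  obtain ⟨Cf, hCf, hF⟩ := hFrame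
  obtain ⟨Cv, hCv, hV⟩ := hV
  obtain ⟨K0, hK0⟩ := exists_nat_ge (2 / ε)
  have hK0p : (0 : ℝ) < K0 := lt_of_lt_of_le (by positivity) hK0
  have hK01 : 1 ≤ K0 := by exact_mod_cast hK0p
  have hK0e : 1 / (K0 : ℝ) ≤ ε / 2 := by
    rw [div_le_iff₀ hε] at hK0
    rw [div_le_iff₀ hK0p]; linarith
  set P : ℕ := 40 ^ K0 with hP
  have hP1 : (1 : ℝ) ≤ P := by exact_mod_cast Nat.one_le_pow _ _ (by norm_num)
  set e : ℝ := ε / (32 * P) with he
  have he0 : 0 < e := by positivity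
  have he1 : e ≤ 1 / 2 := by
    rw [he, div_le_iff₀ (by positivity)]; linarith
  obtain ⟨H0, hH0⟩ := hCore e he0
  set H1 : ℝ := |H0| + 1000 * Cv with hH1
  have hH1a : 1000 * Cv ≤ H1 := by have := abs_nonneg H0; linarith
  have hH1b : H0 ≤ H1 := by have := le_abs_self H0; linarith
  refine ⟨1 + K0 * (2048000 * Cf * H1), by positivity, ?_⟩
  intro φ ψ f X Θ lam cv hf h1 hΘ hKT hlam hl
  set I := ∫ ξ in (0 : ℝ)..(1 / 2), ‖f ξ‖ ^ 2 with hI
  have hI0 : 0 ≤ I := sq_nn f (by norm_num)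
  have hH10 : 0 < H1 := by linarith
  rcases X.eq_empty_or_nonempty with rfl | ⟨p0, hp0⟩
  · rw [card_empty, Nat.cast_zero, Real.zero_rpow (by linarith), zero_mul]; positivity
  set N : ℝ := (#X : ℝ) with hNdef
  have hN1 : 1 ≤ N := by
    rw [hNdef]; exact_mod_cast card_pos.2 ⟨p0, hp0⟩
  have hN0 : 0 < N := by linarith
  by_cases hsm : N * lam ≤ 1
  · have h2 := ext_le hf h1 p0 hlam (hl p0 hp0)
    have h3 : N ^ (1 - ε) ≤ N := by
      have := Real.rpow_le_rpow_of_exponent_le hN1 (by linarith : 1 - ε ≤ 1)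
      rwa [Real.rpow_one] at this
    calc N ^ (1 - ε) * lam ^ 3 ≤ N * lam ^ 3 := by gcongr
      _ = (N * lam) * lam ^ 2 := by ring
      _ ≤ 1 * I := by gcongr
      _ ≤ ((1 + K0 * (2048000 * Cf * H1)) * Θ) * I := by
          gcongr
          have : 0 ≤ K0 * (2048000 * Cf * H1) := by positivity
          nlinarith
  have hbig : 1 ≤ N * lam := (not_le.1 hsm).le
  set ρ0 : ℝ := N * H1 with hρ0
  have hρ01 : H1 ≤ ρ0 := by rw [hρ0]; nlinarith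
  have hρ0N : N ≤ ρ0 := by rw [hρ0]; nlinarith
  have hρ1 : 1 ≤ ρ0 := by linarith
  obtain ⟨k, hk, C, hCX, hsepC, hcount⟩ := hS X K0 (fun k => ρ0 ^ (40 ^ k)) hK01
    (fun a b hab => pow_le_pow_right₀ hρ1 (Nat.pow_le_pow_right (by norm_num) hab))
    (by positivity)
  set ρ : ℝ := ρ0 ^ (40 ^ k) with hρ
  have hρa : ρ0 ≤ ρ := by
    have := pow_le_pow_right₀ hρ1 (Nat.one_le_pow k 40 (by norm_num))
    rwa [pow_one] at this
  have hρb : ρ ≤ ρ0 ^ P := pow_le_pow_right₀ hρ1 (Nat.pow_le_pow_right (by norm_num) hk.le)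
  have hnext : ρ0 ^ (40 ^ (k + 1)) = ρ ^ 40 := by rw [hρ, ← pow_mul, pow_succ]
  simp only [hnext] at hsepC
  have hρ1000 : 1000 ≤ ρ := by linarith
  have hρpos : 0 < ρ := by linarith
  have hgap : ρ ^ 36 + 2 * ρ ≤ ρ ^ 40 := by
    have h2 : ρ ≤ ρ ^ 36 := le_self_pow₀ (by linarith) (by norm_num)
    have h3 : 3 ≤ ρ ^ 4 := le_trans (by linarith) (le_self_pow₀ (by linarith) (by norm_num))
    have h4 : ρ ^ 40 = ρ ^ 36 * ρ ^ 4 := by ring
    have h5 : ρ ^ 36 * 3 ≤ ρ ^ 36 * ρ ^ 4 := by gcongr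
    linarith
  obtain ⟨K1, A0, Rlow, hK, hA0, hKW, hlow, hAW, c1, c2⟩ := hH0 (3 * ρ) (by linarith)
  set W : ℝ := (3 * ρ) ^ e with hW
  have hW0 : 0 < W := by positivity
  have hW2 : W ^ 2 ≤ 3 * ρ := by
    rw [hW, ← Real.rpow_natCast, ← Real.rpow_mul (by positivity)]
    have := Real.rpow_le_rpow_of_exponent_le (by linarith : 1 ≤ 3 * ρ)
      (by push_cast; linarith : e * ((2 : ℕ) : ℝ) ≤ 1)
    rwa [Real.rpow_one] at this
  have hW8 : W ^ 8 ≤ N ^ (ε / 2) * H1 := by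
    have h2 : 3 * ρ ≤ ρ0 ^ (2 * P) := by
      calc 3 * ρ ≤ ρ * ρ := by gcongr; linarith
        _ ≤ ρ0 ^ P * ρ0 ^ P := by gcongr
        _ = _ := by ring
    have h3 : W ≤ (ρ0 ^ (2 * P)) ^ e := Real.rpow_le_rpow (by positivity) h2 he0.le
    have h4 : ((ρ0 ^ (2 * P)) ^ e) ^ 8 = ρ0 ^ (ε / 2) := by
      rw [← Real.rpow_natCast, ← Real.rpow_natCast, ← Real.rpow_mul (by positivity),
        ← Real.rpow_mul (by positivity)]
      congr 1
      rw [he]; push_cast; field_simp; ring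
    have h5 : H1 ^ (ε / 2) ≤ H1 := by
      have := Real.rpow_le_rpow_of_exponent_le (by linarith : 1 ≤ H1) (by linarith : ε / 2 ≤ 1)
      rwa [Real.rpow_one] at this
    calc W ^ 8 ≤ ((ρ0 ^ (2 * P)) ^ e) ^ 8 := by gcongr
      _ = N ^ (ε / 2) * H1 ^ (ε / 2) := by rw [h4, hρ0, Real.mul_rpow hN0.le hH10.le]
      _ ≤ _ := by gcongr
  set X' := C.biUnion fun c => {q ∈ X | dist q c ≤ ρ} with hX'
  have hX'X : X' ⊆ X := fun q hq => by
    obtain ⟨c, _, hc⟩ := mem_biUnion.1 hq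
    exact (mem_filter.1 hc).1
  have hcard : ∑ c ∈ C, #{q ∈ X | dist q c ≤ ρ} = #X' := by
    rw [hX', card_biUnion]
    intro c hc c' hc' hne
    rw [Function.onFun, disjoint_left]
    intro q hq hq'
    have h2 := hsepC c hc c' hc' hne
    have h3 := dist_triangle_left c c' q
    have h4 := (mem_filter.1 hq).2
    have h5 := (mem_filter.1 hq').2
    have h6 : 0 < ρ ^ 36 := by positivity
    linarith
  have hbl : ∀ q : ℝ × ℝ, ∃ c, q ∈ X' → c ∈ C ∧ dist q c ≤ 3 * ρ / 3 := fun q => by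
    by_cases hq : q ∈ X'
    · obtain ⟨c, hc, hc'⟩ := mem_biUnion.1 hq
      exact ⟨c, fun _ => ⟨hc, by linarith [(mem_filter.1 hc').2]⟩⟩
    · exact ⟨q, fun h => absurd h hq⟩
  choose bl hbl using hbl
  obtain ⟨n1, n2⟩ := numer hCv (by linarith : 1000 * Cv ≤ ρ) (by linarith : N ≤ ρ) hN1 hW0 hW2 hbig
  have hle : (#X' : ℝ) ≤ N := by rw [hNdef]; exact_mod_cast card_le_card hX'X
  have key := scale hF hCf hD hRi hN cv hf h1 K1 A0 (3 * ρ) W Rlow lam Θ (Cv / ρ ^ 6) X' C bl hK hA0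
    (by linarith) hKW hlow hAW c1 c2 n1 hΘ (kt_mono hKT hX'X) hbl (by positivity)
    (le_trans (by gcongr) n2)
    (fun a b ha hab hb p hp q hq hne => by
      refine hV φ ψ a b (ρ ^ 6) (p - q) cv ha hab hb (one_le_pow₀ (by linarith)) ?_
      have h2 := hsepC _ (hbl p hp).1 _ (hbl q hq).1 hne
      have h3 := dist_triangle4 (bl p) p q (bl q)
      have h4 := (hbl p hp).2
      have h5 := (hbl q hq).2
      rw [dist_comm] at h4
      rw [← dist_eq_norm]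
      have h6 : (ρ ^ 6) ^ 6 = ρ ^ 36 := by ring
      linarith)
    (fun p hp => hl p (hX'X hp))
  have hcount' : N ≤ K0 * N ^ (ε / 2) * #X' := by
    have h2 : (∑ p ∈ C, (#{q ∈ X | dist q p ≤ ρ} : ℝ)) = #X' := by rw [← hcard]; push_cast; rfl
    have h3 : N ^ (1 / (K0 : ℝ)) ≤ N ^ (ε / 2) := Real.rpow_le_rpow_of_exponent_le hN1 hK0e
    refine hcount.trans ?_
    rw [h2]
    gcongr
  have hsplit : N ^ (1 - ε) * (N ^ (ε / 2) * N ^ (ε / 2)) ≤ N := by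
    rw [← Real.rpow_add hN0, ← Real.rpow_add hN0]
    have : 1 - ε + (ε / 2 + ε / 2) = 1 := by ring
    rw [this, Real.rpow_one]
  exact fin_arith (by positivity) hK0p.le (by positivity) hlam.le (by positivity) hI0 (by linarith)
    hsplit hcount' key hW8

end Pool.Agent.Lib.MP_108739_an.HA
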