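import Pool.Agent.Lib.MP_108739_an.HA.Basic

/-! Induction on scales: the core theorem from the trivial bound and the step. -/

namespace Pool.Agent.Lib.MP_108739_an.HA

open Finset Filter

noncomputable section

theorem ind_big (η c : ℝ) (hη : 0 < η) : ∃ H0 : ℝ, ∀ H ≥ H0, c ≤ H ^ η := by
  obtain ⟨H0, h⟩ := eventually_atTop.1 ((tendsto_rpow_atTop hη).eventually_ge_atTop c)
  exact ⟨H0, h⟩

theorem ind_polylog (N : ℕ) (e : ℝ) (hN : 1 ≤ N) (he : 0 < e) : ∃ H0 : ℝ, ∀ H ≥ H0, ∀ Y : ℕ,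
    (2 : ℝ) ^ Y ≤ 2 * H → (200 * Y : ℝ) ^ N ≤ H ^ e := by
  have hN' : (0 : ℝ) < N := by exact_mod_cast hN
  have hη : 0 < e / (2 * N) := by positivity
  obtain ⟨H0, h0⟩ := ind_big (e / (2 * N)) (800 / (e / (2 * N))) hη
  refine ⟨max H0 2, fun H hH Y hY => ?_⟩
  have h2 : (2 : ℝ) ≤ H := le_trans (le_max_right _ _) hH
  have hH0 : 0 < H := by linarith
  have h1 := h0 H (le_trans (le_max_left _ _) hH)
  set η := e / (2 * N) with hηd
  have hl : (Y : ℝ) * Real.log 2 ≤ Real.log 2 + Real.log H := by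
    have := Real.log_le_log (by positivity) hY
    rwa [Real.log_pow, Real.log_mul (by norm_num) hH0.ne'] at this
  have hl2 : Real.log 2 ≤ Real.log H := Real.log_le_log (by norm_num) h2
  have hl3 : (1 / 2 : ℝ) ≤ Real.log 2 := by have := Real.log_two_gt_d9; linarith
  have hY0 : (0 : ℝ) ≤ Y := Nat.cast_nonneg Y
  have hY4 : (Y : ℝ) ≤ 4 * Real.log H := by nlinarith
  have hl4 : Real.log H ≤ H ^ η / η := Real.log_le_rpow_div hH0.le hη
  have hp : 0 ≤ H ^ η := by positivity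
  have h5 : (200 * Y : ℝ) ≤ H ^ η * H ^ η := by
    calc (200 * Y : ℝ) ≤ 800 * (H ^ η / η) := by linarith
      _ = 800 / η * H ^ η := by ring
      _ ≤ H ^ η * H ^ η := by gcongr
  calc (200 * Y : ℝ) ^ N ≤ (H ^ η * H ^ η) ^ N := by gcongr
    _ = H ^ e := by
      rw [← Real.rpow_add hH0, ← Real.rpow_natCast, ← Real.rpow_mul hH0.le]
      congr 1
      rw [hηd]; field_simp; ring

theorem coreThm (hT : TrivStmt) (hS : StepStmt) : CoreThm := by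
  intro ε hε
  obtain ⟨C, hC1, hT⟩ := hT
  set ε' : ℝ := min (ε / 3) (1 / 10) with hε'd
  have hε'0 : 0 < ε' := lt_min (by linarith) (by norm_num)
  have hε'1 : ε' ≤ ε / 3 := min_le_left _ _
  have hε'2 : ε' ≤ 1 / 10 := min_le_right _ _
  obtain ⟨ζ, C1, hζ0, hζ1, hC12, hS⟩ := hS ε' hε'0 hε'2
  have hC1p : (0 : ℝ) < C1 := by exact_mod_cast (by omega : 0 < C1)
  set θ : ℝ := ζ / C1 with hθd
  have hθ0 : 0 < θ := by positivity
  set e2 : ℝ := ζ * θ / 4 with he2d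
  have he2 : 0 < e2 := by positivity
  obtain ⟨H1, hS⟩ := hS e2 he2
  set sm : ℕ := ⌈1 / ζ⌉₊ with hsm
  obtain ⟨H2, h2⟩ := ind_polylog (6 * (sm + 2)) e2 (by omega) he2
  obtain ⟨H3, h3⟩ := ind_big (θ / 2) 2 (by positivity)
  obtain ⟨H4, h4⟩ := ind_big ε' C hε'0
  refine ⟨max (max H1 H2) (max (max H3 H4) 2), fun H hH => ?_⟩
  have g1 : H ≥ H1 := le_trans (le_trans (le_max_left _ _) (le_max_left _ _)) hH
  have g2 : H ≥ H2 := le_trans (le_trans (le_max_right _ _) (le_max_left _ _)) hH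
  have g3 : H ≥ H3 :=
    le_trans (le_trans (le_trans (le_max_left _ _) (le_max_left _ _)) (le_max_right _ _)) hH
  have g4 : H ≥ H4 :=
    le_trans (le_trans (le_trans (le_max_right _ _) (le_max_left _ _)) (le_max_right _ _)) hH
  have g5 : (2 : ℝ) ≤ H := le_trans (le_trans (le_max_right _ _) (le_max_right _ _)) hH
  have hH1 : (1 : ℝ) ≤ H := by linarith
  have hH0 : (0 : ℝ) < H := by linarith
  replace hS := hS H g1
  replace h2 := h2 H g2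
  replace h3 := h3 H g3
  replace h4 := h4 H g4
  obtain ⟨n, hn1, hn2⟩ := exists_nat_pow_near hH1 (by norm_num : (1 : ℝ) < 2)
  have hY1 : H ≤ 2 ^ (n + 1) := hn2.le
  have hY2 : (2 : ℝ) ^ (n + 1) ≤ 2 * H := by rw [pow_succ]; linarith
  have hYp : 1 ≤ n + 1 := by omega
  generalize n + 1 = Y at hY1 hY2 hYp
  replace h2 := h2 Y hY2
  have hYr : (1 : ℝ) ≤ Y := by exact_mod_cast hYp
  -- the number of arcs
  set K1 : ℕ := ⌊H ^ θ⌋₊ with hK1
  have hθθ : H ^ θ = H ^ (θ / 2) * H ^ (θ / 2) := by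
    rw [← Real.rpow_add hH0]; congr 1; ring
  have hKu : (K1 : ℝ) ≤ H ^ θ := Nat.floor_le (by positivity)
  have hKl : H ^ (θ / 2) ≤ K1 := by
    have := Nat.lt_floor_add_one (H ^ θ)
    rw [← hK1] at this
    nlinarith
  have hK2 : 2 ≤ K1 := by exact_mod_cast h3.trans hKl
  have hK1r : (1 : ℝ) ≤ K1 := by exact_mod_cast (by omega : 1 ≤ K1)
  have hKC : (K1 : ℝ) ^ C1 ≤ H ^ ζ := by
    calc (K1 : ℝ) ^ C1 ≤ (H ^ θ) ^ C1 := by gcongr
      _ = H ^ ζ := by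
        rw [← Real.rpow_natCast, ← Real.rpow_mul hH0.le]
        congr 1
        rw [hθd]; field_simp
  have hζε' : H ^ ζ ≤ H ^ ε' := Real.rpow_le_rpow_of_exponent_le hH1 hζ1
  have hε'ε : H ^ ε' ≤ H ^ ε := Real.rpow_le_rpow_of_exponent_le hH1 (by linarith)
  have hHε' : (1 : ℝ) ≤ H ^ ε' := Real.one_le_rpow hH1 hε'0.le
  have hHζ : (1 : ℝ) ≤ H ^ ζ := Real.one_le_rpow hH1 hζ0.le
  have hHe2 : (1 : ℝ) ≤ H ^ e2 := Real.one_le_rpow hH1 he2.le
  -- the broadness parameters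
  set A1 : ℕ := ⌈((100 * Y : ℝ) ^ 6) ^ 2 * H ^ e2⌉₊ with hA1
  have hP1 : (1 : ℝ) ≤ (100 * Y : ℝ) ^ 6 := one_le_pow₀ (by linarith)
  have hx1 : (1 : ℝ) ≤ ((100 * Y : ℝ) ^ 6) ^ 2 * H ^ e2 :=
    one_le_mul_of_one_le_of_one_le (one_le_pow₀ hP1) hHe2
  have hA1l : ((100 * Y : ℝ) ^ 6) ^ 2 * H ^ e2 ≤ A1 := Nat.le_ceil _
  have hA1u : (A1 : ℝ) ≤ 2 * (((100 * Y : ℝ) ^ 6) ^ 2 * H ^ e2) := by
    have := Nat.ceil_lt_add_one (zero_le_one.trans hx1)
    rw [← hA1] at this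
    linarith
  have hA11 : 1 ≤ A1 := by exact_mod_cast hx1.trans hA1l
  set q : ℕ := 2 * (100 * Y) ^ 6 with hq
  have hq1 : 1 ≤ q := by
    have : 1 ≤ (100 * Y) ^ 6 := Nat.one_le_pow _ _ (by omega)
    omega
  have hqr : (q : ℝ) = 2 * (100 * Y : ℝ) ^ 6 := by rw [hq]; push_cast; ring
  have hAs : ∀ s, 1 ≤ A1 * q ^ s := fun s => Nat.mul_pos hA11 (Nat.pow_pos hq1)
  have hA0 : (2 * (A1 * q ^ sm : ℕ) : ℝ) ≤ H ^ (ζ * θ / 2) := by
    have e1 : H ^ (ζ * θ / 2) = H ^ e2 * H ^ e2 := by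
      rw [← Real.rpow_add hH0]; congr 1; rw [he2d]; ring
    have e2' : (q : ℝ) ≤ (200 * Y : ℝ) ^ 6 := by
      rw [hqr]
      have : (200 * Y : ℝ) ^ 6 = 64 * (100 * Y : ℝ) ^ 6 := by ring
      rw [this]; linarith
    have e3 : (q : ℝ) ^ (sm + 2) ≤ H ^ e2 := by
      refine le_trans ?_ h2
      rw [pow_mul]
      gcongr
    calc (2 * (A1 * q ^ sm : ℕ) : ℝ) = 2 * (A1 : ℝ) * (q : ℝ) ^ sm := by push_cast; ring
      _ ≤ 2 * (2 * (((100 * Y : ℝ) ^ 6) ^ 2 * H ^ e2)) * (q : ℝ) ^ sm := by gcongr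
      _ = (q : ℝ) ^ (sm + 2) * H ^ e2 := by rw [pow_add, hqr]; ring
      _ ≤ H ^ e2 * H ^ e2 := by gcongr
      _ = _ := e1.symm
  have hd : ∀ d : ℕ, (K1 : ℝ) ^ d ≤ H → (2 * (A1 * q ^ sm : ℕ) : ℝ) ^ d ≤ H ^ ζ := by
    intro d hd
    have e1 : (H ^ (θ / 2)) ^ d ≤ H := le_trans (by gcongr) hd
    calc (2 * (A1 * q ^ sm : ℕ) : ℝ) ^ d ≤ (H ^ (ζ * θ / 2)) ^ d := by gcongr
      _ = ((H ^ (θ / 2)) ^ d) ^ ζ := by
        rw [← Real.rpow_natCast, ← Real.rpow_natCast, ← Real.rpow_mul hH0.le,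
          ← Real.rpow_mul hH0.le, ← Real.rpow_mul hH0.le]
        congr 1; ring
      _ ≤ H ^ ζ := by gcongr
  have hZ1 : (1 : ℝ) ≤ C * H ^ ε' := one_le_mul_of_one_le_of_one_le hC1 hHε'
  have hC0 : 0 ≤ C := by linarith
  have base : ∀ R', 1 ≤ R' → R' ≤ H ^ ε' → Core K1 H R' 1 (C * H ^ ε' * R' ^ ε') := by
    intro R' h1 h2
    refine (hT K1 H R' hH1 h1).mono le_rfl ?_
    have : (1 : ℝ) ≤ R' ^ ε' := Real.one_le_rpow h1 hε'0.le
    calc C * R' ≤ C * H ^ ε' * 1 := by rw [mul_one]; gcongr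
      _ ≤ _ := by gcongr
  have main : ∀ s ≤ sm, ∀ R, 1 ≤ R → R ≤ H → R ≤ H ^ ε' * (H ^ ζ) ^ s →
      Core K1 H R (A1 * q ^ s) (C * H ^ ε' * R ^ ε') := by
    intro s
    induction s with
    | zero =>
      intro _ R h1 _ h3
      exact (base R h1 (by simpa using h3)).mono (hAs 0) le_rfl
    | succ s ih =>
      intro hs R h1 h2 h3
      rcases le_total R (H ^ ε') with hR | hR
      · exact (base R h1 hR).mono (hAs _) le_rfl
      refine hS K1 (A1 * q ^ sm) (A1 * q ^ (s + 1)) (A1 * q ^ s) Y (C * H ^ ε') R hK2 hKC hY1 hY2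
        hd (hAs s) ?_ ?_ ?_ hZ1 hR h2 ?_ base
      · exact Nat.mul_le_mul_left _ (Nat.pow_le_pow_right hq1 (by omega))
      · rw [← hq, pow_succ]; exact le_of_eq (by ring)
      · refine hA1l.trans ?_
        exact_mod_cast Nat.le_mul_of_pos_right _ (Nat.pow_pos hq1)
      · intro R' h4 h5
        have hp : (0 : ℝ) < H ^ ζ := by linarith
        refine ih (by omega) R' h4 ?_ ?_
        · exact h5.trans ((div_le_self (by linarith) hHζ).trans h2)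
        · refine h5.trans ?_
          rw [div_le_iff₀ hp]
          calc R ≤ H ^ ε' * (H ^ ζ) ^ (s + 1) := h3
            _ = _ := by ring
  have hfin : H ≤ H ^ ε' * (H ^ ζ) ^ sm := by
    have e1 : (1 : ℝ) ≤ ζ * sm := by
      have := Nat.le_ceil (1 / ζ)
      rw [← hsm, div_le_iff₀ hζ0] at this
      linarith
    calc H = 1 * H ^ (1 : ℝ) := by simp
      _ ≤ H ^ ε' * H ^ (ζ * sm) := by
        gcongr
      _ = _ := by rw [Real.rpow_mul hH0.le, Real.rpow_natCast]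
  have h3ε : H ^ ε' * H ^ ε' * H ^ ε' ≤ H ^ ε := by
    rw [← Real.rpow_add hH0, ← Real.rpow_add hH0]
    exact Real.rpow_le_rpow_of_exponent_le hH1 (by linarith)
  have hZ : ∀ R, 1 ≤ R → R ≤ H → C * H ^ ε' * R ^ ε' ≤ H ^ ε := by
    intro R h1 h2
    refine le_trans ?_ h3ε
    have : (0 : ℝ) ≤ R := by linarith
    gcongr
  refine ⟨K1, A1 * q ^ sm, H ^ ε', hK2, hAs sm, ?_, ?_, fun d h => (hd d h).trans (hζε'.trans hε'ε),
    fun R h1 h2 => (main sm le_rfl R h1 h2 (h2.trans hfin)).mono le_rfl (hZ R h1 h2),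
    fun R h1 h2 => (base R h1 h2).mono le_rfl (hZ R h1 ?_)⟩
  · calc (K1 : ℝ) = K1 ^ 1 := by simp
      _ ≤ K1 ^ C1 := pow_le_pow_right₀ hK1r (by omega)
      _ ≤ _ := hKC.trans (hζε'.trans hε'ε)
  · exact (pow_le_pow_right₀ hK1r hC12).trans (hKC.trans hζε')
  · refine h2.trans ?_
    calc H ^ ε' ≤ H ^ (1 : ℝ) := Real.rpow_le_rpow_of_exponent_le hH1 (by linarith)
      _ = H := by simp

end

end Pool.Agent.Lib.MP_108739_an.HA
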