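import Pool.Agent.Lib.MP_108739_an.HA.Basic

/-! One dimensional kernels: partitions of unity, bumps and Dirichlet cutoffs. -/

namespace Pool.Agent.Lib.MP_108739_an.HA

open Finset
open scoped Real

noncomputable section

namespace Kr

/-- Modulation of a one dimensional array. -/
def md1 (θ : ℝ) (A : Arr1) : Arr1 :=
  .ofCoeff (Finsupp.onFinset A.coeff.support (fun s => A.coeff s * ex (θ * s))
    (fun _ hk => Finsupp.mem_support_iff.2 (left_ne_zero_of_mul hk)))

lemma coeff_md1 (θ : ℝ) (A : Arr1) (s : ℤ) : (md1 θ A).coeff s = A.coeff s * ex (θ * s) := rfl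

lemma support_md1 (θ : ℝ) (A : Arr1) : (md1 θ A).coeff.support = A.coeff.support := by
  ext k
  simp [Finsupp.mem_support_iff, coeff_md1, ex_ne_zero]

lemma ev1_md1 {P : ℝ} (hP : P ≠ 0) (y0 : ℝ) (A : Arr1) (y : ℝ) :
    ev1 P (md1 (-(y0 / P)) A) y = ev1 P A (y - y0) := by
  simp only [ev1, support_md1, coeff_md1]
  refine sum_congr rfl fun k _ => ?_
  rw [mul_assoc, ← ex_add]
  congr 2
  field_simp
  ring

lemma nrm1_md1 (θ : ℝ) (A : Arr1) : nrm1 (md1 θ A) = nrm1 A := by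
  simp only [nrm1, support_md1, coeff_md1, norm_mul, norm_ex, mul_one]

/-- Spectrum in an integer interval. -/
def In (a b : ℤ) (A : Arr1) : Prop := ∀ s ∈ A.coeff.support, a ≤ s ∧ s ≤ b

lemma In.mul {a b c d : ℤ} {A B : Arr1} (h : In a b A) (h' : In c d B) :
    In (a + c) (b + d) (A * B) := fun s hs => by
  obtain ⟨x, hx, y, hy, rfl⟩ := mem_support_mul1 hs
  exact ⟨add_le_add (h x hx).1 (h' y hy).1, add_le_add (h x hx).2 (h' y hy).2⟩

lemma In.pow {a b : ℤ} {A : Arr1} (h : In a b A) (k : ℕ) : In (k * a) (k * b) (A ^ k) := by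
  induction k with
  | zero =>
    intro s hs
    rw [pow_zero, AddMonoidAlgebra.one_def, AddMonoidAlgebra.coeff_single] at hs
    have := Finsupp.support_single_subset hs
    simp only [mem_singleton] at this
    simp [this]
  | succ k ih =>
    have := ih.mul h
    rw [pow_succ]
    convert this using 1 <;> push_cast <;> ring

/-- Normalised Dirichlet kernel with frequencies `ε a`, `a < n`. -/
def Dk (ε : ℤ) (n : ℕ) : Arr1 := ∑ a ∈ range n, .single (ε * a) (1 / n : ℂ)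

lemma mem_Dk {ε : ℤ} {n : ℕ} {s : ℤ} (hs : s ∈ (Dk ε n).coeff.support) : ∃ a < n, s = ε * a := by
  obtain ⟨a, ha, h⟩ := mem_support_sum1 hs
  rw [AddMonoidAlgebra.coeff_single] at h
  exact ⟨a, mem_range.1 ha, mem_singleton.1 (Finsupp.support_single_subset h)⟩

lemma in_Dk (n : ℕ) : In 0 (n - 1) (Dk 1 n) := fun s hs => by
  obtain ⟨a, ha, rfl⟩ := mem_Dk hs
  omega

lemma in_Dk' (n : ℕ) : In (-(n - 1)) 0 (Dk (-1) n) := fun s hs => by
  obtain ⟨a, ha, rfl⟩ := mem_Dk hs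
  omega

lemma ev1_Dk (ε : ℤ) (n : ℕ) (P y : ℝ) :
    ev1 P (Dk ε n) y = 1 / n * ∑ a ∈ range n, ex (a * (ε * y / P)) := by
  rw [Dk, ev1_sum, mul_sum]
  refine sum_congr rfl fun a _ => ?_
  rw [ev1_single]
  congr 2
  push_cast
  ring

/-- The Fejér type square. -/
def Fk (n : ℕ) : Arr1 := Dk 1 n * Dk (-1) n

lemma in_Fk (n : ℕ) : In (-(n - 1)) (n - 1) (Fk n) := by
  have := (in_Dk n).mul (in_Dk' n)
  rwa [zero_add, add_zero] at this

lemma ev1_Fk (n : ℕ) (P y : ℝ) : ev1 P (Fk n) y = ((‖ev1 P (Dk 1 n) y‖ ^ 2 : ℝ) : ℂ) := by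
  have : ev1 P (Dk (-1) n) y = (starRingEnd ℂ) (ev1 P (Dk 1 n) y) := by
    rw [ev1_Dk, ev1_Dk, map_mul, map_sum]
    congr 1
    · simp
    · refine sum_congr rfl fun a _ => ?_
      rw [conj_ex]
      congr 1
      push_cast
      ring
  rw [Fk, ev1_mul, this, Complex.mul_conj, Complex.normSq_eq_norm_sq]

lemma coeff_Fk {n : ℕ} (hn : 0 < n) : (Fk n).coeff 0 = 1 / n := by
  have hn' : (n : ℂ) ≠ 0 := by exact_mod_cast hn.ne'
  rw [Fk, Dk, Dk, sum_mul_sum]
  simp only [AddMonoidAlgebra.single_mul_single, AddMonoidAlgebra.coeff_sum,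
    Finsupp.finsetSum_apply, AddMonoidAlgebra.coeff_single, Finsupp.single_apply]
  have : ∀ a ∈ range n, (∑ b ∈ range n,
      if (1 * (a : ℤ) + -1 * (b : ℤ) = 0) then (1 / n * (1 / n) : ℂ) else 0) = 1 / n * (1 / n) := by
    intro a ha
    rw [sum_eq_single a (fun b _ hb => if_neg (by omega)) (fun h => absurd ha h), if_pos (by omega)]
  rw [sum_congr rfl this, sum_const, card_range, nsmul_eq_mul]
  field_simp

lemma norm_Dk_le (n : ℕ) (P y : ℝ) : ‖ev1 P (Dk 1 n) y‖ ≤ 1 := by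
  rcases Nat.eq_zero_or_pos n with rfl | hn
  · simp [ev1_Dk]
  have hn' : (0 : ℝ) < n := by exact_mod_cast hn
  rw [ev1_Dk, norm_mul, norm_div, norm_one, Complex.norm_natCast, one_div_mul_eq_div,
    div_le_one hn']
  refine (norm_sum_le _ _).trans (le_of_eq ?_)
  simp [norm_ex]

lemma ev1_Dk_zero {n : ℕ} (hn : 0 < n) (P : ℝ) : ev1 P (Dk 1 n) 0 = 1 := by
  have hn' : (n : ℂ) ≠ 0 := by exact_mod_cast hn.ne'
  simp [ev1_Dk, ex_zero, hn']

lemma nrm1_Dk {n : ℕ} (hn : 0 < n) : nrm1 (Dk 1 n) ≤ 1 / n := by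
  have hn' : (0 : ℝ) < n := by exact_mod_cast hn
  have hs : (Dk 1 n).coeff.support ⊆ (range n).image fun a : ℕ => (a : ℤ) := fun s hs => by
    obtain ⟨a, ha, rfl⟩ := mem_Dk hs
    exact mem_image.2 ⟨a, mem_range.2 ha, (one_mul _).symm⟩
  rw [nrm1_eq_sum hs, sum_image fun _ _ _ _ h => by exact_mod_cast h]
  have : ∀ a ∈ range n, ‖(Dk 1 n).coeff (a : ℤ)‖ ^ 2 = (1 / n) ^ 2 := by
    intro a ha
    simp only [Dk, AddMonoidAlgebra.coeff_sum, Finsupp.finsetSum_apply,
      AddMonoidAlgebra.coeff_single, Finsupp.single_apply]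
    rw [sum_eq_single a (fun b _ hb => if_neg (by omega)) (fun h => absurd ha h), if_pos (by omega)]
    simp
  rw [sum_congr rfl this, sum_const, card_range, nsmul_eq_mul]
  exact le_of_eq (by field_simp)

lemma four_le_norm {t : ℝ} (ht : |t| ≤ 1 / 2) : 4 * |t| ≤ ‖ex t - 1‖ := by
  have e : ex t = Complex.exp (Complex.I * ((2 * π * t : ℝ) : ℂ)) := by
    simp only [ex]
    push_cast
    ring_nf
  have hπ := Real.pi_pos
  have h1 := Real.mul_le_sin (x := π * |t|) (by positivity) (by nlinarith)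
  have h2 : |Real.sin (π * t)| = Real.sin (π * |t|) := by
    have h0 : 0 ≤ Real.sin (π * |t|) := le_trans (by positivity) h1
    rcases abs_choice t with h | h
    · rw [h] at h0 ⊢
      exact abs_of_nonneg h0
    · rw [h, mul_neg, Real.sin_neg] at h0 ⊢
      exact abs_of_nonpos (by linarith)
  rw [e, Complex.norm_exp_I_mul_ofReal_sub_one, show 2 * π * t / 2 = π * t by ring,
    Real.norm_eq_abs, abs_mul, h2, abs_two]
  have h3 : 2 / π * (π * |t|) = 2 * |t| := by field_simp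
  linarith

lemma four_le_norm' {t d : ℝ} (hd : d ≤ 1 / 4) (h1 : d ≤ |t|) (h2 : |t| ≤ 3 / 4) :
    4 * d ≤ ‖ex t - 1‖ := by
  rcases le_total |t| (1 / 2) with h | h
  · linarith [four_le_norm h]
  rcases abs_choice t with h3 | h3
  · have e : ex t = ex (t - 1) := by
      have := ex_add (t - 1) (1 : ℤ)
      rw [ex_int, mul_one] at this
      rw [← this]
      simp
    have h4 : |t - 1| = 1 - t := by rw [abs_sub_comm, abs_of_nonneg (by linarith)]
    have := four_le_norm (t := t - 1) (by linarith)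
    rw [e]
    linarith
  · have e : ex t = ex (t + 1) := by
      have := ex_add t (1 : ℤ)
      rw [ex_int, mul_one] at this
      rw [← this]
      simp
    have h4 : |t + 1| = t + 1 := abs_of_nonneg (by linarith)
    have := four_le_norm (t := t + 1) (by linarith)
    rw [e]
    linarith

lemma norm_Dk_decay {n : ℕ} (hn : 0 < n) {P y d : ℝ} (hP : 0 < P) (hd : 0 < d) (h1 : d ≤ P / 4)
    (h2 : d ≤ |y|) (h3 : |y| ≤ 3 * P / 4) : ‖ev1 P (Dk 1 n) y‖ ≤ P / (2 * n * d) := by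
  have hn' : (0 : ℝ) < n := by exact_mod_cast hn
  have h4 : 4 * (d / P) ≤ ‖ex (y / P) - 1‖ := by
    refine four_le_norm' ?_ ?_ ?_
    · rw [div_le_iff₀ hP]
      linarith
    · rw [abs_div, abs_of_pos hP]
      gcongr
    · rw [abs_div, abs_of_pos hP, div_le_iff₀ hP]
      linarith
  have h5 : ‖∑ a ∈ range n, ex (y / P) ^ a‖ * ‖ex (y / P) - 1‖ ≤ 2 := by
    rw [← norm_mul, geom_sum_mul]
    refine (norm_sub_le _ _).trans ?_
    rw [norm_pow, norm_ex, one_pow, norm_one]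
    norm_num
  have h6 : ‖∑ a ∈ range n, ex (y / P) ^ a‖ * (4 * (d / P)) ≤ 2 := le_trans (by gcongr) h5
  rw [ev1_Dk, norm_mul, norm_div, norm_one, Complex.norm_natCast]
  simp only [Int.cast_one, one_mul, ex_nat_mul]
  rw [← le_div_iff₀ (by positivity)] at h6
  calc _ ≤ 1 / n * (2 / (4 * (d / P))) := by gcongr
    _ = _ := by field_simp; norm_num

lemma norm_Dk_ge {n : ℕ} (hn : 0 < n) {P y : ℝ} (h : n * |y / P| ≤ 1 / 10) :
    1 / 2 ≤ ‖ev1 P (Dk 1 n) y‖ := by
  have hn' : (0 : ℝ) < n := by exact_mod_cast hn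
  have hn'' : (n : ℂ) ≠ 0 := by exact_mod_cast hn.ne'
  have e : ex (n / 2 * (y / P)) - ev1 P (Dk 1 n) y =
      1 / n * ∑ a ∈ range n, (ex (n / 2 * (y / P)) - ex (a * (y / P))) := by
    rw [ev1_Dk, sum_sub_distrib, sum_const, card_range, nsmul_eq_mul]
    simp only [Int.cast_one, one_mul]
    field_simp
  have h1 : ∀ a ∈ range n, ‖ex (n / 2 * (y / P)) - ex (a * (y / P))‖ ≤ 1 / 2 := by
    intro a ha
    have ha' : (a : ℝ) < n := by exact_mod_cast mem_range.1 ha
    have ha0 : (0 : ℝ) ≤ a := by positivity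
    refine (norm_ex_sub_ex_le _ _).trans ?_
    rw [← sub_mul, abs_mul]
    have h2 : |(n : ℝ) / 2 - a| ≤ n / 2 := abs_le.2 ⟨by linarith, by linarith⟩
    have h3 : |(n : ℝ) / 2 - a| * |y / P| ≤ 1 / 20 := by
      calc _ ≤ n / 2 * |y / P| := by gcongr
        _ ≤ _ := by linarith
    have h4 := Real.pi_le_four
    calc _ ≤ (2 : ℝ) * 4 * (1 / 20) := by gcongr
      _ ≤ _ := by norm_num
  have h2 : ‖ex (n / 2 * (y / P)) - ev1 P (Dk 1 n) y‖ ≤ 1 / 2 := by
    rw [e, norm_mul, norm_div, norm_one, Complex.norm_natCast, one_div_mul_eq_div,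
      div_le_iff₀ hn']
    refine (norm_sum_le _ _).trans ((sum_le_sum h1).trans (le_of_eq ?_))
    rw [sum_const, card_range, nsmul_eq_mul, mul_comm]
  have h3 := norm_sub_norm_le (ex (n / 2 * (y / P))) (ev1 P (Dk 1 n) y)
  rw [norm_ex] at h3
  linarith

/-- A centred complete residue system. -/
def Jn (N : ℕ) : Finset ℤ := (range N).image fun a : ℕ => (a : ℤ) - (N / 2 : ℕ)

lemma mem_Jn {N : ℕ} {j : ℤ} : j ∈ Jn N ↔ -((N / 2 : ℕ) : ℤ) ≤ j ∧ j < N - (N / 2 : ℕ) := by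
  simp only [Jn, mem_image, mem_range]
  constructor
  · rintro ⟨a, ha, rfl⟩
    omega
  · intro h
    exact ⟨(j + (N / 2 : ℕ)).toNat, by omega, by omega⟩

lemma card_Jn (N : ℕ) : #(Jn N) ≤ N := card_image_le.trans (card_range N).le

lemma sum_md1 {N : ℕ} {A : Arr1} {b : ℤ} (hA : In (-b) b A) (hb : b < N) :
    ∑ j ∈ Jn N, md1 (-(j / N)) A = ((N : ℂ) * A.coeff 0) • 1 := by
  ext s
  rw [AddMonoidAlgebra.coeff_sum, Finsupp.finsetSum_apply]
  simp only [coeff_md1]
  rw [← mul_sum, AddMonoidAlgebra.one_def, AddMonoidAlgebra.smul_single,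
    AddMonoidAlgebra.coeff_single, Finsupp.single_apply, smul_eq_mul, mul_one]
  by_cases hs : s ∈ A.coeff.support
  swap
  · rw [Finsupp.notMem_support_iff.1 hs, zero_mul]
    split_ifs with h
    · rw [h, Finsupp.notMem_support_iff.1 hs, mul_zero]
    · rfl
  have h1 := hA s hs
  have h2 := sum_ex_range N (-s) (by rw [abs_lt]; omega)
  have h3 : ∑ j ∈ Jn N, ex (-((j : ℝ) / N) * s) =
      (∑ a ∈ range N, ex (a * (((-s : ℤ) : ℝ) / N))) * ex ((N / 2 : ℕ) * s / N) := by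
    rw [Jn, sum_image fun _ _ _ _ h => by simpa using h, sum_mul]
    refine sum_congr rfl fun a _ => ?_
    rw [← ex_add]
    congr 1
    simp only [Int.cast_sub, Int.cast_natCast, Int.cast_neg]
    ring
  rw [h3, h2]
  by_cases h : s = 0
  · subst h
    simp [ex_zero, mul_comm]
  · rw [if_neg (by omega), if_neg (by omega), zero_mul, mul_zero]

lemma sum_ev1 {N : ℕ} {A : Arr1} {b : ℤ} (hA : In (-b) b A) (hb : b < N) {P : ℝ} (hP : P ≠ 0)
    (y : ℝ) : ∑ j ∈ Jn N, ev1 P A (y - j * (P / N)) = (N : ℂ) * A.coeff 0 := by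
  have := congrArg (fun B => ev1 P B y) (sum_md1 hA hb)
  simp only [ev1_sum, ev1_smul, ev1_one, mul_one] at this
  rw [← this]
  refine sum_congr rfl fun j _ => ?_
  rw [← ev1_md1 hP]
  congr 3
  field_simp

lemma spec_of_in {P u : ℝ} (hP : 0 < P) {A : Arr1} {a b : ℤ} (h : In a b A) (ha : -(u * P) ≤ a)
    (hb : (b : ℝ) ≤ u * P) : Spec1 P u A := fun s hs => by
  have h1 : (a : ℝ) ≤ s := by exact_mod_cast (h s hs).1
  have h2 : (s : ℝ) ≤ b := by exact_mod_cast (h s hs).2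
  rw [abs_div, abs_of_pos hP, div_le_iff₀ hP, abs_le]
  constructor <;> linarith

lemma In.md1 {a b : ℤ} {A : Arr1} (h : In a b A) (θ : ℝ) : In a b (md1 θ A) := fun s hs =>
  h s (support_md1 θ A ▸ hs)

lemma floor_facts {x : ℝ} (hx : 2 ≤ x) : 0 < ⌊x⌋₊ ∧ (⌊x⌋₊ : ℝ) ≤ x ∧ x / 2 ≤ ⌊x⌋₊ :=
  ⟨Nat.floor_pos.2 (by linarith), Nat.floor_le (by linarith),
    by linarith [Nat.lt_floor_add_one x]⟩

end Kr

open Kr in
theorem ker : KerStmt := by
  intro k P w hk hw hP
  have hk' : (1 : ℝ) ≤ k := by exact_mod_cast hk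
  have hP0 : 0 < P := lt_of_lt_of_le (by positivity) hP
  obtain ⟨hn, n1, n2⟩ := floor_facts (x := P / (k * w)) (by
    rw [le_div_iff₀ (by positivity)]
    linarith)
  set n := ⌊P / (k * w)⌋₊
  have hn' : (0 : ℝ) < n := by exact_mod_cast hn
  rw [le_div_iff₀ (by positivity)] at n1
  rw [div_div, div_le_iff₀ (by positivity)] at n2
  have hN : (0 : ℝ) < (k * n : ℕ) := by positivity
  have hNw : ((k * n : ℕ) : ℝ) * w ≤ P := by push_cast; linarith
  have hNw' : P ≤ 2 * w * (k * n : ℕ) := by push_cast; linarith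
  have hNP : ((k * n : ℕ) : ℝ) ≤ P / w := (le_div_iff₀ hw).2 hNw
  have hin : In (-(k * (n - 1))) (k * (n - 1)) (Fk n ^ k) := by
    have := (in_Fk n).pow k
    rwa [mul_neg] at this
  have hb : (k : ℤ) * (n - 1) < (k * n : ℕ) := by
    push_cast
    have : (1 : ℤ) ≤ k := by exact_mod_cast hk
    linarith
  set g : ℝ → ℝ := fun y => (‖ev1 P (Dk 1 n) y‖ ^ 2) ^ k with hg
  have g0 : ∀ y, 0 ≤ g y := fun y => by positivity
  have hev : ∀ y, ev1 P (Fk n ^ k) y = g y := fun y => by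
    rw [ev1_pow, ev1_Fk]
    simp [hg]
  set c : ℝ := ∑ j ∈ Jn (k * n), g (0 - j * (P / (k * n : ℕ))) with hc
  have hcc : (c : ℂ) = ((k * n : ℕ) : ℂ) * (Fk n ^ k).coeff 0 := by
    rw [← sum_ev1 hin hb hP0.ne' 0, hc]
    simp only [hev]
    push_cast
    rfl
  have hc1 : 1 ≤ c := by
    have h0 : (0 : ℤ) ∈ Jn (k * n) := by
      have : 0 < k * n := by positivity
      rw [mem_Jn]
      omega
    have := single_le_sum (f := fun j : ℤ => g (0 - j * (P / (k * n : ℕ)))) (fun j _ => g0 _) h0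
    refine le_trans (le_of_eq ?_) this
    simp [hg, ev1_Dk_zero hn]
  have hc0 : (c : ℂ) ≠ 0 := by exact_mod_cast (show c ≠ 0 by linarith)
  have hη : ∀ (j : ℤ) y, ev1 P ((c : ℂ)⁻¹ • md1 (-(j / (k * n : ℕ))) (Fk n ^ k)) y =
      ((c⁻¹ * g (y - j * (P / (k * n : ℕ))) : ℝ) : ℂ) := fun j y => by
    rw [ev1_smul, Complex.ofReal_mul, Complex.ofReal_inv, ← hev, ← ev1_md1 hP0.ne']
    congr 4
    field_simp
  refine ⟨Jn (k * n), P / (k * n : ℕ), fun j => (c : ℂ)⁻¹ • md1 (-(j / (k * n : ℕ))) (Fk n ^ k),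
    ?_, ?_, ?_, ?_, ?_, ?_, ?_, ?_⟩
  · rw [le_div_iff₀ hN]
    nlinarith
  · rw [div_le_iff₀ hN]
    exact hNw'
  · have h1 : (#(Jn (k * n)) : ℝ) ≤ (k * n : ℕ) := by exact_mod_cast card_Jn _
    have h2 : 2 * P / w = 2 * (P / w) := by ring
    linarith
  · intro j hj
    rw [mem_Jn] at hj
    have h1 : 2 * |j| ≤ (k * n : ℕ) := by
      rcases abs_choice j with h | h <;> omega
    have h2 : 2 * |(j : ℝ)| ≤ (k * n : ℕ) := by exact_mod_cast h1
    rw [abs_mul, abs_of_pos (div_pos hP0 hN), ← mul_div_assoc, div_le_iff₀ hN]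
    nlinarith
  · intro j _ s hs
    have h1 : ((k * (n - 1) : ℤ) : ℝ) ≤ 1 / w * P := by
      push_cast at hNP ⊢
      rw [one_div_mul_eq_div]
      nlinarith
    refine spec_of_in hP0 (hin.md1 (-(j / (k * n : ℕ)))) ?_ h1 s ?_
    · rw [Int.cast_neg]
      linarith
    · exact Finsupp.support_smul hs
  · intro j _ y
    exact ⟨_, mul_nonneg (by positivity) (g0 _), hη j y⟩
  · rw [← smul_sum, sum_md1 hin hb, ← hcc, smul_smul, inv_mul_cancel₀ hc0, one_smul]
  · intro j _ y d hd h1 h2 h3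
    have h4 : |y - j * (P / (k * n : ℕ))| ≤ 3 * P / 4 := (abs_sub _ _).trans h2
    have h5 := norm_Dk_decay hn hP0 hd h1 h3 h4
    have h6 : P / (2 * n * d) ≤ k * w / d := by
      rw [div_le_div_iff₀ (by positivity) hd]
      nlinarith
    have h7 : c⁻¹ ≤ 1 := inv_le_one_of_one_le₀ hc1
    rw [hη, Complex.norm_real, Real.norm_eq_abs,
      abs_of_nonneg (mul_nonneg (by positivity) (g0 _))]
    calc _ ≤ 1 * g (y - j * (P / (k * n : ℕ))) := mul_le_mul_of_nonneg_right h7 (g0 _)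
      _ = ‖ev1 P (Dk 1 n) (y - j * (P / (k * n : ℕ)))‖ ^ (2 * k) := by rw [one_mul, pow_mul]
      _ ≤ _ := pow_le_pow_left₀ (norm_nonneg _) (h5.trans h6) _

theorem bump : BumpStmt := by
  classical
  intro k P w W y0 r hk hw hP hW hr hy
  obtain ⟨J, s0, η, -, -, hJ, hj, hs, hre, h1, hd⟩ := ker k P w hk hw hP
  have hy0 := abs_nonneg y0
  have hP0 : 0 < P := by linarith
  choose! g g0 hg using hre
  have e2 : k * w / (W / 2) = 2 * k * w / W := by field_simp
  have tail : ∀ (T : Finset ℤ) (y : ℝ), T ⊆ J →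
      (∀ j ∈ T, |y| + |j * s0| ≤ 3 * P / 4 ∧ W / 2 ≤ |y - j * s0|) →
      ‖ev1 P (∑ j ∈ T, η j) y‖ ≤ (2 * P / w + 1) * (2 * k * w / W) ^ (2 * k) := by
    intro T y hT h
    rw [ev1_sum]
    refine (norm_sum_le _ _).trans ((sum_le_sum fun j hj => hd j (hT hj) y (W / 2) (by positivity)
      (by linarith) (h j hj).1 (h j hj).2).trans ?_)
    rw [sum_const, nsmul_eq_mul, e2]
    have : (#T : ℝ) ≤ #J := by exact_mod_cast card_le_card hT
    gcongr
    linarith
  refine ⟨∑ j ∈ J.filter fun j : ℤ => |j * s0 - y0| ≤ r + W / 2, η j, ?_, ?_, ?_, ?_⟩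
  · intro s hs'
    obtain ⟨j, hj', h⟩ := mem_support_sum1 hs'
    exact hs j (mem_filter.1 hj').1 s h
  · intro y
    have h2 : ∑ j ∈ J, g j y = 1 := by
      have := congrArg (fun B => ev1 P B y) h1
      simp only [ev1_sum, ev1_one] at this
      rw [sum_congr rfl fun j hj => hg j hj y] at this
      exact_mod_cast this
    rw [ev1_sum, sum_congr rfl fun j hj => hg j (mem_filter.1 hj).1 y, ← Complex.ofReal_sum,
      Complex.norm_real, Real.norm_eq_abs,
      abs_of_nonneg (sum_nonneg fun j hj => g0 j (mem_filter.1 hj).1 y), ← h2]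
    exact sum_le_sum_of_subset_of_nonneg (filter_subset _ _) fun j hj _ => g0 j hj y
  · intro y h
    have h2 := tail (J.filter fun j : ℤ => ¬|j * s0 - y0| ≤ r + W / 2) y (filter_subset _ _)
      fun j hj' => by
        obtain ⟨a1, a2⟩ := mem_filter.1 hj'
        have a3 := hj j a1
        have a4 := abs_sub_abs_le_abs_sub y y0
        have a5 := abs_sub_le (j * s0) y y0
        rw [abs_sub_comm (j * s0) y] at a5
        push Not at a2
        constructor <;> linarith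
    have h3 := congrArg (fun B => ‖ev1 P B y‖)
      ((sum_filter_add_sum_filter_not J (fun j : ℤ => |j * s0 - y0| ≤ r + W / 2) η).trans h1)
    simp only [ev1_add, ev1_one, norm_one] at h3
    have h4 := norm_add_le (ev1 P (∑ j ∈ J.filter fun j : ℤ => |j * s0 - y0| ≤ r + W / 2, η j) y)
      (ev1 P (∑ j ∈ J.filter fun j : ℤ => ¬|j * s0 - y0| ≤ r + W / 2, η j) y)
    linarith
  · intro y h h'
    refine tail _ y (filter_subset _ _) fun j hj' => ?_
    have a2 := (mem_filter.1 hj').2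
    have a4 := abs_sub_abs_le_abs_sub (j * s0) y0
    have a5 := abs_sub_le y (j * s0) y0
    constructor <;> linarith

open Kr in
theorem dir : DirStmt := by
  intro P u hu hP
  have hP0 : 0 < P := by linarith
  obtain ⟨hn, n1, n2⟩ := floor_facts (x := P / (10 * u)) (by
    rw [le_div_iff₀ (by positivity)]
    linarith)
  set n := ⌊P / (10 * u)⌋₊
  have hn' : (0 : ℝ) < n := by exact_mod_cast hn
  have sp : ∀ θ, Spec1 P (1 / (10 * u)) (md1 θ (Dk 1 n)) := fun θ => by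
    refine spec_of_in hP0 ((in_Dk n).md1 θ) ?_ ?_
    · rw [Int.cast_zero, neg_nonpos]
      positivity
    · push_cast
      rw [one_div_mul_eq_div]
      linarith
  rw [le_div_iff₀ (by positivity)] at n1
  rw [div_div, div_le_iff₀ (by positivity)] at n2
  have lo : ∀ y0 y : ℝ, |y - y0| ≤ u → 1 / 2 ≤ ‖ev1 P (md1 (-(y0 / P)) (Dk 1 n)) y‖ := by
    intro y0 y h
    rw [ev1_md1 hP0.ne']
    refine norm_Dk_ge hn ?_
    rw [abs_div, abs_of_pos hP0, ← mul_div_assoc, div_le_iff₀ hP0]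
    have : n * |y - y0| ≤ n * u := by gcongr
    linarith
  refine ⟨fun y0 => ⟨md1 (-(y0 / P)) (Dk 1 n), sp _, ?_, fun y => ?_, lo y0⟩, ?_⟩
  · rw [nrm1_md1]
    refine (nrm1_Dk hn).trans ?_
    rw [div_le_div_iff₀ hn' hP0]
    linarith
  · rw [ev1_md1 hP0.ne']
    exact norm_Dk_le _ _ _
  have hx : 20 ≤ P / u := (le_div_iff₀ hu).2 hP
  have N1 := Nat.le_ceil (P / u)
  have N2 := (Nat.ceil_lt_add_one (show 0 ≤ P / u by positivity)).le
  set N := ⌈P / u⌉₊
  have hN : (0 : ℝ) < N := by linarith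
  have N3 : P ≤ N * u := (div_le_iff₀ hu).1 N1
  have N4 : N * u ≤ 2 * P := by
    have : (N : ℝ) ≤ 2 * P / u := by
      rw [mul_div_assoc]
      linarith
    exact (le_div_iff₀ hu).1 this
  refine ⟨Jn N, P / N, fun j => md1 (-(j * (P / N) / P)) (Dk 1 n), ?_, ?_, ?_, fun j _ => sp _,
    fun j _ y => lo _ y, fun y => ?_⟩
  · rw [le_div_iff₀ hN]
    linarith
  · rw [div_le_iff₀ hN]
    linarith
  · intro j hj
    rw [abs_mul, abs_of_pos (div_pos hP0 hN), ← mul_div_assoc, div_le_iff₀ hN] at hj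
    have h1 : 3 * |(j : ℝ)| ≤ N := by nlinarith
    have h2 : 3 * |j| ≤ (N : ℤ) := by exact_mod_cast h1
    have h3 : 20 ≤ N := by exact_mod_cast (show (20 : ℝ) ≤ N by linarith)
    have h4 := le_abs_self j
    have h5 := neg_abs_le j
    rw [mem_Jn]
    omega
  · have hb : (n : ℤ) - 1 < N := by
      have : (n : ℝ) ≤ N := by nlinarith
      have : n ≤ N := by exact_mod_cast this
      omega
    have h1 := sum_ev1 (in_Fk n) hb hP0.ne' y
    simp only [ev1_Fk, coeff_Fk hn] at h1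
    have h2 : ∑ j ∈ Jn N, ‖ev1 P (Dk 1 n) (y - j * (P / N))‖ ^ 2 = N * (1 / n) := by
      apply Complex.ofReal_injective
      rw [Complex.ofReal_sum, h1]
      push_cast
      rfl
    simp only [ev1_md1 hP0.ne']
    rw [h2, mul_one_div, div_le_iff₀ hn']
    nlinarith

end

end Pool.Agent.Lib.MP_108739_an.HA
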