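import Pool.Agent.Lib.MP_108739_an.HA.Geo

/-! The light case: the number of near leaves times the packet energy is small. -/

namespace Pool.Agent.Lib.MP_108739_an.HA

open Finset

theorem ln_mf {α : Type*} {p : α → Prop} {inst : DecidablePred p} {s : Finset α} {a : α}
    (h : a ∈ @filter α p inst s) : a ∈ s ∧ p a := (@mem_filter α p inst s a).1 h

theorem ln_interval (D ls n : ℕ) (L : Finset ℕ) (th ts : ℝ) (hD : 2 ≤ D) (hth : 0 < th)
    (h0 : 0 ≤ ts) (h1 : ts ≤ 1) (hL : ∀ l ∈ L, l < D ^ ls)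
    (harc : ∀ h ≤ ls, ∀ a, (#(arcS D h a L) : ℝ) * th ≤ 4 * n * ((D : ℝ) ^ h) ^ ts)
    (l0 : ℤ) (r : ℕ) (hr : 1 ≤ r) (W : Finset ℕ)
    (hW : ∀ l ∈ W, l ∈ L ∧ l0 ≤ (l : ℤ) ∧ (l : ℤ) < l0 + r) :
    (#W : ℝ) ≤ 8 * n * D / th * (r : ℝ) ^ ts := by
  have hD1 : (1 : ℝ) ≤ D := by exact_mod_cast (by omega : 1 ≤ D)
  have hr1 : (1 : ℝ) ≤ r := by exact_mod_cast hr
  have hrp : (0 : ℝ) ≤ (r : ℝ) ^ ts := by positivity
  have hn : (0 : ℝ) ≤ n := Nat.cast_nonneg n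
  rw [div_mul_eq_mul_div, le_div_iff₀ hth]
  by_cases hc : D ^ ls ≤ r
  · have hs : W ⊆ arcS D ls 0 L := fun l hl => by
      unfold arcS
      exact mem_filter.2 ⟨(hW l hl).1, Nat.div_eq_of_lt (hL l (hW l hl).1)⟩
    have h2 : (#W : ℝ) ≤ #(arcS D ls 0 L) := by exact_mod_cast card_le_card hs
    have h3 := harc ls le_rfl 0
    have h4 : ((D : ℝ) ^ ls) ^ ts ≤ (r : ℝ) ^ ts :=
      Real.rpow_le_rpow (by positivity) (by exact_mod_cast hc) h0
    have h5 : (#W : ℝ) * th ≤ 4 * n * (r : ℝ) ^ ts :=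
      (mul_le_mul_of_nonneg_right h2 hth.le).trans
        (h3.trans (mul_le_mul_of_nonneg_left h4 (by positivity)))
    have h6 : 0 ≤ n * (r : ℝ) ^ ts := mul_nonneg hn hrp
    nlinarith
  · have hex : ∃ h, r ≤ D ^ h := ⟨ls, by omega⟩
    classical
    set h := Nat.find hex with hh
    have hh1 : r ≤ D ^ h := Nat.find_spec hex
    have hh2 : h ≤ ls := Nat.find_min' hex (by omega)
    have hh3 : D ^ h ≤ D * r := by
      rcases Nat.eq_zero_or_pos h with h0 | h0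
      · rw [h0, pow_zero]; nlinarith
      · have h4 := Nat.find_min hex (m := h - 1) (by omega)
        have h5 : D ^ h = D * D ^ (h - 1) := by
          rw [← pow_succ']; congr 1; omega
        rw [h5]
        exact Nat.mul_le_mul_left _ (by omega)
    rcases W.eq_empty_or_nonempty with hWe | hWn
    · rw [hWe]; simp only [card_empty, Nat.cast_zero, zero_mul]; positivity
    have hpos : 0 < D ^ h := by positivity
    set m := W.min' hWn with hm
    have hmW : m ∈ W := W.min'_mem hWn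
    have hs : W ⊆ arcS D h (m / D ^ h) L ∪ arcS D h (m / D ^ h + 1) L := fun l hl => by
      have a1 : m ≤ l := W.min'_le l hl
      have a2 : l ≤ m + D ^ h := by
        have := (hW l hl).2.2
        have := (hW m hmW).2.1
        omega
      have a3 : m / D ^ h ≤ l / D ^ h := Nat.div_le_div_right a1
      have a4 : l / D ^ h ≤ m / D ^ h + 1 := by
        rw [← Nat.add_div_right m hpos]; exact Nat.div_le_div_right a2
      unfold arcS
      rw [mem_union, mem_filter, mem_filter]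
      rcases a3.eq_or_lt with e | e
      · exact Or.inl ⟨(hW l hl).1, e.symm⟩
      · exact Or.inr ⟨(hW l hl).1, by omega⟩
    have h2 : (#W : ℝ) ≤ #(arcS D h (m / D ^ h) L) + #(arcS D h (m / D ^ h + 1) L) := by
      exact_mod_cast (card_le_card hs).trans (card_union_le _ _)
    have h3 := harc h hh2 (m / D ^ h)
    have h3' := harc h hh2 (m / D ^ h + 1)
    have h4 : ((D : ℝ) ^ h) ^ ts ≤ D * (r : ℝ) ^ ts := by
      have b1 : ((D : ℝ) ^ h) ^ ts ≤ ((D : ℝ) * r) ^ ts :=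
        Real.rpow_le_rpow (by positivity) (by exact_mod_cast hh3) h0
      rw [Real.mul_rpow (by positivity) (by positivity)] at b1
      have b2 : (D : ℝ) ^ ts ≤ D := by
        simpa using Real.rpow_le_rpow_of_exponent_le hD1 h1
      exact b1.trans (mul_le_mul_of_nonneg_right b2 hrp)
    have h5 := mul_le_mul_of_nonneg_right h2 hth.le
    have h6 := mul_le_mul_of_nonneg_left h4 (by positivity : (0 : ℝ) ≤ 4 * n)
    nlinarith

theorem ln_arith {c δ κ C0 e t Pi Γ Λ D th n Ec E N NT : ℝ} (hc : 0 < c) (hδ : 0 < δ) (hκ : 0 < κ)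
    (hPi : 0 < Pi) (hΓ : 0 < Γ) (hΛ : 0 < Λ) (hD : 1 ≤ D) (hth : 0 < th) (hn : 0 < n) (hEc : 0 < Ec)
    (hN : 0 < N) (hT : NT * Ec ≤ 2 * E ^ 2)
    (h : c * δ ^ e * κ ^ C0 * (1 / (2 * Pi)) * (N / (Γ * N * δ ^ t)) * δ ^ (t / 2) *
      (2 * n) ^ (3 / 2 : ℝ) / √(8 * n * D / th) ≤ Λ * NT) :
    n * Ec * (c * κ ^ C0 * δ ^ e * √th) ≤ 4 * Pi * Γ * Λ * D * δ ^ (t / 2) * E ^ 2 := by
  have hD0 : 0 < D := by linarith
  have e1 : δ ^ t = δ ^ (t / 2) * δ ^ (t / 2) := by rw [← Real.rpow_add hδ]; ring_nf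
  have e2 : (2 * n) ^ (3 / 2 : ℝ) = 2 * n * √(2 * n) := by
    rw [Real.sqrt_eq_rpow, show (3 / 2 : ℝ) = 1 + 1 / 2 by norm_num,
      Real.rpow_add (by positivity), Real.rpow_one]
  have e3 : √(8 * n * D / th) = 2 * √(2 * n) * √D / √th := by
    rw [Real.sqrt_div' _ hth.le, show 8 * n * D = 2 ^ 2 * (2 * n * D) by ring,
      Real.sqrt_mul (by norm_num), Real.sqrt_sq (by norm_num), Real.sqrt_mul (by positivity)]
    ring
  have p1 : 0 < δ ^ (t / 2) := Real.rpow_pos_of_pos hδ _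
  have p2 : 0 < √(2 * n) := Real.sqrt_pos.2 (by positivity)
  have p3 : 0 < √D := Real.sqrt_pos.2 hD0
  have p4 : 0 < √th := Real.sqrt_pos.2 hth
  have p5 : 0 < δ ^ e := Real.rpow_pos_of_pos hδ _
  have p6 : 0 < κ ^ C0 := Real.rpow_pos_of_pos hκ _
  have e4 : c * δ ^ e * κ ^ C0 * (1 / (2 * Pi)) * (N / (Γ * N * δ ^ t)) * δ ^ (t / 2) *
      (2 * n) ^ (3 / 2 : ℝ) / √(8 * n * D / th) =
      n * (c * κ ^ C0 * δ ^ e * √th) / (2 * Pi * Γ * √D * δ ^ (t / 2)) := by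
    rw [e1, e2, e3]; field_simp
  rw [e4, div_le_iff₀ (by positivity)] at h
  have q1 : √D ≤ D := by
    rw [Real.sqrt_le_left hD0.le]; nlinarith
  have q2 : n * Ec * (c * κ ^ C0 * δ ^ e * √th) ≤
      (NT * Ec) * (Λ * (2 * Pi * Γ * √D * δ ^ (t / 2))) := by
    have := mul_le_mul_of_nonneg_right h hEc.le
    nlinarith
  have q3 : (NT * Ec) * (Λ * (2 * Pi * Γ * √D * δ ^ (t / 2))) ≤
      (2 * E ^ 2) * (Λ * (2 * Pi * Γ * √D * δ ^ (t / 2))) :=
    mul_le_mul_of_nonneg_right hT (by positivity)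
  have q4 : (2 * E ^ 2) * (Λ * (2 * Pi * Γ * √D * δ ^ (t / 2))) ≤
      (2 * E ^ 2) * (Λ * (2 * Pi * Γ * D * δ ^ (t / 2))) := by gcongr
  calc _ ≤ _ := q2
    _ ≤ _ := q3
    _ ≤ _ := q4
    _ = _ := by ring

theorem ln : LNStmt := by
  classical
  intro C0 e e2 c g M X A Pi n lam E Ec th t s0 Γ Λ T pk cl S Lt Pr hF he2 hc hg hX hbox ht0 ht1
    hth hΓ hΛ hPi hFr hSys hNF hLt hLi hA
  obtain ⟨hn, hPr, hPA, hXA, hq⟩ := hLi
  have hδ := hg.δ_pos
  have hK := hg.K1_ge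
  have hD := hg.D_ge
  have hH := hg.H_ge
  have hXc : (0 : ℝ) < #X := by exact_mod_cast hX.card_pos
  have hPi1 : (1 : ℝ) ≤ Pi := by exact_mod_cast hPi
  have hn1 : (1 : ℝ) ≤ n := by exact_mod_cast hn
  have hHe : (1 : ℝ) ≤ g.H ^ e2 := Real.one_le_rpow (by linarith) he2.le
  have hA0 : (0 : ℝ) < A := lt_of_lt_of_le (by positivity) hA
  have hXA' : (#X : ℝ) * A ≤ Pi * #Pr := by exact_mod_cast hXA
  have hPrn : Pr.Nonempty := by
    rw [← card_pos]
    by_contra h0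
    have : #Pr = 0 := by omega
    rw [this] at hXA'
    simp only [Nat.cast_zero, mul_zero] at hXA'
    nlinarith [mul_pos hXc hA0]
  have hts0 : 0 ≤ min t (2 - t) := le_min ht0 (by linarith)
  have hts1 : min t (2 - t) ≤ 1 := by
    rcases le_total t 1 with h | h
    · exact (min_le_left _ _).trans h
    · exact (min_le_right _ _).trans (by linarith)
  have hth4 : th ≤ 4 * n := by
    obtain ⟨q, hqP⟩ := hPrn
    obtain ⟨a1, -, a3, -⟩ := hq q hqP
    obtain ⟨l, hl⟩ : (Lt (cl q.1) q.2).Nonempty := card_pos.1 (by omega)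
    have b1 := a3 0 (Nat.zero_le _) l
    have b2 : (1 : ℝ) ≤ #(arcS g.D 0 l (Lt (cl q.1) q.2)) := by
      have : l ∈ arcS g.D 0 l (Lt (cl q.1) q.2) := by
        unfold arcS; exact mem_filter.2 ⟨hl, by simp⟩
      exact_mod_cast card_pos.2 ⟨l, this⟩
    simp only [pow_zero, Real.one_rpow, mul_one] at b1
    nlinarith
  set Φ : Finset ((ℝ × ℝ) × ℕ × ℕ) :=
    Pr.biUnion fun q => (Lt (cl q.1) q.2).image fun l => (q.1, q.2, l) with hΦ
  have hmem : ∀ f : (ℝ × ℝ) × ℕ × ℕ,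
      f ∈ Φ ↔ (f.1, f.2.1) ∈ Pr ∧ f.2.2 ∈ Lt (cl f.1) f.2.1 := by
    intro f
    rw [hΦ, mem_biUnion]
    constructor
    · rintro ⟨q, hqP, hf⟩
      obtain ⟨l, hl, rfl⟩ := mem_image.1 hf
      exact ⟨hqP, hl⟩
    · rintro ⟨h1, h2⟩
      exact ⟨(f.1, f.2.1), h1, mem_image.2 ⟨f.2.2, h2, rfl⟩⟩
  have hnear : ∀ f ∈ Φ, f.1 ∈ X ∧ f.2.2 < g.D ^ g.ls ∧ ∃ j : ℤ, (f.2.1, f.2.2, j) ∈ T ∧
      |f.1.1 + cs M g.δ f.2.2 * f.1.2 - j * s0| ≤ Λ * g.ρ := by
    intro f hf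
    obtain ⟨h1, h2⟩ := (hmem f).1 hf
    have hx := (hPr _ h1).1
    exact ⟨hx, (hNF f.1 (hbox _ hx) f.2.1).1 f.2.2 (hLt _ _ h2)⟩
  have hcard : n * #Pr ≤ #Φ := by
    rw [hΦ, card_biUnion]
    · rw [mul_comm, ← smul_eq_mul, ← sum_const]
      refine sum_le_sum fun q hqP => ?_
      rw [card_image_of_injective _ (fun l l' h => by simpa using h)]
      exact (hq q hqP).1
    · intro q _ q' _ hne
      rw [Function.onFun, disjoint_left]
      intro f hf hf'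
      obtain ⟨l, -, rfl⟩ := mem_image.1 hf
      obtain ⟨l', -, h⟩ := mem_image.1 hf'
      simp only [Prod.mk.injEq] at h
      exact hne (Prod.ext h.1.symm h.2.1.symm)
  have hproj : ∀ (y : ℝ × ℝ) (i : ℕ) (W : Finset ((ℝ × ℝ) × ℕ × ℕ)),
      (∀ f ∈ W, f.1 = y ∧ f.2.1 = i) → #(W.image fun f => f.2.2) = #W := by
    intro y i W hW
    refine card_image_of_injOn fun f hf f' hf' h => ?_
    obtain ⟨a1, a2⟩ := hW f hf
    obtain ⟨b1, b2⟩ := hW f' hf'
    exact Prod.ext (a1.trans b1.symm) (Prod.ext (a2.trans b2.symm) h)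
  have hγ : 1 ≤ 8 * (n : ℝ) * g.D / th := by
    rw [le_div_iff₀ hth]; nlinarith
  have key := @hF (ℝ × ℝ) Unit ((ℝ × ℝ) × ℕ × ℕ) Tb X id (fun _ => ()) (fun _ => (0, 0))
    (cs M g.δ) Φ (fun f => f.1) (fun f => f.2.1) (fun f => (f.2.2 : ℤ)) T (fun _ => ())
    (fun τ => (τ.2.1 : ℤ)) (fun τ => τ.2.2 * s0) g.R g.δ (1 / g.K1) t (Γ * #X * g.δ ^ t)
    (8 * n * g.D / th) (1 / (2 * Pi)) Λ A (2 * n) hg.R_pos hδ
    (hg.δ_le.trans (one_div_le_one_div_of_le (by linarith) (by linarith [hg.K1_le])))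
    (by rw [div_le_one (by linarith)]; linarith) ht0 ht1
    (by have := Real.rpow_pos_of_pos hδ t; positivity) hγ (by positivity) hΛ (by positivity)
    ?_ ?_ ?_ ?_ ?_ ?_ ?_ ?_ ?_ ?_ ?_ ?_ ?_
  · exact ln_arith hc hδ (by positivity) (by positivity) hΓ (by linarith) (by linarith) hth
      (by positivity) hSys.pos hXc hSys.cnt key
  · have a1 : g.δ ^ (-e2) ≤ g.H ^ e2 := by
      rw [Real.rpow_neg hδ.le, ← Real.inv_rpow hδ.le]
      refine Real.rpow_le_rpow (by positivity) ?_ he2.le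
      rw [Geo.δ, one_div, inv_inv]
      exact hg.pow_le_H
    rw [one_div_mul_eq_div, le_div_iff₀ (by positivity)]
    nlinarith [mul_le_mul_of_nonneg_left a1 (by positivity : (0 : ℝ) ≤ 200 * Pi)]
  · intro y hy
    obtain ⟨a1, a2, a3, a4⟩ := hbox y hy
    refine ⟨a1, ?_, a3, ?_⟩ <;> simp only [id, zero_add] <;> linarith
  · intro u z r hr1 hr2
    have a1 := hFr z r hr1 hr2
    have a2 : Γ * #X * g.δ ^ t * (r / g.δ) ^ t = Γ * #X * r ^ t := by
      rw [Real.div_rpow (hδ.le.trans hr1) hδ.le]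
      have := Real.rpow_pos_of_pos hδ t
      field_simp
    rw [a2]
    refine le_trans ?_ a1
    exact Nat.cast_le.2 (card_le_card fun y hy => mem_filter.2 ⟨(ln_mf hy).1, (ln_mf hy).2.2⟩)
  · intro f _ f' _ h
    simp only [Prod.mk.injEq, Nat.cast_inj] at h
    exact Prod.ext h.1 (Prod.ext h.2.1 h.2.2)
  · exact fun f hf => (hnear f hf).1
  · exact fun f hf => hg.cs_leaf (hnear f hf).2.1
  · exact fun f _ f' _ => hg.cs_sep_of_le hg.inv_R_le _ _
  · intro f hf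
    obtain ⟨j, hj, -⟩ := (hnear f hf).2.2
    have a1 := (hSys.idx _ hj).2.2
    simp only [Int.cast_natCast]
    have a2 : (f.2.1 : ℝ) * (1 / g.K1) / 2 = f.2.1 / (2 * g.K1) := by field_simp
    rw [a2]
    refine a1.trans ?_
    rw [div_le_div_iff₀ (by positivity) (by positivity)]
    linarith
  · intro y
    refine Nat.cast_le.2 (le_trans ?_ (card_image_le.trans (hPA y) :
      #(({q ∈ Pr | q.1 = y}).image fun q => q.2) ≤ A))
    refine card_le_card fun i hi => ?_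
    obtain ⟨f, hf, rfl⟩ := mem_image.1 hi
    exact mem_image.2 ⟨(f.1, f.2.1), mem_filter.2 ⟨((hmem f).1 (ln_mf hf).1).1, (ln_mf hf).2⟩, rfl⟩
  · intro y i
    by_cases hyi : (y, i) ∈ Pr
    · refine (Nat.cast_inj.2 (hproj y i _ fun f hf => (ln_mf hf).2)).ge.trans ?_
      have a1 : (#(Lt (cl y) i) : ℝ) ≤ 2 * n := by exact_mod_cast (hq _ hyi).2.1
      refine le_trans (Nat.cast_le.2 (card_le_card fun l hl => ?_)) a1
      obtain ⟨f, hf, rfl⟩ := mem_image.1 hl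
      obtain ⟨b1, rfl, rfl⟩ := ln_mf hf
      exact ((hmem f).1 b1).2
    · refine (Nat.cast_inj.2 (card_eq_zero.2 (eq_empty_of_forall_notMem fun f hf => ?_))).le.trans ?_
      · obtain ⟨b1, rfl, rfl⟩ := ln_mf hf
        exact hyi ((hmem f).1 b1).1
      · simp only [Nat.cast_zero]; positivity
  · intro y i l0 r hr
    by_cases hyi : (y, i) ∈ Pr
    · refine (Nat.cast_inj.2 (hproj y i _ fun f hf => ⟨(ln_mf hf).2.1, (ln_mf hf).2.2.1⟩)).ge.trans ?_
      refine ln_interval g.D g.ls n (Lt (cl y) i) th _ (by exact_mod_cast (by linarith : (2 : ℝ) ≤ g.D))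
        hth hts0 hts1 (fun l hl => ?_) (hq _ hyi).2.2.1 l0 r hr _ fun l hl => ?_
      · exact ((hNF y (hbox _ (hPr _ hyi).1) i).1 l (hLt _ _ hl)).1
      · obtain ⟨f, hf, rfl⟩ := mem_image.1 hl
        obtain ⟨b1, rfl, rfl, b2⟩ := ln_mf hf
        exact ⟨((hmem f).1 b1).2, b2⟩
    · refine (Nat.cast_inj.2 (card_eq_zero.2 (eq_empty_of_forall_notMem fun f hf => ?_))).le.trans ?_
      · obtain ⟨b1, rfl, rfl, -⟩ := ln_mf hf
        exact hyi ((hmem f).1 b1).1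
      · simp only [Nat.cast_zero]; positivity
  · have a1 : (n : ℝ) * #Pr ≤ #Φ := by exact_mod_cast hcard
    have a2 : 1 / (2 * (Pi : ℝ)) * #X * A * (2 * n) = n * (#X * A) / Pi := by field_simp
    rw [a2, div_le_iff₀ (by positivity)]
    have a3 := mul_le_mul_of_nonneg_left hXA' (by positivity : (0 : ℝ) ≤ n)
    have a4 := mul_le_mul_of_nonneg_right a1 (by positivity : (0 : ℝ) ≤ Pi)
    nlinarith
  · intro f hf
    obtain ⟨j, hj, hd⟩ := (hnear f hf).2.2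
    refine ⟨_, hj, rfl, rfl, ?_⟩
    rw [Geo.Ok.ρ_eq, ← mul_assoc] at hd
    exact hd

end Pool.Agent.Lib.MP_108739_an.HA
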