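import Pool.Agent.Lib.MP_108739_an.HA.Defs

/-! Preparation of the point set: uniform at all scales, with a Frostman exponent. -/

namespace Pool.Agent.Lib.MP_108739_an.HA

open Finset

namespace Prep

theorem floor_succ (D l : ℕ) (R x : ℝ) :
    ⌊x / (R / (D : ℝ) ^ l)⌋ = ⌊x / (R / (D : ℝ) ^ (l + 1))⌋ / (D : ℤ) ∨ D = 0 := by
  rcases Nat.eq_zero_or_pos D with h | h
  · exact Or.inr h
  · left
    have hD : (D : ℝ) ≠ 0 := by positivity
    rw [← Int.floor_div_natCast]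
    congr 1
    rcases eq_or_ne R 0 with hR | hR
    · simp [hR]
    · field_simp
      ring

theorem cube_succ {D : ℕ} (hD : 2 ≤ D) (l : ℕ) (R : ℝ) {p q : ℝ × ℝ}
    (h : cube (R / (D : ℝ) ^ (l + 1)) p = cube (R / (D : ℝ) ^ (l + 1)) q) :
    cube (R / (D : ℝ) ^ l) p = cube (R / (D : ℝ) ^ l) q := by
  have key : ∀ x : ℝ, ⌊x / (R / (D : ℝ) ^ l)⌋ = ⌊x / (R / (D : ℝ) ^ (l + 1))⌋ / (D : ℤ) :=
    fun x => (floor_succ D l R x).resolve_right (by omega)
  simp only [cube, Prod.mk.injEq] at h ⊢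
  rw [key p.1, key q.1, key p.2, key q.2, h.1, h.2]
  exact ⟨rfl, rfl⟩

theorem floor_mem {n : ℕ} {R x : ℝ} (hn : 0 < n) (hR : 0 < R) (h0 : 0 ≤ x) (h1 : x < R) :
    ⌊x / (R / (n : ℝ))⌋ ∈ Ico (0 : ℤ) n := by
  have hn' : (0 : ℝ) < n := by exact_mod_cast hn
  rw [mem_Ico]
  refine ⟨Int.floor_nonneg.2 (by positivity), ?_⟩
  rw [Int.floor_lt, div_lt_iff₀ (by positivity)]
  push_cast
  rw [mul_div_cancel₀ _ hn'.ne']
  exact h1

theorem card_cube_le {n : ℕ} {R : ℝ} (hn : 0 < n) (hR : 0 < R) {X : Finset (ℝ × ℝ)}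
    (hX : ∀ p ∈ X, InBox R p) : #(X.image (cube (R / (n : ℝ)))) ≤ n ^ 2 := by
  have : X.image (cube (R / (n : ℝ))) ⊆ Ico (0 : ℤ) n ×ˢ Ico (0 : ℤ) n := by
    intro c hc
    obtain ⟨p, hp, rfl⟩ := mem_image.1 hc
    obtain ⟨h1, h2, h3, h4⟩ := hX p hp
    exact mem_product.2 ⟨floor_mem hn hR h1 h2, floor_mem hn hR h3 h4⟩
  refine (card_le_card this).trans ?_
  simp [sq]

theorem floor_two {ρ s a x : ℝ} (hρ : 0 < ρ) (hs : s ≤ ρ) (h0 : a ≤ x) (h1 : x ≤ a + s) :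
    ⌊x / ρ⌋ ∈ Icc ⌊a / ρ⌋ (⌊a / ρ⌋ + 1) := by
  rw [mem_Icc]
  refine ⟨Int.floor_le_floor (div_le_div_of_nonneg_right h0 hρ.le), ?_⟩
  rw [← Int.floor_add_one]
  refine Int.floor_le_floor ?_
  rw [div_add_one hρ.ne']
  exact div_le_div_of_nonneg_right (by linarith) hρ.le

open Classical in
theorem card_sq_le {ρ s B : ℝ} (hρ : 0 < ρ) (hs : s ≤ ρ) (X : Finset (ℝ × ℝ)) (z : ℝ × ℝ)
    (hB : ∀ c, (#{p ∈ X | cube ρ p = c} : ℝ) ≤ B) : (#{p ∈ X | InSq z s p} : ℝ) ≤ 4 * B := by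
  set T : Finset (ℤ × ℤ) := Icc ⌊z.1 / ρ⌋ (⌊z.1 / ρ⌋ + 1) ×ˢ Icc ⌊z.2 / ρ⌋ (⌊z.2 / ρ⌋ + 1) with hT
  have h1 : {p ∈ X | InSq z s p} ⊆ T.biUnion fun c => {p ∈ X | cube ρ p = c} := by
    intro p hp
    obtain ⟨hp, h1, h2, h3, h4⟩ := mem_filter.1 hp
    exact mem_biUnion.2 ⟨cube ρ p, mem_product.2 ⟨floor_two hρ hs h1 h2, floor_two hρ hs h3 h4⟩,
      mem_filter.2 ⟨hp, rfl⟩⟩
  have h2 : (#{p ∈ X | InSq z s p} : ℝ) ≤ ∑ c ∈ T, (#{p ∈ X | cube ρ p = c} : ℝ) := by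
    exact_mod_cast (card_le_card h1).trans card_biUnion_le
  have h4 : ∀ a : ℤ, #(Icc a (a + 1)) = 2 := fun a => by rw [Int.card_Icc]; omega
  have h3 : #T = 4 := by rw [hT, card_product, h4, h4]
  refine h2.trans ((sum_le_card_nsmul _ _ B fun c _ => hB c).trans ?_)
  rw [h3]; simp

theorem exists_level {D r : ℝ} (hD : 1 ≤ D) (ls : ℕ) (h0 : 1 / D ^ ls ≤ r) (h1 : r ≤ 1) :
    ∃ l ≤ ls, r ≤ 1 / D ^ l ∧ 1 / D ^ l ≤ D * r := by
  have hr : 0 < r := lt_of_lt_of_le (by positivity) h0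
  induction ls with
  | zero => exact ⟨0, le_rfl, by simpa using h1, by nlinarith⟩
  | succ n ih =>
    by_cases h : 1 / D ^ n ≤ r
    · obtain ⟨l, hl, h2⟩ := ih h
      exact ⟨l, by omega, h2⟩
    · refine ⟨n, by omega, (not_le.1 h).le, ?_⟩
      have : 1 / D ^ n = D * (1 / D ^ (n + 1)) := by field_simp; ring
      rw [this]
      exact mul_le_mul_of_nonneg_left h0 (by linarith)

end Prep

open Prep Classical in
theorem prep (hU : UniStmt) (hS : SlopeStmt) : PrepStmt := by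
  intro e l0 he
  obtain ⟨m, hm, hsl⟩ := hS e l0 he
  refine ⟨m, hm, fun D R X hD hR hX hne => ?_⟩
  have hD1 : (1 : ℝ) < D := by exact_mod_cast hD
  have hD0 : (0 : ℝ) < D := by linarith
  obtain ⟨X', hsub, hcard, huni⟩ := hU X (fun j => cube (R / (D : ℝ) ^ (m - j))) m (by
    intro j y y' h
    rcases Nat.lt_or_ge j m with hj | hj
    · have : m - j = m - (j + 1) + 1 := by omega
      rw [this] at h
      exact cube_succ hD _ R h
    · have : m - (j + 1) = m - j := by omega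
      rw [this]; exact h)
  have hne' : X'.Nonempty := by
    rw [← card_pos]
    have := card_pos.2 hne
    rcases Nat.eq_zero_or_pos #X' with h | h
    · rw [h] at hcard; omega
    · exact h
  set N : ℕ → ℕ := fun l => #(X'.image (cube (R / (D : ℝ) ^ l))) with hN
  have hN1 : ∀ l, (1 : ℝ) ≤ N l := fun l => by
    have : 0 < N l := card_pos.2 (hne'.image _)
    exact_mod_cast this
  have hN2 : ∀ l, (N l : ℝ) ≤ (D : ℝ) ^ ((2 : ℝ) * l) := fun l => by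
    have h1 := card_cube_le (n := D ^ l) (by positivity) hR fun p hp => hX p (hsub hp)
    have h2 : (D : ℝ) ^ ((2 : ℝ) * l) = ((D : ℝ) ^ l) ^ 2 := by
      rw [← pow_mul, ← Real.rpow_natCast]; congr 1; push_cast; ring
    rw [h2]
    rw [Nat.cast_pow] at h1
    have h3 : N l ≤ (D ^ l) ^ 2 := h1
    exact_mod_cast h3
  have hcl : ∀ l ≤ m, ∀ c, (N l : ℝ) * #{p ∈ X' | cube (R / (D : ℝ) ^ l) p = c} ≤ 2 * #X' := by
    intro l hl c
    have := huni (m - l) (by omega) c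
    have h2 : m - (m - l) = l := by omega
    simp only [h2] at this
    have h3 : N l * #{p ∈ X' | cube (R / (D : ℝ) ^ l) p = c} ≤ 2 * #X' := this
    exact_mod_cast h3
  obtain ⟨ls, t, h1, h2, h3, h4, h5, h6⟩ := hsl (fun l => Real.logb D (N l)) fun l _ =>
    ⟨Real.logb_nonneg hD1 (hN1 l),
      (Real.logb_le_iff_le_rpow hD1 (by linarith [hN1 l])).2 (hN2 l)⟩
  have hpow : ∀ (l : ℕ) (u : ℝ), ((D : ℝ) ^ l) ^ u = (D : ℝ) ^ (u * l) := fun l u => by
    rw [← Real.rpow_natCast, ← Real.rpow_mul hD0.le, mul_comm]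
  refine ⟨X', hsub, ls, t, hne', h1, h2, h3, h4, hcard, ?_, ?_⟩
  · intro z r hr0 hr1
    have hr : 0 < r := lt_of_lt_of_le (by positivity) hr0
    obtain ⟨l, hl, hl1, hl2⟩ := exists_level hD1.le ls hr0 hr1
    have hlow : (D : ℝ) ^ (t * l - e * ls) ≤ N l :=
      (Real.le_logb_iff_rpow_le hD1 (by linarith [hN1 l])).1 (h5 l hl)
    have hp : 0 < (D : ℝ) ^ (t * l - e * ls) := Real.rpow_pos_of_pos hD0 _
    have hB : ∀ c, (#{p ∈ X' | cube (R / (D : ℝ) ^ l) p = c} : ℝ) ≤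
        2 * #X' / (D : ℝ) ^ (t * l - e * ls) := fun c => by
      rw [le_div_iff₀ hp, mul_comm]
      exact (mul_le_mul_of_nonneg_right hlow (by positivity)).trans (hcl l (by omega) c)
    have hs : r * R ≤ R / (D : ℝ) ^ l := by
      rw [div_eq_mul_one_div, mul_comm]
      exact mul_le_mul_of_nonneg_left hl1 hR.le
    refine (card_sq_le (by positivity) hs X' z hB).trans ?_
    have e1 : 1 / (D : ℝ) ^ (t * l - e * ls) = ((D : ℝ) ^ ls) ^ e * (1 / (D : ℝ) ^ l) ^ t := by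
      rw [Real.div_rpow zero_le_one (by positivity), Real.one_rpow, hpow, hpow,
        Real.rpow_sub hD0]
      field_simp
    have e2 : (1 / (D : ℝ) ^ l) ^ t ≤ (D : ℝ) ^ 2 * r ^ t := by
      refine (Real.rpow_le_rpow (by positivity) hl2 h3).trans ?_
      rw [Real.mul_rpow hD0.le hr.le]
      refine mul_le_mul_of_nonneg_right ?_ (by positivity)
      rw [← Real.rpow_natCast]
      exact Real.rpow_le_rpow_of_exponent_le hD1.le (by push_cast; linarith)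
    rw [div_eq_mul_one_div, e1]
    have h7 : (0 : ℝ) ≤ 8 * #X' * ((D : ℝ) ^ ls) ^ e := by positivity
    nlinarith [mul_le_mul_of_nonneg_left e2 h7]
  · refine h6.imp_left fun h => ?_
    rw [hpow]
    exact (Real.logb_le_iff_le_rpow hD1 (by linarith [hN1 ls])).1 h

end Pool.Agent.Lib.MP_108739_an.HA
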