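import Pool.Agent.Lib.MP_108739_an.HA.Vdc

/-! Ridge regression on almost orthogonal blocks. -/

namespace Pool.Agent.Lib.MP_108739_an.HA

open Finset MeasureTheory
open scoped Real ComplexConjugate BoundedContinuousFunction

namespace Rg

section
variable {H ι β : Type} [NormedAddCommGroup H] [InnerProductSpace ℂ H] [Fintype ι] [DecidableEq β]

/-- The vector of block `j` with coefficients `c`. -/
noncomputable def blk (e : ι → H) (bl : ι → β) (c : ι → ℂ) (j : β) : H :=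
  ∑ q with bl q = j, c q • e q

theorem pair (e : ι → H) (bl : ι → β) (c : ι → ℂ) (μ : ℝ) (f : H)
    (hc : ∀ p, inner ℂ (e p) f = μ * c p + inner ℂ (e p) (blk e bl c (bl p))) (j : β) :
    (inner ℂ (blk e bl c j) f).re = ‖blk e bl c j‖ ^ 2 + μ * ∑ q with bl q = j, ‖c q‖ ^ 2 := by
  have h1 : inner ℂ (blk e bl c j) f =
      inner ℂ (blk e bl c j) (blk e bl c j) + ((μ * ∑ q with bl q = j, ‖c q‖ ^ 2 : ℝ) : ℂ) := by
    conv_lhs => unfold blk
    conv_rhs => arg 1; arg 2; unfold blk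
    rw [sum_inner, sum_inner]
    push_cast
    rw [mul_sum, ← sum_add_distrib]
    refine sum_congr rfl fun q hq => ?_
    rw [inner_smul_left, inner_smul_left, hc q, (mem_filter.1 hq).2, mul_add, add_comm]
    congr 1
    rw [← Complex.conj_mul']
    ring
  rw [h1, Complex.add_re, Complex.ofReal_re]
  congr 1
  exact inner_self_eq_norm_sq (𝕜 := ℂ) _

theorem solve (e : ι → H) (bl : ι → β) (μ : ℝ) (hμ : 0 < μ) (f : H) :
    ∃ c : ι → ℂ, ∀ p, inner ℂ (e p) f = μ * c p + inner ℂ (e p) (blk e bl c (bl p)) := by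
  let T : (ι → ℂ) →ₗ[ℂ] (ι → ℂ) :=
    { toFun := fun c p => μ * c p + inner ℂ (e p) (blk e bl c (bl p))
      map_add' := fun c d => by
        funext p
        simp only [blk, Pi.add_apply, add_smul, sum_add_distrib, inner_add_right]
        ring
      map_smul' := fun a c => by
        funext p
        simp only [blk, Pi.smul_apply, smul_eq_mul, mul_smul, ← smul_sum, inner_smul_right,
          RingHom.id_apply]
        ring }
  have hinj : Function.Injective T := by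
    rw [← LinearMap.ker_eq_bot, LinearMap.ker_eq_bot']
    intro c hc
    funext p
    have h := pair e bl c μ 0 (fun q => by rw [inner_zero_right]; exact (congrFun hc q).symm) (bl p)
    rw [inner_zero_right, Complex.zero_re] at h
    have h1 : ‖c p‖ ^ 2 ≤ ∑ q with bl q = bl p, ‖c q‖ ^ 2 :=
      single_le_sum (f := fun q => ‖c q‖ ^ 2) (fun _ _ => by positivity) (by simp)
    have h2 : μ * ‖c p‖ ^ 2 ≤ 0 := by
      nlinarith [sq_nonneg ‖blk e bl c (bl p)‖, mul_le_mul_of_nonneg_left h1 hμ.le]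
    have h3 : ‖c p‖ ^ 2 ≤ 0 := by
      by_contra h4
      push Not at h4
      linarith [mul_pos hμ h4]
    have h4 : ‖c p‖ = 0 := by nlinarith [norm_nonneg (c p)]
    simpa using h4
  obtain ⟨c, hc⟩ := LinearMap.injective_iff_surjective.1 hinj fun p => inner ℂ (e p) f
  exact ⟨c, fun p => (congrFun hc p).symm⟩

theorem aux (u v : H) (s : ℝ) (h1 : (inner ℂ u v).re = s) (h2 : ‖u‖ ^ 2 ≤ s) : s ≤ ‖v‖ ^ 2 := by
  have h3 : s ≤ ‖u‖ * ‖v‖ := by
    rw [← h1]; exact (Complex.re_le_norm _).trans (norm_inner_le_norm _ _)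
  nlinarith [sq_nonneg (‖u‖ - ‖v‖)]

theorem ridge_abs (e : ι → H) (bl : ι → β) (μ b0 : ℝ) (hμ : 0 < μ) (hb : 0 ≤ b0)
    (hbμ : b0 * Fintype.card ι ≤ μ) (f : H) (B : Finset β)
    (ho : ∀ p q, bl p ≠ bl q → ‖inner ℂ (e p) (e q)‖ ≤ b0) :
    ∃ c : ι → ℂ, (∀ p, ‖inner ℂ (e p) f - inner ℂ (e p) (blk e bl c (bl p))‖ ^ 2 ≤ μ * ‖f‖ ^ 2) ∧
      (∀ j, ‖blk e bl c j‖ ^ 2 ≤ ‖f‖ ^ 2) ∧ ∑ j ∈ B, ‖blk e bl c j‖ ^ 2 ≤ ‖f‖ ^ 2 := by
  obtain ⟨c, hc⟩ := solve e bl μ hμ f
  set t : β → ℝ := fun j => ∑ q with bl q = j, ‖c q‖ ^ 2 with ht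
  have ht0 : ∀ j, 0 ≤ μ * t j := fun j => mul_nonneg hμ.le (sum_nonneg fun _ _ => by positivity)
  have hp : ∀ j, (inner ℂ (blk e bl c j) f).re = ‖blk e bl c j‖ ^ 2 + μ * t j :=
    pair e bl c μ f hc
  have h1 : ∀ j, ‖blk e bl c j‖ ^ 2 + μ * t j ≤ ‖f‖ ^ 2 := fun j =>
    aux _ _ _ (hp j) (by linarith [ht0 j])
  refine ⟨c, fun p => ?_, fun j => by linarith [h1 j, ht0 j], ?_⟩
  · have a1 : ‖c p‖ ^ 2 ≤ t (bl p) :=
      single_le_sum (f := fun q => ‖c q‖ ^ 2) (fun _ _ => by positivity) (by simp)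
    rw [hc p, add_sub_cancel_right, norm_mul, Complex.norm_real, Real.norm_eq_abs, abs_of_pos hμ,
      mul_pow]
    have a2 : μ * ‖c p‖ ^ 2 ≤ ‖f‖ ^ 2 := by
      nlinarith [h1 (bl p), sq_nonneg ‖blk e bl c (bl p)‖, mul_le_mul_of_nonneg_left a1 hμ.le]
    nlinarith [mul_le_mul_of_nonneg_left a2 hμ.le]
  · set s : β → ℝ := fun j => ∑ q with bl q = j, ‖c q‖ with hs
    have hs0 : ∀ j, 0 ≤ s j := fun j => sum_nonneg fun _ _ => norm_nonneg _
    have a1 : ∀ j j', (inner ℂ (blk e bl c j) (blk e bl c j')).re ≤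
        (if j = j' then ‖blk e bl c j‖ ^ 2 else 0) + b0 * (s j * s j') := fun j j' => by
      split_ifs with hj
      · subst hj
        have := inner_self_eq_norm_sq (𝕜 := ℂ) (blk e bl c j)
        have b1 : 0 ≤ b0 * (s j * s j) := mul_nonneg hb (mul_nonneg (hs0 j) (hs0 j))
        simp only [RCLike.re_to_complex] at this
        linarith
      · rw [zero_add]
        refine (Complex.re_le_norm _).trans ?_
        simp only [blk, hs]
        rw [sum_inner, sum_mul_sum, mul_sum]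
        refine (norm_sum_le _ _).trans (sum_le_sum fun p hp => ?_)
        rw [inner_sum, mul_sum]
        refine (norm_sum_le _ _).trans (sum_le_sum fun q hq => ?_)
        rw [inner_smul_left, inner_smul_right, norm_mul, norm_mul, Complex.norm_conj]
        have := ho p q (by rw [(mem_filter.1 hp).2, (mem_filter.1 hq).2]; exact hj)
        calc ‖c p‖ * (‖c q‖ * ‖inner ℂ (e p) (e q)‖) ≤ ‖c p‖ * (‖c q‖ * b0) := by gcongr
          _ = _ := by ring
    have a2 : (∑ j ∈ B, s j) ^ 2 ≤ Fintype.card ι * ∑ j ∈ B, t j := by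
      simp only [hs, ht]
      rw [sum_fiberwise_eq_sum_filter, sum_fiberwise_eq_sum_filter]
      refine (sq_sum_le_card_mul_sum_sq).trans ?_
      gcongr
      exact card_le_univ _
    have a3 : ‖∑ j ∈ B, blk e bl c j‖ ^ 2 ≤ ∑ j ∈ B, (‖blk e bl c j‖ ^ 2 + μ * t j) := by
      have b1 := inner_self_eq_norm_sq (𝕜 := ℂ) (∑ j ∈ B, blk e bl c j)
      simp only [RCLike.re_to_complex] at b1
      rw [← b1, sum_inner, Complex.re_sum]
      have b2 : ∀ j ∈ B, (inner ℂ (blk e bl c j) (∑ j ∈ B, blk e bl c j)).re ≤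
          ‖blk e bl c j‖ ^ 2 + b0 * (s j * ∑ j' ∈ B, s j') := fun j hj => by
        rw [inner_sum, Complex.re_sum]
        refine (sum_le_sum fun j' _ => a1 j j').trans (le_of_eq ?_)
        rw [sum_add_distrib, sum_ite_eq, if_pos hj, ← mul_sum, ← mul_sum]
      refine (sum_le_sum b2).trans ?_
      rw [sum_add_distrib, sum_add_distrib, ← mul_sum, ← mul_sum, ← sum_mul, ← sq]
      have b3 : 0 ≤ ∑ j ∈ B, t j := sum_nonneg fun j _ => sum_nonneg fun _ _ => by positivity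
      nlinarith [mul_le_mul_of_nonneg_left a2 hb, mul_le_mul_of_nonneg_right hbμ b3]
    have a4 := aux _ f _ (by rw [sum_inner, Complex.re_sum]; exact sum_congr rfl fun j _ => hp j) a3
    exact (sum_le_sum fun j _ => by linarith [ht0 j]).trans a4

end

theorem inner_eq {a b : ℝ} (hab : a ≤ b) (U V : Lp ℂ 2 (volume.restrict (Set.Ioc a b)))
    (u v : ℝ → ℂ) (hu : U =ᵐ[volume.restrict (Set.Ioc a b)] u)
    (hv : V =ᵐ[volume.restrict (Set.Ioc a b)] v) :
    inner ℂ U V = ∫ ξ in a..b, v ξ * conj (u ξ) := by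
  rw [L2.inner_def, intervalIntegral.integral_of_le hab]
  refine integral_congr_ae ?_
  filter_upwards [hu, hv] with ξ h1 h2
  rw [h1, h2]
  simp

theorem norm_eq {a b : ℝ} (hab : a ≤ b) (U : Lp ℂ 2 (volume.restrict (Set.Ioc a b)))
    (u : ℝ → ℂ) (hu : U =ᵐ[volume.restrict (Set.Ioc a b)] u) :
    ‖U‖ ^ 2 = ∫ ξ in a..b, ‖u ξ‖ ^ 2 := by
  have h1 := inner_eq hab U U u u hu hu
  rw [inner_self_eq_norm_sq_to_K] at h1
  simp only [Complex.mul_conj'] at h1
  have h2 : ∫ ξ in a..b, ((‖u ξ‖ : ℂ)) ^ 2 = ((∫ ξ in a..b, ‖u ξ‖ ^ 2 : ℝ) : ℂ) := by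
    rw [← intervalIntegral.integral_ofReal]
    simp
  rw [h2] at h1
  have h3 : ((‖U‖ ^ 2 : ℝ) : ℂ) = ((∫ ξ in a..b, ‖u ξ‖ ^ 2 : ℝ) : ℂ) := by
    rw [← h1]; simp
  exact_mod_cast h3

theorem conj_ex (x : ℝ) : conj (ex (-x)) = ex x := by
  unfold ex
  rw [← Complex.exp_conj]
  congr 1
  simp [map_ofNat]

end Rg

open Rg in
theorem ridge : RidgeStmt := by
  intro β φ a b μ b0 f X bl B hφ hab hf hf1 hμ hb hbμ ho
  classical
  let w : X → (ℝ →ᵇ ℂ) := fun p => BoundedContinuousFunction.ofNormedAddCommGroup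
    (fun ξ => ex (-(p.1.1 * ξ + p.1.2 * φ ξ))) (Vd.cont_ex.comp (by fun_prop)) 1
    fun _ => (Vd.norm_ex _).le
  let T := BoundedContinuousFunction.toLp (E := ℂ) 2 (volume.restrict (Set.Ioc a b)) ℂ
  have hT : ∀ u : ℝ →ᵇ ℂ, T u =ᵐ[volume.restrict (Set.Ioc a b)] u := fun u =>
    BoundedContinuousFunction.coeFn_toLp _ _ _ u
  have hmem : MemLp f 2 (volume.restrict (Set.Ioc a b)) :=
    MemLp.of_bound hf.aestronglyMeasurable 1 (Filter.Eventually.of_forall hf1)
  have hE : ∀ (p : X) (V : Lp ℂ 2 (volume.restrict (Set.Ioc a b))) (v : ℝ → ℂ),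
      V =ᵐ[volume.restrict (Set.Ioc a b)] v → inner ℂ (T (w p)) V = Ext φ a b v p :=
    fun p V v hv => by
      rw [inner_eq hab _ _ _ _ (hT _) hv]
      unfold Ext
      congr 1
      funext ξ
      congr 1
      exact conj_ex _
  obtain ⟨c, h1, h2, h3⟩ := ridge_abs (fun p => T (w p)) (fun p : X => bl p) μ b0 hμ hb
    (by simpa using hbμ) (hmem.toLp f) B fun p q hpq => by
      rw [hE p _ _ (hT _)]
      refine le_trans (le_of_eq ?_) (ho p p.2 q q.2 hpq)
      unfold Ext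
      congr 2
      funext ξ
      rw [one_mul]
      change ex _ * _ = _
      rw [← Vd.ex_add]
      congr 1
      simp only [Prod.fst_sub, Prod.snd_sub]
      ring
  let g : β → (ℝ →ᵇ ℂ) := fun j =>
    ∑ q ∈ (univ : Finset X).filter (fun q : X => bl q.1 = j), c q • w q
  have hg : ∀ j, Rg.blk (fun p => T (w p)) (fun p : X => bl p) c j = T (g j) := fun j => by
    simp only [Rg.blk, g, map_sum, map_smul]
  have hn := norm_eq hab _ _ hmem.coeFn_toLp
  have hgn : ∀ j, ‖T (g j)‖ ^ 2 = ∫ ξ in a..b, ‖g j ξ‖ ^ 2 := fun j => norm_eq hab _ _ (hT _)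
  simp only [hg, hn, hgn] at h1 h2 h3
  refine ⟨fun j => g j, fun j => (g j).continuous, fun p hp => ?_, h2, h3.trans ?_⟩
  · have := h1 ⟨p, hp⟩
    rwa [hE _ _ _ hmem.coeFn_toLp, hE _ _ _ (hT _)] at this
  · rw [← hn]
    nlinarith [sq_nonneg ‖hmem.toLp f‖]

end Pool.Agent.Lib.MP_108739_an.HA
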