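import Pool.Agent.Lib.MP_108739_an.HA.Defs

/-! Large sieve for the lattice model: exact orthogonality on a fine grid, then `exp` as a limit of
products `(1 + z / m) ^ m`. -/

namespace Pool.Agent.Lib.MP_108739_an.HA

open Finset Filter
open scoped Real Topology

noncomputable section

namespace Sv

variable {ι κ : Type*}

def Bd (S : Finset ι) (J : Finset κ) (E : κ → ι → ℂ) (B : ℝ) : Prop :=
  ∀ c : ι → ℂ, ∑ j ∈ J, ‖∑ k ∈ S, c k * E j k‖ ^ 2 ≤ B * ∑ k ∈ S, ‖c k‖ ^ 2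

theorem sq_add_le (A B : ℂ) (η : ℝ) (hη : 0 < η) :
    ‖A + B‖ ^ 2 ≤ (1 + η) * ‖A‖ ^ 2 + (1 + 1 / η) * ‖B‖ ^ 2 := by
  have h1 : ‖A + B‖ ^ 2 ≤ (‖A‖ + ‖B‖) ^ 2 := by
    gcongr; exact norm_add_le _ _
  have h2 : 0 ≤ (η * ‖A‖ - ‖B‖) ^ 2 / η := by positivity
  have h3 : (η * ‖A‖ - ‖B‖) ^ 2 / η = η * ‖A‖ ^ 2 - 2 * ‖A‖ * ‖B‖ + 1 / η * ‖B‖ ^ 2 := by
    field_simp; ring
  nlinarith

theorem Bd.step {S : Finset ι} {J : Finset κ} {E : κ → ι → ℂ} {B : ℝ} (h : Bd S J E B) (hB : 0 ≤ B)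
    (α : κ → ℂ) (u : ι → ℂ) (η : ℝ) (hη : 0 < η) (hα : ∀ j ∈ J, ‖α j‖ ≤ 1)
    (hu : ∀ k ∈ S, ‖u k‖ ≤ η) :
    Bd S J (fun j k => E j k * (1 + α j * u k)) (B * (1 + η) ^ 2) := by
  intro c
  have h1 := h c
  have h2 := h fun k => c k * u k
  have h3 : ∑ k ∈ S, ‖c k * u k‖ ^ 2 ≤ η ^ 2 * ∑ k ∈ S, ‖c k‖ ^ 2 := by
    rw [mul_sum]
    refine sum_le_sum fun k hk => ?_
    rw [norm_mul, mul_pow, mul_comm]
    have := hu k hk
    gcongr
  have h4 : ∀ j ∈ J, ‖∑ k ∈ S, c k * (E j k * (1 + α j * u k))‖ ^ 2 ≤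
      (1 + η) * ‖∑ k ∈ S, c k * E j k‖ ^ 2 + (1 + 1 / η) * ‖∑ k ∈ S, c k * u k * E j k‖ ^ 2 := by
    intro j hj
    have e : ∑ k ∈ S, c k * (E j k * (1 + α j * u k)) =
        ∑ k ∈ S, c k * E j k + α j * ∑ k ∈ S, c k * u k * E j k := by
      rw [mul_sum, ← sum_add_distrib]
      exact sum_congr rfl fun k _ => by ring
    rw [e]
    refine (sq_add_le _ _ η hη).trans ?_
    have : ‖α j * ∑ k ∈ S, c k * u k * E j k‖ ≤ ‖∑ k ∈ S, c k * u k * E j k‖ := by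
      rw [norm_mul]
      exact mul_le_of_le_one_left (norm_nonneg _) (hα j hj)
    gcongr
  refine (sum_le_sum h4).trans ?_
  rw [sum_add_distrib, ← mul_sum, ← mul_sum]
  have h5 : B * ∑ k ∈ S, ‖c k * u k‖ ^ 2 ≤ B * (η ^ 2 * ∑ k ∈ S, ‖c k‖ ^ 2) := by gcongr
  calc _ ≤ (1 + η) * (B * ∑ k ∈ S, ‖c k‖ ^ 2) +
        (1 + 1 / η) * (B * (η ^ 2 * ∑ k ∈ S, ‖c k‖ ^ 2)) := by
        have := h2.trans h5
        gcongr
    _ = _ := by field_simp; ring

theorem Bd.pow {S : Finset ι} {J : Finset κ} {E : κ → ι → ℂ} {B : ℝ} (h : Bd S J E B) (hB : 0 ≤ B)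
    (α : κ → ℂ) (u : ι → ℂ) (η : ℝ) (hη : 0 < η) (hα : ∀ j ∈ J, ‖α j‖ ≤ 1)
    (hu : ∀ k ∈ S, ‖u k‖ ≤ η) (m : ℕ) :
    Bd S J (fun j k => E j k * (1 + α j * u k) ^ m) (B * ((1 + η) ^ m) ^ 2) := by
  induction m with
  | zero => simpa using h
  | succ m ih =>
    have := ih.step (by positivity) α u η hη hα hu
    intro c
    have h2 := this c
    simp only [pow_succ (1 + η) m, mul_pow, pow_succ (1 + α _ * u _) m, ← mul_assoc] at h2 ⊢
    exact h2

theorem Bd.exp {S : Finset ι} {J : Finset κ} {E : κ → ι → ℂ} {B : ℝ} (h : Bd S J E B) (hB : 0 ≤ B)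
    (α : κ → ℂ) (u : ι → ℂ) (U : ℝ) (hU : 0 < U) (hα : ∀ j ∈ J, ‖α j‖ ≤ 1)
    (hu : ∀ k ∈ S, ‖u k‖ ≤ U) :
    Bd S J (fun j k => E j k * Complex.exp (α j * u k)) (B * Real.exp U ^ 2) := by
  intro c
  have hT : Tendsto (fun m : ℕ => ∑ j ∈ J, ‖∑ k ∈ S, c k * (E j k * (1 + α j * u k / m) ^ m)‖ ^ 2)
      atTop (𝓝 (∑ j ∈ J, ‖∑ k ∈ S, c k * (E j k * Complex.exp (α j * u k))‖ ^ 2)) := by
    refine tendsto_finsetSum _ fun j _ => (Tendsto.norm ?_).pow 2
    refine tendsto_finsetSum _ fun k _ => ?_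
    exact ((Complex.tendsto_one_add_div_pow_exp _).const_mul _).const_mul _
  refine le_of_tendsto hT ?_
  filter_upwards [eventually_gt_atTop 0] with m hm
  have hm' : (0 : ℝ) < m := by exact_mod_cast hm
  have h1 := h.pow hB α (fun k => u k / m) (U / m) (by positivity) hα (fun k hk => by
    rw [norm_div, Complex.norm_natCast]
    have := hu k hk
    gcongr) m c
  simp only [← mul_div_assoc] at h1
  refine h1.trans ?_
  have h2 : (1 + U / m) ^ m ≤ Real.exp U := by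
    calc (1 + U / m) ^ m ≤ (Real.exp (U / m)) ^ m := by
          have := Real.add_one_le_exp (U / m)
          gcongr; linarith
      _ = _ := by rw [← Real.exp_nat_mul]; congr 1; field_simp
  have h3 : 0 ≤ ∑ k ∈ S, ‖c k‖ ^ 2 := by positivity
  gcongr

theorem ex_add (x y : ℝ) : ex (x + y) = ex x * ex y := by
  simp [ex, mul_add, Complex.exp_add]

theorem ex_conj (x : ℝ) : (starRingEnd ℂ) (ex x) = ex (-x) := by
  simp [ex, ← Complex.exp_conj, map_ofNat]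

theorem geo (N : ℕ) (m : ℤ) (hm : |m| < N) (h0 : m ≠ 0) :
    ∑ j ∈ range N, ex (j * (m / N)) = 0 := by
  have hN : (0 : ℝ) < N := by
    have : (0 : ℤ) < N := lt_of_le_of_lt (abs_nonneg _) hm
    exact_mod_cast this
  have hN' : (N : ℂ) ≠ 0 := by exact_mod_cast hN.ne'
  have e : ∀ j : ℕ, ex (j * (m / N)) = ex (m / N) ^ j := by
    intro j
    simp only [ex, ← Complex.exp_nat_mul]
    congr 1; push_cast; ring
  simp only [e]
  have h1 : ex (m / N) ≠ 1 := by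
    intro h
    obtain ⟨n, hn⟩ := Complex.exp_eq_one_iff.1 h
    have h2 : (2 * π * Complex.I : ℂ) ≠ 0 := Complex.two_pi_I_ne_zero
    have h3 : (m : ℂ) = n * N := by
      have : (m : ℂ) / N = n := by
        apply mul_left_cancel₀ h2
        push_cast at hn
        rw [hn]; ring
      rw [← this]; field_simp
    have h4 : m = n * N := by exact_mod_cast h3
    have h5 : n ≠ 0 := by rintro rfl; simp at h4; exact h0 h4
    rw [h4, abs_mul, Nat.abs_cast] at hm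
    have := Int.one_le_abs h5
    nlinarith [Int.natCast_nonneg N]
  have h2 : ex (m / N) ^ N = 1 := by
    simp only [ex, ← Complex.exp_nat_mul]
    rw [Complex.exp_eq_one_iff]
    exact ⟨m, by push_cast; field_simp⟩
  rw [geom_sum_eq h1, h2]; simp

theorem orth (S : Finset (ℤ × ℤ)) (N1 N2 : ℕ)
    (hS : ∀ k ∈ S, ∀ l ∈ S, |k.1 - l.1| < N1 ∧ |k.2 - l.2| < N2) :
    Bd S (range N1 ×ˢ range N2) (fun j k => ex (j.1 * (k.1 / N1) + j.2 * (k.2 / N2)))
      (N1 * N2) := by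
  intro c
  apply le_of_eq
  have e1 : ∀ z : ℂ, ((‖z‖ ^ 2 : ℝ) : ℂ) = z * (starRingEnd ℂ) z := fun z => by
    rw [Complex.mul_conj, Complex.normSq_eq_norm_sq]
  apply Complex.ofReal_injective
  rw [Complex.ofReal_sum, Complex.ofReal_mul, Complex.ofReal_sum]
  simp only [e1, map_sum, sum_mul_sum, map_mul, ex_conj]
  rw [sum_comm, mul_sum]
  refine sum_congr rfl fun k hk => ?_
  rw [sum_comm, sum_eq_single k]
  · have : ∀ x : ℝ, c k * ex x * ((starRingEnd ℂ) (c k) * ex (-x)) = c k * (starRingEnd ℂ) (c k) := by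
      intro x
      have : ex x * ex (-x) = 1 := by rw [← ex_add]; simp [ex]
      linear_combination c k * (starRingEnd ℂ) (c k) * this
    simp only [this, sum_const, card_product, card_range, nsmul_eq_mul]
    push_cast; ring
  · intro l hl hlk
    have e2 : ∀ j : ℕ × ℕ, c k * ex (j.1 * (k.1 / N1) + j.2 * (k.2 / N2)) *
        ((starRingEnd ℂ) (c l) * ex (-(j.1 * (l.1 / N1) + j.2 * (l.2 / N2)))) =
        c k * (starRingEnd ℂ) (c l) * (ex (j.1 * (((k.1 - l.1 : ℤ) : ℝ) / N1)) *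
          ex (j.2 * (((k.2 - l.2 : ℤ) : ℝ) / N2))) := by
      intro j
      rw [← ex_add, mul_mul_mul_comm, ← ex_add]
      congr 2; push_cast; ring
    simp only [e2]
    rw [← mul_sum, sum_product' (f := fun a b : ℕ => ex (a * (((k.1 - l.1 : ℤ) : ℝ) / N1)) *
          ex (b * (((k.2 - l.2 : ℤ) : ℝ) / N2))), ← sum_mul_sum]
    by_cases h1 : k.1 - l.1 = 0
    · have h2 : k.2 - l.2 ≠ 0 := fun h2 => hlk (Prod.ext (by omega) (by omega))
      rw [geo N2 _ (hS k hk l hl).2 h2]; simp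
    · rw [geo N1 _ (hS k hk l hl).1 h1]; simp
  · intro h; exact absurd hk h

theorem Bd.comp {κ' : Type*} [DecidableEq κ] {S : Finset ι} {J : Finset κ} {E : κ → ι → ℂ} {B : ℝ}
    (h : Bd S J E B) (X : Finset κ') (g : κ' → κ) (hg : ∀ p ∈ X, g p ∈ J) (T : ℝ) (hT : 0 ≤ T)
    (hf : ∀ j ∈ J, (#{p ∈ X | g p = j} : ℝ) ≤ T) : Bd S X (fun p k => E (g p) k) (T * B) := by
  intro c
  rw [← sum_fiberwise_of_maps_to hg, mul_assoc]
  refine le_trans ?_ (mul_le_mul_of_nonneg_left (h c) hT)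
  rw [mul_sum]
  refine sum_le_sum fun j hj => ?_
  rw [sum_congr rfl (g := fun _ => ‖∑ k ∈ S, c k * E j k‖ ^ 2) (fun p hp => by
    simp only [(mem_filter.1 hp).2]), sum_const, nsmul_eq_mul]
  have := hf j hj
  gcongr

/-- One-dimensional grid facts. -/
theorem grid (L : ℝ) (hL : 1 ≤ L) : ∃ N : ℕ, 60 * L < N ∧ (N : ℝ) ≤ 61 * L ∧
    ∀ x : ℝ, 0 ≤ x → x < L → ⌊x * N / L⌋₊ < N ∧ ⌊x * N / L⌋₊ * (L / N) ≤ x ∧
      x ≤ ⌊x * N / L⌋₊ * (L / N) + 1 ∧ |x * N / L - ⌊x * N / L⌋₊| ≤ 1 := by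
  refine ⟨⌊60 * L⌋₊ + 1, by push_cast; exact Nat.lt_floor_add_one _, ?_, ?_⟩
  · have := Nat.floor_le (a := 60 * L) (by positivity)
    push_cast; linarith
  · intro x hx hxL
    have hN : 60 * L < ((⌊60 * L⌋₊ + 1 : ℕ) : ℝ) := by push_cast; exact Nat.lt_floor_add_one _
    generalize ⌊60 * L⌋₊ + 1 = N at hN
    have hN0 : (0 : ℝ) < N := by linarith
    have hL0 : 0 < L := by linarith
    have h0 : 0 ≤ x * N / L := by positivity
    have h1 := Nat.floor_le h0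
    have h2 := Nat.lt_floor_add_one (x * N / L)
    have h3 : x = x * N / L * (L / N) := by field_simp
    have h4 : L / N ≤ 1 := by rw [div_le_one hN0]; linarith
    have h5 : 0 < L / N := by positivity
    refine ⟨?_, ?_, ?_, ?_⟩
    · rw [Nat.floor_lt h0, div_lt_iff₀ hL0]; nlinarith
    · nlinarith
    · nlinarith
    · rw [abs_le]; constructor <;> linarith

theorem freq {L : ℝ} (hL : 0 < L) {N : ℕ} (hN : 60 * L < N) {m : ℤ} (hm : |m / L| ≤ 30) :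
    2 * |(m : ℝ)| < N := by
  rw [abs_div, abs_of_pos hL, div_le_iff₀ hL] at hm
  linarith

theorem unorm {N : ℕ} {m : ℤ} (h : 2 * |(m : ℝ)| < N) :
    ‖(2 * π * Complex.I * ((m / N : ℝ) : ℂ))‖ ≤ π := by
  have hN : (0 : ℝ) < N := lt_of_le_of_lt (by positivity) h
  have : |(m : ℝ) / N| ≤ 1 / 2 := by
    rw [abs_div, Nat.abs_cast, div_le_iff₀ hN]; linarith
  rw [norm_mul, norm_mul, norm_mul, Complex.norm_I, Complex.norm_real, Complex.norm_real,
    Real.norm_eq_abs, Real.norm_eq_abs, abs_of_pos Real.pi_pos]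
  simp only [Complex.norm_ofNat]
  nlinarith [Real.pi_pos]

end Sv

open Sv in
theorem sieve : SieveStmt := by
  classical
  refine ⟨8 * 61 ^ 2 * Real.exp π ^ 2 * Real.exp π ^ 2, by positivity, ?_⟩
  intro M G X R hR h1 h2 hG hX hK
  obtain ⟨N1, a1, b1, c1⟩ := grid M.L (by linarith)
  obtain ⟨N2, a2, b2, c2⟩ := grid (M.L * M.Q) (by linarith)
  have hL := M.hL
  have hP : 0 < M.L * M.Q := by linarith
  have hN1 : (0 : ℝ) < N1 := by linarith
  have hN2 : (0 : ℝ) < N2 := by linarith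
  have f1 := fun k hk => freq hL a1 (hG k hk).1
  have f2 := fun k hk => freq hP a2 (hG k hk).2
  have o := orth G.coeff.support N1 N2 fun k hk l hl => by
    have e1 := abs_sub (k.1 : ℝ) l.1
    have e2 := abs_sub (k.2 : ℝ) l.2
    have := f1 k hk; have := f1 l hl; have := f2 k hk; have := f2 l hl
    constructor
    · have : |(k.1 : ℝ) - l.1| < N1 := by linarith
      exact_mod_cast this
    · have : |(k.2 : ℝ) - l.2| < N2 := by linarith
      exact_mod_cast this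
  have g1 := fun p hp => c1 (Prod.fst p) (hX p hp).1 (by have := (hX p hp).2.1; linarith)
  have g2 := fun p hp => c2 (Prod.snd p) (hX p hp).2.2.1 (by have := (hX p hp).2.2.2; linarith)
  have o2 := o.comp X (fun p => (⌊p.1 * N1 / M.L⌋₊, ⌊p.2 * N2 / (M.L * M.Q)⌋₊))
    (fun p hp => by simp [(g1 p hp).1, (g2 p hp).1]) 8 (by norm_num) (fun j _ => by
      have := hK (j.1 * (M.L / N1), j.2 * (M.L * M.Q / N2)) 1 le_rfl
      rw [mul_one] at this
      refine le_trans ?_ this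
      gcongr with p hp
      rintro rfl
      exact ⟨(g1 p hp).2.1, (g1 p hp).2.2.1, (g2 p hp).2.1, (g2 p hp).2.2.1⟩)
  have o3 := o2.exp (by positivity)
    (fun p => ((p.1 * N1 / M.L - ⌊p.1 * N1 / M.L⌋₊ : ℝ) : ℂ))
    (fun k => 2 * π * Complex.I * ((k.1 / N1 : ℝ) : ℂ)) π Real.pi_pos
    (fun p hp => by rw [Complex.norm_real]; exact (g1 p hp).2.2.2) (fun k hk => unorm (f1 k hk))
  have o4 := o3.exp (by positivity)
    (fun p => ((p.2 * N2 / (M.L * M.Q) - ⌊p.2 * N2 / (M.L * M.Q)⌋₊ : ℝ) : ℂ))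
    (fun k => 2 * π * Complex.I * ((k.2 / N2 : ℝ) : ℂ)) π Real.pi_pos
    (fun p hp => by rw [Complex.norm_real]; exact (g2 p hp).2.2.2) (fun k hk => unorm (f2 k hk))
    G.coeff
  have hn : 0 ≤ nrm G := by unfold nrm; positivity
  calc _ = _ := ?_
    _ ≤ _ := o4
    _ ≤ 8 * (61 * M.L * (61 * (M.L * M.Q))) * Real.exp π ^ 2 * Real.exp π ^ 2 * nrm G := by
        unfold nrm; gcongr
    _ = _ := by ring
  refine sum_congr rfl fun p _ => ?_
  unfold ev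
  congr 2
  refine sum_congr rfl fun k _ => ?_
  congr 1
  simp only [ex, ← Complex.exp_add]
  congr 1
  have n1 : (N1 : ℂ) ≠ 0 := by exact_mod_cast hN1.ne'
  have n2 : (N2 : ℂ) ≠ 0 := by exact_mod_cast hN2.ne'
  have n3 : (M.L : ℂ) ≠ 0 := by exact_mod_cast hL.ne'
  have n4 : (M.Q : ℂ) ≠ 0 := by exact_mod_cast M.hQ.ne'
  push_cast
  field_simp
  ring

end

end Pool.Agent.Lib.MP_108739_an.HA
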