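import Pool.Agent.Lib.MP_108739_an.HA.Defs

/-! The stopping construction on a `D`-adic tree of arcs. -/

namespace Pool.Agent.Lib.MP_108739_an.HA

open Finset

noncomputable section

namespace Stg

open Classical in
def pre (D : ℕ) (w : ℕ → ℕ → ℝ) (S : Finset ℕ) : ℕ → ℕ → ℕ → Finset ℕ
  | 0 => fun a _ => arcS D 0 a S
  | h + 1 => fun a j => (range D).biUnion fun r =>
      if ∃ j' < j, w h j' < #(pre D w S h (D * a + r) j') then ∅ else pre D w S h (D * a + r) j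

def ct (D : ℕ) (w : ℕ → ℕ → ℝ) (S : Finset ℕ) (h a j : ℕ) : Prop :=
  ∃ j' < j, w h j' < #(pre D w S h a j')

open Classical in
def rem (D : ℕ) (w : ℕ → ℕ → ℝ) (S : Finset ℕ) (h a j : ℕ) : Finset ℕ :=
  if ct D w S h a j then ∅ else pre D w S h a j

variable {D : ℕ} {w : ℕ → ℕ → ℝ} {S : Finset ℕ}

theorem pre_succ (h a j : ℕ) :
    pre D w S (h + 1) a j = (range D).biUnion fun r => rem D w S h (D * a + r) j := by
  simp only [pre, rem, ct]
  congr 1
  funext r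
  congr

theorem ct_mono {h a j j2 : ℕ} (hj : j ≤ j2) (hc : ct D w S h a j) : ct D w S h a j2 := by
  obtain ⟨j', h1, h2⟩ := hc
  exact ⟨j', by omega, h2⟩

theorem mem_rem_iff {h a j l : ℕ} :
    l ∈ rem D w S h a j ↔ l ∈ pre D w S h a j ∧ ¬ ct D w S h a j := by
  unfold rem
  split_ifs with hc <;> simp [hc]

theorem div_succ (l h : ℕ) : l / D ^ (h + 1) = l / D ^ h / D := by
  rw [pow_succ, Nat.div_div_eq_div_mul]

theorem mem_pre (hD : 0 < D) {h a j l : ℕ} : l ∈ pre D w S h a j ↔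
    l ∈ S ∧ l / D ^ h = a ∧ ∀ h' < h, ¬ ct D w S h' (l / D ^ h') j := by
  induction h generalizing a with
  | zero => simp [pre, arcS]
  | succ h ih =>
    rw [pre_succ, mem_biUnion]
    constructor
    · rintro ⟨r, hr, hl⟩
      rw [mem_rem_iff, ih] at hl
      obtain ⟨⟨h1, h2, h3⟩, h4⟩ := hl
      refine ⟨h1, ?_, fun h' hh => ?_⟩
      · rw [div_succ, h2, Nat.mul_add_div hD, Nat.div_eq_of_lt (mem_range.1 hr), add_zero]
      · rcases Nat.lt_succ_iff_lt_or_eq.1 hh with hh | rfl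
        · exact h3 h' hh
        · rwa [h2]
    · rintro ⟨h1, h2, h3⟩
      have e : D * a + l / D ^ h % D = l / D ^ h := by
        rw [← h2, div_succ]; exact Nat.div_add_mod _ _
      refine ⟨l / D ^ h % D, mem_range.2 (Nat.mod_lt _ hD), ?_⟩
      rw [e, mem_rem_iff, ih]
      exact ⟨⟨h1, rfl, fun h' hh => h3 h' (by omega)⟩, h3 h (by omega)⟩

theorem mem_rem (hD : 0 < D) {h a j l : ℕ} : l ∈ rem D w S h a j ↔
    l ∈ S ∧ l / D ^ h = a ∧ ∀ h' ≤ h, ¬ ct D w S h' (l / D ^ h') j := by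
  rw [mem_rem_iff, mem_pre hD]
  constructor
  · rintro ⟨⟨h1, h2, h3⟩, h4⟩
    refine ⟨h1, h2, fun h' hh => ?_⟩
    rcases hh.lt_or_eq with hh | rfl
    · exact h3 h' hh
    · rwa [h2]
  · rintro ⟨h1, h2, h3⟩
    exact ⟨⟨h1, h2, fun h' hh => h3 h' hh.le⟩, h2 ▸ h3 h le_rfl⟩

theorem arc_child (hD : 0 < D) {S S' : Finset ℕ} {h a r : ℕ} (hr : r < D)
    (e : arcS D (h + 1) a S = arcS D (h + 1) a S') :
    arcS D h (D * a + r) S = arcS D h (D * a + r) S' := by
  have key : ∀ T T' : Finset ℕ, arcS D (h + 1) a T = arcS D (h + 1) a T' →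
      arcS D h (D * a + r) T ⊆ arcS D h (D * a + r) T' := by
    intro T T' e l hl
    simp only [arcS, mem_filter] at hl ⊢
    have : l ∈ arcS D (h + 1) a T := by
      simp only [arcS, mem_filter]
      refine ⟨hl.1, ?_⟩
      rw [div_succ, hl.2, Nat.mul_add_div hD, Nat.div_eq_of_lt hr, add_zero]
    rw [e] at this
    exact ⟨(mem_filter.1 this).1, hl.2⟩
  exact Subset.antisymm (key _ _ e) (key _ _ e.symm)

theorem rem_congr {S S' : Finset ℕ} {h a : ℕ}
    (e : ∀ j, pre D w S h a j = pre D w S' h a j) (j : ℕ) :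
    rem D w S h a j = rem D w S' h a j := by
  have : ct D w S h a j ↔ ct D w S' h a j := by simp only [ct, e]
  ext l
  rw [mem_rem_iff, mem_rem_iff, e, this]

theorem pre_local (hD : 0 < D) {S S' : Finset ℕ} {h a : ℕ} (e : arcS D h a S = arcS D h a S')
    (j : ℕ) : pre D w S h a j = pre D w S' h a j := by
  induction h generalizing a j with
  | zero => simpa [pre] using e
  | succ h ih =>
    rw [pre_succ, pre_succ]
    refine biUnion_congr rfl fun r hr => ?_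
    exact rem_congr (fun j => ih (arc_child hD (mem_range.1 hr) e) j) j

theorem hier (hD : 0 < D) (w : ℕ → ℕ → ℝ) (j : ℕ) :
    Hier D fun h a S => rem D w S h a j := by
  refine ⟨fun a S l hl => ?_, fun h a S => ?_, fun h a S S' e => ?_⟩
  · exact (mem_rem_iff.1 hl).1
  · by_cases hc : ct D w S (h + 1) a j
    · left; simp [rem, hc]
    · right
      rw [← pre_succ]; simp [rem, hc]
  · exact rem_congr (pre_local hD e) j

theorem div_up {l l' h h' : ℕ} (e : l / D ^ h = l' / D ^ h) (hh : h ≤ h') :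
    l / D ^ h' = l' / D ^ h' := by
  obtain ⟨k, rfl⟩ := Nat.exists_eq_add_of_le hh
  rw [pow_add, ← Nat.div_div_eq_div_mul, ← Nat.div_div_eq_div_mul, e]

theorem div_sub {l h h' : ℕ} (hh : h ≤ h') : l / D ^ h / D ^ (h' - h) = l / D ^ h' := by
  rw [Nat.div_div_eq_div_mul, ← pow_add, Nat.add_sub_cancel' hh]

/-- Disjoint heavy arcs of one height inside a set. -/
theorem count_arcs (hD : 0 < D) (B : Finset (ℕ × ℕ)) (U : Finset ℕ) (h j : ℕ)
    (h1 : ∀ τ ∈ B, τ.1 = h) (h2 : ∀ τ ∈ B, w h j ≤ #(pre D w S h τ.2 j))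
    (h3 : ∀ τ ∈ B, pre D w S h τ.2 j ⊆ U) : (#B : ℝ) * w h j ≤ #U := by
  have hd : (B : Set (ℕ × ℕ)).PairwiseDisjoint fun τ => pre D w S h τ.2 j := by
    intro τ hτ σ hσ hne
    refine disjoint_left.2 fun l ha hb => hne ?_
    rw [mem_pre hD] at ha hb
    exact Prod.ext ((h1 τ hτ).trans (h1 σ hσ).symm) (ha.2.1.symm.trans hb.2.1)
  have hc : #(B.biUnion fun τ => pre D w S h τ.2 j) ≤ #U :=
    card_le_card (biUnion_subset.2 h3)
  rw [card_biUnion hd] at hc
  calc (#B : ℝ) * w h j = ∑ _τ ∈ B, w h j := by rw [sum_const, nsmul_eq_mul]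
    _ ≤ ∑ τ ∈ B, (#(pre D w S h τ.2 j) : ℝ) := sum_le_sum h2
    _ ≤ #U := by exact_mod_cast hc

end Stg

open Stg in
theorem stage : StageStmt := by
  classical
  intro D ls jm ts th γ0 hD hjm hts hth hcap hγ hγ2
  have hD0 : 0 < D := by omega
  set w : ℕ → ℕ → ℝ := fun h j => γ0 / 2 ^ j * ((D : ℝ) ^ h) ^ ts with hw
  refine ⟨fun j h a S => rem D w S h a j, fun j => hier hD0 w j, fun S hS hcard => ?_⟩
  have hex : ∃ j, γ0 / 2 ^ j * th < #(pre D w S ls 0 j) ∨ j = jm := ⟨jm, Or.inr rfl⟩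
  set j := Nat.find hex with hj
  have hjm' : j ≤ jm := Nat.find_min' hex (Or.inr rfl)
  have hlow : ∀ j' < j, (#(pre D w S ls 0 j') : ℝ) ≤ γ0 / 2 ^ j' * th := fun j' h =>
    not_lt.1 fun hh => Nat.find_min hex h (Or.inl hh)
  have hg : ∀ j' : ℕ, 0 < γ0 / 2 ^ j' := fun j' => by positivity
  have hroot : ¬ ct D w S ls 0 j := by
    rintro ⟨j', h1, h2⟩
    have := hlow j' h1
    have h3 : γ0 / 2 ^ j' * th ≤ w ls j' := mul_le_mul_of_nonneg_left hcap (hg j').le
    linarith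
  have hz : ∀ l ∈ S, l / D ^ ls = 0 := fun l hl => Nat.div_eq_of_lt (hS l hl)
  set Lt := rem D w S ls 0 j with hLt
  let hm : ℕ → ℕ := fun l => Nat.findGreatest (fun h => ct D w S h (l / D ^ h) j) ls
  let tau : ℕ → ℕ × ℕ := fun l => (hm l, l / D ^ hm l)
  have hspec : ∀ l ∈ S \ Lt, hm l < ls ∧ ct D w S (hm l) (l / D ^ hm l) j ∧
      ∀ h', hm l < h' → h' ≤ ls → ¬ ct D w S h' (l / D ^ h') j := by
    intro l hl
    obtain ⟨h1, h2⟩ := mem_sdiff.1 hl
    rw [hLt, mem_rem hD0] at h2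
    have : ∃ h' ≤ ls, ct D w S h' (l / D ^ h') j := by
      by_contra hn
      exact h2 ⟨h1, hz l h1, fun h' hh hc => hn ⟨h', hh, hc⟩⟩
    obtain ⟨h', hh, hc⟩ := this
    have a1 : ct D w S (hm l) (l / D ^ hm l) j :=
      Nat.findGreatest_spec (P := fun h => ct D w S h (l / D ^ h) j) hh hc
    refine ⟨?_, a1, fun h'' k1 k2 =>
      Nat.findGreatest_is_greatest (P := fun h => ct D w S h (l / D ^ h) j) k1 k2⟩
    refine lt_of_le_of_ne (Nat.findGreatest_le ls) fun e => hroot ?_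
    rw [e, hz l h1] at a1
    exact a1
  let st : ℕ × ℕ → ℕ := fun τ =>
    if hc : ∃ j', w τ.1 j' < #(pre D w S τ.1 τ.2 j') then Nat.find hc else 0
  have hst : ∀ τ : ℕ × ℕ, ct D w S τ.1 τ.2 j → st τ < j ∧
      w τ.1 (st τ) < #(pre D w S τ.1 τ.2 (st τ)) ∧ ¬ ct D w S τ.1 τ.2 (st τ) := by
    rintro τ ⟨j', h1, h2⟩
    have hc : ∃ j', w τ.1 j' < #(pre D w S τ.1 τ.2 j') := ⟨j', h2⟩
    have e : st τ = Nat.find hc := dif_pos hc
    rw [e]
    refine ⟨lt_of_le_of_lt (Nat.find_min' hc h2) h1, Nat.find_spec hc, ?_⟩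
    rintro ⟨j'', k1, k2⟩
    exact Nat.find_min hc k1 k2
  -- a heavy arc sits inside the set of each of its ancestors at its own stage
  have hup : ∀ l ∈ S \ Lt, ∀ h', hm l < h' → h' ≤ ls →
      pre D w S (hm l) (l / D ^ hm l) (st (tau l)) ⊆ pre D w S h' (l / D ^ h') (st (tau l)) := by
    intro l hl h' k1 k2 l' hl'
    obtain ⟨a1, a2, a3⟩ := hspec l hl
    obtain ⟨b1, _, b3⟩ := hst (tau l) a2
    rw [mem_pre hD0] at hl' ⊢
    obtain ⟨c1, c2, c3⟩ := hl'
    refine ⟨c1, div_up c2 k1.le, fun h'' k3 => ?_⟩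
    rcases lt_trichotomy h'' (hm l) with k | k | k
    · exact c3 h'' k
    · rw [k, c2]; exact b3
    · rw [div_up c2 k.le]
      exact fun hc => a3 h'' k (by omega) (ct_mono b1.le hc)
  refine ⟨j, hjm', (S \ Lt).image tau, st, ?_, ?_, ?_, ?_, ?_⟩
  · intro h hh a
    rcases (arcS D h a Lt).eq_empty_or_nonempty with e | ⟨l, hl⟩
    · show (#(arcS D h a Lt) : ℝ) * th ≤ 2 * #Lt * ((D : ℝ) ^ h) ^ ts
      rw [e, card_empty, Nat.cast_zero, zero_mul]; positivity
    obtain ⟨l1, l2⟩ := mem_filter.1 hl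
    have l3 := (mem_rem hD0).1 l1
    have hbig : γ0 / 2 ^ j * th < #(pre D w S ls 0 j) := by
      rcases Nat.find_spec hex with k | k
      · exact k
      · exfalso
        refine l3.2.2 0 (Nat.zero_le _) ⟨jm - 1, by omega, ?_⟩
        have k1 : 1 ≤ #(pre D w S 0 (l / D ^ 0) (jm - 1)) :=
          card_pos.2 ⟨l, (mem_pre hD0).2 ⟨l3.1, rfl, fun h' hh => absurd hh (by omega)⟩⟩
        have k2 : w 0 (jm - 1) < 1 := by
          simp only [hw, pow_zero, Real.one_rpow, mul_one]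
          rwa [div_lt_one (by positivity)]
        have k3 : (1 : ℝ) ≤ #(pre D w S 0 (l / D ^ 0) (jm - 1)) := by exact_mod_cast k1
        linarith
    have eL : Lt = pre D w S ls 0 j := by simp [hLt, rem, hroot]
    have hj1 : 1 ≤ j := by
      by_contra hn
      have e : j = 0 := by omega
      have k1 : #(pre D w S ls 0 j) ≤ #S := card_le_card fun x hx => ((mem_pre hD0).1 hx).1
      have k2 : (#(pre D w S ls 0 j) : ℝ) ≤ #S := by exact_mod_cast k1
      rw [e] at hbig k2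
      simp only [pow_zero, div_one] at hbig
      linarith
    have hsub : arcS D h a Lt ⊆ pre D w S h a (j - 1) := by
      intro x hx
      obtain ⟨x1, x2⟩ := mem_filter.1 hx
      have x3 := (mem_rem hD0).1 x1
      exact (mem_pre hD0).2 ⟨x3.1, x2, fun h' k hc =>
        x3.2.2 h' (by omega) (ct_mono (by omega) hc)⟩
    have hle : (#(pre D w S h a (j - 1)) : ℝ) ≤ w h (j - 1) :=
      not_lt.1 fun k => l3.2.2 h hh ⟨j - 1, by omega, l2 ▸ k⟩
    have hc : (#(arcS D h a Lt) : ℝ) ≤ #(pre D w S h a (j - 1)) := by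
      exact_mod_cast card_le_card hsub
    have e2 : γ0 / 2 ^ (j - 1) = 2 * (γ0 / 2 ^ j) := by
      obtain ⟨k, hk⟩ : ∃ k, j = k + 1 := ⟨j - 1, by omega⟩
      rw [hk, Nat.add_sub_cancel, pow_succ]; field_simp
    have hp : 0 ≤ ((D : ℝ) ^ h) ^ ts := by positivity
    show (#(arcS D h a Lt) : ℝ) * th ≤ 2 * #Lt * ((D : ℝ) ^ h) ^ ts
    rw [← eL] at hbig
    calc (#(arcS D h a Lt) : ℝ) * th ≤ w h (j - 1) * th :=
          mul_le_mul_of_nonneg_right (hc.trans hle) hth.le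
      _ = 2 * (γ0 / 2 ^ j * th) * ((D : ℝ) ^ h) ^ ts := by simp only [hw, e2]; ring
      _ ≤ 2 * #Lt * ((D : ℝ) ^ h) ^ ts := by gcongr
  · intro τ hτ
    obtain ⟨l, hl, rfl⟩ := mem_image.1 hτ
    obtain ⟨a1, a2, _⟩ := hspec l hl
    exact ⟨a1, lt_of_le_of_lt (Nat.div_le_self _ _) (hS l (mem_sdiff.1 hl).1),
      lt_of_lt_of_le (hst (tau l) a2).1 hjm'⟩
  · intro g
    have hsub : Lt ⊆ S := fun x hx => ((mem_rem hD0).1 hx).1
    show ∑ l ∈ S, g l = ∑ l ∈ Lt, g l + _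
    rw [← sum_sdiff hsub, add_comm,
      ← sum_fiberwise_of_maps_to (g := tau) (t := (S \ Lt).image tau)
        (fun x hx => mem_image_of_mem tau hx)]
    congr 1
    refine sum_congr rfl fun τ hτ => sum_congr ?_ fun _ _ => rfl
    obtain ⟨l, hl, rfl⟩ := mem_image.1 hτ
    obtain ⟨a1, a2, a3⟩ := hspec l hl
    ext x
    simp only [arcS, mem_filter]
    constructor
    · rintro ⟨x1, x2⟩
      obtain ⟨e1, e2⟩ := Prod.ext_iff.1 x2
      refine ⟨(mem_sdiff.1 x1).1, ?_⟩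
      show x / D ^ hm l = l / D ^ hm l
      have e1' : hm x = hm l := e1
      have e2' : x / D ^ hm x = l / D ^ hm l := e2
      rwa [e1'] at e2'
    · rintro ⟨x1, x2⟩
      have x2' : x / D ^ hm l = l / D ^ hm l := x2
      have hx : x ∈ S \ Lt := mem_sdiff.2 ⟨x1, fun k =>
        ((mem_rem hD0).1 k).2.2 (hm l) a1.le (x2' ▸ a2)⟩
      obtain ⟨b1, b2, b3⟩ := hspec x hx
      have e : hm x = hm l := by
        rcases lt_trichotomy (hm x) (hm l) with k | k | k
        · exact absurd (x2' ▸ a2) (b3 _ k a1.le)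
        · exact k
        · exact absurd (div_up x2' k.le ▸ b2) (a3 _ k b1.le)
      refine ⟨hx, Prod.ext e ?_⟩
      show x / D ^ hm x = l / D ^ hm l
      rw [e, x2']
  · intro h j'
    rcases ({τ ∈ (S \ Lt).image tau | τ.1 = h ∧ st τ = j'}).eq_empty_or_nonempty with e | ⟨σ, hσ⟩
    · rw [e, card_empty, Nat.cast_zero, zero_mul]; exact hth.le
    have hj' : j' < j := by
      obtain ⟨k1, _, k3⟩ := mem_filter.1 hσ
      obtain ⟨l, hl, rfl⟩ := mem_image.1 k1
      exact k3 ▸ (hst (tau l) (hspec l hl).2.1).1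
    have key := count_arcs (w := w) (S := S) hD0
      {τ ∈ (S \ Lt).image tau | τ.1 = h ∧ st τ = j'} (pre D w S ls 0 j') h j'
      (fun τ hτ => (mem_filter.1 hτ).2.1) (fun τ hτ => ?_) (fun τ hτ => ?_)
    · have k := key.trans (hlow j' hj')
      refine le_of_mul_le_mul_left ?_ (hg j')
      simp only [hw] at k
      linarith
    · obtain ⟨k1, k2, k3⟩ := mem_filter.1 hτ
      obtain ⟨l, hl, rfl⟩ := mem_image.1 k1
      rw [← k2, ← k3]
      exact (hst (tau l) (hspec l hl).2.1).2.1.le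
    · obtain ⟨k1, k2, k3⟩ := mem_filter.1 hτ
      obtain ⟨l, hl, rfl⟩ := mem_image.1 k1
      rw [← k2, ← k3, ← hz l (mem_sdiff.1 hl).1]
      exact hup l hl ls (hspec l hl).1 le_rfl
  · intro h j' h' a' hh hh'
    rcases ({τ ∈ (S \ Lt).image tau | τ.1 = h ∧ st τ = j' ∧
        τ.2 / D ^ (h' - h) = a'}).eq_empty_or_nonempty with e | ⟨σ, hσ⟩
    · rw [e, card_empty, Nat.cast_zero, zero_mul]; positivity
    have hb : (#(pre D w S h' a' j') : ℝ) ≤ w h' j' := by
      obtain ⟨k1, k2, k3, k4⟩ := mem_filter.1 hσ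
      obtain ⟨l, hl, rfl⟩ := mem_image.1 k1
      obtain ⟨a1, a2, a3⟩ := hspec l hl
      have k2' : hm l = h := k2
      have k4' : l / D ^ hm l / D ^ (h' - h) = a' := k4
      rw [k2', div_sub hh.le] at k4'
      refine not_lt.1 fun k => a3 h' (k2' ▸ hh) hh' ⟨j', k3 ▸ (hst (tau l) a2).1, ?_⟩
      rwa [k4']
    have key := count_arcs (w := w) (S := S) hD0
      {τ ∈ (S \ Lt).image tau | τ.1 = h ∧ st τ = j' ∧ τ.2 / D ^ (h' - h) = a'}
      (pre D w S h' a' j') h j'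
      (fun τ hτ => (mem_filter.1 hτ).2.1) (fun τ hτ => ?_) (fun τ hτ => ?_)
    · have k := key.trans hb
      refine le_of_mul_le_mul_left ?_ (hg j')
      simp only [hw] at k
      linarith
    · obtain ⟨k1, k2, k3, _⟩ := mem_filter.1 hτ
      obtain ⟨l, hl, rfl⟩ := mem_image.1 k1
      rw [← k2, ← k3]
      exact (hst (tau l) (hspec l hl).2.1).2.1.le
    · obtain ⟨k1, k2, k3, k4⟩ := mem_filter.1 hτ
      obtain ⟨l, hl, rfl⟩ := mem_image.1 k1
      have k2' : hm l = h := k2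
      have k4' : l / D ^ hm l / D ^ (h' - h) = a' := k4
      rw [k2', div_sub hh.le] at k4'
      rw [← k4', ← k3]
      have := hup l hl h' (k2' ▸ hh) hh'
      rw [← k2']
      exact this

end

end Pool.Agent.Lib.MP_108739_an.HA
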