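import Mathlib

/-! Real-number bookkeeping for the induction step. -/

namespace Pool.Agent.Lib.MP_108739_an.HA

theorem inv_rpow' {W : ℝ} (hW : 0 < W) (a : ℝ) : (1 / W) ^ a = W ^ (-a) := by
  rw [Real.rpow_neg hW.le, one_div, Real.inv_rpow hW.le]

theorem polylog_le (ζ : ℝ) (hζ : 0 < ζ) (p : ℕ) (J : ℝ) :
    ∃ H0 : ℝ, 1 ≤ H0 ∧ ∀ H ≥ H0, J ≤ H ^ ζ ∧
      ∀ Y : ℕ, (2 : ℝ) ^ Y ≤ 2 * H → (100 * Y : ℝ) ^ p ≤ H ^ ζ := by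
  set a : ℝ := ζ / (2 * (p + 1)) with ha
  have ha0 : 0 < a := by positivity
  set C : ℝ := 200 * 2 ^ a / a with hC
  have hC0 : 0 < C := by positivity
  have ht := tendsto_rpow_atTop (half_pos hζ)
  obtain ⟨H1, h1⟩ := Filter.eventually_atTop.1 (ht.eventually_ge_atTop (max (max J 1) (C ^ p)))
  refine ⟨max H1 1, le_max_right _ _, fun H hH => ?_⟩
  have hH1 : 1 ≤ H := (le_max_right _ _).trans hH
  have h2 := h1 H ((le_max_left _ _).trans hH)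
  have h3 : H ^ ζ = H ^ (ζ / 2) * H ^ (ζ / 2) := by
    rw [← Real.rpow_add (by linarith)]; congr 1; ring
  have h4 : 1 ≤ H ^ (ζ / 2) := ((le_max_right _ _).trans (le_max_left _ _)).trans h2
  constructor
  · have : J ≤ H ^ (ζ / 2) := ((le_max_left _ _).trans (le_max_left _ _)).trans h2
    rw [h3]; nlinarith
  intro Y hY
  have h5 : (100 * Y : ℝ) ≤ C * H ^ a := by
    have h6 : (Y : ℝ) * Real.log 2 ≤ Real.log (2 * H) := by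
      rw [← Real.log_pow]; exact Real.log_le_log (by positivity) hY
    have h7 := Real.log_le_rpow_div (by positivity : (0 : ℝ) ≤ 2 * H) ha0
    rw [Real.mul_rpow (by norm_num) (by linarith)] at h7
    have h8 : (1 / 2 : ℝ) ≤ Real.log 2 := by linarith [Real.log_two_gt_d9]
    have h9 : (0 : ℝ) ≤ Y := by positivity
    have : C * H ^ a = 200 * (2 ^ a * H ^ a / a) := by rw [hC]; ring
    nlinarith
  calc (100 * Y : ℝ) ^ p ≤ (C * H ^ a) ^ p := by gcongr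
    _ = C ^ p * H ^ (a * p) := by rw [mul_pow, Real.rpow_mul (by linarith), Real.rpow_natCast]
    _ ≤ H ^ (ζ / 2) * H ^ (ζ / 2) := by
        gcongr
        · exact (le_max_right _ _).trans h2
        · rw [ha, div_mul_eq_mul_div, div_le_div_iff₀ (by positivity) (by norm_num)]
          nlinarith
    _ = _ := h3.symm

theorem pow_le_W {x W e : ℝ} (hx : 0 ≤ x) (hW : 1 ≤ W) (h : x ≤ W ^ e) (k : ℕ) :
    x ^ k ≤ W ^ (k * e) := by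
  rw [mul_comm, Real.rpow_mul (by linarith), Real.rpow_natCast]
  gcongr

theorem nEc_bound {x W e ε t Pi q Λ n Ec E : ℝ} (hx : 32 ≤ x) (hW : 1 ≤ W) (hPi : Pi ≤ x)
    (hPi0 : 0 ≤ Pi) (hq : 1 ≤ q * x ^ 2) (hΛ : Λ ≤ x ^ 5) (hΛ0 : 0 ≤ Λ) (hn : 0 ≤ n * Ec)
    (h : n * Ec * (q * (1 / W) ^ e * √(W ^ (t / 3 - ε / 2))) ≤
      4 * Pi * (8 * x ^ 2 * W ^ e) * Λ * x * (1 / W) ^ (t / 2) * E ^ 2) :
    n * Ec ≤ x ^ 12 * W ^ (2 * e + ε / 4 - 2 * t / 3) * E ^ 2 := by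
  have hW0 : 0 < W := by linarith
  have hx0 : 0 < x := by linarith
  rw [inv_rpow' hW0, inv_rpow' hW0, Real.sqrt_eq_rpow, ← Real.rpow_mul hW0.le] at h
  set u : ℝ := W ^ (-e) * W ^ ((t / 3 - ε / 2) * (1 / 2)) with hu
  have hu0 : 0 < u := by positivity
  have e1 : W ^ e * W ^ (-(t / 2)) = W ^ (2 * e + ε / 4 - 2 * t / 3) * u := by
    rw [hu, ← Real.rpow_add hW0, ← Real.rpow_add hW0, ← Real.rpow_add hW0]; congr 1; ring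
  refine le_of_mul_le_mul_right ?_ hu0
  calc n * Ec * u ≤ n * Ec * u * (q * x ^ 2) := le_mul_of_one_le_right (by positivity) hq
    _ = n * Ec * (q * W ^ (-e) * W ^ ((t / 3 - ε / 2) * (1 / 2))) * x ^ 2 := by rw [hu]; ring
    _ ≤ 4 * Pi * (8 * x ^ 2 * W ^ e) * Λ * x * W ^ (-(t / 2)) * E ^ 2 * x ^ 2 := by gcongr
    _ = 32 * Pi * Λ * x ^ 5 * (W ^ e * W ^ (-(t / 2))) * E ^ 2 := by ring
    _ ≤ x * x * x ^ 5 * x ^ 5 * (W ^ e * W ^ (-(t / 2))) * E ^ 2 := by gcongr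
    _ = _ := by rw [e1]; ring

theorem numB {x W e ε t U C Pi Z0 R E M lam : ℝ} (hx : 1 ≤ x) (hW : 1 ≤ W) (hxW : x ≤ W ^ e)
    (he : e = ε ^ 2 / 100) (hε : 0 < ε) (hε1 : ε ≤ 1 / 10) (hU : U ≤ x) (hC : C ≤ x) (hPi : Pi ≤ x)
    (hU0 : 0 ≤ U) (hC0 : 0 ≤ C) (hPi0 : 0 ≤ Pi) (hZ : 0 ≤ Z0) (hR : 0 < R) (hE : 0 ≤ E)
    (h : M * lam ^ 3 ≤ C * Pi ^ 4 * W ^ t * (Z0 * (R / W) ^ ε) *
      (x ^ 8 * W ^ (e + ε / 8 - t / 3) * E) ^ 3) :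
    U * (M * lam ^ 3) ≤ Z0 * R ^ ε * E ^ 3 := by
  have hW0 : 0 < W := by linarith
  have hx0 : 0 < x := by linarith
  have e1 : W ^ t * (W ^ ε)⁻¹ * (W ^ (e + ε / 8 - t / 3)) ^ 3 = W ^ (3 * e - 5 * ε / 8) := by
    rw [← Real.rpow_neg hW0.le, ← Real.rpow_natCast, ← Real.rpow_mul hW0.le, ← Real.rpow_add hW0,
      ← Real.rpow_add hW0]
    congr 1; push_cast; ring
  have e2 : x ^ 30 * W ^ (3 * e - 5 * ε / 8) ≤ 1 := by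
    calc _ ≤ W ^ ((30 : ℕ) * e) * W ^ (3 * e - 5 * ε / 8) := by
          gcongr; exact pow_le_W hx0.le hW hxW 30
      _ ≤ 1 := by
          rw [← Real.rpow_add hW0]
          refine Real.rpow_le_one_of_one_le_of_nonpos hW ?_
          push_cast; nlinarith
  calc U * (M * lam ^ 3) ≤ x * (x * x ^ 4 * W ^ t * (Z0 * (R / W) ^ ε) *
        (x ^ 8 * W ^ (e + ε / 8 - t / 3) * E) ^ 3) := by
        refine (mul_le_mul_of_nonneg_left h hU0).trans ?_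
        gcongr
    _ = x ^ 30 * (W ^ t * (W ^ ε)⁻¹ * (W ^ (e + ε / 8 - t / 3)) ^ 3) * (Z0 * R ^ ε * E ^ 3) := by
        rw [Real.div_rpow hR.le hW0.le]; ring
    _ ≤ 1 * (Z0 * R ^ ε * E ^ 3) := by rw [e1]; gcongr
    _ = _ := one_mul _

theorem numA {x W e ε U B Dd Pi Z0 R H E M N lam n Ec : ℝ} (hx : 8 ≤ x) (hW : 1 ≤ W)
    (hxW : x ≤ W ^ e) (he : e = ε ^ 2 / 100) (hε : 0 < ε) (hε1 : ε ≤ 1 / 10) (hU : U ≤ x)
    (hB : B ≤ x) (hPi : Pi ≤ x) (hDd : Dd ≤ x * W ^ e) (hU0 : 0 ≤ U) (hB0 : 0 ≤ B)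
    (hPi0 : 0 ≤ Pi) (hDd0 : 0 ≤ Dd) (hZ : 1 ≤ Z0) (hR : 1 ≤ R) (hRH : R ≤ H) (hWR : W ≤ R)
    (hE : 0 ≤ E) (hM0 : 0 ≤ M) (hM : M ≤ 8 * R) (hN : M ≤ Pi * N) (hlam : 0 ≤ lam)
    (hR2 : R ^ 2 ≤ x ^ 5 * W ^ 4) (hn0 : 0 ≤ n * Ec)
    (hn : n * Ec ≤ x ^ 12 * W ^ (2 * e + ε / 4 - 2 * (3 / 2) / 3) * E ^ 2)
    (h : N * lam ^ 6 ≤ B * Dd * Pi ^ 6 *
      (n ^ 2 * x ^ 4 * (1 / W * Ec) ^ 2 * R * E ^ 2 + E ^ 6 / H ^ 40)) :
    U * (M * lam ^ 3) ≤ Z0 * R ^ ε * E ^ 3 := by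
  have hW0 : 0 < W := by linarith
  have hx0 : 0 < x := by linarith
  have hR0 : 0 < R := by linarith
  set v : ℝ := W ^ (2 * e + ε / 4) with hv
  have hv1 : 1 ≤ v := Real.one_le_rpow hW (by rw [he]; positivity)
  have e0 : W ^ (2 * e + ε / 4 - 2 * (3 / 2) / 3) = v / W := by
    rw [hv, Real.rpow_sub hW0]; norm_num
  rw [e0] at hn
  have h1 : R * (n ^ 2 * x ^ 4 * (1 / W * Ec) ^ 2 * R * E ^ 2) ≤ x ^ 33 * v ^ 2 * E ^ 6 := by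
    calc _ = (n * Ec) ^ 2 * x ^ 4 * R ^ 2 * E ^ 2 / W ^ 2 := by field_simp
      _ ≤ (x ^ 12 * (v / W) * E ^ 2) ^ 2 * x ^ 4 * (x ^ 5 * W ^ 4) * E ^ 2 / W ^ 2 := by gcongr
      _ = _ := by field_simp
  have h2 : R * (E ^ 6 / H ^ 40) ≤ x ^ 33 * v ^ 2 * E ^ 6 := by
    have h3 : R ≤ H ^ 40 := hRH.trans (le_self_pow₀ (by linarith) (by norm_num))
    have h4 : 1 ≤ x ^ 33 * v ^ 2 :=
      one_le_mul_of_one_le_of_one_le (one_le_pow₀ (by linarith)) (one_le_pow₀ hv1)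
    have h5 : 0 < H ^ 40 := by linarith
    calc R * (E ^ 6 / H ^ 40) = R / H ^ 40 * E ^ 6 := by ring
      _ ≤ _ := by gcongr; exact ((div_le_one h5).2 h3).trans h4
  have h6 : x ^ 46 * (W ^ e * v ^ 2) ≤ (R ^ ε) ^ 2 := by
    calc _ ≤ W ^ ((46 : ℕ) * e) * (W ^ e * v ^ 2) := by
          gcongr; exact pow_le_W hx0.le hW hxW 46
      _ = W ^ ((46 : ℕ) * e + (e + (2 * e + ε / 4) * (2 : ℕ))) := by
          rw [Real.rpow_add hW0, Real.rpow_add hW0, Real.rpow_mul hW0.le (2 * e + ε / 4),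
            Real.rpow_natCast]
      _ ≤ W ^ (ε * (2 : ℕ)) := by
          refine Real.rpow_le_rpow_of_exponent_le hW ?_
          push_cast; nlinarith
      _ ≤ R ^ (ε * (2 : ℕ)) := by gcongr
      _ = _ := by rw [Real.rpow_mul hR0.le, Real.rpow_natCast]
  refine le_of_sq_le_sq ?_ (by positivity)
  calc (U * (M * lam ^ 3)) ^ 2 = U ^ 2 * M * M * lam ^ 6 := by ring
    _ ≤ x ^ 2 * (8 * R) * (Pi * N) * lam ^ 6 := by gcongr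
    _ = 8 * x ^ 2 * Pi * R * (N * lam ^ 6) := by ring
    _ ≤ 8 * x ^ 2 * Pi * R * (B * Dd * Pi ^ 6 *
        (n ^ 2 * x ^ 4 * (1 / W * Ec) ^ 2 * R * E ^ 2 + E ^ 6 / H ^ 40)) := by gcongr
    _ = 8 * x ^ 2 * Pi ^ 7 * B * Dd * (R * (n ^ 2 * x ^ 4 * (1 / W * Ec) ^ 2 * R * E ^ 2) +
        R * (E ^ 6 / H ^ 40)) := by ring
    _ ≤ x * x ^ 2 * x ^ 7 * x * (x * W ^ e) * (x ^ 33 * v ^ 2 * E ^ 6 + x ^ 33 * v ^ 2 * E ^ 6) := by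
        have : 0 ≤ H := by linarith
        gcongr
    _ = 2 * x ^ 45 * (W ^ e * v ^ 2) * E ^ 6 := by ring
    _ ≤ x * x ^ 45 * (W ^ e * v ^ 2) * E ^ 6 := by gcongr; linarith
    _ = 1 ^ 2 * (x ^ 46 * (W ^ e * v ^ 2)) * E ^ 6 := by ring
    _ ≤ Z0 ^ 2 * (R ^ ε) ^ 2 * E ^ 6 := by gcongr
    _ = _ := by ring

theorem numC {x W e ε U C P K G q σ T V : ℝ} (hx : 8 ≤ x) (hW : 1 ≤ W) (hxW : x ≤ W ^ e)
    (he : e = ε ^ 2 / 100) (hε : 0 < ε) (hU : U ≤ x) (hC : C ≤ x) (hP : P ≤ x) (hG : G ≤ x)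
    (hU0 : 0 ≤ U) (hC0 : 0 ≤ C) (hP0 : 0 ≤ P) (hK0 : 0 ≤ K) (hG0 : 0 ≤ G) (hq : K ≤ q ^ 3 * x ^ 4)
    (hq0 : 0 < q) (hσ0 : 0 ≤ σ) (hσ : σ ≤ W ^ (-(ε / 2))) (hV : 0 ≤ V)
    (h : T ^ 2 * q ^ 3 ≤ C * P * K * (8 * x ^ 2 * W ^ e) * x * G ^ 6 * (σ ^ ε * V) ^ 2) :
    U * T ≤ V := by
  have hW0 : 0 < W := by linarith
  have hx0 : 0 < x := by linarith
  have h1 : (σ ^ ε) ^ 2 ≤ W ^ (-ε ^ 2) := by
    calc (σ ^ ε) ^ 2 ≤ ((W ^ (-(ε / 2))) ^ ε) ^ 2 := by gcongr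
      _ = _ := by
        rw [← Real.rpow_mul hW0.le, ← Real.rpow_natCast, ← Real.rpow_mul hW0.le]
        congr 1; push_cast; ring
  have h2 : x ^ 18 * (W ^ e * W ^ (-ε ^ 2)) ≤ 1 := by
    calc _ ≤ W ^ ((18 : ℕ) * e) * (W ^ e * W ^ (-ε ^ 2)) := by
          gcongr; exact pow_le_W hx0.le hW hxW 18
      _ ≤ 1 := by
          rw [← Real.rpow_add hW0, ← Real.rpow_add hW0]
          refine Real.rpow_le_one_of_one_le_of_nonpos hW ?_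
          push_cast; nlinarith
  refine le_of_sq_le_sq (le_of_mul_le_mul_right ?_ (pow_pos hq0 3)) hV
  calc (U * T) ^ 2 * q ^ 3 = U ^ 2 * (T ^ 2 * q ^ 3) := by ring
    _ ≤ x ^ 2 * (x * x * (q ^ 3 * x ^ 4) * (x * x ^ 2 * W ^ e) * x * x ^ 6 * (σ ^ ε * V) ^ 2) := by
        refine (mul_le_mul_of_nonneg_left h (by positivity)).trans ?_
        gcongr
    _ = x ^ 18 * (W ^ e * (σ ^ ε) ^ 2) * (V ^ 2 * q ^ 3) := by ring
    _ ≤ x ^ 18 * (W ^ e * W ^ (-ε ^ 2)) * (V ^ 2 * q ^ 3) := by gcongr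
    _ ≤ 1 * (V ^ 2 * q ^ 3) := by gcongr
    _ = _ := one_mul _

theorem sigma_le {W y t ε : ℝ} (hW : 1 ≤ W) (hy0 : 0 < y) (hy : y ≤ W) (ht0 : 0 ≤ t)
    (ht : t ≤ 3 / 2) (h : y ^ min t (2 - t) ≤ W ^ (t / 3 - ε / 2)) :
    1 / W * y ≤ W ^ (-(ε / 2)) := by
  have hW0 : 0 < W := by linarith
  have h1 : min t (2 - t) ≤ 1 := by
    rcases le_total t 1 with h | h
    · exact (min_le_left _ _).trans h
    · exact (min_le_right _ _).trans (by linarith)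
  have h2 : t / 3 ≤ min t (2 - t) := le_min (by linarith) (by linarith)
  have h3 : 1 / W * y ≤ 1 := by rw [one_div_mul_eq_div, div_le_one hW0]; exact hy
  calc 1 / W * y = (1 / W * y) ^ (1 : ℝ) := (Real.rpow_one _).symm
    _ ≤ (1 / W * y) ^ min t (2 - t) := Real.rpow_le_rpow_of_exponent_ge (by positivity) h3 h1
    _ = W ^ (-min t (2 - t)) * y ^ min t (2 - t) := by
        rw [Real.mul_rpow (by positivity) hy0.le, inv_rpow' hW0]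
    _ ≤ W ^ (-min t (2 - t)) * W ^ (t / 3 - ε / 2) := by gcongr
    _ ≤ _ := by
        rw [← Real.rpow_add hW0]
        exact Real.rpow_le_rpow_of_exponent_le hW (by linarith)

end Pool.Agent.Lib.MP_108739_an.HA
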