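import Pool.Agent.Lib.MP_108739_an.HA.Geo
import Pool.Agent.Lib.MP_108739_an.HA.StepNum

/-! The induction step of the broad estimate from its pieces. -/

namespace Pool.Agent.Lib.MP_108739_an.HA

open Finset

theorem choose_D {R G : ℝ} {m : ℕ} (hG : 2 ≤ G) (hR : G ^ (4 * m + 4) ≤ R) :
    ∃ D : ℕ, G ≤ D ∧ (D : ℝ) ^ (2 * m + 2) ≤ R ∧ R ≤ (2 * D : ℝ) ^ (2 * m + 2) := by
  have hR0 : 0 ≤ R := le_trans (by positivity) hR
  set y : ℝ := R ^ (((2 * m + 2 : ℕ) : ℝ)⁻¹) with hy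
  have hy0 : 0 ≤ y := by positivity
  have h1 : y ^ (2 * m + 2) = R := Real.rpow_inv_natCast_pow hR0 (by omega)
  have h2 : G ^ 2 ≤ y := by
    refine le_of_pow_le_pow_left₀ (n := 2 * m + 2) (by omega) hy0 ?_
    rw [h1, ← pow_mul, show 2 * (2 * m + 2) = 4 * m + 4 by ring]; exact hR
  have h3 := Nat.floor_le hy0
  have h4 := Nat.lt_floor_add_one y
  refine ⟨⌊y⌋₊, by nlinarith, ?_, ?_⟩
  · rw [← h1]; gcongr
  · rw [← h1]; gcongr; nlinarith

theorem tail_le {H ζ : ℝ} {k D : ℕ} (hH : 1 ≤ H) (hk : 200 ≤ ζ * k) (h1 : H ^ ζ ≤ D)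
    (h2 : 4 * (k : ℝ) ^ 2 ≤ D) : (2 * k / D : ℝ) ^ (2 * k) ≤ 1 / H ^ 200 := by
  have hG : 0 < H ^ ζ := by positivity
  have hD : (0 : ℝ) < D := hG.trans_le h1
  have h3 : (2 * k / D : ℝ) ^ 2 ≤ 1 / H ^ ζ := by
    rw [div_pow, div_le_div_iff₀ (by positivity) hG]
    nlinarith [mul_le_mul h2 h1 hG.le hD.le]
  rw [pow_mul]
  refine (pow_le_pow_left₀ (by positivity) h3 k).trans ?_
  rw [one_div_pow]
  refine one_div_le_one_div_of_le (by positivity) ?_
  rw [← Real.rpow_natCast, ← Real.rpow_natCast, ← Real.rpow_mul (by linarith)]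
  exact Real.rpow_le_rpow_of_exponent_le hH (by exact_mod_cast hk)

theorem aux1 {a b : ℝ} (ha : 1 ≤ a) (hb : 1 ≤ b) : 1 ≤ a * b := one_le_mul_of_one_le_of_one_le ha hb

theorem aux2 {R H : ℝ} (h : R ≤ H) (h2 : 10000 ≤ H) : 8 * R ≤ H ^ 3 := by
  nlinarith [mul_pos (by linarith : (0 : ℝ) < H) (by linarith : (0 : ℝ) < H)]

theorem aux3 {K G x : ℝ} (h : K ^ 2 ≤ G) (h2 : G ≤ x) (h3 : 10000 ≤ x) : 100 * K ≤ x := by
  nlinarith

theorem aux4 {a b R : ℝ} (hR : 0 ≤ R) (h : (a * b) ^ 2 ≤ R) : a * √R * b ≤ R := by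
  have h1 : a * b ≤ √R := Real.le_sqrt_of_sq_le h
  nlinarith [Real.mul_self_sqrt hR, Real.sqrt_nonneg R]

theorem aux5 {ε : ℝ} (h : 0 < ε) (h1 : ε ≤ 1 / 10) : ε ^ 2 / 100 ≤ ε ∧ 3 * (ε ^ 2 / 100) ≤ 2 * ε := by
  constructor <;> nlinarith

theorem aux6 {P Y : ℝ} (h : 10000 * Y ^ 2 ≤ P) (h1 : 1 ≤ Y) :
    10000 * P * Y ^ 2 ≤ P ^ 2 ∧ 200 * P ≤ P ^ 2 := by
  have : 1 ≤ Y ^ 2 := one_le_pow₀ h1
  constructor <;> nlinarith

theorem aux7 {x : ℝ} (h : 10000 ≤ x) : 2 * x ≤ x ^ 2 ∧ x ≤ x ^ 2 := by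
  constructor <;> nlinarith

theorem aux8 {c r l v n : ℝ} (hc : 0 < c) (h1 : c * r ≤ 0 ^ 2) (hn : 0 ≤ n) (hl : 0 < l)
    (h2 : l ≤ v) (h3 : v ^ 2 ≤ n * r) : False := by
  have h4 : r ≤ 0 := by nlinarith
  nlinarith [mul_nonneg hn (neg_nonneg.2 h4)]

set_option maxHeartbeats 1600000 in
theorem step (hPrep : PrepStmt) (hStage : StageStmt) (hWP : WPStmt) (hTri : TriStmt)
    (hLN : LNStmt) (hA : AStmt) (hB : BStmt) (hC : CStmt) (hDec : DecStmt) (hFF : FFStmt) :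
    StepStmt := by
  classical
  intro ε hε hε1
  set e : ℝ := ε ^ 2 / 100 with he
  have he0 : 0 < e := by positivity
  obtain ⟨m, hm1, hprep⟩ := hPrep e (⌈1 / e⌉₊ + 2) he0
  obtain ⟨C0, hC0, hff⟩ := hFF
  obtain ⟨BA, hBA1, hBAm, hstepA⟩ := hA
  obtain ⟨CB, hCB, hstepB⟩ := hB
  obtain ⟨CC, hCC, hstepC⟩ := hC
  obtain ⟨Cd, hCd, hdec⟩ := hDec e he0
  set ζ : ℝ := ε / (4 * m + 4) with hζ
  have hζ0 : 0 < ζ := by positivity
  have hζε : ζ ≤ ε := div_le_self hε.le (by linarith [Nat.cast_nonneg (α := ℝ) m])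
  refine ⟨ζ, 3 * ⌈C0⌉₊ + 9, hζ0, hζε, by omega, fun e2 he2 => ?_⟩
  obtain ⟨c, hc0, hc1, hff⟩ := hff e e2 he0 he2
  set k : ℕ := ⌈200 / ζ⌉₊ + 1 with hk
  obtain ⟨H0, hH0, hbig⟩ := polylog_le ζ hζ0 (m + 80)
    (1 / c + CB + CC + BA m + Cd ^ m + 4 * (k : ℝ) ^ 2 + 10000 + 2 ^ (4 * m + 4))
  refine ⟨H0, fun H hH K1 A0 A A' Y Z0 R hK1 hK1G hY1 hY2 hA0 hA'1 hA'0 hAA' hAe hZ0 hR1 hRH
    hco hlow => ?_⟩
  obtain ⟨hJ, hYG⟩ := hbig H hH
  replace hYG := hYG Y hY2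
  have hH1 : 1 ≤ H := hH0.trans hH
  set G : ℝ := H ^ ζ with hG
  have p1 : 0 < 1 / c := by positivity
  have p2 : 0 < Cd ^ m := by positivity
  have p3 : 0 ≤ 4 * (k : ℝ) ^ 2 := by positivity
  have p4 : (0 : ℝ) < 2 ^ (4 * m + 4) := by positivity
  have p5 := hBA1 m
  have hG4 : 10000 ≤ G := by linarith
  have hGε : G ≤ H ^ ε := Real.rpow_le_rpow_of_exponent_le hH1 hζε
  have hGH : G ≤ H := by
    simpa using Real.rpow_le_rpow_of_exponent_le hH1 (show ζ ≤ 1 by linarith)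
  have hRone : 1 ≤ R := by linarith
  obtain ⟨D, hD1, hD2, hD3⟩ := choose_D (R := R) (G := G) (m := m) (by linarith) (by
    rw [hG, ← Real.rpow_natCast, ← Real.rpow_mul (by linarith)]
    convert hR1 using 2
    rw [hζ]; push_cast; field_simp)
  set x : ℝ := (D : ℝ) with hx
  have hx4 : 10000 ≤ x := by linarith
  have hY0 : 1 ≤ Y := by
    by_contra h
    have : Y = 0 := by omega
    rw [this] at hY1; norm_num at hY1; linarith
  have hN1 : (1 : ℝ) ≤ 100 * Y := by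
    have : (1 : ℝ) ≤ Y := by exact_mod_cast hY0
    linarith
  have hNp : ∀ p ≤ m + 80, (100 * Y : ℝ) ^ p ≤ x := fun p hp =>
    (pow_le_pow_right₀ hN1 hp).trans (hYG.trans hD1)
  set Pi : ℕ := (100 * Y) ^ 6 with hPi
  have hPiR : (Pi : ℝ) = (100 * Y : ℝ) ^ 6 := by rw [hPi]; push_cast; rfl
  have hPix : (Pi : ℝ) ≤ x := hPiR ▸ hNp 6 (by omega)
  have hPi1 : 1 ≤ Pi := Nat.one_le_pow _ _ (by omega)
  have hPi1' : (1 : ℝ) ≤ Pi := by exact_mod_cast hPi1
  have hK2 : (2 : ℝ) ≤ K1 := by exact_mod_cast hK1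
  have hKp : ∀ a : ℝ, a ≤ (3 * ⌈C0⌉₊ + 9 : ℕ) → (K1 : ℝ) ^ a ≤ x := fun a ha => by
    refine le_trans ?_ (hK1G.trans hD1)
    rw [← Real.rpow_natCast]
    exact Real.rpow_le_rpow_of_exponent_le (by linarith) ha
  have hK1sq : (K1 : ℝ) ^ 2 ≤ G := (pow_le_pow_right₀ (by linarith) (by omega)).trans hK1G
  have hC0c := Nat.le_ceil C0
  set q : ℝ := c * (1 / K1 : ℝ) ^ C0 with hq
  have hq0 : 0 < q := by positivity
  have hcx : 1 ≤ c * x := by
    have : 1 / c ≤ x := by linarith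
    rwa [div_le_iff₀' hc0] at this
  have hκ : (1 / K1 : ℝ) ^ C0 * (K1 : ℝ) ^ C0 = 1 := by
    rw [← Real.mul_rpow (by positivity) (by positivity), one_div_mul_cancel (by positivity),
      Real.one_rpow]
  have hqx : 1 ≤ q * x ^ 2 := by
    have h1 := hKp C0 (by push_cast; linarith [Nat.cast_nonneg (α := ℝ) ⌈C0⌉₊])
    calc (1 : ℝ) = 1 * ((1 / K1 : ℝ) ^ C0 * (K1 : ℝ) ^ C0) := by rw [hκ, one_mul]
      _ ≤ (c * x) * ((1 / K1 : ℝ) ^ C0 * x) := by gcongr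
      _ = _ := by rw [hq]; ring
  have hqK : (K1 : ℝ) ^ 9 ≤ q ^ 3 * x ^ 4 := by
    have h1 := hKp (C0 * (3 : ℕ) + (9 : ℕ)) (by push_cast; linarith)
    rw [Real.rpow_add (by linarith), Real.rpow_mul (by linarith), Real.rpow_natCast,
      Real.rpow_natCast] at h1
    calc (K1 : ℝ) ^ 9 = 1 ^ 3 * (((1 / K1 : ℝ) ^ C0 * (K1 : ℝ) ^ C0) ^ 3 * (K1 : ℝ) ^ 9) := by
          rw [hκ]; ring
      _ = 1 ^ 3 * (((1 / K1 : ℝ) ^ C0) ^ 3 * (((K1 : ℝ) ^ C0) ^ 3 * (K1 : ℝ) ^ 9)) := by ring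
      _ ≤ (c * x) ^ 3 * (((1 / K1 : ℝ) ^ C0) ^ 3 * x) := by gcongr
      _ = _ := by rw [hq]; ring
  have hAR : (Pi : ℝ) ^ 2 * H ^ e2 ≤ A := by rw [hPiR]; exact hAe
  have hHe : 1 ≤ H ^ e2 := Real.one_le_rpow hH1 he2.le
  have hA1 : 1 ≤ A := by
    have : (1 : ℝ) ≤ A := (aux1 (one_le_pow₀ hPi1') hHe).trans hAR
    exact_mod_cast this
  have hPiY : 10000 * (Y : ℝ) ^ 2 ≤ Pi := by
    rw [hPiR]
    calc 10000 * (Y : ℝ) ^ 2 = (100 * Y) ^ 2 := by ring
      _ ≤ _ := pow_le_pow_right₀ hN1 (by norm_num)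
  have hY1' : (1 : ℝ) ≤ Y := by exact_mod_cast hY0
  have hRε : 1 ≤ R ^ ε := Real.one_le_rpow hRone hε.le
  intro M F X lam E hl1 hl2 hq1 hq2 hlam hE hsupp hbox hkt hen hbr
  rcases X.eq_empty_or_nonempty with rfl | hXne
  · simp; positivity
  have hX8 : (#X : ℝ) ≤ 8 * R := hkt.card_le hRone hbox
  rcases lt_or_ge (H * lam) E with hlE | hlE
  · have h1 : (H * lam) ^ 3 ≤ E ^ 3 := by gcongr
    have h2 : 8 * R ≤ H ^ 3 := aux2 hRH (hG4.trans hGH)
    calc (#X : ℝ) * lam ^ 3 ≤ H ^ 3 * lam ^ 3 := by gcongr; linarith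
      _ ≤ 1 * E ^ 3 := by rw [← mul_pow, one_mul]; exact h1
      _ ≤ _ := by gcongr; exact aux1 hZ0 hRε
  have hAK : A ≤ K1 := by
    obtain ⟨p, hp⟩ := hXne
    exact (hbr p hp).trans ((card_filter_le _ _).trans (card_range _).le)
  have hE0 : 0 < E := by
    refine lt_of_le_of_ne hE fun h0 => ?_
    obtain ⟨p, hp⟩ := hXne
    obtain ⟨i, hi⟩ := card_pos.1 (hA1.trans (hbr p hp))
    obtain ⟨hi1, hi2⟩ := mem_filter.1 hi
    have h1 : en M R (F i) ≤ E ^ 2 :=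
      (single_le_sum (fun j _ => en_nonneg (by linarith) (F j)) hi1).trans hen
    have h2 : 0 < M.L ^ 2 * M.Q / R := by have := M.hL; have := M.hQ; positivity
    rw [← h0, en] at h1
    exact aux8 h2 h1 (Nat.cast_nonneg _) hlam hi2 (norm_ev_sq_le M (F i) p)
  obtain ⟨X', hX'X, ls, t, hX'ne, hls1, hls2, ht0, ht1, hU, hfr, hcase⟩ :=
    hprep D R X (by have : (2 : ℝ) ≤ D := by linarith
                    exact_mod_cast this) (by linarith) hbox hXne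
  set W : ℝ := x ^ ls with hW
  have hW1 : 1 ≤ W := one_le_pow₀ (by linarith)
  have hW0 : 0 < W := by linarith
  have hxW : x ≤ W ^ e := by
    rw [hW, ← Real.rpow_natCast, ← Real.rpow_mul (by linarith)]
    nth_rewrite 1 [← Real.rpow_one x]
    refine Real.rpow_le_rpow_of_exponent_le (by linarith) ?_
    have h1 : (⌈1 / e⌉₊ : ℝ) ≤ ls := by exact_mod_cast (by omega : ⌈1 / e⌉₊ ≤ ls)
    have h2 := (Nat.le_ceil (1 / e)).trans h1
    rwa [div_le_iff₀ he0] at h2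
  have heε : e ≤ ε := (aux5 hε hε1).1
  have hGW : G ≤ W ^ ε := hD1.trans (hxW.trans (Real.rpow_le_rpow_of_exponent_le hW1 heε))
  have hxWR : (x * W) ^ 2 ≤ R := by
    refine le_trans ?_ hD2
    rw [hW, ← pow_succ', ← pow_mul]
    exact pow_le_pow_right₀ (by linarith) (by omega)
  have hW2R : W ^ 2 ≤ R := le_trans (pow_le_pow_left₀ hW0.le
    (le_mul_of_one_le_left hW0.le (by linarith)) 2) hxWR
  have hWR : W ≤ R := (le_self_pow₀ hW1 two_ne_zero).trans hW2R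
  set g : Geo := ⟨K1, D, ls, H, R⟩ with hg
  have hok : g.Ok M := by
    refine ⟨hK1, ?_, by change 1 ≤ ls; omega, hRone, ?_, hRH, hl1, hl2, hq1, hq2⟩
    · have : 100 * (K1 : ℝ) ≤ D := aux3 hK1sq hD1 hx4
      exact_mod_cast this
    · change x * √R ≤ R / W
      rw [le_div_iff₀ hW0]
      exact aux4 (by linarith) hxWR
  have hUx : ((Nat.log 2 #X + 1 : ℕ) : ℝ) ^ (m + 1) ≤ x := by
    refine le_trans ?_ (hNp (m + 1) (by omega))
    have h1 : #X ≤ 2 ^ (Y + 3) := by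
      have : (#X : ℝ) ≤ 2 ^ (Y + 3) := by rw [pow_add]; linarith
      exact_mod_cast this
    have h2 : Nat.log 2 #X ≤ Y + 3 := by
      simpa [Nat.log_pow] using Nat.log_mono_right (b := 2) h1
    gcongr
    exact_mod_cast (by omega : Nat.log 2 #X + 1 ≤ 100 * Y)
  set U : ℝ := ((Nat.log 2 #X + 1 : ℕ) : ℝ) ^ (m + 1) with hUdef
  have hU0 : 0 ≤ U := by positivity
  suffices h : U * (#X' * lam ^ 3) ≤ Z0 * R ^ ε * E ^ 3 by
    refine le_trans ?_ h
    rw [← mul_assoc]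
    refine mul_le_mul_of_nonneg_right ?_ (by positivity)
    rw [hUdef]
    exact_mod_cast hU
  have hbox' : ∀ p ∈ X', InBox R p := fun p hp => hbox p (hX'X hp)
  have hkt' := hkt.subset hX'X
  set th : ℝ := W ^ (t / 3 - ε / 2) with hth
  have hth0 : 0 < th := by positivity
  have hts : t / 3 ≤ min t (2 - t) := le_min (by linarith) (by linarith)
  obtain ⟨Sel, hSel⟩ := hStage D ls (Y + 2) (min t (2 - t)) th (W / th)
    (by have : (2 : ℝ) ≤ D := by linarith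
        exact_mod_cast this) (by omega) (by linarith) hth0
    (Real.rpow_le_rpow_of_exponent_le hW1 (by linarith)) (by positivity) (by
      have h1 : W ^ (-1 : ℝ) ≤ th := Real.rpow_le_rpow_of_exponent_le hW1 (by linarith)
      rw [Real.rpow_neg_one] at h1
      have h2 : W / th ≤ W ^ 2 := by
        rw [div_le_iff₀ hth0]
        calc W = W ^ 2 * W⁻¹ := by field_simp
          _ ≤ _ := by gcongr
      rw [show Y + 2 - 1 = Y + 1 by omega, pow_succ]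
      linarith)
  have hk200 : 200 ≤ ζ * k := by
    have := Nat.le_ceil (200 / ζ)
    rw [div_le_iff₀' hζ0] at this
    rw [hk]; push_cast; linarith
  have htail : (2 * k / D : ℝ) ^ (2 * k) ≤ 1 / H ^ 200 := tail_le hH1 hk200 hD1 (by linarith)
  obtain ⟨s0, T, pk, Ec, hsys, herr⟩ := hWP g M F E k Y hok hE0 (by omega) htail hY1 hsupp hen
  have hYH : (Y : ℝ) ≤ H := by
    have := hNp 1 (by omega)
    have h2 : x ≤ W := hok.D_le_pow
    linarith
  have hPiH : (Pi : ℝ) ≤ H := by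
    have h2 : x ≤ W := hok.D_le_pow
    linarith
  have hΓ1 : 1 ≤ 8 * x ^ 2 * W ^ e := by
    exact aux1 (aux1 (by norm_num) (one_le_pow₀ (by linarith))) (Real.one_le_rpow hW1 he0.le)
  have tri := fun Λ cl S h => hTri g M F X' A Y (Y + 2) lam E th (min t (2 - t)) s0 (W / th) Λ Sel T
    pk Ec cl S hok hY1 hYH (by omega) hE0 hlE hA1 hth0 hSel (div_mul_cancel₀ W hth0.ne').ge hsys h
    herr hbox' hX'ne fun p hp => hbr p (hX'X hp)
  have heavy : ∀ c' < 40 * Y, ∀ h n amp Fl,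
      Heavy g M X' A Pi lam th (min t (2 - t)) (T c') pk h n amp Fl →
      U * (#X' * lam ^ 3) ≤ Z0 * R ^ ε * E ^ 3 := by
    intro c' hc' h n amp Fl hv
    have hh : h < ls := hv.1
    have hn1 : (1 : ℝ) ≤ n := by exact_mod_cast hv.2.1
    have hy0 : 0 < x ^ h := by positivity
    have hσ : 1 / W * x ^ h ≤ W ^ (-(ε / 2)) := by
      refine sigma_le hW1 hy0 (pow_le_pow_right₀ (by linarith) hh.le) ht0 ht1 ?_
      exact (le_mul_of_one_le_left (by positivity) hn1).trans hv.2.2.2.2.2.2.2.1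
    have key := hstepC C0 e e2 c ε g M X' A A0 Pi Y h n lam E (Ec c') th t s0 _ amp Z0 (H ^ ε) G
      (T c') pk Fl hff hC0 he0 (aux5 hε hε1).2 he2 hc0 hc1 hok hX'ne hbox' hkt' hlam hE
      ht0 ht1 (by
        change th ≤ (1 / W) ^ (-t / 3)
        rw [inv_rpow' hW0]
        exact Real.rpow_le_rpow_of_exponent_le hW1 (by linarith))
      hΓ1 hPi1 (hA'1.trans hA'0) hAK hY1 hfr (hsys c' hc') hv (by
        refine le_trans ?_ hAR
        exact mul_le_mul_of_nonneg_right (aux6 hPiY hY1').1 (by linarith))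
      (hK1sq.trans hGε) (by linarith) hA0 (fun R' h1 h2 => by
        refine (hco R' h1 (h2.trans ?_)).mono hA'0 le_rfl
        change R * (1 / W * x ^ h) ^ 2 ≤ R / G
        rw [div_eq_mul_inv R]
        gcongr
        calc (1 / W * x ^ h) ^ 2 ≤ (W ^ (-(ε / 2))) ^ 2 := by gcongr
          _ = (W ^ ε)⁻¹ := by
            rw [← Real.rpow_natCast, ← Real.rpow_mul hW0.le, ← Real.rpow_neg hW0.le]
            congr 1; push_cast; ring
          _ ≤ G⁻¹ := by gcongr) hlow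
    refine numC (P := (Pi : ℝ) ^ 12 * (Y : ℝ) ^ 8) (C := CC) (G := G) (by linarith) hW1 hxW he hε
      hUx (by linarith) ?_ hD1 hU0 (by linarith) (by positivity) (by positivity) (by linarith) hqK
      hq0 (by positivity) hσ (by positivity) (key.trans (le_of_eq ?_))
    · refine le_trans ?_ (hNp 80 (by omega))
      rw [hPiR, ← pow_mul, show 80 = 6 * 12 + 8 by norm_num, pow_add]
      gcongr; linarith
    · change CC * (Pi : ℝ) ^ 12 * (Y : ℝ) ^ 8 * (K1 : ℝ) ^ 9 * (8 * x ^ 2 * W ^ e) * x * G ^ 6 *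
        (Z0 * R ^ ε * (1 / W * x ^ h) ^ ε * E ^ 3) ^ 2 = _
      ring
  have light : ∀ c' < 40 * Y, ∀ Λ cl S j n Pr, 1 ≤ Λ → Λ ≤ x ^ 5 → NearFar g M Λ s0 (T c') cl S →
      Light g M X' A Pi lam th (min t (2 - t)) (T c') pk cl (fun ν i => Sel j ls 0 (S ν i)) n Pr →
      n * Ec c' ≤ x ^ 12 * W ^ (2 * e + ε / 4 - 2 * t / 3) * E ^ 2 := by
    intro c' hc' Λ cl S j n Pr h1 h2 hnf hl
    have key := hLN C0 e e2 c g M X' A Pi n lam E (Ec c') th t s0 _ Λ (T c') pk cl S _ Pr hff he2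
      hc0 hok hX'ne hbox' ht0 ht1 hth0 (by linarith) h1 hPi1 hfr (hsys c' hc') hnf
      (fun ν i => ((hSel.1 j).subset _ _ _).trans (filter_subset _ _)) hl (by
        refine le_trans ?_ hAR
        exact mul_le_mul_of_nonneg_right (aux6 hPiY hY1').2 (by linarith))
    exact nEc_bound (by linarith) hW1 hPix (by positivity) hqx h2 (by linarith)
      (mul_nonneg (by positivity) (hsys c' hc').pos.le) key
  rcases hcase with hcase | ⟨ht, hlm⟩
  · obtain ⟨hb1, hb2⟩ := hstepB g M hok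
    have : ∀ c', ∃ S, c' < 40 * Y → NearFar g M (2 * g.D) s0 (T c') (cube g.ρ) S := fun c' => by
      by_cases h : c' < 40 * Y
      · obtain ⟨S, hS⟩ := hb1 E _ s0 _ pk (hsys c' h)
        exact ⟨S, fun _ => hS⟩
      · exact ⟨fun _ _ => ∅, fun h' => absurd h' h⟩
    choose S hS using this
    obtain ⟨c', hc', ⟨j, n, Pr, hl⟩ | ⟨h, n, amp, Fl, hv⟩⟩ := tri _ _ S hS
    · have h1 := light c' hc' _ _ _ j n Pr (by change 1 ≤ 2 * x; linarith) (by
        change 2 * x ≤ _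
        calc 2 * x ≤ x ^ 2 := (aux7 hx4).1
          _ ≤ _ := pow_le_pow_right₀ (by linarith) (by norm_num)) (hS c' hc') hl
      have h2 : G ≤ W := hD1.trans hok.D_le_pow
      have key := hb2 X' A A' Pi n lam E (Ec c') th _ s0 (W ^ t) (Z0 * (R / W) ^ ε)
        (x ^ 8 * W ^ (e + ε / 8 - t / 3) * E) (T c') pk _ Pr hbox' hkt' hE0 hlE hPi1 hPiH hA1 hAA'
        (hsys c' hc') hl hcase (by positivity)
        (hco _ (by linarith [hok.ρ_ge]) (by change R / W ≤ R / G; gcongr)) (by positivity) (by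
          have h3 : (W ^ (e + ε / 8 - t / 3)) ^ 2 = W ^ (2 * e + ε / 4 - 2 * t / 3) := by
            rw [← Real.rpow_natCast, ← Real.rpow_mul hW0.le]; congr 1; push_cast; ring
          have h4 : (K1 : ℝ) ≤ x ^ 2 := by linarith [aux3 hK1sq hD1 hx4, (aux7 hx4).2]
          calc (K1 : ℝ) * x ^ 2 * n * Ec c' = K1 * x ^ 2 * (n * Ec c') := by ring
            _ ≤ x ^ 2 * x ^ 2 * (x ^ 12 * W ^ (2 * e + ε / 4 - 2 * t / 3) * E ^ 2) := by
                have := (hsys c' hc').pos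
                gcongr
            _ = _ := by rw [← h3]; ring)
      exact numB (by linarith) hW1 hxW he hε hε1 hUx (by linarith) hPix hU0 (by linarith)
        (by positivity) (by linarith) (by linarith) hE key
    · exact heavy c' hc' h n amp Fl hv
  · have hBx : BA ls ≤ x := (hBAm hls2).trans (by linarith)
    obtain ⟨cl, Sf, ha⟩ := hstepA g M k hok (by omega) htail (by
      change BA ls * x ^ 5 ≤ H
      calc BA ls * x ^ 5 ≤ x * x ^ 5 := by gcongr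
        _ = x ^ 6 := by ring
        _ ≤ x ^ (2 * m + 2) := pow_le_pow_right₀ (by linarith) (by omega)
        _ ≤ H := hD2.trans hRH)
    obtain ⟨c', hc', ⟨j, n, Pr, hl⟩ | ⟨h, n, amp, Fl, hv⟩⟩ :=
      tri _ cl (fun c' => Sf s0 (T c')) fun c' hc' => (ha E _ s0 _ pk hE0 (hsys c' hc')).1
    · obtain ⟨ha1, ha2⟩ := ha E _ s0 _ pk hE0 (hsys c' hc')
      have h0 : (1 : ℝ) ≤ x ^ 4 := one_le_pow₀ (by linarith)
      have h1 := light c' hc' _ _ _ j n Pr (by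
        exact aux1 (hBA1 ls) h0) (by
        change BA ls * x ^ 4 ≤ _
        calc BA ls * x ^ 4 ≤ x * x ^ 4 := by gcongr
          _ = _ := by ring) ha1 hl
      have hxe : 1 ≤ x ^ e := Real.one_le_rpow (by linarith) he0.le
      have key := ha2 X' A Pi n lam th _ (Cd * x ^ e) (Sel j) Pr hbox' hkt' hlam (aux1 hCd hxe)
        (hdec D (by have : (1 : ℝ) ≤ D := by linarith
                    exact_mod_cast this)) (hSel.1 j) hl
      rw [ht] at h1
      refine numA (N := #Pr) (Dd := (Cd * x ^ e) ^ ls) (by linarith) hW1 hxW he hε hε1 hUx hBx hPix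
        ?_ hU0 (by linarith [hBA1 ls]) (by positivity) (by positivity) hZ0 hRone hRH hWR hE
        (by positivity) (hkt'.card_le hRone hbox') ?_ hlam.le ?_
        (mul_nonneg (by positivity) (hsys c' hc').pos.le) h1 key
      · rw [mul_pow, ← Real.rpow_natCast (x ^ e), ← Real.rpow_mul (by linarith), mul_comm e,
          Real.rpow_mul (by linarith), Real.rpow_natCast, ← hW]
        refine mul_le_mul_of_nonneg_right ?_ (by positivity)
        rw [hlm]; linarith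
      · have h2 : #X' ≤ Pi * #Pr := (Nat.le_mul_of_pos_right _ hA1).trans hl.2.2.2.1
        exact_mod_cast h2
      · calc R ^ 2 ≤ ((2 * x) ^ (2 * m + 2)) ^ 2 := by gcongr
          _ = 2 ^ (4 * m + 4) * (x ^ 4 * (x ^ m) ^ 4) := by ring
          _ ≤ x * (x ^ 4 * (x ^ m) ^ 4) := by gcongr; linarith
          _ = _ := by rw [hW, hlm]; ring
    · exact heavy c' hc' h n amp Fl hv

end Pool.Agent.Lib.MP_108739_an.HA
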