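import Pool.Agent.Lib.MP_108739_an.HA.Geo
import Pool.Agent.Lib.MP_108739_an.HA.ADefs

/-! The localising multiplier of a box. -/

namespace Pool.Agent.Lib.MP_108739_an.HA

open Finset

noncomputable section

namespace SA

variable {g : Geo} {M : Mo}

theorem vv_two_k (hg : g.Ok M) {k : ℕ} (hk : (2 * k / g.D : ℝ) ^ (2 * k) ≤ 1 / g.H ^ 200) :
    (2 * k : ℝ) ≤ g.D := by
  have hD := hg.D_ge
  have hH := hg.H_ge
  by_contra hh
  push Not at hh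
  have h1 : (1 : ℝ) ≤ 2 * k / g.D := by rw [le_div_iff₀ (by linarith)]; linarith
  have h2 : (1 : ℝ) ≤ (2 * k / g.D : ℝ) ^ (2 * k) := one_le_pow₀ h1
  have h3 : (1 : ℝ) < g.H ^ 200 := one_lt_pow₀ (by linarith) (by norm_num)
  have h4 : 1 / g.H ^ 200 < 1 := by rw [div_lt_one (by linarith)]; exact h3
  linarith

theorem vv_tail (hg : g.Ok M) {k : ℕ} (hk : (2 * k / g.D : ℝ) ^ (2 * k) ≤ 1 / g.H ^ 200)
    {P w W : ℝ} (hP0 : 0 ≤ P) (hP : P ≤ g.H ^ 10) (hw : 1 ≤ w) (hW : W = g.D * w) :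
    (2 * P / w + 1) * (2 * k * w / W) ^ (2 * k) ≤ 1 / g.H ^ 180 := by
  have hD := hg.D_ge
  have hH := hg.H_ge
  have hH0 : 0 < g.H := by linarith
  have e : 2 * k * w / W = 2 * k / g.D := by
    rw [hW]; field_simp
  have h1 : 2 * P / w ≤ 2 * g.H ^ 10 := by
    rw [div_le_iff₀ (by linarith)]
    nlinarith [pow_nonneg hH0.le 10]
  have h2 : (3 : ℝ) ≤ g.H ^ 10 := le_trans (by linarith) (le_self_pow₀ (by linarith) (by norm_num))
  have h3 : 2 * P / w + 1 ≤ g.H ^ 20 := by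
    have : g.H ^ 20 = g.H ^ 10 * g.H ^ 10 := by ring
    nlinarith
  rw [e]
  calc (2 * P / w + 1) * (2 * k / g.D : ℝ) ^ (2 * k) ≤ g.H ^ 20 * (1 / g.H ^ 200) :=
        mul_le_mul h3 hk (by positivity) (by positivity)
    _ = 1 / g.H ^ 180 := by field_simp

theorem vv_quarter (hg : g.Ok M) : 1 / g.H ^ 180 ≤ 1 / 4 := by
  have hH := hg.H_ge
  exact one_div_le_one_div_of_le (by norm_num)
    (le_trans (by linarith) (le_self_pow₀ (by linarith) (by norm_num)))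

theorem vv_sg_pos (hg : g.Ok M) (h : ℕ) : 0 < sg g h := by
  have := hg.D_ge
  have := hg.δ_pos
  unfold sg; positivity

theorem vv_sg_ge (hg : g.Ok M) (h : ℕ) : g.δ ≤ sg g h := by
  have h1 : (1 : ℝ) ≤ (g.D : ℝ) ^ h := one_le_pow₀ (by linarith [hg.D_ge])
  unfold sg
  nlinarith [hg.δ_pos]

theorem vv_sg_le (hg : g.Ok M) {h : ℕ} (hh : h ≤ g.ls) : sg g h ≤ 1 := by
  have h1 : (g.D : ℝ) ^ h ≤ (g.D : ℝ) ^ g.ls := pow_le_pow_right₀ (by linarith [hg.D_ge]) hh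
  rw [← hg.δ_mul]
  exact mul_le_mul_of_nonneg_left h1 hg.δ_pos.le

theorem vv_sg_ge' (hg : g.Ok M) {h : ℕ} (hh : 1 ≤ h) : g.δ * g.D ≤ sg g h := by
  have h1 : (g.D : ℝ) ≤ (g.D : ℝ) ^ h := le_self_pow₀ (by linarith [hg.D_ge]) (by omega)
  exact mul_le_mul_of_nonneg_left h1 hg.δ_pos.le

theorem vv_ρσ_le (hg : g.Ok M) (h : ℕ) : g.ρ / sg g h ≤ g.R := by
  rw [div_le_iff₀ (vv_sg_pos hg h), Geo.Ok.ρ_eq]
  nlinarith [vv_sg_ge hg h, hg.R_pos]

theorem vv_ρσ_ge (hg : g.Ok M) {h : ℕ} (hh : h ≤ g.ls) : 1 ≤ g.ρ / sg g h := by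
  rw [le_div_iff₀ (vv_sg_pos hg h)]
  linarith [vv_sg_le hg hh, hg.ρ_ge]

theorem vv_box (hg : g.Ok M) (hH : 100 * 9 ^ g.ls * (g.D : ℝ) ^ 5 ≤ g.H) (h : ℕ) :
    g.R + (2 * rad g h + 1) * (Wd g / sg g h) ≤ M.L / 48 := by
  have hD := hg.D_ge
  have hR := hg.R_pos
  have h1 : rad g h ≤ 9 ^ g.ls := pow_le_pow_right₀ (by norm_num) (Nat.sub_le _ _)
  have h0 : (1 : ℝ) ≤ rad g h := one_le_pow₀ (by norm_num)
  have h2 : Wd g / sg g h ≤ g.D * g.R := by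
    unfold Wd
    rw [mul_div_assoc]
    exact mul_le_mul_of_nonneg_left (vv_ρσ_le hg h) (by linarith)
  have h3 : (2 * rad g h + 1) * (Wd g / sg g h) ≤ 3 * 9 ^ g.ls * (g.D * g.R) := by
    refine mul_le_mul (by linarith) h2 ?_ (by positivity)
    have := vv_sg_pos hg h
    have := hg.ρ_pos
    unfold Wd; positivity
  have h4 : (200 : ℝ) ^ 4 ≤ (g.D : ℝ) ^ 4 := pow_le_pow_left₀ (by norm_num) hD 4
  have h5 : (1 : ℝ) ≤ 9 ^ g.ls * g.D := by nlinarith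
  have h6 : 192 * (9 ^ g.ls * (g.D : ℝ)) ≤ g.H := by
    have e : 100 * 9 ^ g.ls * (g.D : ℝ) ^ 5 = 100 * (g.D : ℝ) ^ 4 * (9 ^ g.ls * g.D) := by ring
    rw [e] at hH
    refine le_trans (mul_le_mul_of_nonneg_right ?_ (by linarith)) hH
    linarith
  have h7 := mul_le_mul_of_nonneg_left h6 hR.le
  have h8 := mul_le_mul_of_nonneg_left h5 hR.le
  have h9 := hg.l1
  nlinarith

theorem vv_width (hg : g.Ok M) {h : ℕ} (hh : 1 ≤ h) :
    8 / g.R + 1 / (g.ρ / sg g h) + 1 / g.ρ * (5 * sg g h) + 2 * (1 / g.ρ) ^ 2 ≤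
      (sg g h / g.D) ^ 2 := by
  have hD := hg.D_ge
  have hδ := hg.δ_pos
  have hρ := hg.ρ_pos
  have hR := hg.R_pos
  have hσ := vv_sg_pos hg h
  have h1 := vv_sg_ge' hg hh
  have h2 : g.δ ≤ sg g h / g.D := by rw [le_div_iff₀ (by linarith)]; exact h1
  have h3 : g.δ ^ 2 ≤ (sg g h / g.D) ^ 2 := pow_le_pow_left₀ hδ.le h2 2
  have h4 : (1 / g.ρ) ^ 2 ≤ (g.δ / 200) ^ 2 := pow_le_pow_left₀ (by positivity) hg.inv_ρ_le 2
  have h5 := hg.one_le_δρ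
  have h6 : 8 / g.R ≤ g.δ ^ 2 / 4 := by
    rw [div_le_iff₀ hR]
    have e : g.δ ^ 2 / 4 * g.R = g.δ * g.ρ / 4 := by rw [Geo.Ok.ρ_eq]; ring
    rw [e]; nlinarith
  have h7 : 6 * (sg g h / g.ρ) ≤ (sg g h / g.D) ^ 2 / 2 := by
    have e : (sg g h / g.D) ^ 2 / 2 = (sg g h * g.ρ / (2 * (g.D : ℝ) ^ 2)) * (sg g h / g.ρ) := by
      field_simp
    rw [e]
    refine mul_le_mul_of_nonneg_right ?_ (by positivity)
    rw [le_div_iff₀ (by positivity)]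
    have h8 : g.δ * g.D * g.ρ ≤ sg g h * g.ρ := mul_le_mul_of_nonneg_right h1 hρ.le
    have h9 : (g.D : ℝ) ^ 2 * g.D ≤ g.δ * g.ρ * g.D := mul_le_mul_of_nonneg_right h5 (by linarith)
    nlinarith [sq_nonneg (g.D : ℝ)]
  have e1 : 1 / (g.ρ / sg g h) = sg g h / g.ρ := by field_simp
  have e2 : 1 / g.ρ * (5 * sg g h) = 5 * (sg g h / g.ρ) := by ring
  rw [e1, e2]
  nlinarith

theorem vv_slope (hg : g.Ok M) (h a : ℕ) {ξ : ℝ} (h1 : a * sg g h - 1 / g.ρ ≤ ξ)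
    (h2 : ξ ≤ (a + 1) * sg g h + 1 / g.ρ) : |M.ψ ξ - sc g M h a| ≤ 5 * sg g h := by
  have h3 := cs_near M g.δ ((a * g.D ^ h : ℕ) : ℤ) ξ
  have e : ((((a * g.D ^ h : ℕ) : ℤ) : ℝ) - 1 / 2) * g.δ = a * sg g h - g.δ / 2 := by
    unfold sg; push_cast; ring
  rw [e] at h3
  have hδ := hg.δ_pos
  have h4 := vv_sg_ge hg h
  have h5 := hg.inv_ρ_le
  have h6 : |ξ - (a * sg g h - g.δ / 2)| ≤ 2 * sg g h := by
    rw [abs_le]; constructor <;> linarith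
  have hR := hg.R_pos
  have h7 := hg.inv_R_le
  have h8 : 2 / M.L ≤ 1 / g.R / 2 := by
    rw [div_div, div_le_div_iff₀ M.hL (by positivity)]
    linarith [hg.L_ge]
  have h9 : 1 / (2 * M.Q) ≤ 1 / g.R / 2 := by
    rw [div_div]
    exact one_div_le_one_div_of_le (by positivity) (by linarith [hg.Q_ge])
  unfold sc
  linarith

theorem vv (hB : BumpStmt) (hG : GeoStmt) : VStmt := by
  intro g M k hg hk htail hH h a μ hgood
  obtain ⟨-, -, hμ⟩ := (hG g M hg).2.2.2.2.2 h a μ hH hgood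
  obtain ⟨hh, ha, p, hp, hpn⟩ := hgood
  have hD := hg.D_ge
  have hρ := hg.ρ_pos
  have hR := hg.R_pos
  have hσ := vv_sg_pos hg h
  have hL := M.hL
  have hQ1 : 1 ≤ M.Q := by linarith [hg.Q_ge, hg.hR]
  have hLQ : M.L ≤ M.L * M.Q := by nlinarith
  have h2k := vv_two_k hg htail
  have hW : 0 < Wd g := by unfold Wd; positivity
  have hrad : 0 < rad g h := by unfold rad; positivity
  have hbox := vv_box hg hH h
  have hDR : g.D * g.R ≤ M.L := by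
    have h1 : (g.D : ℝ) ≤ g.H := hg.D_le_pow.trans hg.pow_le_H
    nlinarith [hg.l1]
  have hp2 : |p.2| ≤ g.R := by rw [abs_of_nonneg hp.2.2.1]; exact hp.2.2.2.le
  have hy2 : |μ.2 * (Wd g / sg g h)| ≤ g.R + rad g h * (Wd g / sg g h) := by
    have h1 := abs_sub_abs_le_abs_sub (μ.2 * (Wd g / sg g h)) p.2
    rw [abs_sub_comm] at h1
    linarith [hpn.2]
  have hc : |sc g M h a| ≤ 6 := by
    refine hg.cs_leaf ?_
    calc a * g.D ^ h < g.D ^ (g.ls - h) * g.D ^ h :=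
          Nat.mul_lt_mul_of_pos_right ha (pow_pos (by have := hg.hD; have := hg.hK; omega) _)
      _ = g.D ^ g.ls := by rw [← pow_add, Nat.sub_add_cancel hh]
  have hH5 : g.H ^ 5 ≤ g.H ^ 10 := pow_le_pow_right₀ (by linarith [hg.H_ge]) (by norm_num)
  have t1 := vv_tail hg htail (P := M.L) (w := g.ρ) (W := Wd g) hL.le (hg.l2.trans hH5)
    (by linarith [hg.ρ_ge]) rfl
  have t2 := vv_tail hg htail (P := M.L * M.Q) (w := g.ρ / sg g h) (W := Wd g / sg g h)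
    (by linarith) (by
      have := mul_le_mul hg.l2 hg.q2 M.hQ.le (hL.le.trans hg.l2)
      linarith [show g.H ^ 5 * g.H ^ 5 = g.H ^ 10 by ring])
    (vv_ρσ_ge hg hh) (by unfold Wd; ring)
  have hq := vv_quarter hg
  obtain ⟨A, a1, a2, a3, a4⟩ := hB k M.L g.ρ (Wd g) (μ.1 * Wd g) (rad g h * Wd g) hk hρ
    (by
      have h1 : g.ρ ≤ g.R := by nlinarith [hg.D_mul_ρ_le]
      nlinarith) hW (by positivity) (by linarith)
  obtain ⟨B, b1, b2, b3, b4⟩ := hB k (M.L * M.Q) (g.ρ / sg g h) (Wd g / sg g h)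
    (μ.2 * (Wd g / sg g h)) (rad g h * (Wd g / sg g h)) hk (by positivity)
    (by
      have h1 := vv_ρσ_le hg h
      have h2 : 0 < g.ρ / sg g h := by positivity
      nlinarith) (by positivity) (by positivity) (by linarith)
  have hev : ∀ z : ℝ × ℝ, ‖ev M (tilt (sl M g.δ ((a * g.D ^ h : ℕ) : ℤ)) A * vert B) z‖ =
      ‖ev1 M.L A (z.1 + sc g M h a * z.2)‖ * ‖ev1 (M.L * M.Q) B z.2‖ := by
    intro z
    rw [ev_mul, ev_tilt, ev_vert, norm_mul]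
    rfl
  refine ⟨tilt (sl M g.δ ((a * g.D ^ h : ℕ) : ℤ)) A * vert B, ?_, ?_, ?_, ?_⟩
  · intro z
    rw [hev]
    exact mul_le_one₀ (a2 _) (norm_nonneg _) (b2 _)
  · intro z hz
    rw [hev]
    have h1 : 3 / 4 ≤ ‖ev1 M.L A (z.1 + sc g M h a * z.2)‖ := by linarith [a3 _ hz.1]
    have h2 : 3 / 4 ≤ ‖ev1 (M.L * M.Q) B z.2‖ := by linarith [b3 _ hz.2]
    nlinarith
  · intro z hz1 hz2 hz
    rw [hev]
    by_cases h2 : |z.2 - μ.2 * (Wd g / sg g h)| ≤ (rad g h + 1) * (Wd g / sg g h)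
    · have h1 : (rad g h + 1) * Wd g < |z.1 + sc g M h a * z.2 - μ.1 * Wd g| := by
        by_contra hh1
        exact hz ⟨not_lt.1 hh1, h2⟩
      have h3 : |z.2| ≤ M.L / 48 := by
        have := abs_sub_abs_le_abs_sub z.2 (μ.2 * (Wd g / sg g h))
        linarith
      have h4 : |sc g M h a * z.2| ≤ 6 * (M.L / 48) := by
        rw [abs_mul]
        exact mul_le_mul hc h3 (abs_nonneg _) (by norm_num)
      have h5 := abs_add_le z.1 (sc g M h a * z.2)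
      have h6 := a4 (z.1 + sc g M h a * z.2) (by linarith) (by linarith)
      exact (mul_le_of_le_one_right (norm_nonneg _) (b2 _)).trans (h6.trans t1)
    · have h6 := b4 z.2 (by linarith) (by linarith [not_le.1 h2])
      exact (mul_le_of_le_one_left (norm_nonneg _) (a2 _)).trans (h6.trans t2)
  · intro h1 F α β hα hβ hF
    rw [mul_assoc]
    refine ((hF.vert_mul b1).tilt_mul _ a1 (v := 5 * sg g h) fun ξ x1 x2 => ?_).mono le_rfl le_rfl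
      (vv_width hg h1)
    exact vv_slope hg h a (hα.trans x1) (x2.trans hβ)

end SA

end

end Pool.Agent.Lib.MP_108739_an.HA
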