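import Pool.Agent.Lib.MP_108739_an.HA.Defs

/-! Basic calculus of the lattice model. -/

namespace Pool.Agent.Lib.MP_108739_an.HA

open Finset
open scoped Real

noncomputable section

theorem ex_zero : ex 0 = 1 := by simp [ex]

theorem ex_add (x y : ℝ) : ex (x + y) = ex x * ex y := by
  simp only [ex]; rw [← Complex.exp_add]; push_cast; ring_nf

theorem norm_ex (x : ℝ) : ‖ex x‖ = 1 := by
  have : ex x = Complex.exp (((2 * π * x : ℝ) : ℂ) * Complex.I) := by
    simp only [ex]; push_cast; ring_nf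
  rw [this, Complex.norm_exp_ofReal_mul_I]

theorem ex_ne_zero (x : ℝ) : ex x ≠ 0 := Complex.exp_ne_zero _

theorem ex_int (n : ℤ) : ex n = 1 := by
  have := Complex.exp_int_mul_two_pi_mul_I n
  simp only [ex]; rw [← this]; push_cast; ring_nf

theorem conj_ex (x : ℝ) : (starRingEnd ℂ) (ex x) = ex (-x) := by
  simp only [ex]; rw [← Complex.exp_conj]; simp [Complex.conj_ofReal, map_ofNat]

theorem ex_nat_mul (n : ℕ) (x : ℝ) : ex (n * x) = ex x ^ n := by
  simp only [ex]; rw [← Complex.exp_nat_mul]; push_cast; ring_nf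

theorem continuous_ex : Continuous ex := by unfold ex; fun_prop

theorem norm_ex_sub_one_le (x : ℝ) : ‖ex x - 1‖ ≤ 2 * π * |x| := by
  have : ex x = Complex.exp (Complex.I * ((2 * π * x : ℝ) : ℂ)) := by
    simp only [ex]; push_cast; ring_nf
  rw [this]
  refine (Real.norm_exp_I_mul_ofReal_sub_one_le).trans (le_of_eq ?_)
  rw [Real.norm_eq_abs, abs_mul, abs_of_pos (by positivity : (0 : ℝ) < 2 * π)]

theorem norm_ex_sub_ex_le (x y : ℝ) : ‖ex x - ex y‖ ≤ 2 * π * |x - y| := by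
  have : ex x - ex y = ex y * (ex (x - y) - 1) := by rw [mul_sub, ← ex_add]; simp
  rw [this, norm_mul, norm_ex, one_mul]; exact norm_ex_sub_one_le _

theorem ex_eq_one_iff (x : ℝ) : ex x = 1 ↔ ∃ n : ℤ, x = n := by
  constructor
  · intro h
    obtain ⟨n, hn⟩ := Complex.exp_eq_one_iff.1 h
    refine ⟨n, ?_⟩
    have h2 : (2 * π * Complex.I : ℂ) ≠ 0 := Complex.two_pi_I_ne_zero
    have : (x : ℂ) = n := by
      apply mul_left_cancel₀ h2; rw [hn]; ring
    exact_mod_cast this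
  · rintro ⟨n, rfl⟩; exact ex_int n

/-- Orthogonality of characters of a cyclic group. -/
theorem sum_ex_range (N : ℕ) (m : ℤ) (hm : |m| < N) :
    ∑ a ∈ range N, ex (a * (m / N : ℝ)) = if m = 0 then (N : ℂ) else 0 := by
  split_ifs with h
  · simp [h, ex_zero]
  have hN : (0 : ℝ) < N := by
    have : (0 : ℤ) < N := (abs_nonneg m).trans_lt hm
    exact_mod_cast this
  have h1 : ex (m / N : ℝ) ≠ 1 := by
    rw [Ne, ex_eq_one_iff]
    rintro ⟨n, hn⟩
    have h2 : (m : ℝ) = n * N := by field_simp at hn; linarith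
    have h3 : m = n * N := by exact_mod_cast h2
    have hn0 : n ≠ 0 := by rintro rfl; simp at h3; exact h h3
    have : (1 : ℤ) ≤ |n| := Int.one_le_abs hn0
    rw [h3, abs_mul, abs_of_nonneg (by positivity : (0 : ℤ) ≤ N)] at hm
    nlinarith
  simp only [ex_nat_mul]
  rw [geom_sum_eq h1, ← ex_nat_mul, show (N : ℝ) * (m / N) = m by field_simp, ex_int]
  simp

/-! ### Evaluation -/

def chi (M : Mo) (z : ℝ × ℝ) : Multiplicative (ℤ × ℤ) →* ℂ where
  toFun k := ex (z.1 * (k.toAdd.1 / M.L) + z.2 * (k.toAdd.2 / (M.L * M.Q)))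
  map_one' := by simp [ex_zero]
  map_mul' a b := by
    rw [← ex_add]; congr 1
    simp only [toAdd_mul, Prod.fst_add, Prod.snd_add]; push_cast; ring

def evH (M : Mo) (z : ℝ × ℝ) : Arr →ₐ[ℂ] ℂ := AddMonoidAlgebra.lift ℂ ℂ (ℤ × ℤ) (chi M z)

theorem evH_apply (M : Mo) (z : ℝ × ℝ) (F : Arr) : evH M z F = ev M F z := by
  rw [evH, AddMonoidAlgebra.lift_apply]; rfl

def chi1 (P y : ℝ) : Multiplicative ℤ →* ℂ where
  toFun k := ex (y * (k.toAdd / P))
  map_one' := by simp [ex_zero]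
  map_mul' a b := by
    rw [← ex_add]; congr 1
    simp only [toAdd_mul]; push_cast; ring

def evH1 (P y : ℝ) : Arr1 →ₐ[ℂ] ℂ := AddMonoidAlgebra.lift ℂ ℂ ℤ (chi1 P y)

theorem evH1_apply (P y : ℝ) (A : Arr1) : evH1 P y A = ev1 P A y := by
  rw [evH1, AddMonoidAlgebra.lift_apply]; rfl

variable {M : Mo} {F G : Arr} {z : ℝ × ℝ} {P y : ℝ} {A B : Arr1}

theorem ev_zero : ev M 0 z = 0 := by rw [← evH_apply, map_zero]
theorem ev_one : ev M 1 z = 1 := by rw [← evH_apply, map_one]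
theorem ev_add : ev M (F + G) z = ev M F z + ev M G z := by simp only [← evH_apply, map_add]
theorem ev_sub : ev M (F - G) z = ev M F z - ev M G z := by simp only [← evH_apply, map_sub]
theorem ev_mul : ev M (F * G) z = ev M F z * ev M G z := by simp only [← evH_apply, map_mul]
theorem ev_pow (n : ℕ) : ev M (F ^ n) z = ev M F z ^ n := by simp only [← evH_apply, map_pow]
theorem ev_smul (c : ℂ) : ev M (c • F) z = c * ev M F z := by
  simp only [← evH_apply, map_smul, smul_eq_mul]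
theorem ev_sum {ι : Type*} (s : Finset ι) (f : ι → Arr) :
    ev M (∑ i ∈ s, f i) z = ∑ i ∈ s, ev M (f i) z := by simp only [← evH_apply, map_sum]
theorem ev_single (k : ℤ × ℤ) (c : ℂ) : ev M (.single k c) z =
    c * ex (z.1 * (k.1 / M.L) + z.2 * (k.2 / (M.L * M.Q))) := by
  rw [← evH_apply, evH, AddMonoidAlgebra.lift_single]; rfl

theorem ev1_zero : ev1 P 0 y = 0 := by rw [← evH1_apply, map_zero]
theorem ev1_one : ev1 P 1 y = 1 := by rw [← evH1_apply, map_one]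
theorem ev1_add : ev1 P (A + B) y = ev1 P A y + ev1 P B y := by simp only [← evH1_apply, map_add]
theorem ev1_mul : ev1 P (A * B) y = ev1 P A y * ev1 P B y := by simp only [← evH1_apply, map_mul]
theorem ev1_pow (n : ℕ) : ev1 P (A ^ n) y = ev1 P A y ^ n := by simp only [← evH1_apply, map_pow]
theorem ev1_smul (c : ℂ) : ev1 P (c • A) y = c * ev1 P A y := by
  simp only [← evH1_apply, map_smul, smul_eq_mul]
theorem ev1_sum {ι : Type*} (s : Finset ι) (f : ι → Arr1) :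
    ev1 P (∑ i ∈ s, f i) y = ∑ i ∈ s, ev1 P (f i) y := by simp only [← evH1_apply, map_sum]
theorem ev1_single (s : ℤ) (c : ℂ) : ev1 P (.single s c) y = c * ex (y * (s / P)) := by
  rw [← evH1_apply, evH1, AddMonoidAlgebra.lift_single]; rfl

theorem ev_eq_sum {s : Finset (ℤ × ℤ)} (h : F.coeff.support ⊆ s) : ev M F z =
    ∑ k ∈ s, F.coeff k * ex (z.1 * (k.1 / M.L) + z.2 * (k.2 / (M.L * M.Q))) :=
  sum_subset h fun k _ hk => by rw [Finsupp.notMem_support_iff.1 hk, zero_mul]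

theorem nrm_eq_sum {s : Finset (ℤ × ℤ)} (h : F.coeff.support ⊆ s) :
    nrm F = ∑ k ∈ s, ‖F.coeff k‖ ^ 2 :=
  sum_subset h fun k _ hk => by rw [Finsupp.notMem_support_iff.1 hk]; simp

theorem nrm1_eq_sum {s : Finset ℤ} (h : A.coeff.support ⊆ s) :
    nrm1 A = ∑ k ∈ s, ‖A.coeff k‖ ^ 2 :=
  sum_subset h fun k _ hk => by rw [Finsupp.notMem_support_iff.1 hk]; simp

theorem nrm_nonneg (F : Arr) : 0 ≤ nrm F := sum_nonneg fun _ _ => by positivity
theorem nrm1_nonneg (A : Arr1) : 0 ≤ nrm1 A := sum_nonneg fun _ _ => by positivity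
theorem nrm_zero : nrm 0 = 0 := by simp [nrm]
theorem en_zero (R : ℝ) : en M R 0 = 0 := by simp [en, nrm_zero]
theorem en_nonneg {R : ℝ} (hR : 0 ≤ R) (F : Arr) : 0 ≤ en M R F := by
  have := M.hQ; have := nrm_nonneg F; unfold en; positivity

theorem mem_support_mul {k : ℤ × ℤ} (hk : k ∈ (F * G).coeff.support) :
    ∃ a ∈ F.coeff.support, ∃ b ∈ G.coeff.support, a + b = k :=
  Finset.mem_add.1 (AddMonoidAlgebra.support_coeff_mul_subset F G hk)

theorem mem_support_mul1 {k : ℤ} (hk : k ∈ (A * B).coeff.support) :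
    ∃ a ∈ A.coeff.support, ∃ b ∈ B.coeff.support, a + b = k :=
  Finset.mem_add.1 (AddMonoidAlgebra.support_coeff_mul_subset A B hk)

theorem mem_support_sum {ι : Type*} {s : Finset ι} {f : ι → Arr} {k : ℤ × ℤ}
    (hk : k ∈ (∑ i ∈ s, f i).coeff.support) : ∃ i ∈ s, k ∈ (f i).coeff.support := by
  by_contra h
  push Not at h
  refine Finsupp.mem_support_iff.1 hk ?_
  rw [AddMonoidAlgebra.coeff_sum, Finsupp.finsetSum_apply]
  exact sum_eq_zero fun i hi => Finsupp.notMem_support_iff.1 (h i hi)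

theorem mem_support_sum1 {ι : Type*} {s : Finset ι} {f : ι → Arr1} {k : ℤ}
    (hk : k ∈ (∑ i ∈ s, f i).coeff.support) : ∃ i ∈ s, k ∈ (f i).coeff.support := by
  by_contra h
  push Not at h
  refine Finsupp.mem_support_iff.1 hk ?_
  rw [AddMonoidAlgebra.coeff_sum, Finsupp.finsetSum_apply]
  exact sum_eq_zero fun i hi => Finsupp.notMem_support_iff.1 (h i hi)

/-! ### Parseval on a grid and the transfer principle -/

def grid (M : Mo) (N : ℕ) (q : ℕ × ℕ) : ℝ × ℝ :=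
  (M.L * (q.1 / N - 1 / 2), M.L * M.Q * (q.2 / N - 1 / 2))

theorem parseval (M : Mo) (F : Arr) (N : ℕ)
    (h : ∀ k ∈ F.coeff.support, 2 * |k.1| < N ∧ 2 * |k.2| < N) :
    ∑ q ∈ range N ×ˢ range N, ‖ev M F (grid M N q)‖ ^ 2 = (N : ℝ) ^ 2 * nrm F := by
  have hL := M.hL.ne'
  have hQ := M.hQ.ne'
  have key : ∀ k ∈ F.coeff.support, ∀ k' ∈ F.coeff.support,
      ∑ q ∈ range N ×ˢ range N,
        ex ((grid M N q).1 * (k.1 / M.L) + (grid M N q).2 * (k.2 / (M.L * M.Q))) *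
        (starRingEnd ℂ) (ex ((grid M N q).1 * (k'.1 / M.L) + (grid M N q).2 * (k'.2 / (M.L * M.Q))))
      = if k = k' then (N : ℂ) ^ 2 else 0 := by
    intro k hk k' hk'
    have e : ∀ q : ℕ × ℕ,
        ex ((grid M N q).1 * (k.1 / M.L) + (grid M N q).2 * (k.2 / (M.L * M.Q))) *
        (starRingEnd ℂ) (ex ((grid M N q).1 * (k'.1 / M.L) + (grid M N q).2 * (k'.2 / (M.L * M.Q))))
        = ex (-((k.1 - k'.1) + (k.2 - k'.2)) / 2) * (ex (q.1 * ((k.1 - k'.1 : ℤ) / N : ℝ)) *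
          ex (q.2 * ((k.2 - k'.2 : ℤ) / N : ℝ))) := fun q => by
      rw [conj_ex, ← ex_add, ← ex_add, ← ex_add]
      congr 1
      simp only [grid]; push_cast; field_simp; ring
    simp only [e]
    rw [← mul_sum, sum_product]
    dsimp only
    rw [← sum_mul_sum, sum_ex_range, sum_ex_range]
    · by_cases hkk : k = k'
      · subst hkk; simp [ex_zero, sq]
      · rw [if_neg hkk]
        by_cases h1 : k.1 - k'.1 = 0
        · have h2 : ¬ k.2 - k'.2 = 0 := fun h2 => hkk (Prod.ext (by omega) (by omega))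
          simp [h2]
        · simp [h1]
    · have := (h k hk).2; have := (h k' hk').2
      have := abs_sub k.2 k'.2; omega
    · have := (h k hk).1; have := (h k' hk').1
      have := abs_sub k.1 k'.1; omega
  have : ((∑ q ∈ range N ×ˢ range N, ‖ev M F (grid M N q)‖ ^ 2 : ℝ) : ℂ) =
      (((N : ℝ) ^ 2 * nrm F : ℝ) : ℂ) := by
    push_cast
    simp only [← Complex.mul_conj', ev, map_sum, map_mul, sum_mul_sum]
    rw [sum_comm]
    simp only [nrm]
    push_cast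
    rw [mul_sum]
    refine sum_congr rfl fun k hk => ?_
    rw [sum_comm]
    have : ∀ k' ∈ F.coeff.support, ∑ q ∈ range N ×ˢ range N,
        F.coeff k * ex ((grid M N q).1 * (k.1 / M.L) + (grid M N q).2 * (k.2 / (M.L * M.Q))) *
        ((starRingEnd ℂ) (F.coeff k') * (starRingEnd ℂ)
          (ex ((grid M N q).1 * (k'.1 / M.L) + (grid M N q).2 * (k'.2 / (M.L * M.Q))))) =
        if k = k' then F.coeff k * (starRingEnd ℂ) (F.coeff k') * (N : ℂ) ^ 2 else 0 := by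
      intro k' hk'
      have := key k hk k' hk'
      rw [← mul_ite_zero, ← this, mul_sum]
      exact sum_congr rfl fun q _ => by ring
    rw [sum_congr rfl this, sum_ite_eq, if_pos hk, Complex.mul_conj']
    ring
  exact_mod_cast this

theorem grid_mem (M : Mo) {N : ℕ} {q : ℕ × ℕ} (hq : q ∈ range N ×ˢ range N) :
    |(grid M N q).1| ≤ M.L / 2 ∧ |(grid M N q).2| ≤ M.L * M.Q / 2 := by
  obtain ⟨h1, h2⟩ := mem_product.1 hq
  have aux : ∀ a : ℕ, a ∈ range N → |(a : ℝ) / N - 1 / 2| ≤ 1 / 2 := fun a ha => by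
    have h : (a : ℝ) < N := by exact_mod_cast mem_range.1 ha
    have h0 : (0 : ℝ) ≤ a := by positivity
    have : (a : ℝ) / N ≤ 1 := (div_le_one (h0.trans_lt h)).2 h.le
    have : 0 ≤ (a : ℝ) / N := by positivity
    rw [abs_le]; constructor <;> linarith
  have hL := M.hL
  have hLQ := mul_pos M.hL M.hQ
  simp only [grid, abs_mul, abs_of_pos M.hL, abs_of_pos M.hQ]
  constructor
  · nlinarith [aux _ h1]
  · nlinarith [aux _ h2]

theorem exists_grid {ι : Type*} (s : Finset ι) (F : ι → Arr) :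
    ∃ N0 : ℕ, ∀ N ≥ N0, ∀ i ∈ s, ∀ k ∈ (F i).coeff.support, 2 * |k.1| < N ∧ 2 * |k.2| < N := by
  classical
  obtain ⟨B, hB⟩ := ((s.biUnion fun i => (F i).coeff.support).image
    fun k : ℤ × ℤ => (2 * |k.1| + 2 * |k.2|).toNat).exists_le
  refine ⟨B + 1, fun N hN i hi k hk => ?_⟩
  have := hB _ (mem_image_of_mem _ (mem_biUnion.2 ⟨i, hi, hk⟩))
  have := abs_nonneg k.1
  have := abs_nonneg k.2
  omega

/-- A1: pointwise inequalities between sums of squares pass to the coefficient norms. -/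
theorem transfer (M : Mo) {ι κ : Type*} (s : Finset ι) (t : Finset κ) (F : ι → Arr) (G : κ → Arr)
    (c : κ → ℝ) (h : ∀ z : ℝ × ℝ, |z.1| ≤ M.L / 2 → |z.2| ≤ M.L * M.Q / 2 →
      ∑ i ∈ s, ‖ev M (F i) z‖ ^ 2 ≤ ∑ j ∈ t, c j * ‖ev M (G j) z‖ ^ 2) :
    ∑ i ∈ s, nrm (F i) ≤ ∑ j ∈ t, c j * nrm (G j) := by
  obtain ⟨N1, h1⟩ := exists_grid s F
  obtain ⟨N2, h2⟩ := exists_grid t G
  set N := N1 + N2 + 1
  have hN : (0 : ℝ) < (N : ℝ) ^ 2 := by positivity
  refine le_of_mul_le_mul_left ?_ hN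
  calc (N : ℝ) ^ 2 * ∑ i ∈ s, nrm (F i)
      = ∑ q ∈ range N ×ˢ range N, ∑ i ∈ s, ‖ev M (F i) (grid M N q)‖ ^ 2 := by
        rw [sum_comm, mul_sum]
        exact sum_congr rfl fun i hi => (parseval M _ N (h1 N (by omega) i hi)).symm
    _ ≤ ∑ q ∈ range N ×ˢ range N, ∑ j ∈ t, c j * ‖ev M (G j) (grid M N q)‖ ^ 2 :=
        sum_le_sum fun q hq => h _ (grid_mem M hq).1 (grid_mem M hq).2
    _ = _ := by
        rw [sum_comm, mul_sum]
        refine sum_congr rfl fun j hj => ?_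
        rw [← mul_sum, parseval M _ N (h2 N (by omega) j hj)]; ring

theorem transfer_one (M : Mo) (F G : Arr) (c : ℝ)
    (h : ∀ z : ℝ × ℝ, ‖ev M F z‖ ^ 2 ≤ c * ‖ev M G z‖ ^ 2) : nrm F ≤ c * nrm G := by
  simpa using transfer M {()} {()} (fun _ => F) (fun _ => G) (fun _ => c) fun z _ _ => by
    simpa using h z

theorem norm_sum_sq_le {ι : Type*} (s : Finset ι) (f : ι → ℂ) :
    ‖∑ i ∈ s, f i‖ ^ 2 ≤ #s * ∑ i ∈ s, ‖f i‖ ^ 2 :=
  (pow_le_pow_left₀ (norm_nonneg _) (norm_sum_le _ _) 2).trans sq_sum_le_card_mul_sum_sq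

open Classical in
/-- A2: bounded overlap of supports. -/
theorem nrm_sum_le {ι : Type*} (s : Finset ι) (H : ι → Arr) (ov : ℝ)
    (h : ∀ k, (#{i ∈ s | k ∈ (H i).coeff.support} : ℝ) ≤ ov) :
    nrm (∑ i ∈ s, H i) ≤ ov * ∑ i ∈ s, nrm (H i) := by
  set S := s.biUnion fun i => (H i).coeff.support
  have h1 : (∑ i ∈ s, H i).coeff.support ⊆ S := fun k hk => mem_biUnion.2 (mem_support_sum hk)
  rw [nrm_eq_sum h1, sum_congr rfl fun i hi =>
    nrm_eq_sum (F := H i) (s := S) (subset_biUnion_of_mem (fun i => (H i).coeff.support) hi),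
    sum_comm, mul_sum]
  refine sum_le_sum fun k _ => ?_
  rw [AddMonoidAlgebra.coeff_sum, Finsupp.finsetSum_apply,
    ← sum_filter_of_ne (p := fun i => k ∈ (H i).coeff.support)
      fun i _ hi => Finsupp.mem_support_iff.2 hi]
  refine (norm_sum_sq_le _ _).trans (mul_le_mul (h k) ?_ (by positivity) ((by positivity : (0:ℝ) ≤ _).trans (h k)))
  exact sum_le_sum_of_subset_of_nonneg (filter_subset _ _) fun _ _ _ => by positivity

theorem nrm_sum_le_card {ι : Type*} (s : Finset ι) (H : ι → Arr) :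
    nrm (∑ i ∈ s, H i) ≤ #s * ∑ i ∈ s, nrm (H i) :=
  nrm_sum_le s H _ fun _ => by exact_mod_cast card_filter_le _ _

/-- A3, first half. -/
theorem norm_ev_sq_le (M : Mo) (F : Arr) (z : ℝ × ℝ) :
    ‖ev M F z‖ ^ 2 ≤ #F.coeff.support * nrm F := by
  refine (norm_sum_sq_le _ _).trans (le_of_eq ?_)
  simp only [norm_mul, norm_ex, mul_one, nrm]

theorem card_int_le (s : Finset ℤ) (a b : ℝ) (hab : a ≤ b) (h : ∀ n ∈ s, a ≤ n ∧ (n : ℝ) ≤ b) :
    (#s : ℝ) ≤ b - a + 1 := by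
  have h1 : s ⊆ Icc ⌈a⌉ ⌊b⌋ := fun n hn =>
    mem_Icc.2 ⟨Int.ceil_le.2 (h n hn).1, Int.le_floor.2 (h n hn).2⟩
  have h2 : (#s : ℝ) ≤ ((⌊b⌋ + 1 - ⌈a⌉).toNat : ℝ) := by
    have := card_le_card h1
    rw [Int.card_Icc] at this
    exact_mod_cast this
  refine h2.trans ?_
  rcases le_total 0 (⌊b⌋ + 1 - ⌈a⌉) with h3 | h3
  · have : (((⌊b⌋ + 1 - ⌈a⌉).toNat : ℤ) : ℝ) = ((⌊b⌋ + 1 - ⌈a⌉ : ℤ) : ℝ) := by
      rw [Int.toNat_of_nonneg h3]
    push_cast at this
    rw [this]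
    linarith [Int.floor_le b, Int.le_ceil a]
  · rw [Int.toNat_eq_zero.2 h3]; push_cast; linarith

theorem Supp.card_col {a b w : ℝ} (h : Supp M F a b w) (hw : 0 ≤ w) (m : ℤ) :
    (#{k ∈ F.coeff.support | k.1 = m} : ℝ) ≤ 2 * w * (M.L * M.Q) + 1 := by
  have hLQ := mul_pos M.hL M.hQ
  rw [← card_image_of_injOn (f := Prod.snd) (fun k hk k' hk' e => Prod.ext
    ((mem_filter.1 hk).2.trans (mem_filter.1 hk').2.symm) e)]
  refine (card_int_le _ ((M.φ (m / M.L) - w) * (M.L * M.Q)) ((M.φ (m / M.L) + w) * (M.L * M.Q))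
    (by nlinarith) fun n hn => ?_).trans (le_of_eq (by ring))
  obtain ⟨k, hk, rfl⟩ := mem_image.1 hn
  obtain ⟨hk1, rfl⟩ := mem_filter.1 hk
  have := abs_le.1 (h k hk1).2.2
  constructor
  · rw [← le_div_iff₀ hLQ]; linarith
  · rw [← div_le_iff₀ hLQ]; linarith

/-- A3, second half. -/
theorem Supp.card_le {a b w : ℝ} (h : Supp M F a b w) (hab : a ≤ b) (hw : 0 ≤ w) :
    (#F.coeff.support : ℝ) ≤ ((b - a) * M.L + 1) * (2 * w * (M.L * M.Q) + 1) := by
  have hL := M.hL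
  have hLQ := mul_pos M.hL M.hQ
  have h1 : (#(F.coeff.support.image Prod.fst) : ℝ) ≤ (b - a) * M.L + 1 := by
    refine (card_int_le _ (a * M.L) (b * M.L) (by nlinarith) fun n hn => ?_).trans
      (le_of_eq (by ring))
    obtain ⟨k, hk, rfl⟩ := mem_image.1 hn
    exact ⟨(le_div_iff₀ hL).1 (h k hk).1, (div_le_iff₀ hL).1 (h k hk).2.1⟩
  rw [card_eq_sum_card_image Prod.fst]
  push_cast
  refine (sum_le_card_nsmul _ _ _ fun m _ => h.card_col hw m).trans ?_
  rw [nsmul_eq_mul]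
  gcongr

/-! ### Supports -/

theorem Supp.mono {a b w a' b' w' : ℝ} (h : Supp M F a b w) (ha : a' ≤ a) (hb : b ≤ b')
    (hw : w ≤ w') : Supp M F a' b' w' := fun k hk =>
  ⟨ha.trans (h k hk).1, (h k hk).2.1.trans hb, (h k hk).2.2.trans hw⟩

theorem Supp.of_subset {a b w : ℝ} (h : Supp M F a b w) (hs : G.coeff.support ⊆ F.coeff.support) :
    Supp M G a b w := fun k hk => h k (hs hk)

theorem supp_zero {a b w : ℝ} : Supp M 0 a b w := fun k hk => by simp at hk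

theorem supp_sum {ι : Type*} {s : Finset ι} {f : ι → Arr} {a b w : ℝ}
    (h : ∀ i ∈ s, Supp M (f i) a b w) : Supp M (∑ i ∈ s, f i) a b w := fun k hk => by
  obtain ⟨i, hi, hk⟩ := mem_support_sum hk
  exact h i hi k hk

theorem coeff_cut (a b : ℝ) (k : ℤ × ℤ) : (cut M a b F).coeff k =
    if a ≤ k.1 / M.L ∧ k.1 / M.L < b then F.coeff k else 0 := by
  simp only [cut, Finsupp.filter_apply]

theorem mem_support_cut {a b : ℝ} {k : ℤ × ℤ} : k ∈ (cut M a b F).coeff.support ↔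
    k ∈ F.coeff.support ∧ a ≤ k.1 / M.L ∧ k.1 / M.L < b := by
  simp only [Finsupp.mem_support_iff, coeff_cut]
  split_ifs with h <;> simp [h]

theorem Supp.cut {a b w : ℝ} (h : Supp M F a b w) (c d : ℝ) : Supp M (cut M c d F) a b w :=
  h.of_subset fun _ hk => (mem_support_cut.1 hk).1

theorem Supp.cut' {a b w : ℝ} (h : Supp M F a b w) (c d : ℝ) : Supp M (HA.cut M c d F) c d w :=
  fun k hk => ⟨(mem_support_cut.1 hk).2.1, (mem_support_cut.1 hk).2.2.le,
    (h k (mem_support_cut.1 hk).1).2.2⟩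

theorem cut_add_cut {a b c : ℝ} (hab : a ≤ b) (hbc : b ≤ c) :
    cut M a b F + cut M b c F = cut M a c F := by
  ext k
  simp only [AddMonoidAlgebra.coeff_add, Finsupp.add_apply, coeff_cut]
  rcases lt_or_ge (k.1 / M.L : ℝ) b with h | h
  · have h2 : (k.1 / M.L : ℝ) < c := h.trans_le hbc
    simp [h, h2, h.not_ge]
  · have h2 : a ≤ (k.1 / M.L : ℝ) := hab.trans h
    simp [h, h2, h.not_gt]

theorem cut_self (a : ℝ) : cut M a a F = 0 := by
  ext k
  simp only [coeff_cut]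
  rw [if_neg fun h => h.1.not_gt h.2]; rfl

theorem sum_cut (a : ℝ) {s : ℝ} (hs : 0 ≤ s) (n : ℕ) :
    ∑ r ∈ range n, cut M (a + r * s) (a + (r + 1) * s) F = cut M a (a + n * s) F := by
  induction n with
  | zero => simp [cut_self]
  | succ n ih =>
    rw [sum_range_succ, ih, cut_add_cut (by nlinarith [Nat.cast_nonneg (α := ℝ) n]) (by nlinarith)]
    push_cast; rfl

theorem cut_eq_self {a b : ℝ} (h : ∀ k ∈ F.coeff.support, a ≤ k.1 / M.L ∧ k.1 / M.L < b) :
    cut M a b F = F := by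
  ext k
  rw [coeff_cut]
  split_ifs with h1
  · rfl
  · by_contra h2
    exact h1 (h k (Finsupp.mem_support_iff.2 fun h3 => h2 h3.symm))

theorem cut_cut {a b c d : ℝ} (hac : a ≤ c) (hdb : d ≤ b) :
    cut M c d (cut M a b F) = cut M c d F := by
  ext k
  simp only [coeff_cut]
  split_ifs with h1 h2
  · rfl
  · exact absurd ⟨hac.trans h1.1, h1.2.trans_le hdb⟩ h2
  · rfl

/-- Cuts along pairwise disjoint intervals do not increase the total norm. -/
theorem sum_nrm_cut_le {ι : Type*} (s : Finset ι) (a b : ι → ℝ)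
    (h : ∀ i ∈ s, ∀ j ∈ s, i ≠ j → b i ≤ a j ∨ b j ≤ a i) :
    ∑ i ∈ s, nrm (cut M (a i) (b i) F) ≤ nrm F := by
  classical
  rw [sum_congr rfl fun i _ => nrm_eq_sum (F := cut M (a i) (b i) F) (s := F.coeff.support)
    fun _ hk => (mem_support_cut.1 hk).1, sum_comm]
  refine sum_le_sum fun k _ => ?_
  by_cases h1 : ∃ i ∈ s, a i ≤ k.1 / M.L ∧ k.1 / M.L < b i
  · obtain ⟨i, hi, h1⟩ := h1
    rw [sum_eq_single_of_mem i hi, coeff_cut, if_pos h1]
    intro j hj hji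
    rw [coeff_cut, if_neg]
    · simp
    · rintro ⟨h2, h3⟩
      rcases h j hj i hi hji with h4 | h4 <;> linarith [h1.1, h1.2]
  · rw [sum_eq_zero]
    · positivity
    · intro i hi
      rw [coeff_cut, if_neg fun h2 => h1 ⟨i, hi, h2⟩]; simp

theorem sum_nrm_cut_grid (s : Finset ℤ) {σ : ℝ} (hσ : 0 ≤ σ) :
    ∑ l ∈ s, nrm (cut M (l * σ) ((l + 1) * σ) F) ≤ nrm F :=
  sum_nrm_cut_le s _ _ fun i _ j _ hij => by
    rcases lt_or_gt_of_ne hij with h | h
    · left; have : (i : ℝ) + 1 ≤ j := by exact_mod_cast h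
      gcongr
    · right; have : (j : ℝ) + 1 ≤ i := by exact_mod_cast h
      gcongr

theorem coeff_md (z : ℝ × ℝ) (k : ℤ × ℤ) : (md M z F).coeff k =
    F.coeff k * ex (z.1 * (k.1 / M.L) + z.2 * (k.2 / (M.L * M.Q))) := rfl

theorem support_md (z : ℝ × ℝ) : (md M z F).coeff.support = F.coeff.support := by
  ext k; simp [Finsupp.mem_support_iff, coeff_md, ex_ne_zero]

theorem ev_md (z y : ℝ × ℝ) : ev M (md M z F) y = ev M F (z + y) := by
  simp only [ev, support_md, coeff_md]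
  refine sum_congr rfl fun k _ => ?_
  rw [mul_assoc, ← ex_add]; congr 2
  simp only [Prod.fst_add, Prod.snd_add]; ring

theorem nrm_md (z : ℝ × ℝ) : nrm (md M z F) = nrm F := by
  simp only [nrm, support_md, coeff_md, norm_mul, norm_ex, mul_one]

theorem Supp.md {a b w : ℝ} (h : Supp M F a b w) (z : ℝ × ℝ) : Supp M (md M z F) a b w :=
  h.of_subset (support_md z).subset

theorem tilt_inj (j : ℤ) : Function.Injective fun s : ℤ => (s, j * s) :=
  fun _ _ h => congrArg Prod.fst h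

theorem vert_inj : Function.Injective fun s : ℤ => ((0 : ℤ), s) := fun _ _ h => congrArg Prod.snd h

theorem support_tilt (j : ℤ) :
    (tilt j A).coeff.support = A.coeff.support.image fun s => (s, j * s) :=
  Finsupp.mapDomain_support_of_injective (tilt_inj j) _

theorem support_vert : (vert A).coeff.support = A.coeff.support.image fun s => (0, s) :=
  Finsupp.mapDomain_support_of_injective vert_inj _

theorem coeff_tilt (j s : ℤ) : (tilt j A).coeff (s, j * s) = A.coeff s :=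
  Finsupp.mapDomain_apply (tilt_inj j) _ _

theorem coeff_vert (s : ℤ) : (vert A).coeff (0, s) = A.coeff s :=
  Finsupp.mapDomain_apply vert_inj _ _

theorem ev_tilt (j : ℤ) : ev M (tilt j A) z = ev1 M.L A (z.1 + j / M.Q * z.2) := by
  have hL := M.hL.ne'
  have hQ := M.hQ.ne'
  rw [ev, support_tilt, sum_image fun _ _ _ _ h => tilt_inj j h, ev1]
  refine sum_congr rfl fun s _ => ?_
  rw [coeff_tilt]; congr 2; push_cast; field_simp

theorem ev_vert : ev M (vert A) z = ev1 (M.L * M.Q) A z.2 := by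
  rw [ev, support_vert, sum_image fun _ _ _ _ h => vert_inj h, ev1]
  refine sum_congr rfl fun s _ => ?_
  rw [coeff_vert]; congr 2; simp

theorem tilt_one (j : ℤ) : tilt j 1 = 1 := by
  rw [tilt, AddMonoidAlgebra.one_def, AddMonoidAlgebra.coeff_single, Finsupp.mapDomain_single,
    mul_zero]
  rfl

theorem tilt_sum {ι : Type*} (j : ℤ) (s : Finset ι) (f : ι → Arr1) :
    tilt j (∑ i ∈ s, f i) = ∑ i ∈ s, tilt j (f i) := by
  simp only [tilt, AddMonoidAlgebra.coeff_sum, Finsupp.mapDomain_finsetSum,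
    AddMonoidAlgebra.ofCoeff_sum]

/-- A4: multiplication by a function of the second variable. -/
theorem nrm_vert_mul_le (A : Arr1) (G : Arr) (mult : ℝ)
    (h : ∀ m, (#{k ∈ G.coeff.support | k.1 = m} : ℝ) ≤ mult) :
    nrm (vert A * G) ≤ mult * nrm1 A * nrm G := by
  have hG : vert A * G = ∑ k ∈ G.coeff.support, vert A * .single k (G.coeff k) := by
    rw [← mul_sum]; congr 1
    ext1
    rw [AddMonoidAlgebra.coeff_sum]
    exact (Finsupp.sum_single G.coeff).symm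
  have h2 : ∀ k : ℤ × ℤ, ∀ c : ℂ, nrm (vert A * .single k c) ≤ nrm1 A * ‖c‖ ^ 2 := by
    intro k c
    have hs : (vert A * AddMonoidAlgebra.single k c).coeff.support ⊆
        A.coeff.support.image fun s => ((0 : ℤ), s) + k := fun x hx => by
      have := AddMonoidAlgebra.support_coeff_mul_single_subset (vert A) c k hx
      rw [support_vert, image_image] at this
      exact this
    rw [nrm_eq_sum hs, sum_image fun _ _ _ _ e => vert_inj (add_right_cancel e), nrm1, sum_mul]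
    refine sum_le_sum fun s _ => le_of_eq ?_
    rw [AddMonoidAlgebra.coeff_mul_single_eq_coeff_mul (m₂ := ((0 : ℤ), s))
      fun m' _ => add_left_inj k, coeff_vert, norm_mul, mul_pow]
  rw [hG]
  refine (nrm_sum_le _ _ mult fun x => le_trans ?_ (h x.1)).trans ?_
  · norm_cast
    refine card_le_card fun k hk => ?_
    obtain ⟨hk1, hk2⟩ := mem_filter.1 hk
    obtain ⟨a, ha, b, hb, e⟩ := mem_support_mul hk2
    rw [support_vert] at ha
    obtain ⟨s, _, rfl⟩ := mem_image.1 ha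
    have hb' : b = k := mem_singleton.1 (Finsupp.support_single_subset hb)
    exact mem_filter.2 ⟨hk1, by rw [← e, hb']; simp⟩
  · have h0 : 0 ≤ mult := (Nat.cast_nonneg _).trans (h 0)
    rw [mul_assoc]
    refine mul_le_mul_of_nonneg_left ?_ h0
    rw [show nrm G = ∑ k ∈ G.coeff.support, ‖G.coeff k‖ ^ 2 from rfl, mul_sum]
    exact sum_le_sum fun k _ => h2 k _

/-! ### The curve -/

theorem Curve.mono {φ ψ : ℝ → ℝ} (h : Curve φ ψ) : Monotone ψ := fun x y hxy => by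
  linarith [h.lo x y hxy]

theorem Curve.lip {φ ψ : ℝ → ℝ} (h : Curve φ ψ) (x y : ℝ) : |ψ x - ψ y| ≤ 2 * |x - y| := by
  rcases le_total x y with hxy | hxy
  · rw [abs_sub_comm, abs_sub_comm x, abs_of_nonneg (by linarith [h.mono hxy]),
      abs_of_nonneg (by linarith)]
    exact h.hi x y hxy
  · rw [abs_of_nonneg (by linarith [h.mono hxy]), abs_of_nonneg (by linarith)]
    exact h.hi y x hxy

theorem Curve.sep {φ ψ : ℝ → ℝ} (h : Curve φ ψ) (x y : ℝ) : |x - y| ≤ |ψ x - ψ y| := by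
  rcases le_total x y with hxy | hxy
  · rw [abs_sub_comm, abs_sub_comm (ψ x), abs_of_nonneg (by linarith)]
    exact (h.lo x y hxy).trans (le_abs_self _)
  · rw [abs_of_nonneg (by linarith)]
    exact (h.lo y x hxy).trans (le_abs_self _)

theorem Curve.psi_le {φ ψ : ℝ → ℝ} (h : Curve φ ψ) (x : ℝ) : |ψ x| ≤ 1 + 2 * |x| := by
  have h1 := h.lip x 0
  have h2 := abs_sub_abs_le_abs_sub (ψ x) (ψ 0)
  rw [sub_zero] at h1
  linarith [h.z2]

theorem Curve.taylor {φ ψ : ℝ → ℝ} (h : Curve φ ψ) (x y : ℝ) :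
    |φ y - φ x - ψ x * (y - x)| ≤ 2 * (y - x) ^ 2 := by
  have h1 := h.conv x y
  have h2 := h.conv y x
  rw [abs_of_nonneg (by linarith)]
  have h3 : (ψ y - ψ x) * (y - x) ≤ |ψ y - ψ x| * |y - x| := by
    rw [← abs_mul]; exact le_abs_self _
  have h4 := mul_le_mul_of_nonneg_right (h.lip y x) (abs_nonneg (y - x))
  have h5 := abs_mul_abs_self (y - x)
  nlinarith

theorem Curve.phi_sub_le {φ ψ : ℝ → ℝ} (h : Curve φ ψ) (x y : ℝ) :
    |φ y - φ x| ≤ |ψ x| * |y - x| + 2 * (y - x) ^ 2 := by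
  have := abs_add_le (φ y - φ x - ψ x * (y - x)) (ψ x * (y - x))
  rw [sub_add_cancel, abs_mul] at this
  linarith [h.taylor x y]

theorem Curve.phi_le {φ ψ : ℝ → ℝ} (h : Curve φ ψ) (x : ℝ) : |φ x| ≤ 1 + |x| + 2 * x ^ 2 := by
  have h1 := h.phi_sub_le 0 x
  have h2 := abs_sub_abs_le_abs_sub (φ x) (φ 0)
  rw [sub_zero] at h1
  nlinarith [h.z1, h.z2, abs_nonneg x]

theorem Curve.continuous {φ ψ : ℝ → ℝ} (h : Curve φ ψ) : Continuous φ := by
  refine continuous_iff_continuousAt.2 fun x => ?_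
  rw [ContinuousAt, tendsto_iff_norm_sub_tendsto_zero]
  refine squeeze_zero (fun _ => norm_nonneg _) (fun y => h.phi_sub_le x y) ?_
  have : Continuous fun y : ℝ => |ψ x| * |y - x| + 2 * (y - x) ^ 2 := by fun_prop
  simpa using this.tendsto x

/-- A5 for tilted factors. -/
theorem Supp.tilt_mul {a b w u v : ℝ} (h : Supp M F a b w) (j : ℤ) (hA : Spec1 M.L u A)
    (hv : ∀ ξ, a ≤ ξ → ξ ≤ b → |M.ψ ξ - j / M.Q| ≤ v) :
    Supp M (tilt j A * F) (a - u) (b + u) (w + u * v + 2 * u ^ 2) := by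
  intro k hk
  have hL := M.hL.ne'
  have hQ := M.hQ.ne'
  obtain ⟨x, hx, k', hk', rfl⟩ := mem_support_mul hk
  rw [support_tilt] at hx
  obtain ⟨s, hs, rfl⟩ := mem_image.1 hx
  obtain ⟨h1, h2, h3⟩ := h k' hk'
  have h4 := hA s hs
  have h5 := abs_le.1 h4
  have e1 : ((((s, j * s) + k').1 : ℤ) : ℝ) / M.L = k'.1 / M.L + s / M.L := by
    simp only [Prod.fst_add]; push_cast; ring
  have e2 : ((((s, j * s) + k').2 : ℤ) : ℝ) / (M.L * M.Q) =
      k'.2 / (M.L * M.Q) + j / M.Q * (s / M.L) := by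
    simp only [Prod.snd_add]; push_cast; field_simp; ring
  rw [e1, e2]
  refine ⟨by linarith, by linarith, ?_⟩
  set ξ := (k'.1 : ℝ) / M.L
  set σ := (s : ℝ) / M.L
  have h6 := M.cv.taylor ξ (ξ + σ)
  rw [add_sub_cancel_left] at h6
  have h7 : |(M.ψ ξ - j / M.Q) * σ| ≤ u * v := by
    rw [abs_mul, mul_comm]
    exact mul_le_mul h4 (hv ξ h1 h2) (abs_nonneg _) ((abs_nonneg _).trans h4)
  have h8 : σ ^ 2 ≤ u ^ 2 := sq_le_sq' h5.1 h5.2
  rw [abs_le] at h3 h6 h7 ⊢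
  constructor <;> nlinarith [h3.1, h3.2, h6.1, h6.2, h7.1, h7.2]

/-- A5 for vertical factors. -/
theorem Supp.vert_mul {a b w u : ℝ} (h : Supp M F a b w) (hA : Spec1 (M.L * M.Q) u A) :
    Supp M (vert A * F) a b (w + u) := by
  intro k hk
  obtain ⟨x, hx, k', hk', rfl⟩ := mem_support_mul hk
  rw [support_vert] at hx
  obtain ⟨s, hs, rfl⟩ := mem_image.1 hx
  obtain ⟨h1, h2, h3⟩ := h k' hk'
  have h4 := hA s hs
  simp only [Prod.fst_add, Prod.snd_add, zero_add]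
  refine ⟨h1, h2, ?_⟩
  push_cast
  rw [add_div]
  rw [abs_le] at h3 h4 ⊢
  constructor <;> linarith [h3.1, h3.2, h4.1, h4.2]

/-! ### Slopes -/

theorem cs_near (M : Mo) (s : ℝ) (l : ℤ) (ξ : ℝ) :
    |M.ψ ξ - cs M s l| ≤ 2 * |ξ - (l - 1 / 2) * s| + 2 / M.L + 1 / (2 * M.Q) := by
  have hL := M.hL
  have hQ := M.hQ
  set x0 : ℝ := ⌊M.L * ((l - 1 / 2) * s)⌋ / M.L with hx0
  have h1 : |x0 - (l - 1 / 2) * s| ≤ 1 / M.L := by
    have e : x0 - (l - 1 / 2) * s =
        ((⌊M.L * ((l - 1 / 2) * s)⌋ : ℝ) - M.L * ((l - 1 / 2) * s)) / M.L := by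
      rw [hx0]; field_simp
    rw [e, abs_div, abs_of_pos hL]
    gcongr
    rw [abs_le]
    constructor <;> linarith [Int.floor_le (M.L * ((l - 1 / 2) * s)),
      Int.lt_floor_add_one (M.L * ((l - 1 / 2) * s))]
  have h2 : |M.ψ x0 - cs M s l| ≤ 1 / (2 * M.Q) := by
    have e : M.ψ x0 - cs M s l = (M.Q * M.ψ x0 - round (M.Q * M.ψ x0)) / M.Q := by
      rw [cs, sl, ← hx0]; field_simp
    rw [e, abs_div, abs_of_pos hQ, ← div_div]
    gcongr
    exact abs_sub_round _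
  have h3 := M.cv.lip ξ x0
  have h4 := abs_sub_le ξ ((l - 1 / 2) * s) x0
  rw [abs_sub_comm ((l - 1 / 2) * s) x0] at h4
  have h5 := abs_sub_le (M.ψ ξ) (M.ψ x0) (cs M s l)
  have : 2 / M.L = 2 * (1 / M.L) := by ring
  linarith

theorem cs_le (M : Mo) {s : ℝ} {l : ℤ} (hs : 0 ≤ s) (hs1 : s ≤ 1) (hl : |l * s| ≤ 3 / 2)
    (hL : 4 ≤ M.L) (hQ : 1 ≤ M.Q) : |cs M s l| ≤ 6 := by
  have h1 := cs_near M s l ((l - 1 / 2) * s)
  have h2 := M.cv.psi_le ((l - 1 / 2) * s)
  have h3 : |((l : ℝ) - 1 / 2) * s| ≤ 2 := by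
    rw [abs_le] at hl ⊢; constructor <;> nlinarith [hl.1, hl.2]
  have h4 : 2 / M.L ≤ 1 / 2 := by rw [div_le_iff₀ M.hL]; linarith
  have h5 : 1 / (2 * M.Q) ≤ 1 / 2 := by gcongr; linarith
  have h6 := abs_sub_abs_le_abs_sub (cs M s l) (M.ψ ((l - 1 / 2) * s))
  rw [abs_sub_comm] at h6
  rw [sub_self, abs_zero] at h1
  linarith

theorem cs_sep (M : Mo) {s : ℝ} (hs : 0 ≤ s) (hL : 16 ≤ s * M.L) (hQ : 4 ≤ s * M.Q) (l l' : ℤ) :
    |(l : ℝ) - l'| * s / 2 ≤ |cs M s l - cs M s l'| := by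
  rcases eq_or_ne l l' with rfl | hne
  · simp
  have h0 : (1 : ℝ) ≤ |(l : ℝ) - l'| := by exact_mod_cast Int.one_le_abs (sub_ne_zero.2 hne)
  have h1 := cs_near M s l ((l - 1 / 2) * s)
  have h2 := cs_near M s l' ((l' - 1 / 2) * s)
  rw [sub_self, abs_zero] at h1 h2
  have h3 := M.cv.sep ((l - 1 / 2) * s) ((l' - 1 / 2) * s)
  rw [show ((l : ℝ) - 1 / 2) * s - (l' - 1 / 2) * s = (l - l') * s by ring, abs_mul,
    abs_of_nonneg hs] at h3
  have h4 : 2 / M.L ≤ s / 8 := by rw [div_le_iff₀ M.hL]; linarith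
  have h5 : 1 / (2 * M.Q) ≤ s / 8 := by rw [div_le_iff₀ (by linarith [M.hQ])]; linarith
  have h6 := abs_sub_le (M.ψ ((l - 1 / 2) * s)) (cs M s l) (M.ψ ((l' - 1 / 2) * s))
  have h7 := abs_sub_le (cs M s l) (cs M s l') (M.ψ ((l' - 1 / 2) * s))
  rw [abs_sub_comm (cs M s l')] at h7
  nlinarith

/-! ### Point sets, monotonicity -/

open Classical in
theorem KT.subset {Θ : ℝ} {X X' : Finset (ℝ × ℝ)} (h : KT Θ X) (hs : X' ⊆ X) : KT Θ X' :=
  fun z r hr => le_trans (by exact_mod_cast card_le_card (filter_subset_filter _ hs)) (h z r hr)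

open Classical in
theorem KT.card_le {Θ R : ℝ} {X : Finset (ℝ × ℝ)} (h : KT Θ X) (hR : 1 ≤ R)
    (hX : ∀ p ∈ X, InBox R p) : (#X : ℝ) ≤ Θ * R := by
  have := h (0, 0) R hR
  rwa [filter_true_of_mem fun p hp => by
    obtain ⟨h1, h2, h3, h4⟩ := hX p hp
    exact ⟨h1, by simpa using h2.le, h3, by simpa using h4.le⟩] at this

open Classical in
theorem KT.image_sub {Θ : ℝ} {X : Finset (ℝ × ℝ)} (h : KT Θ X) (z0 : ℝ × ℝ) :
    KT Θ (X.image fun p => p - z0) := fun z r hr => by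
  refine le_trans ?_ (h (z + z0) r hr)
  norm_cast
  refine le_trans (card_le_card fun q hq => ?_) (card_image_le (f := fun p => p - z0))
  obtain ⟨h1, h2⟩ := mem_filter.1 hq
  obtain ⟨p, hp, rfl⟩ := mem_image.1 h1
  refine mem_image_of_mem _ (mem_filter.2 ⟨hp, ?_⟩)
  simp only [InSq, Prod.fst_sub, Prod.snd_sub, Prod.fst_add, Prod.snd_add] at h2 ⊢
  obtain ⟨a, b, c, d⟩ := h2
  refine ⟨?_, ?_, ?_, ?_⟩ <;> linarith

theorem Core.mono {K1 A A' : ℕ} {H R Z Z' : ℝ} (h : Core K1 H R A Z) (hA : A ≤ A') (hZ : Z ≤ Z') :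
    Core K1 H R A' Z' := fun M F X lam E a b c d e f g i j k l =>
  (h M F X lam E a b c d e f g i j k fun p hp => hA.trans (l p hp)).trans (by gcongr)

theorem Hier.subset {D : ℕ} {Sel : ℕ → ℕ → Finset ℕ → Finset ℕ} (h : Hier D Sel) (n a : ℕ)
    (S : Finset ℕ) : Sel n a S ⊆ arcS D n a S := by
  induction n generalizing a with
  | zero => exact h.1 a S
  | succ n ih =>
    rcases h.2.1 n a S with e | e <;> rw [e]
    · exact empty_subset _
    · intro l hl
      obtain ⟨r, hr, hl⟩ := mem_biUnion.1 hl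
      obtain ⟨h1, h2⟩ := mem_filter.1 (ih _ hl)
      have hr' := mem_range.1 hr
      refine mem_filter.2 ⟨h1, ?_⟩
      rw [pow_succ, ← Nat.div_div_eq_div_mul, h2, Nat.mul_add_div (by omega), Nat.div_eq_of_lt hr']
      rfl

end

end Pool.Agent.Lib.MP_108739_an.HA
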