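import Pool.Agent.Lib.MP_108739_an.HA.StepB0

/-! Case B of the induction step: few cubes. -/

namespace Pool.Agent.Lib.MP_108739_an.HA

open Finset
open scoped Real

noncomputable section

namespace SB

structure GF (g : Geo) (M : Mo) : Prop where
  D : (200 : ℝ) ≤ g.D
  d0 : 0 < g.δ
  d1 : g.δ ≤ 1
  dN : g.δ * (g.D : ℝ) ^ g.ls = 1
  r0 : 200 ≤ g.ρ
  r1 : 200 * g.ρ ≤ g.R
  rd : 1 / g.ρ ≤ g.δ
  H : 20 ≤ g.H
  L : 20 * g.R ≤ M.L
  Q : 20 * g.R ≤ M.Q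

lemma gf {g : Geo} {M : Mo} (h : g.Ok M) : GF g M := by
  have hD : (200 : ℝ) ≤ g.D := by
    have h1 := h.hK
    have h2 := h.hD
    have : 200 ≤ g.D := by omega
    exact_mod_cast this
  have hN : (g.D : ℝ) ≤ (g.D : ℝ) ^ g.ls :=
    le_self_pow₀ (by linarith) (by have := h.hl; omega)
  have hN0 : 0 < (g.D : ℝ) ^ g.ls := by linarith
  have hR := h.hR
  have hs : 1 ≤ √g.R := Real.one_le_sqrt.2 hR
  have hs2 : √g.R * √g.R = g.R := Real.mul_self_sqrt (by linarith)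
  have hρ := h.hρ
  have r0 : 200 ≤ g.ρ := by nlinarith
  have hρN : g.ρ * (g.D : ℝ) ^ g.ls = g.R := by
    unfold Geo.ρ
    field_simp
  have r1 : 200 * g.ρ ≤ g.R := by nlinarith
  have hH := h.hH
  have hH20 : 20 ≤ g.H := by linarith
  refine ⟨hD, by unfold Geo.δ; positivity, ?_, ?_, r0, r1, ?_, hH20, ?_, ?_⟩
  · unfold Geo.δ
    rw [div_le_one hN0]
    linarith
  · unfold Geo.δ
    field_simp
  · unfold Geo.δ
    refine one_div_le_one_div_of_le hN0 ?_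
    have h3 : √g.R ≤ g.ρ := by nlinarith
    have h4 : g.R ≤ g.ρ * g.ρ := by nlinarith
    by_contra hc
    push Not at hc
    nlinarith
  · have := h.l1
    nlinarith
  · have := h.q1
    nlinarith

lemma cs_le {g : Geo} {M : Mo} (h : GF g M) {l : ℕ} (hl : l < g.D ^ g.ls) :
    |cs M g.δ l| ≤ 4 := by
  have h1 : (l : ℝ) ≤ (g.D : ℝ) ^ g.ls := by exact_mod_cast hl.le
  have h0 : (0 : ℝ) ≤ l := Nat.cast_nonneg _
  have := h.r0
  have := h.r1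
  have := h.L
  have := h.Q
  have := h.d0
  have := h.d1
  have := h.dN
  refine cs_abs M _ _ (by linarith) (by linarith) ?_ ?_
  · push_cast
    nlinarith
  · push_cast
    nlinarith

def cn (ρ : ℝ) (ν : ℤ × ℤ) : ℝ × ℝ := (ν.1 * ρ, ν.2 * ρ)

lemma inBox_cn {ρ : ℝ} (hρ : 0 < ρ) (p : ℝ × ℝ) : InBox ρ (p - cn ρ (cube ρ p)) := by
  have a1 := Int.floor_le (p.1 / ρ)
  have a2 := Int.lt_floor_add_one (p.1 / ρ)
  have b1 := Int.floor_le (p.2 / ρ)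
  have b2 := Int.lt_floor_add_one (p.2 / ρ)
  rw [le_div_iff₀ hρ] at a1 b1
  rw [div_lt_iff₀ hρ] at a2 b2
  simp only [InBox, cn, cube, Prod.fst_sub, Prod.snd_sub]
  refine ⟨?_, ?_, ?_, ?_⟩ <;> linarith

lemma lin_abs {r c : ℝ} {z : ℝ × ℝ} (hz : InBox r z) (hc : |c| ≤ 4) : |z.1 + c * z.2| ≤ 5 * r := by
  obtain ⟨a1, a2, b1, b2⟩ := hz
  obtain ⟨c1, c2⟩ := abs_le.1 hc
  rw [abs_le]
  constructor <;> nlinarith

def Nr (g : Geo) (M : Mo) (s0 : ℝ) (ν : ℤ × ℤ) (τ : Tb) : Prop :=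
  |τ.2.2 * s0 - (ν.1 * g.ρ + cs M g.δ τ.2.1 * (ν.2 * g.ρ))| ≤ (g.D + 5) * g.ρ

lemma corner {g : Geo} {M : Mo} (h : GF g M) {l : ℕ} (hl : l < g.D ^ g.ls) (p : ℝ × ℝ) :
    |p.1 + cs M g.δ l * p.2 -
      ((cube g.ρ p).1 * g.ρ + cs M g.δ l * ((cube g.ρ p).2 * g.ρ))| ≤ 5 * g.ρ := by
  have h1 := lin_abs (inBox_cn (ρ := g.ρ) (by linarith [h.r0]) p) (cs_le h hl)
  simp only [cn, Prod.fst_sub, Prod.snd_sub] at h1
  convert h1 using 2
  ring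

lemma near {g : Geo} {M : Mo} (h : GF g M) {s0 : ℝ} {τ : Tb} (hl : τ.2.1 < g.D ^ g.ls)
    {p : ℝ × ℝ} (hn : Nr g M s0 (cube g.ρ p) τ) :
    |p.1 + cs M g.δ τ.2.1 * p.2 - τ.2.2 * s0| ≤ 2 * g.D * g.ρ := by
  obtain ⟨a1, a2⟩ := abs_le.1 (corner h hl p)
  obtain ⟨b1, b2⟩ := abs_le.1 hn
  have := h.D
  have := h.r0
  rw [abs_le]
  constructor <;> nlinarith

lemma far {g : Geo} {M : Mo} (h : GF g M) {s0 : ℝ} {τ : Tb} (hl : τ.2.1 < g.D ^ g.ls)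
    {p : ℝ × ℝ} (hn : ¬ Nr g M s0 (cube g.ρ p) τ) :
    g.D * g.ρ ≤ |p.1 + cs M g.δ τ.2.1 * p.2 - τ.2.2 * s0| := by
  by_contra hc
  push Not at hc
  apply hn
  obtain ⟨a1, a2⟩ := abs_le.1 (corner h hl p)
  obtain ⟨b1, b2⟩ := abs_lt.1 hc
  unfold Nr
  rw [abs_le]
  constructor <;> linarith

lemma part1 {g : Geo} {M : Mo} (h : GF g M) {E Ec s0 : ℝ} {T : Finset Tb} {pk : Tb → Arr}
    (hS : Sys g M E Ec s0 T pk) : ∃ S, NearFar g M (2 * g.D) s0 T (cube g.ρ) S := by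
  classical
  refine ⟨fun ν i => {τ ∈ T | τ.1 = i ∧ Nr g M s0 ν τ}.image fun τ => τ.2.1, fun p _ i => ⟨?_, ?_⟩⟩
  · intro l hl
    obtain ⟨⟨i', l', j⟩, hτ, rfl⟩ := mem_image.1 hl
    obtain ⟨h1, rfl, h3⟩ := mem_filter.1 hτ
    exact ⟨(hS.idx _ h1).2.1, j, h1, near h (hS.idx _ h1).2.1 h3⟩
  · intro τ hτ hi hl
    refine far h (hS.idx _ hτ).2.1 fun hn => hl ?_
    exact mem_image.2 ⟨τ, mem_filter.2 ⟨hτ, hi, hn⟩, rfl⟩

open Classical in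
def U (g : Geo) (M : Mo) (s0 : ℝ) (T : Finset Tb) (ν : ℤ × ℤ) (i : ℕ) (Ls : Finset ℕ) : Finset Tb :=
  {τ ∈ T | τ.1 = i ∧ τ.2.1 ∈ Ls ∧ Nr g M s0 ν τ}

lemma mem_U {g : Geo} {M : Mo} {s0 : ℝ} {T : Finset Tb} {ν : ℤ × ℤ} {i : ℕ} {Ls : Finset ℕ}
    {τ : Tb} : τ ∈ U g M s0 T ν i Ls ↔ τ ∈ T ∧ τ.1 = i ∧ τ.2.1 ∈ Ls ∧ Nr g M s0 ν τ := by
  simp only [U, mem_filter]

lemma card_U {g : Geo} {M : Mo} (h : GF g M) {s0 : ℝ} (hs : g.ρ / 2 ≤ s0) (T : Finset Tb)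
    (ν : ℤ × ℤ) (i : ℕ) (Ls : Finset ℕ) : (#(U g M s0 T ν i Ls) : ℝ) ≤ #Ls * (5 * g.D) := by
  have hρ := h.r0
  have hD := h.D
  have hs0 : 0 < s0 := by linarith
  rw [card_eq_sum_card_fiberwise (f := fun τ : Tb => τ.2.1) (t := Ls)
    (fun τ hτ => (mem_U.1 (mem_coe.1 hτ)).2.2.1)]
  push_cast
  rw [← nsmul_eq_mul]
  refine sum_le_card_nsmul _ _ _ fun l _ => ?_
  have h1 : #{τ ∈ U g M s0 T ν i Ls | τ.2.1 = l} =
      #({τ ∈ U g M s0 T ν i Ls | τ.2.1 = l}.image fun τ => τ.2.2) := by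
    refine (card_image_of_injOn fun τ hτ τ' hτ' e => ?_).symm
    obtain ⟨a1, a2⟩ := mem_filter.1 (mem_coe.1 hτ)
    obtain ⟨b1, b2⟩ := mem_filter.1 (mem_coe.1 hτ')
    exact Prod.ext ((mem_U.1 a1).2.1.trans (mem_U.1 b1).2.1.symm) (Prod.ext (a2.trans b2.symm) e)
  rw [h1]
  refine (card_int_le _ s0 (ν.1 * g.ρ + cs M g.δ l * (ν.2 * g.ρ)) ((g.D + 5) * g.ρ) hs0
    (by positivity) ?_).trans ?_
  · intro j hj
    obtain ⟨τ, hτ, rfl⟩ := mem_image.1 hj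
    obtain ⟨a1, rfl⟩ := mem_filter.1 hτ
    exact (mem_U.1 a1).2.2.2
  · have : 2 * ((g.D + 5) * g.ρ) / s0 ≤ 4 * (g.D + 5) := by
      rw [div_le_iff₀ hs0]
      nlinarith
    linarith

lemma nrm_G {g : Geo} {M : Mo} (h : GF g M) {E Ec s0 : ℝ} {T : Finset Tb} {pk : Tb → Arr}
    (hS : Sys g M E Ec s0 T pk) (ν : ℤ × ℤ) (i : ℕ) (Ls : Finset ℕ) :
    en M g.R (∑ τ ∈ U g M s0 T ν i Ls, pk τ) ≤ 100 * #Ls * (g.D : ℝ) ^ 2 * Ec := by
  classical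
  have hρ := h.r0
  have hD := h.D
  have hd := h.d0
  have hR : 0 < g.R := by linarith [h.r1]
  have hc : 0 ≤ M.L ^ 2 * M.Q / g.R := by have := M.hQ; positivity
  have h1 := nrm_sum_le (U g M s0 T ν i Ls) pk (20 * g.D) (by positivity) (by
    intro k
    set Lk : Finset ℕ := {l ∈ Ls | |((l : ℤ) : ℝ) * g.δ - (k.1 / M.L - g.δ / 2)| ≤ 3 * g.δ / 2}
      with hLk
    have h2 : (#Lk : ℝ) ≤ 4 := by
      rw [← card_image_of_injective Lk (Nat.cast_injective (R := ℤ))]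
      refine (card_int_le _ g.δ (k.1 / M.L - g.δ / 2) (3 * g.δ / 2) hd (by positivity) ?_).trans ?_
      · intro j hj
        obtain ⟨l, hl, rfl⟩ := mem_image.1 hj
        exact (mem_filter.1 hl).2
      · have : 2 * (3 * g.δ / 2) / g.δ = 3 := by field_simp
        linarith
    have h3 := card_U h hS.s0l T ν i Lk
    refine le_trans ?_ (h3.trans (by nlinarith))
    refine Nat.cast_le.2 (card_le_card fun τ hτ => ?_)
    obtain ⟨a1, a2⟩ := mem_filter.1 hτ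
    obtain ⟨b1, b2, b3, b4⟩ := mem_U.1 a1
    refine mem_U.2 ⟨b1, b2, mem_filter.2 ⟨b3, ?_⟩, b4⟩
    obtain ⟨c1, c2, -⟩ := hS.sp1 τ b1 k a2
    have := h.rd
    rw [abs_le]
    push_cast
    constructor <;> linarith)
  have h4 : ∑ τ ∈ U g M s0 T ν i Ls, en M g.R (pk τ) ≤ #(U g M s0 T ν i Ls) * Ec := by
    rw [← nsmul_eq_mul]
    exact sum_le_card_nsmul _ _ _ fun τ hτ => hS.enle τ (mem_U.1 hτ).1
  have h5 := card_U h hS.s0l T ν i Ls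
  have hEc := hS.pos
  calc en M g.R (∑ τ ∈ U g M s0 T ν i Ls, pk τ)
      ≤ M.L ^ 2 * M.Q / g.R * (20 * g.D * ∑ τ ∈ U g M s0 T ν i Ls, nrm (pk τ)) :=
        mul_le_mul_of_nonneg_left h1 hc
    _ = 20 * g.D * ∑ τ ∈ U g M s0 T ν i Ls, en M g.R (pk τ) := by
        unfold en
        rw [← mul_sum]
        ring
    _ ≤ 20 * g.D * (#Ls * (5 * g.D) * Ec) := by
        refine mul_le_mul_of_nonneg_left (h4.trans ?_) (by positivity)
        exact mul_le_mul_of_nonneg_right h5 hEc.le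
    _ = _ := by ring

lemma en_loc {g : Geo} {M : Mo} (h : GF g M) {G : Arr} {a b : ℝ} (hG : Supp M G a b (8 / g.R))
    {A : Arr1} (hA : nrm1 A ≤ 20 * g.ρ / (M.L * M.Q)) (c : ℝ × ℝ) :
    en M g.ρ (md M c (vert A * G)) ≤ 340 * en M g.R G := by
  have hρ := h.r0
  have hR : 200 * g.ρ ≤ g.R := h.r1
  have hR0 : 0 < g.R := by linarith
  have hL := h.L
  have hQ := h.Q
  have hL0 := M.hL
  have hQ0 := M.hQ
  have hP : g.R ≤ M.L * M.Q := by nlinarith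
  have h1 := nrm_vert_mul A G (17 * (M.L * M.Q) / g.R) (by positivity) (fun a' => by
    refine (col_card (by positivity) hG a').trans ?_
    have e1 : 1 ≤ M.L * M.Q / g.R := (one_le_div hR0).2 hP
    have e2 : 2 * (8 / g.R) * (M.L * M.Q) = 16 * (M.L * M.Q / g.R) := by ring
    have e3 : 17 * (M.L * M.Q) / g.R = 17 * (M.L * M.Q / g.R) := by ring
    linarith)
  have h2 := nrm_nonneg G
  unfold en
  rw [nrm_md]
  calc M.L ^ 2 * M.Q / g.ρ * nrm (vert A * G)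
      ≤ M.L ^ 2 * M.Q / g.ρ * (17 * (M.L * M.Q) / g.R * (20 * g.ρ / (M.L * M.Q) * nrm G)) := by
        refine mul_le_mul_of_nonneg_left (h1.trans ?_) (by positivity)
        gcongr
    _ = _ := by
        field_simp
        ring

lemma supp_loc {g : Geo} {M : Mo} (h : GF g M) {G : Arr} {a b : ℝ}
    (hG : Supp M G (a - 10 / √g.R - 1 / g.ρ) (b + 10 / √g.R + 1 / g.ρ) (8 / g.R))
    {A : Arr1} (hA : Spec1 (M.L * M.Q) (1 / (10 * g.ρ)) A) (c : ℝ × ℝ) :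
    Supp M (md M c (vert A * G)) (a - 10 / √g.ρ) (b + 10 / √g.ρ) (1 / g.ρ) := by
  have hρ := h.r0
  have hR : 200 * g.ρ ≤ g.R := h.r1
  have hρ0 : 0 < g.ρ := by linarith
  have hs : 1 ≤ √g.ρ := Real.one_le_sqrt.2 (by linarith)
  have hs2 : √g.ρ * √g.ρ = g.ρ := Real.mul_self_sqrt hρ0.le
  have h1 : 2 * √g.ρ ≤ √g.R := Real.le_sqrt_of_sq_le (by nlinarith)
  have h2 : 10 / √g.R ≤ 5 / √g.ρ := by
    rw [div_le_div_iff₀ (by linarith) (by linarith)]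
    linarith
  have h3 : 1 / g.ρ ≤ 5 / √g.ρ := by
    rw [div_le_div_iff₀ hρ0 (by linarith)]
    nlinarith
  have h4 : 10 / √g.ρ = 5 / √g.ρ + 5 / √g.ρ := by ring
  have h5 : 8 / g.R ≤ 1 / (10 * g.ρ) := by
    rw [div_le_div_iff₀ (by linarith) (by linarith)]
    linarith
  have h6 : 1 / (10 * g.ρ) + 1 / (10 * g.ρ) ≤ 1 / g.ρ := by
    rw [← add_div, div_le_div_iff₀ (by linarith) hρ0]
    linarith
  exact supp_md c (supp_mono (supp_vert_mul hA hG) (by linarith) (by linarith) (by linarith))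

lemma val_G {g : Geo} {M : Mo} (h : GF g M) {E Ec s0 : ℝ} {T : Finset Tb} {pk : Tb → Arr}
    (hS : Sys g M E Ec s0 T pk) (hE : 0 < E) {p : ℝ × ℝ} (hp : InBox g.R p) (i : ℕ)
    (Ls : Finset ℕ) : ‖∑ l ∈ Ls, ev M (gl T pk i l) p‖ ≤
      ‖ev M (∑ τ ∈ U g M s0 T (cube g.ρ p) i Ls, pk τ) p‖ + E / g.H ^ 22 := by
  classical
  have hH : 0 < g.H := by linarith [h.H]
  have e1 : ∑ l ∈ Ls, ev M (gl T pk i l) p =
      ∑ τ ∈ T with τ.1 = i ∧ τ.2.1 ∈ Ls, ev M (pk τ) p := by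
    rw [← sum_fiberwise_of_maps_to (g := fun τ : Tb => τ.2.1) (t := Ls)
      (fun τ hτ => (mem_filter.1 hτ).2.2)]
    refine sum_congr rfl fun l hl => ?_
    rw [gl, ev_sum, filter_filter]
    refine sum_congr (filter_congr fun τ _ => ?_) fun _ _ => rfl
    constructor
    · rintro ⟨a, b⟩
      exact ⟨⟨a, b ▸ hl⟩, b⟩
    · rintro ⟨⟨a, -⟩, b⟩
      exact ⟨a, b⟩
  have e2 : {τ ∈ {τ ∈ T | τ.1 = i ∧ τ.2.1 ∈ Ls} | Nr g M s0 (cube g.ρ p) τ} =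
      U g M s0 T (cube g.ρ p) i Ls := by
    ext τ
    simp only [mem_filter, mem_U, and_assoc]
  rw [e1, ← sum_filter_add_sum_filter_not _ (Nr g M s0 (cube g.ρ p)), e2, ev_sum]
  refine (norm_add_le _ _).trans (add_le_add le_rfl ((norm_sum_le _ _).trans ?_))
  refine (sum_le_card_nsmul _ _ (E / g.H ^ 30) fun τ hτ => ?_).trans ?_
  · obtain ⟨a1, a2⟩ := mem_filter.1 hτ
    have a3 := (mem_filter.1 a1).1
    have a4 := (hS.idx τ a3).2.1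
    refine hS.dec τ a3 p ((lin_abs hp (cs_le h a4)).trans ?_) (far h a4 a2)
    linarith [h.L]
  · rw [nsmul_eq_mul]
    have a1 : (#{τ ∈ {τ ∈ T | τ.1 = i ∧ τ.2.1 ∈ Ls} | ¬ Nr g M s0 (cube g.ρ p) τ} : ℝ) ≤ #T :=
      Nat.cast_le.2 (card_le_card ((filter_subset _ _).trans (filter_subset _ _)))
    calc _ ≤ g.H ^ 8 * (E / g.H ^ 30) :=
          mul_le_mul_of_nonneg_right (a1.trans hS.card) (by positivity)
      _ = _ := by field_simp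

lemma kt_shift {Θ : ℝ} {X Y : Finset (ℝ × ℝ)} (hX : KT Θ X) (hY : Y ⊆ X) (c : ℝ × ℝ) :
    KT Θ (Y.map ⟨fun p => p - c, sub_left_injective⟩) := by
  intro z r hr
  refine le_trans (Nat.cast_le.2 ?_) (hX (z + c) r hr)
  refine card_le_card_of_injOn (fun p => p + c) (fun p hp => ?_) fun p _ q _ e => add_right_cancel e
  simp only [coe_filter, Set.mem_ofPred_eq, mem_map, Function.Embedding.coeFn_mk] at hp ⊢
  obtain ⟨⟨q, hq, rfl⟩, a1, a2, a3, a4⟩ := hp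
  simp only [Prod.fst_sub, Prod.snd_sub] at a1 a2 a3 a4
  rw [sub_add_cancel]
  refine ⟨hY hq, ?_, ?_, ?_, ?_⟩ <;> simp only [Prod.fst_add, Prod.snd_add] <;> linarith

open Classical in
lemma one_cube (hDir : DirStmt) {g : Geo} {M : Mo} (hg : g.Ok M) {X : Finset (ℝ × ℝ)}
    {A A' Pi n : ℕ} {lam E Ec th ts s0 Z B : ℝ} {T : Finset Tb} {pk : Tb → Arr}
    {Lt : ℤ × ℤ → ℕ → Finset ℕ} {Pr : Finset ((ℝ × ℝ) × ℕ)} (hX : ∀ p ∈ X, InBox g.R p)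
    (hK : KT 8 X) (hE : 0 < E) (hl : E ≤ g.H * lam) (hP : 1 ≤ Pi) (hPH : (Pi : ℝ) ≤ g.H)
    (hS : Sys g M E Ec s0 T pk) (hL : Light g M X A Pi lam th ts T pk (cube g.ρ) Lt n Pr)
    (hC : Core g.K1 g.H g.ρ A' Z) (hB : 0 ≤ B) (hB2 : g.K1 * (g.D : ℝ) ^ 2 * n * Ec ≤ B ^ 2)
    (ν : ℤ × ℤ) (Y : Finset (ℝ × ℝ)) (hY : Y ⊆ X) (hν : ∀ p ∈ Y, cube g.ρ p = ν)
    (hA : ∀ p ∈ Y, A' ≤ #{q ∈ Pr | q.1 = p}) :
    #Y * (lam / (4 * Pi)) ^ 3 ≤ Z * (261 * B) ^ 3 := by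
  have h := gf hg
  have hρ := h.r0
  have hR : 200 * g.ρ ≤ g.R := h.r1
  have hH := h.H
  have hLL := h.L
  have hQ := h.Q
  have hρ0 : 0 < g.ρ := by linarith
  have hlam : 0 < lam := by
    by_contra hc
    push Not at hc
    nlinarith
  have hP1 : (1 : ℝ) ≤ Pi := by exact_mod_cast hP
  have hEc := hS.pos
  obtain ⟨A0, a1, a2, -, a4⟩ := (hDir (M.L * M.Q) g.ρ hρ0 (by nlinarith)).1 (ν.2 * g.ρ)
  set F : ℕ → Arr := fun i => if #(Lt ν i) ≤ 2 * n then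
    md M (cn g.ρ ν) (vert A0 * ∑ τ ∈ U g M s0 T ν i (Lt ν i), pk τ) else 0 with hF
  have sp : ∀ i, Supp M (∑ τ ∈ U g M s0 T ν i (Lt ν i), pk τ)
      (1 / 4 + i / (2 * g.K1) - 10 / √g.R - 1 / g.ρ)
      (1 / 4 + (i + 1) / (2 * g.K1) + 10 / √g.R + 1 / g.ρ) (8 / g.R) := fun i =>
    supp_sum _ _ fun τ hτ => by
      obtain ⟨b1, b2, -⟩ := mem_U.1 hτ
      have := hS.sp2 τ b1
      rwa [b2] at this
  have key := hC M F (Y.map ⟨fun p => p - cn g.ρ ν, sub_left_injective⟩) (lam / (4 * Pi)) (261 * B)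
    (le_trans (by nlinarith) hg.l1) hg.l2 (le_trans (by nlinarith) hg.q1) hg.q2 (by positivity)
    (by positivity) ?_ ?_ (kt_shift hK hY _) ?_ ?_
  · rwa [card_map] at key
  · intro i _
    simp only [hF]
    split_ifs
    · exact supp_loc h (sp i) a1 _
    · exact supp_zero _ _ _ _
  · intro p hp
    obtain ⟨q, hq, rfl⟩ := mem_map.1 hp
    rw [← hν q hq]
    exact inBox_cn hρ0 q
  · refine (sum_le_card_nsmul _ _ (68000 * ((g.D : ℝ) ^ 2 * n * Ec)) fun i _ => ?_).trans ?_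
    · simp only [hF]
      split_ifs with hn
      · refine (en_loc h (sp i) a2 _).trans ?_
        have b1 := nrm_G h hS ν i (Lt ν i)
        have b2 : (#(Lt ν i) : ℝ) ≤ 2 * n := by exact_mod_cast hn
        have b3 : 100 * (#(Lt ν i) : ℝ) * (g.D : ℝ) ^ 2 * Ec ≤ 100 * (2 * n) * (g.D : ℝ) ^ 2 * Ec := by
          gcongr
        linarith
      · have : en M g.ρ 0 = 0 := by simp [en, nrm]
        rw [this]
        positivity
    · rw [card_range, nsmul_eq_mul]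
      nlinarith [sq_nonneg B]
  · intro p' hp'
    obtain ⟨p, hp, rfl⟩ := mem_map.1 hp'
    refine (hA p hp).trans (card_le_card_of_injOn (fun q => q.2) (fun q hq => ?_) ?_)
    · obtain ⟨b1, b2⟩ := mem_filter.1 (mem_coe.1 hq)
      obtain ⟨-, c1, -, -, c2⟩ := hL
      obtain ⟨-, d1, -, d2⟩ := c2 q b1
      rw [b2, hν p hp] at d1 d2
      refine mem_coe.2 (mem_filter.2 ⟨mem_range.2 (c1 q b1).2, ?_⟩)
      have d3 := val_G h hS hE (hX p (hY hp)) q.2 (Lt ν q.2)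
      rw [hν p hp] at d3
      have d4 : 1 / 2 ≤ ‖ev1 (M.L * M.Q) A0 p.2‖ := by
        refine a4 _ ?_
        obtain ⟨-, -, e1, e2⟩ := inBox_cn hρ0 p
        rw [hν p hp] at e1 e2
        simp only [cn, Prod.snd_sub] at e1 e2
        rw [abs_le]
        constructor <;> linarith
      simp only [hF, if_pos d1, Function.Embedding.coeFn_mk]
      rw [ev_md, add_sub_cancel, ev_vert_mul, norm_mul]
      set x := ‖ev M (∑ τ ∈ U g M s0 T ν q.2 (Lt ν q.2), pk τ) p‖ with hx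
      have x0 : 0 ≤ x := norm_nonneg _
      have d5 : Pi * (E / g.H ^ 22) ≤ lam / 2 := by
        have e1 : (2 : ℝ) ≤ g.H ^ 20 :=
          le_trans (by linarith) (le_self_pow₀ (by linarith : 1 ≤ g.H) (by norm_num))
        calc Pi * (E / g.H ^ 22) ≤ g.H * (g.H * lam / g.H ^ 22) := by gcongr
          _ = lam / g.H ^ 20 := by field_simp
          _ ≤ lam / 2 := by gcongr
      have d6 : lam ≤ Pi * (x + E / g.H ^ 22) :=
        d2.trans (mul_le_mul_of_nonneg_left d3 (by linarith))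
      rw [div_le_iff₀ (by positivity)]
      have d7 : 1 / 2 * (x * (4 * Pi)) ≤ ‖ev1 (M.L * M.Q) A0 p.2‖ * (x * (4 * Pi)) :=
        mul_le_mul_of_nonneg_right d4 (by positivity)
      nlinarith
    · intro q hq q' hq' e
      exact Prod.ext ((mem_filter.1 (mem_coe.1 hq)).2.trans (mem_filter.1 (mem_coe.1 hq')).2.symm) e

open Classical in
lemma markov {X : Finset (ℝ × ℝ)} {A A' Pi : ℕ} {Pr : Finset ((ℝ × ℝ) × ℕ)} (hA : 1 ≤ A)
    (h0 : 2 * Pi * A' ≤ A) (h1 : ∀ q ∈ Pr, q.1 ∈ X) (h2 : ∀ p, #{q ∈ Pr | q.1 = p} ≤ A)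
    (h3 : #X * A ≤ Pi * #Pr) : #X ≤ 2 * Pi * #{p ∈ X | A' ≤ #{q ∈ Pr | q.1 = p}} := by
  have e1 : #Pr = ∑ p ∈ X, #{q ∈ Pr | q.1 = p} :=
    card_eq_sum_card_fiberwise (f := fun q : (ℝ × ℝ) × ℕ => q.1) fun q hq => h1 q hq
  rw [← sum_filter_add_sum_filter_not X fun p => A' ≤ #{q ∈ Pr | q.1 = p}] at e1
  have e2 := sum_le_card_nsmul {p ∈ X | A' ≤ #{q ∈ Pr | q.1 = p}}
    (fun p => #{q ∈ Pr | q.1 = p}) A fun p _ => h2 p
  have e3 := sum_le_card_nsmul {p ∈ X | ¬ A' ≤ #{q ∈ Pr | q.1 = p}}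
    (fun p => #{q ∈ Pr | q.1 = p}) A' fun p hp => (not_le.1 (mem_filter.1 hp).2).le
  have e4 : #{p ∈ X | ¬ A' ≤ #{q ∈ Pr | q.1 = p}} ≤ #X := card_filter_le _ _
  rw [smul_eq_mul] at e2 e3
  set a := #{p ∈ X | A' ≤ #{q ∈ Pr | q.1 = p}}
  have e5 : #Pr ≤ a * A + #X * A' :=
    e1.le.trans (add_le_add e2 (e3.trans (Nat.mul_le_mul_right _ e4)))
  have e6 : Pi * #Pr ≤ Pi * (a * A + #X * A') := Nat.mul_le_mul_left _ e5
  have e7 : #X * (2 * Pi * A') ≤ #X * A := Nat.mul_le_mul_left _ h0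
  refine Nat.le_of_mul_le_mul_right (c := A) ?_ hA
  nlinarith

end SB

open SB in
theorem stepB (hDir : DirStmt) : BStmt := by
  classical
  refine ⟨128 * 261 ^ 3, by norm_num, fun g M hg => ⟨fun E Ec s0 T pk hS => part1 (gf hg) hS, ?_⟩⟩
  intro X A A' Pi n lam E Ec th ts s0 Kc Z B T pk Lt Pr hX hK hE hl hP hPH hA hA' hS hL hKc hZ hC
    hB hB2
  have hH := (gf hg).H
  have hlam : 0 < lam := by
    by_contra hc
    push Not at hc
    nlinarith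
  have hP1 : (1 : ℝ) ≤ Pi := by exact_mod_cast hP
  have m1 := markov hA hA' (fun q hq => (hL.2.1 q hq).1) hL.2.2.1 hL.2.2.2.1
  have c1 := one_cube hDir hg hX hK hE hl hP hPH hS hL hC hB hB2
  set X0 := {p ∈ X | A' ≤ #{q ∈ Pr | q.1 = p}} with hX0
  have m2 : (#X : ℝ) ≤ 2 * Pi * #X0 := by exact_mod_cast m1
  have e1 : #X0 = ∑ ν ∈ X.image (cube g.ρ), #{p ∈ X0 | cube g.ρ p = ν} :=
    card_eq_sum_card_fiberwise fun p hp =>
      mem_coe.2 (mem_image_of_mem _ (mem_filter.1 (mem_coe.1 hp)).1)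
  have e2 : #X0 * (lam / (4 * Pi)) ^ 3 ≤ Kc * (Z * (261 * B) ^ 3) := by
    rw [e1]
    push_cast
    rw [sum_mul]
    refine (sum_le_card_nsmul _ _ (Z * (261 * B) ^ 3) fun ν _ => ?_).trans ?_
    · exact c1 ν _ ((filter_subset _ _).trans (filter_subset _ _))
        (fun p hp => (mem_filter.1 hp).2) fun p hp => (mem_filter.1 (mem_filter.1 hp).1).2
    · rw [nsmul_eq_mul]
      exact mul_le_mul_of_nonneg_right hKc (by positivity)
  calc #X * lam ^ 3 ≤ 2 * Pi * #X0 * lam ^ 3 := by gcongr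
    _ = 128 * (Pi : ℝ) ^ 4 * (#X0 * (lam / (4 * Pi)) ^ 3) := by
        field_simp
        ring
    _ ≤ 128 * (Pi : ℝ) ^ 4 * (Kc * (Z * (261 * B) ^ 3)) := by gcongr
    _ = _ := by ring

end

end Pool.Agent.Lib.MP_108739_an.HA
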