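import Pool.Agent.Lib.MP_108739_an.HA.ADefs
import Pool.Agent.Lib.MP_108739_an.HA.Basic
import Pool.Agent.Lib.MP_108739_an.HA.StepB

/-! Leaf level of the refined decoupling step. -/

namespace Pool.Agent.Lib.MP_108739_an.HA.SA

open Finset

noncomputable section

lemma lf_sq {g : Geo} {M : Mo} (h : SB.GF g M) {F : Arr} {l : ℝ}
    (hF : Supp M F (l * g.δ - 1 / g.ρ) ((l + 1) * g.δ + 1 / g.ρ) (8 / g.R)) (z : ℝ × ℝ) :
    ‖ev M F z‖ ^ 2 ≤ 68 * g.δ * en M g.R F := by
  have hρ := h.r0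
  have hR := h.r1
  have hL := h.L
  have hQ := h.Q
  have hd := h.d0
  have hrd := h.rd
  have hL0 := M.hL
  have hQ0 := M.hQ
  have hρ0 : 0 < g.ρ := by linarith
  have hR0 : 0 < g.R := by linarith
  have hi : 0 < 1 / g.ρ := by positivity
  have h1 := hF.card_le (by linarith) (by positivity)
  have h2 : 1 ≤ g.δ * M.L := by
    have : 1 ≤ 1 / g.ρ * M.L := by
      rw [one_div_mul_eq_div, one_le_div hρ0]
      linarith
    exact this.trans (mul_le_mul_of_nonneg_right hrd hL0.le)
  have h3 : ((l + 1) * g.δ + 1 / g.ρ - (l * g.δ - 1 / g.ρ)) * M.L + 1 ≤ 4 * (g.δ * M.L) := by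
    have := mul_le_mul_of_nonneg_right hrd hL0.le
    nlinarith
  have h4 : 2 * (8 / g.R) * (M.L * M.Q) + 1 ≤ 17 * (M.L * M.Q / g.R) := by
    have e1 : 1 ≤ M.L * M.Q / g.R := (one_le_div hR0).2 (by nlinarith)
    have e2 : 2 * (8 / g.R) * (M.L * M.Q) = 16 * (M.L * M.Q / g.R) := by ring
    linarith
  have h5 := h1.trans (mul_le_mul h3 h4 (by positivity) (by positivity))
  calc ‖ev M F z‖ ^ 2 ≤ #F.coeff.support * nrm F := norm_ev_sq_le M F z
    _ ≤ 4 * (g.δ * M.L) * (17 * (M.L * M.Q / g.R)) * nrm F :=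
        mul_le_mul_of_nonneg_right h5 (nrm_nonneg F)
    _ = _ := by
        unfold en
        ring

theorem leaf : LeafStmt := by
  classical
  refine ⟨8 * 625 * 68 ^ 2, by norm_num, fun g M E Ec s0 T pk hg hE hS i l => ?_⟩
  have h := SB.gf hg
  have hρ := h.r0
  have hR := h.r1
  have hD := h.D
  have hH := h.H
  have hd := h.d0
  have hd1 := h.d1
  have hEc := hS.pos
  have hR0 : 0 < g.R := by linarith
  have sp0 : ∀ τ ∈ {τ ∈ T | τ.1 = i ∧ τ.2.1 = l},
      Supp M (pk τ) (l * g.δ - 1 / g.ρ) ((l + 1) * g.δ + 1 / g.ρ) (8 / g.R) := fun τ hτ => by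
    obtain ⟨a1, -, a3⟩ := mem_filter.1 hτ
    have := hS.sp1 τ a1
    rwa [a3] at this
  have sp : Supp M (gl T pk i l) (l * g.δ - 1 / g.ρ) ((l + 1) * g.δ + 1 / g.ρ) (8 / g.R) :=
    supp_sum sp0
  refine ⟨sp, fun z => ?_, fun z hz => ?_⟩
  · have e1 : en M g.R (gl T pk i l) ≤ E ^ 2 := by
      by_cases hc : i < g.K1 ∧ l < g.D ^ g.ls
      · refine le_trans ?_ hS.tot
        refine le_trans ?_ (single_le_sum (f := fun i => ∑ l ∈ range (g.D ^ g.ls),
          en M g.R (gl T pk i l)) (fun _ _ => sum_nonneg fun _ _ => en_nonneg hR0.le _)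
          (mem_range.2 hc.1))
        exact single_le_sum (f := fun l => en M g.R (gl T pk i l))
          (fun _ _ => en_nonneg hR0.le _) (mem_range.2 hc.2)
      · have : gl T pk i l = 0 := sum_eq_zero fun τ hτ => by
          obtain ⟨a1, a2, a3⟩ := mem_filter.1 hτ
          exact absurd ⟨a2 ▸ (hS.idx τ a1).1, a3 ▸ (hS.idx τ a1).2.1⟩ hc
        rw [this, en_zero]
        positivity
    have e2 := lf_sq h sp z
    have e3 := en_nonneg (M := M) hR0.le (gl T pk i l)
    have e4 : ‖ev M (gl T pk i l) z‖ ≤ 9 * E :=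
      abs_le_of_sq_le_sq' (by nlinarith) (by positivity) |>.2
    linarith
  · set y := z.1 + cs M g.δ l * z.2 with hy
    set x := √(68 * g.δ * Ec) with hx
    have x0 : 0 ≤ x := Real.sqrt_nonneg _
    have x2 : x ^ 2 = 68 * g.δ * Ec := Real.sq_sqrt (by positivity)
    have hs0 : 0 < s0 := by linarith [hS.s0l]
    have key : ‖ev M (gl T pk i l) z‖ ≤ 5 * g.D * x + E / g.H ^ 20 := by
      rw [gl, ev_sum, ← sum_filter_add_sum_filter_not _
        fun τ : Tb => |τ.2.2 * s0 - y| ≤ g.D * g.ρ]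
      refine (norm_add_le _ _).trans (add_le_add ((norm_sum_le _ _).trans ?_)
        ((norm_sum_le _ _).trans ?_))
      · refine (sum_le_card_nsmul _ _ x fun τ hτ => ?_).trans ?_
        · have a1 := (mem_filter.1 hτ).1
          refine Real.le_sqrt_of_sq_le ((lf_sq h (sp0 τ a1) z).trans ?_)
          exact mul_le_mul_of_nonneg_left (hS.enle τ (mem_filter.1 a1).1) (by positivity)
        · rw [nsmul_eq_mul]
          refine mul_le_mul_of_nonneg_right ?_ x0
          rw [← card_image_of_injOn (f := fun τ : Tb => τ.2.2) fun τ hτ τ' hτ' e => by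
            obtain ⟨-, a1, a2⟩ := mem_filter.1 (mem_filter.1 (mem_coe.1 hτ)).1
            obtain ⟨-, b1, b2⟩ := mem_filter.1 (mem_filter.1 (mem_coe.1 hτ')).1
            exact Prod.ext (a1.trans b1.symm) (Prod.ext (a2.trans b2.symm) e)]
          refine (SB.card_int_le _ s0 y (g.D * g.ρ) hs0 (by positivity) ?_).trans ?_
          · intro j hj
            obtain ⟨τ, hτ, rfl⟩ := mem_image.1 hj
            exact (mem_filter.1 hτ).2
          · have : 2 * (g.D * g.ρ) / s0 ≤ 4 * g.D := by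
              rw [div_le_iff₀ hs0]
              nlinarith [hS.s0l]
            linarith
      · refine (sum_le_card_nsmul _ _ (E / g.H ^ 30) fun τ hτ => ?_).trans ?_
        · obtain ⟨a1, a2⟩ := mem_filter.1 hτ
          obtain ⟨b1, -, b3⟩ := mem_filter.1 a1
          refine hS.dec τ b1 z (by rw [b3]; exact hz) ?_
          rw [b3, abs_sub_comm]
          exact (not_le.1 a2).le
        · rw [nsmul_eq_mul]
          refine le_trans (mul_le_mul_of_nonneg_right ((Nat.cast_le.2 (card_le_card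
            ((filter_subset _ _).trans (filter_subset _ _)))).trans hS.card) (by positivity)) ?_
          calc g.H ^ 8 * (E / g.H ^ 30) = E / g.H ^ 22 := by field_simp
            _ ≤ E / g.H ^ 20 := by
              gcongr
              · linarith
              · norm_num
    have e1 : ‖ev M (gl T pk i l) z‖ ^ 4 ≤ (5 * g.D * x + E / g.H ^ 20) ^ 4 := by gcongr
    have e2 := add_pow_le (a := 5 * g.D * x) (b := E / g.H ^ 20) (by positivity) (by positivity) 4
    have e3 : (5 * g.D * x) ^ 4 = 625 * 68 ^ 2 * ((g.D : ℝ) ^ 4 * (g.δ * Ec) ^ 2) := by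
      have : x ^ 4 = (x ^ 2) ^ 2 := by ring
      rw [mul_pow, this, x2]
      ring
    have e4 : (E / g.H ^ 20) ^ 4 = E ^ 4 / g.H ^ 80 := by
      rw [div_pow, ← pow_mul]
    have e5 : 0 ≤ E ^ 4 / g.H ^ 80 := by positivity
    rw [e3, e4] at e2
    norm_num at e2 ⊢
    linarith

end

end Pool.Agent.Lib.MP_108739_an.HA.SA
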