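import Pool.Agent.Lib.MP_108739_an.HA.Basic

/-! Numerical consequences of `Geo.Ok`. -/

namespace Pool.Agent.Lib.MP_108739_an.HA

open Finset

namespace Geo.Ok

variable {g : Geo} {M : Mo}

theorem K1_ge (h : g.Ok M) : (2 : ℝ) ≤ g.K1 := by exact_mod_cast h.hK

theorem K1_le (h : g.Ok M) : 100 * (g.K1 : ℝ) ≤ g.D := by exact_mod_cast h.hD

theorem D_ge (h : g.Ok M) : (200 : ℝ) ≤ g.D := by linarith [h.K1_ge, h.K1_le]

theorem D_le_pow (h : g.Ok M) : (g.D : ℝ) ≤ (g.D : ℝ) ^ g.ls :=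
  le_self_pow₀ (by linarith [h.D_ge]) (by have := h.hl; omega)

theorem pow_pos (h : g.Ok M) : 0 < (g.D : ℝ) ^ g.ls := by have := h.D_ge; positivity

theorem R_pos (h : g.Ok M) : 0 < g.R := by linarith [h.hR]

theorem δ_pos (h : g.Ok M) : 0 < g.δ := one_div_pos.2 h.pow_pos

theorem δ_mul (h : g.Ok M) : g.δ * (g.D : ℝ) ^ g.ls = 1 := one_div_mul_cancel h.pow_pos.ne'

theorem δ_le (h : g.Ok M) : g.δ ≤ 1 / g.D :=
  one_div_le_one_div_of_le (by linarith [h.D_ge]) h.D_le_pow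

theorem δ_le_one (h : g.Ok M) : g.δ ≤ 1 / 200 :=
  h.δ_le.trans (one_div_le_one_div_of_le (by norm_num) h.D_ge)

theorem ρ_eq (g : Geo) : g.ρ = g.δ * g.R := by unfold Geo.ρ Geo.δ; ring

theorem ρ_pos (h : g.Ok M) : 0 < g.ρ := div_pos h.R_pos h.pow_pos

theorem D_mul_ρ_le (h : g.Ok M) : g.D * g.ρ ≤ g.R := by
  rw [Geo.ρ, ← mul_div_assoc, div_le_iff₀ h.pow_pos, mul_comm]
  exact mul_le_mul_of_nonneg_left h.D_le_pow h.R_pos.le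

theorem pow_le_sqrt (h : g.Ok M) : g.D * (g.D : ℝ) ^ g.ls ≤ √g.R := by
  have h1 := h.hρ
  have h2 : 0 < √g.R := Real.sqrt_pos.2 h.R_pos
  rw [Geo.ρ, le_div_iff₀ h.pow_pos] at h1
  have h3 := Real.mul_self_sqrt h.R_pos.le
  refine le_of_mul_le_mul_right ?_ h2
  nlinarith

theorem D_sq_le_sqrt (h : g.Ok M) : (g.D : ℝ) ^ 2 ≤ √g.R := by
  nlinarith [h.pow_le_sqrt, h.D_le_pow, h.D_ge]

theorem D_four_le (h : g.Ok M) : (g.D : ℝ) ^ 4 ≤ g.R := by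
  have h1 := h.D_sq_le_sqrt
  have h3 := Real.mul_self_sqrt h.R_pos.le
  have : (0 : ℝ) ≤ (g.D : ℝ) ^ 2 := by positivity
  nlinarith

theorem R_ge (h : g.Ok M) : (10 : ℝ) ^ 9 ≤ g.R := by
  refine le_trans ?_ h.D_four_le
  refine le_trans (by norm_num) (pow_le_pow_left₀ (by norm_num) h.D_ge 4)

theorem H_ge (h : g.Ok M) : (10 : ℝ) ^ 9 ≤ g.H := h.R_ge.trans h.hH

theorem ρ_sq_ge (h : g.Ok M) : (g.D : ℝ) ^ 2 * g.R ≤ g.ρ ^ 2 := by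
  have h1 := pow_le_pow_left₀ (by positivity) h.hρ 2
  rwa [mul_pow, Real.sq_sqrt h.R_pos.le] at h1

theorem one_le_δρ (h : g.Ok M) : (g.D : ℝ) ^ 2 ≤ g.δ * g.ρ := by
  have h1 := h.ρ_sq_ge
  have : g.ρ ^ 2 = g.δ * g.ρ * g.R := by rw [sq]; nth_rewrite 2 [ρ_eq]; ring
  rw [this] at h1
  exact le_of_mul_le_mul_right h1 h.R_pos

theorem inv_ρ_le (h : g.Ok M) : 1 / g.ρ ≤ g.δ / 200 := by
  rw [div_le_div_iff₀ h.ρ_pos (by norm_num)]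
  nlinarith [h.one_le_δρ, h.D_ge]

theorem ρ_ge (h : g.Ok M) : (200 : ℝ) ≤ g.ρ := by
  have h1 : 1 ≤ √g.R := Real.one_le_sqrt.2 h.hR
  nlinarith [h.hρ, h.D_ge]

theorem pow_le_H (h : g.Ok M) : (g.D : ℝ) ^ g.ls ≤ g.H := by
  have h1 := h.pow_le_sqrt
  have h2 : √g.R ≤ g.R := by
    rw [Real.sqrt_le_left h.R_pos.le]; nlinarith [h.hR]
  nlinarith [h.D_ge, h.pow_pos, h.hH]

theorem L_ge (h : g.Ok M) : 10 ^ 9 * g.R ≤ M.L := by nlinarith [h.l1, h.H_ge, h.R_pos]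

theorem Q_ge (h : g.Ok M) : 10 ^ 9 * g.R ≤ M.Q := by nlinarith [h.q1, h.H_ge, h.R_pos]

theorem leaf_lt (h : g.Ok M) {l : ℕ} (hl : l < g.D ^ g.ls) : (l + 1) * g.δ ≤ 1 := by
  have : (l : ℝ) + 1 ≤ (g.D : ℝ) ^ g.ls := by exact_mod_cast hl
  have h2 := mul_le_mul_of_nonneg_right this h.δ_pos.le
  linarith [h.δ_mul]

theorem cs_leaf (h : g.Ok M) {l : ℕ} (hl : l < g.D ^ g.ls) : |cs M g.δ l| ≤ 6 := by
  have h1 := h.leaf_lt hl
  have h2 := h.δ_pos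
  refine cs_le M h2.le (by linarith [h.δ_le_one]) ?_ (by linarith [h.L_ge, h.hR])
    (by linarith [h.Q_ge, h.hR])
  push_cast
  rw [abs_of_nonneg (by positivity)]
  nlinarith

theorem cs_sep_of_le (h : g.Ok M) {s : ℝ} (hs : 1 / g.R ≤ s) (l l' : ℤ) :
    |(l : ℝ) - l'| * s / 2 ≤ |cs M s l - cs M s l'| := by
  have h1 : 1 ≤ s * g.R := (div_le_iff₀ h.R_pos).1 hs
  have h0 : 0 ≤ s := (one_div_pos.2 h.R_pos).le.trans hs
  refine cs_sep M h0 ?_ ?_ l l'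
  · nlinarith [mul_le_mul_of_nonneg_left h.L_ge h0]
  · nlinarith [mul_le_mul_of_nonneg_left h.Q_ge h0]

theorem inv_R_le (h : g.Ok M) : 1 / g.R ≤ g.δ := by
  rw [div_le_iff₀ h.R_pos, ← ρ_eq]; linarith [h.ρ_ge]

/-- The tilted coordinate of a point of the box is far inside one period. -/
theorem tilt_small (h : g.Ok M) {p : ℝ × ℝ} (hp : InBox g.R p) {c : ℝ} (hc : |c| ≤ 6) :
    |p.1 + c * p.2| ≤ 7 * g.R := by
  obtain ⟨h1, h2, h3, h4⟩ := hp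
  have h5 : |c * p.2| ≤ 6 * g.R := by
    rw [abs_mul, abs_of_nonneg h3]
    exact mul_le_mul hc h4.le h3 (by norm_num)
  have := abs_add_le p.1 (c * p.2)
  rw [abs_of_nonneg h1] at this
  linarith [h.R_pos]

end Geo.Ok

end Pool.Agent.Lib.MP_108739_an.HA
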