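import Pool.Agent.Lib.MP_108739_an.HA.ADefs
import Pool.Agent.Lib.MP_108739_an.HA.Geo

/-! Refined decoupling along the tree of boxes: one step of the recursion and the leaves. -/

namespace Pool.Agent.Lib.MP_108739_an.HA

open Finset

noncomputable section

namespace SA

theorem nrm_one : nrm (1 : Arr) = 1 := by
  rw [nrm_eq_sum (s := {0}) (by
    rw [AddMonoidAlgebra.one_def, AddMonoidAlgebra.coeff_single]
    exact Finsupp.support_single_subset)]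
  simp [AddMonoidAlgebra.one_def]

theorem cube_wt (s : Finset ℕ) (w N : ℕ → ℝ) (hw : ∀ r ∈ s, 0 ≤ w r) (hN : ∀ r ∈ s, 0 ≤ N r)
    (h0 : ∀ r ∈ s, N r = 0 → w r = 0) :
    (∑ r ∈ s, w r) ^ 3 / (∑ r ∈ s, N r) ^ 2 ≤ ∑ r ∈ s, w r ^ 3 / N r ^ 2 := by
  have hS : 0 ≤ ∑ r ∈ s, N r := sum_nonneg hN
  rcases hS.eq_or_lt with h | h
  · rw [← h]
    simp only [ne_eq, OfNat.ofNat_ne_zero, not_false_eq_true, zero_pow, div_zero]
    exact sum_nonneg fun r hr => div_nonneg (pow_nonneg (hw r hr) 3) (sq_nonneg _)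
  set t := (∑ r ∈ s, w r) / ∑ r ∈ s, N r with ht
  have ht0 : 0 ≤ t := div_nonneg (sum_nonneg hw) hS
  have key : ∀ r ∈ s, 3 * t ^ 2 * w r - 2 * t ^ 3 * N r ≤ w r ^ 3 / N r ^ 2 := fun r hr => by
    rcases (hN r hr).eq_or_lt with h1 | h1
    · rw [h0 r hr h1.symm, ← h1]; simp
    · rw [le_div_iff₀ (by positivity)]
      have := mul_nonneg (sq_nonneg (w r - t * N r))
        (add_nonneg (hw r hr) (mul_nonneg (mul_nonneg zero_le_two ht0) h1.le))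
      nlinarith [this]
  refine le_trans (le_of_eq ?_) (sum_le_sum key)
  rw [sum_sub_distrib, ← mul_sum, ← mul_sum, ht]
  field_simp
  ring

theorem dec_wt {n : ℕ} {Dd : ℝ} (hD : Dec n Dd) (hD0 : 0 ≤ Dd) (M : Mo) (a s : ℝ) (hs : 0 < s)
    (F : ℕ → Arr) (N : ℕ → ℝ) (hN : ∀ r < n, 0 ≤ N r) (h0 : ∀ r < n, N r = 0 → F r = 0)
    (hF : ∀ r < n, Cap M (F r) (a + r * s) s) :
    nrm ((∑ r ∈ range n, F r) ^ 3) / (∑ r ∈ range n, N r) ^ 2 ≤
      Dd * ∑ r ∈ range n, nrm (F r ^ 3) / N r ^ 2 := by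
  set w : ℕ → ℝ := fun r => nrm (F r ^ 3) ^ ((3 : ℕ) : ℝ)⁻¹ with hw
  have w0 : ∀ r, 0 ≤ w r := fun r => Real.rpow_nonneg (nrm_nonneg _) _
  have w3 : ∀ r, w r ^ 3 = nrm (F r ^ 3) := fun r =>
    Real.rpow_inv_natCast_pow (nrm_nonneg _) (by norm_num)
  have h1 := hD M a s F w hs hF fun r _ => ⟨w0 r, (w3 r).ge⟩
  have h2 := cube_wt (range n) w N (fun r _ => w0 r) (fun r hr => hN r (mem_range.1 hr))
    fun r hr h => by
      have : w r ^ 3 = 0 := by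
        rw [w3, h0 r (mem_range.1 hr) h, zero_pow (by norm_num), nrm_zero]
      exact pow_eq_zero_iff (by norm_num) |>.1 this
  simp only [w3] at h2
  refine le_trans (div_le_div_of_nonneg_right h1 (sq_nonneg _)) ?_
  rw [mul_div_assoc]
  exact mul_le_mul_of_nonneg_left h2 hD0

/-- A family of bumps of bounded overlap against one function. -/
theorem fam {ι : Type*} (M : Mo) (S : Finset ι) (V : ι → Arr) (G G' : Arr) (P : ι → ℝ × ℝ → Prop)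
    (c η b K : ℝ) (hη : 0 ≤ η) (hc : 0 ≤ c) (hb : ∀ z, ‖ev M G z‖ ≤ b)
    (h1 : ∀ ν ∈ S, ∀ z, ‖ev M (V ν) z‖ ≤ 1)
    (h2 : ∀ ν ∈ S, ∀ z : ℝ × ℝ, |z.1| ≤ M.L / 2 → |z.2| ≤ M.L * M.Q / 2 → ¬ P ν z →
      ‖ev M (V ν) z‖ ≤ η)
    (h3 : ∀ z, ∀ S' ⊆ S, (∀ ν ∈ S', P ν z) → (#S' : ℝ) ≤ K)
    (h4 : ∀ ν ∈ S, ∀ z, P ν z → ‖ev M G z‖ ^ 6 ≤ c * ‖ev M G' z‖ ^ 2) :
    ∑ ν ∈ S, nrm ((V ν * G) ^ 3) ≤ K * c * nrm G' + #S * η ^ 6 * b ^ 6 := by
  classical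
  have := transfer M S (univ : Finset Bool) (fun ν => (V ν * G) ^ 3)
    (fun j => if j then G' else 1) (fun j => if j then K * c else #S * η ^ 6 * b ^ 6)
    fun z hz1 hz2 => by
      simp only [Fintype.univ_bool, mem_singleton, Bool.true_eq_false, not_false_eq_true,
        sum_insert, sum_singleton, if_true, Bool.false_eq_true, if_false, ev_one, norm_one, one_pow,
        mul_one, ev_pow, ev_mul, norm_pow, norm_mul]
      rw [← sum_filter_add_sum_filter_not S fun ν => P ν z]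
      have hG0 := norm_nonneg (ev M G z)
      refine add_le_add ?_ ?_
      · have hcz : 0 ≤ c * ‖ev M G' z‖ ^ 2 := by positivity
        calc ∑ ν ∈ S with P ν z, ((‖ev M (V ν) z‖ * ‖ev M G z‖) ^ 3) ^ 2
            ≤ ∑ ν ∈ S with P ν z, c * ‖ev M G' z‖ ^ 2 := sum_le_sum fun ν hν => by
              obtain ⟨hν1, hν2⟩ := mem_filter.1 hν
              refine le_trans ?_ (h4 ν hν1 z hν2)
              rw [← pow_mul]
              exact pow_le_pow_left₀ (by positivity)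
                (mul_le_of_le_one_left hG0 (h1 ν hν1 z)) 6
          _ ≤ _ := by
              rw [sum_const, nsmul_eq_mul, mul_assoc]
              exact mul_le_mul_of_nonneg_right
                (h3 z _ (filter_subset _ _) fun ν hν => (mem_filter.1 hν).2) hcz
      · calc ∑ ν ∈ S with ¬ P ν z, ((‖ev M (V ν) z‖ * ‖ev M G z‖) ^ 3) ^ 2
            ≤ ∑ ν ∈ S with ¬ P ν z, η ^ 6 * b ^ 6 := sum_le_sum fun ν hν => by
              obtain ⟨hν1, hν2⟩ := mem_filter.1 hν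
              rw [← pow_mul, ← mul_pow]
              exact pow_le_pow_left₀ (by positivity)
                (mul_le_mul (h2 ν hν1 z hz1 hz2 hν2) (hb z) hG0 hη) 6
          _ ≤ _ := by
              rw [sum_const, nsmul_eq_mul, mul_assoc]
              have hb0 : 0 ≤ b := hG0.trans (hb z)
              exact mul_le_mul_of_nonneg_right (by exact_mod_cast card_filter_le _ _)
                (by positivity)
  simpa [nrm_one] using this

section tree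

variable (g : Geo) (M : Mo) (s0 : ℝ) (T : Finset Tb) (pk : Tb → Arr)
  (Sel : ℕ → ℕ → Finset ℕ → Finset ℕ) (i : ℕ)

abbrev Nd := ℕ × ℤ × ℤ

def Lf (h : ℕ) (ν : Nd) : Finset ℕ := Sel h ν.1 (Sn g M s0 T i h ν.1 ν.2)

def Gn (h : ℕ) (ν : Nd) : Arr := ∑ l ∈ Lf g M s0 T Sel i h ν, gl T pk i l

def cn (h : ℕ) (ν : Nd) (r : ℕ) : Nd := (g.D * ν.1 + r, ch g M h ν.1 (g.D * ν.1 + r) ν.2)

open Classical in
def Nn (h : ℕ) : Finset Nd :=
  {ν ∈ range (g.D ^ g.ls) ×ˢ Icc (-⌈g.H⌉) ⌈g.H⌉ ×ˢ Icc (-⌈g.H⌉) ⌈g.H⌉ | Good g M h ν.1 ν.2}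

variable {g M s0 T pk Sel i}

theorem mem_Nn (hG : GeoStmt) (ok : g.Ok M) (hH : 100 * 9 ^ g.ls * (g.D : ℝ) ^ 5 ≤ g.H) {h : ℕ}
    {ν : Nd} : ν ∈ Nn g M h ↔ Good g M h ν.1 ν.2 := by
  classical
  refine ⟨fun hν => (mem_filter.1 hν).2, fun hν => mem_filter.2 ⟨?_, hν⟩⟩
  obtain ⟨h1, h2, -⟩ := (hG g M ok).2.2.2.2.2 h ν.1 ν.2 hH hν
  have hD : 0 < g.D := by have := ok.hD; have := ok.hK; omega
  have aux : ∀ u : ℤ, |(u : ℝ)| ≤ g.H → u ∈ Icc (-⌈g.H⌉) ⌈g.H⌉ := fun u hu => by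
    have h3 : |u| ≤ ⌈g.H⌉ := by exact_mod_cast hu.trans (Int.le_ceil g.H)
    exact mem_Icc.2 (abs_le.1 h3)
  exact mem_product.2 ⟨mem_range.2 (hν.2.1.trans_le (Nat.pow_le_pow_right hD (Nat.sub_le _ _))),
    mem_product.2 ⟨aux _ h1, aux _ h2⟩⟩

theorem card_Nn (ok : g.Ok M) (h : ℕ) : (#(Nn g M h) : ℝ) ≤ g.H ^ 4 := by
  classical
  have hH := ok.H_ge
  have h1 : (#(Icc (-⌈g.H⌉) ⌈g.H⌉) : ℝ) ≤ 3 * g.H := by
    refine (card_int_le _ (-(g.H + 1)) (g.H + 1) (by linarith) fun n hn => ?_).trans (by linarith)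
    obtain ⟨h2, h3⟩ := mem_Icc.1 hn
    have h4 := (Int.ceil_lt_add_one g.H).le
    have h5 : ((-⌈g.H⌉ : ℤ) : ℝ) ≤ n := by exact_mod_cast h2
    have h6 : (n : ℝ) ≤ (⌈g.H⌉ : ℤ) := by exact_mod_cast h3
    push_cast at h5
    constructor <;> linarith
  have h2 : #(Nn g M h) ≤ g.D ^ g.ls * (#(Icc (-⌈g.H⌉) ⌈g.H⌉) * #(Icc (-⌈g.H⌉) ⌈g.H⌉)) := by
    refine (card_filter_le _ _).trans (le_of_eq ?_)
    rw [card_product, card_product, card_range]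
  have h3 : (#(Nn g M h) : ℝ) ≤
      (g.D : ℝ) ^ g.ls * (#(Icc (-⌈g.H⌉) ⌈g.H⌉) * #(Icc (-⌈g.H⌉) ⌈g.H⌉)) := by exact_mod_cast h2
  refine h3.trans ?_
  calc _ ≤ g.H * (3 * g.H * (3 * g.H)) := by gcongr; exact ok.pow_le_H
    _ = 9 * g.H ^ 3 := by ring
    _ ≤ g.H * g.H ^ 3 := by gcongr; linarith
    _ = _ := by ring

theorem good_cn (hG : GeoStmt) (ok : g.Ok M) {h r : ℕ} {ν : Nd} (hν : Good g M (h + 1) ν.1 ν.2)
    (hr : r < g.D) : Good g M h (cn g M h ν r).1 (cn g M h ν r).2 := by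
  obtain ⟨h1, h2, p, hp, h3⟩ := hν
  refine ⟨by omega, ?_, p, hp, (hG g M ok).2.1 h ν.1 r ν.2 p (by omega) hr ?_⟩
  · have : g.ls - h = g.ls - (h + 1) + 1 := by omega
    rw [this, pow_succ]
    simp only [cn]
    nlinarith
  · have hW : 0 ≤ Wd g := mul_nonneg (Nat.cast_nonneg _) ok.ρ_pos.le
    have hs : 0 ≤ Wd g / sg g (h + 1) :=
      div_nonneg hW (mul_nonneg ok.δ_pos.le (by positivity))
    exact ⟨h3.1.trans (by nlinarith), h3.2.trans (by nlinarith)⟩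

theorem mem_Lf (hS : Hier g.D Sel) {h : ℕ} {ν : Nd} {l : ℕ}
    (hl : l ∈ Lf g M s0 T Sel i h ν) : l < g.D ^ g.ls ∧ l / g.D ^ h = ν.1 := by
  classical
  have := hS.subset h ν.1 _ hl
  obtain ⟨h1, h2⟩ := mem_filter.1 this
  exact ⟨mem_range.1 (mem_filter.1 h1).1, h2⟩

theorem Lf_succ (hG : GeoStmt) (ok : g.Ok M) (hS : Hier g.D Sel) (h : ℕ) (ν : Nd) :
    Lf g M s0 T Sel i (h + 1) ν = ∅ ∨ Lf g M s0 T Sel i (h + 1) ν =
      (range g.D).biUnion fun r => Lf g M s0 T Sel i h (cn g M h ν r) := by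
  rcases hS.2.1 h ν.1 (Sn g M s0 T i (h + 1) ν.1 ν.2) with h1 | h1
  · exact Or.inl h1
  · refine Or.inr (h1.trans (biUnion_congr rfl fun r hr => ?_))
    exact hS.2.2 _ _ _ _ ((hG g M ok).2.2.2.1 s0 T i h ν.1 r ν.2 (mem_range.1 hr))

theorem Lf_disj (hS : Hier g.D Sel) (h : ℕ) (ν : Nd) :
    (↑(range g.D) : Set ℕ).PairwiseDisjoint fun r => Lf g M s0 T Sel i h (cn g M h ν r) :=
  fun r _ r' _ hr => disjoint_left.2 fun l h1 h2 => hr (by
    have := (mem_Lf hS h1).2.symm.trans (mem_Lf hS h2).2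
    simp only [cn] at this
    omega)

theorem supp_Gn (ok : g.Ok M) (hS : Hier g.D Sel)
    (hl : ∀ l : ℕ, Supp M (gl T pk i l) (l * g.δ - 1 / g.ρ) ((l + 1) * g.δ + 1 / g.ρ) (8 / g.R))
    (h : ℕ) (ν : Nd) : Supp M (Gn g M s0 T pk Sel i h ν) (ν.1 * sg g h - 1 / g.ρ)
      ((ν.1 + 1) * sg g h + 1 / g.ρ) (8 / g.R) := by
  refine supp_sum fun l hl' => (hl l).mono ?_ ?_ le_rfl
  all_goals
    have hD : 0 < g.D ^ h := pow_pos (by have := ok.hD; have := ok.hK; omega) h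
    have h1 := (mem_Lf hS hl').2
    have h2 : ν.1 * g.D ^ h ≤ l := by rw [← h1]; exact Nat.div_mul_le_self _ _
    have h3 : l + 1 ≤ (ν.1 + 1) * g.D ^ h := by
      rw [← h1, mul_comm]; exact Nat.lt_mul_div_succ l hD
    have h4 : (ν.1 : ℝ) * (g.D : ℝ) ^ h ≤ l := by exact_mod_cast h2
    have h5 : (l : ℝ) + 1 ≤ (ν.1 + 1) * (g.D : ℝ) ^ h := by exact_mod_cast h3
    have h6 := ok.δ_pos
    unfold sg
    nlinarith

theorem norm_Gn (ok : g.Ok M) (hS : Hier g.D Sel) {b : ℝ} (hb0 : 0 ≤ b)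
    (hb : ∀ l z, ‖ev M (gl T pk i l) z‖ ≤ b) (h : ℕ) (ν : Nd) (z : ℝ × ℝ) :
    ‖ev M (Gn g M s0 T pk Sel i h ν) z‖ ≤ g.H * b := by
  rw [Gn, ev_sum]
  refine (norm_sum_le _ _).trans ((sum_le_card_nsmul _ _ b fun l _ => hb l z).trans ?_)
  rw [nsmul_eq_mul]
  refine mul_le_mul_of_nonneg_right (le_trans ?_ ok.pow_le_H) hb0
  have : #(Lf g M s0 T Sel i h ν) ≤ #(range (g.D ^ g.ls)) :=
    card_le_card fun l hl => mem_range.2 (mem_Lf hS hl).1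
  rw [card_range] at this
  exact_mod_cast this

def Ps (g : Geo) (M : Mo) (s0 : ℝ) (T : Finset Tb) (pk : Tb → Arr)
    (Sel : ℕ → ℕ → Finset ℕ → Finset ℕ) (i : ℕ) (V : ℕ → Nd → Arr) (h : ℕ) : ℝ :=
  ∑ ν ∈ Nn g M h, nrm ((V h ν * Gn g M s0 T pk Sel i h ν) ^ 3) /
    (#(Lf g M s0 T Sel i h ν) : ℝ) ^ 2

theorem sg_pos4 (ok : g.Ok M) (h : ℕ) : 0 < sg g h :=
  mul_pos ok.δ_pos (pow_pos (by linarith [ok.D_ge]) h)

theorem inv_ρ_le_sg (ok : g.Ok M) (h : ℕ) : 1 / g.ρ ≤ sg g h := by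
  have h1 : (1 : ℝ) ≤ (g.D : ℝ) ^ h := one_le_pow₀ (by linarith [ok.D_ge])
  have h2 := ok.inv_ρ_le
  have h3 := ok.δ_pos
  unfold sg
  nlinarith

theorem rad_bd (h : ℕ) : 1 ≤ rad g h ∧ rad g h ≤ 9 ^ g.ls :=
  ⟨one_le_pow₀ (by norm_num), pow_le_pow_right₀ (by norm_num) (Nat.sub_le _ _)⟩

theorem ov_le (h : ℕ) : (2 * (rad g h + 1) + 1) ^ 2 ≤ 25 * 81 ^ g.ls := by
  obtain ⟨h1, h2⟩ := rad_bd (g := g) h
  calc _ ≤ (5 * (9 : ℝ) ^ g.ls) ^ 2 := by gcongr; linarith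
    _ = _ := by rw [mul_pow, ← pow_mul, mul_comm g.ls, pow_mul]; norm_num

theorem div_card_le {x : ℝ} (hx : 0 ≤ x) (n : ℕ) : x / (n : ℝ) ^ 2 ≤ x := by
  rcases Nat.eq_zero_or_pos n with h | h
  · simp [h, hx]
  · exact div_le_self hx (one_le_pow₀ (by exact_mod_cast h))

theorem node_dec (hG : GeoStmt) (ok : g.Ok M) (hS : Hier g.D Sel)
    (hl : ∀ l : ℕ, Supp M (gl T pk i l) (l * g.δ - 1 / g.ρ) ((l + 1) * g.δ + 1 / g.ρ) (8 / g.R))
    {Dd : ℝ} (hD : Dec g.D Dd) (hD0 : 0 ≤ Dd) {h : ℕ} {ν : Nd} {W : Arr}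
    (hW : VOk g M (h + 1) ν.1 ν.2 W) :
    nrm ((W * Gn g M s0 T pk Sel i (h + 1) ν) ^ 3) / (#(Lf g M s0 T Sel i (h + 1) ν) : ℝ) ^ 2 ≤
      Dd * ∑ r ∈ range g.D, nrm ((W * Gn g M s0 T pk Sel i h (cn g M h ν r)) ^ 3) /
        (#(Lf g M s0 T Sel i h (cn g M h ν r)) : ℝ) ^ 2 := by
  rcases Lf_succ (s0 := s0) (T := T) (i := i) hG ok hS h ν with h1 | h1
  · rw [h1]
    simp only [card_empty, Nat.cast_zero, ne_eq, OfNat.ofNat_ne_zero, not_false_eq_true, zero_pow,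
      div_zero]
    exact mul_nonneg hD0 (sum_nonneg fun r _ => div_nonneg (nrm_nonneg _) (sq_nonneg _))
  have hd := Lf_disj (M := M) (s0 := s0) (T := T) (i := i) hS h ν
  have h2 : W * Gn g M s0 T pk Sel i (h + 1) ν =
      ∑ r ∈ range g.D, W * Gn g M s0 T pk Sel i h (cn g M h ν r) := by
    rw [Gn, h1, sum_biUnion hd, mul_sum]
    rfl
  have h3 : (#(Lf g M s0 T Sel i (h + 1) ν) : ℝ) =
      ∑ r ∈ range g.D, (#(Lf g M s0 T Sel i h (cn g M h ν r)) : ℝ) := by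
    rw [h1, card_biUnion hd]
    push_cast
    rfl
  rw [h2, h3]
  have hs := sg_pos4 ok h
  have hρ := inv_ρ_le_sg ok h
  have hDp : (0 : ℝ) < g.D := by linarith [ok.D_ge]
  have hsg : sg g (h + 1) = g.D * sg g h := by unfold sg; ring
  refine dec_wt hD hD0 M (g.D * ν.1 * sg g h) (sg g h) hs _ _ (fun _ _ => Nat.cast_nonneg _)
    (fun r _ h0 => ?_) fun r hr => ?_
  · have : Lf g M s0 T Sel i h (cn g M h ν r) = ∅ := card_eq_zero.1 (by exact_mod_cast h0)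
    rw [Gn, this, sum_empty, mul_zero]
  · have h4 := supp_Gn (s0 := s0) ok hS hl h (cn g M h ν r)
    have h5 : (((cn g M h ν r).1 : ℕ) : ℝ) = g.D * ν.1 + r := by simp [cn]
    rw [h5] at h4
    have h6 : (r : ℝ) + 1 ≤ g.D := by exact_mod_cast hr
    have h7 : (0 : ℝ) ≤ r := Nat.cast_nonneg _
    have h8 := hW.sup (by omega) _ _ _ (by rw [hsg]; nlinarith) (by rw [hsg]; nlinarith) h4
    refine h8.mono (by nlinarith) (by nlinarith) (le_of_eq ?_)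
    rw [hsg, mul_div_cancel_left₀ _ hDp.ne']

theorem step (hG : GeoStmt) (ok : g.Ok M) (hH : 100 * 9 ^ g.ls * (g.D : ℝ) ^ 5 ≤ g.H)
    (hS : Hier g.D Sel)
    (hl : ∀ l : ℕ, Supp M (gl T pk i l) (l * g.δ - 1 / g.ρ) ((l + 1) * g.δ + 1 / g.ρ) (8 / g.R))
    {b : ℝ} (hb0 : 0 ≤ b) (hb : ∀ l z, ‖ev M (gl T pk i l) z‖ ≤ b)
    {Dd : ℝ} (hD : Dec g.D Dd) (hD0 : 0 ≤ Dd) {V : ℕ → Nd → Arr}
    (hV : ∀ h ν, Good g M h ν.1 ν.2 → VOk g M h ν.1 ν.2 (V h ν)) (h : ℕ) :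
    Ps g M s0 T pk Sel i V (h + 1) ≤
      Dd * (1600 * 81 ^ g.ls * Ps g M s0 T pk Sel i V h + b ^ 6 / g.H ^ 1000) := by
  classical
  have hH1 : 1 ≤ g.H := by linarith [ok.H_ge]
  have hDn : 0 < g.D := by have := ok.hD; have := ok.hK; omega
  set S := Nn g M (h + 1) ×ˢ range g.D with hSd
  have cS : (#S : ℝ) ≤ g.H ^ 5 := by
    rw [hSd, card_product, card_range, pow_succ]
    push_cast
    exact mul_le_mul (card_Nn ok _) (ok.D_le_pow.trans ok.pow_le_H) (Nat.cast_nonneg _)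
      (by positivity)
  have mS : ∀ q ∈ S, Good g M (h + 1) q.1.1 q.1.2 ∧ q.2 < g.D := fun q hq =>
    ⟨(mem_Nn hG ok hH).1 (mem_product.1 hq).1, mem_range.1 (mem_product.1 hq).2⟩
  have fib : ∀ ν' ∈ Nn g M h, ∑ q ∈ S with cn g M h q.1 q.2 = ν',
      nrm ((V (h + 1) q.1 * Gn g M s0 T pk Sel i h ν') ^ 3) ≤
      25 * 81 ^ g.ls * 64 * nrm ((V h ν' * Gn g M s0 T pk Sel i h ν') ^ 3) +
        g.H ^ 5 * (1 / g.H ^ 180) ^ 6 * (g.H * b) ^ 6 := fun ν' hν' => by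
    have hν := (mem_Nn hG ok hH).1 hν'
    refine (fam M _ (fun q : Nd × ℕ => V (h + 1) q.1) _ ((V h ν' * Gn g M s0 T pk Sel i h ν') ^ 3)
      (fun q z => Nr g M (rad g (h + 1) + 1) (h + 1) q.1.1 q.1.2 z) 64 (1 / g.H ^ 180) (g.H * b)
      (25 * 81 ^ g.ls) (by positivity) (by norm_num) (norm_Gn ok hS hb0 hb h ν')
      (fun q hq => (hV _ _ (mS q (mem_filter.1 hq).1).1).le1)
      (fun q hq => (hV _ _ (mS q (mem_filter.1 hq).1).1).sml) (fun z S' hS' hP => ?_)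
      fun q hq z hz => ?_).trans ?_
    · have key : ∀ q ∈ S', q.1.1 = ν'.1 / g.D ∧ q.2 = ν'.1 % g.D := fun q hq => by
        obtain ⟨h1, h2⟩ := mem_filter.1 (hS' hq)
        have h3 := (mS q h1).2
        rw [← h2]
        simp only [cn]
        exact ⟨by rw [Nat.mul_add_div hDn, Nat.div_eq_of_lt h3, add_zero],
          by rw [Nat.mul_add_mod, Nat.mod_eq_of_lt h3]⟩
      have inj : Set.InjOn (fun q : Nd × ℕ => q.1.2) S' := fun q hq q' hq' e =>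
        Prod.ext (Prod.ext ((key q hq).1.trans (key q' hq').1.symm) e)
          ((key q hq).2.trans (key q' hq').2.symm)
      have h1 := (hG g M ok).2.2.2.2.1 (rad g (h + 1) + 1) (h + 1) (ν'.1 / g.D)
        (S'.image fun q => q.1.2) z (by linarith [(rad_bd (g := g) (h + 1)).1])
      rw [filter_true_of_mem (fun μ hμ => by
        obtain ⟨q, hq, rfl⟩ := mem_image.1 hμ
        rw [← (key q hq).1]
        exact hP q hq), card_image_of_injOn inj] at h1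
      exact h1.trans (ov_le _)
    · obtain ⟨h1, h2⟩ := mem_filter.1 hq
      have h3 := (hG g M ok).2.1 h q.1.1 q.2 q.1.2 z (mS q h1).1.1 (mS q h1).2 hz
      have h4 := (hV h ν' hν).big z (by rw [← h2]; exact h3)
      rw [ev_pow, ev_mul, norm_pow, norm_mul, ← pow_mul]
      calc _ = 64 * (1 / 2 * ‖ev M (Gn g M s0 T pk Sel i h ν') z‖) ^ 6 := by ring
        _ ≤ _ := by gcongr
    · gcongr
      exact le_trans (by exact_mod_cast card_filter_le _ _) cS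
  calc Ps g M s0 T pk Sel i V (h + 1)
      ≤ ∑ ν ∈ Nn g M (h + 1), Dd * ∑ r ∈ range g.D,
          nrm ((V (h + 1) ν * Gn g M s0 T pk Sel i h (cn g M h ν r)) ^ 3) /
            (#(Lf g M s0 T Sel i h (cn g M h ν r)) : ℝ) ^ 2 :=
        sum_le_sum fun ν hν => node_dec hG ok hS hl hD hD0 (hV _ _ ((mem_Nn hG ok hH).1 hν))
    _ = Dd * ∑ ν' ∈ Nn g M h, ∑ q ∈ S with cn g M h q.1 q.2 = ν',
          nrm ((V (h + 1) q.1 * Gn g M s0 T pk Sel i h (cn g M h q.1 q.2)) ^ 3) /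
            (#(Lf g M s0 T Sel i h (cn g M h q.1 q.2)) : ℝ) ^ 2 := by
        rw [← mul_sum, sum_fiberwise_of_maps_to fun q hq =>
          (mem_Nn hG ok hH).2 (good_cn hG ok (mS q hq).1 (mS q hq).2), hSd, sum_product]
    _ ≤ Dd * ∑ ν' ∈ Nn g M h, (1600 * 81 ^ g.ls * (nrm ((V h ν' * Gn g M s0 T pk Sel i h ν') ^ 3) /
          (#(Lf g M s0 T Sel i h ν') : ℝ) ^ 2) + g.H ^ 5 * (1 / g.H ^ 180) ^ 6 * (g.H * b) ^ 6) := by
        refine mul_le_mul_of_nonneg_left (sum_le_sum fun ν' hν' => ?_) hD0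
        rw [sum_congr rfl fun q hq => by rw [(mem_filter.1 hq).2], ← sum_div]
        refine (div_le_div_of_nonneg_right (fib ν' hν') (sq_nonneg _)).trans ?_
        rw [add_div]
        exact add_le_add (le_of_eq (by ring)) (div_card_le (by positivity) _)
    _ ≤ _ := by
        refine mul_le_mul_of_nonneg_left ?_ hD0
        rw [sum_add_distrib, ← mul_sum, sum_const, nsmul_eq_mul]
        refine add_le_add le_rfl ?_
        calc _ ≤ g.H ^ 4 * (g.H ^ 5 * (1 / g.H ^ 180) ^ 6 * (g.H * b) ^ 6) := by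
              gcongr; exact card_Nn ok h
          _ = b ^ 6 / g.H ^ 1065 := by field_simp
          _ ≤ _ := by gcongr; norm_num

theorem base (hG : GeoStmt) (ok : g.Ok M) (hH : 100 * 9 ^ g.ls * (g.D : ℝ) ^ 5 ≤ g.H)
    (hS : Hier g.D Sel) {b c : ℝ} (hb : ∀ l z, ‖ev M (gl T pk i l) z‖ ≤ b) (hc0 : 0 ≤ c)
    (hc : ∀ (l : ℕ) (z : ℝ × ℝ), |z.1 + cs M g.δ l * z.2| ≤ M.L / 4 →
      ‖ev M (gl T pk i l) z‖ ^ 4 ≤ c) {V : ℕ → Nd → Arr}
    (hV : ∀ h ν, Good g M h ν.1 ν.2 → VOk g M h ν.1 ν.2 (V h ν)) :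
    Ps g M s0 T pk Sel i V 0 ≤
      25 * 81 ^ g.ls * c * ∑ l ∈ range (g.D ^ g.ls), nrm (gl T pk i l) + b ^ 6 / g.H ^ 1000 := by
  classical
  have hH1 : 1 ≤ g.H := by linarith [ok.H_ge]
  have mS : ∀ ν ∈ Nn g M 0, Good g M 0 ν.1 ν.2 := fun ν hν => (mem_Nn hG ok hH).1 hν
  have fib : ∀ l : ℕ, ∑ ν ∈ Nn g M 0 with ν.1 = l, nrm ((V 0 ν * gl T pk i l) ^ 3) ≤
      25 * 81 ^ g.ls * c * nrm (gl T pk i l) + g.H ^ 4 * (1 / g.H ^ 180) ^ 6 * b ^ 6 := fun l => by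
    refine (fam M _ (V 0) _ (gl T pk i l) (fun ν z => Nr g M (rad g 0 + 1) 0 ν.1 ν.2 z) c
      (1 / g.H ^ 180) b (25 * 81 ^ g.ls) (by positivity) hc0 (hb l)
      (fun ν hν => (hV _ _ (mS ν (mem_filter.1 hν).1)).le1)
      (fun ν hν => (hV _ _ (mS ν (mem_filter.1 hν).1)).sml) (fun z S' hS' hP => ?_)
      fun ν hν z hz => ?_).trans ?_
    · have key : ∀ ν ∈ S', ν.1 = l := fun ν hν => (mem_filter.1 (hS' hν)).2
      have inj : Set.InjOn (fun ν : Nd => ν.2) S' := fun q hq q' hq' e =>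
        Prod.ext ((key q hq).trans (key q' hq').symm) e
      have h1 := (hG g M ok).2.2.2.2.1 (rad g 0 + 1) 0 l (S'.image fun q => q.2) z
        (by linarith [(rad_bd (g := g) 0).1])
      rw [filter_true_of_mem (fun μ hμ => by
        obtain ⟨q, hq, rfl⟩ := mem_image.1 hμ
        rw [← key q hq]
        exact hP q hq), card_image_of_injOn inj] at h1
      exact h1.trans (ov_le _)
    · obtain ⟨h1, h2⟩ := mem_filter.1 hν
      have h3 := ((hG g M ok).2.2.2.2.2 0 ν.1 ν.2 hH (mS ν h1)).2.2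
      have h4 := hz.1
      have h5 : sc g M 0 ν.1 = cs M g.δ l := by simp [sc, h2]
      rw [h5] at h4
      have h6 := abs_add_le (z.1 + cs M g.δ l * z.2 - ν.2.1 * Wd g) (ν.2.1 * Wd g)
      rw [sub_add_cancel] at h6
      have h7 := hc l z (by linarith [M.hL])
      calc _ = ‖ev M (gl T pk i l) z‖ ^ 4 * ‖ev M (gl T pk i l) z‖ ^ 2 := by ring
        _ ≤ _ := by gcongr
    · have hb0 : 0 ≤ b := (norm_nonneg _).trans (hb l 0)
      gcongr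
      exact le_trans (by exact_mod_cast card_filter_le _ _) (card_Nn ok 0)
  calc Ps g M s0 T pk Sel i V 0
      ≤ ∑ ν ∈ Nn g M 0, nrm ((V 0 ν * gl T pk i ν.1) ^ 3) := sum_le_sum fun ν _ => by
        have h1 : Lf g M s0 T Sel i 0 ν ⊆ {ν.1} := fun l hl => by
          have := (mem_Lf hS hl).2
          rw [pow_zero, Nat.div_one] at this
          exact mem_singleton.2 this
        rcases subset_singleton_iff.1 h1 with h2 | h2
        · simp [h2, nrm_nonneg]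
        · simp [Gn, h2]
    _ = ∑ l ∈ range (g.D ^ g.ls), ∑ ν ∈ Nn g M 0 with ν.1 = l,
          nrm ((V 0 ν * gl T pk i ν.1) ^ 3) :=
        (sum_fiberwise_of_maps_to (fun ν hν => mem_range.2 (mS ν hν).2.1) _).symm
    _ ≤ ∑ l ∈ range (g.D ^ g.ls), (25 * 81 ^ g.ls * c * nrm (gl T pk i l) +
          g.H ^ 4 * (1 / g.H ^ 180) ^ 6 * b ^ 6) := sum_le_sum fun l _ => by
        rw [sum_congr rfl fun q hq => by rw [(mem_filter.1 hq).2]]
        exact fib l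
    _ ≤ _ := by
        rw [sum_add_distrib, ← mul_sum, sum_const, nsmul_eq_mul, card_range]
        refine add_le_add le_rfl ?_
        calc _ ≤ g.H * (g.H ^ 4 * (1 / g.H ^ 180) ^ 6 * b ^ 6) := by
              gcongr; push_cast; exact ok.pow_le_H
          _ = b ^ 6 / g.H ^ 1075 := by field_simp
          _ ≤ _ := by gcongr; norm_num

theorem iter (P : ℕ → ℝ) (Dd c e : ℝ) (hD : 1 ≤ Dd) (hc : 1 ≤ c) (he : 0 ≤ e)
    (hP : ∀ h, P (h + 1) ≤ Dd * (c * P h + e)) (h : ℕ) : P h ≤ (Dd * c) ^ h * (P 0 + h * e) := by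
  induction h with
  | zero => simp
  | succ h ih =>
    have h1 : 1 ≤ (Dd * c) ^ h := one_le_pow₀ (one_le_mul_of_one_le_of_one_le hD hc)
    have h2 : Dd * e ≤ (Dd * c) ^ (h + 1) * e := by
      refine mul_le_mul_of_nonneg_right ?_ he
      rw [pow_succ]
      nlinarith [mul_le_mul h1 hc zero_le_one (by linarith)]
    have h3 : Dd * c * P h ≤ Dd * c * ((Dd * c) ^ h * (P 0 + h * e)) :=
      mul_le_mul_of_nonneg_left ih (by positivity)
    calc P (h + 1) ≤ Dd * c * P h + Dd * e := (hP h).trans (le_of_eq (by ring))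
      _ ≤ Dd * c * ((Dd * c) ^ h * (P 0 + h * e)) + (Dd * c) ^ (h + 1) * e := add_le_add h3 h2
      _ = _ := by push_cast; ring

end tree

end SA

end

end Pool.Agent.Lib.MP_108739_an.HA
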