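import Pool.Agent.Lib.MP_108739_an.HA.StepA1
import Pool.Agent.Lib.MP_108739_an.HA.StepA2
import Pool.Agent.Lib.MP_108739_an.HA.StepA3
import Pool.Agent.Lib.MP_108739_an.HA.StepA4

/-! Refined decoupling along the tree of boxes: the root and the assembly. -/

namespace Pool.Agent.Lib.MP_108739_an.HA

open Finset

noncomputable section

namespace SA

variable {g : Geo} {M : Mo} {s0 : ℝ} {T : Finset Tb} {pk : Tb → Arr}
  {Sel : ℕ → ℕ → Finset ℕ → Finset ℕ} {i : ℕ}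

theorem cube_supp {F : Arr} (h : Supp M F (-(3 / 2)) (3 / 2) 1) : ∀ k ∈ (F ^ 3).coeff.support,
    |k.1 / M.L| ≤ 30 ∧ |k.2 / (M.L * M.Q)| ≤ 30 := fun k hk => by
  have one : ∀ k ∈ F.coeff.support, |k.1 / M.L| ≤ 10 ∧ |k.2 / (M.L * M.Q)| ≤ 10 := fun k hk => by
    obtain ⟨h1, h2, h3⟩ := h k hk
    have h4 : |k.1 / M.L| ≤ 3 / 2 := abs_le.2 ⟨h1, h2⟩
    have h5 := M.cv.phi_le (k.1 / M.L)
    have h6 := abs_add_le (k.2 / (M.L * M.Q) - M.φ (k.1 / M.L)) (M.φ (k.1 / M.L))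
    rw [sub_add_cancel] at h6
    exact ⟨by linarith, by nlinarith⟩
  rw [pow_succ, pow_two] at hk
  obtain ⟨u, hu, c, hc, rfl⟩ := mem_support_mul hk
  obtain ⟨a, ha, b, hb, rfl⟩ := mem_support_mul hu
  obtain ⟨a1, a2⟩ := one a ha
  obtain ⟨b1, b2⟩ := one b hb
  obtain ⟨c1, c2⟩ := one c hc
  simp only [Prod.fst_add, Prod.snd_add, Int.cast_add, add_div]
  exact ⟨(abs_add_three _ _ _).trans (by linarith), (abs_add_three _ _ _).trans (by linarith)⟩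

theorem top (hG : GeoStmt) (ok : g.Ok M) (hH : 100 * 9 ^ g.ls * (g.D : ℝ) ^ 5 ≤ g.H)
    (hS : Hier g.D Sel)
    (hl : ∀ l : ℕ, Supp M (gl T pk i l) (l * g.δ - 1 / g.ρ) ((l + 1) * g.δ + 1 / g.ρ) (8 / g.R))
    {V : ℕ → Nd → Arr} (hV : ∀ h ν, Good g M h ν.1 ν.2 → VOk g M h ν.1 ν.2 (V h ν))
    {Cs : ℝ} (hC0 : 0 ≤ Cs) (hCs : ∀ (G : Arr) (X : Finset (ℝ × ℝ)),
      (∀ k ∈ G.coeff.support, |k.1 / M.L| ≤ 30 ∧ |k.2 / (M.L * M.Q)| ≤ 30) →
      (∀ p ∈ X, InBox g.R p) → KT 8 X → ∑ p ∈ X, ‖ev M G p‖ ^ 2 ≤ Cs * (M.L ^ 2 * M.Q * nrm G))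
    (X : Finset (ℝ × ℝ)) (hX : ∀ p ∈ X, InBox g.R p) (hK : KT 8 X) {lam Pi : ℝ} {n : ℕ}
    (hlam : 0 ≤ lam) (hn : 1 ≤ n)
    (hp : ∀ p ∈ X, n ≤ #(Lf g M s0 T Sel i g.ls (0, cl0 g M p)) ∧
      #(Lf g M s0 T Sel i g.ls (0, cl0 g M p)) ≤ 2 * n ∧
      lam ≤ Pi * ‖ev M (Gn g M s0 T pk Sel i g.ls (0, cl0 g M p)) p‖) :
    #X * lam ^ 6 ≤
      256 * Cs * Pi ^ 6 * (n : ℝ) ^ 2 * (M.L ^ 2 * M.Q) * Ps g M s0 T pk Sel i V g.ls := by
  classical
  have hr : rad g g.ls = 1 := by simp [rad]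
  have hs : sg g g.ls = 1 := ok.δ_mul
  have nr : ∀ p, Nr g M (rad g g.ls) g.ls 0 (cl0 g M p) p := fun p => by
    rw [hr]; exact (hG g M ok).1 p
  have gd : ∀ p ∈ X, Good g M g.ls 0 (cl0 g M p) := fun p h =>
    ⟨le_rfl, by simp, p, hX p h, nr p⟩
  have hL := M.hL
  have hQ := M.hQ
  calc (#X : ℝ) * lam ^ 6 = ∑ p ∈ X, lam ^ 6 := by rw [sum_const, nsmul_eq_mul]
    _ = ∑ ν ∈ Nn g M g.ls, ∑ p ∈ X with ((0, cl0 g M p) : Nd) = ν, lam ^ 6 :=
        (sum_fiberwise_of_maps_to (fun p h => (mem_Nn hG ok hH).2 (gd p h)) _).symm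
    _ ≤ _ := by
        rw [Ps, mul_sum]
        refine sum_le_sum fun ν hν => ?_
        rcases (filter (fun p => ((0, cl0 g M p) : Nd) = ν) X).eq_empty_or_nonempty with e | e
        · rw [e, sum_empty]
          have := nrm_nonneg ((V g.ls ν * Gn g M s0 T pk Sel i g.ls ν) ^ 3)
          positivity
        obtain ⟨p0, hp0⟩ := e
        obtain ⟨h1, rfl⟩ := mem_filter.1 hp0
        set ν : Nd := (0, cl0 g M p0) with hνd
        have vo := hV g.ls ν (gd p0 h1)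
        have hρ : 1 / g.ρ ≤ 1 / 200 := one_div_le_one_div_of_le (by norm_num) ok.ρ_ge
        have hρ0 : 0 < 1 / g.ρ := one_div_pos.2 ok.ρ_pos
        have sp := (vo.sup ok.hl _ _ _ le_rfl le_rfl (supp_Gn (s0 := s0) ok hS hl g.ls ν)).mono
          (a' := -(3 / 2)) (b' := 3 / 2) (w' := 1) (by simp only [hνd, Nat.cast_zero]; linarith)
          (by simp only [hνd, Nat.cast_zero, hs]; linarith) (by
            rw [hs]
            have := ok.D_ge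
            exact pow_le_one₀ (by positivity) ((div_le_one (by linarith)).2 (by linarith)))
        have sv := hCs _ _ (cube_supp sp) (fun p h => hX p (mem_filter.1 h).1)
          (hK.subset (filter_subset (fun p => ((0, cl0 g M p) : Nd) = ν) X))
        obtain ⟨n1, n2, -⟩ := hp p0 h1
        have n3 : (1 : ℝ) ≤ #(Lf g M s0 T Sel i g.ls ν) := by exact_mod_cast hn.trans n1
        have n4 : (#(Lf g M s0 T Sel i g.ls ν) : ℝ) ≤ 2 * n := by exact_mod_cast n2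
        have n0 := nrm_nonneg ((V g.ls ν * Gn g M s0 T pk Sel i g.ls ν) ^ 3)
        calc ∑ p ∈ X with ((0, cl0 g M p) : Nd) = ν, lam ^ 6
            ≤ ∑ p ∈ X with ((0, cl0 g M p) : Nd) = ν,
              64 * Pi ^ 6 * ‖ev M ((V g.ls ν * Gn g M s0 T pk Sel i g.ls ν) ^ 3) p‖ ^ 2 :=
              sum_le_sum fun p h => by
                obtain ⟨h2, h3⟩ := mem_filter.1 h
                have h4 := (hp p h2).2.2
                have h5 := (hV g.ls (0, cl0 g M p) (gd p h2)).big p (nr p)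
                rw [h3] at h4 h5
                rw [ev_pow, ev_mul, norm_pow, norm_mul, ← pow_mul]
                calc lam ^ 6 ≤ (Pi * ‖ev M (Gn g M s0 T pk Sel i g.ls ν) p‖) ^ 6 := by gcongr
                  _ = 64 * Pi ^ 6 * (1 / 2 * ‖ev M (Gn g M s0 T pk Sel i g.ls ν) p‖) ^ 6 := by ring
                  _ ≤ _ := by gcongr
          _ ≤ 64 * Pi ^ 6 * (Cs * (M.L ^ 2 * M.Q *
              nrm ((V g.ls ν * Gn g M s0 T pk Sel i g.ls ν) ^ 3))) := by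
              rw [← mul_sum]
              exact mul_le_mul_of_nonneg_left sv (by positivity)
          _ = 64 * Cs * Pi ^ 6 * (#(Lf g M s0 T Sel i g.ls ν) : ℝ) ^ 2 * (M.L ^ 2 * M.Q) *
              (nrm ((V g.ls ν * Gn g M s0 T pk Sel i g.ls ν) ^ 3) /
                (#(Lf g M s0 T Sel i g.ls ν) : ℝ) ^ 2) := by field_simp
          _ ≤ 64 * Cs * Pi ^ 6 * (2 * n : ℝ) ^ 2 * (M.L ^ 2 * M.Q) *
              (nrm ((V g.ls ν * Gn g M s0 T pk Sel i g.ls ν) ^ 3) /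
                (#(Lf g M s0 T Sel i g.ls ν) : ℝ) ^ 2) := by gcongr
          _ = _ := by ring

theorem fin_num {H R L2 K n D4 E C c1 m S Cs P6 DD : ℝ} (hH : 1 ≤ H) (hR0 : 0 ≤ R) (hR : R ≤ H)
    (hL0 : 0 ≤ L2) (hL : L2 ≤ H ^ 15) (hK0 : 0 ≤ K) (hK : K ≤ H) (hn0 : 0 ≤ n) (hn : n ≤ H)
    (hD : 0 ≤ D4) (hE : 0 ≤ E) (hC : 1 ≤ C) (hc : 64 ≤ c1) (hm : 0 ≤ m)
    (hS : L2 * S ≤ R * E ^ 2) (hCs : 0 ≤ Cs) (hP : 0 ≤ P6) (hDD : 0 ≤ DD) :
    256 * Cs * P6 * n ^ 2 * L2 *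
        (DD * (c1 / 64 * (C * (D4 + E ^ 4 / H ^ 80)) * S + K * ((m + 1) * ((C * E) ^ 6 / H ^ 1000)))) ≤
      (256 * Cs + 1) * C ^ 6 * (m + 3) * c1 * DD * P6 * (n ^ 2 * D4 * R * E ^ 2 + E ^ 6 / H ^ 40) := by
  have hH0 : 0 < H := by linarith
  have hC6 : C ≤ C ^ 6 := le_self_pow₀ hC (by norm_num)
  set Z := n ^ 2 * D4 * R * E ^ 2 + E ^ 6 / H ^ 40 with hZ
  have z1 : 0 ≤ n ^ 2 * D4 * R * E ^ 2 := by positivity
  have z2 : 0 ≤ E ^ 6 / H ^ 40 := by positivity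
  have h1 : n ^ 2 * (D4 + E ^ 4 / H ^ 80) * (L2 * S) ≤ Z := by
    calc _ ≤ n ^ 2 * (D4 + E ^ 4 / H ^ 80) * (R * E ^ 2) := by gcongr
      _ = n ^ 2 * D4 * R * E ^ 2 + n ^ 2 * R * (E ^ 6 / H ^ 80) := by ring
      _ ≤ n ^ 2 * D4 * R * E ^ 2 + H ^ 2 * H * (E ^ 6 / H ^ 80) := by gcongr
      _ = n ^ 2 * D4 * R * E ^ 2 + E ^ 6 / H ^ 77 := by field_simp
      _ ≤ Z := by rw [hZ]; gcongr; norm_num
  have h2 : n ^ 2 * L2 * K * (E ^ 6 / H ^ 1000) ≤ Z := by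
    calc _ ≤ H ^ 2 * H ^ 15 * H * (E ^ 6 / H ^ 1000) := by gcongr
      _ = E ^ 6 / H ^ 982 := by field_simp
      _ ≤ E ^ 6 / H ^ 40 := by gcongr; norm_num
      _ ≤ Z := by linarith
  have z0 : 0 ≤ Z := add_nonneg z1 z2
  calc _ = 256 * Cs * DD * P6 * (c1 / 64 * C * (n ^ 2 * (D4 + E ^ 4 / H ^ 80) * (L2 * S)) +
        (m + 1) * C ^ 6 * (n ^ 2 * L2 * K * (E ^ 6 / H ^ 1000))) := by ring
    _ ≤ 256 * Cs * DD * P6 * (c1 / 64 * C * Z + (m + 1) * C ^ 6 * Z) := by gcongr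
    _ ≤ (256 * Cs + 1) * DD * P6 * (c1 * C ^ 6 * Z + (m + 1) * (c1 * C ^ 6) * Z) := by
        gcongr
        · linarith
        · linarith
        · exact le_mul_of_one_le_left (by positivity) (by linarith)
    _ = (256 * Cs + 1) * C ^ 6 * (m + 2) * c1 * DD * P6 * Z := by ring
    _ ≤ _ := by gcongr; norm_num

end SA

open SA in
theorem stepA (hB : BumpStmt) (hS : SieveStmt) : AStmt := by
  classical
  obtain ⟨Cs, hCs, sv⟩ := hS
  obtain ⟨C, hC, lf⟩ := leaf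
  have hC6 : 1 ≤ C ^ 6 := one_le_pow₀ hC
  have low : ∀ m : ℕ, (300 : ℝ) * 9 ^ m ≤
      (256 * Cs + 1) * C ^ 6 * (m + 3) * (1600 * 81 ^ m) ^ (m + 1) := fun m => by
    have h1 : (9 : ℝ) ^ m ≤ 81 ^ m := by gcongr; norm_num
    have h2 : (1 : ℝ) ≤ 9 ^ m := one_le_pow₀ (by norm_num)
    have h3 : (1600 * 81 ^ m : ℝ) ≤ (1600 * 81 ^ m) ^ (m + 1) :=
      le_self_pow₀ (by linarith) (by omega)
    calc (300 : ℝ) * 9 ^ m ≤ 1 * 1 * 1 * (1600 * 81 ^ m) ^ (m + 1) := by linarith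
      _ ≤ _ := by
        gcongr
        · linarith
        · linarith [(Nat.cast_nonneg m : (0 : ℝ) ≤ m)]
  refine ⟨fun m => (256 * Cs + 1) * C ^ 6 * (m + 3) * (1600 * 81 ^ m) ^ (m + 1), fun m => ?_,
    fun m m' hm => ?_, fun g M k ok hk hk2 hH => ?_⟩
  · have h2 : (1 : ℝ) ≤ 9 ^ m := one_le_pow₀ (by norm_num)
    linarith [low m]
  · have h2 : (1 : ℝ) ≤ 81 ^ m' := one_le_pow₀ (by norm_num)
    have : (1600 * 81 ^ m : ℝ) ^ (m + 1) ≤ (1600 * 81 ^ m') ^ (m' + 1) :=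
      calc _ ≤ (1600 * 81 ^ m' : ℝ) ^ (m + 1) := by gcongr; norm_num
        _ ≤ _ := pow_le_pow_right₀ (by linarith) (by omega)
    beta_reduce
    gcongr
  beta_reduce at hH ⊢
  have hD := ok.D_ge
  have h9 : (1 : ℝ) ≤ 9 ^ g.ls := one_le_pow₀ (by norm_num)
  have hH' : 100 * 9 ^ g.ls * (g.D : ℝ) ^ 5 ≤ g.H :=
    le_trans (mul_le_mul_of_nonneg_right (by linarith [low g.ls]) (by positivity)) hH
  have ex : ∀ (h : ℕ) (ν : Nd), ∃ W, Good g M h ν.1 ν.2 → VOk g M h ν.1 ν.2 W := fun h ν => by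
    by_cases hg : Good g M h ν.1 ν.2
    · obtain ⟨W, hW⟩ := vv hB geo g M k ok hk hk2 hH' h ν.1 ν.2 hg
      exact ⟨W, fun _ => hW⟩
    · exact ⟨0, fun h => absurd h hg⟩
  choose V hV using ex
  refine ⟨cl0 g M, fun s0 T ν i => Sn g M s0 T i g.ls 0 ν, fun E Ec s0 T pk hE sy => ⟨?_, ?_⟩⟩
  · refine (geo g M ok).2.2.1 _ s0 T ?_ fun τ hτ => (sy.idx τ hτ).2.1
    exact mul_le_mul (by linarith [low g.ls]) (le_self_pow₀ (by linarith) (by norm_num))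
      (by linarith) (by positivity)
  intro X A Pi n lam th ts Dd Sel Pr hX hK hlam hDd hdec hS hL
  obtain ⟨hn, hPr, -, -, hq⟩ := hL
  have hH1 : 1 ≤ g.H := by linarith [ok.H_ge]
  have hR := ok.R_pos
  rcases Pr.eq_empty_or_nonempty with rfl | ⟨q0, hq0⟩
  · simp only [card_empty, Nat.cast_zero, zero_mul]
    positivity
  have hnH : (n : ℝ) ≤ g.H := by
    have h1 : #(Lf g M s0 T Sel q0.2 g.ls (0, cl0 g M q0.1)) ≤ #(range (g.D ^ g.ls)) :=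
      card_le_card fun l hl => mem_range.2 (mem_Lf hS hl).1
    rw [card_range] at h1
    have h2 : n ≤ g.D ^ g.ls := (hq q0 hq0).1.trans h1
    exact le_trans (by exact_mod_cast h2) ok.pow_le_H
  have hL := M.hL
  have hQ := M.hQ
  set c1 : ℝ := 1600 * 81 ^ g.ls with hc1
  have h81 : (1 : ℝ) ≤ 81 ^ g.ls := one_le_pow₀ (by norm_num)
  set c := C * ((g.D : ℝ) ^ 4 * (g.δ * Ec) ^ 2 + E ^ 4 / g.H ^ 80) with hc
  set er := (C * E) ^ 6 / g.H ^ 1000 with her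
  have one : ∀ i : ℕ, (#{q ∈ Pr | q.2 = i} : ℝ) * lam ^ 6 ≤
      256 * Cs * (Pi : ℝ) ^ 6 * (n : ℝ) ^ 2 * (M.L ^ 2 * M.Q) * ((Dd * c1) ^ g.ls *
        (c1 / 64 * c * ∑ l ∈ range (g.D ^ g.ls), nrm (gl T pk i l) + (g.ls + 1) * er)) := fun i => by
    have l1 := fun l => (lf g M E Ec s0 T pk ok hE sy i l).1
    have l2 := fun l => (lf g M E Ec s0 T pk ok hE sy i l).2.1
    have l3 := fun l => (lf g M E Ec s0 T pk ok hE sy i l).2.2
    have inj : Set.InjOn (fun q : (ℝ × ℝ) × ℕ => q.1) ↑({q ∈ Pr | q.2 = i} : Finset _) :=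
      fun q h q' h' e => Prod.ext e ((mem_filter.1 h).2.trans (mem_filter.1 h').2.symm)
    have sub : ({q ∈ Pr | q.2 = i} : Finset _).image (fun q => q.1) ⊆ X := fun p hp => by
      obtain ⟨q, h, rfl⟩ := mem_image.1 hp
      exact (hPr q (mem_filter.1 h).1).1
    have t := top (s0 := s0) (Pi := Pi) geo ok hH' hS l1 hV hCs.le
      (fun G X => sv M G X g.R ok.hR (by linarith [ok.L_ge])
        (by nlinarith [ok.L_ge, ok.Q_ge, ok.hR])) _ (fun p hp => hX p (sub hp)) (hK.subset sub)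
      hlam.le hn fun p hp => by
        obtain ⟨q, h, rfl⟩ := mem_image.1 hp
        obtain ⟨h1, rfl⟩ := mem_filter.1 h
        obtain ⟨a1, a2, -, a3⟩ := hq q h1
        refine ⟨a1, a2, ?_⟩
        rw [Gn, ev_sum]
        exact a3
    rw [card_image_of_injOn inj] at t
    refine t.trans (mul_le_mul_of_nonneg_left ?_ (by positivity))
    refine (iter _ Dd c1 er hDd (by linarith) (by positivity)
      (step geo ok hH' hS l1 (by positivity) l2 hdec (by linarith) hV) g.ls).trans ?_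
    refine mul_le_mul_of_nonneg_left ?_ (by positivity)
    have b := base (s0 := s0) geo ok hH' hS l2 (by positivity) l3 hV
    have e : (25 : ℝ) * 81 ^ g.ls = c1 / 64 := by rw [hc1]; ring
    rw [e] at b
    linarith
  have tot : M.L ^ 2 * M.Q * ∑ i ∈ range g.K1, ∑ l ∈ range (g.D ^ g.ls), nrm (gl T pk i l) ≤
      g.R * E ^ 2 := by
    refine le_trans (le_of_eq ?_) (mul_le_mul_of_nonneg_left sy.tot hR.le)
    simp only [en, ← mul_sum]
    field_simp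
  calc (#Pr : ℝ) * lam ^ 6 = ∑ i ∈ range g.K1, (#{q ∈ Pr | q.2 = i} : ℝ) * lam ^ 6 := by
        rw [← sum_mul, card_eq_sum_card_fiberwise (f := fun q => q.2) (t := range g.K1)
          fun q h => mem_coe.2 (mem_range.2 (hPr q h).2)]
        push_cast
        rfl
    _ ≤ _ := sum_le_sum fun i _ => one i
    _ = 256 * Cs * (Pi : ℝ) ^ 6 * (n : ℝ) ^ 2 * (M.L ^ 2 * M.Q) * ((Dd * c1) ^ g.ls *
        (c1 / 64 * c * ∑ i ∈ range g.K1, ∑ l ∈ range (g.D ^ g.ls), nrm (gl T pk i l) +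
          g.K1 * ((g.ls + 1) * er))) := by
        rw [← mul_sum, ← mul_sum, sum_add_distrib, ← mul_sum, sum_const, card_range, nsmul_eq_mul]
    _ ≤ _ := fin_num hH1 hR.le ok.hH (by positivity)
        (calc M.L ^ 2 * M.Q ≤ (g.H ^ 5) ^ 2 * g.H ^ 5 := by gcongr; exacts [ok.l2, ok.q2]
          _ = _ := by ring) (Nat.cast_nonneg _)
        (by linarith [ok.K1_le, ok.K1_ge, ok.D_le_pow, ok.pow_le_H]) (Nat.cast_nonneg _) hnH
        (by positivity) hE.le hC (by linarith) (Nat.cast_nonneg _) tot hCs.le (by positivity)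
        (by positivity)
    _ = _ := by ring

end

end Pool.Agent.Lib.MP_108739_an.HA
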