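import Pool.Agent.Lib.MP_108739_an.HA.Defs

/-! Van der Corput estimate for curves with Lipschitz slope. -/

namespace Pool.Agent.Lib.MP_108739_an.HA

open Finset
open scoped Real

namespace Vd

theorem ex_eq (x : ℝ) : ex x = Complex.exp (((2 * π * x : ℝ) : ℂ) * Complex.I) := by
  unfold ex
  congr 1
  push_cast
  ring

theorem norm_ex (x : ℝ) : ‖ex x‖ = 1 := by
  rw [ex_eq]; exact Complex.norm_exp_ofReal_mul_I _

theorem ex_add (x y : ℝ) : ex (x + y) = ex x * ex y := by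
  unfold ex
  rw [← Complex.exp_add]
  congr 1
  push_cast
  ring

theorem cont_ex : Continuous ex := by
  unfold ex
  fun_prop

theorem ex_lip (x y : ℝ) : ‖ex x - ex y‖ ≤ 7 * |x - y| := by
  have h : ex x - ex y = ex y * (ex (x - y) - 1) := by
    rw [mul_sub, ← ex_add, mul_one]; congr 2; ring
  rw [h, norm_mul, norm_ex, one_mul, ex_eq, mul_comm _ Complex.I]
  refine (Real.norm_exp_I_mul_ofReal_sub_one_le).trans ?_
  rw [Real.norm_eq_abs, abs_mul, abs_of_pos (by positivity : (0 : ℝ) < 2 * π)]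
  have := Real.pi_lt_d2
  have h0 := abs_nonneg (x - y)
  nlinarith

theorem lin (u m c d : ℝ) (hm : m ≠ 0) :
    ‖∫ ξ in c..d, ex (u + m * (ξ - c))‖ ≤ 1 / |m| := by
  have hk : (2 * π * Complex.I * m : ℂ) ≠ 0 := by
    have : (m : ℂ) ≠ 0 := by exact_mod_cast hm
    have h2 : (π : ℂ) ≠ 0 := by exact_mod_cast Real.pi_ne_zero
    simp [this, h2]
  have h1 : ∀ ξ : ℝ, ex (u + m * (ξ - c)) =
      ex (u - m * c) * Complex.exp ((2 * π * Complex.I * m : ℂ) * ξ) := fun ξ => by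
    unfold ex
    rw [← Complex.exp_add]
    congr 1
    push_cast
    ring
  have h2 : ∀ ξ : ℝ, ‖Complex.exp ((2 * π * Complex.I * m : ℂ) * ξ)‖ = 1 := fun ξ => by
    have := norm_ex (m * ξ)
    unfold ex at this
    rw [← this]
    congr 2
    push_cast
    ring
  simp only [h1]
  rw [intervalIntegral.integral_const_mul, integral_exp_mul_complex hk, norm_mul, norm_ex, one_mul,
    norm_div]
  have h3 : ‖(2 * π * Complex.I * m : ℂ)‖ = 2 * π * |m| := by
    simp [abs_of_pos Real.pi_pos]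
  have h4 := norm_sub_le (Complex.exp ((2 * π * Complex.I * m : ℂ) * d))
    (Complex.exp ((2 * π * Complex.I * m : ℂ) * c))
  rw [h2, h2] at h4
  have h5 : 0 < |m| := abs_pos.2 hm
  rw [h3, div_le_div_iff₀ (by positivity) h5]
  have := Real.pi_gt_three
  nlinarith

theorem piece (θ : ℝ → ℝ) (hθ : Continuous θ) (m c d K : ℝ) (hm : m ≠ 0) (hcd : c ≤ d)
    (h : ∀ ξ ∈ Set.Icc c d, |θ ξ - (θ c + m * (ξ - c))| ≤ K) :
    ‖∫ ξ in c..d, ex (θ ξ)‖ ≤ 1 / |m| + 7 * K * (d - c) := by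
  have c1 : Continuous fun ξ => ex (θ ξ) := cont_ex.comp hθ
  have c2 : Continuous fun ξ => ex (θ c + m * (ξ - c)) := cont_ex.comp (by fun_prop)
  have e : ∫ ξ in c..d, ex (θ ξ) = (∫ ξ in c..d, ex (θ c + m * (ξ - c))) +
      ∫ ξ in c..d, (ex (θ ξ) - ex (θ c + m * (ξ - c))) := by
    rw [intervalIntegral.integral_sub (c1.intervalIntegrable _ _) (c2.intervalIntegrable _ _)]
    ring
  rw [e]
  refine (norm_add_le _ _).trans (add_le_add (lin _ _ _ _ hm) ?_)
  have := intervalIntegral.norm_integral_le_of_norm_le_const (a := c) (b := d) (C := 7 * K)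
    (f := fun ξ => ex (θ ξ) - ex (θ c + m * (ξ - c))) fun ξ hξ => by
      rw [Set.uIoc_of_le hcd] at hξ
      exact (ex_lip _ _).trans (by linarith [h ξ (Set.Ioc_subset_Icc_self hξ)])
  rwa [abs_of_nonneg (sub_nonneg.2 hcd)] at this

theorem region (θ θ' : ℝ → ℝ) (hθ : Continuous θ) (c d K lam : ℝ) (n : ℕ) (hn : 1 ≤ n)
    (hK : 0 ≤ K) (hl : 0 < lam) (hcd : c ≤ d) (hd : d - c ≤ 1)
    (h : ∀ x y, |θ y - (θ x + θ' x * (y - x))| ≤ K * (y - x) ^ 2)
    (hlow : c = d ∨ ∀ ξ ∈ Set.Icc c d, lam ≤ |θ' ξ|) :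
    ‖∫ ξ in c..d, ex (θ ξ)‖ ≤ n / lam + 7 * K / (n : ℝ) ^ 2 := by
  have hn0 : (0 : ℝ) < n := by exact_mod_cast hn
  rcases hlow with rfl | hlow
  · simp only [intervalIntegral.integral_same, norm_zero]; positivity
  set ℓ := (d - c) / n with hℓ
  have hℓ0 : 0 ≤ ℓ := div_nonneg (sub_nonneg.2 hcd) hn0.le
  have hℓ1 : ℓ ≤ 1 / n := div_le_div_of_nonneg_right hd hn0.le
  have hnℓ : n * ℓ = d - c := by rw [hℓ]; field_simp
  have c1 : Continuous fun ξ => ex (θ ξ) := cont_ex.comp hθ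
  have hs := intervalIntegral.sum_integral_adjacent_intervals (f := fun ξ => ex (θ ξ))
    (μ := MeasureTheory.volume) (a := fun k : ℕ => c + k * ℓ) (n := n)
    fun k _ => c1.intervalIntegrable _ _
  have e0 : c + ((0 : ℕ) : ℝ) * ℓ = c := by simp
  have en : c + (n : ℝ) * ℓ = d := by linarith
  simp only [e0, en] at hs
  rw [← hs]
  have hp : ∀ k ∈ range n, ‖∫ ξ in (c + k * ℓ)..(c + ((k + 1 : ℕ) : ℝ) * ℓ), ex (θ ξ)‖ ≤
      1 / lam + 7 * K / (n : ℝ) ^ 3 := fun k hk => by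
    have hk1 : (k : ℝ) ≤ n := by exact_mod_cast (mem_range.1 hk).le
    have hk0 : (0 : ℝ) ≤ k := Nat.cast_nonneg k
    have hin : c + k * ℓ ∈ Set.Icc c d := ⟨by nlinarith, by nlinarith⟩
    have hm := hlow _ hin
    have hne : θ' (c + k * ℓ) ≠ 0 := fun h0 => by rw [h0, abs_zero] at hm; linarith
    have e1 : c + ((k + 1 : ℕ) : ℝ) * ℓ = c + k * ℓ + ℓ := by push_cast; ring
    rw [e1]
    refine (piece θ hθ _ _ _ (K * ℓ ^ 2) hne (by linarith) fun ξ hξ => (h _ _).trans ?_).trans ?_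
    · have a1 : 0 ≤ ξ - (c + k * ℓ) := by linarith [hξ.1]
      have a2 : ξ - (c + k * ℓ) ≤ ℓ := by linarith [hξ.2]
      gcongr
    · have a1 : 1 / |θ' (c + k * ℓ)| ≤ 1 / lam := one_div_le_one_div_of_le hl hm
      have a2 : ℓ ^ 3 ≤ (1 / n) ^ 3 := by gcongr
      have a3 : 7 * (K * ℓ ^ 2) * (c + k * ℓ + ℓ - (c + k * ℓ)) = 7 * K * ℓ ^ 3 := by ring
      have a4 : 7 * K / (n : ℝ) ^ 3 = 7 * K * (1 / n) ^ 3 := by field_simp
      rw [a3, a4]
      gcongr
  refine (norm_sum_le _ _).trans ((sum_le_sum hp).trans (le_of_eq ?_))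
  rw [sum_const, card_range, nsmul_eq_mul]
  field_simp

variable {φ ψ : ℝ → ℝ}

theorem slope_le (h : Curve φ ψ) (x y : ℝ) : |ψ y - ψ x| ≤ 2 * |y - x| := by
  rcases le_total x y with hxy | hxy
  · have := h.lo x y hxy
    have := h.hi x y hxy
    rw [abs_of_nonneg (by linarith), abs_of_nonneg (by linarith)]; linarith
  · have := h.lo y x hxy
    have := h.hi y x hxy
    rw [abs_of_nonpos (by linarith), abs_of_nonpos (by linarith)]; linarith

theorem slope_ge (h : Curve φ ψ) (x y : ℝ) : |y - x| ≤ |ψ y - ψ x| := by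
  rcases le_total x y with hxy | hxy
  · have := h.lo x y hxy
    rw [abs_of_nonneg (by linarith), abs_of_nonneg (by linarith)]; linarith
  · have := h.lo y x hxy
    rw [abs_of_nonpos (by linarith), abs_of_nonpos (by linarith)]; linarith

theorem taylor (h : Curve φ ψ) (x y : ℝ) : |φ y - (φ x + ψ x * (y - x))| ≤ 2 * (y - x) ^ 2 := by
  have h1 := h.conv x y
  have h2 := h.conv y x
  have h3 : (ψ y - ψ x) * (y - x) ≤ 2 * (y - x) ^ 2 := by
    refine (le_abs_self _).trans ?_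
    rw [abs_mul, ← sq_abs (y - x)]
    nlinarith [slope_le h x y, abs_nonneg (y - x)]
  rw [abs_of_nonneg (by linarith)]
  nlinarith

theorem cont (h : Curve φ ψ) : Continuous φ := by
  refine continuous_iff_continuousAt.2 fun x => ?_
  have t1 : Filter.Tendsto (fun y => φ x + ψ x * (y - x)) (nhds x) (nhds (φ x)) := by
    have : Continuous fun y => φ x + ψ x * (y - x) := by fun_prop
    simpa using this.tendsto x
  have t2 : Filter.Tendsto (fun y => φ x + ψ x * (y - x) + 2 * (y - x) ^ 2) (nhds x)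
      (nhds (φ x)) := by
    have : Continuous fun y => φ x + ψ x * (y - x) + 2 * (y - x) ^ 2 := by fun_prop
    simpa using this.tendsto x
  refine tendsto_of_tendsto_of_tendsto_of_le_of_le t1 t2 (fun y => h.conv x y) fun y => ?_
  have := (abs_le.1 (taylor h x y)).2
  simp only
  linarith

end Vd

open Vd in
theorem vdc : VdcStmt := by
  refine ⟨100, by norm_num, fun φ ψ a b D p h ha hab hb hD hp => ?_⟩
  set N := ‖p‖ with hN
  have hN0 : 0 ≤ N := norm_nonneg p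
  obtain ⟨W, hW0, hW⟩ : ∃ W : ℝ, 0 ≤ W ∧ W ^ 6 = N :=
    ⟨N ^ ((6 : ℕ) : ℝ)⁻¹, Real.rpow_nonneg hN0 _, Real.rpow_inv_natCast_pow hN0 (by norm_num)⟩
  have hDW : D ≤ W := by
    refine le_of_pow_le_pow_left₀ (n := 6) (by norm_num) hW0 ?_
    rw [hW]; exact hp
  have hW1 : 1 ≤ W := hD.trans hDW
  have hWp : 0 < W := by linarith
  have hx : |p.1| ≤ N := norm_fst_le p
  have ht : |p.2| ≤ N := norm_snd_le p
  have hmax : N = max |p.1| |p.2| := Prod.norm_def p
  set θ : ℝ → ℝ := fun ξ => p.1 * ξ + p.2 * φ ξ with hθ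
  set θ' : ℝ → ℝ := fun ξ => p.1 + p.2 * ψ ξ with hθ'
  have hc : Continuous θ := by have := cont h; fun_prop
  have hT : ∀ x y, |θ y - (θ x + θ' x * (y - x))| ≤ 2 * N * (y - x) ^ 2 := fun x y => by
    have e : θ y - (θ x + θ' x * (y - x)) = p.2 * (φ y - (φ x + ψ x * (y - x))) := by
      simp only [hθ, hθ']; ring
    rw [e, abs_mul]
    calc _ ≤ N * (2 * (y - x) ^ 2) := mul_le_mul ht (taylor h x y) (abs_nonneg _) hN0
      _ = _ := by ring
  have hE : Ext φ a b (fun _ => 1) p = ∫ ξ in a..b, ex (θ ξ) := by simp [Ext, hθ]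
  rw [hE]
  set n := ⌈W ^ 4⌉₊ with hn
  have hW4 : 1 ≤ W ^ 4 := one_le_pow₀ hW1
  have hn1 : W ^ 4 ≤ n := Nat.le_ceil _
  have hn2 : (n : ℝ) ≤ 2 * W ^ 4 := by
    have := Nat.ceil_lt_add_one (a := W ^ 4) (by positivity)
    linarith
  have hn0 : 1 ≤ n := by
    have : (1 : ℝ) ≤ n := hW4.trans hn1
    exact_mod_cast this
  have hreg : ∀ c d, a ≤ c → c ≤ d → d ≤ b → (c = d ∨ ∀ ξ ∈ Set.Icc c d, W ^ 5 / 2 ≤ |θ' ξ|) →
      ‖∫ ξ in c..d, ex (θ ξ)‖ ≤ 18 / W := fun c d h1 h2 h3 h4 => by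
    refine (region θ θ' hc c d (2 * N) (W ^ 5 / 2) n hn0 (by positivity) (by positivity) h2
      (by linarith) hT h4).trans ?_
    have a1 : (n : ℝ) / (W ^ 5 / 2) ≤ 4 / W := by
      rw [div_le_div_iff₀ (by positivity) hWp]; nlinarith
    have a2 : 7 * (2 * N) / (n : ℝ) ^ 2 ≤ 14 / W := by
      have b1 : (W ^ 4) ^ 2 ≤ (n : ℝ) ^ 2 := by gcongr
      have b2 : W ^ 7 ≤ W ^ 8 := pow_le_pow_right₀ hW1 (by norm_num)
      rw [div_le_div_iff₀ (lt_of_lt_of_le (by positivity) b1) hWp, ← hW]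
      nlinarith
    have : (18 : ℝ) / W = 4 / W + 14 / W := by ring
    linarith
  have hfin : (76 : ℝ) / W ≤ 100 / D := by
    rw [div_le_div_iff₀ hWp (by linarith)]; nlinarith
  have h56 : W ^ 5 ≤ N := by rw [← hW]; exact pow_le_pow_right₀ hW1 (by norm_num)
  by_cases hall : ∀ ξ ∈ Set.Icc a b, W ^ 5 / 2 ≤ |θ' ξ|
  · refine (hreg a b le_rfl hab le_rfl (Or.inr hall)).trans (le_trans ?_ hfin)
    gcongr; norm_num
  push Not at hall
  obtain ⟨ξ0, hξ0, hbad⟩ := hall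
  have hψ : |ψ ξ0| ≤ 3 := by
    have a1 := slope_le h 0 ξ0
    have a2 := h.z2
    have a3 := abs_sub_abs_le_abs_sub (ψ ξ0) (ψ 0)
    rw [sub_zero, abs_of_nonneg (ha.trans hξ0.1)] at a1
    linarith [hξ0.2]
  have hbig : N / 10 ≤ |p.2| := by
    by_contra hlt
    push Not at hlt
    have a1 : N = |p.1| := by
      rcases max_cases |p.1| |p.2| with h1 | h1
      · rw [hmax, h1.1]
      · rw [← hmax] at h1; linarith [h1.1]
    have a2 : |p.2 * ψ ξ0| ≤ N / 10 * 3 := by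
      rw [abs_mul]; exact mul_le_mul hlt.le hψ (abs_nonneg _) (by positivity)
    have a3 : |p.1| ≤ |θ' ξ0| + |p.2 * ψ ξ0| := by
      have : p.1 = θ' ξ0 - p.2 * ψ ξ0 := by simp only [hθ']; ring
      calc |p.1| = |θ' ξ0 - p.2 * ψ ξ0| := by rw [← this]
        _ ≤ _ := abs_sub _ _
    linarith
  have hfar : ∀ ξ, 10 / W ≤ |ξ - ξ0| → W ^ 5 / 2 ≤ |θ' ξ| := fun ξ hξ => by
    have a1 : θ' ξ - θ' ξ0 = p.2 * (ψ ξ - ψ ξ0) := by simp only [hθ']; ring
    have a2 : N / 10 * (10 / W) ≤ |θ' ξ - θ' ξ0| := by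
      rw [a1, abs_mul]
      exact mul_le_mul hbig (hξ.trans (slope_ge h _ _)) (by positivity) (abs_nonneg _)
    have a3 : N / 10 * (10 / W) = W ^ 5 := by rw [← hW]; field_simp
    have a4 := abs_sub (θ' ξ) (θ' ξ0)
    linarith
  have hη : 0 < 10 / W := by positivity
  set c1 := max a (ξ0 - 10 / W) with hc1
  set d1 := min b (ξ0 + 10 / W) with hd1
  have q1 : a ≤ c1 := le_max_left _ _
  have q2 : c1 ≤ ξ0 := max_le hξ0.1 (by linarith)
  have q3 : ξ0 ≤ d1 := le_min hξ0.2 (by linarith)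
  have q4 : d1 ≤ b := min_le_left _ _
  have q5 : ξ0 - 10 / W ≤ c1 := le_max_right _ _
  have q6 : d1 ≤ ξ0 + 10 / W := min_le_right _ _
  have c1' : Continuous fun ξ => ex (θ ξ) := cont_ex.comp hc
  have r1 := hreg a c1 le_rfl q1 (by linarith) (by
    rcases max_cases a (ξ0 - 10 / W) with h1 | h1
    · exact Or.inl (by rw [hc1, h1.1])
    · refine Or.inr fun ξ hξ => hfar ξ ?_
      have := hξ.2
      rw [hc1, h1.1] at this
      rw [abs_of_nonpos (by linarith)]; linarith)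
  have r3 := hreg d1 b (by linarith) q4 le_rfl (by
    rcases min_cases b (ξ0 + 10 / W) with h1 | h1
    · exact Or.inl (by rw [hd1, h1.1])
    · refine Or.inr fun ξ hξ => hfar ξ ?_
      have := hξ.1
      rw [hd1, h1.1] at this
      rw [abs_of_nonneg (by linarith)]; linarith)
  have r2 := intervalIntegral.norm_integral_le_of_norm_le_const (a := c1) (b := d1) (C := 1)
    (f := fun ξ => ex (θ ξ)) fun ξ _ => (norm_ex _).le
  rw [abs_of_nonneg (by linarith)] at r2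
  rw [← intervalIntegral.integral_add_adjacent_intervals (b := c1) (c1'.intervalIntegrable _ _)
    (c1'.intervalIntegrable _ _), ← intervalIntegral.integral_add_adjacent_intervals (a := c1)
    (b := d1) (c1'.intervalIntegrable _ _) (c1'.intervalIntegrable _ _)]
  refine (norm_add_le _ _).trans ((add_le_add_right (norm_add_le _ _) _).trans ?_)
  have e1 : (76 : ℝ) / W = 18 / W + 18 / W + 4 * (10 / W) := by ring
  linarith

end Pool.Agent.Lib.MP_108739_an.HA
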