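import Pool.Agent.Lib.MP_108739_an.HA.Geo

/-! Wave packet decomposition and energy classes. -/

namespace Pool.Agent.Lib.MP_108739_an.HA

open Finset
open scoped Real

noncomputable section

namespace WP

/-- Telescoping of dyadic classes. -/
theorem classes {ι : Type*} (S : Finset ι) (e : ι → ℝ) (B : ℝ) (hB : 0 ≤ B) (he : ∀ τ ∈ S, e τ ≤ B)
    (f : ι → ℂ) (N : ℕ) :
    ∑ c ∈ range N, ∑ τ ∈ S with B / 2 ^ (c + 1) < e τ ∧ e τ ≤ B / 2 ^ c, f τ =
      ∑ τ ∈ S with B / 2 ^ N < e τ, f τ := by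
  induction N with
  | zero =>
    rw [sum_range_zero, filter_false_of_mem, sum_empty]
    intro τ hτ
    simpa using he τ hτ
  | succ N ih =>
    rw [sum_range_succ, ih, sum_filter, sum_filter, sum_filter, ← sum_add_distrib]
    refine sum_congr rfl fun τ _ => ?_
    have h : B / 2 ^ (N + 1) ≤ B / 2 ^ N :=
      div_le_div_of_nonneg_left hB (by positivity) (pow_le_pow_right₀ one_le_two (by omega))
    by_cases p : B / 2 ^ N < e τ
    · rw [if_pos p, if_neg (fun q => absurd q.2 (not_le.2 p)), if_pos (h.trans_lt p), add_zero]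
    · rw [if_neg p, zero_add]
      simp [not_lt.1 p]

theorem unity {P : ℝ} {J : Finset ℤ} {η : ℤ → Arr1}
    (h1 : ∀ j ∈ J, ∀ y, ∃ r : ℝ, 0 ≤ r ∧ ev1 P (η j) y = r) (h2 : ∑ j ∈ J, η j = 1) (y : ℝ) :
    (∑ j ∈ J, ev1 P (η j) y = 1) ∧ (∑ j ∈ J, ‖ev1 P (η j) y‖ ^ 2 ≤ 1) ∧
      ∀ J' ⊆ J, ‖∑ j ∈ J', ev1 P (η j) y‖ ≤ 1 := by
  have e1 : ∑ j ∈ J, ev1 P (η j) y = 1 := by rw [← ev1_sum, h2, ev1_one]
  have e2 : ∑ j ∈ J, ‖ev1 P (η j) y‖ = 1 := by
    have : ((∑ j ∈ J, ‖ev1 P (η j) y‖ : ℝ) : ℂ) = 1 := by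
      rw [← e1]; push_cast
      refine sum_congr rfl fun j hj => ?_
      obtain ⟨r, hr, e⟩ := h1 j hj y
      rw [e, Complex.norm_real, Real.norm_of_nonneg hr]
    exact_mod_cast this
  refine ⟨e1, ?_, fun J' hJ => ?_⟩
  · rw [← e2]
    refine sum_le_sum fun j hj => ?_
    have : ‖ev1 P (η j) y‖ ≤ 1 := by
      rw [← e2]; exact single_le_sum (f := fun j => ‖ev1 P (η j) y‖) (fun _ _ => norm_nonneg _) hj
    nlinarith [norm_nonneg (ev1 P (η j) y)]
  · refine (norm_sum_le _ _).trans ?_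
    rw [← e2]
    exact sum_le_sum_of_subset_of_nonneg hJ fun _ _ _ => norm_nonneg _

/-- The part of `F i` over leaf `l`. -/
def leaf (g : Geo) (M : Mo) (F : ℕ → Arr) (i l : ℕ) : Arr :=
  cut M (l * g.δ) ((l + 1) * g.δ) (F i)

/-- The wave packet of a tube. -/
def pkt (g : Geo) (M : Mo) (η : ℤ → Arr1) (F : ℕ → Arr) (τ : Tb) : Arr :=
  tilt (sl M g.δ τ.2.1) (η τ.2.2) * leaf g M F τ.1 τ.2.1

variable {g : Geo} {M : Mo} {η : ℤ → Arr1} {F : ℕ → Arr}

theorem ev_pkt (τ : Tb) (z : ℝ × ℝ) : ev M (pkt g M η F τ) z =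
    ev1 M.L (η τ.2.2) (z.1 + cs M g.δ τ.2.1 * z.2) * ev M (leaf g M F τ.1 τ.2.1) z := by
  rw [pkt, ev_mul, ev_tilt]; rfl

theorem supp_pkt (h : g.Ok M) (τ : Tb) {a b : ℝ} (hF : Supp M (F τ.1) a b (1 / g.R))
    (hη : Spec1 M.L (1 / g.ρ) (η τ.2.2)) :
    Supp M (pkt g M η F τ) (max (τ.2.1 * g.δ) a - 1 / g.ρ) (min ((τ.2.1 + 1) * g.δ) b + 1 / g.ρ)
      (8 / g.R) := by
  have hR := h.R_pos
  have hρ := h.ρ_pos
  have hδ := h.δ_pos
  have s0 : Supp M (leaf g M F τ.1 τ.2.1) (max (τ.2.1 * g.δ) a) (min ((τ.2.1 + 1) * g.δ) b)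
      (1 / g.R) := fun k hk => by
    have p := hF.cut' _ _ k hk
    have q := hF.cut _ _ k hk
    exact ⟨max_le p.1 q.1, le_min p.2.1 q.2.1, p.2.2⟩
  have iL : 2 / M.L ≤ g.δ / 2 := by
    refine le_trans ?_ (div_le_div_of_nonneg_right h.inv_R_le (by norm_num))
    rw [div_div, div_le_div_iff₀ M.hL (by positivity)]
    nlinarith [h.L_ge]
  have iQ : 1 / (2 * M.Q) ≤ g.δ / 2 := by
    refine le_trans ?_ (div_le_div_of_nonneg_right h.inv_R_le (by norm_num))
    rw [div_div, div_le_div_iff₀ (by have := M.hQ; positivity) (by positivity)]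
    nlinarith [h.Q_ge]
  have s1 := s0.tilt_mul (v := 4 * g.δ) (sl M g.δ τ.2.1) hη fun ξ h1 h2 => by
    have a1 := (max_le_iff.1 h1).1
    have a2 := (le_min_iff.1 h2).1
    have a3 := cs_near M g.δ τ.2.1 ξ
    have a4 : |ξ - (((τ.2.1 : ℤ) : ℝ) - 1 / 2) * g.δ| ≤ 3 / 2 * g.δ := by
      push_cast; rw [abs_le]; constructor <;> nlinarith
    change |M.ψ ξ - cs M g.δ τ.2.1| ≤ _
    linarith
  refine s1.mono le_rfl le_rfl ?_
  have e1 : 1 / g.ρ * (4 * g.δ) = 4 / g.R := by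
    rw [Geo.Ok.ρ_eq]; field_simp
  have e2 : (1 / g.ρ) ^ 2 ≤ 1 / g.R := by
    rw [div_pow, one_pow]
    refine one_div_le_one_div_of_le hR ?_
    nlinarith [h.ρ_sq_ge, h.D_ge, mul_le_mul_of_nonneg_right
      (show (1 : ℝ) ≤ (g.D : ℝ) ^ 2 by nlinarith [h.D_ge]) hR.le]
  have e3 : 8 / g.R = 8 * (1 / g.R) := by ring
  have e4 : 4 / g.R = 4 * (1 / g.R) := by ring
  have : 0 < 1 / g.R := by positivity
  linarith

theorem ev_sq_en (h : g.Ok M) {G : Arr} {a b : ℝ} (hG : Supp M G a b (8 / g.R)) (hab : a ≤ b)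
    (hb : b - a ≤ 1) (z : ℝ × ℝ) : ‖ev M G z‖ ^ 2 ≤ 36 * en M g.R G := by
  have hR := h.R_pos
  have hL := M.hL
  have hQ := M.hQ
  refine (norm_ev_sq_le M G z).trans ?_
  rw [en, ← mul_assoc]
  refine mul_le_mul_of_nonneg_right ((hG.card_le hab (by positivity)).trans ?_) (nrm_nonneg G)
  have a1 : (b - a) * M.L + 1 ≤ 2 * M.L := by nlinarith [h.L_ge, h.hR]
  have a2 : 1 ≤ M.L * M.Q / g.R := by
    rw [le_div_iff₀ hR]; nlinarith [h.L_ge, h.Q_ge, h.hR]
  have a3 : 2 * (8 / g.R) * (M.L * M.Q) + 1 ≤ 18 * (M.L * M.Q / g.R) := by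
    have : 2 * (8 / g.R) * (M.L * M.Q) = 16 * (M.L * M.Q / g.R) := by ring
    linarith
  calc _ ≤ 2 * M.L * (18 * (M.L * M.Q / g.R)) :=
        mul_le_mul a1 a3 (by positivity) (by positivity)
    _ = _ := by ring

theorem sqrt_small (h : g.Ok M) : 10 / √g.R ≤ 1 / (8 * g.K1) := by
  have h1 := h.D_sq_le_sqrt
  have h2 := h.K1_ge
  rw [div_le_div_iff₀ (Real.sqrt_pos.2 h.R_pos) (by positivity)]
  nlinarith [h.K1_le, h.D_ge]

theorem δ_small (h : g.Ok M) : g.δ ≤ 1 / (8 * g.K1) :=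
  h.δ_le.trans (one_div_le_one_div_of_le (by have := h.K1_ge; positivity)
    (by linarith [h.K1_le, h.K1_ge]))

theorem sum_leaf (h : g.Ok M) {i : ℕ} (hi : i < g.K1) {w : ℝ}
    (hF : Supp M (F i) (1 / 4 + i / (2 * g.K1) - 10 / √g.R)
      (1 / 4 + (i + 1) / (2 * g.K1) + 10 / √g.R) w) :
    ∑ l ∈ range (g.D ^ g.ls), leaf g M F i l = F i := by
  have h1 := sum_cut (M := M) (F := F i) 0 h.δ_pos.le (g.D ^ g.ls)
  simp only [zero_add] at h1
  simp only [leaf]
  rw [h1]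
  refine cut_eq_self fun k hk => ?_
  obtain ⟨a1, a2, -⟩ := hF k hk
  have hK := h.K1_ge
  have b1 := sqrt_small h
  have b2 : 1 / (8 * (g.K1 : ℝ)) ≤ 1 / 16 := one_div_le_one_div_of_le (by norm_num) (by linarith)
  have b3 : 0 ≤ (i : ℝ) / (2 * g.K1) := by positivity
  have b4 : ((i : ℝ) + 1) / (2 * g.K1) ≤ 1 / 2 := by
    have : (i : ℝ) + 1 ≤ g.K1 := by exact_mod_cast hi
    rw [div_le_div_iff₀ (by positivity) (by norm_num)]; linarith
  have b5 : ((g.D ^ g.ls : ℕ) : ℝ) * g.δ = 1 := by push_cast; rw [mul_comm]; exact h.δ_mul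
  rw [b5]
  constructor <;> linarith

theorem sum_nrm_leaf (h : g.Ok M) (i N : ℕ) : ∑ l ∈ range N, nrm (leaf g M F i l) ≤ nrm (F i) := by
  have hδ := h.δ_pos
  refine sum_nrm_cut_le (range N) (fun l : ℕ => l * g.δ) (fun l : ℕ => (l + 1) * g.δ)
    fun a _ b _ hab => ?_
  rcases lt_or_gt_of_ne hab with p | p
  · left; have : (a : ℝ) + 1 ≤ b := by exact_mod_cast p
    gcongr
  · right; have : (b : ℝ) + 1 ≤ a := by exact_mod_cast p
    gcongr

theorem idx_of_ne (h : g.Ok M) {i l : ℕ} {w : ℝ}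
    (hF : Supp M (F i) (1 / 4 + i / (2 * g.K1) - 10 / √g.R)
      (1 / 4 + (i + 1) / (2 * g.K1) + 10 / √g.R) w) (hne : leaf g M F i l ≠ 0) :
    |l * g.δ - (1 / 4 + i / (2 * g.K1))| ≤ 3 / (4 * g.K1) := by
  obtain ⟨k, hk⟩ : (leaf g M F i l).coeff.support.Nonempty := by
    rw [Finsupp.support_nonempty_iff]; simpa using hne
  obtain ⟨hk0, a3, a4⟩ := mem_support_cut.1 hk
  obtain ⟨a1, a2, -⟩ := hF k hk0
  have hK := h.K1_ge
  have b1 := sqrt_small h
  have b2 := δ_small h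
  have e1 : ((i : ℝ) + 1) / (2 * g.K1) = i / (2 * g.K1) + 4 * (1 / (8 * g.K1)) := by
    field_simp; ring
  have e2 : (3 : ℝ) / (4 * g.K1) = 6 * (1 / (8 * g.K1)) := by field_simp; ring
  have : 0 < 1 / (8 * (g.K1 : ℝ)) := by positivity
  rw [abs_le]; constructor <;> linarith

end WP

open WP in
theorem wp (hK : KerStmt) : WPStmt := by
  classical
  intro g M F E k Y h hE hk hkD hY hF hen
  have hR := h.R_pos
  have hρ := h.ρ_pos
  have hδ := h.δ_pos
  have hH := h.H_ge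
  have hD := h.D_ge
  have hL := M.hL
  have hQ := M.hQ
  have hH0 : 0 < g.H := by linarith
  have hH1 : 1 ≤ g.H := by linarith
  have hkD' : 2 * (k : ℝ) ≤ g.D := by
    by_contra hc
    have h1 : 1 ≤ (2 * k / g.D : ℝ) := by rw [le_div_iff₀ (by linarith)]; linarith
    have h2 := (one_le_pow₀ h1).trans hkD
    rw [le_div_iff₀ (by positivity), one_mul] at h2
    exact absurd h2 (not_le.2 (one_lt_pow₀ (by linarith) (by norm_num)))
  have hDρ := h.D_mul_ρ_le
  have hLg := h.L_ge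
  obtain ⟨J, s0, η, s1, s2, hJ, hj, hsp, hre, hone, hdec⟩ :=
    hK k M.L g.ρ hk hρ (by linarith [mul_le_mul_of_nonneg_right hkD' hρ.le])
  have hu := unity hre hone
  set N := g.D ^ g.ls with hN
  set TA : Finset Tb := range g.K1 ×ˢ range N ×ˢ J with hTA
  set pk := pkt g M η F with hpk
  set e : Tb → ℝ := fun τ => en M g.R (pk τ) with he
  have memTA : ∀ τ ∈ TA, τ.1 < g.K1 ∧ τ.2.1 < N ∧ τ.2.2 ∈ J := fun τ hτ => by
    simpa [hTA] using hτ
  have hc0 : 0 ≤ M.L ^ 2 * M.Q / g.R := by positivity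
  have hleaf : ∑ i ∈ range g.K1, ∑ l ∈ range N, en M g.R (leaf g M F i l) ≤ E ^ 2 := by
    refine le_trans (sum_le_sum fun i _ => ?_) hen
    simp only [en, ← mul_sum]
    exact mul_le_mul_of_nonneg_left (sum_nrm_leaf h i N) hc0
  have htot : ∑ τ ∈ TA, e τ ≤ E ^ 2 := by
    refine le_trans ?_ hleaf
    rw [hTA, sum_product]
    refine sum_le_sum fun i _ => ?_
    rw [sum_product]
    refine sum_le_sum fun l _ => ?_
    simp only [he, en, ← mul_sum]
    refine mul_le_mul_of_nonneg_left ?_ hc0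
    have := transfer M J {()} (fun j => pk (i, l, j)) (fun _ => leaf g M F i l) (fun _ => 1)
      fun z _ _ => by
        simp only [hpk, ev_pkt, norm_mul, mul_pow, ← sum_mul, sum_singleton]
        exact mul_le_mul_of_nonneg_right (hu _).2.1 (by positivity)
    simpa using this
  have he0 : ∀ τ, 0 ≤ e τ := fun τ => en_nonneg hR.le _
  have heE : ∀ τ ∈ TA, e τ ≤ E ^ 2 := fun τ hτ =>
    (single_le_sum (fun τ _ => he0 τ) hτ).trans htot
  have hcard : (#TA : ℝ) ≤ g.H ^ 8 := by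
    have a1 : (g.K1 : ℝ) ≤ g.H := by
      linarith [h.K1_le, h.K1_ge, h.D_le_pow, h.pow_le_H]
    have a2 : (N : ℝ) ≤ g.H := by rw [hN]; push_cast; exact h.pow_le_H
    have a3 : (#J : ℝ) ≤ g.H ^ 6 := by
      have b1 : 2 * M.L / g.ρ ≤ 2 * M.L := div_le_self (by positivity) (by linarith [h.ρ_ge])
      have b2 : 1 ≤ g.H ^ 5 := one_le_pow₀ hH1
      have b3 : g.H ^ 6 = g.H * g.H ^ 5 := by ring
      have b4 : 3 * g.H ^ 5 ≤ g.H * g.H ^ 5 :=
        mul_le_mul_of_nonneg_right (by linarith) (by positivity)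
      linarith [h.l2]
    rw [hTA, card_product, card_product, card_range, card_range]
    push_cast
    calc (g.K1 : ℝ) * (N * #J) ≤ g.H * (g.H * g.H ^ 6) := by gcongr
      _ = g.H ^ 8 := by ring
  have hs : ∀ τ ∈ TA, _ := fun τ hτ =>
    supp_pkt (η := η) h τ (hF _ (memTA τ hτ).1) (hsp _ (memTA τ hτ).2.2)
  have hs1 : ∀ τ ∈ TA, Supp M (pk τ) (τ.2.1 * g.δ - 1 / g.ρ) ((τ.2.1 + 1) * g.δ + 1 / g.ρ)
      (8 / g.R) := fun τ hτ =>
    (hs τ hτ).mono (by gcongr; exact le_max_left _ _) (by gcongr; exact min_le_left _ _) le_rfl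
  have hρ' := h.inv_ρ_le
  have hρ0 : 0 < 1 / g.ρ := by positivity
  have hδ1 := h.δ_le_one
  have hgl : ∀ (T : Finset Tb) (i : ℕ) (p : ℝ × ℝ), T ⊆ TA →
      ∑ l ∈ range N, ev M (gl T pk i l) p = ∑ τ ∈ T, if τ.1 = i then ev M (pk τ) p else 0 := by
    intro T i p hT
    simp only [gl, ev_sum]
    simp only [sum_filter]
    rw [sum_comm]
    refine sum_congr rfl fun τ hτ => ?_
    by_cases q : τ.1 = i
    · simp [q, (memTA τ (hT hτ)).2.1]
    · simp [q]
  refine ⟨s0, fun c => {τ ∈ TA | E ^ 2 / 2 ^ (c + 1) < e τ ∧ e τ ≤ E ^ 2 / 2 ^ c}, pk,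
    fun c => E ^ 2 / 2 ^ c, fun c _ => ?_, fun i hi p => ?_⟩
  · beta_reduce
    set T : Finset Tb := {τ ∈ TA | E ^ 2 / 2 ^ (c + 1) < e τ ∧ e τ ≤ E ^ 2 / 2 ^ c} with hT
    have hsub : T ⊆ TA := filter_subset _ _
    refine ⟨s1, s2, (Nat.cast_le.2 (card_le_card hsub)).trans hcard, fun τ hτ => ?_,
      fun τ hτ => hs1 τ (hsub hτ), fun τ hτ => ?_, by positivity,
      fun τ hτ => (mem_filter.1 hτ).2.2, ?_, ?_, fun τ hτ z hz1 hz2 => ?_⟩
    · obtain ⟨m1, m2, -⟩ := memTA τ (hsub hτ)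
      refine ⟨m1, m2, idx_of_ne h (hF _ m1) fun h0 => ?_⟩
      have h1 := (mem_filter.1 hτ).2.1
      have h2 : e τ = 0 := by simp only [he, hpk, pkt, h0, mul_zero, en_zero]
      have : 0 < E ^ 2 / 2 ^ (c + 1) := by positivity
      linarith
    · exact (hs τ (hsub hτ)).mono (by gcongr; exact le_max_right _ _)
        (by gcongr; exact min_le_right _ _) le_rfl
    · have a1 : (#T : ℝ) * (E ^ 2 / 2 ^ (c + 1)) ≤ ∑ τ ∈ T, e τ := by
        rw [← nsmul_eq_mul]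
        exact card_nsmul_le_sum _ _ _ fun τ hτ => (mem_filter.1 hτ).2.1.le
      have a2 : ∑ τ ∈ T, e τ ≤ ∑ τ ∈ TA, e τ :=
        sum_le_sum_of_subset_of_nonneg hsub fun τ _ _ => he0 τ
      have a3 : (#T : ℝ) * (E ^ 2 / 2 ^ c) = 2 * (#T * (E ^ 2 / 2 ^ (c + 1))) := by
        rw [pow_succ (2 : ℝ) c]; field_simp
      linarith
    · refine le_trans (sum_le_sum fun i hi => sum_le_sum fun l hl => ?_) hleaf
      refine mul_le_mul_of_nonneg_left ?_ hc0
      have := transfer_one M (gl T pk i l) (leaf g M F i l) 1 fun z => by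
        have a1 : ev M (gl T pk i l) z = (∑ j ∈ J with (i, l, j) ∈ T,
            ev1 M.L (η j) (z.1 + cs M g.δ l * z.2)) * ev M (leaf g M F i l) z := by
          rw [gl, ev_sum, sum_mul]
          refine sum_bij (fun τ _ => τ.2.2) (fun τ hτ => ?_) (fun τ hτ τ' hτ' q => ?_)
            (fun j hj => ⟨(i, l, j), ?_, rfl⟩) fun τ hτ => ?_
          · obtain ⟨m1, rfl, rfl⟩ := mem_filter.1 hτ
            exact mem_filter.2 ⟨(memTA τ (hsub m1)).2.2, m1⟩
          · obtain ⟨-, m2, m3⟩ := mem_filter.1 hτ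
            obtain ⟨-, m4, m5⟩ := mem_filter.1 hτ'
            exact Prod.ext (m2.trans m4.symm) (Prod.ext (m3.trans m5.symm) q)
          · exact mem_filter.2 ⟨(mem_filter.1 hj).2, rfl, rfl⟩
          · obtain ⟨-, rfl, rfl⟩ := mem_filter.1 hτ
            exact ev_pkt τ z
        rw [a1, norm_mul, mul_pow]
        exact mul_le_mul_of_nonneg_right
          (pow_le_one₀ (norm_nonneg _) ((hu _).2.2 _ (filter_subset _ _))) (by positivity)
      simpa using this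
    · obtain ⟨m1, m2, m3⟩ := memTA τ (hsub hτ)
      have a1 := hdec _ m3 _ (g.D * g.ρ) (by positivity) (by linarith) (by linarith [hj _ m3]) hz2
      have a2 : (k * g.ρ / (g.D * g.ρ) : ℝ) ^ (2 * k) ≤ 1 / g.H ^ 200 := by
        refine le_trans (pow_le_pow_left₀ (by positivity) ?_ _) hkD
        rw [mul_div_mul_right _ _ hρ.ne']
        gcongr; linarith [(Nat.cast_nonneg k : (0 : ℝ) ≤ k)]
      have a3 : ‖ev M (leaf g M F τ.1 τ.2.1) z‖ ^ 2 ≤ (6 * E) ^ 2 := by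
        have b1 := ev_sq_en h (((hF _ m1).cut' (τ.2.1 * g.δ) ((τ.2.1 + 1) * g.δ)).mono le_rfl le_rfl
          (show 1 / g.R ≤ 8 / g.R by gcongr; norm_num)) (by linarith) (by linarith) z
        have b2 : en M g.R (leaf g M F τ.1 τ.2.1) ≤ E ^ 2 := by
          refine le_trans ?_ hleaf
          refine le_trans ?_ (single_le_sum (f := fun i => ∑ l ∈ range N,
            en M g.R (leaf g M F i l)) (fun i _ => sum_nonneg fun l _ => en_nonneg hR.le _)
            (mem_range.2 m1))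
          exact single_le_sum (f := fun l => en M g.R (leaf g M F τ.1 l))
            (fun l _ => en_nonneg hR.le _) (mem_range.2 m2)
        change ‖ev M (leaf g M F τ.1 τ.2.1) z‖ ^ 2 ≤ 36 * en M g.R (leaf g M F τ.1 τ.2.1) at b1
        linarith
      have a4 := (pow_le_pow_iff_left₀ (norm_nonneg _) (by positivity) two_ne_zero).1 a3
      rw [hpk, ev_pkt, norm_mul]
      calc _ ≤ 1 / g.H ^ 200 * (6 * E) :=
            mul_le_mul (a1.trans a2) a4 (norm_nonneg _) (by positivity)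
        _ ≤ E / g.H ^ 30 := by
            rw [one_div_mul_eq_div, div_le_div_iff₀ (by positivity) (by positivity)]
            have b1 : 6 ≤ g.H ^ 170 := le_trans (by linarith) (le_self_pow₀ hH1 (by norm_num))
            have b2 : g.H ^ 200 = g.H ^ 170 * g.H ^ 30 := by ring
            rw [b2]
            have := mul_le_mul_of_nonneg_right b1 (show 0 ≤ E * g.H ^ 30 by positivity)
            linarith
  · set f : Tb → ℂ := fun τ => if τ.1 = i then ev M (pk τ) p else 0 with hf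
    have a1 : ev M (F i) p = ∑ τ ∈ TA, f τ := by
      rw [← sum_leaf h hi (hF i hi), ev_sum, hTA, sum_product,
        sum_eq_single_of_mem i (mem_range.2 hi) fun i' _ hi' => by simp [hf, hi'], sum_product]
      refine sum_congr rfl fun l _ => ?_
      simp only [hf, if_true, hpk, ev_pkt, ← sum_mul, (hu _).1, one_mul]
    rw [sum_congr rfl fun c _ => hgl _ i p (filter_subset _ _),
      classes TA e (E ^ 2) (by positivity) heE f, a1,
      ← sum_filter_add_sum_filter_not TA (fun τ => E ^ 2 / 2 ^ (40 * Y) < e τ), add_sub_cancel_left]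
    have a2 : ∀ τ ∈ {τ ∈ TA | ¬ E ^ 2 / 2 ^ (40 * Y) < e τ}, ‖f τ‖ ≤ 6 * E / g.H ^ 20 := by
      intro τ hτ
      obtain ⟨m1, m2⟩ := mem_filter.1 hτ
      have b1 := ev_sq_en h (hs1 τ m1) (by linarith) (by linarith) p
      have b2 : E ^ 2 / 2 ^ (40 * Y) ≤ E ^ 2 / g.H ^ 40 := by
        refine div_le_div_of_nonneg_left (by positivity) (by positivity) ?_
        rw [mul_comm, pow_mul]; gcongr
      have b3 : ‖ev M (pk τ) p‖ ^ 2 ≤ (6 * E / g.H ^ 20) ^ 2 := by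
        have : (6 * E / g.H ^ 20) ^ 2 = 36 * (E ^ 2 / g.H ^ 40) := by ring
        have m3 : en M g.R (pk τ) ≤ _ := not_lt.1 m2
        linarith
      have b4 := (pow_le_pow_iff_left₀ (norm_nonneg _) (by positivity) two_ne_zero).1 b3
      simp only [hf]
      split_ifs
      · exact b4
      · rw [norm_zero]; positivity
    refine (norm_sum_le _ _).trans ((sum_le_card_nsmul _ _ _ a2).trans ?_)
    rw [nsmul_eq_mul]
    have a3 : (#{τ ∈ TA | ¬ E ^ 2 / 2 ^ (40 * Y) < e τ} : ℝ) ≤ g.H ^ 8 :=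
      (Nat.cast_le.2 (card_filter_le _ _)).trans hcard
    calc _ ≤ g.H ^ 8 * (6 * E / g.H ^ 20) := by gcongr
      _ = 6 / g.H ^ 2 * (E / g.H ^ 10) := by field_simp
      _ ≤ E / g.H ^ 10 := by
          refine mul_le_of_le_one_left (by positivity) ?_
          rw [div_le_one (by positivity)]
          exact le_trans (by linarith) (le_self_pow₀ hH1 two_ne_zero)

end

end Pool.Agent.Lib.MP_108739_an.HA
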