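import Pool.Agent.Lib.MP_108739_an.HA.Comb
import Pool.Agent.Lib.MP_108739_an.HA.Vdc
import Pool.Agent.Lib.MP_108739_an.HA.Ridge
import Pool.Agent.Lib.MP_108739_an.HA.Dec
import Pool.Agent.Lib.MP_108739_an.HA.Ind
import Pool.Agent.Lib.MP_108739_an.HA.StepA
import Pool.Agent.Lib.MP_108739_an.HA.StepB
import Pool.Agent.Lib.MP_108739_an.HA.LN
import Pool.Agent.Lib.MP_108739_an.HA.FF
import Pool.Agent.Lib.MP_108739_an.HA.Frame
import Pool.Agent.Lib.MP_108739_an.HA.Stage
import Pool.Agent.Lib.MP_108739_an.HA.Tri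
import Pool.Agent.Lib.MP_108739_an.HA.Ker
import Pool.Agent.Lib.MP_108739_an.HA.Disc
import Pool.Agent.Lib.MP_108739_an.HA.Sieve
import Pool.Agent.Lib.MP_108739_an.HA.Prep
import Pool.Agent.Lib.MP_108739_an.HA.WP
import Pool.Agent.Lib.MP_108739_an.HA.Step
import Pool.Agent.Lib.MP_108739_an.HA.G0
import Pool.Agent.Lib.MP_108739_an.HA.G1
import Pool.Agent.Lib.MP_108739_an.HA.G2
import Pool.Agent.Lib.MP_108739_an.HA.CAsm
import Pool.Agent.Lib.MP_108739_an.HA.CNar
import Pool.Agent.Lib.MP_108739_an.HA.CDel1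
import Pool.Agent.Lib.MP_108739_an.HA.CDel2
import Pool.Agent.Lib.MP_108739_an.HA.CFsum

/-! The analysis half assembled: the incidence estimate implies the level set estimate. -/

namespace Pool.Agent.Lib.MP_108739_an.HA

theorem haAll (hF : FStmt) : G1Stmt :=
  have hFr : FrameStmt := frame resc dir flow
  g1 (g2 (coreThm triv (step (prep uni HA.slope) stage (wp ker) tri ln (stepA bump sieve)
    (stepB dir) (casm (nar narrow) del1 del2 fsum hFr) dec (ff hF flow)))
    hFr narrow sparse vdc ridge (disc dir))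

end Pool.Agent.Lib.MP_108739_an.HA
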