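import Pool.Agent.Lib.MP_108739_an.HA.Geo
import Pool.Agent.Lib.MP_108739_an.HA.CDefs

/-! Deletion of the flags in rich strips. -/

namespace Pool.Agent.Lib.MP_108739_an.HA

open Finset

variable {g : Geo} {M : Mo} {X : Finset (ℝ × ℝ)} {A n h d : ℕ} {ts : ℝ} {o : ℤ} {F1 : Finset Fg}
  {b : Fg → ℤ}

lemma d1_ge (hg : g.Ok M) (h : ℕ) : g.δ ≤ g.sg h :=
  le_mul_of_one_le_right hg.δ_pos.le (one_le_pow₀ (by linarith [hg.D_ge]))

lemma d1_le (hg : g.Ok M) (hl : h < g.ls) : g.sg h * g.D ≤ 1 := by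
  rw [Geo.sg, mul_assoc, ← pow_succ, ← hg.δ_mul]
  exact mul_le_mul_of_nonneg_left (pow_le_pow_right₀ (by linarith [hg.D_ge]) hl) hg.δ_pos.le

lemma d1_arc (hg : g.Ok M) {l a : ℕ} (ha : l / g.D ^ h = a) :
    a * g.sg h ≤ l * g.δ ∧ l * g.δ ≤ (a + 1) * g.sg h := by
  have hD : 0 < g.D ^ h := Nat.pow_pos (by have := hg.hK; have := hg.hD; omega)
  have h1 : a * g.D ^ h ≤ l := ha ▸ Nat.div_mul_le_self _ _
  have h2 : l ≤ (a + 1) * g.D ^ h := (ha ▸ (Nat.div_lt_iff_lt_mul hD).1 (Nat.lt_succ_self _)).le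
  have h3 : (a : ℝ) * (g.D : ℝ) ^ h ≤ l := by exact_mod_cast h1
  have h4 : (l : ℝ) ≤ (a + 1) * (g.D : ℝ) ^ h := by exact_mod_cast h2
  have h5 := mul_le_mul_of_nonneg_right h3 hg.δ_pos.le
  have h6 := mul_le_mul_of_nonneg_right h4 hg.δ_pos.le
  unfold Geo.sg
  constructor <;> linarith

lemma d1_cls (hg : g.Ok M) (hN : Nar g X A n h d ts o F1 b) (l0 : ℤ) {r : ℕ} (hr : 1 ≤ r) :
    ∃ k a0, 1 ≤ k ∧ h + k ≤ g.ls ∧ g.D ^ k ≤ g.D * r ∧ ∀ f ∈ F1, l0 ≤ f.2.2 → (f.2.2 : ℤ) < l0 + r →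
      f.2.2 / g.D ^ k = a0 ∨ f.2.2 / g.D ^ k = a0 + 1 := by
  have hD : 1 < g.D := by have := hg.hK; have := hg.hD; omega
  have h1 : g.D ^ Nat.log g.D r ≤ r := Nat.pow_log_le_self _ (by omega)
  have h2 : r < g.D ^ (Nat.log g.D r + 1) := Nat.lt_pow_succ_log_self hD r
  have hl := hN.hl
  by_cases hk : h + (Nat.log g.D r + 1) ≤ g.ls
  · refine ⟨_, l0.toNat / g.D ^ (Nat.log g.D r + 1), by omega, hk, ?_, fun f _ h3 h4 => ?_⟩
    · rw [pow_succ']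
      exact Nat.mul_le_mul_left _ h1
    · generalize g.D ^ (Nat.log g.D r + 1) = P at h2 ⊢
      have h5 := Nat.div_le_div_right (c := P) (show l0.toNat ≤ f.2.2 by omega)
      have h6 := Nat.div_le_div_right (c := P) (show f.2.2 ≤ l0.toNat + P by omega)
      rw [Nat.add_div_right _ (by omega)] at h6
      omega
  · refine ⟨g.ls - h, 0, by omega, by omega, ?_, fun f hf _ _ => Or.inl ?_⟩
    · exact ((Nat.pow_le_pow_right hD.le (by omega)).trans h1).trans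
        (Nat.le_mul_of_pos_left _ (by omega))
    · obtain ⟨l, h3, h4, _⟩ := hN.lf f hf
      rw [← h4, Nat.div_div_eq_div_mul, ← pow_add, show h + (g.ls - h) = g.ls by omega]
      exact Nat.div_eq_of_lt h3

open Classical in
lemma d1_gam (hg : g.Ok M) (hN : Nar g X A n h d ts o F1 b) (h0 : 0 ≤ ts) (h1 : ts ≤ 1)
    (p : ℝ × ℝ) (i : ℕ) (l0 : ℤ) {r : ℕ} (hr : 1 ≤ r) {U : Finset Fg}
    (hU : ∀ f ∈ U, f ∈ F1 ∧ f.1 = p ∧ f.2.1 = i ∧ l0 ≤ f.2.2 ∧ (f.2.2 : ℤ) < l0 + r) :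
    (U.card : ℝ) ≤ 2 * g.D * (r : ℝ) ^ ts := by
  obtain ⟨k, a0, k1, k2, k3, k4⟩ := d1_cls hg hN l0 hr
  have hD := hg.D_ge
  have key : ∀ a, (({f ∈ F1 | f.1 = p ∧ f.2.1 = i ∧ f.2.2 / g.D ^ k = a} : Finset Fg).card : ℝ) ≤
      g.D * (r : ℝ) ^ ts := fun a => by
    have h2 := hN.ns p i (h + k) a (by omega) k2
    rw [Nat.add_sub_cancel_left, pow_add, Real.mul_rpow (by positivity) (by positivity),
      mul_comm (((g.D : ℝ) ^ h) ^ ts)] at h2
    have h3 := le_of_mul_le_mul_right h2 (by positivity)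
    have h4 : ((g.D : ℝ) ^ k) ^ ts ≤ ((g.D : ℝ) * r) ^ ts :=
      Real.rpow_le_rpow (by positivity) (by exact_mod_cast k3) h0
    have h5 : (g.D : ℝ) ^ ts ≤ g.D := by
      simpa using Real.rpow_le_rpow_of_exponent_le (by linarith : (1 : ℝ) ≤ g.D) h1
    rw [Real.mul_rpow (by positivity) (by positivity)] at h4
    exact h3.trans (h4.trans (mul_le_mul_of_nonneg_right h5 (by positivity)))
  have h2 : U ⊆ {f ∈ F1 | f.1 = p ∧ f.2.1 = i ∧ f.2.2 / g.D ^ k = a0} ∪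
      {f ∈ F1 | f.1 = p ∧ f.2.1 = i ∧ f.2.2 / g.D ^ k = a0 + 1} := fun f hf => by
    obtain ⟨u1, u2, u3, u4, u5⟩ := hU f hf
    simp only [mem_union, mem_filter]
    exact (k4 f u1 u4 u5).imp (fun h => ⟨u1, u2, u3, h⟩) fun h => ⟨u1, u2, u3, h⟩
  have h3 := (Nat.cast_le (α := ℝ)).2 ((card_le_card h2).trans (card_union_le _ _))
  rw [Nat.cast_add] at h3
  linarith [key a0, key (a0 + 1)]

lemma d1_tube (hg : g.Ok M) (hN : Nar g X A n h d ts o F1 b) {f : Fg} (hf : f ∈ F1)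
    (hp : InBox g.R f.1) :
    |f.1.1 + M.ψ (f.2.2 * g.sg h) * f.1.2 -
      ⌊fx M (g.sc h d) (b f) f.1 / (g.R * g.sc h d ^ 2 / 4)⌋ * (g.R * g.sc h d / 8)| ≤
      8 * g.sg h * g.R := by
  have hR := hg.R_pos
  have hK := hg.K1_ge
  have hσ : 0 < g.sg h := hg.δ_pos.trans_le (d1_ge hg h)
  have hP : (1 : ℝ) ≤ (g.K1 : ℝ) ^ d := one_le_pow₀ (by linarith)
  have hs : 0 < g.sc h d := div_pos hσ (by linarith)
  have hs1 : g.sc h d ≤ g.sg h := div_le_self hσ.le hP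
  have hs2 : (g.K1 : ℝ) ^ d * g.sc h d = g.sg h := mul_div_cancel₀ _ (by linarith)
  have hP' : (0 : ℤ) < (g.K1 : ℤ) ^ d := by exact_mod_cast (by linarith : (0 : ℝ) < (g.K1 : ℝ) ^ d)
  have b1 : (f.2.2 + o) * (g.K1 : ℤ) ^ d ≤ b f := hN.bd f hf ▸ Int.ediv_mul_le _ hP'.ne'
  have b2 : b f < (f.2.2 + o + 1) * (g.K1 : ℤ) ^ d := hN.bd f hf ▸ Int.lt_ediv_add_one_mul_self _ hP'
  have b3 : ((f.2.2 : ℝ) + o) * (g.K1 : ℝ) ^ d ≤ b f := by exact_mod_cast b1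
  have b4 : (b f : ℝ) ≤ (f.2.2 + o + 1) * (g.K1 : ℝ) ^ d := by exact_mod_cast b2.le
  have b5 := mul_le_mul_of_nonneg_right b3 hs.le
  have b6 := mul_le_mul_of_nonneg_right b4 hs.le
  rw [mul_assoc, hs2] at b5 b6
  have o1 : |(o : ℝ)| ≤ 1 := by exact_mod_cast hN.ho
  obtain ⟨o1, o2⟩ := abs_le.1 o1
  have o3 := mul_le_mul_of_nonneg_right o1 hσ.le
  have o4 := mul_le_mul_of_nonneg_right o2 hσ.le
  have c1 := cs_near M (g.sc h d) (b f) (f.2.2 * g.sg h)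
  have c2 : |f.2.2 * g.sg h - (b f - 1 / 2) * g.sc h d| ≤ 5 / 2 * g.sg h :=
    abs_le.2 ⟨by linarith, by linarith⟩
  have c0 : 1 ≤ g.sg h * g.R := (div_le_iff₀ hR).1 (hg.inv_R_le.trans (d1_ge hg h))
  have c3 : 2 / M.L ≤ g.sg h / 2 := by
    rw [div_le_iff₀ M.hL]
    linarith [mul_le_mul_of_nonneg_left hg.L_ge hσ.le]
  have c4 : 1 / (2 * M.Q) ≤ g.sg h / 2 := by
    rw [div_le_iff₀ (by linarith [M.hQ])]
    linarith [mul_le_mul_of_nonneg_left hg.Q_ge hσ.le]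
  have c5 : |(M.ψ (f.2.2 * g.sg h) - cs M (g.sc h d) (b f)) * f.1.2| ≤ 6 * g.sg h * g.R := by
    rw [abs_mul, abs_of_nonneg hp.2.2.1]
    exact mul_le_mul (by linarith) hp.2.2.2.le hp.2.2.1 (by positivity)
  obtain ⟨c5, c6⟩ := abs_le.1 c5
  have e : fx M (g.sc h d) (b f) f.1 / (g.R * g.sc h d ^ 2 / 4) =
      (f.1.1 + cs M (g.sc h d) (b f) * f.1.2) / (g.R * g.sc h d / 8) := by
    rw [fx]
    field_simp
    ring
  rw [e]
  have w0 : 0 < g.R * g.sc h d / 8 := by positivity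
  have w1 := (le_div_iff₀ w0).1
    (Int.floor_le ((f.1.1 + cs M (g.sc h d) (b f) * f.1.2) / (g.R * g.sc h d / 8)))
  have w2 := (div_lt_iff₀ w0).1
    (Int.lt_floor_add_one ((f.1.1 + cs M (g.sc h d) (b f) * f.1.2) / (g.R * g.sc h d / 8)))
  have w3 := mul_le_mul_of_nonneg_left hs1 hR.le
  exact abs_le.2 ⟨by linarith, by linarith⟩

lemma d1_num {c σ e k t P N a m Γ D T mm : ℝ} (hσ : 0 < σ) (hq : 0 < c * k * σ ^ e) (hP : 0 < P)
    (hN : 0 < N) (ha : 0 < a) (hm : 0 < m) (hΓ : 0 < Γ) (hD : 2 ≤ D) (h1 : m ≤ σ ^ (-t / 3))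
    (h2 : 16 * N * a * Γ * D ≤ mm * (c * k * σ ^ e * m ^ 2)) (h3 : mm * T ≤ P)
    (h4 : c * σ ^ e * k * (P / (N * a * (2 * m))) * (N / (Γ * N * σ ^ t)) * σ ^ (t / 2) *
      (2 * m) ^ (3 / 2 : ℝ) / √(2 * D) ≤ 8 * T) : False := by
  have hD0 : 0 < D := by linarith
  have a0 : 0 < N * a * Γ * D := by positivity
  have hmm : 0 < mm :=
    (mul_pos_iff_of_pos_right (by positivity : 0 < c * k * σ ^ e * m ^ 2)).1 (by linarith)
  have a1 : m ^ (3 / 2 : ℝ) ≤ σ ^ (-t / 2) := by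
    refine (Real.rpow_le_rpow hm.le h1 (by norm_num)).trans (le_of_eq ?_)
    rw [← Real.rpow_mul hσ.le]
    congr 1
    ring
  have a2 : σ ^ (t / 2) = σ ^ (-t / 2) * σ ^ t := by
    rw [← Real.rpow_add hσ]
    congr 1
    ring
  have a3 : 2 * m ^ (3 / 2 : ℝ) ≤ (2 * m) ^ (3 / 2 : ℝ) := by
    rw [Real.mul_rpow (by norm_num) hm.le]
    refine mul_le_mul_of_nonneg_right ?_ (by positivity)
    simpa using Real.rpow_le_rpow_of_exponent_le one_le_two (by norm_num : (1 : ℝ) ≤ 3 / 2)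
  have a4 : m ^ (3 / 2 : ℝ) * m ^ (3 / 2 : ℝ) = m ^ 3 := by
    rw [← Real.rpow_add hm, ← Real.rpow_natCast]
    norm_num
  have a5 : √(2 * D) ≤ D := Real.sqrt_le_iff.2 ⟨hD0.le, by nlinarith⟩
  have a6 : 0 < √(2 * D) := by positivity
  have a7 : 2 * m ^ 3 ≤ σ ^ (-t / 2) * (2 * m) ^ (3 / 2 : ℝ) := by
    have := mul_le_mul a1 a3 (by positivity) (by positivity)
    linarith
  have a8 : 0 < σ ^ t := by positivity
  have e1 : c * σ ^ e * k * (P / (N * a * (2 * m))) * (N / (Γ * N * σ ^ t)) * σ ^ (t / 2) *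
      (2 * m) ^ (3 / 2 : ℝ) = c * k * σ ^ e * P / (N * a * (2 * m) * Γ) *
        (σ ^ (-t / 2) * (2 * m) ^ (3 / 2 : ℝ)) := by
    rw [a2]
    field_simp
  rw [e1, div_le_iff₀ a6] at h4
  have a9 := mul_le_mul_of_nonneg_left a7
    (by positivity : 0 ≤ c * k * σ ^ e * P / (N * a * (2 * m) * Γ))
  have e2 : c * k * σ ^ e * P / (N * a * (2 * m) * Γ) * (2 * m ^ 3) =
      c * k * σ ^ e * m ^ 2 * P / (N * a * Γ) := by field_simp
  rw [e2] at a9
  have b1 := mul_le_mul_of_nonneg_left (a9.trans h4) hmm.le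
  have b2 := mul_le_mul h3 a5 a6.le hP.le
  have b3 : mm * (c * k * σ ^ e * m ^ 2) * P / (N * a * Γ) ≤ 8 * D * P := by
    rw [mul_assoc mm, mul_div_assoc mm]
    linarith
  rw [div_le_iff₀ (by positivity)] at b3
  have b4 := mul_le_mul_of_nonneg_right h2 hP.le
  have b5 := mul_pos a0 hP
  linarith

open Classical in
theorem del1 : Del1Stmt := by
  intro C0 e e2 c g M X A n h d t Γ mm o F1 b hF he2 hc hg hX t0 t1 hΓ hA hFr hN hn hm
  by_contra hcon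
  rw [not_le] at hcon
  set Φ : Finset Fg := {f ∈ F1 | mm < (strip g M (g.sc h d) F1 b f).card} with hΦ
  have hsub : Φ ⊆ F1 := filter_subset _ _
  have hH := hg.H_ge
  have hK := hg.K1_ge
  have hKD := hg.K1_le
  have hP : (0 : ℝ) < Φ.card := lt_of_le_of_lt (by positivity) hcon
  obtain ⟨f0, hf0⟩ := card_pos.1 (Nat.cast_pos.1 hP)
  have hX0 : (0 : ℝ) < X.card := Nat.cast_pos.2 (card_pos.2 ⟨_, (hN.mem f0 (hsub hf0)).1⟩)
  have hA0 : (0 : ℝ) < A := Nat.cast_pos.2 hA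
  have hn0 : (0 : ℝ) < n := Nat.cast_pos.2 hN.hn
  have hσ : 0 < g.sg h := hg.δ_pos.trans_le (d1_ge hg h)
  have hσ1 : 100 * g.sg h ≤ 1 / g.K1 := by
    rw [le_div_iff₀ (by linarith)]
    linarith [d1_le hg hN.hl, mul_le_mul_of_nonneg_left hKD hσ.le]
  have hκ : (1 : ℝ) / g.K1 ≤ 1 := (div_le_one (by linarith)).2 (by linarith)
  let ky : Fg → ℕ × ℤ × ℤ := fun f =>
    (f.2.1, b f, ⌊fx M (g.sc h d) (b f) f.1 / (g.R * g.sc h d ^ 2 / 4)⌋)
  have hst : ∀ f f', f' ∈ strip g M (g.sc h d) F1 b f ↔ f' ∈ F1 ∧ ky f' = ky f := fun f f' => by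
    simp only [strip, mem_filter, ky, Prod.mk.injEq]
    refine and_congr_right fun _ => and_congr_right fun _ => and_congr_right fun h => ?_
    rw [h]
  have hT : mm * (Φ.image ky).card ≤ Φ.card := by
    rw [card_eq_sum_card_image ky Φ, Nat.cast_sum, mul_comm, ← nsmul_eq_mul]
    refine card_nsmul_le_sum _ _ _ fun τ hτ => ?_
    obtain ⟨f, hf, rfl⟩ := mem_image.1 hτ
    refine (mem_filter.1 hf).2.le.trans (Nat.cast_le.2 (card_le_card fun f' hf' => ?_))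
    obtain ⟨h1, h2⟩ := (hst f f').1 hf'
    have h3 : strip g M (g.sc h d) F1 b f' = strip g M (g.sc h d) F1 b f := by
      ext f''
      rw [hst, hst, h2]
    exact mem_filter.2 ⟨mem_filter.2 ⟨h1, h3 ▸ (mem_filter.1 hf).2⟩, h2⟩
  refine d1_num hσ (by positivity) hP hX0 hA0 hn0 (by linarith) (by linarith) hn hm hT
    (hF X id (fun _ => ()) (fun _ => (0, 0)) (fun a => M.ψ (a * g.sg h)) Φ (fun f => f.1)
      (fun f => f.2.1) (fun f => f.2.2) (Φ.image ky) (fun _ => ())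
      (fun τ => τ.2.1 / (g.K1 : ℤ) ^ d - o) (fun τ => τ.2.2 * (g.R * g.sc h d / 8)) g.R (g.sg h)
      (1 / g.K1) t (Γ * X.card * g.sg h ^ t) (2 * g.D) (Φ.card / (X.card * A * (2 * n))) 8 A (2 * n)
      hg.R_pos hσ (by linarith) hκ t0 t1 (by positivity) (by linarith) (by positivity) (by norm_num)
      (by positivity) ?_ ?_ ?_ ?_ ?_ ?_ ?_ ?_ ?_ ?_ ?_ ?_ ?_)
  · have h1 : g.sg h ^ (-e2) ≤ g.H ^ e2 := by
      rw [Real.rpow_neg hσ.le, ← Real.inv_rpow hσ.le]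
      refine Real.rpow_le_rpow (by positivity) ?_ he2.le
      rw [inv_le_comm₀ hσ (by linarith), ← one_div]
      exact (one_div_le_one_div_of_le hg.pow_pos hg.pow_le_H).trans (d1_ge hg h)
    have e1 : (Φ.card : ℝ) / (X.card * A * (2 * n)) * A = Φ.card / (2 * n * X.card) := by
      field_simp
    rw [e1, le_div_iff₀ (by positivity)]
    linarith [mul_le_mul_of_nonneg_right h1 (by positivity : (0 : ℝ) ≤ n * X.card)]
  · intro y hy
    obtain ⟨h1, h2, h3, h4⟩ := hX y hy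
    exact ⟨h1, by simpa using h2.le, h3, by simpa using h4.le⟩
  · intro _ z r h1 h2
    have h3 := hFr z r ((d1_ge hg h).trans h1) h2
    have h4 : 0 < g.sg h ^ t := by positivity
    rw [Real.div_rpow (by linarith) hσ.le, mul_assoc, mul_div_cancel₀ _ h4.ne']
    refine le_trans (Nat.cast_le.2 (card_le_card fun y hy => ?_)) h3
    simp only [mem_filter] at hy ⊢
    exact ⟨hy.1, hy.2.2⟩
  · intro f _ f' _ hh
    simp only [Prod.mk.injEq, Nat.cast_inj] at hh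
    exact Prod.ext hh.1 (Prod.ext hh.2.1 hh.2.2)
  · exact fun f hf => (hN.mem f (hsub hf)).1
  · intro f hf
    obtain ⟨l, h1, h2, _⟩ := hN.lf f (hsub hf)
    have h3 := (d1_arc hg h2).1
    have h4 := hg.leaf_lt h1
    have h5 := M.cv.psi_le (f.2.2 * g.sg h)
    rw [abs_of_nonneg (a := f.2.2 * g.sg h) (by positivity)] at h5
    simp only [Int.cast_natCast]
    linarith [hg.δ_pos]
  · intro f _ f' _
    have h1 := M.cv.sep (((f.2.2 : ℤ) : ℝ) * g.sg h) (((f'.2.2 : ℤ) : ℝ) * g.sg h)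
    rw [← sub_mul, abs_mul, abs_of_pos hσ] at h1
    exact (half_le_self (by positivity)).trans h1
  · intro f hf
    obtain ⟨l, _, h2, h3⟩ := hN.lf f (hsub hf)
    obtain ⟨h4, h5⟩ := d1_arc hg h2
    have e1 : (f.2.1 : ℝ) / (2 * g.K1) = f.2.1 * (1 / g.K1) / 2 := by field_simp
    have e2 : (3 : ℝ) / (4 * g.K1) = 3 / 4 * (1 / g.K1) := by field_simp
    rw [e1, e2] at h3
    obtain ⟨h3, h6⟩ := abs_le.1 h3
    simp only [Int.cast_natCast]
    exact abs_le.2 ⟨by linarith, by linarith⟩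
  · intro y
    refine Nat.cast_le.2 (le_trans (card_le_card fun i hi => ?_) (hN.im y))
    obtain ⟨f, hf, rfl⟩ := mem_image.1 hi
    simp only [mem_filter] at hf
    exact mem_image.2 ⟨f, mem_filter.2 ⟨hsub hf.1, hf.2⟩, rfl⟩
  · intro y i
    have h1 := (Nat.cast_le (α := ℝ)).2 (hN.ct y i)
    push_cast at h1
    refine le_trans (Nat.cast_le.2 (card_le_card fun f hf => ?_)) h1
    simp only [mem_filter] at hf
    exact mem_filter.2 ⟨hsub hf.1, hf.2⟩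
  · intro y i l0 r hr
    exact d1_gam hg hN (le_min t0 (by linarith)) (min_le_iff.2 (by
      rcases le_total t 1 with h | h
      · exact Or.inl h
      · exact Or.inr (by linarith))) y i l0 hr fun f hf => by
        simp only [mem_filter] at hf
        exact ⟨hsub hf.1, hf.2⟩
  · exact le_of_eq (by field_simp)
  · intro f hf
    refine ⟨ky f, mem_image_of_mem _ hf, rfl, ?_, ?_⟩
    · have := hN.bd f (hsub hf)
      simp only [ky]
      omega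
    · simpa only [ky, id, Int.cast_natCast] using
        d1_tube hg hN (hsub hf) (hX _ (hN.mem f (hsub hf)).1)

end Pool.Agent.Lib.MP_108739_an.HA
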