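import Pool.Agent.Lib.MP_108739_an.HA.CDefs
import Pool.Agent.Lib.MP_108739_an.HA.Geo

/-! Numerical facts on the arc lengths of the heavy case. -/

namespace Pool.Agent.Lib.MP_108739_an.HA

open Finset

variable {g : Geo} {M : Mo}

theorem Geo.Ok.sg_pos (hg : g.Ok M) (h : ℕ) : 0 < g.sg h := by
  have := hg.δ_pos; have := hg.D_ge; unfold Geo.sg; positivity

theorem Geo.Ok.δ_le_sg (hg : g.Ok M) (h : ℕ) : g.δ ≤ g.sg h :=
  le_mul_of_one_le_right hg.δ_pos.le (one_le_pow₀ (by linarith [hg.D_ge]))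

theorem Geo.Ok.sg_mul_le (hg : g.Ok M) {h : ℕ} (hl : h < g.ls) : g.sg h * g.D ≤ 1 := by
  have h1 : (g.D : ℝ) ^ (h + 1) ≤ (g.D : ℝ) ^ g.ls :=
    pow_le_pow_right₀ (by linarith [hg.D_ge]) hl
  have h2 := mul_le_mul_of_nonneg_left h1 hg.δ_pos.le
  rw [hg.δ_mul, pow_succ, ← mul_assoc] at h2
  exact h2

theorem Geo.Ok.sg_mul_K1_le (hg : g.Ok M) {h : ℕ} (hl : h < g.ls) : g.sg h * (100 * g.K1) ≤ 1 :=
  (mul_le_mul_of_nonneg_left hg.K1_le (hg.sg_pos h).le).trans (hg.sg_mul_le hl)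

theorem Geo.Ok.sg_le (hg : g.Ok M) {h : ℕ} (hl : h < g.ls) : g.sg h ≤ 1 / (100 * g.K1) := by
  have := hg.K1_ge
  rw [le_div_iff₀ (by positivity)]; exact hg.sg_mul_K1_le hl

theorem Geo.Ok.sg_le' (hg : g.Ok M) {h : ℕ} (hl : h < g.ls) : g.sg h ≤ 1 / 200 := by
  nlinarith [hg.sg_mul_le hl, hg.D_ge, hg.sg_pos h]

theorem Geo.Ok.sc_pos (hg : g.Ok M) (h d : ℕ) : 0 < g.sc h d := by
  have := hg.sg_pos h; have := hg.K1_ge; unfold Geo.sc; positivity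

theorem Geo.Ok.sc_mul (hg : g.Ok M) (h d : ℕ) : g.sc h d * (g.K1 : ℝ) ^ d = g.sg h := by
  have := hg.K1_ge; unfold Geo.sc; field_simp

theorem Geo.Ok.sc_le (hg : g.Ok M) (h d : ℕ) : g.sc h d ≤ g.sg h :=
  div_le_self (hg.sg_pos h).le (one_le_pow₀ (by linarith [hg.K1_ge]))

theorem Geo.sc_succ (g : Geo) (h d : ℕ) : g.sc h (d + 1) = g.sc h d / g.K1 := by
  unfold Geo.sc; rw [pow_succ, div_div]

theorem Geo.sc_zero (g : Geo) (h : ℕ) : g.sc h 0 = g.sg h := by simp [Geo.sc]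

theorem Geo.Ok.R_sg (hg : g.Ok M) (h : ℕ) : (g.D : ℝ) ^ 2 ≤ g.R * g.sg h ^ 2 := by
  have h1 := hg.one_le_δρ
  rw [Geo.Ok.ρ_eq] at h1
  have h2 : g.δ ^ 2 ≤ g.sg h ^ 2 := pow_le_pow_left₀ hg.δ_pos.le (hg.δ_le_sg h) 2
  nlinarith [mul_le_mul_of_nonneg_left h2 hg.R_pos.le]

/-- The arc of a leaf. -/
theorem Geo.Ok.arc_bounds (hg : g.Ok M) {h l a : ℕ} (hla : l / g.D ^ h = a) :
    a * g.sg h ≤ l * g.δ ∧ (l + 1) * g.δ ≤ (a + 1) * g.sg h := by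
  have hD : 0 < g.D ^ h := _root_.pow_pos (by have := hg.hD; have := hg.hK; omega) h
  have h1 : a * g.D ^ h ≤ l := hla ▸ Nat.div_mul_le_self l _
  have h2 : l + 1 ≤ (a + 1) * g.D ^ h := by
    have := Nat.lt_mul_div_succ l hD
    rw [hla, mul_comm] at this; omega
  have h1' : (a : ℝ) * (g.D : ℝ) ^ h ≤ l := by exact_mod_cast h1
  have h2' : (l : ℝ) + 1 ≤ (a + 1) * (g.D : ℝ) ^ h := by exact_mod_cast h2
  have := hg.δ_pos
  unfold Geo.sg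
  constructor <;> nlinarith

theorem Geo.Ok.supp_garc (hg : g.Ok M) {E Ec s0 : ℝ} {T : Finset Tb} {pk : Tb → Arr}
    (hS : Sys g M E Ec s0 T pk) (i h a : ℕ) :
    Supp M (garc T pk g.D i h a) (a * g.sg h - g.sg h / 200) ((a + 1) * g.sg h + g.sg h / 200)
      (8 / g.R) := by
  refine supp_sum fun τ hτ => ?_
  obtain ⟨hT, -, h2⟩ := mem_filter.1 hτ
  obtain ⟨h3, h4⟩ := hg.arc_bounds h2
  have := hg.inv_ρ_le
  have := hg.δ_le_sg h
  exact (hS.sp1 τ hT).mono (by linarith) (by linarith) le_rfl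

section
variable {X : Finset (ℝ × ℝ)} {A n h d : ℕ} {ts : ℝ} {o : ℤ} {F1 : Finset Fg} {b : Fg → ℤ}

theorem Nar.inv_R_le (hg : g.Ok M) (hN : Nar g X A n h d ts o F1 b) : 1 / g.R ≤ g.sc h d := by
  have h1 := hN.hs
  have h2 := hg.sc_pos h d
  have h3 := (hg.sc_le h d).trans (hg.sg_le' hN.hl)
  rw [div_le_iff₀ hg.R_pos]
  nlinarith [hg.R_pos, mul_pos h2 hg.R_pos]

theorem Nar.inv_H_le (hg : g.Ok M) (hN : Nar g X A n h d ts o F1 b) : 1 / g.H ≤ g.sc h d :=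
  (one_div_le_one_div_of_le hg.R_pos hg.hH).trans (hN.inv_R_le hg)

/-- Position of the refined arc inside the coarse grid. -/
theorem Nar.b_bounds (hg : g.Ok M) (hN : Nar g X A n h d ts o F1 b) {f : Fg} (hf : f ∈ F1) :
    (f.2.2 - 1) * g.sg h ≤ b f * g.sc h d ∧ (b f + 1) * g.sc h d ≤ (f.2.2 + 2) * g.sg h := by
  have hK : (0 : ℤ) < (g.K1 : ℤ) ^ d := pow_pos (by have := hg.hK; omega) d
  have h0 := hN.bd f hf
  have h1 : (f.2.2 + o) * (g.K1 : ℤ) ^ d ≤ b f := h0 ▸ Int.ediv_mul_le _ hK.ne'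
  have h2 : b f + 1 ≤ (f.2.2 + o + 1) * (g.K1 : ℤ) ^ d := h0 ▸ Int.lt_ediv_add_one_mul_self _ hK
  have ho := abs_le.1 hN.ho
  have h3 : ((f.2.2 : ℤ) - 1) * (g.K1 : ℤ) ^ d ≤ b f := le_trans (by nlinarith) h1
  have h4 : b f + 1 ≤ ((f.2.2 : ℤ) + 2) * (g.K1 : ℤ) ^ d := h2.trans (by nlinarith)
  have h3' : ((f.2.2 : ℝ) - 1) * (g.K1 : ℝ) ^ d ≤ b f := by exact_mod_cast h3
  have h4' : (b f : ℝ) + 1 ≤ ((f.2.2 : ℝ) + 2) * (g.K1 : ℝ) ^ d := by exact_mod_cast h4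
  have h5 := hg.sc_pos h d
  rw [← hg.sc_mul h d]
  constructor <;> nlinarith

/-- The coarse arc starts in `[0, 1)` and near the window of its index. -/
theorem Nar.a_bounds (hg : g.Ok M) (hN : Nar g X A n h d ts o F1 b) {f : Fg} (hf : f ∈ F1) :
    f.2.2 * g.sg h ≤ 1 ∧ f.2.2 < g.D ^ (g.ls - h) ∧
      |f.2.2 * g.sg h - (1 / 4 + f.2.1 / (2 * g.K1))| ≤ 3 / (4 * g.K1) + g.sg h := by
  obtain ⟨l, hl, hla, h1⟩ := hN.lf f hf
  obtain ⟨h2, h3⟩ := hg.arc_bounds hla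
  have h4 := hg.leaf_lt hl
  have h5 := hg.δ_pos
  have hD : 0 < g.D ^ h := pow_pos (by have := hg.hD; have := hg.hK; omega) h
  refine ⟨by nlinarith, ?_, ?_⟩
  · rw [← hla, Nat.div_lt_iff_lt_mul hD, ← pow_add, Nat.sub_add_cancel hN.hl.le]; exact hl
  · rw [abs_le] at h1 ⊢
    constructor <;> nlinarith [h1.1, h1.2]

theorem Nar.abs_b_le (hg : g.Ok M) (hN : Nar g X A n h d ts o F1 b) {f : Fg} (hf : f ∈ F1) :
    |b f * g.sc h d| ≤ 3 / 2 := by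
  obtain ⟨h1, h2⟩ := hN.b_bounds hg hf
  have h3 := (hN.a_bounds hg hf).1
  have h4 := hg.sg_le' hN.hl
  have h5 := hg.sc_pos h d
  have h6 := hg.sg_pos h
  have h7 : (0 : ℝ) ≤ f.2.2 * g.sg h := by positivity
  rw [abs_le]
  constructor <;> nlinarith

theorem Nar.b_near (hg : g.Ok M) (hN : Nar g X A n h d ts o F1 b) {f : Fg} (hf : f ∈ F1) :
    |b f * g.sc h d - f.2.2 * g.sg h| ≤ 2 * g.sg h := by
  obtain ⟨h1, h2⟩ := hN.b_bounds hg hf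
  have h5 := hg.sc_pos h d
  have h6 := hg.sg_pos h
  rw [abs_le]
  constructor <;> nlinarith

/-- A flag is determined by its point, its index and its refined arc. -/
theorem Nar.inj (hN : Nar g X A n h d ts o F1 b) {f f' : Fg} (hf : f ∈ F1) (hf' : f' ∈ F1)
    (h1 : f.1 = f'.1) (h2 : f.2.1 = f'.2.1) (h3 : b f = b f') : f = f' := by
  have h4 := hN.bd f hf
  have h5 := hN.bd f' hf'
  rw [h3, h5] at h4
  exact Prod.ext h1 (Prod.ext h2 (by omega))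

end

end Pool.Agent.Lib.MP_108739_an.HA
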