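import Pool.Agent.Lib.MP_108739_an.HA.Defs

/-! Combinatorial lemmas: flow, uni, slope, narrow, sparse. -/

namespace Pool.Agent.Lib.MP_108739_an.HA

open Finset

namespace Comb

lemma trim {Y κ : Type} [DecidableEq Y] [DecidableEq κ] (S : Finset Y) (f : Y → κ) (n : ℕ) :
    ∃ S' ⊆ S, ∀ c, #{y ∈ S' | f y = c} = min (#{y ∈ S | f y = c}) n := by
  have h : ∀ c, ∃ T ⊆ {y ∈ S | f y = c}, #T = min (#{y ∈ S | f y = c}) n :=
    fun c => exists_subset_card_eq (min_le_left _ _)
  choose T hT hc using h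
  refine ⟨{y ∈ S | y ∈ T (f y)}, filter_subset _ _, fun c => ?_⟩
  rw [← hc c]
  congr 1
  ext y
  simp only [mem_filter]
  constructor
  · rintro ⟨⟨_, h2⟩, rfl⟩
    exact h2
  · intro hy
    have := mem_filter.1 (hT c hy)
    exact ⟨⟨this.1, by rw [this.2]; exact hy⟩, this.2⟩

lemma lift {Y κ κ' : Type} [DecidableEq Y] [DecidableEq κ] [DecidableEq κ'] {S S' : Finset Y}
    (hS : S' ⊆ S) (f : Y → κ) (g : Y → κ') (hg : ∀ y y', f y = f y' → g y = g y') {Θ : ℝ}
    (h : ∀ c, (#{y ∈ S | f y = c} : ℝ) ≤ Θ * #{y ∈ S' | f y = c}) (d : κ') :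
    (#{y ∈ S | g y = d} : ℝ) ≤ Θ * #{y ∈ S' | g y = d} := by
  have key : ∀ U ⊆ S, #{y ∈ U | g y = d} =
      ∑ c ∈ ({y ∈ S | g y = d}).image f, #{y ∈ U | f y = c} := by
    intro U hU
    rw [card_eq_sum_card_fiberwise (f := f) (t := ({y ∈ S | g y = d}).image f)]
    · refine sum_congr rfl fun c hc => ?_
      obtain ⟨y0, hy0, rfl⟩ := mem_image.1 hc
      congr 1
      ext y
      simp only [mem_filter]
      exact ⟨fun h => ⟨h.1.1, h.2⟩, fun h => ⟨⟨h.1, (hg _ _ h.2).trans (mem_filter.1 hy0).2⟩, h.2⟩⟩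
    · intro y hy
      have := mem_filter.1 (mem_coe.1 hy)
      exact mem_coe.2 (mem_image_of_mem f (mem_filter.2 ⟨hU this.1, this.2⟩))
  rw [key S Subset.rfl, key S' hS]
  push_cast
  rw [mul_sum]
  exact sum_le_sum fun c _ => h c

lemma pigeon {Y : Type} (S : Finset Y) (f : Y → ℕ) (L : ℕ) (hL : 1 ≤ L) (hf : ∀ y ∈ S, f y < L) :
    ∃ a < L, #S ≤ L * #{y ∈ S | f y = a} := by
  obtain ⟨a, ha, hm⟩ := exists_max_image (range L) (fun a => #{y ∈ S | f y = a})
    ⟨0, mem_range.2 hL⟩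
  refine ⟨a, mem_range.1 ha, ?_⟩
  rw [card_eq_sum_card_fiberwise (f := f) (t := range L)
    (fun y hy => mem_coe.2 (mem_range.2 (hf y (mem_coe.1 hy))))]
  simpa using sum_le_card_nsmul _ _ _ hm

lemma net {Y : Type} [PseudoMetricSpace Y] (S : Finset Y) (R : ℝ) (hR : 0 ≤ R) :
    ∃ C ⊆ S, (∀ p ∈ C, ∀ q ∈ C, p ≠ q → R < dist p q) ∧ ∀ x ∈ S, ∃ p ∈ C, dist x p ≤ R := by
  classical
  induction S using Finset.induction_on with
  | empty => exact ⟨∅, Subset.rfl, by simp, by simp⟩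
  | insert x S _ ih =>
    obtain ⟨C, hC, h1, h2⟩ := ih
    by_cases hx : ∃ p ∈ C, dist x p ≤ R
    · refine ⟨C, hC.trans (subset_insert _ _), h1, fun y hy => ?_⟩
      rcases mem_insert.1 hy with rfl | hy
      · exact hx
      · exact h2 y hy
    · push Not at hx
      refine ⟨insert x C, insert_subset_insert _ hC, fun p hp q hq hpq => ?_, fun y hy => ?_⟩
      · rcases mem_insert.1 hp with rfl | hp' <;> rcases mem_insert.1 hq with rfl | hq'
        · exact absurd rfl hpq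
        · exact hx q hq'
        · rw [dist_comm]; exact hx p hp'
        · exact h1 p hp' q hq' hpq
      · rcases mem_insert.1 hy with rfl | hy
        · exact ⟨y, mem_insert_self _ _, by simpa using hR⟩
        · obtain ⟨p, hp, hd⟩ := h2 y hy
          exact ⟨p, mem_insert_of_mem hp, hd⟩

end Comb

open Comb

theorem flow : FlowStmt := by
  intro Y κ _ _ S pj m cap Θ hΘ hch hcap
  have main : ∀ n ≤ m + 1, ∃ S' ⊆ S, (∀ j < n, ∀ c, #{y ∈ S' | pj j y = c} ≤ cap j) ∧
      ∀ c, (#{y ∈ S | pj n y = c} : ℝ) ≤ Θ * #{y ∈ S' | pj n y = c} := by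
    intro n
    induction n with
    | zero =>
      intro _
      exact ⟨S, Subset.rfl, by simp, fun c => le_mul_of_one_le_left (by positivity) hΘ⟩
    | succ n ih =>
      intro hn
      obtain ⟨S', hS', h1, h2⟩ := ih (by omega)
      obtain ⟨S'', hS'', h3⟩ := trim S' (pj n) (cap n)
      refine ⟨S'', hS''.trans hS', fun j hj c => ?_, lift (hS''.trans hS') (pj n) _ (hch n) ?_⟩
      · rcases Nat.lt_succ_iff_lt_or_eq.1 hj with hj | rfl
        · exact (card_le_card (filter_subset_filter _ hS'')).trans (h1 j hj c)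
        · rw [h3]; exact min_le_right _ _
      · intro c
        rw [h3]
        rcases min_choice (#{y ∈ S' | pj n y = c}) (cap n) with h | h <;> rw [h]
        · exact h2 c
        · exact hcap n (by omega) c
  obtain ⟨S', hS', h1, h2⟩ := main (m + 1) le_rfl
  refine ⟨S', hS', ?_, fun j hj c => h1 j (by omega) c⟩
  simpa using lift hS' (pj (m + 1)) (fun _ => ()) (fun _ _ _ => rfl) h2 ()

theorem uni : UniStmt := by
  intro Y κ _ _ S pj m hch
  have mono : ∀ j n, j ≤ n → ∀ y y', pj j y = pj j y' → pj n y = pj n y' := by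
    intro j n hjn y y' h
    induction n, hjn using Nat.le_induction with
    | base => exact h
    | succ n _ ih => exact hch n y y' ih
  have main : ∀ n, ∃ S' ⊆ S, #S ≤ (Nat.log 2 #S + 1) ^ n * #S' ∧ ∀ j < n, ∃ a, ∀ y ∈ S',
      a ≤ #{y' ∈ S' | pj j y' = pj j y} ∧ #{y' ∈ S' | pj j y' = pj j y} ≤ 2 * a := by
    intro n
    induction n with
    | zero => exact ⟨S, Subset.rfl, by simp, by simp⟩
    | succ n ih =>
      obtain ⟨S', hS', h1, h2⟩ := ih
      obtain ⟨a, -, ha⟩ := pigeon S' (fun y => Nat.log 2 #{y' ∈ S' | pj n y' = pj n y})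
        (Nat.log 2 #S + 1) (by omega) (fun y _ => Nat.lt_succ_of_le
          (Nat.log_mono_right (card_le_card ((filter_subset _ _).trans hS'))))
      set S'' := {y ∈ S' | Nat.log 2 #{y' ∈ S' | pj n y' = pj n y} = a} with hdef
      have same : ∀ j ≤ n, ∀ y ∈ S'',
          {y' ∈ S'' | pj j y' = pj j y} = {y' ∈ S' | pj j y' = pj j y} := by
        intro j hj y hy
        ext y'
        simp only [hdef, mem_filter] at hy ⊢
        exact ⟨fun h => ⟨h.1.1, h.2⟩,
          fun h => ⟨⟨h.1, by rw [mono j n hj _ _ h.2]; exact hy.2⟩, h.2⟩⟩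
      refine ⟨S'', (filter_subset _ _).trans hS', ?_, fun j hj => ?_⟩
      · calc #S ≤ (Nat.log 2 #S + 1) ^ n * #S' := h1
          _ ≤ (Nat.log 2 #S + 1) ^ n * ((Nat.log 2 #S + 1) * #S'') := Nat.mul_le_mul_left _ ha
          _ = _ := by ring
      · rcases Nat.lt_succ_iff_lt_or_eq.1 hj with hj | rfl
        · obtain ⟨b, hb⟩ := h2 j hj
          exact ⟨b, fun y hy => by rw [same j hj.le y hy]; exact hb y (mem_filter.1 hy).1⟩
        · refine ⟨2 ^ a, fun y hy => ?_⟩
          rw [same j le_rfl y hy]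
          obtain ⟨hy1, hy2⟩ := mem_filter.1 hy
          have hne : #{y' ∈ S' | pj j y' = pj j y} ≠ 0 :=
            card_ne_zero.2 ⟨y, mem_filter.2 ⟨hy1, rfl⟩⟩
          have h3 := Nat.pow_log_le_self 2 hne
          have h4 := Nat.lt_pow_succ_log_self (b := 2) (by norm_num)
            (#{y' ∈ S' | pj j y' = pj j y})
          rw [hy2] at h3 h4
          rw [pow_succ] at h4
          omega
  obtain ⟨S', hS', h1, h2⟩ := main (m + 1)
  refine ⟨S', hS', h1, fun j hj c => ?_⟩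
  obtain ⟨a, ha⟩ := h2 j (by omega)
  have h3 : #(S'.image (pj j)) * a ≤ #S' := by
    rw [card_eq_sum_card_image (pj j) S']
    have := card_nsmul_le_sum (S'.image (pj j)) (fun c => #{y ∈ S' | pj j y = c}) a (by
      intro c hc
      obtain ⟨y, hy, rfl⟩ := mem_image.1 hc
      exact (ha y hy).1)
    simpa using this
  have h4 : #{y ∈ S' | pj j y = c} ≤ 2 * a := by
    rcases ({y ∈ S' | pj j y = c}).eq_empty_or_nonempty with h | ⟨y, hy⟩
    · rw [h]; simp
    · obtain ⟨hy1, rfl⟩ := mem_filter.1 hy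
      exact (ha y hy1).2
  calc _ ≤ #(S'.image (pj j)) * (2 * a) := Nat.mul_le_mul_left _ h4
    _ = 2 * (#(S'.image (pj j)) * a) := by ring
    _ ≤ _ := by omega

theorem slope : SlopeStmt := by
  intro e l0 he
  obtain ⟨N, hN⟩ := exists_nat_gt (2 / e)
  have hNe : 2 < N * e := by rwa [div_lt_iff₀ he] at hN
  have hN0 : 0 < N := by
    rcases Nat.eq_zero_or_pos N with rfl | h
    · norm_num at hNe
    · exact h
  have hp : 0 < N ^ N := pow_pos hN0 N
  refine ⟨N ^ N * (l0 + 1), Nat.mul_pos hp (by omega), fun F hF => ?_⟩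
  set m := N ^ N * (l0 + 1) with hm
  by_contra hcon
  push Not at hcon
  have low : ∀ i ≤ N, ∀ l, m ≤ N ^ i * l → l0 + 1 ≤ l := by
    intro i hi l hl
    exact Nat.le_of_mul_le_mul_left
      (hl.trans (Nat.mul_le_mul_right _ (Nat.pow_le_pow_right hN0 hi))) hp
  have main : ∀ i ≤ N, ∃ l ≤ m, m ≤ N ^ i * l ∧ F l ≤ (2 - i * e) * l := by
    intro i
    induction i with
    | zero => exact fun _ => ⟨m, le_rfl, by simp, by simpa using (hF m le_rfl).2⟩
    | succ i ih =>
      intro hi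
      obtain ⟨l, hl, h1, h2⟩ := ih (by omega)
      have hl0 := low i (by omega) l h1
      have hlp : (0 : ℝ) < l := by exact_mod_cast (by omega : 0 < l)
      have step : ∀ (ls : ℕ) (t : ℝ), l ≤ ls → ls ≤ m → t ≤ 3 / 2 → t ≤ 2 - i * e →
          (∃ l' ≤ ls, F l' < t * l' - e * ls) →
          ∃ l' ≤ m, m ≤ N ^ (i + 1) * l' ∧ F l' ≤ (2 - ((i + 1 : ℕ) : ℝ) * e) * l' := by
        rintro ls t a1 a2 a3 a4 ⟨l', b1, b2⟩
        have c0 := (hF l' (b1.trans a2)).1
        have c1 : (l' : ℝ) ≤ ls := by exact_mod_cast b1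
        have c2 : (l : ℝ) ≤ ls := by exact_mod_cast a1
        have c3 : (0 : ℝ) ≤ l' := by positivity
        have c4 : (l : ℝ) ≤ N * l' := by
          have d1 : e * l ≤ e * ls := mul_le_mul_of_nonneg_left c2 he.le
          have d2 : t * l' ≤ N * e * l' := mul_le_mul_of_nonneg_right (by linarith) c3
          have d3 : e * l ≤ e * (N * l') := by linarith
          exact le_of_mul_le_mul_left d3 he
        have c5 : l ≤ N * l' := by exact_mod_cast c4
        refine ⟨l', b1.trans a2, ?_, ?_⟩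
        · calc m ≤ N ^ i * l := h1
            _ ≤ N ^ i * (N * l') := Nat.mul_le_mul_left _ c5
            _ = _ := by ring
        · have d1 : e * l' ≤ e * ls := mul_le_mul_of_nonneg_left c1 he.le
          have d2 : t * l' ≤ (2 - i * e) * l' := mul_le_mul_of_nonneg_right a4 c3
          push_cast
          linarith
      have ht : F l / l ≤ 2 - i * e := by rwa [div_le_iff₀ hlp]
      by_cases h3 : F l / l ≤ 3 / 2
      · refine step l (F l / l) le_rfl hl h3 ht ?_
        by_contra h4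
        push Not at h4
        have := (hcon l (F l / l) (by omega) hl (div_nonneg (hF l hl).1 hlp.le) h3 h4).1
        rw [div_mul_cancel₀ _ hlp.ne'] at this
        exact lt_irrefl _ this
      · refine step m (3 / 2) hl le_rfl le_rfl (by linarith [not_le.1 h3]) ?_
        by_contra h4
        push Not at h4
        exact (hcon m (3 / 2) (by omega) le_rfl (by norm_num) le_rfl h4).2 rfl rfl
  obtain ⟨l, hl, h1, h2⟩ := main N le_rfl
  have hl0 := low N le_rfl l h1
  have hlp : (0 : ℝ) < l := by exact_mod_cast (by omega : 0 < l)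
  have := (hF l hl).1
  nlinarith

open Classical in
/-- `NarrowStmt` with the counted index in `ℕ`. -/
theorem narrowN (K A dm : ℕ) (z : ℕ → ℤ → ℂ) (b0 : ℤ) (hK : 1 ≤ K)
    (hz : ∀ d b, z d b = ∑ r ∈ range K, z (d + 1) (K * b + r)) :
    ∃ d ≤ dm, ∃ b : ℤ, b / (K : ℤ) ^ d = b0 ∧ ‖z 0 b0‖ ≤ (2 * A : ℝ) ^ d * ‖z d b‖ ∧
      (if d = dm then 1 else A) ≤ #((range K).filter
        fun r : ℕ => ‖z d b‖ ≤ 2 * K * ‖z (d + 1) (K * b + r)‖) := by
  have mx : ∀ d b, ∃ r ∈ range K, ∀ r' ∈ range K,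
      ‖z (d + 1) (K * b + r')‖ ≤ ‖z (d + 1) (K * b + r)‖ := fun d b =>
    exists_max_image (range K) (fun r : ℕ => ‖z (d + 1) (K * b + r)‖) ⟨0, mem_range.2 hK⟩
  have hKp : (0 : ℝ) < K := by exact_mod_cast hK
  by_contra hcon
  push Not at hcon
  have main : ∀ d ≤ dm, ∃ b : ℤ, b / (K : ℤ) ^ d = b0 ∧ ‖z 0 b0‖ ≤ (2 * A : ℝ) ^ d * ‖z d b‖ := by
    intro d
    induction d with
    | zero => exact fun _ => ⟨b0, by simp, by simp⟩
    | succ d ih =>
      intro hd
      obtain ⟨b, h1, h2⟩ := ih (by omega)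
      obtain ⟨r, hr, hm⟩ := mx d b
      have h3 := hcon d (by omega) b h1 h2
      rw [if_neg (by omega)] at h3
      refine ⟨K * b + r, ?_, ?_⟩
      · have hK0 : (0 : ℤ) < K := by exact_mod_cast hK
        have hr' : (r : ℤ) < K := by exact_mod_cast mem_range.1 hr
        rw [pow_succ', ← Int.ediv_ediv_of_nonneg hK0.le, add_comm,
          Int.add_mul_ediv_left _ _ hK0.ne', Int.ediv_eq_zero_of_lt (by positivity) hr', zero_add, h1]
      · set G := (range K).filter fun r : ℕ => ‖z d b‖ ≤ 2 * K * ‖z (d + 1) (K * b + r)‖ with hG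
        have s1 : ‖z d b‖ ≤ ∑ r ∈ range K, ‖z (d + 1) (K * b + r)‖ := by
          rw [hz d b]; exact norm_sum_le _ _
        rw [← sum_filter_add_sum_filter_not (range K)
          (fun r : ℕ => ‖z d b‖ ≤ 2 * K * ‖z (d + 1) (K * b + r)‖)] at s1
        have s2 := sum_le_card_nsmul G (fun r : ℕ => ‖z (d + 1) (K * b + r)‖) _
          (fun r' hr' => hm r' (mem_filter.1 hr').1)
        have s3 := sum_le_card_nsmul
          ((range K).filter fun r : ℕ => ¬ ‖z d b‖ ≤ 2 * K * ‖z (d + 1) (K * b + r)‖)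
          (fun r : ℕ => ‖z (d + 1) (K * b + r)‖) (‖z d b‖ / (2 * K)) (fun r' hr' => by
            rw [le_div_iff₀ (by positivity)]
            linarith [not_le.1 (mem_filter.1 hr').2])
        rw [nsmul_eq_mul] at s2 s3
        have s4 : (#G : ℝ) ≤ A := by exact_mod_cast h3.le
        have s5 : (#((range K).filter fun r : ℕ =>
            ¬ ‖z d b‖ ≤ 2 * K * ‖z (d + 1) (K * b + r)‖) : ℝ) ≤ K := by
          exact_mod_cast (card_filter_le _ _).trans (card_range K).le
        have s6 := mul_le_mul_of_nonneg_right s4 (norm_nonneg (z (d + 1) (K * b + r)))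
        have s7 := mul_le_mul_of_nonneg_right s5
          (show 0 ≤ ‖z d b‖ / (2 * K) by positivity)
        have s8 : (K : ℝ) * (‖z d b‖ / (2 * K)) = ‖z d b‖ / 2 := by field_simp
        have s9 : ‖z d b‖ ≤ 2 * A * ‖z (d + 1) (K * b + r)‖ := by linarith
        calc _ ≤ _ := h2
          _ ≤ (2 * A : ℝ) ^ d * (2 * A * ‖z (d + 1) (K * b + r)‖) :=
            mul_le_mul_of_nonneg_left s9 (by positivity)
          _ = _ := by ring
  obtain ⟨b, h1, h2⟩ := main dm le_rfl
  obtain ⟨r, hr, hm⟩ := mx dm b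
  have h3 := hcon dm le_rfl b h1 h2
  rw [if_pos rfl] at h3
  refine absurd (card_pos.2 ⟨r, mem_filter.2 ⟨hr, ?_⟩⟩) (not_lt.2 (Nat.lt_succ_iff.1 h3))
  have s1 : ‖z dm b‖ ≤ ∑ r ∈ range K, ‖z (dm + 1) (K * b + r)‖ := by
    rw [hz dm b]; exact norm_sum_le _ _
  have s2 := sum_le_card_nsmul (range K) (fun r : ℕ => ‖z (dm + 1) (K * b + r)‖) _ hm
  rw [nsmul_eq_mul, card_range] at s2
  nlinarith [norm_nonneg (z (dm + 1) (K * b + r))]

open Classical in
/-- The count that appears in `NarrowStmt` (index coerced to `ℤ`) equals the count over `ℕ`. -/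
theorem card_coe_range (K : ℕ) (p : ℤ → Prop) :
    #(Finset.filter p (do let a ← range K; pure (a : ℤ))) = #((range K).filter fun r : ℕ => p r) := by
  rw [bind_pure_comp, Finset.fmap_def]
  have := card_image_of_injective ((range K).filter fun r : ℕ => p r)
    (Nat.cast_injective (R := ℤ))
  rw [← this]
  congr 1
  ext y
  simp only [mem_filter, mem_image]
  constructor
  · rintro ⟨⟨r, hr, rfl⟩, h⟩
    exact ⟨r, ⟨hr, h⟩, rfl⟩
  · rintro ⟨r, ⟨hr, h⟩, rfl⟩
    exact ⟨⟨r, hr, rfl⟩, h⟩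

theorem narrow : NarrowStmt := by
  intro K A dm z b0 hK _ hz
  obtain ⟨d, hd, b, h1, h2, h3⟩ := narrowN K A dm z b0 hK hz
  refine ⟨d, hd, b, h1, h2, h3.trans (le_of_eq ?_)⟩
  convert (card_coe_range K fun r => ‖z d b‖ ≤ 2 * K * ‖z (d + 1) (K * b + r)‖).symm

theorem sparse : SparseStmt := by
  classical
  intro X K0 r hK hr h0
  set ρ : ℝ := (#X : ℝ) ^ (1 / (K0 : ℝ)) with hρ
  have hρ0 : 0 ≤ ρ := by positivity
  have hρK : ρ ^ K0 = #X := by
    rw [hρ, one_div]
    exact Real.rpow_inv_natCast_pow (by positivity) (by omega)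
  have ex : ∀ x, ∃ k < K0, x ∈ X →
      (#{q ∈ X | dist q x ≤ r (k + 1)} : ℝ) ≤ ρ * #{q ∈ X | dist q x ≤ r k} := by
    intro x
    by_contra hcon
    push Not at hcon
    have hx := (hcon 0 hK).1
    have gr : ∀ k ≤ K0, ρ ^ k ≤ #{q ∈ X | dist q x ≤ r k} := by
      intro k
      induction k with
      | zero =>
        intro _
        have : 0 < #{q ∈ X | dist q x ≤ r 0} :=
          card_pos.2 ⟨x, mem_filter.2 ⟨hx, by simpa using h0⟩⟩
        rw [pow_zero]
        exact_mod_cast this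
      | succ k ih =>
        intro hk
        rw [pow_succ']
        exact (mul_le_mul_of_nonneg_left (ih (by omega)) hρ0).trans (hcon k (by omega)).2.le
    obtain ⟨k, rfl⟩ : ∃ k, K0 = k + 1 := ⟨K0 - 1, by omega⟩
    have a1 := mul_le_mul_of_nonneg_left (gr k (by omega)) hρ0
    have a2 := (hcon k (by omega)).2
    have a3 : (#{q ∈ X | dist q x ≤ r (k + 1)} : ℝ) ≤ #X := by
      exact_mod_cast card_filter_le _ _
    rw [pow_succ'] at hρK
    linarith
  choose kk hk1 hk2 using ex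
  obtain ⟨k, hk, hc⟩ := pigeon X kk K0 hK (fun y _ => hk1 y)
  obtain ⟨C, hC, h1, h2⟩ := net {y ∈ X | kk y = k} (r (k + 1)) (h0.trans (hr (by omega)))
  refine ⟨k, hk, C, hC.trans (filter_subset _ _), h1, ?_⟩
  have b1 : #{y ∈ X | kk y = k} ≤ ∑ p ∈ C, #{q ∈ X | dist q p ≤ r (k + 1)} := by
    refine le_trans (card_le_card fun y hy => ?_) card_biUnion_le
    obtain ⟨p, hp, hd⟩ := h2 y hy
    exact mem_biUnion.2 ⟨p, hp, mem_filter.2 ⟨(mem_filter.1 hy).1, hd⟩⟩
  have b2 : ∑ p ∈ C, (#{q ∈ X | dist q p ≤ r (k + 1)} : ℝ) ≤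
      ρ * ∑ p ∈ C, (#{q ∈ X | dist q p ≤ r k} : ℝ) := by
    rw [mul_sum]
    refine sum_le_sum fun p hp => ?_
    obtain ⟨a1, a2⟩ := mem_filter.1 (hC hp)
    have := hk2 p a1
    rwa [a2] at this
  have b3 : (#X : ℝ) ≤ K0 * ∑ p ∈ C, (#{q ∈ X | dist q p ≤ r (k + 1)} : ℝ) := by
    exact_mod_cast hc.trans (Nat.mul_le_mul_left _ b1)
  rw [mul_assoc]
  exact b3.trans (mul_le_mul_of_nonneg_left b2 (by positivity))

end Pool.Agent.Lib.MP_108739_an.HA
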