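import Pool.Agent.Lib.MP_108739_an.HA.Defs

/-! Elementary lemmas for the weighted, grouped form of the incidence theorem. -/

namespace Pool.Agent.Lib.MP_108739_an.HA.FFx

open Finset

noncomputable section

lemma card_int (s : Finset ℤ) (w : ℝ) (hw : 0 ≤ w) (h : ∀ a ∈ s, ∀ b ∈ s, (a : ℝ) - b ≤ w) :
    (#s : ℝ) ≤ w + 1 := by
  rcases s.eq_empty_or_nonempty with rfl | hs
  · simp; linarith
  · have h1 : s ⊆ Icc (s.min' hs) (s.max' hs) := fun a ha =>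
      mem_Icc.2 ⟨s.min'_le a ha, s.le_max' a ha⟩
    have h2 := card_le_card h1
    rw [Int.card_Icc] at h2
    have h3 := h _ (s.max'_mem hs) _ (s.min'_mem hs)
    have h4 : s.min' hs ≤ s.max' hs := s.min'_le _ (s.max'_mem hs)
    have h5 : ((#s : ℕ) : ℤ) ≤ s.max' hs + 1 - s.min' hs := by
      have := Int.toNat_of_nonneg (show 0 ≤ s.max' hs + 1 - s.min' hs by omega)
      omega
    have h6 : ((#s : ℕ) : ℝ) ≤ (s.max' hs : ℝ) + 1 - s.min' hs := by exact_mod_cast h5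
    linarith

lemma card_nat (s : Finset ℕ) (w : ℝ) (hw : 0 ≤ w) (h : ∀ a ∈ s, ∀ b ∈ s, (a : ℝ) - b ≤ w) :
    (#s : ℝ) ≤ w + 1 := by
  have h1 := card_int (s.image (Nat.cast : ℕ → ℤ)) w hw (by
    intro a ha b hb
    obtain ⟨a', ha', rfl⟩ := mem_image.1 ha
    obtain ⟨b', hb', rfl⟩ := mem_image.1 hb
    simpa using h a' ha' b' hb')
  rwa [card_image_of_injective _ Nat.cast_injective] at h1

lemma cover {β τ : Type*} (s : Finset β) (T : Finset τ) (R : τ → β → Prop)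
    [∀ x, DecidablePred (R x)] (k : ℝ)
    (h1 : ∀ b ∈ s, ∃ x ∈ T, R x b) (h2 : ∀ x ∈ T, (#{b ∈ s | R x b} : ℝ) ≤ k) :
    (#s : ℝ) ≤ k * #T := by
  classical
  have h3 : s ⊆ T.biUnion fun x => {b ∈ s | R x b} := by
    intro b hb
    obtain ⟨x, hx, hR⟩ := h1 b hb
    exact mem_biUnion.2 ⟨x, hx, mem_filter.2 ⟨hb, hR⟩⟩
  have h4 := (card_le_card h3).trans card_biUnion_le
  have h5 : (#s : ℝ) ≤ ∑ x ∈ T, (#{b ∈ s | R x b} : ℝ) := by exact_mod_cast h4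
  refine h5.trans ((sum_le_sum h2).trans ?_)
  simp [mul_comm]

lemma exists_nu {δ : ℝ} (h0 : 0 < δ) (h1 : δ ≤ 1) :
    ∃ ν : ℕ, 32 ≤ (2 : ℝ) ^ ν * δ ∧ (2 : ℝ) ^ ν * δ ≤ 64 := by
  have h2 : (1 : ℝ) ≤ 64 / δ := by rw [le_div_iff₀ h0]; linarith
  obtain ⟨n, h3, h4⟩ := exists_nat_pow_near h2 (by norm_num : (1 : ℝ) < 2)
  rw [le_div_iff₀ h0] at h3
  rw [div_lt_iff₀ h0, pow_succ] at h4
  exact ⟨n, by linarith, h3⟩

lemma cell {a : ℝ} (ha : 0 ≤ a) (j u : ℕ) (h : ⌊a⌋₊ / 2 ^ j = u) :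
    (u : ℝ) * 2 ^ j ≤ a ∧ a < (u + 1) * 2 ^ j := by
  have hp : 0 < 2 ^ j := by positivity
  have h1 : u * 2 ^ j ≤ ⌊a⌋₊ := h ▸ Nat.div_mul_le_self _ _
  have h2 : ⌊a⌋₊ + 1 ≤ (u + 1) * 2 ^ j := by
    have := Nat.lt_mul_div_succ ⌊a⌋₊ hp
    rw [h, mul_comm] at this
    exact this
  have h3 : ((u * 2 ^ j : ℕ) : ℝ) ≤ (⌊a⌋₊ : ℝ) := by exact_mod_cast h1
  have h4 : ((⌊a⌋₊ + 1 : ℕ) : ℝ) ≤ (((u + 1) * 2 ^ j : ℕ) : ℝ) := by exact_mod_cast h2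
  push_cast at h3 h4
  exact ⟨h3.trans (Nat.floor_le ha), (Nat.lt_floor_add_one a).trans_le h4⟩

def sI (N x : ℝ) : ℕ := ⌊(x + 6) * N / 16⌋₊

def qA (N ℓ : ℝ) (z p : ℝ × ℝ) : ℝ := ((p.1 - z.1) - 6 * (p.2 - z.2) + 6 * ℓ) * N / (32 * ℓ)

def qB (N ℓ : ℝ) (z p : ℝ × ℝ) : ℝ := (p.2 - z.2) * N / (2 * ℓ)

def qq (N ℓ : ℝ) (z p : ℝ × ℝ) : ℕ × ℕ := (⌊qA N ℓ z p⌋₊, ⌊qB N ℓ z p⌋₊)

lemma sI_arg {N x : ℝ} (hN : 0 < N) (hx : |x| ≤ 6) :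
    0 ≤ (x + 6) * N / 16 ∧ (x + 6) * N / 16 < N := by
  have := abs_le.1 hx
  constructor
  · have : 0 ≤ x + 6 := by linarith
    positivity
  · nlinarith

lemma sI_lt {x : ℝ} (ν : ℕ) (hx : |x| ≤ 6) : sI (2 ^ ν) x < 2 ^ ν := by
  have hN : (0 : ℝ) < 2 ^ ν := by positivity
  have h := sI_arg hN hx
  unfold sI
  rw [Nat.floor_lt h.1]
  push_cast
  exact h.2

lemma sI_close {N x x' : ℝ} (hN : 0 < N) (hx : |x| ≤ 6) (hx' : |x'| ≤ 6) (j : ℕ)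
    (h : sI N x / 2 ^ j = sI N x' / 2 ^ j) : |x - x'| * N < 16 * 2 ^ j := by
  have h1 := cell (sI_arg hN hx).1 j _ h
  have h2 := cell (sI_arg hN hx').1 j _ (rfl : sI N x' / 2 ^ j = _)
  have h3 : |x - x'| * N = |(x - x') * N| := by rw [abs_mul, abs_of_pos hN]
  rw [h3, abs_lt]
  constructor <;> nlinarith [h1.1, h1.2, h2.1, h2.2]

lemma qA_eq {N ℓ : ℝ} (hl : 0 < ℓ) (z p : ℝ × ℝ) :
    qA N ℓ z p * (32 * ℓ) = ((p.1 - z.1) - 6 * (p.2 - z.2) + 6 * ℓ) * N := by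
  unfold qA; field_simp

lemma qB_eq {N ℓ : ℝ} (hl : 0 < ℓ) (z p : ℝ × ℝ) :
    qB N ℓ z p * (2 * ℓ) = (p.2 - z.2) * N := by
  unfold qB; field_simp

lemma q_rng {N ℓ : ℝ} (hN : 0 < N) (hl : 0 < ℓ) {z p : ℝ × ℝ} (h : InSq z ℓ p) :
    0 ≤ qA N ℓ z p ∧ qA N ℓ z p ≤ N / 2 ∧ 0 ≤ qB N ℓ z p ∧ qB N ℓ z p ≤ N / 2 := by
  obtain ⟨h1, h2, h3, h4⟩ := h
  unfold qA qB
  refine ⟨div_nonneg (mul_nonneg (by linarith) hN.le) (by positivity), ?_,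
    div_nonneg (mul_nonneg (by linarith) hN.le) (by positivity), ?_⟩
  · rw [div_le_iff₀ (by positivity)]; nlinarith
  · rw [div_le_iff₀ (by positivity)]; nlinarith

lemma qq_lt {ℓ : ℝ} (ν : ℕ) (hl : 0 < ℓ) {z p : ℝ × ℝ} (h : InSq z ℓ p) :
    (qq (2 ^ ν) ℓ z p).1 < 2 ^ ν ∧ (qq (2 ^ ν) ℓ z p).2 < 2 ^ ν := by
  have hN : (0 : ℝ) < 2 ^ ν := by positivity
  obtain ⟨h1, h2, h3, h4⟩ := q_rng hN hl h
  unfold qq
  constructor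
  · rw [Nat.floor_lt h1]; push_cast; linarith
  · rw [Nat.floor_lt h3]; push_cast; linarith

/-- A dyadic cell of the rounded coordinates lies in a square. -/
lemma cell_sq {N ℓ : ℝ} (hN : 0 < N) (hl : 0 < ℓ) (z : ℝ × ℝ) (j u v : ℕ) :
    ∃ z' : ℝ × ℝ, ∀ p, InSq z ℓ p → (qq N ℓ z p).1 / 2 ^ j = u → (qq N ℓ z p).2 / 2 ^ j = v →
      InSq z' (64 * 2 ^ j / N * ℓ) p := by
  refine ⟨(z.1 + (32 * u + 12 * v) * (2 ^ j / N * ℓ) - 6 * ℓ, z.2 + 2 * v * (2 ^ j / N * ℓ)), ?_⟩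
  intro p hp hu hv
  obtain ⟨h1, -, h3, -⟩ := q_rng hN hl hp
  obtain ⟨a1, a2⟩ := cell h1 j u hu
  obtain ⟨b1, b2⟩ := cell h3 j v hv
  have e1 : p.2 - z.2 = 2 * qB N ℓ z p * (ℓ / N) := by unfold qB; field_simp
  have e2 : p.1 - z.1 = (32 * qA N ℓ z p + 12 * qB N ℓ z p) * (ℓ / N) - 6 * ℓ := by
    unfold qA qB; field_simp; ring
  have e3 : (2 : ℝ) ^ j / N * ℓ = 2 ^ j * (ℓ / N) := by field_simp
  have e4 : 64 * (2 : ℝ) ^ j / N * ℓ = 64 * (2 ^ j * (ℓ / N)) := by field_simp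
  have hw : 0 < ℓ / N := by positivity
  have hj : (0 : ℝ) < 2 ^ j := by positivity
  have hjw := mul_pos hj hw
  have a1' := mul_le_mul_of_nonneg_right a1 hw.le
  have a2' := mul_le_mul_of_nonneg_right a2.le hw.le
  have b1' := mul_le_mul_of_nonneg_right b1 hw.le
  have b2' := mul_le_mul_of_nonneg_right b2.le hw.le
  unfold InSq
  simp only [e3, e4]
  refine ⟨?_, ?_, ?_, ?_⟩ <;> nlinarith

/-- Position of the rounded line index. -/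
lemma tube_idx {ℓ x : ℝ} (ν : ℕ) (hl : 0 < ℓ) (hx : |x| ≤ 6) {z p : ℝ × ℝ} (h : InSq z ℓ p) :
    let N : ℝ := 2 ^ ν
    let m : ℕ := (qq N ℓ z p).1 + sI N x * (qq N ℓ z p).2 / 2 ^ ν
    let w : ℝ := (p.1 + x * p.2 - (z.1 + x * z.2) + 6 * ℓ) * N / (32 * ℓ)
    (m : ℝ) ≤ w ∧ w ≤ m + 4 := by
  intro N m w
  have hN : 0 < N := by positivity
  obtain ⟨h1, -, h3, h4⟩ := q_rng hN hl h
  obtain ⟨s1, s2⟩ := sI_arg hN hx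
  set σ := (x + 6) * N / 16 with hσ
  set a := qA N ℓ z p with ha
  set b := qB N ℓ z p with hb
  have ew : w = a + σ * b / N := by
    simp only [w, ha, hb, hσ, qA, qB]; field_simp; ring
  have fa1 := Nat.floor_le h1
  have fa2 := Nat.lt_floor_add_one a
  have fb1 := Nat.floor_le h3
  have fb2 := Nat.lt_floor_add_one b
  have fs1 := Nat.floor_le s1
  have fs2 := Nat.lt_floor_add_one σ
  have hc := cell (a := ((⌊σ⌋₊ * ⌊b⌋₊ : ℕ) : ℝ)) (Nat.cast_nonneg _) ν (⌊σ⌋₊ * ⌊b⌋₊ / 2 ^ ν)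
    (by rw [Nat.floor_natCast])
  have em : (m : ℝ) = (⌊a⌋₊ : ℝ) + ((⌊σ⌋₊ * ⌊b⌋₊ / 2 ^ ν : ℕ) : ℝ) := by
    simp only [m, qq, sI, Nat.cast_add]; rfl
  set k : ℝ := ((⌊σ⌋₊ * ⌊b⌋₊ / 2 ^ ν : ℕ) : ℝ) with hk
  obtain ⟨c1, c2⟩ := hc
  rw [Nat.cast_mul] at c1 c2
  change k * N ≤ _ at c1
  change _ < (k + 1) * N at c2
  have sf : (0 : ℝ) ≤ ⌊σ⌋₊ := Nat.cast_nonneg _
  have bf : (0 : ℝ) ≤ ⌊b⌋₊ := Nat.cast_nonneg _
  rw [ew, em]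
  constructor
  · have : k ≤ σ * b / N := by
      rw [le_div_iff₀ hN]
      exact c1.trans (mul_le_mul fs1 fb1 bf s1)
    linarith
  · have : σ * b / N ≤ k + 3 := by
      rw [div_le_iff₀ hN]
      have t1 : σ * b ≤ (⌊σ⌋₊ + 1) * b := mul_le_mul_of_nonneg_right fs2.le h3
      have t2 : (⌊σ⌋₊ : ℝ) * b ≤ ⌊σ⌋₊ * (⌊b⌋₊ + 1) := mul_le_mul_of_nonneg_left fb2.le sf
      nlinarith
    linarith

end

end Pool.Agent.Lib.MP_108739_an.HA.FFx
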