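import Pool.Agent.Lib.MP_108739_an.HA.FF0

/-! Direction sets of one point. -/

namespace Pool.Agent.Lib.MP_108739_an.HA.FFx

open Finset

noncomputable section

open Classical in
/-- The flags of one point. -/
structure Pt {α : Type} (F : Finset α) (ar : α → ℕ) (dr : α → ℤ) (sp : ℤ → ℝ)
    (δ κ N ts γ n : ℝ) : Prop where
  d0 : 0 < δ
  dk : δ ≤ κ
  k1 : κ ≤ 1
  N0 : 0 < N
  N1 : 32 ≤ N * δ
  N2 : N * δ ≤ 64
  g0 : 0 ≤ γ
  n0 : 0 ≤ n
  inj : ∀ f ∈ F, ∀ f' ∈ F, ar f = ar f' → dr f = dr f' → f = f'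
  s6 : ∀ f ∈ F, |sp (dr f)| ≤ 6
  sep : ∀ f ∈ F, ∀ f' ∈ F, |(dr f : ℝ) - dr f'| * δ / 2 ≤ |sp (dr f) - sp (dr f')|
  arc : ∀ f ∈ F, |dr f * δ - (1 / 4 + ar f * κ / 2)| ≤ κ
  cn : ∀ i, (#{f ∈ F | ar f = i} : ℝ) ≤ n
  cw : ∀ i (l0 : ℤ) (r : ℕ), 1 ≤ r →
    (#{f ∈ F | ar f = i ∧ l0 ≤ dr f ∧ dr f < l0 + r} : ℝ) ≤ γ * (r : ℝ) ^ ts

variable {α : Type} {F : Finset α} {ar : α → ℕ} {dr : α → ℤ} {sp : ℤ → ℝ} {δ κ N ts γ n : ℝ}

lemma Pt.win (h : Pt F ar dr sp δ κ N ts γ n) {f f' : α} (hf : f ∈ F) (hf' : f' ∈ F) (j : ℕ)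
    (e : sI N (sp (dr f)) / 2 ^ j = sI N (sp (dr f')) / 2 ^ j) : |(dr f : ℝ) - dr f'| < 2 ^ j := by
  have h1 := sI_close h.N0 (h.s6 f hf) (h.s6 f' hf') j e
  have h2 := mul_le_mul_of_nonneg_right (h.sep f hf f' hf') h.N0.le
  have h3 := mul_le_mul_of_nonneg_left h.N1 (abs_nonneg ((dr f : ℝ) - dr f'))
  nlinarith

lemma Pt.ar_diff (h : Pt F ar dr sp δ κ N ts γ n) {f f' : α} (hf : f ∈ F) (hf' : f' ∈ F) :
    ((ar f : ℝ) - ar f') * κ ≤ 4 * κ + 2 * (|(dr f : ℝ) - dr f'| * δ) := by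
  have h1 := abs_le.1 (h.arc f hf)
  have h2 := abs_le.1 (h.arc f' hf')
  have h3 := mul_le_mul_of_nonneg_right (le_abs_self ((dr f : ℝ) - dr f')) h.d0.le
  nlinarith [h1.1, h1.2, h2.1, h2.2]

open Classical in
lemma Pt.card_dir (h : Pt F ar dr sp δ κ N ts γ n) :
    (#F : ℝ) ≤ 5 * #(F.image fun f => sI N (sp (dr f))) := by
  have k0 : 0 < κ := h.d0.trans_le h.dk
  refine cover F _ (fun s f => sI N (sp (dr f)) = s) 5
    (fun f hf => ⟨_, mem_image_of_mem _ hf, rfl⟩) ?_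
  intro s _
  have hd : ∀ f ∈ F.filter (fun f => sI N (sp (dr f)) = s),
      ∀ f' ∈ F.filter (fun f => sI N (sp (dr f)) = s), dr f = dr f' := by
    intro f hf f' hf'
    obtain ⟨a1, a2⟩ := mem_filter.1 hf
    obtain ⟨b1, b2⟩ := mem_filter.1 hf'
    have h1 := h.win a1 b1 0 (by rw [a2, b2])
    have h2 : |dr f - dr f'| < 1 := by
      have : ((|dr f - dr f'| : ℤ) : ℝ) < ((1 : ℤ) : ℝ) := by push_cast; simpa using h1
      exact_mod_cast this
    have := abs_lt.1 h2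
    omega
  have hi : Set.InjOn ar (F.filter (fun f => sI N (sp (dr f)) = s) : Finset α) := by
    intro f hf f' hf' e
    exact h.inj f (mem_filter.1 hf).1 f' (mem_filter.1 hf').1 e (hd f hf f' hf')
  have h3 := card_nat ((F.filter (fun f => sI N (sp (dr f)) = s)).image ar) 4 (by norm_num) (by
    intro a ha b hb
    obtain ⟨f, hf, rfl⟩ := mem_image.1 ha
    obtain ⟨f', hf', rfl⟩ := mem_image.1 hb
    have h4 := h.ar_diff (mem_filter.1 hf).1 (mem_filter.1 hf').1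
    rw [hd f hf f' hf', sub_self, abs_zero] at h4
    exact le_of_mul_le_mul_right (by linarith) k0)
  rw [card_image_of_injOn hi] at h3
  linarith

open Classical in
lemma filt_image_le (F : Finset α) (s : α → ℕ) (j u : ℕ) :
    (#{x ∈ F.image s | x / 2 ^ j = u} : ℝ) ≤ #{f ∈ F | s f / 2 ^ j = u} := by
  have : {x ∈ F.image s | x / 2 ^ j = u} ⊆ ({f ∈ F | s f / 2 ^ j = u}).image s := by
    intro x hx
    obtain ⟨h1, h2⟩ := mem_filter.1 hx
    obtain ⟨f, hf, rfl⟩ := mem_image.1 h1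
    exact mem_image_of_mem _ (mem_filter.2 ⟨hf, h2⟩)
  exact_mod_cast (card_le_card this).trans card_image_le

open Classical in
lemma Pt.win_all (h : Pt F ar dr sp δ κ N ts γ n) (j u : ℕ) :
    (#{x ∈ F.image fun f => sI N (sp (dr f)) | x / 2 ^ j = u} : ℝ) ≤
      53 * γ / κ * ((2 : ℝ) ^ j) ^ ts := by
  have k0 : 0 < κ := h.d0.trans_le h.dk
  have g0 := h.g0
  refine (filt_image_le F _ j u).trans ?_
  set W := F.filter (fun f => sI N (sp (dr f)) / 2 ^ j = u) with hW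
  rcases W.eq_empty_or_nonempty with he | hne
  · rw [he]; simp; positivity
  obtain ⟨f0, hf0, hmin⟩ := exists_min_image W dr hne
  have h1 : (#W : ℝ) ≤ γ * ((2 : ℝ) ^ j) ^ ts * #(W.image ar) := by
    refine cover W _ (fun i f => ar f = i) _ (fun f hf => ⟨_, mem_image_of_mem _ hf, rfl⟩) ?_
    intro i _
    have h2 := h.cw i (dr f0) (2 ^ j) Nat.one_le_two_pow
    push_cast at h2
    refine le_trans ?_ h2
    refine Nat.cast_le.2 (card_le_card ?_)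
    intro f hf
    obtain ⟨a1, a2⟩ := mem_filter.1 hf
    obtain ⟨b1, b2⟩ := mem_filter.1 a1
    obtain ⟨c1, c2⟩ := mem_filter.1 hf0
    refine mem_filter.2 ⟨b1, a2, hmin f a1, ?_⟩
    have h3 := (abs_lt.1 (h.win b1 c1 j (by rw [b2, c2]))).2
    have h4 : ((dr f : ℤ) : ℝ) < ((dr f0 + 2 ^ j : ℤ) : ℝ) := by push_cast; linarith
    exact_mod_cast h4
  have h5 := card_nat (W.image ar) (52 / κ) (by positivity) (by
    intro a ha b hb
    obtain ⟨f, hf, rfl⟩ := mem_image.1 ha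
    obtain ⟨f', hf', rfl⟩ := mem_image.1 hb
    have a1 := (mem_filter.1 hf).1
    have b1 := (mem_filter.1 hf').1
    have h4 := h.ar_diff a1 b1
    have h6 := h.sep f a1 f' b1
    have h7 : |sp (dr f) - sp (dr f')| ≤ 12 := by
      have := abs_le.1 (h.s6 f a1)
      have := abs_le.1 (h.s6 f' b1)
      rw [abs_le]; constructor <;> linarith
    rw [le_div_iff₀ k0]
    linarith [h.k1])
  have h6 : 52 / κ + 1 ≤ 53 / κ := by
    have : 1 ≤ 1 / κ := by rw [le_div_iff₀ k0]; linarith [h.k1]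
    have e : 53 / κ = 52 / κ + 1 / κ := by ring
    linarith
  calc (#W : ℝ) ≤ γ * ((2 : ℝ) ^ j) ^ ts * #(W.image ar) := h1
    _ ≤ γ * ((2 : ℝ) ^ j) ^ ts * (53 / κ) :=
      mul_le_mul_of_nonneg_left (h5.trans h6) (by positivity)
    _ = _ := by ring

open Classical in
lemma Pt.win_short (h : Pt F ar dr sp δ κ N ts γ n) (j u : ℕ) (hj : (2 : ℝ) ^ j ≤ κ / 64 * N) :
    (#{x ∈ F.image fun f => sI N (sp (dr f)) | x / 2 ^ j = u} : ℝ) ≤ 7 * n := by
  have k0 : 0 < κ := h.d0.trans_le h.dk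
  refine (filt_image_le F _ j u).trans ?_
  set W := F.filter (fun f => sI N (sp (dr f)) / 2 ^ j = u) with hW
  have h1 : (#W : ℝ) ≤ n * #(W.image ar) := by
    refine cover W _ (fun i f => ar f = i) _ (fun f hf => ⟨_, mem_image_of_mem _ hf, rfl⟩) ?_
    intro i _
    refine le_trans ?_ (h.cn i)
    refine Nat.cast_le.2 (card_le_card ?_)
    intro f hf
    obtain ⟨a1, a2⟩ := mem_filter.1 hf
    exact mem_filter.2 ⟨(mem_filter.1 a1).1, a2⟩
  have h5 := card_nat (W.image ar) 6 (by norm_num) (by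
    intro a ha b hb
    obtain ⟨f, hf, rfl⟩ := mem_image.1 ha
    obtain ⟨f', hf', rfl⟩ := mem_image.1 hb
    obtain ⟨a1, a2⟩ := mem_filter.1 hf
    obtain ⟨b1, b2⟩ := mem_filter.1 hf'
    have h4 := h.ar_diff a1 b1
    have h6 := (h.win a1 b1 j (by rw [a2, b2])).le.trans hj
    have h7 := mul_le_mul_of_nonneg_right h6 h.d0.le
    have h8 := mul_le_mul_of_nonneg_left h.N2 k0.le
    exact le_of_mul_le_mul_right (by nlinarith) k0)
  have := mul_le_mul_of_nonneg_left h5 h.n0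
  linarith

lemma pow_small {δ N e2 : ℝ} (d0 : 0 < δ) (d1 : δ ≤ 1) (N0 : 0 < N) (N2 : N * δ ≤ 64)
    (he : 0 < e2) : 7 ≤ N ^ (-min e2 (1 / 200)) * (10 * δ ^ (-e2)) := by
  set e := min e2 (1 / 200) with hee
  have e0 : 0 < e := lt_min he (by norm_num)
  have e1 : e ≤ e2 := min_le_left _ _
  have e3 : e ≤ 1 / 200 := min_le_right _ _
  have h1 : (N * δ) ^ e ≤ (64 : ℝ) ^ e := Real.rpow_le_rpow (by positivity) N2 e0.le
  have h2 : (64 : ℝ) ^ e ≤ 1 + e * 63 := by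
    have := rpow_one_add_le_one_add_mul_self (s := 63) (by norm_num) e0.le (by linarith)
    norm_num at this ⊢
    exact this
  have h3 : δ ^ (-e) ≤ δ ^ (-e2) := Real.rpow_le_rpow_of_exponent_ge d0 d1 (by linarith)
  have h4 : N ^ (-e) * δ ^ (-e) = ((N * δ) ^ e)⁻¹ := by
    rw [← Real.mul_rpow N0.le d0.le, Real.rpow_neg (by positivity)]
  have h5 : (7 / 10 : ℝ) ≤ ((N * δ) ^ e)⁻¹ := by
    rw [le_inv_comm₀ (by norm_num) (by positivity)]
    norm_num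
    linarith
  have h6 : 0 < N ^ (-e) := by positivity
  have h7 := mul_le_mul_of_nonneg_left h3 h6.le
  nlinarith

end

end Pool.Agent.Lib.MP_108739_an.HA.FFx
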