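import Pool.Agent.Lib.MP_108739_an.HA.Defs

/-! Level sets of the maximal function and a dyadic layer cake bound. -/

namespace Pool.Agent.Lib.MP_108739_an.HA

open MeasureTheory Set
open scoped ENNReal NNReal

noncomputable def Mx (a b : ℝ → ℝ) (F : ℝ → ℂ) (x : ℝ) : ℝ≥0∞ := ⨆ y : ℝ, ‖Par a b F x y‖ₑ

theorem norm_wave (a b : ℝ → ℝ) (x y u : ℝ) :
    ‖Complex.exp (Complex.I * ((x * a u + y * b u : ℝ) : ℂ))‖ = 1 := by
  rw [mul_comm, Complex.norm_exp_ofReal_mul_I]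

theorem par_eq (a b : ℝ → ℝ) (F : ℝ → ℂ) (x y : ℝ) : Par a b F x y =
    ∫ u in Ioc (0 : ℝ) 1, Complex.exp (Complex.I * ((x * a u + y * b u : ℝ) : ℂ)) * F u := by
  rw [Par, intervalIntegral.integral_of_le zero_le_one]

theorem par_cont {a b : ℝ → ℝ} (ha : Continuous a) (hb : Continuous b) {F : ℝ → ℂ}
    (hF : IntegrableOn F (Ioc (0 : ℝ) 1)) (y : ℝ) : Continuous fun x => Par a b F x y := by
  simp only [par_eq]
  refine continuous_of_dominated (bound := fun u => ‖F u‖) (fun x => ?_) (fun x => ?_) hF.norm ?_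
  · exact (Continuous.aestronglyMeasurable (by fun_prop)).mul hF.1
  · exact ae_of_all _ fun u => by rw [norm_mul, norm_wave, one_mul]
  · exact ae_of_all _ fun u => by fun_prop

theorem mx_meas {a b : ℝ → ℝ} (ha : Continuous a) (hb : Continuous b) {F : ℝ → ℂ}
    (hF : IntegrableOn F (Ioc (0 : ℝ) 1)) : Measurable (Mx a b F) :=
  (lowerSemicontinuous_iSup fun y =>
    (par_cont ha hb hF y).enorm.lowerSemicontinuous).measurable

theorem norm_par_le (a b : ℝ → ℝ) (F : ℝ → ℂ) (x y : ℝ) :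
    ‖Par a b F x y‖ ≤ ∫ u in Ioc (0 : ℝ) 1, ‖F u‖ := by
  rw [par_eq]
  refine (norm_integral_le_integral_norm _).trans (le_of_eq ?_)
  refine integral_congr_ae (ae_of_all _ fun u => ?_)
  simp only [norm_mul, norm_wave, one_mul]

/-- a bound for separated finite sets gives a bound for the measure -/
theorem vol_le_of_sep (P : ℝ → ℝ → Prop) (N : ℝ)
    (h : ∀ X : Finset (ℝ × ℝ), (∀ p ∈ X, ∀ q ∈ X, p ≠ q → 1 ≤ |p.1 - q.1|) →
      (∀ p ∈ X, P p.1 p.2) → (X.card : ℝ) ≤ N) :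
    volume {x | ∃ y, P x y} ≤ ENNReal.ofReal (2 * N) := by
  classical
  let Q : ℕ → Prop := fun k => ∃ X : Finset (ℝ × ℝ),
    (∀ p ∈ X, ∀ q ∈ X, p ≠ q → 1 ≤ |p.1 - q.1|) ∧ (∀ p ∈ X, P p.1 p.2) ∧ X.card = k
  have h0 : Q 0 := ⟨∅, by simp, by simp, rfl⟩
  obtain ⟨X, h1, h2, h3⟩ : Q (Nat.findGreatest Q ⌈N⌉₊) :=
    Nat.findGreatest_spec (Nat.zero_le _) h0
  have hsub : {x | ∃ y, P x y} ⊆ ⋃ p ∈ X, Metric.ball p.1 1 := by
    rintro x ⟨y, hy⟩
    by_contra hx
    simp only [mem_iUnion, Metric.mem_ball, Real.dist_eq, not_exists, not_lt] at hx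
    have hn : (x, y) ∉ X := fun hm => by
      have := hx _ hm
      simp at this
      linarith
    have s1 : ∀ p ∈ insert (x, y) X, ∀ q ∈ insert (x, y) X, p ≠ q → 1 ≤ |p.1 - q.1| := by
      intro p hp q hq hne
      rcases Finset.mem_insert.1 hp with rfl | hp' <;> rcases Finset.mem_insert.1 hq with rfl | hq'
      · exact absurd rfl hne
      · exact hx q hq'
      · rw [abs_sub_comm]; exact hx p hp'
      · exact h1 p hp' q hq' hne
    have s2 : ∀ p ∈ insert (x, y) X, P p.1 p.2 := by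
      intro p hp
      rcases Finset.mem_insert.1 hp with rfl | hp'
      · exact hy
      · exact h2 p hp'
    have s3 := h _ s1 s2
    have s4 : (insert (x, y) X).card ≤ ⌈N⌉₊ := by
      exact_mod_cast s3.trans (Nat.le_ceil N)
    have s5 := Nat.le_findGreatest (P := Q) s4 ⟨_, s1, s2, rfl⟩
    rw [Finset.card_insert_of_notMem hn] at s5
    omega
  refine (measure_mono hsub).trans ((measure_biUnion_finset_le _ _).trans ?_)
  simp only [Real.volume_ball, Finset.sum_const, nsmul_eq_mul]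
  rw [← ENNReal.ofReal_natCast, ← ENNReal.ofReal_mul (Nat.cast_nonneg _)]
  exact ENNReal.ofReal_le_ofReal (by have := h X h1 h2; linarith)

theorem dyad (M : ℝ → ℝ≥0∞) (hM : Measurable M) {m B k q : ℝ} (hm : 0 < m) (hB : 0 ≤ B)
    (hk : 0 ≤ k) (hq : k < q) (hle : ∀ x, M x ≤ ENNReal.ofReal m)
    (hlev : ∀ l : ℝ, 0 < l → volume {x | ENNReal.ofReal l < M x} ≤ ENNReal.ofReal (B * l ^ (-k))) :
    ∫⁻ x, M x ^ q ≤
      ENNReal.ofReal (B * (2 : ℝ) ^ k * m ^ (q - k) * (1 - (2 : ℝ) ^ (-(q - k)))⁻¹) := by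
  classical
  have hq0 : 0 < q := hk.trans_lt hq
  let S : ℕ → Set ℝ := fun j => {x | ENNReal.ofReal (m / 2 ^ (j + 1)) < M x}
  have hS : ∀ j, MeasurableSet (S j) := fun j => measurableSet_lt measurable_const hM
  have pt : ∀ x, M x ^ q ≤
      ∑' j : ℕ, (S j).indicator (fun _ => ENNReal.ofReal ((m / 2 ^ j) ^ q)) x := by
    intro x
    rcases eq_or_ne (M x) 0 with h0 | h0
    · rw [h0, ENNReal.zero_rpow_of_pos hq0]; exact zero_le
    have ht : M x ≠ ∞ := ne_top_of_le_ne_top ENNReal.ofReal_ne_top (hle x)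
    have hp : 0 < (M x).toReal := ENNReal.toReal_pos h0 ht
    have ex : ∃ j : ℕ, x ∈ S j := by
      obtain ⟨j, hj⟩ := pow_unbounded_of_one_lt (m / (M x).toReal) (one_lt_two (α := ℝ))
      refine ⟨j, ?_⟩
      change ENNReal.ofReal _ < M x
      rw [ENNReal.ofReal_lt_iff_lt_toReal (by positivity) ht, div_lt_iff₀ (by positivity)]
      rw [div_lt_iff₀ hp] at hj
      have : (0 : ℝ) < 2 ^ j := by positivity
      rw [pow_succ]; nlinarith
    have hj := Nat.find_spec ex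
    have hup : M x ≤ ENNReal.ofReal (m / 2 ^ Nat.find ex) := by
      rcases Nat.eq_zero_or_pos (Nat.find ex) with h | h
      · rw [h]; simpa using hle x
      · have := Nat.find_min ex (Nat.sub_lt h one_pos)
        have e : Nat.find ex - 1 + 1 = Nat.find ex := by omega
        have this' : M x ≤ ENNReal.ofReal (m / 2 ^ (Nat.find ex - 1 + 1)) := not_lt.1 this
        rwa [e] at this'
    refine le_trans ?_ (ENNReal.le_tsum (Nat.find ex))
    rw [indicator_of_mem hj, ← ENNReal.ofReal_rpow_of_nonneg (by positivity) hq0.le]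
    exact ENNReal.rpow_le_rpow hup hq0.le
  refine (lintegral_mono pt).trans ?_
  rw [lintegral_tsum fun j => (measurable_const.indicator (hS j)).aemeasurable]
  set θ : ℝ := (2 : ℝ) ^ (-(q - k)) with hθ
  have θ0 : 0 ≤ θ := by positivity
  have θ1 : θ < 1 := Real.rpow_lt_one_of_one_lt_of_neg one_lt_two (by linarith)
  have term : ∀ j : ℕ, ∫⁻ x, (S j).indicator (fun _ => ENNReal.ofReal ((m / 2 ^ j) ^ q)) x ≤
      ENNReal.ofReal (B * (2 : ℝ) ^ k * m ^ (q - k) * θ ^ j) := by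
    intro j
    rw [lintegral_indicator_const (hS j)]
    refine (mul_le_mul_right (hlev _ (by positivity)) _).trans (le_of_eq ?_)
    rw [← ENNReal.ofReal_mul (by positivity)]
    congr 1
    have e1 : (m / 2 ^ j : ℝ) ^ q = m ^ q * (2 : ℝ) ^ (-(j * q)) := by
      rw [Real.div_rpow hm.le (by positivity), ← Real.rpow_natCast, ← Real.rpow_mul zero_le_two,
        Real.rpow_neg zero_le_two, div_eq_mul_inv]
    have e2 : (m / 2 ^ (j + 1) : ℝ) ^ (-k) = m ^ (-k) * (2 : ℝ) ^ ((j + 1) * k) := by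
      rw [Real.div_rpow hm.le (by positivity), ← Real.rpow_natCast, ← Real.rpow_mul zero_le_two,
        div_eq_mul_inv, ← Real.rpow_neg zero_le_two]
      congr 2; push_cast; ring
    have e3 : θ ^ j = (2 : ℝ) ^ (-(q - k) * j) := by
      rw [hθ, ← Real.rpow_natCast, ← Real.rpow_mul zero_le_two]
    have e4 : m ^ (q - k) = m ^ q * m ^ (-k) := by
      rw [← Real.rpow_add hm]; congr 1
    have e5 : (2 : ℝ) ^ (-(j * q)) * (2 : ℝ) ^ ((j + 1) * k) =
        (2 : ℝ) ^ k * (2 : ℝ) ^ (-(q - k) * j) := by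
      rw [← Real.rpow_add two_pos, ← Real.rpow_add two_pos]; congr 1; ring
    rw [e1, e2, e3, e4]
    linear_combination (m ^ q * m ^ (-k) * B) * e5
  refine (ENNReal.tsum_le_tsum term).trans (le_of_eq ?_)
  rw [← ENNReal.ofReal_tsum_of_nonneg (fun j => by positivity)
    ((summable_geometric_of_lt_one θ0 θ1).mul_left _), tsum_mul_left,
    tsum_geometric_of_lt_one θ0 θ1]

/-- weighted form of the triangle inequality -/
theorem tsum_rpow_le (M : ℕ → ℝ≥0∞) {θ : ℝ≥0∞} (h0 : θ ≠ 0) (h1 : θ ≠ ∞) {q : ℝ} (hq : 0 < q) :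
    (∑' k, M k) ^ q ≤ (1 - θ)⁻¹ ^ q * ∑' k, (θ⁻¹ ^ k) ^ q * M k ^ q := by
  set T := ∑' k, (θ⁻¹ ^ k) ^ q * M k ^ q with hT
  have h : ∀ k, M k ≤ θ ^ k * T ^ (1 / q) := by
    intro k
    have a1 : (θ⁻¹ ^ k * M k) ^ q ≤ T := by
      rw [ENNReal.mul_rpow_of_nonneg _ _ hq.le]; exact ENNReal.le_tsum k
    have a2 : θ⁻¹ ^ k * M k ≤ T ^ (1 / q) := by
      have := ENNReal.rpow_le_rpow a1 (one_div_pos.2 hq).le
      rwa [← ENNReal.rpow_mul, mul_one_div_cancel hq.ne', ENNReal.rpow_one] at this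
    calc M k = θ ^ k * (θ⁻¹ ^ k * M k) := by
          rw [← mul_assoc, ← mul_pow, ENNReal.mul_inv_cancel h0 h1, one_pow, one_mul]
      _ ≤ _ := by gcongr
  have h2 : ∑' k, M k ≤ (1 - θ)⁻¹ * T ^ (1 / q) := by
    refine (ENNReal.tsum_le_tsum h).trans (le_of_eq ?_)
    rw [ENNReal.tsum_mul_right, ENNReal.tsum_geometric]
  refine (ENNReal.rpow_le_rpow h2 hq.le).trans (le_of_eq ?_)
  rw [ENNReal.mul_rpow_of_nonneg _ _ hq.le, ← ENNReal.rpow_mul, one_div_mul_cancel hq.ne',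
    ENNReal.rpow_one]

end Pool.Agent.Lib.MP_108739_an.HA
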