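import Pool.Agent.Lib.MP_108739_an.HA.Defs

/-! Globalisation, second step: one arc and one cluster. -/

namespace Pool.Agent.Lib.MP_108739_an.HA.G2

open Finset MeasureTheory
open scoped Real

noncomputable section

lemma psi_lip {φ ψ : ℝ → ℝ} (cv : Curve φ ψ) (x y : ℝ) : |ψ x - ψ y| ≤ 2 * |x - y| := by
  rcases le_total x y with h | h
  · have h1 := cv.lo x y h
    have h2 := cv.hi x y h
    rw [abs_sub_comm (ψ x), abs_sub_comm x, abs_of_nonneg (by linarith : 0 ≤ ψ y - ψ x),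
      abs_of_nonneg (by linarith : 0 ≤ y - x)]
    exact h2
  · have h1 := cv.lo y x h
    have h2 := cv.hi y x h
    rw [abs_of_nonneg (by linarith : 0 ≤ ψ x - ψ y), abs_of_nonneg (by linarith : 0 ≤ x - y)]
    exact h2

lemma psi_cont {φ ψ : ℝ → ℝ} (cv : Curve φ ψ) : Continuous ψ := by
  have : LipschitzWith 2 ψ := LipschitzWith.of_dist_le_mul fun x y => by
    simpa [Real.dist_eq] using psi_lip cv x y
  exact this.continuous

lemma phi_cont {φ ψ : ℝ → ℝ} (cv : Curve φ ψ) : Continuous φ := by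
  rw [continuous_iff_continuousAt]
  intro x
  have hψ := psi_cont cv
  have h1 : Filter.Tendsto (fun y => φ x + ψ x * (y - x)) (nhds x) (nhds (φ x)) := by
    have : Continuous (fun y => φ x + ψ x * (y - x)) := by fun_prop
    simpa using this.tendsto x
  have h2 : Filter.Tendsto (fun y => φ x + ψ y * (y - x)) (nhds x) (nhds (φ x)) := by
    have : Continuous (fun y => φ x + ψ y * (y - x)) := by fun_prop
    simpa using this.tendsto x
  refine tendsto_of_tendsto_of_tendsto_of_le_of_le h1 h2 (fun y => cv.conv x y) (fun y => ?_)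
  have := cv.conv y x
  show φ y ≤ φ x + ψ y * (y - x)
  nlinarith

lemma norm_ex (x : ℝ) : ‖ex x‖ = 1 := by
  unfold ex
  have : (2 * π * Complex.I * x : ℂ) = ((2 * π * x : ℝ) : ℂ) * Complex.I := by push_cast; ring
  rw [this, Complex.norm_exp_ofReal_mul_I]

lemma ex_cont : Continuous ex := by
  unfold ex; fun_prop

lemma ii_of_bd {E : Type*} [NormedAddCommGroup E] {F : ℝ → E} (hF : AEStronglyMeasurable F volume)
    (h : ∀ x, ‖F x‖ ≤ 1) (a b : ℝ) : IntervalIntegrable F volume a b :=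
  (intervalIntegrable_const (c := (1 : ℝ))).mono_fun' hF.restrict (ae_of_all _ h)

lemma ii_ext {φ : ℝ → ℝ} (hφ : Continuous φ) {f : ℝ → ℂ} (hf : Measurable f) (h1 : ∀ ξ, ‖f ξ‖ ≤ 1)
    (p : ℝ × ℝ) (a b : ℝ) :
    IntervalIntegrable (fun ξ => f ξ * ex (p.1 * ξ + p.2 * φ ξ)) volume a b := by
  refine ii_of_bd (Measurable.aestronglyMeasurable ?_) (fun x => ?_) a b
  · exact hf.mul (ex_cont.comp (by fun_prop)).measurable
  · rw [norm_mul, norm_ex, mul_one]; exact h1 x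

lemma ii_sq {f : ℝ → ℂ} (hf : Measurable f) (h1 : ∀ ξ, ‖f ξ‖ ≤ 1) (a b : ℝ) :
    IntervalIntegrable (fun ξ => ‖f ξ‖ ^ 2) volume a b := by
  refine ii_of_bd (Measurable.aestronglyMeasurable (hf.norm.pow_const 2)) (fun x => ?_) a b
  rw [Real.norm_of_nonneg (by positivity)]
  have := h1 x
  have h0 := norm_nonneg (f x)
  nlinarith

lemma split {E : Type*} [NormedAddCommGroup E] [NormedSpace ℝ E] {F : ℝ → E}
    (hF : ∀ a b, IntervalIntegrable F volume a b) (a s : ℝ) (K : ℕ) :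
    ∑ r ∈ range K, ∫ x in (a + r * s)..(a + (r + 1) * s), F x = ∫ x in a..(a + K * s), F x := by
  have := intervalIntegral.sum_integral_adjacent_intervals (f := F) (μ := volume)
    (a := fun k : ℕ => a + k * s) (n := K) (fun k _ => hF _ _)
  simpa using this

lemma sq_le {f : ℝ → ℂ} (hf : Measurable f) (h1 : ∀ ξ, ‖f ξ‖ ≤ 1) {a b : ℝ} (hab : a ≤ b) :
    ∫ ξ in a..b, ‖f ξ‖ ^ 2 ≤ b - a := by
  have := intervalIntegral.integral_mono_on hab (ii_sq hf h1 a b)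
    (intervalIntegrable_const (c := (1 : ℝ))) (fun x _ => by
      have := h1 x
      have h0 := norm_nonneg (f x)
      nlinarith)
  simpa using this

lemma sq_nn (f : ℝ → ℂ) {a b : ℝ} (hab : a ≤ b) : 0 ≤ ∫ ξ in a..b, ‖f ξ‖ ^ 2 :=
  intervalIntegral.integral_nonneg hab fun x _ => by positivity

/-- Cauchy-Schwarz in the weak form that is needed. -/
lemma ext_le {φ : ℝ → ℝ} {f : ℝ → ℂ} (hf : Measurable f) (h1 : ∀ ξ, ‖f ξ‖ ≤ 1)
    (p : ℝ × ℝ) {lam : ℝ} (hl : 0 < lam) (h : lam ≤ ‖Ext φ 0 (1 / 2) f p‖) :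
    lam ^ 2 ≤ ∫ ξ in (0 : ℝ)..(1 / 2), ‖f ξ‖ ^ 2 := by
  have hab : (0 : ℝ) ≤ 1 / 2 := by norm_num
  have h2 : ‖Ext φ 0 (1 / 2) f p‖ ≤ ∫ ξ in (0 : ℝ)..(1 / 2), (‖f ξ‖ ^ 2 / (2 * lam) + lam / 2) := by
    unfold Ext
    refine intervalIntegral.norm_integral_le_of_norm_le hab (ae_of_all _ fun x _ => ?_)
      (((ii_sq hf h1 _ _).div_const _).add intervalIntegrable_const)
    rw [norm_mul, norm_ex, mul_one]
    have : ‖f x‖ ^ 2 / (2 * lam) + lam / 2 - ‖f x‖ = (‖f x‖ - lam) ^ 2 / (2 * lam) := by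
      field_simp; ring
    have h3 : 0 ≤ (‖f x‖ - lam) ^ 2 / (2 * lam) := by positivity
    linarith
  rw [intervalIntegral.integral_add ((ii_sq hf h1 _ _).div_const _) intervalIntegrable_const,
    intervalIntegral.integral_div] at h2
  simp only [intervalIntegral.integral_const, smul_eq_mul] at h2
  set I := ∫ ξ in (0 : ℝ)..(1 / 2), ‖f ξ‖ ^ 2
  have h3 : lam ≤ I / (2 * lam) + (1 / 2 - 0) * (lam / 2) := h.trans h2
  have h4 : lam / 2 ≤ I / (2 * lam) := by linarith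
  rw [le_div_iff₀ (by positivity)] at h4
  nlinarith

lemma cs_le (M : Mo) (s : ℝ) (n : ℕ) (hs : 0 < s) (hn : (n + 1) * s ≤ 1 / 2) (hL : 4 ≤ M.L)
    (hQ : 1 ≤ M.Q) : |cs M s n| ≤ 3 := by
  unfold cs sl
  have hL0 := M.hL
  have hQ0 := M.hQ
  set u : ℝ := (((n : ℤ) : ℝ) - 1 / 2) * s with hu
  set ξ : ℝ := (⌊M.L * u⌋ : ℝ) / M.L with hξ
  have hn0 : (0 : ℝ) ≤ n := Nat.cast_nonneg n
  have hu1 : u ≤ 1 / 2 := by rw [hu]; push_cast; nlinarith
  have hu2 : -(1 / 4) ≤ u := by rw [hu]; push_cast; nlinarith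
  have h1 : ξ ≤ u := by
    rw [hξ, div_le_iff₀ hL0]; have := Int.floor_le (M.L * u); linarith
  have h2 : u - 1 / 4 ≤ ξ := by
    rw [hξ, le_div_iff₀ hL0]; have := Int.lt_floor_add_one (M.L * u); nlinarith
  have h3 : |ξ| ≤ 1 / 2 := abs_le.2 ⟨by linarith, by linarith⟩
  have h4 : |M.ψ ξ| ≤ 2 := by
    have := psi_lip M.cv ξ 0
    rw [sub_zero] at this
    have h5 := M.cv.z2
    have h6 := abs_sub_abs_le_abs_sub (M.ψ ξ) (M.ψ 0)
    linarith
  have h5 := abs_sub_round (M.Q * M.ψ ξ)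
  rw [abs_div, abs_of_pos hQ0, div_le_iff₀ hQ0]
  have h6 : |M.Q * M.ψ ξ| ≤ 2 * M.Q := by
    rw [abs_mul, abs_of_pos hQ0]; nlinarith
  have h7 := abs_sub_abs_le_abs_sub ((round (M.Q * M.ψ ξ) : ℤ) : ℝ) (M.Q * M.ψ ξ)
  rw [abs_sub_comm] at h7
  linarith

open Classical in
lemma kt_shift {Θ : ℝ} {Y : Finset (ℝ × ℝ)} (h : KT Θ Y) (z0 : ℝ × ℝ) :
    KT Θ (Y.image fun p => p - z0) := by
  intro z r hr
  refine le_trans ?_ (h (z + z0) r hr)
  have : #{p ∈ Y.image (fun p => p - z0) | InSq z r p} ≤ #{p ∈ Y | InSq (z + z0) r p} := by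
    refine le_trans (card_le_card (t := ({p ∈ Y | InSq (z + z0) r p}).image fun p => p - z0) ?_)
      card_image_le
    intro p hp
    rw [mem_filter, mem_image] at hp
    obtain ⟨⟨q, hq, rfl⟩, h1, h2, h3, h4⟩ := hp
    refine mem_image.2 ⟨q, mem_filter.2 ⟨hq, ?_⟩, rfl⟩
    simp only [Prod.fst_sub, Prod.snd_sub] at h1 h2 h3 h4
    refine ⟨?_, ?_, ?_, ?_⟩ <;> simp only [Prod.fst_add, Prod.snd_add] <;> linarith
  exact_mod_cast this

lemma kt_mono {Θ : ℝ} {X Y : Finset (ℝ × ℝ)} (h : KT Θ X) (hY : Y ⊆ X) : KT Θ Y := by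
  classical
  intro z r hr
  refine le_trans ?_ (h z r hr)
  exact_mod_cast card_le_card (fun p hp => by
    rw [mem_filter] at hp ⊢; exact ⟨hY hp.1, hp.2⟩)

open Classical in
lemma kt_dy {Θ : ℝ} {Y : Finset (ℝ × ℝ)} (h : KT Θ Y) (M : Mo) (s : ℝ) (l : ℤ) (hs : 0 < s)
    (hs2 : s ≤ 1 / 2) (hc : |cs M s l| ≤ 3) (y : ℕ) (u v : ℤ) :
    (#{p ∈ Y | ⌊fx M s l p / 2 ^ y⌋ = u ∧ ⌊ft s p / 2 ^ y⌋ = v} : ℝ) ≤ 2 * Θ / s ^ 2 * 2 ^ y := by
  set T : ℝ := 2 ^ y / (4 * s ^ 2) with hT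
  have hy : (1 : ℝ) ≤ 2 ^ y := one_le_pow₀ (by norm_num)
  have hy0 : (0 : ℝ) < 2 ^ y := by positivity
  have hT1 : 1 ≤ T := by
    rw [hT, le_div_iff₀ (by positivity)]; nlinarith
  have hTy : (2 : ℝ) ^ y = 4 * s ^ 2 * T := by rw [hT]; field_simp
  set c := cs M s l with hcdef
  have key := h (u * (2 * s * T) - c * (v * T) - 3 * T, v * T) (8 * T) (by linarith)
  have e : Θ * (8 * T) = 2 * Θ / s ^ 2 * 2 ^ y := by rw [hT]; field_simp; ring
  rw [← e]
  refine le_trans ?_ key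
  have : #{p ∈ Y | ⌊fx M s l p / 2 ^ y⌋ = u ∧ ⌊ft s p / 2 ^ y⌋ = v} ≤
      #{p ∈ Y | InSq (u * (2 * s * T) - c * (v * T) - 3 * T, v * T) (8 * T) p} := by
    refine card_le_card fun p hp => ?_
    rw [mem_filter] at hp ⊢
    obtain ⟨hp, h1, h2⟩ := hp
    refine ⟨hp, ?_⟩
    rw [Int.floor_eq_iff, le_div_iff₀ hy0, div_lt_iff₀ hy0, hTy] at h1 h2
    unfold fx at h1
    unfold ft at h2
    rw [← hcdef] at h1
    have a1 : v * T ≤ p.2 := by
      have : 4 * s ^ 2 * (v * T) ≤ 4 * s ^ 2 * p.2 := by linarith [h2.1]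
      exact le_of_mul_le_mul_left this (by positivity)
    have a2 : p.2 ≤ v * T + T := by
      have : 4 * s ^ 2 * p.2 ≤ 4 * s ^ 2 * (v * T + T) := by linarith [h2.2]
      exact le_of_mul_le_mul_left this (by positivity)
    have a3 : u * (2 * s * T) ≤ p.1 + c * p.2 := by
      have : 2 * s * (u * (2 * s * T)) ≤ 2 * s * (p.1 + c * p.2) := by linarith [h1.1]
      exact le_of_mul_le_mul_left this (by positivity)
    have a4 : p.1 + c * p.2 ≤ u * (2 * s * T) + 2 * s * T := by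
      have : 2 * s * (p.1 + c * p.2) ≤ 2 * s * (u * (2 * s * T) + 2 * s * T) := by linarith [h1.2]
      exact le_of_mul_le_mul_left this (by positivity)
    have a5 : |c * (p.2 - v * T)| ≤ 3 * T := by
      rw [abs_mul, abs_of_nonneg (by linarith : 0 ≤ p.2 - v * T)]
      exact mul_le_mul hc (by linarith) (by linarith) (by norm_num)
    have a6 := abs_le.1 a5
    have a7 : 2 * s * T ≤ T := by nlinarith
    refine ⟨?_, ?_, ?_, ?_⟩ <;> simp only <;> nlinarith [a6.1, a6.2]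
  exact_mod_cast this

open Classical in
/-- One arc, one cluster. -/
lemma one {Cf : ℝ} (hF : FrameAt Cf) (hCf : 1 ≤ Cf) (hD : DiscStmt) {φ ψ : ℝ → ℝ} (cv : Curve φ ψ)
    (K1 A n : ℕ) (H W s h Θ : ℝ) (g : ℕ → ℝ → ℂ) (Y : Finset (ℝ × ℝ)) (z0 : ℝ × ℝ)
    (hK : 1 ≤ K1) (hH : 100 ≤ H) (hs : 0 < s) (hns : (n + 1) * s ≤ 1 / 2) (hR : 1 ≤ H * s ^ 2 / 4)
    (hW : 0 ≤ W) (hcore : Core K1 H (H * s ^ 2 / 4) A W) (hg : ∀ r, Continuous (g r))
    (hY : ∀ p ∈ Y, InBox H (p - z0)) (hh : 40 / H ^ 3 ≤ h) (hΘ : 1 ≤ Θ) (hKT : KT Θ Y)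
    (hA : ∀ p ∈ Y, A ≤ #((range K1).filter fun r : ℕ =>
      3 * h ≤ ‖Ext φ (n * s + r * (s / K1)) (n * s + (r + 1) * (s / K1)) (g r) p‖))
    (hE : ∑ r ∈ range K1,
      ∫ ξ in (n * s + r * (s / K1))..(n * s + (r + 1) * (s / K1)), ‖g r ξ‖ ^ 2 ≤ s) :
    #Y * h ^ 3 ≤ 2000 * Cf * Θ * W * ∑ r ∈ range K1,
      ∫ ξ in (n * s + r * (s / K1))..(n * s + (r + 1) * (s / K1)), ‖g r ξ‖ ^ 2 := by
  have hH0 : 0 < H := by linarith
  have hK0 : (0 : ℝ) < K1 := by exact_mod_cast hK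
  have hn0 : (0 : ℝ) ≤ n := Nat.cast_nonneg n
  have hs2 : s ≤ 1 / 2 := by nlinarith
  have hsK : 0 < s / K1 := by positivity
  have hh0 : 0 < h := lt_of_lt_of_le (by positivity) hh
  let M : Mo := ⟨H ^ 4, H ^ 4, φ, ψ, by positivity, by positivity, cv⟩
  have hML : M.L = H ^ 4 := rfl
  have hMQ : M.Q = H ^ 4 := rfl
  have hH2 : 100 * H ≤ H ^ 2 := by nlinarith
  have hH3 : 100 * H ^ 2 ≤ H ^ 3 := by nlinarith
  have hH4 : 100 * H ^ 3 ≤ H ^ 4 := by nlinarith [pow_pos hH0 3]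
  have hH5 : H ^ 4 ≤ H ^ 5 := by nlinarith [pow_pos hH0 4]
  set I : ℕ → ℝ := fun r =>
    ∫ ξ in (n * s + r * (s / K1))..(n * s + (r + 1) * (s / K1)), ‖g r ξ‖ ^ 2 with hI
  have hI0 : ∀ r, 0 ≤ I r := fun r => sq_nn _ (by nlinarith)
  have hI1 : ∀ r < K1, I r ≤ 1 := fun r hr =>
    (single_le_sum (fun r _ => hI0 r) (mem_range.2 hr)).trans (hE.trans (by linarith))
  have hex : ∀ r : ℕ, ∃ F : Arr, r < K1 →
      Supp M F (n * s + r * (s / K1) - 1 / M.L) (n * s + (r + 1) * (s / K1)) (1 / H) ∧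
      en M H F ≤ 20 * I r ∧ ∀ z, InBox H z →
        ‖Ext φ (n * s + r * (s / K1)) (n * s + (r + 1) * (s / K1)) (g r) (z0 + z)‖ ≤
          2 * ‖ev M F z‖ + 40 * H / M.L * √(I r) := by
    intro r
    by_cases hr : r < K1
    · have hr1 : ((r : ℝ) + 1) ≤ K1 := by exact_mod_cast hr
      have hr2 : ((r : ℝ) + 1) * (s / K1) ≤ s := by
        calc ((r : ℝ) + 1) * (s / K1) ≤ K1 * (s / K1) := by gcongr
          _ = s := by field_simp
      obtain ⟨F, h1, h2, h3⟩ := hD M (n * s + r * (s / K1)) (n * s + (r + 1) * (s / K1)) H (g r) z0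
        (by positivity) (by nlinarith) (by nlinarith) (by linarith) (by rw [hML]; nlinarith)
        (by rw [hMQ]; nlinarith) (hg r)
      exact ⟨F, fun _ => ⟨h1, h2, h3⟩⟩
    · exact ⟨0, fun h => absurd h hr⟩
  choose G hG using hex
  set Y' := Y.image fun p => p - z0 with hY'
  have hcard : #Y' = #Y := card_image_of_injective _ (sub_left_injective)
  have hc3 : |cs M s n| ≤ 3 := cs_le M s n hs hns (by rw [hML]; nlinarith) (by rw [hMQ]; nlinarith)
  have hΞ : 1 ≤ 2 * Θ / s ^ 2 := by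
    rw [le_div_iff₀ (by positivity)]; nlinarith
  have main := hF K1 A H H W s M n G Y' h (2 * Θ / s ^ 2) (#Y') hK hH hs hs2 hR hW hcore
    (by rw [hML]; nlinarith) (by rw [hML]; exact hH5) (by rw [hMQ]; nlinarith)
    (by rw [hMQ]; exact hH5)
    (by push_cast; rw [abs_of_nonneg (by positivity)]; nlinarith)
    (fun r hr k hk => by
      obtain ⟨h1, h2, h3⟩ := (hG r hr).1 k hk
      have e1 : 1 / M.L ≤ 1 / H := by
        rw [hML]; exact one_div_le_one_div_of_le hH0 (by nlinarith)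
      have e2 : 0 < 1 / H := by positivity
      have e3 : (8 : ℝ) / H = 8 * (1 / H) := by ring
      have e4 : (r : ℝ) * s / K1 = r * (s / K1) := by ring
      have e5 : ((r : ℝ) + 1) * s / K1 = (r + 1) * (s / K1) := by ring
      push_cast
      rw [e4, e5]
      exact ⟨by linarith, by linarith, by linarith⟩)
    (fun p hp => by
      obtain ⟨q, hq, rfl⟩ := mem_image.1 hp
      exact hY q hq)
    hh0 hΞ (Nat.cast_nonneg _)
    (fun p hp => by
      obtain ⟨q, hq, rfl⟩ := mem_image.1 hp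
      refine (hA q hq).trans (card_le_card fun r hr => ?_)
      rw [mem_filter] at hr ⊢
      refine ⟨hr.1, ?_⟩
      have h1 := (hG r (mem_range.1 hr.1)).2.2 _ (hY q hq)
      rw [add_sub_cancel] at h1
      have h2 : √(I r) ≤ 1 := Real.sqrt_le_one.2 (hI1 r (mem_range.1 hr.1))
      have h3 : 40 * H / M.L = 40 / H ^ 3 := by rw [hML]; field_simp
      rw [h3] at h1
      have h4 : 40 / H ^ 3 * √(I r) ≤ 40 / H ^ 3 * 1 := by gcongr
      linarith [hr.2])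
    (fun y _ u v => kt_dy (kt_shift hKT z0) M s n hs hs2 hc3 y u v)
    (fun u => by exact_mod_cast card_filter_le _ _)
  rw [hcard] at main
  set En := ∑ r ∈ range K1, en M H (G r) with hEn
  set J := ∑ r ∈ range K1, I r with hJ
  have hJ0 : 0 ≤ J := sum_nonneg fun r _ => hI0 r
  have hEn0 : 0 ≤ En := sum_nonneg fun r _ => by
    unfold en nrm
    have := M.hL
    have := M.hQ
    positivity
  have hEJ : En ≤ 20 * J := by
    rw [hEn, hJ, mul_sum]
    exact sum_le_sum fun r hr => (hG r (mem_range.1 hr)).2.1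
  rcases Nat.eq_zero_or_pos #Y with h0 | h0
  · rw [h0]; simp only [Nat.cast_zero, zero_mul]; positivity
  have hY0 : (0 : ℝ) < #Y := by exact_mod_cast h0
  have h3 : En ^ 3 ≤ 8000 * s * J ^ 2 := by
    calc En ^ 3 ≤ (20 * J) ^ 3 := by gcongr
      _ = 8000 * J * J ^ 2 := by ring
      _ ≤ 8000 * s * J ^ 2 := by gcongr
  have h4 : (#Y : ℝ) * ((#Y * h ^ 3) ^ 2) ≤ #Y * ((2000 * Cf * Θ * W * J) ^ 2) := by
    calc (#Y : ℝ) * ((#Y * h ^ 3) ^ 2) = (#Y : ℝ) ^ 3 * h ^ 6 := by ring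
      _ ≤ _ := main
      _ ≤ Cf * s ^ 3 * #Y * (2 * Θ / s ^ 2) ^ 2 * W ^ 2 * (8000 * s * J ^ 2) := by gcongr
      _ = #Y * (32000 * Cf * (Θ * W * J) ^ 2) := by field_simp; ring
      _ ≤ #Y * ((2000 * Cf) ^ 2 * (Θ * W * J) ^ 2) := by
        gcongr; nlinarith
      _ = _ := by ring
  have h5 := le_of_mul_le_mul_left h4 hY0
  exact (pow_le_pow_iff_left₀ (by positivity) (by positivity) two_ne_zero).1 h5

end

end Pool.Agent.Lib.MP_108739_an.HA.G2
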