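import Pool.Agent.Lib.MP_108739_an.HA.Defs

/-! Transfer of the maximal estimate from the parameter interval to the curve as a subset of the
Euclidean plane with its one dimensional Hausdorff measure. -/

namespace Pool.Agent.Lib.MP_108739_an.HA

open MeasureTheory Set
open scoped ENNReal NNReal

namespace Haus

lemma ext1 {c g : ℝ → ℝ} (hg : Continuous g)
    (hc : ∀ u ∈ Icc (0 : ℝ) 1, HasDerivWithinAt c (g u) (Icc 0 1) u) :
    ∃ a : ℝ → ℝ, (∀ u, HasDerivAt a (g u) u) ∧ ∀ u ∈ Icc (0 : ℝ) 1, a u = c u := by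
  refine ⟨fun u => c 0 + ∫ t in (0 : ℝ)..u, g t,
    fun u => (hg.integral_hasStrictDerivAt 0 u).hasDerivAt.const_add _, fun u hu => ?_⟩
  have hsub : Icc 0 u ⊆ Icc (0 : ℝ) 1 := Icc_subset_Icc le_rfl hu.2
  have := intervalIntegral.integral_eq_sub_of_hasDerivAt_of_le hu.1 (f := c) (f' := g)
    (fun x hx => (hc x (hsub hx)).continuousWithinAt.mono hsub)
    (fun x hx => (hc x (hsub (Ioo_subset_Icc_self hx))).hasDerivAt
      (Icc_mem_nhds hx.1 (hx.2.trans_le hu.2))) (hg.intervalIntegrable _ _)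
  simp only [this]
  ring

/-- A `C²` function on `[0,1]` extends to a `C²` function on the line. -/
lemma ext2 {c : ℝ → ℝ} (hc : ContDiffOn ℝ 2 c (Icc 0 1)) :
    ∃ a : ℝ → ℝ, ContDiff ℝ 2 a ∧ ∀ u ∈ Icc (0 : ℝ) 1, a u = c u ∧
      deriv a u = derivWithin c (Icc 0 1) u ∧
      deriv (deriv a) u = derivWithin (derivWithin c (Icc 0 1)) (Icc 0 1) u := by
  have hU : UniqueDiffOn ℝ (Icc (0 : ℝ) 1) := uniqueDiffOn_Icc zero_lt_one
  have h1 : ContDiffOn ℝ 1 (derivWithin c (Icc 0 1)) (Icc 0 1) :=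
    hc.derivWithin hU (by norm_num)
  have h2 := h1.continuousOn_derivWithin hU le_rfl
  set g : ℝ → ℝ := fun u => derivWithin (derivWithin c (Icc 0 1)) (Icc 0 1)
    (projIcc (0 : ℝ) 1 zero_le_one u) with hg
  have cg : Continuous g := h2.comp_continuous
    (continuous_subtype_val.comp continuous_projIcc) fun u => (projIcc _ _ _ u).2
  have eg : ∀ u ∈ Icc (0 : ℝ) 1, g u = derivWithin (derivWithin c (Icc 0 1)) (Icc 0 1) u :=
    fun u hu => by simp only [hg, projIcc_of_mem _ hu]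
  obtain ⟨a1, d1, e1⟩ := ext1 (c := derivWithin c (Icc 0 1)) cg fun u hu => by
    rw [eg u hu]
    exact (h1.differentiableOn one_ne_zero u hu).hasDerivWithinAt
  have c1 : Continuous a1 := continuous_iff_continuousAt.2 fun u => (d1 u).continuousAt
  obtain ⟨a, d0, e0⟩ := ext1 (c := c) c1 fun u hu => by
    rw [e1 u hu]
    exact (hc.differentiableOn two_ne_zero u hu).hasDerivWithinAt
  have f0 : deriv a = a1 := funext fun u => (d0 u).deriv
  have f1 : deriv a1 = g := funext fun u => (d1 u).deriv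
  refine ⟨a, ?_, fun u hu => ⟨e0 u hu, by rw [f0, e1 u hu], by rw [f0, f1, eg u hu]⟩⟩
  rw [show (2 : WithTop ℕ∞) = 1 + 1 from rfl, contDiff_succ_iff_deriv, contDiff_one_iff_deriv,
    f0, f1]
  exact ⟨fun u => (d0 u).differentiableAt, by simp, fun u => (d1 u).differentiableAt, cg⟩

abbrev Pl := EuclideanSpace ℝ (Fin 2)

lemma haus_le {γ : ℝ → Pl} (hγ : ContDiff ℝ 2 γ) : ∃ K : ℝ≥0, 1 ≤ K ∧
    (μH[1] : Measure Pl).restrict (γ '' Icc 0 1) ≤
      (K : ℝ≥0∞) • (volume.restrict (Ioc (0 : ℝ) 1)).map γ := by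
  obtain ⟨K, hK⟩ := hγ.contDiffOn.exists_lipschitzOnWith two_ne_zero (convex_Icc (0 : ℝ) 1)
    isCompact_Icc
  refine ⟨K + 1, le_add_self, Measure.le_iff.2 fun s hs => ?_⟩
  have hm := hγ.continuous.measurable
  rw [Measure.restrict_apply hs, Measure.smul_apply, Measure.map_apply hm hs,
    Measure.restrict_congr_set Ioc_ae_eq_Icc, Measure.restrict_apply (hm hs), ← image_preimage_inter]
  refine ((hK.mono inter_subset_right).hausdorffMeasure_image_le zero_le_one).trans ?_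
  rw [hausdorffMeasure_real, ENNReal.rpow_one, smul_eq_mul]
  gcongr
  exact le_self_add

lemma exists_r {q : ℝ} (hq : 3 < q) {p : ℝ≥0∞} (hp : ENNReal.ofReal (2 / q) + p⁻¹ < 1) :
    ∃ r : ℝ, 1 < r ∧ 2 / q + 1 / r < 1 ∧ ENNReal.ofReal r ≤ p := by
  have h0 : 0 < 2 / q := by positivity
  have h1 : p⁻¹ ≠ ⊤ := (lt_of_le_of_lt le_add_self (hp.trans ENNReal.one_lt_top)).ne
  have h2 : 2 / q + (p⁻¹).toReal < 1 := by
    have := ENNReal.toReal_strict_mono ENNReal.one_ne_top hp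
    rwa [ENNReal.toReal_add ENNReal.ofReal_ne_top h1, ENNReal.toReal_ofReal h0.le,
      ENNReal.toReal_one] at this
  have h3 : 0 ≤ (p⁻¹).toReal := ENNReal.toReal_nonneg
  have h4 : 0 < ((p⁻¹).toReal + 1 - 2 / q) / 2 := by linarith
  refine ⟨(((p⁻¹).toReal + 1 - 2 / q) / 2)⁻¹, (one_lt_inv₀ h4).2 (by linarith), ?_, ?_⟩
  · rw [one_div, inv_inv]
    linarith
  · rw [ENNReal.ofReal_inv_of_pos h4, ← ENNReal.inv_le_inv, inv_inv]
    conv_lhs => rw [← ENNReal.ofReal_toReal h1]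
    exact ENNReal.ofReal_le_ofReal (by linarith)

/-- Any measure dominated by the image of Lebesgue measure. -/
lemma dominated {a b : ℝ → ℝ} (ha : Continuous a) (hb : Continuous b) (h : G0At a b)
    (σ : Measure Pl) {K : ℝ≥0} (hK : 1 ≤ K)
    (hσ : σ ≤ (K : ℝ≥0∞) • (volume.restrict (Ioc (0 : ℝ) 1)).map fun u => (!₂[a u, b u] : Pl))
    {q : ℝ} (hq : 3 < q) {p : ℝ≥0∞} (hp : ENNReal.ofReal (2 / q) + p⁻¹ < 1) :
    ∃ C : ℝ≥0, ∀ f : Pl → ℂ, MemLp f p σ →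
      (∫⁻ x₁ : ℝ, (⨆ x₂ : ℝ, ‖∫ ξ, Complex.exp (Complex.I *
        (inner ℝ (!₂[x₁, x₂] : Pl) ξ : ℝ)) * f ξ ∂σ‖ₑ) ^ q) ^ (1 / q) ≤ C * eLpNorm f p σ := by
  obtain ⟨r, r1, r2, r3⟩ := exists_r hq hp
  obtain ⟨C, hC⟩ := h q r hq r1 r2
  have r0 : 0 < r := by linarith
  set γ : ℝ → Pl := fun u => !₂[a u, b u] with hγ
  have cγ : Continuous γ := by fun_prop
  have mγ := cγ.measurable
  set μ0 := (volume.restrict (Ioc (0 : ℝ) 1)).map γ with hμ0
  set ν : Measure Pl := (K : ℝ≥0∞) • μ0 with hν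
  have i1 : IsFiniteMeasure μ0 := Measure.isFiniteMeasure_map _ _
  have i2 : IsFiniteMeasure ν := ⟨by
    rw [hν, Measure.smul_apply, smul_eq_mul]
    exact ENNReal.mul_lt_top ENNReal.coe_lt_top (measure_lt_top _ _)⟩
  have i3 : IsFiniteMeasure σ := isFiniteMeasure_of_le ν hσ
  set w : Pl → ℝ≥0∞ := fun x => min (σ.rnDeriv ν x) 1 with hw
  have mw : Measurable w := (Measure.measurable_rnDeriv _ _).min measurable_const
  have w1 : ∀ x, w x ≤ 1 := fun x => min_le_right _ _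
  have wt : ∀ x, w x ≠ ⊤ := fun x => ((w1 x).trans_lt ENNReal.one_lt_top).ne
  have eσ : ν.withDensity w = σ := by
    have := Measure.haveLebesgueDecomposition_of_sigmaFinite σ ν
    refine (withDensity_congr_ae ?_).trans
      (Measure.withDensity_rnDeriv_eq σ ν (Measure.absolutelyContinuous_of_le hσ))
    filter_upwards [Measure.rnDeriv_le_one_of_le hσ] with x hx
    exact min_eq_left hx
  have hfin : σ univ ^ (1 / (ENNReal.ofReal r).toReal - 1 / p.toReal) ≠ ⊤ := by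
    refine ENNReal.rpow_ne_top_of_nonneg ?_ (measure_ne_top _ _)
    rcases eq_or_ne p ⊤ with rfl | hpt
    · simp only [ENNReal.toReal_top, div_zero, sub_zero]
      positivity
    · have := ENNReal.toReal_mono hpt r3
      rw [ENNReal.toReal_ofReal r0.le] at this ⊢
      rw [sub_nonneg]
      gcongr
  refine ⟨C * K * (σ univ ^ (1 / (ENNReal.ofReal r).toReal - 1 / p.toReal)).toNNReal,
    fun f hf => ?_⟩
  set g := hf.1.mk f with hg
  have mg : Measurable g := hf.1.stronglyMeasurable_mk.measurable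
  have eg : f =ᵐ[σ] g := hf.1.ae_eq_mk
  set F : ℝ → ℂ := fun u => (K : ℝ) • (w (γ u)).toReal • g (γ u) with hF
  have mF : Measurable F := by
    exact ((mw.comp mγ).ennreal_toReal.smul (mg.comp mγ)).const_smul (K : ℝ)
  have e1 : ∀ x₁ x₂ : ℝ, ∫ ξ, Complex.exp (Complex.I *
      (inner ℝ (!₂[x₁, x₂] : Pl) ξ : ℝ)) * f ξ ∂σ = Par a b F x₁ x₂ := by
    intro x₁ x₂
    have m1 : Measurable fun ξ : Pl => Complex.exp (Complex.I *
        (inner ℝ (!₂[x₁, x₂] : Pl) ξ : ℝ)) := by fun_prop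
    have m3 : Measurable fun ξ : Pl => (w ξ).toReal • (Complex.exp (Complex.I *
        (inner ℝ (!₂[x₁, x₂] : Pl) ξ : ℝ)) * g ξ) := mw.ennreal_toReal.smul (m1.mul mg)
    rw [integral_congr_ae (g := fun ξ => Complex.exp (Complex.I *
        (inner ℝ (!₂[x₁, x₂] : Pl) ξ : ℝ)) * g ξ) (eg.mono fun ξ hξ => by simp only [hξ]), ← eσ,
      integral_withDensity_eq_integral_toReal_smul mw (ae_of_all _ fun x => (wt x).lt_top), hν,
      integral_smul_measure, hμ0, integral_map_of_stronglyMeasurable mγ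
        m3.stronglyMeasurable, ← integral_smul, Par,
      intervalIntegral.integral_of_le zero_le_one]
    refine integral_congr_ae (ae_of_all _ fun u => ?_)
    have : inner ℝ (!₂[x₁, x₂] : Pl) (γ u) = x₁ * a u + x₂ * b u := by
      simp [hγ, PiLp.inner_apply, Fin.sum_univ_two, mul_comm]
    simp only [hF, this, ENNReal.coe_toReal, Complex.real_smul]
    ring
  have e2 : ∫⁻ u in Ioc (0 : ℝ) 1, ‖F u‖ₑ ^ r ≤ (K : ℝ≥0∞) ^ r * ∫⁻ ξ, ‖f ξ‖ₑ ^ r ∂σ := by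
    have m2 : Measurable fun ξ => ‖g ξ‖ₑ ^ r := mg.enorm.pow_const r
    rw [lintegral_congr_ae (g := fun ξ => ‖g ξ‖ₑ ^ r) (eg.mono fun ξ hξ => by simp only [hξ]),
      ← eσ, lintegral_withDensity_eq_lintegral_mul _ mw m2, hν, lintegral_smul_measure, hμ0,
      lintegral_map (mw.mul m2) mγ, smul_eq_mul, ← mul_assoc,
      ← lintegral_const_mul' _ _ (by finiteness)]
    refine lintegral_mono fun u => ?_
    have h1 : ‖F u‖ₑ = K * (w (γ u) * ‖g (γ u)‖ₑ) := by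
      simp only [hF, enorm_smul, NNReal.enorm_eq,
        Real.enorm_of_nonneg ENNReal.toReal_nonneg, ENNReal.ofReal_toReal (wt _)]
    have h2 : w (γ u) ^ r ≤ w (γ u) := by
      conv_rhs => rw [← ENNReal.rpow_one (w (γ u))]
      exact ENNReal.rpow_le_rpow_of_exponent_ge (w1 _) r1.le
    have h3 : (1 : ℝ≥0∞) ≤ K := by exact_mod_cast hK
    simp only [h1, ENNReal.mul_rpow_of_nonneg _ _ r0.le, Pi.mul_apply]
    calc _ ≤ (K : ℝ≥0∞) ^ r * 1 * (w (γ u) * ‖g (γ u)‖ₑ ^ r) := by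
          rw [mul_one]
          gcongr
      _ ≤ _ := by gcongr
  have rne : ENNReal.ofReal r ≠ 0 := by simpa using r0
  have e3 : (∫⁻ u in Ioc (0 : ℝ) 1, ‖F u‖ₑ ^ r) ^ (1 / r) ≤ K * eLpNorm f (ENNReal.ofReal r) σ := by
    rw [eLpNorm_eq_lintegral_rpow_enorm_toReal rne ENNReal.ofReal_ne_top,
      ENNReal.toReal_ofReal r0.le]
    refine (ENNReal.rpow_le_rpow e2 (by positivity)).trans (le_of_eq ?_)
    rw [ENNReal.mul_rpow_of_nonneg _ _ (by positivity), ← ENNReal.rpow_mul,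
      mul_one_div_cancel r0.ne', ENNReal.rpow_one]
  have e4 := eLpNorm_le_eLpNorm_mul_rpow_measure_univ r3 hf.1
  have iF : IntervalIntegrable F volume 0 1 := by
    rw [intervalIntegrable_iff_integrableOn_Ioc_of_le zero_le_one]
    have : MemLp F (ENNReal.ofReal r) (volume.restrict (Ioc (0 : ℝ) 1)) := by
      refine ⟨mF.aestronglyMeasurable, ?_⟩
      rw [eLpNorm_eq_lintegral_rpow_enorm_toReal rne ENNReal.ofReal_ne_top,
        ENNReal.toReal_ofReal r0.le]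
      exact e3.trans_lt (ENNReal.mul_lt_top ENNReal.coe_lt_top (hf.mono_exponent r3).2)
    exact this.integrable (by simpa using r1.le)
  simp only [e1]
  refine (hC F mF iF).trans ?_
  push_cast
  rw [ENNReal.coe_toNNReal hfin]
  calc _ ≤ (C : ℝ≥0∞) * (K * (eLpNorm f p σ *
        σ univ ^ (1 / (ENNReal.ofReal r).toReal - 1 / p.toReal))) := by
        gcongr
        exact e3.trans (by gcongr)
    _ = _ := by ring

end Haus

open Haus in
theorem haus (h : ∀ a b, Curved a b → G0At a b) (a b : ℝ → ℝ) (ha : ContDiffOn ℝ 2 a (Icc 0 1))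
    (hb : ContDiffOn ℝ 2 b (Icc 0 1))
    (hc : ∀ u ∈ Icc (0 : ℝ) 1,
      derivWithin a (Icc 0 1) u * derivWithin (derivWithin b (Icc 0 1)) (Icc 0 1) u -
        derivWithin b (Icc 0 1) u * derivWithin (derivWithin a (Icc 0 1)) (Icc 0 1) u ≠ 0)
    (q : ℝ) (hq : 3 < q) (p : ℝ≥0∞) (hp : ENNReal.ofReal (2 / q) + p⁻¹ < 1) :
    ∃ C : ℝ≥0, ∀ f : EuclideanSpace ℝ (Fin 2) → ℂ,
      MemLp f p (μH[1].restrict ((fun u => !₂[a u, b u]) '' Icc 0 1)) →
      (∫⁻ x₁ : ℝ, (⨆ x₂ : ℝ, ‖∫ ξ, Complex.exp (Complex.I *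
          (inner ℝ (!₂[x₁, x₂] : EuclideanSpace ℝ (Fin 2)) ξ : ℝ)) * f ξ
          ∂(μH[1].restrict ((fun u => !₂[a u, b u]) '' Icc 0 1))‖ₑ) ^ q) ^ (1 / q) ≤
        C * eLpNorm f p (μH[1].restrict ((fun u => !₂[a u, b u]) '' Icc 0 1)) := by
  obtain ⟨a', a1, a2⟩ := ext2 ha
  obtain ⟨b', b1, b2⟩ := ext2 hb
  have hcv : Curved a' b' := ⟨a1, b1, fun u hu => by
    rw [(a2 u hu).2.1, (a2 u hu).2.2, (b2 u hu).2.1, (b2 u hu).2.2]
    exact hc u hu⟩
  have e : (fun u => (!₂[a u, b u] : Pl)) '' Icc 0 1 = (fun u => (!₂[a' u, b' u] : Pl)) '' Icc 0 1 :=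
    image_congr fun u hu => by rw [(a2 u hu).1, (b2 u hu).1]
  obtain ⟨K, hK, hσ⟩ := haus_le (γ := fun u => (!₂[a' u, b' u] : Pl)) (by
    rw [contDiff_euclidean]
    intro i
    fin_cases i
    · exact a1
    · exact b1)
  rw [e]
  exact dominated a1.continuous b1.continuous (h a' b' hcv) _ hK hσ hq hp

theorem haus_ess (h : ∀ a b, Curved a b → G0At a b) (a b : ℝ → ℝ)
    (ha : ContDiffOn ℝ 2 a (Icc 0 1)) (hb : ContDiffOn ℝ 2 b (Icc 0 1))
    (hc : ∀ u ∈ Icc (0 : ℝ) 1,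
      derivWithin a (Icc 0 1) u * derivWithin (derivWithin b (Icc 0 1)) (Icc 0 1) u -
        derivWithin b (Icc 0 1) u * derivWithin (derivWithin a (Icc 0 1)) (Icc 0 1) u ≠ 0)
    (q : ℝ) (hq : 3 < q) (p : ℝ≥0∞) (hp : ENNReal.ofReal (2 / q) + p⁻¹ < 1) :
    ∃ C : ℝ≥0, ∀ f : EuclideanSpace ℝ (Fin 2) → ℂ,
      MemLp f p (μH[1].restrict ((fun u => !₂[a u, b u]) '' Icc 0 1)) →
      (∫⁻ x₁ : ℝ, (essSup (fun x₂ : ℝ => ‖∫ ξ, Complex.exp (Complex.I *
          (inner ℝ (!₂[x₁, x₂] : EuclideanSpace ℝ (Fin 2)) ξ : ℝ)) * f ξ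
          ∂(μH[1].restrict ((fun u => !₂[a u, b u]) '' Icc 0 1))‖ₑ) volume) ^ q) ^ (1 / q) ≤
        C * eLpNorm f p (μH[1].restrict ((fun u => !₂[a u, b u]) '' Icc 0 1)) := by
  obtain ⟨C, hC⟩ := haus h a b ha hb hc q hq p hp
  have hq0 : 0 < q := by linarith
  refine ⟨C, fun f hf => le_trans (ENNReal.rpow_le_rpow (lintegral_mono fun x₁ =>
    ENNReal.rpow_le_rpow ?_ hq0.le) (by positivity)) (hC f hf)⟩
  exact essSup_le_of_ae_le _ (ae_of_all _ fun x₂ => le_iSup (fun x₂ : ℝ =>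
    ‖∫ ξ, Complex.exp (Complex.I * (inner ℝ (!₂[x₁, x₂] : EuclideanSpace ℝ (Fin 2)) ξ : ℝ)) * f ξ
      ∂(μH[1].restrict ((fun u => !₂[a u, b u]) '' Icc 0 1))‖ₑ) x₂)

end Pool.Agent.Lib.MP_108739_an.HA
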