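import Pool.Agent.Lib.MP_108739_an.HA.Geo
import Pool.Agent.Lib.MP_108739_an.HA.ADefs

/-! Geometry of the tree of boxes. -/

namespace Pool.Agent.Lib.MP_108739_an.HA

open Finset

namespace SA

variable {g : Geo} {M : Mo}

theorem Wd_ge (h : g.Ok M) : (40000 : ℝ) ≤ Wd g := by
  unfold Wd; nlinarith [h.D_ge, h.ρ_ge]

theorem Wd_pos (h : g.Ok M) : 0 < Wd g := by linarith [Wd_ge h]

theorem sg_pos (h : g.Ok M) (k : ℕ) : 0 < sg g k := by
  have := h.δ_pos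
  have := h.D_ge
  unfold sg; positivity

theorem sg_succ (g : Geo) (k : ℕ) : sg g (k + 1) = sg g k * g.D := by unfold sg; ring

theorem sg_top (h : g.Ok M) : sg g g.ls = 1 := h.δ_mul

theorem sg_le_one (h : g.Ok M) {k : ℕ} (hk : k ≤ g.ls) : sg g k ≤ 1 := by
  rw [← sg_top h]
  exact mul_le_mul_of_nonneg_left (pow_le_pow_right₀ (by linarith [h.D_ge]) hk) h.δ_pos.le

theorem δ_le_sg (h : g.Ok M) (k : ℕ) : g.δ ≤ sg g k :=
  le_mul_of_one_le_right h.δ_pos.le (one_le_pow₀ (by linarith [h.D_ge]))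

theorem one_le_rad (g : Geo) (k : ℕ) : 1 ≤ rad g k := one_le_pow₀ (by norm_num)

theorem rad_le (g : Geo) (k : ℕ) : rad g k ≤ 9 ^ g.ls :=
  pow_le_pow_right₀ (by norm_num) (Nat.sub_le _ _)

theorem rad_succ {k : ℕ} (hk : k < g.ls) : rad g k = 9 * rad g (k + 1) := by
  unfold rad
  rw [show g.ls - k = g.ls - (k + 1) + 1 by omega, pow_succ]; ring

theorem cs_lip (h : g.Ok M) (l l' : ℤ) :
    |cs M g.δ l - cs M g.δ l'| ≤ 2 * |(l : ℝ) - l'| * g.δ + g.δ := by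
  have h1 := cs_near M g.δ l ((l' - 1 / 2) * g.δ)
  have h2 := cs_near M g.δ l' ((l' - 1 / 2) * g.δ)
  have hδ := h.δ_pos
  have hR := h.R_pos
  have e1 : ((l' : ℝ) - 1 / 2) * g.δ - (l - 1 / 2) * g.δ = -(((l : ℝ) - l') * g.δ) := by ring
  rw [e1, abs_neg, abs_mul, abs_of_pos hδ] at h1
  rw [sub_self, abs_zero] at h2
  have h3 := abs_sub_le (cs M g.δ l) (M.ψ ((l' - 1 / 2) * g.δ)) (cs M g.δ l')
  rw [abs_sub_comm (cs M g.δ l) (M.ψ _)] at h3
  have h4 : 1 ≤ g.δ * g.R := (div_le_iff₀ hR).1 h.inv_R_le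
  have h5 : 2 / M.L ≤ g.δ / 8 := by
    rw [div_le_div_iff₀ M.hL (by norm_num)]
    nlinarith [mul_le_mul_of_nonneg_left h.L_ge hδ.le]
  have h6 : 1 / (2 * M.Q) ≤ g.δ / 8 := by
    rw [div_le_div_iff₀ (by linarith [M.hQ]) (by norm_num)]
    nlinarith [mul_le_mul_of_nonneg_left h.Q_ge hδ.le]
  linarith

theorem sc_child (h : g.Ok M) (k a : ℕ) {r : ℕ} (hr : r < g.D) :
    |sc g M k (g.D * a + r) - sc g M (k + 1) a| ≤ 3 * sg g (k + 1) := by
  refine (cs_lip h _ _).trans ?_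
  have hD := h.D_ge
  have hδ := h.δ_pos
  have hr' : (r : ℝ) ≤ g.D := by exact_mod_cast hr.le
  have e : ((((g.D * a + r) * g.D ^ k : ℕ) : ℤ) : ℝ) - (((a * g.D ^ (k + 1) : ℕ) : ℤ) : ℝ) =
      r * (g.D : ℝ) ^ k := by push_cast; ring
  rw [e, abs_of_nonneg (by positivity)]
  have h1 := δ_le_sg h (k + 1)
  have h2 : (r : ℝ) * (g.D : ℝ) ^ k * g.δ ≤ g.D * (g.D : ℝ) ^ k * g.δ := by gcongr
  have h3 : sg g (k + 1) = g.D * (g.D : ℝ) ^ k * g.δ := by unfold sg; ring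
  linarith

theorem sc_le (h : g.Ok M) {k a : ℕ} (hk : k ≤ g.ls) (ha : a < g.D ^ (g.ls - k)) :
    |sc g M k a| ≤ 6 := by
  refine h.cs_leaf ?_
  have hD : 0 < g.D := by have := h.hD; have := h.hK; omega
  calc a * g.D ^ k < g.D ^ (g.ls - k) * g.D ^ k := Nat.mul_lt_mul_of_pos_right ha (pow_pos hD k)
    _ = g.D ^ g.ls := by rw [← pow_add, Nat.sub_add_cancel hk]

theorem floor_near {W : ℝ} (hW : 0 < W) (y : ℝ) : |y - ⌊y / W⌋ * W| ≤ W := by
  have h1 := (le_div_iff₀ hW).1 (Int.floor_le (y / W))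
  have h2 := (div_lt_iff₀ hW).1 (Int.lt_floor_add_one (y / W))
  rw [abs_le]
  constructor <;> linarith

theorem Nr.mono (h : g.Ok M) {e e' : ℝ} {k a : ℕ} {μ : ℤ × ℤ} {z : ℝ × ℝ} (he : e ≤ e')
    (hz : Nr g M e k a μ z) : Nr g M e' k a μ z :=
  ⟨hz.1.trans (mul_le_mul_of_nonneg_right he (Wd_pos h).le),
    hz.2.trans (mul_le_mul_of_nonneg_right he (div_pos (Wd_pos h) (sg_pos h k)).le)⟩

theorem geo1 (h : g.Ok M) (p : ℝ × ℝ) : Nr g M 1 g.ls 0 (cl0 g M p) p := by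
  unfold Nr
  rw [sg_top h, div_one, one_mul]
  exact ⟨floor_near (Wd_pos h) _, floor_near (Wd_pos h) _⟩

theorem geo2 (h : g.Ok M) (k a r : ℕ) (μ : ℤ × ℤ) (z : ℝ × ℝ) (hk : k < g.ls) (hr : r < g.D)
    (hz : Nr g M (rad g (k + 1) + 1) (k + 1) a μ z) :
    Nr g M (rad g k) k (g.D * a + r) (ch g M k a (g.D * a + r) μ) z := by
  obtain ⟨h1, h2⟩ := hz
  have hW := Wd_pos h
  have hs := sg_pos h (k + 1)
  have hs' := sg_pos h k
  have hD := h.D_ge
  have he := one_le_rad g (k + 1)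
  rw [rad_succ hk]
  set e := rad g (k + 1)
  constructor
  · have h3 := sc_child h k a hr
    have h4 := floor_near hW (μ.1 * Wd g + (sc g M k (g.D * a + r) - sc g M (k + 1) a) *
      (μ.2 * (Wd g / sg g (k + 1))))
    have h5 : |(sc g M k (g.D * a + r) - sc g M (k + 1) a) *
        (z.2 - μ.2 * (Wd g / sg g (k + 1)))| ≤ 3 * (e + 1) * Wd g := by
      rw [abs_mul]
      refine (mul_le_mul h3 h2 (abs_nonneg _) (by positivity)).trans (le_of_eq ?_)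
      field_simp
    simp only [ch]
    rw [abs_le] at h1 h4 h5 ⊢
    constructor <;> nlinarith
  · simp only [ch]
    have hD0 : (0 : ℤ) < g.D := by exact_mod_cast (by linarith : (0 : ℝ) < g.D)
    have a0 : (0 : ℝ) ≤ ((μ.2 % g.D : ℤ) : ℝ) := by exact_mod_cast Int.emod_nonneg _ hD0.ne'
    have a1 : ((μ.2 % g.D : ℤ) : ℝ) ≤ g.D := by exact_mod_cast (Int.emod_lt_of_pos _ hD0).le
    have a2 : (g.D : ℝ) * ((μ.2 / g.D : ℤ) : ℝ) + ((μ.2 % g.D : ℤ) : ℝ) = μ.2 := by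
      exact_mod_cast Int.mul_ediv_add_emod μ.2 g.D
    have a3 : Wd g / sg g k = g.D * (Wd g / sg g (k + 1)) := by
      rw [sg_succ]; field_simp
    have hu : 0 < Wd g / sg g (k + 1) := div_pos hW hs
    rw [a3]
    rw [← a2] at h2
    set u := Wd g / sg g (k + 1)
    have b0 : 0 ≤ ((μ.2 % g.D : ℤ) : ℝ) * u := mul_nonneg a0 hu.le
    have b1 : ((μ.2 % g.D : ℤ) : ℝ) * u ≤ g.D * u := mul_le_mul_of_nonneg_right a1 hu.le
    have b2 : (e + 1 + g.D) * u ≤ 9 * e * g.D * u :=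
      mul_le_mul_of_nonneg_right (by nlinarith) hu.le
    rw [abs_le] at h2 ⊢
    constructor <;> nlinarith

theorem div_step (D l k : ℕ) : D * (l / D ^ (k + 1)) + l / D ^ k % D = l / D ^ k := by
  rw [pow_succ, ← Nat.div_div_eq_div_mul]
  exact Nat.div_add_mod _ _

theorem lp_near (h : g.Ok M) (l : ℕ) (z : ℝ × ℝ) : ∀ (k : ℕ) (μ : ℤ × ℤ), k ≤ g.ls →
    Nr g M (rad g k) k (l / g.D ^ k) μ z →
    |z.1 + cs M g.δ l * z.2 - (lp g M k (l / g.D ^ k) μ l).1 * Wd g| ≤ 9 ^ g.ls * Wd g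
  | 0, μ, _, hz => by simpa [lp, sc, rad] using hz.1
  | k + 1, μ, hk, hz => by
    have hD : 0 < g.D := by have := h.hD; have := h.hK; omega
    have h1 := geo2 h k _ (l / g.D ^ k % g.D) μ z hk (Nat.mod_lt _ hD)
      (hz.mono h (by linarith))
    rw [div_step] at h1
    exact lp_near h l z k _ (by omega) h1

theorem geo3 (h : g.Ok M) (Λ s0 : ℝ) (T : Finset Tb) (hΛ : (2 * 9 ^ g.ls + 1) * (g.D : ℝ) ≤ Λ)
    (hT : ∀ τ ∈ T, τ.2.1 < g.D ^ g.ls) :
    NearFar g M Λ s0 T (cl0 g M) fun ν i => Sn g M s0 T i g.ls 0 ν := by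
  intro p _ i
  have key : ∀ l < g.D ^ g.ls,
      |p.1 + cs M g.δ l * p.2 - (lp g M g.ls 0 (cl0 g M p) l).1 * Wd g| ≤ 9 ^ g.ls * Wd g := by
    intro l hl
    have h1 := lp_near h l p g.ls (cl0 g M p) le_rfl
    rw [Nat.div_eq_of_lt hl] at h1
    exact h1 (by simpa [rad] using geo1 h p)
  constructor
  · intro l hl
    simp only [Sn, mem_filter, mem_range] at hl
    obtain ⟨h1, _, j, h2, h3⟩ := hl
    refine ⟨h1, j, h2, ?_⟩
    have h4 := abs_sub_le (p.1 + cs M g.δ l * p.2)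
      ((lp g M g.ls 0 (cl0 g M p) l).1 * Wd g) (j * s0)
    have h5 := mul_le_mul_of_nonneg_right hΛ h.ρ_pos.le
    have h6 := key l h1
    unfold Wd at *
    nlinarith
  · intro τ hτ hi hl
    have h1 := hT τ hτ
    simp only [Sn, mem_filter, mem_range, not_and, not_exists, not_le] at hl
    have h3 := hl h1 (Nat.div_eq_of_lt h1) τ.2.2 (by rw [← hi]; exact hτ)
    have h4 := abs_sub_le ((lp g M g.ls 0 (cl0 g M p) τ.2.1).1 * Wd g)
      (p.1 + cs M g.δ τ.2.1 * p.2) (τ.2.2 * s0)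
    have h6 := key _ h1
    rw [abs_sub_comm] at h6
    unfold Wd at *
    nlinarith

theorem geo4 (s0 : ℝ) (T : Finset Tb) (i k a r : ℕ) (μ : ℤ × ℤ) (hr : r < g.D) :
    arcS g.D k (g.D * a + r) (Sn g M s0 T i (k + 1) a μ) =
    arcS g.D k (g.D * a + r) (Sn g M s0 T i k (g.D * a + r) (ch g M k a (g.D * a + r) μ)) := by
  ext l
  simp only [arcS, Sn, mem_filter, lp]
  refine and_congr_left fun hl => ?_
  have h1 : l / g.D ^ (k + 1) = a := by
    rw [pow_succ, ← Nat.div_div_eq_div_mul, hl, Nat.mul_add_div (by omega), Nat.div_eq_of_lt hr,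
      add_zero]
  rw [hl]
  simp [h1]

open Classical in
theorem geo5 (h : g.Ok M) (e : ℝ) (k a : ℕ) (N : Finset (ℤ × ℤ)) (z : ℝ × ℝ) (he : 0 ≤ e) :
    (#{μ ∈ N | Nr g M e k a μ z} : ℝ) ≤ (2 * e + 1) ^ 2 := by
  have one : ∀ (s : Finset ℤ) (y W : ℝ), 0 < W → (∀ n ∈ s, |y - n * W| ≤ e * W) →
      (#s : ℝ) ≤ 2 * e + 1 := by
    intro s y W hW hs
    refine (card_int_le s (y / W - e) (y / W + e) (by linarith) fun n hn => ?_).trans
      (le_of_eq (by ring))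
    have h1 := abs_le.1 (hs n hn)
    constructor
    · rw [sub_le_iff_le_add, div_le_iff₀ hW]; linarith
    · rw [← sub_le_iff_le_add, le_div_iff₀ hW]; linarith
  set S := {μ ∈ N | Nr g M e k a μ z}
  have h1 := one (S.image Prod.fst) _ _ (Wd_pos h) fun n hn => by
    obtain ⟨μ, hμ, rfl⟩ := mem_image.1 hn
    exact (mem_filter.1 hμ).2.1
  have h2 := one (S.image Prod.snd) _ _ (div_pos (Wd_pos h) (sg_pos h k)) fun n hn => by
    obtain ⟨μ, hμ, rfl⟩ := mem_image.1 hn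
    exact (mem_filter.1 hμ).2.2
  have h3 : #S ≤ #(S.image Prod.fst) * #(S.image Prod.snd) := by
    rw [← card_product]
    exact card_le_card subset_product
  have h4 : (#S : ℝ) ≤ #(S.image Prod.fst) * #(S.image Prod.snd) := by exact_mod_cast h3
  rw [sq]
  exact h4.trans (mul_le_mul h1 h2 (by positivity) (by linarith))

theorem geo6 (h : g.Ok M) (k a : ℕ) (μ : ℤ × ℤ) (hH : 100 * 9 ^ g.ls * (g.D : ℝ) ^ 5 ≤ g.H)
    (hG : Good g M k a μ) :
    |(μ.1 : ℝ)| ≤ g.H ∧ |(μ.2 : ℝ)| ≤ g.H ∧ |μ.1 * Wd g| + (rad g k + 1) * Wd g ≤ M.L / 8 := by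
  obtain ⟨hk, ha, p, hp, h1, h2⟩ := hG
  have hW := Wd_ge h
  have hWR : Wd g ≤ g.R := h.D_mul_ρ_le
  have hR := h.R_pos
  have hRH := h.hH
  have hH9 := h.H_ge
  have hr1 := one_le_rad g k
  have hr : 100 * rad g k ≤ g.H := by
    have a1 : (1 : ℝ) ≤ (g.D : ℝ) ^ 5 := one_le_pow₀ (by linarith [h.D_ge])
    have a2 : (0 : ℝ) ≤ 9 ^ g.ls := by positivity
    nlinarith [rad_le g k]
  have t1 := h.tilt_small hp (sc_le h hk ha)
  have b1 : |μ.1 * Wd g| ≤ 7 * g.R + rad g k * Wd g := by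
    rw [abs_le] at h1 t1 ⊢
    constructor <;> linarith
  refine ⟨?_, ?_, ?_⟩
  · rw [abs_mul, abs_of_pos (Wd_pos h)] at b1
    refine le_of_mul_le_mul_right ?_ (Wd_pos h)
    nlinarith
  · have hu : Wd g ≤ Wd g / sg g k := by
      rw [le_div_iff₀ (sg_pos h k)]
      nlinarith [sg_le_one h hk]
    set u := Wd g / sg g k
    have b2 : |μ.2 * u| ≤ g.R + rad g k * u := by
      obtain ⟨_, _, p3, p4⟩ := hp
      rw [abs_le] at h2 ⊢
      constructor <;> linarith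
    rw [abs_mul, abs_of_pos (by linarith : 0 < u)] at b2
    refine le_of_mul_le_mul_right ?_ (by linarith : 0 < u)
    nlinarith
  · have b3 : rad g k * Wd g ≤ rad g k * g.R := mul_le_mul_of_nonneg_left hWR (by linarith)
    nlinarith [h.l1]

theorem geo : GeoStmt := fun _ _ h =>
  ⟨geo1 h, geo2 h, geo3 h, fun s0 T i k a r μ hr => geo4 s0 T i k a r μ hr, geo5 h, geo6 h⟩

end SA

end Pool.Agent.Lib.MP_108739_an.HA
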