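import Pool.Agent.Lib.MP_108739_an.HA.Defs

/-! Elementary facts on arrays used in case B of the induction step. -/

namespace Pool.Agent.Lib.MP_108739_an.HA.SB

open Finset
open scoped Real

noncomputable section

lemma ex_add (x y : ℝ) : ex (x + y) = ex x * ex y := by
  unfold ex
  rw [← Complex.exp_add]
  congr 1
  push_cast
  ring

lemma norm_ex (x : ℝ) : ‖ex x‖ = 1 := by
  unfold ex
  have : (2 * π * Complex.I * x : ℂ) = ((2 * π * x : ℝ) : ℂ) * Complex.I := by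
    push_cast
    ring
  rw [this, Complex.norm_exp_ofReal_mul_I]

lemma ex_ne (x : ℝ) : ex x ≠ 0 := by
  intro h
  have := norm_ex x
  rw [h] at this
  simp at this

lemma ev_zero (M : Mo) (z : ℝ × ℝ) : ev M 0 z = 0 := by simp [ev]

lemma ev_add (M : Mo) (F G : Arr) (z : ℝ × ℝ) : ev M (F + G) z = ev M F z + ev M G z := by
  have h := Finsupp.sum_add_index' (f := F.coeff) (g := G.coeff)
    (h := fun (k : ℤ × ℤ) (c : ℂ) => c * ex (z.1 * (k.1 / M.L) + z.2 * (k.2 / (M.L * M.Q))))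
    (fun _ => zero_mul _) (fun _ _ _ => add_mul _ _ _)
  exact h

lemma ev_sum {ι : Type} (M : Mo) (s : Finset ι) (F : ι → Arr) (z : ℝ × ℝ) :
    ev M (∑ i ∈ s, F i) z = ∑ i ∈ s, ev M (F i) z := by
  classical
  induction s using Finset.induction_on with
  | empty => simp [ev_zero]
  | insert a s ha ih => rw [sum_insert ha, sum_insert ha, ev_add, ih]

lemma ev_single (M : Mo) (k : ℤ × ℤ) (c : ℂ) (z : ℝ × ℝ) :
    ev M (AddMonoidAlgebra.single k c) z =
      c * ex (z.1 * (k.1 / M.L) + z.2 * (k.2 / (M.L * M.Q))) := by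
  have h := Finsupp.sum_single_index (a := k) (b := c)
    (h := fun (k : ℤ × ℤ) (c : ℂ) => c * ex (z.1 * (k.1 / M.L) + z.2 * (k.2 / (M.L * M.Q))))
    (zero_mul _)
  exact h

lemma ev1_add (P : ℝ) (A B : Arr1) (y : ℝ) : ev1 P (A + B) y = ev1 P A y + ev1 P B y := by
  have h := Finsupp.sum_add_index' (f := A.coeff) (g := B.coeff)
    (h := fun (k : ℤ) (c : ℂ) => c * ex (y * (k / P)))
    (fun _ => zero_mul _) (fun _ _ _ => add_mul _ _ _)
  exact h

lemma ev1_single (P : ℝ) (k : ℤ) (c : ℂ) (y : ℝ) :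
    ev1 P (AddMonoidAlgebra.single k c) y = c * ex (y * (k / P)) := by
  have h := Finsupp.sum_single_index (a := k) (b := c)
    (h := fun (k : ℤ) (c : ℂ) => c * ex (y * (k / P))) (zero_mul _)
  exact h

lemma vert_add (A B : Arr1) : vert (A + B) = vert A + vert B := by
  unfold vert
  rw [AddMonoidAlgebra.coeff_add, Finsupp.mapDomain_add, AddMonoidAlgebra.ofCoeff_add]

lemma vert_single (s : ℤ) (c : ℂ) :
    vert (AddMonoidAlgebra.single s c) = AddMonoidAlgebra.single (0, s) c := by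
  unfold vert
  rw [AddMonoidAlgebra.coeff_single, Finsupp.mapDomain_single, AddMonoidAlgebra.ofCoeff_single]

lemma ev_vert_mul (M : Mo) (A : Arr1) (G : Arr) (z : ℝ × ℝ) :
    ev M (vert A * G) z = ev1 (M.L * M.Q) A z.2 * ev M G z := by
  induction A using AddMonoidAlgebra.induction_linear with
  | zero => simp [vert, ev, ev1]
  | add A B hA hB => rw [vert_add, add_mul, ev_add, hA, hB, ev1_add, add_mul]
  | single s c =>
    induction G using AddMonoidAlgebra.induction_linear with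
    | zero => simp [ev_zero]
    | add F G hF hG => rw [mul_add, ev_add, hF, hG, ev_add, mul_add]
    | single k d =>
      rw [vert_single, AddMonoidAlgebra.single_mul_single, ev_single, ev_single, ev1_single]
      have : z.1 * (((((0 : ℤ), s) + k).1 : ℤ) / M.L) +
          z.2 * (((((0 : ℤ), s) + k).2 : ℤ) / (M.L * M.Q)) =
          z.2 * (s / (M.L * M.Q)) + (z.1 * (k.1 / M.L) + z.2 * (k.2 / (M.L * M.Q))) := by
        simp only [Prod.fst_add, Prod.snd_add]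
        push_cast
        ring
      rw [this, ex_add]
      ring

lemma md_coeff (M : Mo) (c : ℝ × ℝ) (F : Arr) (k : ℤ × ℤ) :
    (md M c F).coeff k = F.coeff k * ex (c.1 * (k.1 / M.L) + c.2 * (k.2 / (M.L * M.Q))) := rfl

lemma md_support (M : Mo) (c : ℝ × ℝ) (F : Arr) : (md M c F).coeff.support = F.coeff.support := by
  ext k
  simp only [Finsupp.mem_support_iff, md_coeff, ne_eq, mul_eq_zero, ex_ne, or_false]

lemma ev_md (M : Mo) (c : ℝ × ℝ) (F : Arr) (z : ℝ × ℝ) : ev M (md M c F) z = ev M F (c + z) := by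
  unfold ev
  rw [md_support]
  refine sum_congr rfl fun k _ => ?_
  rw [md_coeff, mul_assoc, ← ex_add]
  congr 2
  simp only [Prod.fst_add, Prod.snd_add]
  ring

lemma nrm_md (M : Mo) (c : ℝ × ℝ) (F : Arr) : nrm (md M c F) = nrm F := by
  unfold nrm
  rw [md_support]
  refine sum_congr rfl fun k _ => ?_
  rw [md_coeff, norm_mul, norm_ex, mul_one]

lemma supp_md {M : Mo} (c : ℝ × ℝ) {F : Arr} {a b w : ℝ} (h : Supp M F a b w) :
    Supp M (md M c F) a b w := by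
  intro k hk
  rw [md_support] at hk
  exact h k hk

lemma supp_mono {M : Mo} {F : Arr} {a b w a' b' w' : ℝ} (h : Supp M F a b w) (ha : a' ≤ a)
    (hb : b ≤ b') (hw : w ≤ w') : Supp M F a' b' w' := fun k hk =>
  ⟨ha.trans (h k hk).1, (h k hk).2.1.trans hb, (h k hk).2.2.trans hw⟩

lemma supp_zero (M : Mo) (a b w : ℝ) : Supp M 0 a b w := by
  intro k hk
  simp at hk

lemma exists_of_mem_sum {ι : Type} (s : Finset ι) (F : ι → Arr) (k : ℤ × ℤ)
    (hk : k ∈ (∑ i ∈ s, F i).coeff.support) : ∃ i ∈ s, k ∈ (F i).coeff.support := by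
  rw [Finsupp.mem_support_iff, AddMonoidAlgebra.coeff_sum, Finsupp.finsetSum_apply] at hk
  obtain ⟨i, hi, h⟩ := exists_ne_zero_of_sum_ne_zero hk
  exact ⟨i, hi, Finsupp.mem_support_iff.2 h⟩

lemma supp_sum {ι : Type} {M : Mo} (s : Finset ι) (F : ι → Arr) {a b w : ℝ}
    (h : ∀ i ∈ s, Supp M (F i) a b w) : Supp M (∑ i ∈ s, F i) a b w := by
  intro k hk
  obtain ⟨i, hi, hk'⟩ := exists_of_mem_sum s F k hk
  exact h i hi k hk'

lemma vert_coeff_ne {A : Arr1} {k : ℤ × ℤ} (h : (vert A).coeff k ≠ 0) :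
    k.1 = 0 ∧ k.2 ∈ A.coeff.support := by
  classical
  have h1 : k ∈ (A.coeff.mapDomain fun s => ((0 : ℤ), s)).support := Finsupp.mem_support_iff.2 h
  have h2 := Finsupp.mapDomain_support h1
  obtain ⟨s, hs, rfl⟩ := mem_image.1 h2
  exact ⟨rfl, hs⟩

lemma coeff_mul' (V G : Arr) (k : ℤ × ℤ) :
    (V * G).coeff k = ∑ k' ∈ G.coeff.support, V.coeff (k - k') * G.coeff k' := by
  rw [AddMonoidAlgebra.coeff_mul_apply_right]
  simp only [Finsupp.sum, sub_eq_add_neg]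

lemma supp_vert_mul {M : Mo} {A : Arr1} {G : Arr} {a b w u : ℝ} (hA : Spec1 (M.L * M.Q) u A)
    (hG : Supp M G a b w) : Supp M (vert A * G) a b (w + u) := by
  intro k hk
  rw [Finsupp.mem_support_iff, coeff_mul'] at hk
  obtain ⟨k', hk', h⟩ := exists_ne_zero_of_sum_ne_zero hk
  obtain ⟨h1, h2⟩ := vert_coeff_ne (left_ne_zero_of_mul h)
  have e1 : k.1 = k'.1 := by
    simp only [Prod.fst_sub] at h1
    omega
  obtain ⟨g1, g2, g3⟩ := hG k' hk'
  have g4 := hA _ h2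
  rw [e1]
  refine ⟨g1, g2, ?_⟩
  have : (k.2 : ℝ) / (M.L * M.Q) - M.φ (k'.1 / M.L) =
      (k'.2 / (M.L * M.Q) - M.φ (k'.1 / M.L)) + ((k - k').2 : ℤ) / (M.L * M.Q) := by
    simp only [Prod.snd_sub]
    push_cast
    ring
  rw [this]
  exact (abs_add_le _ _).trans (add_le_add g3 g4)

lemma nrm_nonneg (F : Arr) : 0 ≤ nrm F := sum_nonneg fun _ _ => sq_nonneg _

lemma sum_le_nrm (F : Arr) (s : Finset (ℤ × ℤ)) : ∑ k ∈ s, ‖F.coeff k‖ ^ 2 ≤ nrm F := by
  classical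
  rw [← sum_filter_ne_zero]
  refine sum_le_sum_of_subset_of_nonneg (fun k hk => ?_) fun _ _ _ => sq_nonneg _
  rw [Finsupp.mem_support_iff]
  intro h
  have := (mem_filter.1 hk).2
  rw [h] at this
  simp at this

lemma norm_sum_sq {ι : Type} (s : Finset ι) (a : ι → ℂ) (p : ι → Prop) [DecidablePred p] (m : ℝ)
    (h0 : ∀ i ∈ s, a i ≠ 0 → p i) (hm : (#{i ∈ s | p i} : ℝ) ≤ m) :
    ‖∑ i ∈ s, a i‖ ^ 2 ≤ m * ∑ i ∈ s, ‖a i‖ ^ 2 := by
  rw [← sum_filter_of_ne h0]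
  have h1 := norm_sum_le {i ∈ s | p i} a
  have h2 := sq_sum_le_card_mul_sum_sq (s := {i ∈ s | p i}) (f := fun i => ‖a i‖)
  have h3 : ∑ i ∈ {i ∈ s | p i}, ‖a i‖ ^ 2 ≤ ∑ i ∈ s, ‖a i‖ ^ 2 :=
    sum_le_sum_of_subset_of_nonneg (filter_subset _ _) fun _ _ _ => sq_nonneg _
  have h4 : 0 ≤ ∑ i ∈ {i ∈ s | p i}, ‖a i‖ ^ 2 := sum_nonneg fun _ _ => sq_nonneg _
  calc _ ≤ (∑ i ∈ {i ∈ s | p i}, ‖a i‖) ^ 2 := by gcongr
    _ ≤ _ := h2
    _ ≤ _ := mul_le_mul hm h3 h4 ((Nat.cast_nonneg _).trans hm)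

open Classical in
lemma nrm_sum_le {ι : Type} (s : Finset ι) (F : ι → Arr) (ov : ℝ) (h0 : 0 ≤ ov)
    (h : ∀ k, (#{i ∈ s | k ∈ (F i).coeff.support} : ℝ) ≤ ov) :
    nrm (∑ i ∈ s, F i) ≤ ov * ∑ i ∈ s, nrm (F i) := by
  calc nrm (∑ i ∈ s, F i)
      ≤ ∑ k ∈ (∑ i ∈ s, F i).coeff.support, ov * ∑ i ∈ s, ‖(F i).coeff k‖ ^ 2 := by
        refine sum_le_sum fun k _ => ?_
        rw [AddMonoidAlgebra.coeff_sum, Finsupp.finsetSum_apply]
        exact norm_sum_sq s _ _ ov (fun i _ hi => Finsupp.mem_support_iff.2 hi) (h k)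
    _ = ov * ∑ i ∈ s, ∑ k ∈ (∑ i ∈ s, F i).coeff.support, ‖(F i).coeff k‖ ^ 2 := by
        rw [← mul_sum, sum_comm]
    _ ≤ _ := mul_le_mul_of_nonneg_left (sum_le_sum fun i _ => sum_le_nrm _ _) h0

lemma nrm_vert (A : Arr1) : nrm (vert A) = nrm1 A := by
  have hinj : Function.Injective fun s : ℤ => ((0 : ℤ), s) := fun a b h => (Prod.ext_iff.1 h).2
  have h := Finsupp.sum_mapDomain_index_inj (f := fun s : ℤ => ((0 : ℤ), s)) (s := A.coeff)
    (h := fun (_ : ℤ × ℤ) (c : ℂ) => ‖c‖ ^ 2) hinj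
  exact h

lemma nrm_vert_mul (A : Arr1) (G : Arr) (m : ℝ) (h0 : 0 ≤ m)
    (h : ∀ a : ℤ, (#{k ∈ G.coeff.support | k.1 = a} : ℝ) ≤ m) :
    nrm (vert A * G) ≤ m * (nrm1 A * nrm G) := by
  calc nrm (vert A * G)
      ≤ ∑ k ∈ (vert A * G).coeff.support, m * ∑ k' ∈ G.coeff.support,
          ‖(vert A).coeff (k - k') * G.coeff k'‖ ^ 2 := by
        refine sum_le_sum fun k _ => ?_
        rw [coeff_mul']
        refine norm_sum_sq _ _ (fun k' => k'.1 = k.1) m (fun k' _ hi => ?_) (h k.1)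
        have h1 := (vert_coeff_ne (left_ne_zero_of_mul hi)).1
        simp only [Prod.fst_sub] at h1
        omega
    _ = m * ∑ k' ∈ G.coeff.support, (∑ k ∈ (vert A * G).coeff.support,
          ‖(vert A).coeff (k - k')‖ ^ 2) * ‖G.coeff k'‖ ^ 2 := by
        rw [← mul_sum, sum_comm]
        congr 1
        refine sum_congr rfl fun k' _ => ?_
        rw [sum_mul]
        refine sum_congr rfl fun k _ => ?_
        rw [norm_mul, mul_pow]
    _ ≤ m * ∑ k' ∈ G.coeff.support, nrm1 A * ‖G.coeff k'‖ ^ 2 := by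
        refine mul_le_mul_of_nonneg_left (sum_le_sum fun k' _ => ?_) h0
        refine mul_le_mul_of_nonneg_right ?_ (sq_nonneg _)
        rw [← nrm_vert]
        have := sum_le_nrm (vert A) ((vert A * G).coeff.support.image fun k => k - k')
        rwa [sum_image fun a _ b _ hab => sub_left_injective hab] at this
    _ = _ := by rw [← mul_sum]; rfl

/-- Integers `j` with `|j * s - y| ≤ r`. -/
lemma card_int_le (S : Finset ℤ) (s y r : ℝ) (hs : 0 < s) (hr : 0 ≤ r)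
    (h : ∀ j ∈ S, |j * s - y| ≤ r) : (#S : ℝ) ≤ 2 * r / s + 1 := by
  have hsub : S ⊆ Icc ⌈(y - r) / s⌉ ⌊(y + r) / s⌋ := by
    intro j hj
    obtain ⟨h1, h2⟩ := abs_le.1 (h j hj)
    rw [mem_Icc, Int.ceil_le, Int.le_floor, div_le_iff₀ hs, le_div_iff₀ hs]
    constructor <;> linarith
  have h1 : (#S : ℝ) ≤ #(Icc ⌈(y - r) / s⌉ ⌊(y + r) / s⌋) := by exact_mod_cast card_le_card hsub
  refine h1.trans ?_
  rw [Int.card_Icc]
  have h2 := Int.le_ceil ((y - r) / s)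
  have h3 := Int.floor_le ((y + r) / s)
  have h4 : (y + r) / s - (y - r) / s = 2 * r / s := by ring
  have h5 : 0 ≤ 2 * r / s := by positivity
  rcases le_total 0 (⌊(y + r) / s⌋ + 1 - ⌈(y - r) / s⌉) with h6 | h6
  · have : (((⌊(y + r) / s⌋ + 1 - ⌈(y - r) / s⌉).toNat : ℤ) : ℝ) =
        ((⌊(y + r) / s⌋ + 1 - ⌈(y - r) / s⌉ : ℤ) : ℝ) := by rw [Int.toNat_of_nonneg h6]
    push_cast at this
    rw [this]
    linarith
  · rw [Int.toNat_eq_zero.2 h6]
    simp only [Nat.cast_zero]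
    linarith

lemma col_card {M : Mo} {G : Arr} {a b w : ℝ} (hw : 0 ≤ w) (hG : Supp M G a b w) (c : ℤ) :
    (#{k ∈ G.coeff.support | k.1 = c} : ℝ) ≤ 2 * w * (M.L * M.Q) + 1 := by
  have hP : 0 < M.L * M.Q := mul_pos M.hL M.hQ
  have h1 : #{k ∈ G.coeff.support | k.1 = c} =
      #({k ∈ G.coeff.support | k.1 = c}.image fun k => k.2) := by
    refine (card_image_of_injOn fun k hk k' hk' h => ?_).symm
    have e1 := (mem_filter.1 hk).2
    have e2 := (mem_filter.1 hk').2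
    exact Prod.ext (e1.trans e2.symm) h
  rw [h1]
  have := card_int_le ({k ∈ G.coeff.support | k.1 = c}.image fun k => k.2) (1 / (M.L * M.Q))
    (M.φ (c / M.L)) w (by positivity) hw (by
      intro j hj
      obtain ⟨k, hk, rfl⟩ := mem_image.1 hj
      obtain ⟨hk1, hk2⟩ := mem_filter.1 hk
      have := (hG k hk1).2.2
      rw [hk2] at this
      rwa [mul_one_div])
  rwa [div_div_eq_mul_div, div_one] at this

lemma psi_abs {φ ψ : ℝ → ℝ} (h : Curve φ ψ) (x : ℝ) : |ψ x| ≤ 1 + 2 * |x| := by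
  obtain ⟨z1, z2⟩ := abs_le.1 h.z2
  rcases le_total 0 x with hx | hx
  · have a := h.lo 0 x hx
    have b := h.hi 0 x hx
    rw [abs_of_nonneg hx, abs_le]
    constructor <;> linarith
  · have a := h.lo x 0 hx
    have b := h.hi x 0 hx
    rw [abs_of_nonpos hx, abs_le]
    constructor <;> linarith

lemma cs_abs (M : Mo) (s : ℝ) (l : ℤ) (hL : 2 ≤ M.L) (hQ : 1 ≤ M.Q)
    (h1 : -(1 / 2) ≤ (l - 1 / 2) * s) (h2 : (l - 1 / 2) * s ≤ 1) : |cs M s l| ≤ 4 := by
  have hL0 := M.hL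
  have hQ0 := M.hQ
  set x : ℝ := ⌊M.L * ((l - 1 / 2) * s)⌋ / M.L with hx
  have hx1 : |x| ≤ 1 := by
    have a := Int.floor_le (M.L * ((l - 1 / 2) * s))
    have b := Int.lt_floor_add_one (M.L * ((l - 1 / 2) * s))
    rw [abs_le, hx, le_div_iff₀ hL0, div_le_iff₀ hL0]
    constructor <;> nlinarith
  have h3 := psi_abs M.cv x
  have h4 := abs_sub_round (M.Q * M.ψ x)
  have h5 : |M.Q * M.ψ x| ≤ M.Q * 3 := by
    rw [abs_mul, abs_of_pos hQ0]
    exact mul_le_mul_of_nonneg_left (by linarith) hQ0.le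
  have h6 : cs M s l = round (M.Q * M.ψ x) / M.Q := rfl
  obtain ⟨a1, a2⟩ := abs_le.1 h4
  obtain ⟨b1, b2⟩ := abs_le.1 h5
  rw [h6, abs_le, le_div_iff₀ hQ0, div_le_iff₀ hQ0]
  constructor <;> linarith

end

end Pool.Agent.Lib.MP_108739_an.HA.SB
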