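import Pool.Agent.Lib.MP_108739_an.HA.Geo

/-! The light / heavy alternative: one pigeonhole over pairs (point, arc). -/

namespace Pool.Agent.Lib.MP_108739_an.HA

open Finset

noncomputable section

namespace Tr

open Classical in
theorem pigeon {α κ : Type} (P : Finset α) (C : Finset κ) (hC : C.Nonempty) (G : α → κ → Prop)
    (h : ∀ a ∈ P, ∃ k ∈ C, G a k) : ∃ k ∈ C, #P ≤ #C * #{a ∈ P | G a k} := by
  obtain ⟨k, hk, hmax⟩ := exists_max_image C (fun k => #{a ∈ P | G a k}) hC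
  refine ⟨k, hk, ?_⟩
  calc #P ≤ #(C.biUnion fun k => {a ∈ P | G a k}) := card_le_card fun a ha => by
        obtain ⟨k, k1, k2⟩ := h a ha
        exact mem_biUnion.2 ⟨k, k1, mem_filter.2 ⟨ha, k2⟩⟩
    _ ≤ ∑ k ∈ C, #{a ∈ P | G a k} := card_biUnion_le
    _ ≤ #C * #{a ∈ P | G a k} := by simpa using sum_le_card_nsmul C _ _ hmax

theorem dyad {N Y : ℕ} (h1 : 1 ≤ N) (h2 : N ≤ 2 ^ Y) : ∃ k ≤ Y, 2 ^ k ≤ N ∧ N ≤ 2 * 2 ^ k := by
  have a1 : 2 ^ Nat.log 2 N ≤ N := Nat.pow_log_le_self 2 (by omega)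
  have a2 : N < 2 ^ (Nat.log 2 N + 1) := Nat.lt_pow_succ_log_self (by norm_num) N
  refine ⟨Nat.log 2 N, ?_, a1, by rw [pow_succ] at a2; omega⟩
  exact (pow_le_pow_iff_right₀ (by norm_num : 1 < 2)).1 (a1.trans h2)

open Classical in
theorem ampl {α : Type} (B : Finset α) (a : α → ℝ) (lam μ : ℝ) (m0 : ℕ) (hl : 0 < lam)
    (hμ : μ ≤ lam) (h1 : μ ≤ ∑ x ∈ B, a x) (h2 : #B * (lam / 2 ^ m0) ≤ μ / 2) :
    ∃ m ≤ m0, μ ≤ 4 * (m0 + 1) * (#{x ∈ B | lam / 2 ^ m ≤ a x} * (lam / 2 ^ m)) := by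
  by_contra hn
  push Not at hn
  have hm : (0 : ℝ) ≤ m0 := by positivity
  have h0 : ∀ x ∈ B, a x < lam := by
    intro x hx
    by_contra hc
    have k := hn 0 (Nat.zero_le _)
    have k1 : 1 ≤ #{x ∈ B | lam / 2 ^ 0 ≤ a x} :=
      card_pos.2 ⟨x, mem_filter.2 ⟨hx, by simpa using hc⟩⟩
    have k2 : (1 : ℝ) ≤ #{x ∈ B | lam / 2 ^ 0 ≤ a x} := by exact_mod_cast k1
    rw [pow_zero, div_one] at k k2
    have k3 : lam ≤ #{x ∈ B | lam ≤ a x} * lam := le_mul_of_one_le_left hl.le k2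
    nlinarith
  have hp : ∀ x ∈ B, a x ≤ lam / 2 ^ m0 +
      ∑ m ∈ range (m0 + 1), if lam / 2 ^ m ≤ a x then 2 * (lam / 2 ^ m) else 0 := by
    intro x hx
    have hs : ∀ m ∈ range (m0 + 1),
        (0 : ℝ) ≤ if lam / 2 ^ m ≤ a x then 2 * (lam / 2 ^ m) else 0 := fun m _ => by
      split_ifs <;> positivity
    by_cases hc : lam / 2 ^ m0 ≤ a x
    · have hex : ∃ m, lam / 2 ^ m ≤ a x := ⟨m0, hc⟩
      have k1 := Nat.find_spec hex
      have k2 : Nat.find hex ≤ m0 := Nat.find_min' hex hc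
      have k3 := single_le_sum hs (mem_range.2 (Nat.lt_succ_of_le k2))
      rw [if_pos k1] at k3
      have k4 : a x ≤ 2 * (lam / 2 ^ Nat.find hex) := by
        rcases e : Nat.find hex with _ | n
        · rw [e] at k1
          have := h0 x hx
          rw [pow_zero, div_one] at k1
          linarith
        · have := not_le.1 (Nat.find_min hex (m := n) (by omega))
          rw [pow_succ]
          calc a x ≤ lam / 2 ^ n := this.le
            _ = 2 * (lam / (2 ^ n * 2)) := by field_simp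
      have : 0 < lam / 2 ^ m0 := by positivity
      linarith
    · linarith [sum_nonneg hs, not_le.1 hc]
  have h3 := sum_le_sum hp
  rw [sum_add_distrib, sum_const, nsmul_eq_mul, sum_comm] at h3
  have h4 : ∑ m ∈ range (m0 + 1), ∑ x ∈ B, (if lam / 2 ^ m ≤ a x then 2 * (lam / 2 ^ m) else 0) <
      ∑ _m ∈ range (m0 + 1), μ / (2 * (m0 + 1)) := by
    refine sum_lt_sum_of_nonempty nonempty_range_add_one fun m hm' => ?_
    rw [← sum_filter, sum_const, nsmul_eq_mul, lt_div_iff₀ (by positivity)]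
    have := hn m (Nat.lt_succ_iff.1 (mem_range.1 hm'))
    linarith
  rw [sum_const, card_range, nsmul_eq_mul] at h4
  have h5 : ((m0 + 1 : ℕ) : ℝ) * (μ / (2 * (m0 + 1))) = μ / 2 := by push_cast; field_simp
  linarith

theorem sum_gl (M : Mo) (T : Finset Tb) (pk : Tb → Arr) (i : ℕ) (p : ℝ × ℝ) (U : Finset ℕ) :
    ∑ l ∈ U, ev M (gl T pk i l) p = ∑ τ ∈ T with τ.1 = i ∧ τ.2.1 ∈ U, ev M (pk τ) p := by
  rw [← sum_fiberwise_of_maps_to (s := {τ ∈ T | τ.1 = i ∧ τ.2.1 ∈ U}) (t := U)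
    (g := fun τ => τ.2.1) fun τ hτ => (mem_filter.1 hτ).2.2]
  refine sum_congr rfl fun l hl => ?_
  rw [gl, ev_sum]
  refine sum_congr ?_ fun _ _ => rfl
  ext τ
  simp only [mem_filter]
  constructor
  · rintro ⟨a, b, c⟩; exact ⟨⟨a, b, c ▸ hl⟩, c⟩
  · rintro ⟨⟨a, b, _⟩, c⟩; exact ⟨a, b, c⟩

theorem diff_le {T U V : Finset Tb} (v : Tb → ℂ) {ε : ℝ} (hε : 0 ≤ ε) (hU : U ⊆ T) (hV : V ⊆ U)
    (h : ∀ τ ∈ U, τ ∉ V → ‖v τ‖ ≤ ε) : ‖∑ τ ∈ U, v τ - ∑ τ ∈ V, v τ‖ ≤ #T * ε := by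
  rw [← sum_sdiff hV, add_sub_cancel_right]
  calc ‖∑ τ ∈ U \ V, v τ‖ ≤ ∑ τ ∈ U \ V, ‖v τ‖ := norm_sum_le _ _
    _ ≤ #(U \ V) • ε := sum_le_card_nsmul _ _ _ fun τ hτ =>
        h τ (mem_sdiff.1 hτ).1 (mem_sdiff.1 hτ).2
    _ ≤ #T * ε := by
        rw [nsmul_eq_mul]
        gcongr
        exact sdiff_subset.trans hU

def LA (g : Geo) (M : Mo) (Pi : ℕ) (lam th ts : ℝ) (T : Finset Tb) (pk : Tb → Arr)
    (Lt : Finset ℕ) (n : ℕ) (q : (ℝ × ℝ) × ℕ) : Prop :=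
  n ≤ #Lt ∧ #Lt ≤ 2 * n ∧
    (∀ h ≤ g.ls, ∀ a, (#(arcS g.D h a Lt) : ℝ) * th ≤ 4 * n * ((g.D : ℝ) ^ h) ^ ts) ∧
    lam ≤ Pi * ‖∑ l ∈ Lt, ev M (gl T pk q.2 l) q.1‖

def HV (g : Geo) (M : Mo) (Pi : ℕ) (lam th ts : ℝ) (T : Finset Tb) (pk : Tb → Arr)
    (h n : ℕ) (amp : ℝ) (q : (ℝ × ℝ) × ℕ) (B : Finset ℕ) : Prop :=
  h < g.ls ∧ (∀ a ∈ B, amp ≤ ‖ev M (garc T pk g.D q.2 h a) q.1‖) ∧ n ≤ #B ∧ #B ≤ 2 * n ∧
    n * ((g.D : ℝ) ^ h) ^ ts ≤ th ∧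
    (∀ h' a', h < h' → h' ≤ g.ls →
      (#{a ∈ B | a / g.D ^ (h' - h) = a'} : ℝ) * ((g.D : ℝ) ^ h) ^ ts ≤ ((g.D : ℝ) ^ h') ^ ts) ∧
    lam ≤ Pi * n * amp

theorem point {g : Geo} {M : Mo} {Y jm : ℕ} {lam th ts γ0 ε : ℝ}
    {Sel : ℕ → ℕ → ℕ → Finset ℕ → Finset ℕ} {T : Finset Tb} {pk : Tb → Arr} {S : Finset ℕ}
    {q : (ℝ × ℝ) × ℕ} (ok : g.Ok M) (hY : g.H ≤ 2 ^ Y) (hYH : (Y : ℝ) ≤ g.H) (hjm : jm ≤ 3 * Y)
    (hl : 0 < lam) (hst : StageAt g.D g.ls jm ts th γ0 Sel) (hγ : (g.D : ℝ) ^ g.ls ≤ γ0 * th)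
    (hε : 0 ≤ ε) (hT : #T * ε ≤ lam / g.H ^ 21) (hS : ∀ l ∈ S, l < g.D ^ g.ls)
    (hfar : ∀ τ ∈ T, τ.1 = q.2 → τ.2.1 ∉ S → ‖ev M (pk τ) q.1‖ ≤ ε)
    (hbig : lam / (80 * Y) ≤ ‖∑ l ∈ range (g.D ^ g.ls), ev M (gl T pk q.2 l) q.1‖) :
    (∃ j ≤ 3 * Y, ∃ k ≤ Y, LA g M ((100 * Y) ^ 6) lam th ts T pk (Sel j g.ls 0 S) (2 ^ k) q) ∨
    ∃ h ≤ Y, ∃ m ≤ 5 * Y, ∃ k ≤ Y, ∃ B,
      HV g M ((100 * Y) ^ 6) lam th ts T pk h (2 ^ k) (lam / 2 ^ m) q B := by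
  classical
  have hH := ok.H_ge
  have hD := ok.D_ge
  have hpow : g.D ^ g.ls ≤ 2 ^ Y := by exact_mod_cast ok.pow_le_H.trans hY
  have hY1 : 1 ≤ Y := by
    by_contra hn
    have : Y = 0 := by omega
    rw [this, pow_zero] at hY
    linarith
  have hy : (1 : ℝ) ≤ Y := by exact_mod_cast hY1
  have hls : g.ls ≤ Y := by
    have h2 : 2 ≤ g.D := by have := ok.hD; have := ok.hK; omega
    exact (pow_le_pow_iff_right₀ (by norm_num : 1 < 2)).1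
      ((Nat.pow_le_pow_left h2 _).trans hpow)
  have hSr : S ⊆ range (g.D ^ g.ls) := fun l h => mem_range.2 (hS l h)
  have hSc : #S ≤ g.D ^ g.ls := by simpa using card_le_card hSr
  obtain ⟨hier, hst⟩ := hst
  obtain ⟨j, hj, Hv, st, c1, c2, c3, c4, c5⟩ :=
    hst S hS (le_trans (by exact_mod_cast hSc) hγ)
  set G : ℕ → ℂ := fun l => ev M (gl T pk q.2 l) q.1 with hG
  set a : ℕ × ℕ → ℝ := fun τ => ‖ev M (garc T pk g.D q.2 τ.1 τ.2) q.1‖ with ha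
  set e0 := lam / g.H ^ 21 with he0
  have he : 0 ≤ e0 := by positivity
  have d1 : ‖∑ l ∈ range (g.D ^ g.ls), G l - ∑ l ∈ S, G l‖ ≤ e0 := by
    simp only [hG, sum_gl]
    refine (diff_le _ hε (filter_subset _ _) (fun τ h => ?_) fun τ h h' => ?_).trans hT
    · rw [mem_filter] at h ⊢
      exact ⟨h.1, h.2.1, hSr h.2.2⟩
    · rw [mem_filter] at h h'
      exact hfar τ h.1 h.2.1 fun k => h' ⟨h.1, h.2.1, k⟩
  have d2 : ∀ τ : ℕ × ℕ, ‖∑ l ∈ arcS g.D τ.1 τ.2 S, G l‖ ≤ a τ + e0 := by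
    intro τ
    have k : ‖ev M (garc T pk g.D q.2 τ.1 τ.2) q.1 - ∑ l ∈ arcS g.D τ.1 τ.2 S, G l‖ ≤ e0 := by
      simp only [hG, sum_gl, garc, ev_sum]
      refine (diff_le _ hε (filter_subset _ _) (fun σ h => ?_) fun σ h h' => ?_).trans hT
      · rw [mem_filter] at h ⊢
        exact ⟨h.1, h.2.1, (mem_filter.1 h.2.2).2⟩
      · rw [mem_filter] at h h'
        exact hfar σ h.1 h.2.1 fun k => h' ⟨h.1, h.2.1, mem_filter.2 ⟨k, h.2.2⟩⟩
    have k2 := norm_sub_norm_le (∑ l ∈ arcS g.D τ.1 τ.2 S, G l)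
      (ev M (garc T pk g.D q.2 τ.1 τ.2) q.1)
    rw [norm_sub_rev] at k2
    simp only [ha]
    linarith
  have hHv : (#Hv : ℝ) ≤ g.H ^ 2 := by
    have k : Hv ⊆ range g.ls ×ˢ range (g.D ^ g.ls) := fun τ h =>
      mem_product.2 ⟨mem_range.2 (c2 τ h).1, mem_range.2 (c2 τ h).2.1⟩
    have k1 := card_le_card k
    rw [card_product, card_range, card_range] at k1
    have k2 : (#Hv : ℝ) ≤ g.ls * (g.D : ℝ) ^ g.ls := by exact_mod_cast k1
    have k3 : (g.ls : ℝ) ≤ g.H := le_trans (by exact_mod_cast hls) hYH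
    calc (#Hv : ℝ) ≤ g.ls * (g.D : ℝ) ^ g.ls := k2
      _ ≤ g.H * g.H := mul_le_mul k3 ok.pow_le_H ok.pow_pos.le (by linarith)
      _ = g.H ^ 2 := by ring
  have herr : (1 + g.H ^ 2) * e0 ≤ lam / (160 * Y) := by
    rw [he0, ← mul_div_assoc, div_le_div_iff₀ (by positivity) (by positivity)]
    have k1 : g.H ^ 4 ≤ g.H ^ 21 := pow_le_pow_right₀ (by linarith) (by norm_num)
    have k2 : (1 + g.H ^ 2) * (160 * Y) ≤ g.H ^ 4 := by
      calc (1 + g.H ^ 2) * (160 * Y) ≤ (2 * g.H ^ 2) * (160 * g.H) := by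
            gcongr; nlinarith
        _ = 320 * g.H ^ 3 := by ring
        _ ≤ g.H * g.H ^ 3 := by gcongr; linarith
        _ = g.H ^ 4 := by ring
    calc (1 + g.H ^ 2) * lam * (160 * Y) = lam * ((1 + g.H ^ 2) * (160 * Y)) := by ring
      _ ≤ lam * g.H ^ 21 := by gcongr; exact k2.trans k1
  have d3 : lam / (160 * Y) ≤ ‖∑ l ∈ Sel j g.ls 0 S, G l‖ + ∑ τ ∈ Hv, a τ := by
    have k1 := norm_sub_norm_le (∑ l ∈ range (g.D ^ g.ls), G l) (∑ l ∈ S, G l)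
    have k2 : ‖∑ l ∈ S, G l‖ ≤ ‖∑ l ∈ Sel j g.ls 0 S, G l‖ + ∑ τ ∈ Hv, (a τ + e0) := by
      rw [c3 G]
      refine (norm_add_le _ _).trans ?_
      gcongr
      exact (norm_sum_le _ _).trans (sum_le_sum fun τ _ => d2 τ)
    rw [sum_add_distrib, sum_const, nsmul_eq_mul] at k2
    have k3 : (#Hv : ℝ) * e0 ≤ g.H ^ 2 * e0 := mul_le_mul_of_nonneg_right hHv he
    have k4 : lam / (80 * Y) = 2 * (lam / (160 * Y)) := by field_simp; norm_num
    linarith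
  have hhalf : lam / (160 * Y) = 2 * (lam / (320 * Y)) := by field_simp; norm_num
  have hpos : 0 < lam / (320 * Y) := by positivity
  by_cases hc : lam / (320 * Y) ≤ ‖∑ l ∈ Sel j g.ls 0 S, G l‖
  · left
    have hne : 1 ≤ #(Sel j g.ls 0 S) := by
      refine card_pos.2 (nonempty_of_ne_empty fun e => ?_)
      rw [e, sum_empty, norm_zero] at hc
      linarith
    have hsub : Sel j g.ls 0 S ⊆ S := ((hier j).subset _ _ _).trans (filter_subset _ _)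
    obtain ⟨k, k1, k2, k3⟩ := dyad hne (((card_le_card hsub).trans hSc).trans hpow)
    refine ⟨j, hj.trans hjm, k, k1, k2, k3, fun h hh b => (c1 h hh b).trans ?_, ?_⟩
    · have k4 : (#(Sel j g.ls 0 S) : ℝ) ≤ 2 * ((2 ^ k : ℕ) : ℝ) := by exact_mod_cast k3
      have k5 : 0 ≤ ((g.D : ℝ) ^ h) ^ ts := by positivity
      nlinarith
    · rw [div_le_iff₀ (by positivity)] at hc
      refine hc.trans ?_
      rw [mul_comm]
      gcongr
      push_cast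
      calc (320 * Y : ℝ) ≤ (100 * Y) ^ 2 := by nlinarith
        _ ≤ (100 * Y) ^ 6 := pow_le_pow_right₀ (by linarith) (by norm_num)
  right
  have d4 : lam / (320 * Y) ≤ ∑ τ ∈ Hv, a τ := by linarith [not_le.1 hc]
  obtain ⟨⟨h, j'⟩, hy', d5⟩ := exists_le_sum_fiber_of_maps_to_of_nsmul_le_sum
    (s := Hv) (t := range Y ×ˢ range (3 * Y)) (f := fun τ => (τ.1, st τ)) (w := a)
    (b := lam / (960 * Y ^ 3))
    (fun τ hτ => mem_product.2 ⟨mem_range.2 (lt_of_lt_of_le (c2 τ hτ).1 hls),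
      mem_range.2 (lt_of_lt_of_le (c2 τ hτ).2.2 hjm)⟩)
    ⟨(0, 0), mem_product.2 ⟨mem_range.2 (by omega), mem_range.2 (by omega)⟩⟩
    (by
      refine le_trans (le_of_eq ?_) d4
      rw [card_product, card_range, card_range, nsmul_eq_mul]
      push_cast
      field_simp
      norm_num)
  set B0 := {τ ∈ Hv | (τ.1, st τ) = (h, j')} with hB0
  have mB0 : ∀ τ ∈ B0, τ ∈ Hv ∧ τ.1 = h ∧ st τ = j' := fun τ hτ => by
    obtain ⟨k1, k2⟩ := mem_filter.1 hτ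
    exact ⟨k1, (Prod.ext_iff.1 k2).1, (Prod.ext_iff.1 k2).2⟩
  have inj : Set.InjOn Prod.snd (B0 : Set (ℕ × ℕ)) := fun τ h1 σ h2 e =>
    Prod.ext ((mB0 τ h1).2.1.trans (mB0 σ h2).2.1.symm) e
  have cB0 : #B0 ≤ 2 ^ Y := by
    refine le_trans ?_ hpow
    rw [← card_range (g.D ^ g.ls)]
    exact card_le_card_of_injOn Prod.snd
      (fun τ hτ => mem_coe.2 (mem_range.2 (c2 τ (mB0 τ hτ).1).2.1)) inj
  have hy3 : (1 : ℝ) ≤ Y ^ 3 := one_le_pow₀ hy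
  obtain ⟨m, hm, d6⟩ := ampl B0 a lam (lam / (960 * Y ^ 3)) (5 * Y) hl
    (div_le_self hl.le (by linarith)) d5 (by
      have k1 : (#B0 : ℝ) ≤ 2 ^ Y := by exact_mod_cast cB0
      have k2 : (Y : ℝ) ^ 3 ≤ (2 ^ Y) ^ 3 := pow_le_pow_left₀ (by linarith) (hYH.trans hY) 3
      have k3 : (1920 : ℝ) ≤ 2 ^ Y := by linarith
      rw [div_div, ← mul_div_assoc, div_le_div_iff₀ (by positivity) (by positivity)]
      calc (#B0 : ℝ) * lam * (960 * Y ^ 3 * 2) = lam * (#B0 * Y ^ 3 * 1920) := by ring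
        _ ≤ lam * (2 ^ Y * (2 ^ Y) ^ 3 * 2 ^ Y) := by gcongr
        _ = lam * 2 ^ (5 * Y) := by ring)
  set B1 := {τ ∈ B0 | lam / 2 ^ m ≤ a τ} with hB1
  have sB : B1 ⊆ B0 := filter_subset _ _
  have inj1 : Set.InjOn Prod.snd (B1 : Set (ℕ × ℕ)) := inj.mono (coe_subset.2 sB)
  have cB : #(B1.image Prod.snd) = #B1 := card_image_of_injOn inj1
  have hne : 1 ≤ #B1 := by
    refine Nat.one_le_iff_ne_zero.2 fun e => ?_
    rw [e, Nat.cast_zero, zero_mul, mul_zero] at d6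
    have : 0 < lam / (960 * Y ^ 3) := by positivity
    linarith
  obtain ⟨k, k1, k2, k3⟩ := dyad hne ((card_le_card sB).trans cB0)
  obtain ⟨σ, hσ⟩ := card_pos.1 hne
  have hh : h < g.ls := (mB0 σ (sB hσ)).2.1 ▸ (c2 σ (mB0 σ (sB hσ)).1).1
  have hcap : 0 ≤ ((g.D : ℝ) ^ h) ^ ts := by positivity
  refine ⟨h, by omega, m, hm, k, k1, B1.image Prod.snd, hh, ?_, cB ▸ k2, cB ▸ k3, ?_, ?_, ?_⟩
  · intro b hb
    obtain ⟨τ, hτ, rfl⟩ := mem_image.1 hb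
    have := (mem_filter.1 hτ).2
    rwa [← (mB0 τ (sB hτ)).2.1]
  · refine le_trans ?_ (c4 h j')
    gcongr
    exact k2.trans (card_le_card fun τ hτ => mem_filter.2 (mB0 τ (sB hτ)))
  · intro h' a' p1 p2
    refine le_trans ?_ (c5 h j' h' a' p1 p2)
    gcongr
    refine le_trans (card_le_card (t := {τ ∈ Hv | τ.1 = h ∧ st τ = j' ∧
      τ.2 / g.D ^ (h' - h) = a'}.image Prod.snd) fun b hb => ?_) card_image_le
    obtain ⟨b1, b2⟩ := mem_filter.1 hb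
    obtain ⟨τ, hτ, rfl⟩ := mem_image.1 b1
    obtain ⟨t1, t2, t3⟩ := mB0 τ (sB hτ)
    exact mem_image_of_mem _ (mem_filter.2 ⟨t1, t2, t3, b2⟩)
  · have k4 : (#B1 : ℝ) ≤ 2 * ((2 ^ k : ℕ) : ℝ) := by exact_mod_cast k3
    rw [div_le_iff₀ (by positivity)] at d6
    have hp : 0 < lam / 2 ^ m := by positivity
    calc lam ≤ 4 * (((5 * Y : ℕ) : ℝ) + 1) * (#B1 * (lam / 2 ^ m)) * (960 * Y ^ 3) := d6
      _ ≤ 4 * (6 * Y) * (2 * ((2 ^ k : ℕ) : ℝ) * (lam / 2 ^ m)) * (960 * Y ^ 3) := by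
          gcongr
          push_cast
          linarith
      _ = 46080 * Y ^ 4 * ((2 ^ k : ℕ) : ℝ) * (lam / 2 ^ m) := by ring
      _ ≤ (((100 * Y) ^ 6 : ℕ) : ℝ) * ((2 ^ k : ℕ) : ℝ) * (lam / 2 ^ m) := by
          refine mul_le_mul_of_nonneg_right (mul_le_mul_of_nonneg_right ?_ (Nat.cast_nonneg _)) hp.le
          push_cast
          have k5 : (0 : ℝ) < Y ^ 4 := by positivity
          calc (46080 * Y ^ 4 : ℝ) ≤ 100 ^ 4 * Y ^ 4 := by linarith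
            _ = (100 * Y) ^ 4 := by ring
            _ ≤ (100 * Y) ^ 6 := pow_le_pow_right₀ (by linarith) (by norm_num)

end Tr

open Tr in
theorem tri : TriStmt := by
  classical
  intro g M F X A Y jm lam E th ts s0 γ0 Λ Sel T pk Ec cl S ok hY hYH hjm hE hEl hA hth hst hγ
    hsys hnf hap hbox hX hAp
  have hH := ok.H_ge
  have hl : 0 < lam := by
    by_contra hn
    nlinarith
  have hY1 : 1 ≤ Y := by
    by_contra hn
    have : Y = 0 := by omega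
    rw [this, pow_zero] at hY
    linarith
  have hy : (1 : ℝ) ≤ Y := by exact_mod_cast hY1
  have hI : ∀ p : ℝ × ℝ, ∃ I : Finset ℕ, p ∈ X →
      #I = A ∧ ∀ i ∈ I, i < g.K1 ∧ lam ≤ ‖ev M (F i) p‖ := by
    intro p
    by_cases hp : p ∈ X
    · obtain ⟨I, h1, h2⟩ := exists_subset_card_eq (hAp p hp)
      exact ⟨I, fun _ => ⟨h2, fun i hi =>
        ⟨mem_range.1 (mem_filter.1 (h1 hi)).1, (mem_filter.1 (h1 hi)).2⟩⟩⟩
    · exact ⟨∅, fun h => absurd h hp⟩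
  choose I hI using hI
  set Pa : Finset ((ℝ × ℝ) × ℕ) := X.biUnion fun p => (I p).image fun i => (p, i) with hPa
  have mPa : ∀ q, q ∈ Pa ↔ q.1 ∈ X ∧ q.2 ∈ I q.1 := by
    intro q
    simp only [hPa, mem_biUnion, mem_image]
    constructor
    · rintro ⟨p, h1, i, h2, rfl⟩; exact ⟨h1, h2⟩
    · rintro ⟨h1, h2⟩; exact ⟨q.1, h1, q.2, h2, rfl⟩
  have cPa : #Pa = #X * A := by
    rw [hPa, card_biUnion, sum_congr rfl (g := fun _ => A), sum_const, smul_eq_mul]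
    · intro p hp
      rw [card_image_of_injective _ (Prod.mk_right_injective p), (hI p hp).1]
    · intro p _ p' _ hne
      refine disjoint_left.2 fun q h1 h2 => hne ?_
      obtain ⟨i, _, rfl⟩ := mem_image.1 h1
      obtain ⟨i', _, e⟩ := mem_image.1 h2
      exact (Prod.ext_iff.1 e).1.symm
  let Good : (ℝ × ℝ) × ℕ → ℕ × ℕ × ℕ × ℕ × ℕ → Prop := fun q κ =>
    if κ.2.1 = 0 then LA g M ((100 * Y) ^ 6) lam th ts (T κ.1) pk
        (Sel κ.2.2.1 g.ls 0 (S κ.1 (cl q.1) q.2)) (2 ^ κ.2.2.2.2) q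
    else ∃ B, HV g M ((100 * Y) ^ 6) lam th ts (T κ.1) pk κ.2.2.1 (2 ^ κ.2.2.2.2)
        (lam / 2 ^ κ.2.2.2.1) q B
  set r := range (40 * Y) with hr
  have hgood : ∀ q ∈ Pa, ∃ κ ∈ r ×ˢ r ×ˢ r ×ˢ r ×ˢ r, Good q κ := by
    intro q hq
    obtain ⟨q1, q2⟩ := (mPa q).1 hq
    obtain ⟨i1, i2⟩ := (hI q.1 q1).2 q.2 q2
    have a1 := hap q.2 i1 q.1
    have a2 : E / g.H ^ 10 ≤ lam / 2 := by
      rw [div_le_div_iff₀ (by positivity) (by norm_num)]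
      have k1 : g.H ^ 2 ≤ g.H ^ 10 := pow_le_pow_right₀ (by linarith) (by norm_num)
      calc E * 2 ≤ g.H * lam * g.H := by gcongr; linarith
        _ = lam * g.H ^ 2 := by ring
        _ ≤ lam * g.H ^ 10 := by gcongr
    have a3 := norm_sub_norm_le (ev M (F q.2) q.1)
      (∑ c ∈ r, ∑ l ∈ range (g.D ^ g.ls), ev M (gl (T c) pk q.2 l) q.1)
    have a4 := norm_sum_le r fun c => ∑ l ∈ range (g.D ^ g.ls), ev M (gl (T c) pk q.2 l) q.1
    obtain ⟨c, hc, a5⟩ := exists_le_of_sum_le (s := r) (f := fun _ => lam / (80 * Y))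
      (g := fun c => ‖∑ l ∈ range (g.D ^ g.ls), ev M (gl (T c) pk q.2 l) q.1‖)
      ⟨0, mem_range.2 (by omega)⟩ (by
        have : ∑ _c ∈ r, lam / (80 * Y) = lam / 2 := by
          rw [sum_const, hr, card_range, nsmul_eq_mul]
          push_cast
          field_simp
          norm_num
        linarith)
    have sy := hsys c (mem_range.1 hc)
    obtain ⟨n1, n2⟩ := hnf c (mem_range.1 hc) q.1 (hbox _ q1) q.2
    have key := point (ε := E / g.H ^ 30) (S := S c (cl q.1) q.2) ok hY hYH hjm hl hst hγ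
      (by positivity) ?_ (fun l h => (n1 l h).1) (fun τ t1 t2 t3 => ?_) a5
    · rcases key with ⟨j, j1, k, k1, h⟩ | ⟨h, h1, m, m1, k, k1, B, hB⟩
      · refine ⟨(c, 0, j, 0, k), ?_, ?_⟩
        · simp only [mem_product, hr, mem_range] at hc ⊢
          omega
        · simpa only [Good, if_true] using h
      · refine ⟨(c, 1, h, m, k), ?_, ?_⟩
        · simp only [mem_product, hr, mem_range] at hc ⊢
          omega
        · simp only [Good, one_ne_zero, if_false]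
          exact ⟨B, hB⟩
    · calc (#(T c) : ℝ) * (E / g.H ^ 30) ≤ g.H ^ 8 * (g.H * lam / g.H ^ 30) := by
            gcongr
            exact sy.card
        _ = lam / g.H ^ 21 := by field_simp
    · refine sy.dec τ t1 q.1 ?_ (n2 τ t1 t2 t3)
      have := ok.tilt_small (hbox _ q1) (ok.cs_leaf (sy.idx τ t1).2.1)
      linarith [ok.L_ge, ok.R_pos]
  obtain ⟨⟨c, b, x, m, k⟩, hκ, hcard⟩ := pigeon Pa _
    ⟨(0, 0, 0, 0, 0), by simp only [mem_product, hr, mem_range]; omega⟩ Good hgood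
  obtain ⟨Pr, hcard, hPr⟩ : ∃ Pr : Finset ((ℝ × ℝ) × ℕ),
      #Pa ≤ #(r ×ˢ r ×ˢ r ×ˢ r ×ˢ r) * #Pr ∧ ∀ q ∈ Pr, q ∈ Pa ∧ Good q (c, b, x, m, k) :=
    ⟨_, hcard, fun q hq => by simpa only [mem_filter] using hq⟩
  have hPi : #X * A ≤ (100 * Y) ^ 6 * #Pr := by
    rw [← cPa]
    refine hcard.trans (Nat.mul_le_mul_right _ ?_)
    simp only [card_product, hr, card_range]
    calc 40 * Y * (40 * Y * (40 * Y * (40 * Y * (40 * Y)))) = (40 * Y) ^ 5 := by ring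
      _ ≤ (100 * Y) ^ 5 := Nat.pow_le_pow_left (by omega) _
      _ ≤ (100 * Y) ^ 6 := Nat.pow_le_pow_right (by omega) (by norm_num)
  have mPr : ∀ q ∈ Pr, q.1 ∈ X ∧ q.2 ∈ I q.1 := fun q hq => (mPa q).1 (hPr q hq).1
  have hIA : ∀ p (U : Finset ℕ), (∀ i ∈ U, (p, i) ∈ Pr) → #U ≤ A := by
    intro p U hU
    rcases U.eq_empty_or_nonempty with rfl | ⟨i, hi⟩
    · simp
    · rw [← (hI p (mPr _ (hU i hi)).1).1]
      exact card_le_card fun i hi => (mPr _ (hU i hi)).2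
  refine ⟨c, mem_range.1 (mem_product.1 hκ).1, ?_⟩
  by_cases hb : b = 0
  · left
    refine ⟨x, 2 ^ k, Pr, Nat.one_le_two_pow, fun q hq => ?_, fun p => ?_, hPi, fun q hq => ?_⟩
    · exact ⟨(mPr q hq).1, ((hI _ (mPr q hq).1).2 _ (mPr q hq).2).1⟩
    · refine le_trans (le_of_eq (card_image_of_injOn (f := Prod.snd) ?_).symm) (hIA p _ ?_)
      · intro q h1 q' h2 e
        exact Prod.ext ((mem_filter.1 (mem_coe.1 h1)).2.trans
          (mem_filter.1 (mem_coe.1 h2)).2.symm) e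
      · intro i hi
        obtain ⟨q, h1, rfl⟩ := mem_image.1 hi
        obtain ⟨h2, rfl⟩ := mem_filter.1 h1
        exact h2
    · have := (hPr q hq).2
      simp only [Good, hb, if_true] at this
      exact this
  right
  have hB : ∀ q : (ℝ × ℝ) × ℕ, ∃ B : Finset ℕ, q ∈ Pr →
      HV g M ((100 * Y) ^ 6) lam th ts (T c) pk x (2 ^ k) (lam / 2 ^ m) q B := by
    intro q
    by_cases hq : q ∈ Pr
    · have := (hPr q hq).2
      simp only [Good, hb, if_false] at this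
      obtain ⟨B, hB⟩ := this
      exact ⟨B, fun _ => hB⟩
    · exact ⟨∅, fun h => absurd h hq⟩
  choose B hB using hB
  have hne : Pr.Nonempty := by
    refine card_pos.1 (Nat.pos_of_ne_zero fun e => ?_)
    rw [e, mul_zero] at hPi
    have := Nat.mul_pos (card_pos.2 hX) hA
    omega
  obtain ⟨q0, hq0⟩ := hne
  set Fl : Finset ((ℝ × ℝ) × ℕ × ℕ) := Pr.biUnion fun q => (B q).image fun a => (q.1, q.2, a)
    with hFl
  have mFl : ∀ f ∈ Fl, (f.1, f.2.1) ∈ Pr ∧ f.2.2 ∈ B (f.1, f.2.1) := by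
    intro f hf
    obtain ⟨q, h1, h2⟩ := mem_biUnion.1 hf
    obtain ⟨a, h3, rfl⟩ := mem_image.1 h2
    exact ⟨h1, h3⟩
  have cFl : #Pr * 2 ^ k ≤ #Fl := by
    rw [hFl, card_biUnion]
    · refine le_trans (le_of_eq (smul_eq_mul _ _).symm) (card_nsmul_le_sum _ _ _ fun q hq => ?_)
      rw [card_image_of_injective _ fun a a' e => (Prod.ext_iff.1 (Prod.ext_iff.1 e).2).2]
      exact (hB q hq).2.2.1
    · intro q _ q' _ hne
      refine disjoint_left.2 fun f h1 h2 => hne ?_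
      obtain ⟨a, _, rfl⟩ := mem_image.1 h1
      obtain ⟨a', _, e⟩ := mem_image.1 h2
      exact Prod.ext (Prod.ext_iff.1 e).1.symm (Prod.ext_iff.1 (Prod.ext_iff.1 e).2).1.symm
  have hfib : ∀ p i (U : Finset ((ℝ × ℝ) × ℕ × ℕ)) (V : Finset ℕ),
      (∀ f ∈ U, f.1 = p ∧ f.2.1 = i ∧ f.2.2 ∈ V) → #U ≤ #V := by
    intro p i U V hU
    refine card_le_card_of_injOn (fun f => f.2.2) (fun f hf => (hU f hf).2.2) fun f h1 f' h2 e => ?_
    exact Prod.ext ((hU f h1).1.trans (hU f' h2).1.symm)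
      (Prod.ext ((hU f h1).2.1.trans (hU f' h2).2.1.symm) e)
  refine ⟨x, 2 ^ k, lam / 2 ^ m, Fl, (hB q0 hq0).1, Nat.one_le_two_pow, by positivity,
    fun f hf => ?_, fun p => hIA p _ fun i hi => ?_, fun p i => ?_, ?_, (hB q0 hq0).2.2.2.2.1,
    fun p i h' a' p1 p2 => ?_, (hB q0 hq0).2.2.2.2.2.2⟩
  · obtain ⟨h1, h2⟩ := mFl f hf
    exact ⟨(mPr _ h1).1, ((hI _ (mPr _ h1).1).2 _ (mPr _ h1).2).1, (hB _ h1).2.1 _ h2⟩
  · obtain ⟨f, h1, rfl⟩ := mem_image.1 hi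
    obtain ⟨h2, rfl⟩ := mem_filter.1 h1
    exact (mFl f h2).1
  · by_cases hq : (p, i) ∈ Pr
    · refine le_trans (hfib p i _ (B (p, i)) fun f hf => ?_) (hB _ hq).2.2.2.1
      obtain ⟨h1, rfl, rfl⟩ := mem_filter.1 hf
      exact ⟨rfl, rfl, (mFl f h1).2⟩
    · refine le_trans (hfib p i _ ∅ fun f hf => ?_) (Nat.zero_le _)
      obtain ⟨h1, rfl, rfl⟩ := mem_filter.1 hf
      exact absurd (mFl f h1).1 hq
  · calc #X * A * 2 ^ k ≤ (100 * Y) ^ 6 * #Pr * 2 ^ k := Nat.mul_le_mul_right _ hPi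
      _ = (100 * Y) ^ 6 * (#Pr * 2 ^ k) := by ring
      _ ≤ (100 * Y) ^ 6 * #Fl := Nat.mul_le_mul_left _ cFl
  · have hD := ok.D_ge
    by_cases hq : (p, i) ∈ Pr
    · refine le_trans ?_ ((hB _ hq).2.2.2.2.2.1 h' a' p1 p2)
      gcongr
      refine hfib p i _ _ fun f hf => ?_
      obtain ⟨h1, rfl, rfl, h2⟩ := mem_filter.1 hf
      exact ⟨rfl, rfl, mem_filter.2 ⟨(mFl f h1).2, h2⟩⟩
    · refine le_trans (b := ((0 : ℕ) : ℝ) * ((g.D : ℝ) ^ x) ^ ts) ?_ (by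
        rw [Nat.cast_zero, zero_mul]; positivity)
      gcongr
      refine hfib p i _ ∅ fun f hf => ?_
      obtain ⟨h1, rfl, rfl, _⟩ := mem_filter.1 hf
      exact absurd (mFl f h1).1 hq

end

end Pool.Agent.Lib.MP_108739_an.HA
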